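import Pool.Agent.Lib.MP_651af7_nt.P1Defs

/-! Slice by slice arguments for arrays on a product, and Siegel's lemma for slices. -/

namespace Pool.Agent.Lib.MP_651af7_nt.Vj.P1

open Finset

/- Sketch. Induction on m generalizing everything (Fin.consEquiv / Fin.insertNthEquiv, Fin.prod_univ_succ,
Fin.cons_update, Fin.update_cons_zero): c' tau' := sum_t c (cons t tau') * e 0 t has N <= gamma 0 * H and
its slices are combinations of slices of c. -/
theorem SN.multi {R : Type} [CommRing R] {na : Prop} (S : SN R na) {m : ℕ} {T L : Fin m → Type}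
    [∀ i, Fintype (T i)] (e : ∀ i, T i → R) (J : ∀ i, L i → T i → R) (γ : Fin m → ℝ)
    (hγ : ∀ i, 0 ≤ γ i)
    (hb : ∀ i (h : T i → R) (H : ℝ), 0 ≤ H → (∀ t, S.N (h t) ≤ H) →
      (∀ n, ∑ t, h t * J i n t = 0) → S.N (∑ t, h t * e i t) ≤ γ i * H)
    (c : (∀ i, T i) → R) (H : ℝ) (hH : 0 ≤ H) (hc : ∀ τ, S.N (c τ) ≤ H)
    (hJ : ∀ i n τ, ∑ t, c (Function.update τ i t) * J i n t = 0) :
    S.N (∑ τ, c τ * ∏ i, e i (τ i)) ≤ (∏ i, γ i) * H := by
  induction m generalizing H with
  | zero => simpa using hc _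
  | succ m ih =>
    rw [← (Fin.consEquiv T).sum_comp, Fintype.sum_prod_type, sum_comm, Fin.prod_univ_succ,
      mul_comm (γ 0), mul_assoc]
    have key := ih (fun i => e i.succ) (fun i => J i.succ) (fun i => γ i.succ) (fun i => hγ _)
      (fun i => hb i.succ) (fun τ' => ∑ t, c (Fin.cons t τ') * e 0 t) (γ 0 * H)
      (mul_nonneg (hγ 0) hH) ?_ ?_
    · convert key using 3 with τ'
      rw [sum_mul]
      refine sum_congr rfl fun t _ => ?_
      simp [Fin.consEquiv, Fin.prod_univ_succ, mul_assoc]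
    · intro τ'
      refine hb 0 (fun t => c (Fin.cons t τ')) H hH (fun t => hc _) fun n => ?_
      cases isEmpty_or_nonempty (T 0) with
      | inl h => simp
      | inr h =>
        obtain ⟨t₀⟩ := h
        simpa [Fin.update_cons_zero] using hJ 0 n (Fin.cons t₀ τ')
    · intro i n τ'
      simp only [sum_mul]
      rw [sum_comm]
      refine sum_eq_zero fun s _ => ?_
      have := hJ i.succ n (Fin.cons s τ')
      simp only [← Fin.cons_update] at this
      calc _ = (∑ t, c (Fin.cons s (Function.update τ' i t)) * J i.succ n t) * e 0 s := by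
            rw [sum_mul]
            exact sum_congr rfl fun t _ => by ring
        _ = 0 := by rw [this, zero_mul]

theorem tens_ne_zero_fin {F : Type} [Field F] {m : ℕ} {T Z : Fin m → Type}
    [∀ i, Fintype (T i)] (p : ∀ i, Z i → T i → F)
    (hp : ∀ i (h : T i → F), h ≠ 0 → ∃ z, ∑ t, h t * p i z t ≠ 0)
    (c : (∀ i, T i) → F) (hc : c ≠ 0) :
    ∃ z : ∀ i, Z i, ∑ τ, c τ * ∏ i, p i (z i) (τ i) ≠ 0 := by
  obtain ⟨τ₀, h₀⟩ := Function.ne_iff.mp hc
  induction m with
  | zero =>
    refine ⟨fun i => i.elim0, ?_⟩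
    rw [Fintype.sum_subsingleton _ τ₀]
    simpa using h₀
  | succ m ih =>
    obtain ⟨z₀, hz₀⟩ := hp 0 (fun t => c (Fin.cons t (Fin.tail τ₀)))
      (Function.ne_iff.mpr ⟨τ₀ 0, by simpa using h₀⟩)
    obtain ⟨z, hz⟩ := ih (fun i => p i.succ) (fun i => hp i.succ)
      (fun τ' => ∑ t, c (Fin.cons t τ') * p 0 z₀ t)
      (Function.ne_iff.mpr ⟨Fin.tail τ₀, hz₀⟩) (Fin.tail τ₀) hz₀
    refine ⟨Fin.cons z₀ z, ?_⟩
    rw [← (Fin.consEquiv T).sum_comp, Fintype.sum_prod_type, sum_comm]
    convert hz using 2 with τ'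
    rw [sum_mul]
    refine sum_congr rfl fun t _ => ?_
    simp [Fin.consEquiv, Fin.prod_univ_succ, mul_assoc]

/- Sketch. First for iota = Fin m by induction as above, then transport along Fintype.equivFin
(or Fintype.induction_empty_option). -/
theorem tens_ne_zero {F : Type} [Field F] {ι : Type} [Fintype ι] [DecidableEq ι] {T Z : ι → Type}
    [∀ i, Fintype (T i)] (p : ∀ i, Z i → T i → F)
    (hp : ∀ i (h : T i → F), h ≠ 0 → ∃ z, ∑ t, h t * p i z t ≠ 0)
    (c : (∀ i, T i) → F) (hc : c ≠ 0) :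
    ∃ z : ∀ i, Z i, ∑ τ, c τ * ∏ i, p i (z i) (τ i) ≠ 0 := by
  classical
  let ε : Fin (Fintype.card ι) ≃ ι := (Fintype.equivFin ι).symm
  obtain ⟨τ₀, h₀⟩ := Function.ne_iff.mp hc
  obtain ⟨z, hz⟩ := tens_ne_zero_fin (T := fun a => T (ε a)) (Z := fun a => Z (ε a))
    (fun a => p (ε a)) (fun a => hp (ε a)) (fun τ => c (Equiv.piCongrLeft T ε τ))
    (Function.ne_iff.mpr ⟨(Equiv.piCongrLeft T ε).symm τ₀, by simpa using h₀⟩)
  refine ⟨Equiv.piCongrLeft Z ε z, ?_⟩
  rw [← (Equiv.piCongrLeft T ε).sum_comp]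
  convert hz using 3 with τ
  rw [← ε.prod_comp]
  simp only [Equiv.piCongrLeft_apply_apply]

/- Sketch. Unknowns Z x (forall i, T i); equations Sigma i, L i x (forall i' : {i' // i' <> i}, T i')
(Equiv.piSplitAt); twice the number of equations is at most the number of unknowns.
Int.Matrix.exists_ne_zero_int_vec_norm_le (exponent <= 1); if there is no equation take one basis vector. -/
attribute [local instance] Matrix.seminormedAddCommGroup in
theorem exists_slices {m : ℕ} {Z : Type} [Fintype Z] [Nonempty Z] {T L : Fin m → Type}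
    [∀ i, Fintype (T i)] [∀ i, Nonempty (T i)] [∀ i, Fintype (L i)]
    (Λ : ∀ i, L i → Z → T i → ℤ) (A : ℝ) (hA : 1 ≤ A) (hΛ : ∀ i n z t, |(Λ i n z t : ℝ)| ≤ A)
    (hcard : ∀ i, 2 * m * Fintype.card (L i) ≤ Fintype.card Z * Fintype.card (T i)) :
    ∃ c : Z → (∀ i, T i) → ℤ, c ≠ 0 ∧
      (∀ z τ, |(c z τ : ℝ)| ≤ Fintype.card Z * (∏ i, (Fintype.card (T i) : ℝ)) * A) ∧
      ∀ i n τ, ∑ z, ∑ t, c z (Function.update τ i t) * Λ i n z t = 0 := by
  classical
  have hT : ∀ i, (1 : ℝ) ≤ Fintype.card (T i) := fun i => by exact_mod_cast Fintype.card_pos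
  have hZ : (1 : ℝ) ≤ Fintype.card Z := by exact_mod_cast Fintype.card_pos
  have hP : (1 : ℝ) ≤ ∏ i, (Fintype.card (T i) : ℝ) := by
    exact_mod_cast Finset.prod_pos fun i _ => Fintype.card_pos (α := T i)
  let α : Type := Σ i : Fin m, L i × (∀ i' : {i' // i' ≠ i}, T i')
  let β : Type := Z × (∀ i, T i)
  have hβ : (Fintype.card β : ℝ) = Fintype.card Z * ∏ i, (Fintype.card (T i) : ℝ) := by
    simp [β]
  by_cases hα : Fintype.card α = 0
  · refine ⟨fun _ _ => 1, ?_, fun z τ => ?_, fun i n τ => ?_⟩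
    · exact Function.ne_iff.mpr ⟨Classical.arbitrary Z, Function.ne_iff.mpr
        ⟨Classical.arbitrary _, one_ne_zero⟩⟩
    · simpa using one_le_mul_of_one_le_of_one_le (one_le_mul_of_one_le_of_one_le hZ hP) hA
    · exact ((Fintype.card_eq_zero_iff.mp hα).false ⟨i, n, fun i' => τ i'⟩).elim
  have hα' : 0 < Fintype.card α := Nat.pos_of_ne_zero hα
  have h2 : 2 * Fintype.card α ≤ Fintype.card β := by
    have hm : 0 < m := by
      obtain ⟨⟨i, _⟩⟩ := Fintype.card_pos_iff.mp hα'
      exact i.pos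
    refine Nat.le_of_mul_le_mul_left (c := m) ?_ hm
    have h3 : ∀ i, m * (2 * Fintype.card (L i × (∀ i' : {i' // i' ≠ i}, T i'))) ≤
        Fintype.card β := fun i => by
      rw [Fintype.card_prod, Fintype.card_prod, Fintype.card_congr (Equiv.piSplitAt i T),
        Fintype.card_prod, ← mul_assoc (Fintype.card Z)]
      calc _ = (2 * m * Fintype.card (L i)) * Fintype.card (∀ i' : {i' // i' ≠ i}, T i') := by
            ring
        _ ≤ _ := Nat.mul_le_mul_right _ (hcard i)
    calc m * (2 * Fintype.card α)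
        = ∑ i, m * (2 * Fintype.card (L i × (∀ i' : {i' // i' ≠ i}, T i'))) := by
          rw [Fintype.card_sigma, mul_sum, mul_sum]
      _ ≤ ∑ _i : Fin m, Fintype.card β := sum_le_sum fun i _ => h3 i
      _ = m * Fintype.card β := by simp
  let M : Matrix α β ℤ := fun r q =>
    if (Equiv.piSplitAt r.1 T q.2).2 = r.2.2 then Λ r.1 r.2.1 q.1 (q.2 r.1) else 0
  obtain ⟨t, ht0, htM, htn⟩ := Int.Matrix.exists_ne_zero_int_vec_norm_le M (by omega) hα'
  refine ⟨fun z τ => t (z, τ), ?_, fun z τ => ?_, fun i n τ => ?_⟩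
  · obtain ⟨⟨z, τ⟩, h⟩ := Function.ne_iff.mp ht0
    exact Function.ne_iff.mpr ⟨z, Function.ne_iff.mpr ⟨τ, h⟩⟩
  · rw [← hβ]
    have h1 : (1 : ℝ) ≤ Fintype.card β := by
      rw [hβ]; exact one_le_mul_of_one_le_of_one_le hZ hP
    have hM : max 1 ‖M‖ ≤ A := by
      refine max_le hA ?_
      rw [Matrix.norm_le_iff (by linarith)]
      intro r q
      simp only [M]
      split_ifs
      · exact hΛ _ _ _ _
      · simpa using (by linarith : (0 : ℝ) ≤ A)
    have h2' : (2 : ℝ) * Fintype.card α ≤ Fintype.card β := by exact_mod_cast h2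
    have hα'' : (0 : ℝ) < Fintype.card α := by exact_mod_cast hα'
    calc |(t (z, τ) : ℝ)| = ‖t (z, τ)‖ := rfl
      _ ≤ ‖t‖ := norm_le_pi_norm t _
      _ ≤ _ := htn
      _ ≤ (Fintype.card β * max 1 ‖M‖) ^ (1 : ℝ) := by
          refine Real.rpow_le_rpow_of_exponent_le
            (one_le_mul_of_one_le_of_one_le h1 (le_max_left _ _)) ?_
          rw [div_le_one (by linarith)]
          linarith
      _ ≤ _ := by
          rw [Real.rpow_one]
          exact mul_le_mul_of_nonneg_left hM (by linarith)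
  · have h := congrFun htM ⟨i, n, (Equiv.piSplitAt i T τ).2⟩
    simp only [Matrix.mulVec, dotProduct, Pi.zero_apply, β, Fintype.sum_prod_type] at h
    rw [← h]
    refine sum_congr rfl fun z _ => ?_
    rw [← (Equiv.piSplitAt i T).symm.sum_comp, Fintype.sum_prod_type]
    refine sum_congr rfl fun s _ => ?_
    simp only [M, Equiv.apply_symm_apply, ite_mul, zero_mul, sum_ite_eq', mem_univ, if_true]
    have : (Equiv.piSplitAt i T).symm (s, (Equiv.piSplitAt i T τ).2) = Function.update τ i s := by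
      funext j
      by_cases hj : j = i
      · subst hj; simp
      · simp [hj]
    rw [this, Function.update_self, mul_comm]

/-- A coefficient that is minimal for the product order. -/
theorem exists_min_coeff {K V : Type} [Field K] [Fintype V] (f : MvPowerSeries V K) (κ : V →₀ ℕ)
    (h : MvPowerSeries.coeff κ f ≠ 0) :
    ∃ κ' ≤ κ, MvPowerSeries.coeff κ' f ≠ 0 ∧ ∀ u : MvPowerSeries V K,
      MvPowerSeries.coeff κ' (u * f) =
        MvPowerSeries.constantCoeff u * MvPowerSeries.coeff κ' f := by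
  classical
  obtain ⟨κ', hle, hmin⟩ := exists_minimal_le_of_wellFoundedLT
    (fun κ' : V →₀ ℕ => MvPowerSeries.coeff κ' f ≠ 0) κ h
  refine ⟨κ', hle, hmin.1, fun u => ?_⟩
  rw [MvPowerSeries.coeff_mul, sum_eq_single (0, κ')]
  · simp
  · rintro ⟨a, b⟩ hab hne
    rw [HasAntidiagonal.mem_antidiagonal] at hab
    by_contra h0
    have hb : b ≤ κ' := hab ▸ le_add_self
    have hb' : b = κ' := le_antisymm hb (hmin.2 (right_ne_zero_of_mul h0) hb)
    subst hb'
    exact hne (Prod.ext (by simpa using hab) rfl)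
  · simp

end Pool.Agent.Lib.MP_651af7_nt.Vj.P1
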