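import Mathlib

/-!
From an approximate parallelogram law on a finitely generated abelian group to an additive map
into a Euclidean space whose squared norm is within a bounded distance of the height.
-/

namespace Pool.Agent.MP_651af7_nt.MW

open Filter Topology

variable {G : Type*} [AddCommGroup G]

lemma exists_exact_parallelogram (h : G → ℝ) (C : ℝ)
    (H : ∀ P Q, |h (P + Q) + h (P - Q) - 2 * (h P + h Q)| ≤ C) :
    ∃ (q : G → ℝ) (C' : ℝ), (∀ P Q, q (P + Q) + q (P - Q) = 2 * (q P + q Q)) ∧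
      ∀ P, |q P - h P| ≤ C' := by
  set D := C + |h 0| with hD
  have hdup : ∀ P, |h (P + P) - 4 * h P| ≤ D := fun P => by
    have h1 := H P P
    rw [sub_self, abs_le] at h1
    have h2 := le_abs_self (h 0)
    have h3 := neg_abs_le (h 0)
    rw [abs_le]
    constructor <;> linarith [h1.1, h1.2]
  let a : G → ℕ → ℝ := fun P n => h ((2 ^ n : ℕ) • P) / 4 ^ n
  have hstep : ∀ P n, dist (a P n) (a P (n + 1)) ≤ D / 4 * (1 / 4) ^ n := fun P n => by
    have h1 := hdup ((2 ^ n : ℕ) • P)
    have e : (2 ^ (n + 1) : ℕ) • P = (2 ^ n : ℕ) • P + (2 ^ n : ℕ) • P := by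
      rw [pow_succ, mul_two, add_nsmul]
    have e2 : a P n - a P (n + 1) =
        -(h ((2 ^ n : ℕ) • P + (2 ^ n : ℕ) • P) - 4 * h ((2 ^ n : ℕ) • P)) / 4 * (1 / 4) ^ n := by
      simp only [a, e]
      rw [one_div, inv_pow, pow_succ]
      field_simp
      ring
    rw [Real.dist_eq, e2, abs_mul, abs_div, abs_neg, abs_of_pos (by positivity : (0 : ℝ) < 4),
      abs_of_pos (by positivity : (0 : ℝ) < (1 / 4) ^ n)]
    gcongr
  have hc : ∀ P, ∃ l, Tendsto (a P) atTop (𝓝 l) := fun P =>
    cauchySeq_tendsto_of_complete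
      (cauchySeq_of_le_geometric (1 / 4) (D / 4) (by norm_num) (hstep P))
  choose q hq using hc
  refine ⟨q, D / 4 / (1 - 1 / 4), fun P Q => ?_, fun P => ?_⟩
  · have t1 : Tendsto (fun n => a (P + Q) n + a (P - Q) n - 2 * (a P n + a Q n)) atTop
        (𝓝 (q (P + Q) + q (P - Q) - 2 * (q P + q Q))) :=
      ((hq _).add (hq _)).sub (((hq _).add (hq _)).const_mul 2)
    have t2 : Tendsto (fun n => a (P + Q) n + a (P - Q) n - 2 * (a P n + a Q n)) atTop (𝓝 0) := by
      have t3 : Tendsto (fun n : ℕ => C * (1 / 4 : ℝ) ^ n) atTop (𝓝 0) := by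
        simpa using (tendsto_pow_atTop_nhds_zero_of_lt_one (r := (1 / 4 : ℝ)) (by norm_num)
          (by norm_num)).const_mul C
      refine squeeze_zero_norm (fun n => ?_) t3
      have h1 := H ((2 ^ n : ℕ) • P) ((2 ^ n : ℕ) • Q)
      have e2 : a (P + Q) n + a (P - Q) n - 2 * (a P n + a Q n) =
          (h ((2 ^ n : ℕ) • P + (2 ^ n : ℕ) • Q) + h ((2 ^ n : ℕ) • P - (2 ^ n : ℕ) • Q) -
            2 * (h ((2 ^ n : ℕ) • P) + h ((2 ^ n : ℕ) • Q))) * (1 / 4) ^ n := by
        simp only [a, nsmul_add, nsmul_sub]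
        rw [one_div, inv_pow]
        field_simp
      rw [Real.norm_eq_abs, e2, abs_mul, abs_of_pos (by positivity : (0 : ℝ) < (1 / 4) ^ n)]
      gcongr
    linarith [tendsto_nhds_unique t1 t2]
  · have := dist_le_of_le_geometric_of_tendsto₀ (1 / 4) (D / 4) (by norm_num) (hstep P) (hq P)
    rw [Real.dist_eq, abs_sub_comm] at this
    simpa [a] using this

lemma exists_bilin_of_parallelogram (q : G → ℝ)
    (H : ∀ P Q, q (P + Q) + q (P - Q) = 2 * (q P + q Q)) :
    ∃ B : G →+ G →+ ℝ, (∀ P Q, B P Q = B Q P) ∧ ∀ P, B P P = q P := by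
  have h0 : q 0 = 0 := by
    have := H 0 0
    rw [add_zero, sub_zero] at this
    linarith
  have h3 : ∀ P Q R, q (P + R + Q) - q (P + R) - q (P + Q) - q (R + Q) + q P + q R + q Q = 0 := by
    intro P Q R
    have a1 := H (P + R) Q
    have a2 := H P (R - Q)
    have a3 := H (P + Q) R
    have a4 := H R Q
    rw [show P + (R - Q) = P + R - Q by abel, show P - (R - Q) = P + Q - R by abel] at a2
    rw [show P + Q + R = P + R + Q by abel] at a3
    linarith
  let b : G → G → ℝ := fun P Q => (q (P + Q) - q P - q Q) / 2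
  have hs : ∀ P Q, b P Q = b Q P := fun P Q => by
    simp only [b, add_comm P Q]
    ring
  have ha : ∀ P R Q, b (P + R) Q = b P Q + b R Q := fun P R Q => by
    simp only [b]
    linarith [h3 P Q R]
  refine ⟨AddMonoidHom.mk' (fun P => AddMonoidHom.mk' (b P) fun Q R => ?_) fun P R => ?_,
    fun P Q => hs P Q, fun P => ?_⟩
  · rw [hs, ha, hs Q, hs R]
  · ext Q
    exact ha P R Q
  · have := H P P
    rw [sub_self, h0] at this
    show b P P = q P
    simp only [b]
    linarith

lemma bilin_cauchy_schwarz (B : G →+ G →+ ℝ) (hs : ∀ P Q, B P Q = B Q P) (hp : ∀ P, 0 ≤ B P P)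
    (P Q : G) : B P Q ^ 2 ≤ B P P * B Q Q := by
  have h1 : ∀ r : ℚ, 0 ≤ B P P * ((r : ℝ) * r) + 2 * B P Q * r + B Q Q := fun r => by
    have h2 := hp (r.num • P + (r.den : ℤ) • Q)
    simp only [map_add, map_zsmul, AddMonoidHom.add_apply, AddMonoidHom.zsmul_apply, zsmul_eq_mul,
      hs Q P] at h2
    have hd : (0 : ℝ) < r.den := by exact_mod_cast r.den_pos
    have e : (r : ℝ) = r.num / r.den := by exact_mod_cast (Rat.num_div_den r).symm
    have e2 : B P P * ((r : ℝ) * r) + 2 * B P Q * r + B Q Q =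
        ((r.num : ℝ) * (r.num * B P P + r.den * B P Q) +
          r.den * (r.num * B P Q + r.den * B Q Q)) / r.den ^ 2 := by
      rw [e]
      field_simp
      ring
    rw [e2]
    refine div_nonneg ?_ (by positivity)
    push_cast at h2
    linarith
  have h2 : ∀ x : ℝ, 0 ≤ B P P * (x * x) + 2 * B P Q * x + B Q Q := fun x =>
    Rat.denseRange_cast.induction_on x (isClosed_le continuous_const (by fun_prop)) h1
  have h3 := discrim_le_zero h2
  rw [discrim] at h3
  nlinarith

lemma exists_sum_sq_aux (s : Finset G) : ∀ B : G →+ G →+ ℝ, (∀ P Q, B P Q = B Q P) →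
    (∀ P, 0 ≤ B P P) → AddSubgroup.closure ((s : Set G) ∪ B.ker) = ⊤ →
    ∃ (r : ℕ) (l : Fin r → G →+ ℝ), ∀ P, B P P = ∑ i, l i P ^ 2 := by
  classical
  induction s using Finset.induction_on with
  | empty =>
    intro B _ _ hc
    refine ⟨0, Fin.elim0, fun P => ?_⟩
    have : P ∈ B.ker := by
      rw [Finset.coe_empty, Set.empty_union, AddSubgroup.closure_eq] at hc
      rw [hc]; trivial
    simp [AddMonoidHom.mem_ker.mp this]
  | insert g s _ ih =>
    intro B hs hp hc
    let l : G →+ ℝ := (√(B g g))⁻¹ • B g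
    have hl : ∀ P, l P = (√(B g g))⁻¹ * B g P := fun P => rfl
    have hll : ∀ P Q, l P * l Q = B g P * B g Q / B g g := fun P Q => by
      rw [hl, hl, mul_mul_mul_comm, ← mul_inv, Real.mul_self_sqrt (hp g)]
      ring
    let B' : G →+ G →+ ℝ := B - ((AddMonoidHom.mul.comp l).flip.comp l).flip
    have hB' : ∀ P Q, B' P Q = B P Q - l P * l Q := fun P Q => rfl
    obtain ⟨r, l', h'⟩ := ih B' (fun P Q => by rw [hB', hB', hs, mul_comm]) (fun P => by
      rw [hB', hll, sub_nonneg]
      rcases (hp g).eq_or_lt with h0 | h0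
      · rw [← h0, div_zero]; exact hp P
      · rw [div_le_iff₀ h0, ← sq, mul_comm]
        exact bilin_cauchy_schwarz B hs hp g P) (by
      rw [eq_top_iff, ← hc, AddSubgroup.closure_le]
      rintro p (hp' | hp')
      · rw [Finset.coe_insert] at hp'
        rcases hp' with rfl | hp'
        · refine AddSubgroup.subset_closure (Or.inr ?_)
          refine AddMonoidHom.mem_ker.mpr (AddMonoidHom.ext fun Q => ?_)
          rw [hB', hll]
          rcases (hp p).eq_or_lt with h0 | h0
          · have := bilin_cauchy_schwarz B hs hp p Q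
            rw [← h0, zero_mul] at this
            have h1 : B p Q = 0 := by nlinarith
            simp [h1]
          · have := h0.ne'
            simp only [AddMonoidHom.zero_apply]
            field_simp
            ring
        · exact AddSubgroup.subset_closure (Or.inl hp')
      · refine AddSubgroup.subset_closure (Or.inr ?_)
        have h1 : B p = 0 := AddMonoidHom.mem_ker.mp hp'
        refine AddMonoidHom.mem_ker.mpr (AddMonoidHom.ext fun Q => ?_)
        rw [hB', hll, hs g p, h1]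
        simp)
    refine ⟨r + 1, Fin.cons l l', fun P => ?_⟩
    rw [Fin.sum_univ_succ]
    simp only [Fin.cons_zero, Fin.cons_succ]
    rw [← h', hB']
    ring

theorem exists_euclid_of_approx [hG : AddGroup.FG G] (h : G → ℝ) (h0 : ∀ P, 0 ≤ h P) (C : ℝ)
    (H : ∀ P Q, |h (P + Q) + h (P - Q) - 2 * (h P + h Q)| ≤ C) :
    ∃ (r : ℕ) (φ : G →+ EuclideanSpace ℝ (Fin r)) (C' : ℝ), ∀ P, |‖φ P‖ ^ 2 - h P| ≤ C' := by
  obtain ⟨q, C', hq, hC'⟩ := exists_exact_parallelogram h C H
  obtain ⟨B, hs, hB⟩ := exists_bilin_of_parallelogram q hq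
  have hp : ∀ P, 0 ≤ B P P := fun P => by
    by_contra hneg
    push Not at hneg
    obtain ⟨n, hn⟩ := exists_nat_gt (C' / -B P P)
    rw [div_lt_iff₀ (by linarith)] at hn
    have h1 := hC' ((n + 1) • P)
    rw [← hB, abs_le] at h1
    simp only [map_nsmul, AddMonoidHom.nsmul_apply, nsmul_eq_mul] at h1
    have h2 := h0 ((n + 1) • P)
    have h3 : (0 : ℝ) ≤ n := Nat.cast_nonneg n
    have h4 := h1.1
    push_cast at h4
    nlinarith [mul_nonneg h3 h3]
  obtain ⟨s, hsg⟩ := hG.out
  obtain ⟨r, l, hl⟩ := exists_sum_sq_aux s B hs hp (by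
    rw [eq_top_iff, ← hsg]
    exact AddSubgroup.closure_mono Set.subset_union_left)
  refine ⟨r, AddMonoidHom.mk' (fun P => WithLp.toLp 2 fun i => l i P) fun P Q => ?_, C',
    fun P => ?_⟩
  · ext i
    simp
  · rw [EuclideanSpace.real_norm_sq_eq]
    have := hC' P
    rw [← hB, hl] at this
    simpa using this

end Pool.Agent.MP_651af7_nt.MW
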