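import Mathlib

/-!
Naive height of the x-coordinate on an elliptic curve, approximate parallelogram law, Northcott.
-/

namespace Pool.Agent.MP_651af7_nt.MW

open WeierstrassCurve WeierstrassCurve.Affine WeierstrassCurve.Affine.Point MvPolynomial

section field

variable {F : Type*} [Field F] [DecidableEq F] {W : WeierstrassCurve F} [W.IsElliptic]

omit [DecidableEq F] [W.IsElliptic] in
lemma addSubMap_eval (s t u : F) :
    (fun i => (addSubMap W i).eval ![s, t, u]) =
      ![s ^ 2 - W.b₄ * s * u - W.b₆ * t * u - W.b₈ * u ^ 2,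
        2 * t * s + W.b₂ * s * u + W.b₄ * t * u + W.b₆ * u ^ 2, t ^ 2 - 4 * s * u] := by
  ext i
  fin_cases i <;> simp [addSubMap]

lemma sym2x_self_aux (P : W.toAffine.Point) :
    ∃ c : F, c ≠ 0 ∧
      (fun i => (addSubMap W i).eval (sym2x P P)) = c • sym2x (P + P) (0 : W.toAffine.Point) := by
  rcases P with _ | ⟨x, y, h⟩
  · refine ⟨1, one_ne_zero, ?_⟩
    rw [← zero_def, add_zero, sym2x_zero_zero, addSubMap_eval]
    simp
  · have he := (W.toAffine.equation_iff x y).mp h.1
    by_cases hy : y = W.toAffine.negY x y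
    · rw [add_self_of_Y_eq hy, sym2x_zero_zero, sym2x_some_some]
      have hne := addSubMap_ne_zero W (x := ![x * x, x + x, 1]) (by simp)
      rw [addSubMap_eval] at hne ⊢
      simp only [negY] at hy
      have h1 : 2 * (x + x) * (x * x) + W.b₂ * (x * x) * 1 + W.b₄ * (x + x) * 1 + W.b₆ * 1 ^ 2
          = 0 := by
        simp only [b₂, b₄, b₆]
        linear_combination (-4) * he + (2 * y + W.a₁ * x + W.a₃) * hy
      have h2 : (x + x) ^ 2 - 4 * (x * x) * 1 = 0 := by ring
      rw [h1, h2] at hne ⊢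
      refine ⟨(x * x) ^ 2 - W.b₄ * (x * x) * 1 - W.b₆ * (x + x) * 1 - W.b₈ * 1 ^ 2,
        fun h0 => hne ?_, ?_⟩
      · rw [h0]
        ext i
        fin_cases i <;> simp
      · ext i
        fin_cases i <;> simp
    · rw [add_self_of_Y_ne hy, sym2x_some_zero, sym2x_some_some, addSubMap_eval]
      have hy' : y - W.toAffine.negY x y ≠ 0 := sub_ne_zero.mpr hy
      refine ⟨(y - W.toAffine.negY x y) ^ 2, pow_ne_zero 2 hy', ?_⟩
      rw [slope_of_Y_ne rfl hy]
      ext i
      fin_cases i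
      · simp only [addX, Fin.zero_eta, Matrix.cons_val_zero, Pi.smul_apply, smul_eq_mul]
        field_simp
        simp only [negY, b₄, b₆, b₈]
        linear_combination (exp := 1) (W.a₁ ^ 2 + 4 * W.a₂ + 8 * x) * he
      · simp only [Fin.mk_one, Matrix.cons_val_one, Matrix.cons_val_zero, Pi.smul_apply,
          smul_eq_mul, negY, b₂, b₄, b₆]
        linear_combination (-4) * he
      · simp
        ring

lemma addSubMap_sym2x (P Q : W.toAffine.Point) :
    ∃ c : F, c ≠ 0 ∧
      (fun i => (addSubMap W i).eval (sym2x P Q)) = c • sym2x (P + Q) (P - Q) := by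
  rcases P with _ | ⟨x₁, y₁, h₁⟩
  · refine ⟨1, one_ne_zero, ?_⟩
    rw [← zero_def, zero_add, zero_sub, sym2x_neg_right]
    rcases Q with _ | ⟨x₂, y₂, h₂⟩
    · rw [← zero_def, sym2x_zero_zero, addSubMap_eval]
      simp
    · rw [sym2x_zero_some, sym2x_some_some, addSubMap_eval]
      ext i
      fin_cases i <;> simp <;> ring
  rcases Q with _ | ⟨x₂, y₂, h₂⟩
  · refine ⟨1, one_ne_zero, ?_⟩
    rw [← zero_def, add_zero, sub_zero, sym2x_some_zero, sym2x_some_some, addSubMap_eval]
    ext i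
    fin_cases i <;> simp <;> ring
  by_cases hx : x₁ = x₂
  · rcases (X_eq_iff (h₁ := h₁) (h₂ := h₂)).mp hx with h | h
    · rw [← h, sub_self]
      exact sym2x_self_aux _
    · have h' : some x₂ y₂ h₂ = -some x₁ y₁ h₁ := by rw [h, neg_neg]
      rw [h', sym2x_neg_right, add_neg_cancel, sub_neg_eq_add, sym2x_comm 0]
      exact sym2x_self_aux _
  · have he₁ := (W.toAffine.equation_iff x₁ y₁).mp h₁.1
    have he₂ := (W.toAffine.equation_iff x₂ y₂).mp h₂.1
    have hx' : x₁ - x₂ ≠ 0 := sub_ne_zero.mpr hx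
    refine ⟨(x₁ - x₂) ^ 2, pow_ne_zero 2 hx', ?_⟩
    rw [sub_eq_add_neg (some x₁ y₁ h₁), neg_some, add_of_X_ne hx, add_of_X_ne hx, sym2x_some_some,
      sym2x_some_some, addSubMap_eval, slope_of_X_ne hx, slope_of_X_ne hx]
    ext i
    fin_cases i
    · simp only [addX, Fin.zero_eta, Matrix.cons_val_zero, Pi.smul_apply, smul_eq_mul]
      field_simp
      simp only [negY, b₄, b₆, b₈]
      grind
    · simp only [addX, Fin.mk_one, Matrix.cons_val_one, Matrix.cons_val_zero, Pi.smul_apply,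
        smul_eq_mul]
      field_simp
      simp only [negY, b₂, b₄, b₆]
      linear_combination (-2) * he₁ + (-2) * he₂
    · simp
      ring

end field

variable {K : Type*} [Field K] [NumberField K] {W : WeierstrassCurve K}

/-- The naive logarithmic height of a point: the height of its x-coordinate in the projective
line (0 for the point at infinity). -/
noncomputable def hx (P : W.toAffine.Point) : ℝ := Height.logHeight P.xRep

lemma hx_nonneg (P : W.toAffine.Point) : 0 ≤ hx P := Height.logHeight_nonneg _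

lemma hx_neg (P : W.toAffine.Point) : hx (-P) = hx P := by simp [hx]

lemma hx_some {x y : K} (h : W.toAffine.Nonsingular x y) :
    hx (some x y h) = Height.logHeight₁ x := by
  rw [hx, xRep_some, Height.logHeight₁_eq_logHeight]

lemma hx_zero : hx (0 : W.toAffine.Point) = 0 := by
  rw [hx, xRep_zero, Height.logHeight_swap, ← Height.logHeight₁_eq_logHeight,
    Height.logHeight₁_zero]

lemma hx_some_rat {W : WeierstrassCurve ℚ} {x y : ℚ} (h : W.toAffine.Nonsingular x y) :
    hx (some x y h) = Real.log ((max x.num.natAbs x.den : ℕ) : ℝ) := by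
  rw [hx_some, Rat.logHeight₁_eq_log_max]

lemma abs_logHeight_sym2x_le :
    ∃ C : ℝ, ∀ P Q : W.toAffine.Point, |Height.logHeight (sym2x P Q) - (hx P + hx Q)| ≤ C := by
  obtain ⟨C, hC⟩ := Height.abs_logHeight_sym2_sub_le K
  refine ⟨C, fun P Q => ?_⟩
  have e : ∀ R : W.toAffine.Point, R.xRep = ![R.xRep 0, R.xRep 1] := fun R => by
    ext i; fin_cases i <;> rfl
  have := hC (a := P.xRep 0) (b := P.xRep 1) (c := Q.xRep 0) (d := Q.xRep 1)
    (by rw [← e]; exact P.xRep_ne_zero) (by rw [← e]; exact Q.xRep_ne_zero)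
  rw [← e, ← e] at this
  have e2 : sym2x P Q = ![P.xRep 0 * Q.xRep 0, P.xRep 0 * Q.xRep 1 + P.xRep 1 * Q.xRep 0,
      P.xRep 1 * Q.xRep 1] := by
    rcases P with _ | ⟨x₁, y₁, h₁⟩ <;> rcases Q with _ | ⟨x₂, y₂, h₂⟩ <;> simp [← zero_def]
  rw [e2]
  exact this

theorem parallelogram_approx [DecidableEq K] [W.IsElliptic] :
    ∃ C : ℝ, ∀ P Q : W.toAffine.Point, |hx (P + Q) + hx (P - Q) - 2 * (hx P + hx Q)| ≤ C := by
  obtain ⟨C₁, h₁⟩ := abs_logHeight_sym2x_le (W := W)
  obtain ⟨C₂, h₂⟩ := abs_logHeight_addSubMap_sub_two_mul_logHeight_le W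
  refine ⟨3 * C₁ + C₂, fun P Q => ?_⟩
  obtain ⟨c, hc, e⟩ := addSubMap_sym2x P Q
  have a1 := h₁ P Q
  have a2 := h₁ (P + Q) (P - Q)
  have a3 := h₂ (sym2x P Q)
  rw [e, Height.logHeight_smul_eq_logHeight _ hc] at a3
  rw [abs_le] at a1 a2 a3 ⊢
  constructor <;> linarith [a1.1, a1.2, a2.1, a2.2, a3.1, a3.2]

theorem finite_hx_le (B : ℝ) : {P : W.toAffine.Point | hx P ≤ B}.Finite := by
  classical
  have hfin := NumberField.finite_setOfPred_logHeight₁_le (K := K) B
  have h1 : ((fun P : W.toAffine.Point => P.xRep) '' {P | hx P ≤ B}).Finite := by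
    refine ((hfin.image fun x => (![x, 1] : Fin 2 → K)).insert ![1, 0]).subset ?_
    rintro _ ⟨P, hP, rfl⟩
    rcases P with _ | ⟨x, y, h⟩
    · exact Or.inl rfl
    · refine Or.inr ⟨x, ?_, rfl⟩
      simpa [hx_some] using hP
  refine Set.Finite.of_finite_fibers _ h1 ?_
  rintro _ ⟨P, -, rfl⟩
  refine (Set.toFinite {P, -P}).subset ?_
  rintro Q ⟨-, hQ⟩
  exact eq_or_eq_neg_of_xRep_eq_xRep hQ

instance : Northcott (hx (W := W)) := ⟨finite_hx_le⟩

end Pool.Agent.MP_651af7_nt.MW
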