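import Mathlib

/-!
Finiteness of the group of elements of a number field with even valuation outside a finite set
of primes, modulo squares.
-/

namespace Pool.Agent.MP_651af7_nt.MW

open IsDedekindDomain NumberField UniqueFactorizationMonoid
open scoped nonZeroDivisors

lemma exists_squarefree_mul_sq {M : Type*} [CommMonoidWithZero M] [IsCancelMulZero M]
    [WfDvdMonoid M] (A : M) (hA : A ≠ 0) : ∃ J I : M, A = J * (I * I) ∧ Squarefree J := by
  induction A using (wellFounded_dvdNotUnit (α := M)).induction with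
  | _ A ih =>
    by_cases h : Squarefree A
    · exact ⟨A, 1, by simp, h⟩
    · simp only [Squarefree, not_forall] at h
      obtain ⟨x, ⟨B, hB⟩, hx⟩ := h
      have hB0 : B ≠ 0 := by
        rintro rfl
        exact hA (by simpa using hB)
      obtain ⟨J, I, e, hJ⟩ := ih B ⟨hB0, x * x, fun hu => hx (isUnit_of_mul_isUnit_left hu),
        by rw [hB, mul_comm]⟩ hB0
      refine ⟨J, x * I, ?_, hJ⟩
      rw [hB, e]
      ac_rfl

lemma exists_dvd_mul_sq {R : Type*} [CommRing R] [IsDedekindDomain R]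
    (S : Finset (HeightOneSpectrum R)) (a : R) (ha : a ≠ 0)
    (h : ∀ v ∉ S, IsSquare (v.intValuation a)) :
    ∃ J I : Ideal R, Ideal.span {a} = J * I ^ 2 ∧ J ∣ ∏ v ∈ S, v.asIdeal := by
  classical
  have hA : (Ideal.span {a} : Ideal R) ≠ 0 := by
    rw [Ne, Ideal.zero_eq_bot, Ideal.span_singleton_eq_bot]; exact ha
  obtain ⟨J, I, e₀, hJ⟩ := exists_squarefree_mul_sq _ hA
  have e : Ideal.span {a} = J * I ^ 2 := by rw [sq]; exact e₀
  refine ⟨J, I, e, ?_⟩
  have hJ0 : J ≠ 0 := hJ.ne_zero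
  have hI0 : I ≠ 0 := by
    rintro rfl
    exact hA (by simpa using e)
  have hM : (∏ v ∈ S, v.asIdeal) ≠ 0 := Finset.prod_ne_zero_iff.mpr fun v _ => v.ne_bot
  have hnd := (squarefree_iff_nodup_normalizedFactors hJ0).mp hJ
  rw [dvd_iff_normalizedFactors_le_normalizedFactors hJ0 hM, Multiset.le_iff_subset hnd,
    Multiset.subset_iff]
  intro p hp
  have hpp : Prime p := prime_of_normalized_factor p hp
  obtain ⟨v, rfl⟩ : ∃ v : HeightOneSpectrum R, v.asIdeal = p :=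
    ⟨⟨p, Ideal.isPrime_of_prime hpp, hpp.ne_zero⟩, rfl⟩
  have hv : v ∈ S := by
    by_contra hv
    obtain ⟨g, hg⟩ := h v hv
    rw [v.intValuation_if_neg ha, Ideal.count_associates_factors_eq hA v.isPrime v.ne_bot, e,
      normalizedFactors_mul hJ0 (pow_ne_zero 2 hI0), normalizedFactors_pow, Multiset.count_add,
      Multiset.count_nsmul, Multiset.count_eq_one_of_mem hnd hp] at hg
    have hg0 : g ≠ 0 := by
      rintro rfl
      simp at hg
    have := congrArg WithZero.log hg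
    rw [WithZero.log_mul hg0 hg0, WithZero.log_exp] at this
    push_cast at this
    omega
  have hd := Finset.dvd_prod_of_mem (fun v : HeightOneSpectrum R => v.asIdeal) hv
  exact (mem_normalizedFactors_iff' hM).mpr ⟨hpp.irreducible, normalize_eq _, hd⟩

variable {K : Type*} [Field K] [NumberField K]

lemma exists_units_mod_sq :
    ∃ U : Finset (𝓞 K)ˣ, ∀ u : (𝓞 K)ˣ, ∃ t ∈ U, ∃ w : (𝓞 K)ˣ, u = t * w ^ 2 := by
  classical
  have : Group.FG (𝓞 K)ˣ := Group.fg_iff_monoid_fg.mpr inferInstance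
  have hfi := Subgroup.finiteIndex_range_powMonoidHom_of_fg (𝓞 K)ˣ (n := 2) two_ne_zero
  have : Finite ((𝓞 K)ˣ ⧸ (powMonoidHom (α := (𝓞 K)ˣ) 2).range) :=
    Subgroup.finite_quotient_of_finiteIndex
  have := Fintype.ofFinite ((𝓞 K)ˣ ⧸ (powMonoidHom (α := (𝓞 K)ˣ) 2).range)
  refine ⟨Finset.univ.image
    (fun q : (𝓞 K)ˣ ⧸ (powMonoidHom (α := (𝓞 K)ˣ) 2).range => q.out), fun u => ?_⟩
  obtain ⟨⟨_, w, rfl⟩, hw⟩ := QuotientGroup.mk_out_eq_mul (powMonoidHom (α := (𝓞 K)ˣ) 2).range u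
  refine ⟨(QuotientGroup.mk u : (𝓞 K)ˣ ⧸ (powMonoidHom (α := (𝓞 K)ˣ) 2).range).out,
    Finset.mem_image.mpr ⟨QuotientGroup.mk u, Finset.mem_univ _, rfl⟩, w⁻¹, ?_⟩
  rw [hw]
  simp

lemma selmer_int (S : Finset (HeightOneSpectrum (𝓞 K))) :
    ∃ T : Finset K, ∀ a : 𝓞 K, a ≠ 0 → (∀ v ∉ S, IsSquare (v.intValuation a)) →
      ∃ t ∈ T, ∃ z : K, (a : K) = t * z ^ 2 := by
  classical
  obtain ⟨U, hU⟩ := exists_units_mod_sq (K := K)
  have hM : (∏ v ∈ S, v.asIdeal) ≠ 0 := Finset.prod_ne_zero_iff.mpr fun v _ => v.ne_bot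
  let D := {J : Ideal (𝓞 K) // J ∣ ∏ v ∈ S, v.asIdeal}
  have : Fintype D := fintypeSubtypeDvd _ hM
  let Pr : D × ClassGroup (𝓞 K) → 𝓞 K → Prop := fun c b =>
    b ≠ 0 ∧ ∃ I : (Ideal (𝓞 K))⁰, Ideal.span {b} = c.1.1 * I.1 ^ 2 ∧ ClassGroup.mk0 I = c.2
  let rep : D × ClassGroup (𝓞 K) → 𝓞 K := fun c => if h : ∃ b, Pr c b then h.choose else 0
  let f : (D × ClassGroup (𝓞 K)) × (𝓞 K)ˣ → K := fun cu => ((rep cu.1 * (cu.2 : 𝓞 K) : 𝓞 K) : K)
  let A : Finset ((D × ClassGroup (𝓞 K)) × (𝓞 K)ˣ) := Finset.univ ×ˢ U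
  refine ⟨A.image f, fun a ha h => ?_⟩
  obtain ⟨J, I, e, hJ⟩ := exists_dvd_mul_sq S a ha h
  have hI0 : I ≠ 0 := by
    rintro rfl
    apply ha
    simpa using e
  let I' : (Ideal (𝓞 K))⁰ := ⟨I, mem_nonZeroDivisors_of_ne_zero hI0⟩
  let c : D × ClassGroup (𝓞 K) := (⟨J, hJ⟩, ClassGroup.mk0 I')
  have hex : ∃ b, Pr c b := ⟨a, ha, I', e, rfl⟩
  have hb : Pr c (rep c) := by
    simp only [rep, dif_pos hex]
    exact hex.choose_spec
  obtain ⟨hb0, I₂, e₂, hc⟩ := hb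
  obtain ⟨x, y, hx, hy, hxy⟩ := ClassGroup.mk0_eq_mk0_iff.mp hc
  have e₃ : Ideal.span {rep c * x ^ 2} = Ideal.span {a * y ^ 2} := by
    rw [← Ideal.span_singleton_mul_span_singleton, ← Ideal.span_singleton_mul_span_singleton,
      ← Ideal.span_singleton_pow, ← Ideal.span_singleton_pow, e, e₂, mul_assoc, mul_assoc,
      ← mul_pow, ← mul_pow, mul_comm I₂.1, hxy, mul_comm I]
  obtain ⟨u, hu⟩ := Ideal.span_singleton_eq_span_singleton.mp e₃
  obtain ⟨t, ht, w, rfl⟩ := hU u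
  have hmem : (c, t) ∈ A := Finset.mem_product.mpr ⟨Finset.mem_univ c, ht⟩
  refine ⟨f (c, t), Finset.mem_image_of_mem f hmem, ((x * w : 𝓞 K) : K) / (y : K), ?_⟩
  show (a : K) = ((rep c * (t : 𝓞 K) : 𝓞 K) : K) * _
  have hy' : (y : K) ≠ 0 := RingOfIntegers.coe_ne_zero_iff.mpr hy
  have hu' := congrArg (fun z : 𝓞 K => (z : K)) hu
  simp only [Units.val_mul, Units.val_pow_eq_pow_val] at hu'
  push_cast at hu' ⊢
  field_simp
  linear_combination -hu'

/-- Elements with even valuation outside a finite set of primes lie in finitely many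
square classes. -/
theorem selmer_finite (S : Set (HeightOneSpectrum (𝓞 K))) (hS : S.Finite) :
    ∃ T : Finset K, ∀ a : K, a ≠ 0 → (∀ v ∉ S, IsSquare (v.valuation K a)) →
      ∃ t ∈ T, ∃ z : K, a = t * z ^ 2 := by
  obtain ⟨T, hT⟩ := selmer_int hS.toFinset
  refine ⟨T, fun a ha h => ?_⟩
  obtain ⟨p, q, hq, rfl⟩ := IsFractionRing.div_surjective (A := 𝓞 K) a
  have hq0 : q ≠ 0 := nonZeroDivisors.ne_zero hq
  have hq' : algebraMap (𝓞 K) K q ≠ 0 := by simpa using hq0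
  have hp0 : p ≠ 0 := by
    rintro rfl
    simp at ha
  obtain ⟨t, ht, z, e⟩ := hT (p * q) (mul_ne_zero hp0 hq0) fun v hv => by
    have h1 := h v (by simpa using hv)
    rw [← v.valuation_of_algebraMap (K := K)]
    have e1 : algebraMap (𝓞 K) K (p * q) =
        algebraMap (𝓞 K) K p / algebraMap (𝓞 K) K q * (algebraMap (𝓞 K) K q) ^ 2 := by
      rw [map_mul]
      field_simp
    have h2 : IsSquare (v.valuation K (algebraMap (𝓞 K) K (p * q))) := by
      rw [e1, map_mul, map_pow]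
      exact h1.mul (IsSquare.sq _)
    exact h2
  refine ⟨t, ht, z / algebraMap (𝓞 K) K q, ?_⟩
  have e' : algebraMap (𝓞 K) K p * algebraMap (𝓞 K) K q = t * z ^ 2 := by
    rw [← e, ← map_mul]
  field_simp
  linear_combination e'

end Pool.Agent.MP_651af7_nt.MW
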