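import Mathlib
import Pool.Agent.Lib.MP_651af7_nt.MWSel

/-!
Weak Mordell-Weil theorem for an elliptic curve with full rational two-torsion over a number field.
-/

namespace Pool.Agent.MP_651af7_nt.MW

open WeierstrassCurve WeierstrassCurve.Affine WeierstrassCurve.Affine.Point
open IsDedekindDomain NumberField

lemma isSquare_valuation {F Γ : Type*} [Field F] [LinearOrderedCommGroupWithZero Γ]
    (v : Valuation F Γ) {u a b y : F} (ha : v a = 1) (hb : v b = 1)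
    (h : u * (u + a) * (u + b) = y ^ 2) : IsSquare (v u) := by
  have hv := congrArg v h
  rw [map_mul, map_mul, map_pow] at hv
  rcases lt_trichotomy (v u) 1 with h1 | h1 | h1
  · rw [v.map_add_eq_of_lt_right (ha ▸ h1), v.map_add_eq_of_lt_right (hb ▸ h1), ha, hb,
      mul_one, mul_one] at hv
    exact ⟨v y, by rw [hv, sq]⟩
  · rw [h1]; exact IsSquare.one
  · rw [v.map_add_eq_of_lt_left (ha ▸ h1), v.map_add_eq_of_lt_left (hb ▸ h1)] at hv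
    have h0 : v u ≠ 0 := (zero_lt_one.trans h1).ne'
    refine ⟨v y / v u, ?_⟩
    rw [div_mul_div_comm, ← sq, ← hv, mul_assoc, mul_div_assoc, div_self (mul_ne_zero h0 h0),
      mul_one]

lemma finite_valuation_ne_one {K : Type*} [Field K] [NumberField K] {a : K} (ha : a ≠ 0) :
    {v : HeightOneSpectrum (𝓞 K) | v.valuation K a ≠ 1}.Finite := by
  refine ((HeightOneSpectrum.Support.finite (𝓞 K) a).union
    (HeightOneSpectrum.Support.finite (𝓞 K) a⁻¹)).subset fun v hv => ?_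
  rcases lt_or_gt_of_ne hv with h | h
  · right
    show 1 < v.valuation K a⁻¹
    rw [map_inv₀]
    exact (one_lt_inv₀ (zero_lt_iff.mpr ((Valuation.ne_zero_iff _).mpr ha))).mpr h
  · exact Or.inl h

section field

variable {F : Type*} [Field F] [CharZero F] {W : WeierstrassCurve F}

/-- The two-torsion cubic splits with roots `e₁, e₂, e₃`. -/
structure Split (W : WeierstrassCurve F) (e₁ e₂ e₃ : F) : Prop where
  h₂ : W.b₂ = -4 * (e₁ + e₂ + e₃)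
  h₄ : W.b₄ = 2 * (e₁ * e₂ + e₁ * e₃ + e₂ * e₃)
  h₆ : W.b₆ = -4 * (e₁ * e₂ * e₃)

omit [CharZero F] in
lemma Split.rot {e₁ e₂ e₃ : F} (h : Split W e₁ e₂ e₃) : Split W e₂ e₃ e₁ :=
  ⟨by rw [h.h₂]; ring, by rw [h.h₄]; ring, by rw [h.h₆]; ring⟩

lemma Split.ne [W.IsElliptic] {e₁ e₂ e₃ : F} (h : Split W e₁ e₂ e₃) : e₁ - e₂ ≠ 0 := by
  intro h0
  have hd := W.twoTorsionPolynomial_discr
  simp only [twoTorsionPolynomial, Cubic.discr, h.h₂, h.h₄, h.h₆] at hd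
  have e : e₁ = e₂ := sub_eq_zero.mp h0
  subst e
  have : (16 : F) * W.Δ = 0 := by rw [← hd]; ring
  exact mul_ne_zero (by norm_num) W.isUnit_Δ.ne_zero this

lemma Split.eqn {e₁ e₂ e₃ : F} (h : Split W e₁ e₂ e₃) {x y : F} (he : W.toAffine.Equation x y) :
    (x - e₁) * (x - e₂) * (x - e₃) = (y + (W.a₁ * x + W.a₃) / 2) ^ 2 := by
  have he' := (W.toAffine.equation_iff x y).mp he
  have h₂ := h.h₂
  have h₄ := h.h₄
  have h₆ := h.h₆
  simp only [b₂, b₄, b₆] at h₂ h₄ h₆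
  linear_combination -he' - x ^ 2 / 4 * h₂ - x / 2 * h₄ - 1 / 4 * h₆

lemma Split.collinear [DecidableEq F] {e₁ e₂ e₃ : F} (h : Split W e₁ e₂ e₃) {x₁ y₁ x₂ y₂ : F}
    (he₁ : W.toAffine.Equation x₁ y₁) (he₂ : W.toAffine.Equation x₂ y₂) (hx : x₁ ≠ x₂) :
    ∃ s : F, (x₁ - e₁) * (x₂ - e₁) *
      (W.toAffine.addX x₁ x₂ (W.toAffine.slope x₁ x₂ y₁ y₂) - e₁) = s ^ 2 := by
  have hp := addPolynomial_slope he₁ he₂ fun hxy => hx hxy.left
  have hev := congrArg (Polynomial.eval e₁) hp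
  rw [addPolynomial_eq] at hev
  set l := W.toAffine.slope x₁ x₂ y₁ y₂
  set x₃ := W.toAffine.addX x₁ x₂ l
  simp only [Cubic.toPoly, Polynomial.eval_neg, Polynomial.eval_add, Polynomial.eval_mul,
    Polynomial.eval_C, Polynomial.eval_pow, Polynomial.eval_X, Polynomial.eval_sub] at hev
  have h₂ := h.h₂
  have h₄ := h.h₄
  have h₆ := h.h₆
  simp only [b₂, b₄, b₆] at h₂ h₄ h₆
  refine ⟨l * (e₁ - x₁) + y₁ + (W.a₁ * e₁ + W.a₃) / 2, ?_⟩
  linear_combination -hev - e₁ ^ 2 / 4 * h₂ - e₁ / 2 * h₄ - 1 / 4 * h₆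

lemma Split.halve [DecidableEq F] [W.IsElliptic] {e₁ e₂ e₃ : F} (h : Split W e₁ e₂ e₃) {x y : F}
    (hn : W.toAffine.Nonsingular x y) {r₁ r₂ r₃ : F} (h₁ : x - e₁ = r₁ ^ 2)
    (h₂ : x - e₂ = r₂ ^ 2) (h₃ : x - e₃ = r₃ ^ 2) :
    ∃ Q : W.toAffine.Point, Q + Q = some x y hn := by
  have n₁₂ : r₁ + r₂ ≠ 0 := fun h0 => h.ne (by linear_combination h₂ - h₁ + (r₂ - r₁) * h0)
  have n₂₃ : r₂ + r₃ ≠ 0 := fun h0 => h.rot.ne (by linear_combination h₃ - h₂ + (r₃ - r₂) * h0)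
  have n₃₁ : r₃ + r₁ ≠ 0 := fun h0 =>
    h.rot.rot.ne (by linear_combination h₁ - h₃ + (r₁ - r₃) * h0)
  have b₂ := h.h₂
  have b₄ := h.h₄
  have b₆ := h.h₆
  simp only [WeierstrassCurve.b₂, WeierstrassCurve.b₄, WeierstrassCurve.b₆] at b₂ b₄ b₆
  obtain rfl : e₁ = x - r₁ ^ 2 := by linear_combination -h₁
  obtain rfl : e₂ = x - r₂ ^ 2 := by linear_combination -h₂
  obtain rfl : e₃ = x - r₃ ^ 2 := by linear_combination -h₃
  set X := x + r₁ * r₂ + r₁ * r₃ + r₂ * r₃ with hX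
  set Y := (r₁ + r₂) * (r₂ + r₃) * (r₃ + r₁) - (W.a₁ * X + W.a₃) / 2 with hY
  have heq : W.toAffine.Equation X Y := by
    rw [W.toAffine.equation_iff, hY, hX]
    linear_combination (-(x + r₁ * r₂ + r₁ * r₃ + r₂ * r₃) ^ 2 / 4) * b₂
      - (x + r₁ * r₂ + r₁ * r₃ + r₂ * r₃) / 2 * b₄ - 1 / 4 * b₆
  have hns : W.toAffine.Nonsingular X Y := equation_iff_nonsingular.mp heq
  have hd : Y - W.toAffine.negY X Y = 2 * ((r₁ + r₂) * (r₂ + r₃) * (r₃ + r₁)) := by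
    simp only [negY, hY]
    ring
  have hd0 : (2 : F) * ((r₁ + r₂) * (r₂ + r₃) * (r₃ + r₁)) ≠ 0 :=
    mul_ne_zero two_ne_zero (mul_ne_zero (mul_ne_zero n₁₂ n₂₃) n₃₁)
  have hy : Y ≠ W.toAffine.negY X Y := sub_ne_zero.mp (hd ▸ hd0)
  have hsl : W.toAffine.slope X X Y Y = r₁ + r₂ + r₃ - W.a₁ / 2 := by
    rw [slope_of_Y_ne rfl hy, hd, div_eq_iff hd0, hY, hX]
    linear_combination (x + r₁ * r₂ + r₁ * r₃ + r₂ * r₃) / 2 * b₂ + 1 / 2 * b₄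
  have hx : W.toAffine.addX X X (W.toAffine.slope X X Y Y) = x := by
    rw [hsl, addX, hX]
    linear_combination (-1 / 4) * b₂
  have hadd := add_self_of_Y_ne (h₁ := hns) hy
  rcases (X_eq_iff (h₁ := nonsingular_add hns hns fun hxy => hy hxy.right) (h₂ := hn)).mp hx
    with h' | h'
  · exact ⟨_, hadd.trans h'⟩
  · refine ⟨-some X Y hns, ?_⟩
    rw [← neg_add, hadd, h', neg_neg]

end field

variable {K : Type*} [Field K] [NumberField K] [DecidableEq K] {W : WeierstrassCurve K}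
  [W.IsElliptic]

omit [DecidableEq K] in
lemma Split.exists_classes {e₁ e₂ e₃ : K} (h : Split W e₁ e₂ e₃) :
    ∃ T : Finset K, ∀ x y : K, W.toAffine.Equation x y → x - e₁ ≠ 0 →
      ∃ t ∈ T, ∃ z : K, x - e₁ = t * z ^ 2 := by
  have n₁ : e₁ - e₂ ≠ 0 := h.ne
  have n₂ : e₁ - e₃ ≠ 0 := fun h0 => h.rot.rot.ne (by linear_combination -h0)
  obtain ⟨T, hT⟩ := selmer_finite _
    ((finite_valuation_ne_one n₁).union (finite_valuation_ne_one n₂))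
  refine ⟨T, fun x y he hx => hT _ hx fun v hv => ?_⟩
  simp only [Set.mem_union, Set.mem_ofPred_eq, not_or, not_not] at hv
  refine isSquare_valuation _ hv.1 hv.2 (y := y + (W.a₁ * x + W.a₃) / 2) ?_
  rw [← h.eqn he]
  ring

theorem Split.weak {e₁ e₂ e₃ : K} (h : Split W e₁ e₂ e₃) :
    (nsmulAddMonoidHom (α := W.toAffine.Point) 2).range.FiniteIndex := by
  classical
  obtain ⟨T₁, hT₁⟩ := h.exists_classes
  obtain ⟨T₂, hT₂⟩ := h.rot.exists_classes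
  obtain ⟨T₃, hT₃⟩ := h.rot.rot.exists_classes
  set H := (nsmulAddMonoidHom (α := W.toAffine.Point) 2).range with hH
  have mem : ∀ Q : W.toAffine.Point, Q + Q ∈ H := fun Q => ⟨Q, by simp [two_nsmul]⟩
  let Pr : K × K × K → W.toAffine.Point → Prop := fun t P =>
    ∃ x y hn, P = some x y hn ∧ x - e₁ ≠ 0 ∧ x - e₂ ≠ 0 ∧ x - e₃ ≠ 0 ∧
      (∃ z, x - e₁ = t.1 * z ^ 2) ∧ (∃ z, x - e₂ = t.2.1 * z ^ 2) ∧ ∃ z, x - e₃ = t.2.2 * z ^ 2
  have key : ∀ t P Q, Pr t P → Pr t Q → P - Q ∈ H := by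
    rintro t _ _ ⟨x₁, y₁, n₁, rfl, a₁, a₂, a₃, ⟨z₁, b₁⟩, ⟨z₂, b₂⟩, ⟨z₃, b₃⟩⟩
      ⟨x₂, y₂, n₂, rfl, c₁, c₂, c₃, ⟨w₁, d₁⟩, ⟨w₂, d₂⟩, ⟨w₃, d₃⟩⟩
    by_cases hx : x₁ = x₂
    · rcases (X_eq_iff (h₁ := n₁) (h₂ := n₂)).mp hx with h' | h'
      · rw [h', sub_self]; exact H.zero_mem
      · rw [h', sub_eq_add_neg]; exact mem _
    · rw [sub_eq_add_neg, neg_some, add_of_X_ne hx]
      have n₂' : W.toAffine.Equation x₂ (W.toAffine.negY x₂ y₂) := (equation_neg ..).mpr n₂.1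
      have sq : ∀ {e t z w s u : K}, x₁ - e ≠ 0 → x₂ - e ≠ 0 → x₁ - e = t * z ^ 2 →
          x₂ - e = t * w ^ 2 → (x₁ - e) * (x₂ - e) * u = s ^ 2 → u = (s / (t * z * w)) ^ 2 := by
        intro e t z w s u p₁ p₂ q₁ q₂ q₃
        have h0 : (t * z * w) ^ 2 ≠ 0 := by
          have : (t * z * w) ^ 2 = (x₁ - e) * (x₂ - e) := by rw [q₁, q₂]; ring
          rw [this]; exact mul_ne_zero p₁ p₂
        rw [div_pow, eq_div_iff h0, ← q₃, q₁, q₂]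
        ring
      obtain ⟨s₁, f₁⟩ := h.collinear n₁.1 n₂' hx
      obtain ⟨s₂, f₂⟩ := h.rot.collinear n₁.1 n₂' hx
      obtain ⟨s₃, f₃⟩ := h.rot.rot.collinear n₁.1 n₂' hx
      obtain ⟨Q, hQ⟩ := h.halve
        (nonsingular_add n₁ ((nonsingular_neg ..).mpr n₂) fun hxy => hx hxy.left)
        (sq a₁ c₁ b₁ d₁ f₁) (sq a₂ c₂ b₂ d₂ f₂) (sq a₃ c₃ b₃ d₃ f₃)
      rw [← hQ]
      exact mem Q
  let rep : K × K × K → W.toAffine.Point := fun t => if h : ∃ P, Pr t P then h.choose else 0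
  have hA₀ : {P : W.toAffine.Point |
      P.xRep ∈ ({![1, 0], ![e₁, 1], ![e₂, 1], ![e₃, 1]} : Set (Fin 2 → K))}.Finite := by
    refine Set.Finite.of_finite_fibers (fun P : W.toAffine.Point => P.xRep)
      ((Set.toFinite ({![1, 0], ![e₁, 1], ![e₂, 1], ![e₃, 1]} : Set (Fin 2 → K))).subset ?_) ?_
    · rintro _ ⟨P, hP, rfl⟩
      exact hP
    · rintro _ ⟨P, -, rfl⟩
      refine (Set.toFinite {P, -P}).subset ?_
      rintro Q ⟨-, hQ⟩
      exact eq_or_eq_neg_of_xRep_eq_xRep hQ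
  have hA := hA₀.union ((T₁ ×ˢ T₂ ×ˢ T₃).finite_toSet.image rep)
  have cover : ∀ P : W.toAffine.Point, ∃ Q ∈ hA.toFinset, P - Q ∈ H := by
    intro P
    by_cases hP : P.xRep ∈ ({![1, 0], ![e₁, 1], ![e₂, 1], ![e₃, 1]} : Set (Fin 2 → K))
    · exact ⟨P, hA.mem_toFinset.mpr (Or.inl hP), by rw [sub_self]; exact H.zero_mem⟩
    · rcases P with _ | ⟨x, y, hn⟩
      · exact (hP (Or.inl rfl)).elim
      · have a₁ : x - e₁ ≠ 0 := fun h0 => hP (by rw [← sub_eq_zero.mp h0]; simp)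
        have a₂ : x - e₂ ≠ 0 := fun h0 => hP (by rw [← sub_eq_zero.mp h0]; simp)
        have a₃ : x - e₃ ≠ 0 := fun h0 => hP (by rw [← sub_eq_zero.mp h0]; simp)
        obtain ⟨t₁, m₁, b₁⟩ := hT₁ x y hn.1 a₁
        obtain ⟨t₂, m₂, b₂⟩ := hT₂ x y hn.1 a₂
        obtain ⟨t₃, m₃, b₃⟩ := hT₃ x y hn.1 a₃
        have hpr : Pr (t₁, t₂, t₃) (some x y hn) := ⟨x, y, hn, rfl, a₁, a₂, a₃, b₁, b₂, b₃⟩
        have hex : ∃ P, Pr (t₁, t₂, t₃) P := ⟨_, hpr⟩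
        have hrep : Pr (t₁, t₂, t₃) (rep (t₁, t₂, t₃)) := by
          simp only [rep, dif_pos hex]
          exact hex.choose_spec
        refine ⟨rep (t₁, t₂, t₃), hA.mem_toFinset.mpr (Or.inr ⟨(t₁, t₂, t₃), ?_, rfl⟩),
          key _ _ _ hpr hrep⟩
        simp [m₁, m₂, m₃]
  have : Finite (W.toAffine.Point ⧸ H) := by
    refine Finite.of_surjective
      (fun Q : hA.toFinset => (QuotientAddGroup.mk Q.1 : W.toAffine.Point ⧸ H)) fun q => ?_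
    obtain ⟨P, rfl⟩ := QuotientAddGroup.mk_surjective q
    obtain ⟨Q, hQ, hm⟩ := cover P
    refine ⟨⟨Q, hQ⟩, ?_⟩
    rw [eq_comm]
    exact QuotientAddGroup.eq_iff_sub_mem.mpr hm
  exact AddSubgroup.finiteIndex_of_finite_quotient

end Pool.Agent.MP_651af7_nt.MW
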