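import Mathlib
import Pool.Agent.Lib.MP_651af7_nt.MWHt
import Pool.Agent.Lib.MP_651af7_nt.MWWeak
import Pool.Agent.Lib.MP_651af7_nt.MWQuad

/-!
The Mordell-Weil theorem over a number field and the canonical height as a squared Euclidean norm.
-/

namespace Pool.Agent.MP_651af7_nt.MW

open WeierstrassCurve WeierstrassCurve.Affine WeierstrassCurve.Affine.Point

variable {K : Type*} [Field K] [NumberField K] [DecidableEq K] {W : WeierstrassCurve K}
  [W.IsElliptic]

theorem Split.fg {e₁ e₂ e₃ : K} (h : Split W e₁ e₂ e₃) : AddGroup.FG W.toAffine.Point := by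
  obtain ⟨C, hC⟩ := parallelogram_approx (W := W)
  exact AddCommGroup.fg_of_descent' h.weak hx_nonneg hC

variable (W) in
/-- Mordell-Weil. -/
theorem fg : AddGroup.FG W.toAffine.Point := by
  classical
  let L := W.twoTorsionPolynomial.toPoly.SplittingField
  have : NumberField L := NumberField.of_module_finite K L
  have ha : W.twoTorsionPolynomial.a ≠ 0 := by
    simp [twoTorsionPolynomial]
  obtain ⟨e₁, e₂, e₃, h3⟩ := (Cubic.splits_iff_roots_eq_three (φ := algebraMap K L) ha).mp
    (Polynomial.SplittingField.splits _)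
  have hb := Cubic.b_eq_three_roots ha h3
  have hc := Cubic.c_eq_three_roots ha h3
  have hd := Cubic.d_eq_three_roots ha h3
  simp only [twoTorsionPolynomial, map_mul, map_ofNat] at hb hc hd
  have hs : Split (W.baseChange L) e₁ e₂ e₃ := by
    refine ⟨?_, ?_, ?_⟩
    · rw [WeierstrassCurve.baseChange, map_b₂, hb]; ring
    · rw [WeierstrassCurve.baseChange, map_b₄]; linear_combination hc / 2
    · rw [WeierstrassCurve.baseChange, map_b₆, hd]; ring
  have : (W.baseChange L).IsElliptic := inferInstanceAs (W.map (algebraMap K L)).IsElliptic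
  have hL : AddGroup.FG (W.baseChange L).toAffine.Point := hs.fg
  have hinj := map_injective (W' := W.toAffine) (Algebra.ofId K L)
  have hL' : Module.Finite ℤ (W.baseChange L).toAffine.Point := Module.Finite.iff_addGroup_fg.mpr hL
  have hK : Module.Finite ℤ (W.baseChange K).toAffine.Point :=
    Module.Finite.of_injective (map (W' := W.toAffine) (Algebra.ofId K L)).toIntLinearMap hinj
  exact Module.Finite.iff_addGroup_fg.mp hK

variable (W) in
/-- The canonical height is the squared norm of an additive map to a Euclidean space. -/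
theorem exists_euclid : ∃ (r : ℕ) (φ : W.toAffine.Point →+ EuclideanSpace ℝ (Fin r)) (C : ℝ),
    ∀ P, |‖φ P‖ ^ 2 - hx P| ≤ C := by
  obtain ⟨C, hC⟩ := parallelogram_approx (W := W)
  have := fg W
  exact exists_euclid_of_approx hx hx_nonneg C hC

omit [W.IsElliptic] in
/-- The kernel of such a map is finite, so it consists of torsion points. -/
theorem finite_ker {r : ℕ} {φ : W.toAffine.Point →+ EuclideanSpace ℝ (Fin r)} {C : ℝ}
    (h : ∀ P, |‖φ P‖ ^ 2 - hx P| ≤ C) : {P | φ P = 0}.Finite := by
  refine (finite_hx_le C).subset fun P hP => ?_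
  have h1 := h P
  have h2 : φ P = 0 := hP
  rw [h2, abs_le] at h1
  show hx P ≤ C
  simp only [norm_zero] at h1
  linarith [h1.1]

omit [W.IsElliptic] in
theorem isOfFinAddOrder_iff {r : ℕ} {φ : W.toAffine.Point →+ EuclideanSpace ℝ (Fin r)} {C : ℝ}
    (h : ∀ P, |‖φ P‖ ^ 2 - hx P| ≤ C) (P : W.toAffine.Point) : IsOfFinAddOrder P ↔ φ P = 0 := by
  constructor
  · intro hP
    obtain ⟨n, hn, e⟩ := isOfFinAddOrder_iff_nsmul_eq_zero.mp hP
    have := congrArg φ e
    rw [map_nsmul, _root_.map_zero, ← Nat.cast_smul_eq_nsmul ℝ] at this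
    exact (smul_eq_zero.mp this).resolve_left (by exact_mod_cast hn.ne')
  · intro hP
    have : Finite φ.ker := finite_ker h
    have h1 := isOfFinAddOrder_of_finite (⟨P, hP⟩ : φ.ker)
    exact φ.ker.subtype.isOfFinAddOrder h1

end Pool.Agent.MP_651af7_nt.MW
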