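import Mathlib
import Pool.Agent.Lib.MP_651af7_nt.MW
import Pool.Agent.Lib.MP_e97e2b_nt.Short

/-!
Cells: a finite partition of the pairs of points such that two pairs in one cell are almost
proportional with ratio a power of two.
-/

namespace Pool.Agent.MP_651af7_nt.MW

open Metric

lemma vec_estimates {V : Type*} [NormedAddCommGroup V] [NormedSpace ℝ V] {a b : V} {T δ : ℝ}
    (hT : 0 ≤ T) (h0 : 0 ≤ δ) (h1 : δ ≤ 1) (ha : ‖a‖ ≤ 2 * T) (hab : ‖a - b‖ ≤ δ * T) :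
    ‖a - b‖ ^ 2 ≤ 9 * δ * T ^ 2 ∧ |‖a + b‖ ^ 2 - 4 * ‖a‖ ^ 2| ≤ 9 * δ * T ^ 2 ∧
      |‖b‖ ^ 2 - ‖a‖ ^ 2| ≤ 9 * δ * T ^ 2 := by
  have n0 := norm_nonneg a
  have d0 : 0 ≤ δ * T := mul_nonneg h0 hT
  have d1 : δ * T ≤ T := by nlinarith
  have gen : ∀ {x y M : ℝ}, 0 ≤ x → 0 ≤ y → |x - y| ≤ δ * T → y ≤ M * T → 0 ≤ M → M ≤ 4 →
      |x ^ 2 - y ^ 2| ≤ 9 * δ * T ^ 2 := by
    intro x y M hx hy hxy hM hM0 hM4
    have e : x ^ 2 - y ^ 2 = (x - y) * (x + y) := by ring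
    have h2 : x + y ≤ 9 * T := by
      have := (abs_le.mp hxy).2
      nlinarith
    rw [e, abs_mul, abs_of_nonneg (add_nonneg hx hy)]
    calc |x - y| * (x + y) ≤ (δ * T) * (9 * T) :=
          mul_le_mul hxy h2 (add_nonneg hx hy) d0
      _ = 9 * δ * T ^ 2 := by ring
  refine ⟨?_, ?_, ?_⟩
  · have := gen (x := ‖a - b‖) (y := 0) (M := 0) (norm_nonneg _) le_rfl (by simpa using hab)
      (by simp) le_rfl (by norm_num)
    simpa using (abs_le.mp this).2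
  · have e : ‖a + a‖ = 2 * ‖a‖ := by
      rw [← two_smul ℝ a, norm_smul]; simp
    have h2 : |‖a + b‖ - ‖a + a‖| ≤ δ * T := by
      refine (abs_norm_sub_norm_le _ _).trans ?_
      rw [show a + b - (a + a) = -(a - b) by abel, norm_neg]
      exact hab
    have := gen (M := 4) (norm_nonneg (a + b)) (norm_nonneg (a + a)) h2 (by rw [e]; linarith)
      (by norm_num) le_rfl
    rw [e] at this
    convert this using 2
    ring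
  · refine gen (M := 2) (norm_nonneg b) n0 ?_ ha (by norm_num) (by norm_num)
    refine (abs_norm_sub_norm_le _ _).trans ?_
    rw [norm_sub_rev]
    exact hab

lemma exists_ball_cells (V : Type*) [NormedAddCommGroup V] [ProperSpace V] {δ : ℝ} (hδ : 0 < δ) :
    ∃ (N : ℕ) (c : V → Fin N), ∀ u u', ‖u‖ ≤ 2 → ‖u'‖ ≤ 2 → c u = c u' → ‖u - u'‖ ≤ δ := by
  classical
  obtain ⟨t, -, ht, hcov⟩ := finite_cover_balls_of_compact (isCompact_closedBall (0 : V) 2)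
    (half_pos hδ)
  have hx : ∀ u : V, ∃ z : ht.toFinset, ‖u‖ ≤ 2 → dist u z < δ / 2 := fun u => by
    by_cases hu : ‖u‖ ≤ 2
    · obtain ⟨z, hz, h⟩ := Set.mem_iUnion₂.mp (hcov (mem_closedBall_zero_iff.mpr hu))
      exact ⟨⟨z, ht.mem_toFinset.mpr hz⟩, fun _ => h⟩
    · obtain ⟨z, hz, -⟩ := Set.mem_iUnion₂.mp
        (hcov (mem_closedBall_self (by norm_num : (0 : ℝ) ≤ 2)))
      exact ⟨⟨z, ht.mem_toFinset.mpr hz⟩, fun h => (hu h).elim⟩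
  choose z hz using hx
  refine ⟨_, fun u => ht.toFinset.equivFin (z u), fun u u' hu hu' h => ?_⟩
  have e : z u = z u' := ht.toFinset.equivFin.injective h
  have h1 := hz u hu
  have h2 := hz u' hu'
  rw [← e] at h2
  rw [← dist_eq_norm]
  linarith [dist_triangle_right u u' (z u : V)]

lemma exists_pow_four (x : ℝ) : ∃ k : ℕ, (4 : ℝ) ^ k ≤ max x 1 ∧ x ≤ 4 * 4 ^ k := by
  obtain ⟨k, h1, h2⟩ := exists_nat_pow_near (le_max_right x 1) (by norm_num : (1 : ℝ) < 4)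
  exact ⟨k, h1, by rw [pow_succ] at h2; linarith [le_max_left x 1]⟩

/-- The output of the cell construction for two groups with height functions. -/
structure Cells {G₁ G₂ : Type*} [AddCommGroup G₁] [AddCommGroup G₂] (h₁ : G₁ → ℝ) (h₂ : G₂ → ℝ)
    (θ : ℝ) {N : ℕ} (cell : G₁ × G₂ → Fin N) (k : G₁ × G₂ → ℕ) (C : ℝ) : Prop where
  nonneg : 0 ≤ C
  lower : ∀ X, 4 ^ k X ≤ h₁ X.1 + h₂ X.2 + C
  upper : ∀ X, h₁ X.1 + h₂ X.2 ≤ 4 * 4 ^ k X + C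
  smul₁ : ∀ (n : ℕ) P, |h₁ (n • P) - n ^ 2 * h₁ P| ≤ C * (n ^ 2 + 1)
  smul₂ : ∀ (n : ℕ) Q, |h₂ (n • Q) - n ^ 2 * h₂ Q| ≤ C * (n ^ 2 + 1)
  par₁ : ∀ P P', |h₁ (P + P') + h₁ (P - P') - 2 * (h₁ P + h₁ P')| ≤ C
  par₂ : ∀ Q Q', |h₂ (Q + Q') + h₂ (Q - Q') - 2 * (h₂ Q + h₂ Q')| ≤ C
  sub₁ : ∀ X X', cell X = cell X' → k X ≤ k X' →
    h₁ (X'.1 - 2 ^ (k X' - k X) • X.1) ≤ θ * 4 ^ k X' + C
  sub₂ : ∀ X X', cell X = cell X' → k X ≤ k X' →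
    h₂ (X'.2 - 2 ^ (k X' - k X) • X.2) ≤ θ * 4 ^ k X' + C
  add₁ : ∀ X X', cell X = cell X' → k X ≤ k X' →
    |h₁ (X'.1 + 2 ^ (k X' - k X) • X.1) - 4 * h₁ X'.1| ≤ θ * 4 ^ k X' + C
  add₂ : ∀ X X', cell X = cell X' → k X ≤ k X' →
    |h₂ (X'.2 + 2 ^ (k X' - k X) • X.2) - 4 * h₂ X'.2| ≤ θ * 4 ^ k X' + C
  mul₁ : ∀ X X', cell X = cell X' → k X ≤ k X' →
    |h₁ (2 ^ (k X' - k X) • X.1) - h₁ X'.1| ≤ θ * 4 ^ k X' + C
  mul₂ : ∀ X X', cell X = cell X' → k X ≤ k X' →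
    |h₂ (2 ^ (k X' - k X) • X.2) - h₂ X'.2| ≤ θ * 4 ^ k X' + C
  cmp₁ : ∀ X X', cell X = cell X' → k X ≤ k X' →
    |4 ^ (k X' - k X) * h₁ X.1 - h₁ X'.1| ≤ θ * 4 ^ k X' + C * 4 ^ (k X' - k X)
  cmp₂ : ∀ X X', cell X = cell X' → k X ≤ k X' →
    |4 ^ (k X' - k X) * h₂ X.2 - h₂ X'.2| ≤ θ * 4 ^ k X' + C * 4 ^ (k X' - k X)

section one

variable {G V : Type*} [AddCommGroup G] [NormedAddCommGroup V] [InnerProductSpace ℝ V]
  {h : G → ℝ} {φ : G →+ V} {C : ℝ} (H : ∀ P, |‖φ P‖ ^ 2 - h P| ≤ C)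

include H

lemma one_smul_est (n : ℕ) (P : G) : |h (n • P) - n ^ 2 * h P| ≤ C * (n ^ 2 + 1) := by
  have a1 := abs_le.mp (H (n • P))
  have a2 := abs_le.mp (H P)
  rw [map_nsmul, ← Nat.cast_smul_eq_nsmul ℝ, norm_smul, mul_pow, Real.norm_natCast] at a1
  have n0 : (0 : ℝ) ≤ (n : ℝ) ^ 2 := by positivity
  have b1 := mul_le_mul_of_nonneg_left a2.1 n0
  have b2 := mul_le_mul_of_nonneg_left a2.2 n0
  rw [abs_le]
  constructor <;> nlinarith [a1.1, a1.2]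

lemma one_par_est (P P' : G) : |h (P + P') + h (P - P') - 2 * (h P + h P')| ≤ 6 * C := by
  have a1 := abs_le.mp (H (P + P'))
  have a2 := abs_le.mp (H (P - P'))
  have a3 := abs_le.mp (H P)
  have a4 := abs_le.mp (H P')
  rw [map_add] at a1
  rw [map_sub] at a2
  have := parallelogram_law_with_norm ℝ (φ P) (φ P')
  rw [abs_le]
  constructor <;> nlinarith [a1.1, a1.2, a2.1, a2.2, a3.1, a3.2, a4.1, a4.2]

lemma one_cell_est {P P' : G} {k k' : ℕ} (hk : k ≤ k') {δ : ℝ} (h0 : 0 ≤ δ) (h1 : δ ≤ 1)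
    (ha : ‖((2 : ℝ) ^ k')⁻¹ • φ P'‖ ≤ 2)
    (hab : ‖((2 : ℝ) ^ k)⁻¹ • φ P - ((2 : ℝ) ^ k')⁻¹ • φ P'‖ ≤ δ) :
    h (P' - 2 ^ (k' - k) • P) ≤ 9 * δ * 4 ^ k' + 5 * C ∧
    |h (P' + 2 ^ (k' - k) • P) - 4 * h P'| ≤ 9 * δ * 4 ^ k' + 5 * C ∧
    |h (2 ^ (k' - k) • P) - h P'| ≤ 9 * δ * 4 ^ k' + 5 * C ∧
    |4 ^ (k' - k) * h P - h P'| ≤ 9 * δ * 4 ^ k' + 5 * C * 4 ^ (k' - k) := by
  have C0 : 0 ≤ C := (abs_nonneg _).trans (H 0)
  have T0 : (0 : ℝ) < 2 ^ k' := by positivity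
  have e4 : ∀ j : ℕ, ((2 : ℝ) ^ j) ^ 2 = 4 ^ j := fun j => by
    rw [← pow_mul, mul_comm, pow_mul]; norm_num
  have eb : φ (2 ^ (k' - k) • P) = ((2 : ℝ) ^ (k' - k)) • φ P := by
    rw [map_nsmul, ← Nat.cast_smul_eq_nsmul ℝ]
    push_cast
    rfl
  have ha' : ‖φ P'‖ ≤ 2 * 2 ^ k' := by
    rw [norm_smul, norm_inv, Real.norm_of_nonneg T0.le, inv_mul_le_iff₀ T0] at ha
    linarith
  have hab' : ‖φ P' - φ (2 ^ (k' - k) • P)‖ ≤ δ * 2 ^ k' := by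
    have e : φ P' - φ (2 ^ (k' - k) • P) =
        (-(2 : ℝ) ^ k') • (((2 : ℝ) ^ k)⁻¹ • φ P - ((2 : ℝ) ^ k')⁻¹ • φ P') := by
      rw [eb, smul_sub, smul_smul, smul_smul, pow_sub₀ (2 : ℝ) two_ne_zero hk, neg_mul, neg_mul,
        mul_inv_cancel₀ T0.ne', neg_smul, neg_smul, one_smul]
      abel
    rw [e, norm_smul, norm_neg, Real.norm_of_nonneg T0.le, mul_comm]
    exact mul_le_mul_of_nonneg_right hab T0.le
  obtain ⟨v1, v2, v3⟩ := vec_estimates T0.le h0 h1 ha' hab'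
  rw [e4] at v1 v2 v3
  have a1 := abs_le.mp (H (P' - 2 ^ (k' - k) • P))
  have a2 := abs_le.mp (H (P' + 2 ^ (k' - k) • P))
  have a3 := abs_le.mp (H (2 ^ (k' - k) • P))
  have a4 := abs_le.mp (H P')
  have a5 := abs_le.mp (H P)
  rw [map_sub] at a1
  rw [map_add] at a2
  have v2' := abs_le.mp v2
  have v3' := abs_le.mp v3
  refine ⟨by linarith [a1.1], ?_, ?_, ?_⟩
  · rw [abs_le]
    constructor <;> linarith [a2.1, a2.2, a4.1, a4.2, v2'.1, v2'.2]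
  · rw [abs_le]
    constructor <;> linarith [a3.1, a3.2, a4.1, a4.2, v3'.1, v3'.2]
  · rw [eb, norm_smul, mul_pow, Real.norm_of_nonneg (by positivity), e4] at v3'
    have r1 : (1 : ℝ) ≤ 4 ^ (k' - k) := one_le_pow₀ (by norm_num)
    have b1 := mul_le_mul_of_nonneg_left a5.1 (zero_le_one.trans r1)
    have b2 := mul_le_mul_of_nonneg_left a5.2 (zero_le_one.trans r1)
    have b3 : C ≤ C * 4 ^ (k' - k) := le_mul_of_one_le_right C0 r1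
    rw [abs_le]
    constructor <;> nlinarith [a4.1, a4.2, v3'.1, v3'.2]

end one

theorem exists_cells_abstract {G₁ G₂ V₁ V₂ : Type*} [AddCommGroup G₁] [AddCommGroup G₂]
    [NormedAddCommGroup V₁] [InnerProductSpace ℝ V₁] [FiniteDimensional ℝ V₁]
    [NormedAddCommGroup V₂] [InnerProductSpace ℝ V₂] [FiniteDimensional ℝ V₂]
    {h₁ : G₁ → ℝ} {h₂ : G₂ → ℝ} {φ₁ : G₁ →+ V₁} {φ₂ : G₂ →+ V₂} {C₁ C₂ : ℝ}
    (H₁ : ∀ P, |‖φ₁ P‖ ^ 2 - h₁ P| ≤ C₁) (H₂ : ∀ P, |‖φ₂ P‖ ^ 2 - h₂ P| ≤ C₂) {θ : ℝ}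
    (hθ : 0 < θ) :
    ∃ (N : ℕ) (cell : G₁ × G₂ → Fin N) (k : G₁ × G₂ → ℕ) (C : ℝ), Cells h₁ h₂ θ cell k C := by
  have := FiniteDimensional.proper_real V₁
  have := FiniteDimensional.proper_real V₂
  set C := max C₁ C₂ with hC
  have H₁' : ∀ P, |‖φ₁ P‖ ^ 2 - h₁ P| ≤ C := fun P => (H₁ P).trans (le_max_left _ _)
  have H₂' : ∀ P, |‖φ₂ P‖ ^ 2 - h₂ P| ≤ C := fun P => (H₂ P).trans (le_max_right _ _)
  have C0 : 0 ≤ C := (abs_nonneg _).trans (H₁' 0)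
  set δ := min 1 (θ / 9) with hδ
  have δ0 : 0 < δ := lt_min one_pos (by positivity)
  have δ1 : δ ≤ 1 := min_le_left _ _
  have δ2 : 9 * δ ≤ θ := by linarith [min_le_right 1 (θ / 9)]
  obtain ⟨N, c, hc⟩ := exists_ball_cells (V₁ × V₂) δ0
  choose k hk₁ hk₂ using fun X : G₁ × G₂ => exists_pow_four (‖φ₁ X.1‖ ^ 2 + ‖φ₂ X.2‖ ^ 2)
  let u : G₁ × G₂ → V₁ × V₂ := fun X => (((2 : ℝ) ^ k X)⁻¹ • φ₁ X.1, ((2 : ℝ) ^ k X)⁻¹ • φ₂ X.2)
  have e4 : ∀ j : ℕ, ((2 : ℝ) ^ j) ^ 2 = 4 ^ j := fun j => by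
    rw [← pow_mul, mul_comm, pow_mul]; norm_num
  have nb : ∀ {V : Type _} [NormedAddCommGroup V] [InnerProductSpace ℝ V] (v : V) (j : ℕ),
      ‖v‖ ^ 2 ≤ 4 * 4 ^ j → ‖((2 : ℝ) ^ j)⁻¹ • v‖ ≤ 2 := by
    intro V _ _ v j hv
    have T0 : (0 : ℝ) < 2 ^ j := by positivity
    rw [norm_smul, norm_inv, Real.norm_of_nonneg T0.le, inv_mul_le_iff₀ T0]
    refine le_of_sq_le_sq ?_ (by positivity)
    rw [mul_pow, e4]
    linarith
  have nb' : ∀ {V : Type _} [NormedAddCommGroup V] [InnerProductSpace ℝ V] (v : V) (j : ℕ),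
      ‖v‖ ^ 2 ≤ 4 * 4 ^ j → ‖((2 : ℝ) ^ j)⁻¹ • v‖ ≤ 2 := by
    intro V _ _ v j hv
    have T0 : (0 : ℝ) < 2 ^ j := by positivity
    rw [norm_smul, norm_inv, Real.norm_of_nonneg T0.le, inv_mul_le_iff₀ T0]
    refine le_of_sq_le_sq ?_ (by positivity)
    rw [mul_pow, e4]
    linarith
  have u₁ : ∀ X, ‖(u X).1‖ ≤ 2 := fun X =>
    nb _ _ (by linarith [hk₂ X, sq_nonneg ‖φ₂ X.2‖])
  have u₂ : ∀ X, ‖(u X).2‖ ≤ 2 := fun X =>
    nb' _ _ (by linarith [hk₂ X, sq_nonneg ‖φ₁ X.1‖])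
  have u₃ : ∀ X, ‖u X‖ ≤ 2 := fun X => by
    rw [Prod.norm_def]; exact max_le (u₁ X) (u₂ X)
  have d₁ : ∀ X X', c (u X) = c (u X') → ‖(u X).1 - (u X').1‖ ≤ δ := fun X X' h =>
    (norm_fst_le (u X - u X')).trans (hc _ _ (u₃ X) (u₃ X') h)
  have d₂ : ∀ X X', c (u X) = c (u X') → ‖(u X).2 - (u X').2‖ ≤ δ := fun X X' h =>
    (norm_snd_le (u X - u X')).trans (hc _ _ (u₃ X) (u₃ X') h)
  have p₁ := fun X X' (h : c (u X) = c (u X')) (hk : k X ≤ k X') =>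
    one_cell_est H₁' hk δ0.le δ1 (u₁ X') (d₁ X X' h)
  have p₂ := fun X X' (h : c (u X) = c (u X')) (hk : k X ≤ k X') =>
    one_cell_est H₂' hk δ0.le δ1 (u₂ X') (d₂ X X' h)
  have q : ∀ j : ℕ, 9 * δ * 4 ^ j + 5 * C ≤ θ * 4 ^ j + (6 * C + 1) := fun j => by
    have : 9 * δ * 4 ^ j ≤ θ * 4 ^ j := mul_le_mul_of_nonneg_right δ2 (by positivity)
    linarith
  have q' : ∀ j i : ℕ, 9 * δ * 4 ^ j + 5 * C * 4 ^ i ≤ θ * 4 ^ j + (6 * C + 1) * 4 ^ i :=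
    fun j i => by
      have : 9 * δ * 4 ^ j ≤ θ * 4 ^ j := mul_le_mul_of_nonneg_right δ2 (by positivity)
      have : 5 * C * 4 ^ i ≤ (6 * C + 1) * 4 ^ i :=
        mul_le_mul_of_nonneg_right (by linarith) (by positivity)
      linarith
  have q'' : ∀ n : ℕ, C * ((n : ℝ) ^ 2 + 1) ≤ (6 * C + 1) * ((n : ℝ) ^ 2 + 1) := fun n =>
    mul_le_mul_of_nonneg_right (by linarith) (by positivity)
  refine ⟨N, fun X => c (u X), k, 6 * C + 1, by linarith, fun X => ?_, fun X => ?_,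
    fun n P => (one_smul_est H₁' n P).trans (q'' n), fun n P => (one_smul_est H₂' n P).trans (q'' n),
    fun P P' => (one_par_est H₁' P P').trans (by linarith),
    fun P P' => (one_par_est H₂' P P').trans (by linarith),
    fun X X' h hk => (p₁ X X' h hk).1.trans (q _), fun X X' h hk => (p₂ X X' h hk).1.trans (q _),
    fun X X' h hk => (p₁ X X' h hk).2.1.trans (q _),
    fun X X' h hk => (p₂ X X' h hk).2.1.trans (q _),
    fun X X' h hk => (p₁ X X' h hk).2.2.1.trans (q _),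
    fun X X' h hk => (p₂ X X' h hk).2.2.1.trans (q _),
    fun X X' h hk => (p₁ X X' h hk).2.2.2.trans (q' _ _),
    fun X X' h hk => (p₂ X X' h hk).2.2.2.trans (q' _ _)⟩
  · have a1 := abs_le.mp (H₁' X.1)
    have a2 := abs_le.mp (H₂' X.2)
    have a3 : max (‖φ₁ X.1‖ ^ 2 + ‖φ₂ X.2‖ ^ 2) 1 ≤ ‖φ₁ X.1‖ ^ 2 + ‖φ₂ X.2‖ ^ 2 + 1 :=
      max_le (by linarith) (by linarith [sq_nonneg ‖φ₁ X.1‖, sq_nonneg ‖φ₂ X.2‖])
    linarith [hk₁ X, a1.2, a2.2]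
  · have a1 := abs_le.mp (H₁' X.1)
    have a2 := abs_le.mp (H₂' X.2)
    linarith [hk₂ X, a1.1, a2.1]

variable {K : Type*} [Field K] [NumberField K]

/-- Cells for two elliptic curves over a number field. -/
theorem exists_cells [DecidableEq K] (W₁ W₂ : WeierstrassCurve K) [W₁.IsElliptic] [W₂.IsElliptic]
    {θ : ℝ} (hθ : 0 < θ) :
    ∃ (N : ℕ) (cell : W₁.toAffine.Point × W₂.toAffine.Point → Fin N)
      (k : W₁.toAffine.Point × W₂.toAffine.Point → ℕ) (C : ℝ), Cells hx hx θ cell k C := by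
  obtain ⟨r₁, φ₁, C₁, H₁⟩ := exists_euclid W₁
  obtain ⟨r₂, φ₂, C₂, H₂⟩ := exists_euclid W₂
  exact exists_cells_abstract H₁ H₂ hθ

section short

open Pool.Agent.Lib.MP_e97e2b_nt

variable {K : Type} [Field K] [NumberField K]

lemma isElliptic_sw {a b : K} (hD : 4 * a ^ 3 + 27 * b ^ 2 ≠ 0) :
    WeierstrassCurve.IsElliptic (sw a b) := by
  refine ⟨IsUnit.mk0 _ ?_⟩
  have e : WeierstrassCurve.Δ (sw a b) = -16 * (4 * a ^ 3 + 27 * b ^ 2) := by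
    simp only [WeierstrassCurve.Δ, WeierstrassCurve.b₂, WeierstrassCurve.b₄, WeierstrassCurve.b₆,
      WeierstrassCurve.b₈, sw]
    ring
  rw [e]
  exact mul_ne_zero (by norm_num) hD

/-- The height of the first coordinate of a point of a short curve. -/
noncomputable def hp {a b : K} (P : Pt a b) : ℝ := hx (W := sw a b) P

lemma hp_pt {a b x y : K} (h : NS a b x y) : hp (pt x y h) = Height.logHeight₁ x := hx_some _

lemma hp_zero {a b : K} : hp (0 : Pt a b) = 0 := hx_zero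

lemma hp_nonneg {a b : K} (P : Pt a b) : 0 ≤ hp P := hx_nonneg _

lemma finite_hp_le {a b : K} (B : ℝ) : {P : Pt a b | hp P ≤ B}.Finite :=
  finite_hx_le (W := sw a b) B

theorem exists_euclid_pt {a b : K} (hD : 4 * a ^ 3 + 27 * b ^ 2 ≠ 0) :
    ∃ (r : ℕ) (φ : Pt a b →+ EuclideanSpace ℝ (Fin r)) (C : ℝ), ∀ P, |‖φ P‖ ^ 2 - hp P| ≤ C := by
  have := isElliptic_sw hD
  exact @exists_euclid K _ _ (Classical.decEq K) (sw a b) _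

/-- Cells for two short curves. -/
theorem exists_cells_pt {a b a' b' : K} (hD : 4 * a ^ 3 + 27 * b ^ 2 ≠ 0)
    (hD' : 4 * a' ^ 3 + 27 * b' ^ 2 ≠ 0) {θ : ℝ} (hθ : 0 < θ) :
    ∃ (N : ℕ) (cell : Pt a b × Pt a' b' → Fin N) (k : Pt a b × Pt a' b' → ℕ) (C : ℝ),
      Cells hp hp θ cell k C := by
  obtain ⟨r₁, φ₁, C₁, H₁⟩ := exists_euclid_pt hD
  obtain ⟨r₂, φ₂, C₂, H₂⟩ := exists_euclid_pt hD'
  exact exists_cells_abstract H₁ H₂ hθ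

end short

end Pool.Agent.MP_651af7_nt.MW
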