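import Pool.Agent.Lib.MP_651af7_nt.P1Defs

/-! The curve equations as relations, and the exit polynomial in two variables. -/

namespace Pool.Agent.Lib.MP_651af7_nt.Vj.P1

open Finset MvPolynomial Pool.Agent.Lib.Common.Subspace Pool.Agent.Lib.Common.ZeroLemma

/-- The length as a seminorm. -/
noncomputable def lenSN (σ : Type) : SN (MvPolynomial σ ℚ) False where
  N := len
  nonneg := len_nonneg
  zero := nrm_zero
  one := nrm_one.le
  neg := nrm_neg
  mul := nrm_mul_le fun _ => zero_le_one
  add := nrm_add_le fun _ => zero_le_one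
  add_na := False.elim

/-- The equation of the curve attached to `p`. -/
noncomputable def eqn {V : Type} (a b : V → ℤ) (p : V) : MvPolynomial (V × Bool) ℚ :=
  X (p, true) ^ 2 - fc (a p : MvPolynomial (V × Bool) ℚ) (b p) (X (p, false))

variable {V : Type} (a b : V → ℤ) (p : V)

lemma eqn_isInt : IsInt (eqn a b p) := by
  have h1 : ∀ z : ℤ, IsInt (z : MvPolynomial (V × Bool) ℚ) := fun z => by
    simpa using isInt_C (σ := V × Bool) z
  have h2 := isInt_X (σ := V × Bool) (p, true)
  have h3 := isInt_X (σ := V × Bool) (p, false)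
  have := (h2.mul h2).add ((((h3.mul h3).mul h3).add ((h1 (a p)).mul h3)).add (h1 (b p))).neg
  convert this using 1
  simp only [eqn, fc]; ring

lemma eqn_len : len (eqn a b p) ≤ 2 + |(a p : ℝ)| + |(b p : ℝ)| := by
  have hX : ∀ q : V × Bool, (lenSN (V × Bool)).N (X q) ≤ 1 := fun q => (nrm_X q).le
  have h1 := (lenSN (V × Bool)).pow_le (hX (p, true)) 2
  have h2 := (lenSN (V × Bool)).pow_le (hX (p, false)) 3
  have h3 := (lenSN (V × Bool)).int_mul_le (a p) (hX (p, false))
  have h4 := (lenSN (V × Bool)).intCast_le (b p)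
  rw [E_neg_case not_false] at h3 h4
  have h5 := (lenSN (V × Bool)).add (X (p, false) ^ 3) ((a p : MvPolynomial _ ℚ) * X (p, false))
  have h6 := (lenSN (V × Bool)).add (X (p, false) ^ 3 + (a p : MvPolynomial _ ℚ) * X (p, false))
    (b p)
  have h7 := (lenSN (V × Bool)).add (X (p, true) ^ 2) 
    (-fc (a p : MvPolynomial _ ℚ) (b p) (X (p, false)))
  rw [SN.neg, ← sub_eq_add_neg] at h7
  change (lenSN (V × Bool)).N _ ≤ _
  unfold eqn
  unfold fc at h7 ⊢
  linarith

lemma eqn_degreeOf [DecidableEq V] (q : V × Bool) : (eqn a b p).degreeOf q ≤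
    max (if q = (p, true) then 2 else 0) (if q = (p, false) then 3 else 0) := by
  have hC : ∀ z : ℤ, (z : MvPolynomial (V × Bool) ℚ).degreeOf q = 0 := fun z => by
    simpa using degreeOf_C (z : ℚ) q
  have hX : ∀ (q' : V × Bool) (n : ℕ), (X q' ^ n : MvPolynomial (V × Bool) ℚ).degreeOf q ≤
      if q = q' then n else 0 := fun q' n => by
    refine (degreeOf_pow_le _ _ _).trans ?_
    rw [degreeOf_X]
    split_ifs <;> simp
  refine (degreeOf_sub_le _ _ _).trans (max_le_max (hX _ _) ?_)
  refine (degreeOf_add_le _ _ _).trans (max_le ((degreeOf_add_le _ _ _).trans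
    (max_le (hX _ _) ?_)) (by simp [hC]))
  refine (degreeOf_mul_le _ _ _).trans ?_
  rw [hC, degreeOf_X]
  split_ifs <;> simp

lemma eqn_rel {S : Type} [CommRing S] [IsDomain S] [CharZero S]
    (ev : MvPolynomial (V × Bool) ℚ →+* S) (w : V → ℝ) (ε : ℝ)
    (hl : 2 + |(a p : ℝ)| + |(b p : ℝ)| ≤ Real.exp (ε * w p))
    (h0 : ev (X (p, true)) ^ 2 = fc (a p : S) (b p) (ev (X (p, false))))
    (h1 : ev (X (p, true)) ≠ 0) :
    Rel ev (fun q => w q.1) ε 3 (p, true) (eqn a b p) := by
  classical
  refine ⟨eqn_isInt a b p, fun μ hμ q => ?_, fun μ hμ q hq => ?_, (eqn_len a b p).trans hl, ?_, ?_⟩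
  · refine (monomial_le_degreeOf q hμ).trans ((eqn_degreeOf a b p q).trans ?_)
    split_ifs <;> simp
  · have h2 := (monomial_le_degreeOf q hμ).trans (eqn_degreeOf a b p q)
    rw [if_neg, if_neg] at h2
    · simpa using h2
    · rintro rfl; exact lt_irrefl _ hq
    · rintro rfl; exact lt_irrefl _ hq
  · simp [eqn, map_fc, h0]
  · have hz : ∀ z : ℤ, pderiv (p, true) (z : MvPolynomial (V × Bool) ℚ) = 0 := fun z => by
      simp
    simpa [eqn, fc, hz, pderiv_X, Pi.single_apply, map_ofNat] using h1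

lemma eqn_pairwise [Fintype V] : ((univ : Finset V).toList.map fun p => (p, true)).Pairwise
    fun q q' : V × Bool => ∀ μ ∈ (eqn a b q'.1).support, μ q = 0 := by
  classical
  rw [List.pairwise_map]
  refine (Finset.nodup_toList univ).imp fun {p p'} hne μ hμ => ?_
  have h2 := (monomial_le_degreeOf (p, true) hμ).trans (eqn_degreeOf a b p' (p, true))
  simpa [hne] using h2

/-- A polynomial in the variables of one block as a polynomial in two variables. -/
lemma exit_two {O K : Type} [Field K] [CharZero K] (o : O) (g : MvPolynomial (O × Bool) ℚ)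
    (hi : Irreducible g) (hz : IsInt g) (B : ℕ)
    (hs : ∀ μ ∈ g.support, ∀ q : O × Bool, (q.1 ≠ o → μ q = 0) ∧ μ q ≤ B) (ξ : O × Bool → K)
    (h0 : aeval ξ g = 0) :
    ∃ g' : MvPolynomial (Fin 2) ℚ, Irreducible g' ∧ IsInt g' ∧ (∀ i, g'.degreeOf i ≤ B) ∧
      len g' ≤ len g ∧ aeval ![ξ (o, false), ξ (o, true)] g' = 0 := by
  classical
  let e : Fin 2 → O × Bool := ![(o, false), (o, true)]
  have he : Function.Injective e := by
    intro i i' h
    fin_cases i <;> fin_cases i' <;> simp_all [e]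
  obtain ⟨g', rfl⟩ := exists_rename_eq_of_vars_subset_range g e he (by
    rintro ⟨o', s⟩ hq
    obtain ⟨μ, hμ, h5⟩ := (mem_vars_iff_mem_support _).1 (Finset.mem_coe.1 hq)
    have h6 : o' = o := by
      by_contra h
      exact Finsupp.mem_support_iff.1 h5 ((hs μ hμ _).1 h)
    subst h6
    cases s
    · exact ⟨0, rfl⟩
    · exact ⟨1, rfl⟩)
  refine ⟨g', ⟨fun h => hi.1 (h.map (rename e)), fun u v huv => ?_⟩, fun μ => ?_, fun i => ?_,
    ?_, ?_⟩
  · have := hi.2 (a := rename e u) (b := rename e v) (by rw [huv, map_mul])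
    refine this.imp (fun h => ?_) (fun h => ?_) <;>
      simpa using h.map (killCompl he)
  · rw [← coeff_rename_mapDomain e he]
    exact hz _
  · refine degreeOf_le_iff.2 fun μ hμ => ?_
    have h1 : Finsupp.mapDomain e μ ∈ (rename e g').support := by
      rw [mem_support_iff, coeff_rename_mapDomain e he]
      exact mem_support_iff.1 hμ
    have h2 := (hs _ h1 (e i)).2
    rwa [Finsupp.mapDomain_apply he] at h2
  · exact len_le_of_injOn _ _ (Finsupp.mapDomain e) (Finsupp.mapDomain_injective he).injOn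
      fun μ _ => (coeff_rename_mapDomain e he g' μ).symm
  · rw [aeval_rename] at h0
    convert h0 using 3
    ext i
    fin_cases i <;> rfl

end Pool.Agent.Lib.MP_651af7_nt.Vj.P1
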