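import Pool.Agent.Lib.MP_651af7_nt.P1Defs

/-! A section that is nonzero with all its conjugates is nonzero along every formal branch. -/

namespace Pool.Agent.Lib.MP_651af7_nt.Vj.P1

open Finset MvPolynomial

section norm

variable {V : Type}

/-- The factor by which a sign change multiplies a variable. -/
def nmS (sg : V → ℤˣ) (q : V × Bool) : ℚ := if q.2 = true then ((sg q.1 : ℤ) : ℚ) else 1

/-- The sign change. -/
noncomputable def nmT (sg : V → ℤˣ) : MvPolynomial (V × Bool) ℚ →ₐ[ℚ] MvPolynomial (V × Bool) ℚ :=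
  aeval fun q => C (nmS sg q) * X q

lemma nmS_mul (s t : V → ℤˣ) (q : V × Bool) : nmS (s * t) q = nmS s q * nmS t q := by
  unfold nmS
  split_ifs <;> simp

lemma nmT_mul (s t : V → ℤˣ) (G : MvPolynomial (V × Bool) ℚ) :
    nmT s (nmT t G) = nmT (s * t) G := by
  have : (nmT s).comp (nmT t) = nmT (s * t) := by
    apply MvPolynomial.algHom_ext
    intro q
    simp only [nmT, AlgHom.comp_apply, aeval_X, map_mul, aeval_C, algebraMap_eq, nmS_mul]
    ring
  exact AlgHom.congr_fun this G

lemma nmT_one (G : MvPolynomial (V × Bool) ℚ) : nmT (1 : V → ℤˣ) G = G := by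
  have : nmT (1 : V → ℤˣ) = AlgHom.id ℚ _ := by
    apply MvPolynomial.algHom_ext
    intro q
    simp [nmT, nmS]
  rw [this]
  rfl

lemma nmT_monomial (s : V → ℤˣ) (μ : V × Bool →₀ ℕ) (c : ℚ) :
    nmT s (monomial μ c) = monomial μ ((μ.prod fun q n => nmS s q ^ n) * c) := by
  rw [nmT, aeval_monomial, monomial_eq, algebraMap_eq]
  simp only [mul_pow, Finsupp.prod, prod_mul_distrib, map_mul, map_prod, map_pow]
  ring

lemma coeff_nmT (s : V → ℤˣ) (μ : V × Bool →₀ ℕ) (G : MvPolynomial (V × Bool) ℚ) :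
    coeff μ (nmT s G) = (μ.prod fun q n => nmS s q ^ n) * coeff μ G := by
  classical
  induction G using MvPolynomial.induction_on' with
  | monomial ν c =>
    rw [nmT_monomial, coeff_monomial, coeff_monomial]
    split_ifs with h
    · rw [h]
    · simp
  | add p q hp hq => rw [map_add, coeff_add, coeff_add, hp, hq, mul_add]

lemma even_of_inv [DecidableEq V] {N : MvPolynomial (V × Bool) ℚ} (h : ∀ s, nmT s N = N)
    {μ : V × Bool →₀ ℕ} (hμ : μ ∈ N.support) (v : V) : Even (μ (v, true)) := by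
  have h1 := coeff_nmT (Function.update 1 v (-1)) μ N
  rw [h] at h1
  have h2 : (μ.prod fun q n => nmS (Function.update (1 : V → ℤˣ) v (-1)) q ^ n) =
      (-1) ^ μ (v, true) := by
    rw [Finsupp.prod_eq_single (v, true)]
    · simp [nmS]
    · rintro ⟨w, _ | _⟩ _ hw
      · simp [nmS]
      · have : w ≠ v := fun e => hw (by rw [e])
        simp [nmS, Function.update_of_ne this]
    · simp
  rw [h2] at h1
  by_contra hodd
  rw [Nat.not_even_iff_odd] at hodd
  rw [hodd.neg_one_pow] at h1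
  exact (mem_support_iff.1 hμ) (by linarith)

lemma exists_reduced [Fintype V] (a b : V → ℤ) {N0 : MvPolynomial (V × Bool) ℚ}
    (h : ∀ s, nmT s N0 = N0) : ∃ N : MvPolynomial V ℚ, ∀ (R : Type) [CommRing R]
      (φ : MvPolynomial (V × Bool) ℚ →+* R),
      (∀ p, φ (X (p, true)) ^ 2 = fc (a p : R) (b p) (φ (X (p, false)))) →
      φ N0 = eval₂Hom (φ.comp C) (fun p => φ (X (p, false))) N := by
  classical
  refine ⟨∑ μ ∈ N0.support, C (coeff μ N0) * ∏ v, (X v ^ μ (v, false) *
    fc (a v : MvPolynomial V ℚ) (b v) (X v) ^ (μ (v, true) / 2)), fun R _ φ hφ => ?_⟩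
  conv_lhs => rw [N0.as_sum]
  rw [map_sum, map_sum]
  refine sum_congr rfl fun μ hμ => ?_
  rw [monomial_eq, Finsupp.prod_fintype _ _ (by simp), Fintype.prod_prod_type]
  simp only [map_mul, map_prod, map_pow, map_fc, map_intCast, eval₂Hom_C, eval₂Hom_X',
    RingHom.comp_apply, Fintype.prod_bool]
  congr 1
  refine prod_congr rfl fun v _ => ?_
  obtain ⟨k, hk⟩ := even_of_inv h hμ v
  rw [← hφ, ← pow_mul, hk, mul_comm]
  congr 2
  omega

lemma shift_ne_zero {K : Type} [Field K] [CharZero K] (ξ : V → K) {N : MvPolynomial V ℚ}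
    (hN : N ≠ 0) (ψ : ℚ →+* MvPowerSeries V K) :
    eval₂Hom ψ (fun p => MvPowerSeries.C (ξ p) + MvPowerSeries.X p) N ≠ 0 := by
  have e : eval₂Hom ψ (fun p => MvPowerSeries.C (ξ p) + MvPowerSeries.X p) =
      (MvPolynomial.coeToMvPowerSeries.ringHom (σ := V) (R := K)).comp
        ((aeval (fun p => (C (ξ p) + X p : MvPolynomial V K)) :
          MvPolynomial V K →ₐ[K] MvPolynomial V K).toRingHom.comp (map (algebraMap ℚ K))) := by
    apply MvPolynomial.ringHom_ext'
    · exact Subsingleton.elim _ _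
    · intro p
      simp
  rw [e]
  intro h0
  simp only [RingHom.comp_apply, coeToMvPowerSeries.ringHom_apply, coe_eq_zero_iff,
    AlgHom.toRingHom_eq_coe, RingHom.coe_coe] at h0
  have h1 : (aeval (fun p => (X p - C (ξ p) : MvPolynomial V K)) :
      MvPolynomial V K →ₐ[K] MvPolynomial V K).comp
      (aeval (fun p => (C (ξ p) + X p : MvPolynomial V K))) = AlgHom.id K _ := by
    apply MvPolynomial.algHom_ext
    intro p
    simp
  have h2 := AlgHom.congr_fun h1 (map (algebraMap ℚ K) N)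
  rw [AlgHom.comp_apply, h0, map_zero, AlgHom.id_apply] at h2
  exact hN (map_injective _ (algebraMap ℚ K).injective (by rw [← h2, map_zero]))

end norm

theorem ev_ne_zero {V : Type} [Fintype V] (a b : V → ℤ) (G : MvPolynomial (V × Bool) ℚ)
    (x y : V → ℂ) (hxy : ∀ p, y p ^ 2 = fc (a p : ℂ) (b p) (x p))
    (hG : ∀ sg : V → ℤˣ, eval₂Hom (algebraMap ℚ ℂ)
      (fun q : V × Bool => if q.2 = true then ((sg q.1 : ℤ) : ℂ) * y q.1 else x q.1) G ≠ 0)
    {K : Type} [Field K] [CharZero K] (ξ : V → K)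
    (ev : MvPolynomial (V × Bool) ℚ →+* MvPowerSeries V K)
    (h1 : ∀ p, ev (X (p, false)) = MvPowerSeries.C (ξ p) + MvPowerSeries.X p)
    (h2 : ∀ p, ev (X (p, true)) ^ 2 = fc (a p : MvPowerSeries V K) (b p) (ev (X (p, false)))) :
    ev G ≠ 0 := by
  classical
  have hinv : ∀ s, nmT s (∏ t : V → ℤˣ, nmT t G) = ∏ t : V → ℤˣ, nmT t G := by
    intro s
    rw [map_prod]
    simp only [nmT_mul]
    exact Equiv.prod_comp (Equiv.mulLeft s) fun t => nmT t G
  obtain ⟨N, hN⟩ := exists_reduced a b hinv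
  have hN0 : N ≠ 0 := by
    intro h0
    have h3 := hN ℂ (eval₂Hom (algebraMap ℚ ℂ)
      (fun q : V × Bool => if q.2 = true then y q.1 else x q.1)) (by
        intro p
        simp [hxy])
    rw [h0, map_zero, map_prod, prod_eq_zero_iff] at h3
    obtain ⟨t, -, ht⟩ := h3
    apply hG t
    rw [← ht]
    have e : eval₂Hom (algebraMap ℚ ℂ)
        (fun q : V × Bool => if q.2 = true then ((t q.1 : ℤ) : ℂ) * y q.1 else x q.1) =
        (eval₂Hom (algebraMap ℚ ℂ)
          (fun q : V × Bool => if q.2 = true then y q.1 else x q.1)).comp (nmT t).toRingHom := by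
      apply MvPolynomial.ringHom_ext'
      · exact Subsingleton.elim _ _
      · rintro ⟨p, _ | _⟩
        · simp [nmT, nmS]
        · simp only [nmT, nmS, AlgHom.toRingHom_eq_coe, RingHom.comp_apply, RingHom.coe_coe,
            aeval_X, map_mul, eval₂Hom_X', if_true, map_intCast]
    rw [e]
    rfl
  intro h0
  have h3 := hN _ ev h2
  simp only [h1] at h3
  apply shift_ne_zero ξ hN0 (ev.comp C)
  rw [← h3, map_prod]
  exact prod_eq_zero (mem_univ 1) (by rw [nmT_one, h0])

end Pool.Agent.Lib.MP_651af7_nt.Vj.P1
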