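import Mathlib

namespace Pool.Agent.Lib.MP_651af7_nt

open Polynomial

/-- The field of algebraic numbers. -/
abbrev Qbar : Type := AlgebraicClosure ℚ

open Classical in
/-- `|disc K|` for a subfield `K` of `Qbar` of finite degree (`0` if the degree is infinite). -/
noncomputable def absDisc (K : IntermediateField ℚ Qbar) : ℕ :=
  if h : FiniteDimensional ℚ K then
    haveI : NumberField K := { to_finiteDimensional := h }
    (NumberField.discr K).natAbs
  else 0

/-- The degree `[ℚ(x) : ℚ]`. -/
noncomputable def deg (x : Qbar) : ℕ := Module.finrank ℚ (IntermediateField.adjoin ℚ {x})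

/-- The logarithmic discriminant `d(x) = log |disc ℚ(x)| / [ℚ(x) : ℚ]`. -/
noncomputable def logDisc (x : Qbar) : ℝ :=
  Real.log (absDisc (IntermediateField.adjoin ℚ {x})) / deg x

/-- The local height of the divisor `D = {Y ^ q g (X / Y) = 0}` on `P^1` at the place of `ℚ` whose
completion has algebraic closure `E`: the average over the conjugates `z` of `x` in `E` of
`log (max (1, |z|) ^ q / |g z|)`. -/
noncomputable def localHeight (E : Type) [NormedField E] [Algebra ℚ E] (g : ℚ[X]) (q : ℕ)
    (x : Qbar) : ℝ :=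
  (((minpoly ℚ x).aroots E).map fun z => Real.log (max 1 ‖z‖ ^ q / ‖aeval z g‖)).sum / deg x

/-- The proximity function `∑ v ∈ S ∪ {∞}, λ_{D, v}(x)`. -/
noncomputable def prox (S : Finset Nat.Primes) (g : ℚ[X]) (q : ℕ) (x : Qbar) : ℝ :=
  localHeight ℂ g q x +
    ∑ p ∈ S, haveI : Fact (p : ℕ).Prime := ⟨p.2⟩; localHeight (PadicAlgCl p) g q x

/-- The points `x ∉ D` of degree `n` with `H(x) ^ n ≤ T` violating Vojta's inequality
`m_S(D, x) - 2 h(x) - d(x) ≤ ε h(x) + C` on `P^1`. -/
def exceptions (S : Finset Nat.Primes) (g : ℚ[X]) (q n : ℕ) (ε C T : ℝ) : Set Qbar :=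
  {x | deg x = n ∧ aeval x g ≠ 0 ∧ n * NumberField.absLogHeight₁ x ≤ Real.log T ∧
    ε * NumberField.absLogHeight₁ x + C <
      prox S g q x - 2 * NumberField.absLogHeight₁ x - logDisc x}

end Pool.Agent.Lib.MP_651af7_nt
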