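import Pool.Agent.Lib.MP_651af7_nt.Gen
import Pool.Agent.Lib.MP_651af7_nt.Defs

namespace Pool.Agent.Lib.MP_651af7_nt

open Module Polynomial NumberField IntermediateField

/-- There are `O(X ^ κ)` subfields of `Qbar` of degree `n` with `|disc| ≤ X`. -/
def FieldCount (n : ℕ) (κ : ℝ) : Prop :=
  ∃ c : ℝ, ∀ X : ℝ, 1 ≤ X → ∀ A : Finset (IntermediateField ℚ Qbar),
    (∀ K ∈ A, Module.finrank ℚ K = n ∧ (absDisc K : ℝ) ≤ X) → (A.card : ℝ) ≤ c * X ^ κ

lemma absDisc_eq (K : IntermediateField ℚ Qbar) [NumberField K] :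
    (absDisc K : ℝ) = |(discr K : ℝ)| := by
  have h : FiniteDimensional ℚ K := inferInstance
  rw [absDisc, dif_pos h, Nat.cast_natAbs, Int.cast_abs]

lemma numberField_of_finrank (K : IntermediateField ℚ Qbar) (h : 0 < finrank ℚ K) :
    NumberField K :=
  { to_finiteDimensional := Module.finite_of_finrank_pos h }

lemma discr_pow_le (k K : Type*) [Field k] [NumberField k] [Field K] [NumberField K]
    [Algebra k K] : |(discr k : ℝ)| ^ finrank k K ≤ |(discr K : ℝ)| := by
  have h := natAbs_discr_eq_absNorm_differentIdeal_mul_natAbs_discr_pow k (𝓞 k) K (𝓞 K)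
  have h0 : (discr K).natAbs ≠ 0 := Int.natAbs_ne_zero.mpr (discr_ne_zero K)
  have h1 : (discr k).natAbs ^ finrank k K ≤ (discr K).natAbs :=
    Nat.le_of_dvd (Nat.pos_of_ne_zero h0) (h ▸ Dvd.intro_left _ rfl)
  have h2 : (((discr k).natAbs : ℕ) : ℝ) ^ finrank k K ≤ ((discr K).natAbs : ℕ) := by
    exact_mod_cast h1
  rwa [Nat.cast_natAbs, Nat.cast_natAbs, Int.cast_abs, Int.cast_abs] at h2

lemma exists_max_subfield (K : IntermediateField ℚ Qbar) (hK : 2 ≤ finrank ℚ K) :
    ∃ k : IntermediateField ℚ Qbar, k ≤ K ∧ k ≠ K ∧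
      ∀ k' : IntermediateField ℚ Qbar, k ≤ k' → k' ≤ K → k' = k ∨ k' = K := by
  classical
  have : FiniteDimensional ℚ K := Module.finite_of_finrank_pos (by omega)
  let P : ℕ → Prop := fun d => ∃ k : IntermediateField ℚ Qbar, k ≤ K ∧ k ≠ K ∧ finrank ℚ k = d
  have hP1 : P 1 := ⟨⊥, bot_le, fun h => by
    rw [← h, IntermediateField.finrank_bot] at hK; omega, IntermediateField.finrank_bot⟩
  obtain ⟨k, h1, h2, h3⟩ : P (Nat.findGreatest P (finrank ℚ K)) :=
    Nat.findGreatest_spec (m := 1) (by omega) hP1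
  refine ⟨k, h1, h2, fun k' h4 h5 => ?_⟩
  by_cases h6 : k' = K
  · exact Or.inr h6
  · left
    have : FiniteDimensional ℚ k' := Module.Finite.of_injective (inclusion h5).toLinearMap
      (inclusion h5).injective
    have h7 : finrank ℚ k' ≤ finrank ℚ K :=
      LinearMap.finrank_le_finrank_of_injective (f := (inclusion h5).toLinearMap)
        (inclusion h5).injective
    refine (eq_of_le_of_finrank_le h4 ?_).symm
    rw [h3]
    exact Nat.le_findGreatest h7 ⟨k', h5, h6, rfl⟩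

lemma finrank_tower {k K : IntermediateField ℚ Qbar} (h : k ≤ K) :
    finrank ℚ k * finrank k (extendScalars h) = finrank ℚ K :=
  Module.finrank_mul_finrank ℚ k (extendScalars h)

/-- Schmidt's exponent. -/
noncomputable def sch (n : ℕ) : ℝ := if n = 1 then 0 else (n + 2) / 4

lemma sch_step (m l : ℕ) (hm : 0 < m) (hl : 0 < l) :
    ((l + 1 : ℕ) : ℝ)⁻¹ * sch m + (l + 3 : ℝ) / 4 ≤ sch (m * (l + 1)) := by
  have hne : m * (l + 1) ≠ 1 := by nlinarith
  rw [sch, sch, if_neg hne]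
  have hl' : (1 : ℝ) ≤ l := by exact_mod_cast hl
  split_ifs with h
  · subst h; push_cast; linarith
  · have hm' : (2 : ℝ) ≤ m := by exact_mod_cast (by omega : 2 ≤ m)
    have h1 : ((l + 1 : ℕ) : ℝ)⁻¹ ≤ 1 / 2 := by
      rw [inv_eq_one_div]
      exact one_div_le_one_div_of_le two_pos (by push_cast; linarith)
    have h2 : ((l + 1 : ℕ) : ℝ)⁻¹ * ((m + 2) / 4) ≤ 1 / 2 * ((m + 2) / 4) := by gcongr
    push_cast at h2 ⊢
    nlinarith

lemma fieldCount_step (m l : ℕ) (hm : 0 < m) (hl : 0 < l) (ih : FieldCount m (sch m)) :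
    ∃ c : ℝ, 0 ≤ c ∧ ∀ X : ℝ, 1 ≤ X → ∀ A : Finset (IntermediateField ℚ Qbar),
      (∀ K ∈ A, finrank ℚ K = m * (l + 1) ∧ (absDisc K : ℝ) ≤ X ∧
        ∃ k : IntermediateField ℚ Qbar, finrank ℚ k = m ∧ k ≤ K ∧
        ∀ k' : IntermediateField ℚ Qbar, k ≤ k' → k' ≤ K → k' = k ∨ k' = K) →
      (A.card : ℝ) ≤ c * X ^ sch (m * (l + 1)) := by
  classical
  obtain ⟨c1, hc1⟩ := ih
  obtain ⟨c2, hc20, hc2⟩ := ext_count m l hm hl
  have hc10 : 0 ≤ c1 := by simpa using hc1 1 le_rfl ∅ (by simp)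
  refine ⟨c1 * c2, by positivity, fun X hX A hA => ?_⟩
  choose! hA1 hA2 κ h1 h2 h3 using hA
  have hfr : ∀ K ∈ A, ∀ k : IntermediateField ℚ Qbar, ∀ h : k ≤ K, finrank ℚ k = m →
      finrank k (extendScalars h) = l + 1 := by
    intro K hK k h hk
    have := finrank_tower h
    rw [hk, hA1 K hK] at this
    exact Nat.eq_of_mul_eq_mul_left hm this
  have hnf : ∀ K ∈ A, NumberField K := fun K hK =>
    numberField_of_finrank K (by rw [hA1 K hK]; positivity)
  have himg : ((A.image κ).card : ℝ) ≤ c1 * (X ^ ((l + 1 : ℕ) : ℝ)⁻¹) ^ sch m := by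
    refine hc1 _ (Real.one_le_rpow hX (by positivity)) _ fun k hk => ?_
    obtain ⟨K, hK, rfl⟩ := Finset.mem_image.mp hk
    refine ⟨h1 K hK, ?_⟩
    have := numberField_of_finrank (κ K) (by rw [h1 K hK]; exact hm)
    have := hnf K hK
    have : NumberField (extendScalars (h2 K hK)) := hnf K hK
    have h4 := discr_pow_le (κ K) (extendScalars (h2 K hK))
    rw [hfr K hK (κ K) (h2 K hK) (h1 K hK)] at h4
    have h5 : |(discr (extendScalars (h2 K hK)) : ℝ)| ≤ X := by
      have := hA2 K hK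
      rw [absDisc_eq] at this
      exact this
    rw [absDisc_eq, Real.le_rpow_inv_iff_of_pos (abs_nonneg _) (by linarith) (by positivity),
      Real.rpow_natCast]
    exact h4.trans h5
  have hfib : ∀ k ∈ A.image κ, ((A.filter fun K => κ K = k).card : ℝ) ≤
      c2 * X ^ ((l + 3 : ℝ) / 4) := by
    intro k hk
    obtain ⟨K0, hK0, hk0⟩ := Finset.mem_image.mp hk
    have hkm : finrank ℚ k = m := hk0 ▸ h1 K0 hK0
    have := numberField_of_finrank k (by rw [hkm]; exact hm)
    let f : IntermediateField ℚ Qbar → IntermediateField k Qbar := fun K =>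
      if h : k ≤ K then extendScalars h else ⊥
    have hle : ∀ K ∈ A.filter fun K => κ K = k, k ≤ K := fun K hK =>
      (Finset.mem_filter.mp hK).2 ▸ h2 K (Finset.mem_filter.mp hK).1
    have hinj : Set.InjOn f (A.filter fun K => κ K = k) := by
      intro K hK K' hK' e
      simp only [f, dif_pos (hle K hK), dif_pos (hle K' hK')] at e
      rw [← extendScalars_restrictScalars (hle K hK), e, extendScalars_restrictScalars]
    rw [← Finset.card_image_of_injOn hinj]
    refine hc2 k Qbar hkm X hX _ fun L hL => ?_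
    obtain ⟨K, hK, rfl⟩ := Finset.mem_image.mp hL
    have hKA := (Finset.mem_filter.mp hK).1
    have hKk := (Finset.mem_filter.mp hK).2
    have hfK : f K = extendScalars (hle K hK) := dif_pos (hle K hK)
    rw [hfK]
    refine ⟨hfr K hKA k (hle K hK) hkm, fun α hα hα' => ?_, hnf K hKA, ?_⟩
    · have hle1 : k ≤ (adjoin k {α}).restrictScalars ℚ := fun x hx =>
        (adjoin k {α}).algebraMap_mem ⟨x, hx⟩
      have hle2 : adjoin k {α} ≤ extendScalars (hle K hK) := by
        rw [adjoin_simple_le_iff]; exact hα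
      rcases h3 K hKA ((adjoin k {α}).restrictScalars ℚ) (hKk ▸ hle1) hle2 with h | h
      · exfalso
        apply hα'
        have : α ∈ (adjoin k {α}).restrictScalars ℚ := mem_adjoin_simple_self k α
        rw [h, hKk] at this
        exact IntermediateField.mem_bot.mpr ⟨⟨α, this⟩, rfl⟩
      · refine le_antisymm hle2 fun x hx => ?_
        have : x ∈ K := hx
        rw [← h] at this
        exact this
    · have := hnf K hKA
      have h5 := hA2 K hKA
      rw [absDisc_eq] at h5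
      exact h5
  have hX0 : 0 < X := by linarith
  calc (A.card : ℝ) = ∑ k ∈ A.image κ, ((A.filter fun K => κ K = k).card : ℝ) := by
        exact_mod_cast Finset.card_eq_sum_card_image κ A
    _ ≤ ∑ _k ∈ A.image κ, c2 * X ^ ((l + 3 : ℝ) / 4) := Finset.sum_le_sum hfib
    _ = (A.image κ).card * (c2 * X ^ ((l + 3 : ℝ) / 4)) := by simp
    _ ≤ c1 * (X ^ ((l + 1 : ℕ) : ℝ)⁻¹) ^ sch m * (c2 * X ^ ((l + 3 : ℝ) / 4)) := by gcongr
    _ = c1 * c2 * X ^ (((l + 1 : ℕ) : ℝ)⁻¹ * sch m + (l + 3 : ℝ) / 4) := by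
        rw [Real.rpow_add hX0, Real.rpow_mul hX0.le]; ring
    _ ≤ _ := by
        gcongr
        exact sch_step m l hm hl

theorem fieldCount_sch (n : ℕ) : 0 < n → FieldCount n (sch n) := by
  classical
  induction n using Nat.strong_induction_on with
  | _ n ih =>
  intro hn
  by_cases h1 : n = 1
  · subst h1
    refine ⟨1, fun X _ A hA => ?_⟩
    have : A.card ≤ 1 := Finset.card_le_one.mpr fun a ha b hb => by
      rw [finrank_eq_one_iff.mp (hA a ha).1, finrank_eq_one_iff.mp (hA b hb).1]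
    simpa [sch] using this
  have hstep : ∀ m : Fin n, ∃ c : ℝ, 0 ≤ c ∧ ∀ X : ℝ, 1 ≤ X →
      ∀ A : Finset (IntermediateField ℚ Qbar),
      (∀ K ∈ A, finrank ℚ K = n ∧ (absDisc K : ℝ) ≤ X ∧
        ∃ k : IntermediateField ℚ Qbar, finrank ℚ k = m ∧ k ≤ K ∧
        ∀ k' : IntermediateField ℚ Qbar, k ≤ k' → k' ≤ K → k' = k ∨ k' = K) →
      (A.card : ℝ) ≤ c * X ^ sch n := by
    intro m
    by_cases hd : ∃ l, 0 < (m : ℕ) ∧ 0 < l ∧ n = m * (l + 1)
    · obtain ⟨l, hm, hl, e⟩ := hd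
      obtain ⟨c, hc0, hc⟩ := fieldCount_step m l hm hl (ih m m.2 hm)
      rw [← e] at hc
      exact ⟨c, hc0, hc⟩
    · refine ⟨0, le_rfl, fun X _ A hA => ?_⟩
      rcases A.eq_empty_or_nonempty with rfl | ⟨K, hK⟩
      · simp
      · exfalso
        obtain ⟨a1, -, k, a2, a3, -⟩ := hA K hK
        have := finrank_tower a3
        rw [a1, a2] at this
        have hm := m.2
        rcases hf : finrank k (extendScalars a3) with _ | _ | l
        · rw [hf] at this; omega
        · rw [hf] at this; omega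
        · rw [hf] at this
          exact hd ⟨l + 1, Nat.pos_of_ne_zero fun h => by rw [h] at this; omega, Nat.succ_pos _,
            this.symm⟩
  choose c hc0 hc using hstep
  refine ⟨∑ m, c m, fun X hX A hA => ?_⟩
  have hk : ∀ K ∈ A, ∃ m : Fin n, ∃ k : IntermediateField ℚ Qbar, finrank ℚ k = m ∧ k ≤ K ∧
      ∀ k' : IntermediateField ℚ Qbar, k ≤ k' → k' ≤ K → k' = k ∨ k' = K := by
    intro K hK
    obtain ⟨k, a1, a2, a3⟩ := exists_max_subfield K (by rw [(hA K hK).1]; omega)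
    have : FiniteDimensional ℚ K := Module.finite_of_finrank_pos (by rw [(hA K hK).1]; omega)
    refine ⟨⟨finrank ℚ k, ?_⟩, k, rfl, a1, a3⟩
    rw [← (hA K hK).1]
    by_contra hh
    exact a2 (eq_of_le_of_finrank_le a1 (not_lt.mp hh))
  have : Nonempty (Fin n) := ⟨⟨0, hn⟩⟩
  choose! μ hμ using hk
  calc (A.card : ℝ) = ∑ m : Fin n, ((A.filter fun K => μ K = m).card : ℝ) := by
        exact_mod_cast Finset.card_eq_sum_card_fiberwise (f := μ) fun _ _ => Finset.mem_univ _
    _ ≤ ∑ m : Fin n, c m * X ^ sch n := by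
        refine Finset.sum_le_sum fun m _ => hc m X hX _ fun K hK => ?_
        obtain ⟨a1, a2⟩ := Finset.mem_filter.mp hK
        exact ⟨(hA K a1).1, (hA K a1).2, a2 ▸ hμ K a1⟩
    _ = _ := by rw [Finset.sum_mul]

theorem fieldCount_schmidt (n : ℕ) (hn : 2 ≤ n) : FieldCount n ((n + 2) / 4) := by
  have := fieldCount_sch n (by omega)
  rwa [sch, if_neg (by omega)] at this

end Pool.Agent.Lib.MP_651af7_nt
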