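import Pool.Agent.Lib.MP_651af7_nt.Padic
import Pool.Agent.Lib.MP_651af7_nt.Schmidt

namespace Pool.Agent.Lib.MP_651af7_nt

open Module Polynomial NumberField IntermediateField

lemma exists_pts (E : Type*) [Field E] [Algebra ℚ E] (g : ℚ[X]) (N : ℕ) :
    ∃ Pts : Finset (Option E), none ∈ Pts ∧ (∀ β ∈ g.aroots E, some β ∈ Pts) ∧
      (∀ i < N, some (algebraMap ℚ E (i : ℕ)) ∈ Pts) ∧ N ≤ Pts.card := by
  classical
  let f : ℕ → E := fun i => algebraMap ℚ E (i : ℕ)
  have hf : Function.Injective f := fun i j h => by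
    exact_mod_cast (algebraMap ℚ E).injective h
  refine ⟨Finset.insertNone ((g.aroots E).toFinset ∪ (Finset.range N).image f),
    Finset.none_mem_insertNone, fun β hβ => ?_, fun i hi => ?_, ?_⟩
  · rw [Finset.some_mem_insertNone]
    exact Finset.mem_union_left _ (Multiset.mem_toFinset.mpr hβ)
  · rw [Finset.some_mem_insertNone]
    exact Finset.mem_union_right _ (Finset.mem_image_of_mem f (Finset.mem_range.mpr hi))
  · rw [Finset.card_insertNone]
    have := Finset.card_le_card (Finset.subset_union_right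
      (s₁ := (g.aroots E).toFinset) (s₂ := (Finset.range N).image f))
    rw [Finset.card_image_of_injective _ hf, Finset.card_range] at this
    omega

lemma eq_zero_of_small_values {E : Type*} [NormedField E] [Algebra ℚ E]
    (habs : ∀ r : ℚ, ‖algebraMap ℚ E r‖ = |(r : ℝ)|) (n : ℕ) (F : ℚ[X]) (hF : IntP F)
    (hd : F ∈ degreeLT ℚ (n + 1))
    (h : ∀ i < n + 1, ‖ev n (some (algebraMap ℚ E (i : ℕ))) F‖ < 1) : F = 0 := by
  classical
  refine eq_zero_of_degree_lt_of_eval_finset_eq_zero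
    ((Finset.range (n + 1)).image fun i : ℕ => (i : ℚ)) ?_ ?_
  · rw [Finset.card_image_of_injective _ Nat.cast_injective, Finset.card_range]
    exact mem_degreeLT.mp hd
  · intro x hx
    obtain ⟨i, hi, rfl⟩ := Finset.mem_image.mp hx
    have h1 := h i (Finset.mem_range.mp hi)
    rw [ev_some, aeval_algebraMap_apply_eq_algebraMap_eval, habs] at h1
    choose z hz using hF
    have h2 : F.eval (i : ℚ) = ((∑ j ∈ Finset.range (F.natDegree + 1), z j * i ^ j : ℤ) : ℚ) := by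
      rw [eval_eq_sum_range]
      push_cast
      exact Finset.sum_congr rfl fun j _ => by rw [hz]
    rw [h2] at h1 ⊢
    rw [Rat.cast_intCast, ← Int.cast_abs] at h1
    have h3 : |∑ j ∈ Finset.range (F.natDegree + 1), z j * (i : ℤ) ^ j| < 1 := by
      exact_mod_cast h1
    rw [Int.abs_lt_one_iff.mp h3, Int.cast_zero]

lemma isIntegral_qbar (x : Qbar) : IsIntegral ℚ x :=
  ((AlgebraicClosure.isAlgebraic ℚ).isAlgebraic x).isIntegral

lemma deg_eq (x : Qbar) : deg x = (minpoly ℚ x).natDegree :=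
  adjoin.finrank (isIntegral_qbar x)

lemma minpoly_coe {K : IntermediateField ℚ Qbar} (y : K) : minpoly ℚ y = minpoly ℚ (y : Qbar) :=
  IntermediateField.minpoly_eq y

lemma card_le_of_roots (A : Finset Qbar) (F : ℚ[X]) (hF : F ≠ 0) (h : ∀ x ∈ A, aeval x F = 0) :
    A.card ≤ F.natDegree := by
  classical
  refine le_trans (Finset.card_le_card (t := (F.aroots Qbar).toFinset) fun x hx => ?_) ?_
  · rw [Multiset.mem_toFinset, mem_aroots]; exact ⟨hF, h x hx⟩
  · exact (Multiset.toFinset_card_le _).trans ((card_roots' _).trans natDegree_map_le)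

lemma aeval_emb_ne_zero {E : Type*} [Field E] [Algebra ℚ E] {K : IntermediateField ℚ Qbar}
    (y : K) (g : ℚ[X]) (h : aeval (y : Qbar) g ≠ 0) (τ : K →ₐ[ℚ] E) : aeval (τ y) g ≠ 0 := by
  rw [aeval_algHom_apply, _root_.map_ne_zero]
  intro h0
  apply h
  have := aeval_algHom_apply K.val y g
  rw [h0, map_zero] at this
  exact this

section

variable {V : Type} [Fintype V] (E : V → Type) [∀ v, NormedField (E v)]
  [∀ v, Algebra ℚ (E v)] [∀ v, IsAlgClosed (E v)]

/-- total (unnormalised) proximity -/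
noncomputable def tot (g : ℚ[X]) (q : ℕ) (x : Qbar) : ℝ :=
  ∑ v, (((minpoly ℚ x).aroots (E v)).map (lam g q)).sum

lemma tot_eq (g : ℚ[X]) (q : ℕ) {K : IntermediateField ℚ Qbar} [NumberField K] (y : K)
    (hy : (minpoly ℚ y).natDegree = finrank ℚ K) :
    tot E g q y = ∑ v, ∑ τ : K →ₐ[ℚ] E v, lam g q (τ y) := by
  refine Finset.sum_congr rfl fun v _ => ?_
  rw [← minpoly_coe, aroots_eq_embeddings (E v) y hy, Multiset.map_map,
    Finset.sum_map_val]
  rfl

lemma classes (g : ℚ[X]) (hg : Squarefree g) (q : ℕ) (hq : q ≤ g.natDegree + 1)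
    (Pts : ∀ v, Finset (Option (E v))) (h0 : ∀ v, none ∈ Pts v)
    (h1 : ∀ v, ∀ β ∈ g.aroots (E v), some β ∈ Pts v) (n : ℕ) (a ε C : ℝ) (hε : 0 < ε) :
    ∃ (K0 : ℕ) (L0 : ℝ), ∀ L : ℝ, L0 ≤ L → ∃ u : ℝ, 0 < u ∧
      ∃ cl : ∀ v, E v → Pts v × Fin (K0 + 1),
      (∀ v z, aeval z g ≠ 0 → ‖lin (cl v z).1.1 z‖ ≤
        sz (cl v z).1.1 * Real.exp (-(u * (cl v z).2)) * max 1 ‖z‖) ∧
      ∀ (I : V → Type) [∀ v, Fintype (I v)] (z : ∀ v, I v → E v), (∀ v, Fintype.card (I v) = n) →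
        (∀ v i, aeval (z v i) g ≠ 0) → (a + ε) * L + C ≤ ∑ v, ∑ i, lam g q (z v i) →
        a * L ≤ u * ((∑ v, ∑ i, ((cl v (z v i)).2 : ℕ) : ℕ) : ℝ) := by
  classical
  choose c hc using fun v => exists_class g hg q hq (Pts v) (h0 v) (h1 v)
  set N : ℝ := n * Fintype.card V + 1 with hN
  have hN0 : 0 < N := by positivity
  set η : ℝ := ε / (2 * N) with hη
  have hη0 : 0 < η := by positivity
  refine ⟨⌈a / η⌉₊, max 1 ((n * ∑ v, c v - C) / (ε / 2)), fun L hL => ?_⟩
  have hL0 : 0 < L := lt_of_lt_of_le one_pos ((le_max_left _ _).trans hL)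
  have hL1 : n * ∑ v, c v - C ≤ L * (ε / 2) :=
    (div_le_iff₀ (by positivity)).mp ((le_max_right _ _).trans hL)
  have hu : 0 < η * L := by positivity
  choose cl hcl using fun v => hc v (η * L) ⌈a / η⌉₊ hu
  refine ⟨η * L, hu, cl, fun v z hz => (hcl v z hz).1, fun I _ z hI hz hsum => ?_⟩
  by_cases hex : ∃ v i, ((cl v (z v i)).2 : ℕ) = ⌈a / η⌉₊
  · obtain ⟨v, i, h⟩ := hex
    have h2 : ⌈a / η⌉₊ ≤ ∑ v, ∑ i, ((cl v (z v i)).2 : ℕ) := by
      refine h.symm.trans_le ?_
      exact (Finset.single_le_sum (f := fun i => ((cl v (z v i)).2 : ℕ)) (fun _ _ => Nat.zero_le _)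
        (Finset.mem_univ i)).trans (Finset.single_le_sum
          (f := fun v => ∑ i, ((cl v (z v i)).2 : ℕ)) (fun _ _ => Nat.zero_le _) (Finset.mem_univ v))
    have h3 : a / η ≤ ((∑ v, ∑ i, ((cl v (z v i)).2 : ℕ) : ℕ) : ℝ) :=
      (Nat.le_ceil _).trans (by exact_mod_cast h2)
    rw [div_le_iff₀ hη0] at h3
    nlinarith
  · push Not at hex
    have h2 : ∑ v, ∑ i, lam g q (z v i) ≤
        ∑ v, ∑ i, (η * L * (((cl v (z v i)).2 : ℕ) + 1) + c v) :=
      Finset.sum_le_sum fun v _ => Finset.sum_le_sum fun i _ =>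
        ((hcl v _ (hz v i)).2.resolve_left (hex v i))
    have h3 : ∑ v, ∑ i, (η * L * (((cl v (z v i)).2 : ℕ) + 1) + c v) =
        η * L * ((∑ v, ∑ i, ((cl v (z v i)).2 : ℕ) : ℕ) : ℝ) + η * L * (n * Fintype.card V) +
          n * ∑ v, c v := by
      simp only [mul_add, Finset.sum_add_distrib, Finset.sum_const, Finset.card_univ, hI,
        nsmul_eq_mul, Nat.cast_sum, Finset.mul_sum]
      ring
    have h4 : η * N = ε / 2 := by rw [hη]; field_simp
    have h5 : η * L * (n * Fintype.card V) ≤ L * (ε / 2) := by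
      rw [← h4, hN]; nlinarith
    nlinarith

variable [DecidableEq V] (v0 : V)

lemma gap_block (hult : ∀ v, v ≠ v0 → IsUltrametricDist (E v))
    (hprod : ∀ z : ℤ, z ≠ 0 → 1 ≤ ∏ v, ‖algebraMap ℚ (E v) z‖)
    (Hm : Qbar → ℝ) (hht : ∀ x, ∃ ν : ℚ, ν ≠ 0 ∧ IntP (C ν * minpoly ℚ x) ∧
      ‖algebraMap ℚ (E v0) ν‖ *
        (((minpoly ℚ x).aroots (E v0)).map fun z => max 1 ‖z‖).prod = Hm x)
    (g : ℚ[X]) (hg : Squarefree g) (q : ℕ) (hq : q ≤ g.natDegree + 1) (n : ℕ) (hn : 0 < n)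
    (ε C : ℝ) (hε : 0 < ε) :
    ∃ (c : ℕ) (L0 : ℝ), ∀ L, L0 ≤ L → ∀ K : IntermediateField ℚ Qbar, finrank ℚ K = n →
      ∀ A : Finset Qbar, (∀ x ∈ A, adjoin ℚ {x} = K ∧ aeval x g ≠ 0 ∧ Hm x ≤ Real.exp L ∧
        (2 + ε) * L + C ≤ tot E g q x) → A.card ≤ c := by
  classical
  choose Pts h0 h1 _ _ using fun v => exists_pts (E v) g 0
  obtain ⟨K0, L0, hcl⟩ := classes E g hg q hq Pts h0 h1 n (2 + ε / 2) (ε / 2) C (by positivity)
  let S : V → ℝ := fun v => ∑ P ∈ Pts v, sz P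
  have hS : ∀ v, ∀ P ∈ Pts v, sz P ≤ S v := fun v P hP =>
    Finset.single_le_sum (f := fun P => sz P) (fun P _ => zero_le_one.trans (one_le_sz P)) hP
  have hS0 : ∀ v, 0 < S v := fun v => lt_of_lt_of_le one_pos ((one_le_sz _).trans (hS v _ (h0 v)))
  set c1 : ℝ := ∏ v, (2 * S v) ^ n with hc1
  have hc10 : 0 < c1 := Finset.prod_pos fun v _ => by have := hS0 v; positivity
  refine ⟨∏ v, ((Pts v).card * (K0 + 1)) ^ n, max L0 ((Real.log c1 + 1) / (ε / 2)),
    fun L hL K hK A hA => ?_⟩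
  have hL1 : Real.log c1 + 1 ≤ L * (ε / 2) :=
    (div_le_iff₀ (by positivity)).mp ((le_max_right _ _).trans hL)
  obtain ⟨u, hu, cl, hcl1, hcl2⟩ := hcl L ((le_max_left _ _).trans hL)
  have := numberField_of_finrank K (by omega)
  have hmem : ∀ x ∈ A, x ∈ K := fun x hx => (hA x hx).1 ▸ mem_adjoin_simple_self ℚ x
  have hK'x : ∀ x : A, deg x.1 = finrank ℚ K := fun x => by rw [deg, (hA x.1 x.2).1]
  let y : A → K := fun x => ⟨x.1, hmem x.1 x.2⟩
  have hy : ∀ x : A, (minpoly ℚ (y x)).natDegree = finrank ℚ K := by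
    intro x
    rw [minpoly_coe, ← hK'x x]
    exact (deg_eq x.1).symm
  have hg0 : ∀ (x : A) v (τ : K →ₐ[ℚ] E v), aeval (τ (y x)) g ≠ 0 := fun x v τ =>
    aeval_emb_ne_zero (y x) g (hA x.1 x.2).2.1 τ
  let f : A → ∀ v, (K →ₐ[ℚ] E v) → Pts v × Fin (K0 + 1) := fun x v τ => cl v (τ (y x))
  have hcard : ∀ v, Fintype.card (K →ₐ[ℚ] E v) = n := fun v => by rw [AlgHom.card, hK]
  have hinj : Function.Injective f := by
    intro x x' e
    by_contra hne
    have hne' : y x ≠ y x' := fun h => hne (Subtype.ext (congrArg (fun t : K => (t : Qbar)) h))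
    obtain ⟨ν, a1, a2, a3⟩ := hht x.1
    obtain ⟨ν', b1, b2, b3⟩ := hht x'.1
    have m1 : minpoly ℚ x.1 = minpoly ℚ (y x) := (minpoly_coe (y x)).symm
    have m2 : minpoly ℚ x'.1 = minpoly ℚ (y x') := (minpoly_coe (y x')).symm
    rw [m1] at a2 a3
    rw [m2] at b2 b3
    rw [aroots_eq_embeddings _ _ (hy _), Multiset.map_map, Finset.prod_map_val] at a3 b3
    obtain ⟨z, hz0, hz⟩ := res_int (y x) (y x') (hy x) (hy x') ν ν' a1 b1 a2 b2 hne'
    have key : ∀ v, ‖algebraMap ℚ (E v) z‖ ≤ (2 * S v) ^ n *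
        Real.exp (-(u * ((∑ τ, ((f x v τ).2 : ℕ) : ℕ) : ℝ))) *
        (if v = v0 then Real.exp L * Real.exp L else 1) := by
      intro v
      rw [← hz]
      refine (norm_res_le (E v) (y x) (y x') ν ν'
        (fun τ => 2 * (S v * Real.exp (-(u * ((f x v τ).2 : ℕ))))) fun τ => ?_).trans ?_
      · have e' : cl v (τ (y x')) = cl v (τ (y x)) := (congrFun (congrFun e v) τ).symm
        have c1 := hcl1 v _ (hg0 x v τ)
        have c2 := hcl1 v _ (hg0 x' v τ)
        rw [e'] at c2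
        have c3 := hS v _ (cl v (τ (y x))).1.2
        refine close_of_same (cl v (τ (y x))).1.1 _ _ _ (by have := hS0 v; positivity)
          (c1.trans ?_) (c2.trans ?_)
        · gcongr
        · gcongr
      · refine mul_le_mul (le_of_eq ?_) ?_ (by positivity) (by have := hS0 v; positivity)
        · simp only [← mul_assoc]
          rw [Finset.prod_mul_distrib, Finset.prod_const, Finset.card_univ, hcard,
            ← Real.exp_sum]
          simp [Finset.mul_sum]
        · split_ifs with hv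
          · subst hv
            refine mul_le_mul (a3.trans_le (hA _ x.2).2.2.1) (b3.trans_le (hA _ x'.2).2.2.1)
              (by positivity) (by positivity)
          · have := hult v hv
            exact mul_le_one₀ (gauss' _ _ (hy x) ν a1 a2) (by positivity)
              (gauss' _ _ (hy x') ν' b1 b2)
    have k1 := (hprod z hz0).trans
      (Finset.prod_le_prod (fun _ _ => norm_nonneg _) fun v _ => key v)
    rw [Finset.prod_mul_distrib, Finset.prod_mul_distrib, Finset.prod_ite_eq', ← Real.exp_sum,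
      if_pos (Finset.mem_univ _), ← hc1, Finset.sum_neg_distrib, ← Finset.mul_sum,
      ← Nat.cast_sum] at k1
    have k2 := hcl2 (fun v => K →ₐ[ℚ] E v) (fun v τ => τ (y x)) hcard (hg0 x) (by
      rw [← tot_eq E g q (y x) (hy x)]
      have := (hA _ x.2).2.2.2
      linarith)
    rw [← Real.exp_log hc10, ← Real.exp_add, ← Real.exp_add, ← Real.exp_add,
      Real.one_le_exp_iff] at k1
    simp only [f] at k1
    linarith
  have := Fintype.card_le_of_injective f hinj
  rw [Fintype.card_coe, Fintype.card_pi] at this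
  refine this.trans_eq (Finset.prod_congr rfl fun v _ => ?_)
  rw [Fintype.card_fun, hcard, Fintype.card_prod, Fintype.card_coe, Fintype.card_fin]

end

end Pool.Agent.Lib.MP_651af7_nt
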