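import Mathlib

namespace Pool.Agent.Lib.MP_651af7_nt

open Module

section Count

variable {V : Type*} [AddCommGroup V] [Module ℚ V]

lemma count_mod (Λ : Submodule ℤ V) (hΛ : Λ.FG)
    (W : Submodule ℚ V) [FiniteDimensional ℚ W] (N : ℕ) (hN : 0 < N) (A : Finset V) (m : ℕ)
    (hA : ∀ a ∈ A, ∀ b ∈ A, a - b ∈ Λ ∧ a - b ∈ W)
    (hm : ∀ A' ⊆ A, (∀ a ∈ A', ∀ b ∈ A', ∃ c ∈ Λ, a - b = (N : ℚ) • c) → A'.card ≤ m) :
    A.card ≤ N ^ finrank ℚ W * m := by
  classical
  rcases A.eq_empty_or_nonempty with rfl | ⟨a0, ha0⟩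
  · simp
  let L : Submodule ℤ V := Λ ⊓ W.restrictScalars ℤ
  have hL : L.FG := by
    have : IsNoetherian ℤ Λ := isNoetherian_of_fg_of_noetherian Λ hΛ
    exact (isNoetherian_submodule.mp this) L inf_le_left
  have : Module.Finite ℤ L := Module.Finite.iff_fg.mpr hL
  have : IsAddTorsionFree V := IsAddTorsionFree.of_module_rat V
  have : Module.Free ℤ L := inferInstance
  let b := Module.Free.chooseBasis ℤ L
  have hcard : Fintype.card (Module.Free.ChooseBasisIndex ℤ L) ≤ finrank ℚ W := by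
    have h1 : LinearIndependent ℤ (fun i => ((b i : L) : V)) :=
      b.linearIndependent.map' L.subtype (Submodule.ker_subtype L)
    have h2 : LinearIndependent ℚ (fun i => ((b i : L) : V)) :=
      (LinearIndependent.iff_fractionRing ℤ ℚ).mp h1
    have h3 : LinearIndependent ℚ (fun i => (⟨((b i : L) : V), (b i).2.2⟩ : W)) :=
      LinearIndependent.of_comp W.subtype h2
    exact h3.fintype_card_le_finrank
  have : NeZero N := ⟨hN.ne'⟩
  let f : V → (Module.Free.ChooseBasisIndex ℤ L → ZMod N) := fun a =>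
    if h : a - a0 ∈ L then fun i => ((b.repr ⟨a - a0, h⟩ i : ℤ) : ZMod N) else 0
  have hmem : ∀ a ∈ A, a - a0 ∈ L := fun a ha => ⟨(hA a ha a0 ha0).1, (hA a ha a0 ha0).2⟩
  have key : A.card ≤ m * (Finset.univ : Finset (Module.Free.ChooseBasisIndex ℤ L → ZMod N)).card := by
    refine Finset.card_le_mul_card_image_of_maps_to (f := f) (fun _ _ => Finset.mem_univ _) m ?_
    intro y _
    refine hm _ (Finset.filter_subset _ _) ?_
    intro a ha a' ha'
    rw [Finset.mem_filter] at ha ha'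
    have h1 := hmem a ha.1
    have h2 := hmem a' ha'.1
    have h3 : ∀ i, (N : ℤ) ∣ b.repr (⟨a - a0, h1⟩ - ⟨a' - a0, h2⟩) i := by
      intro i
      have e : f a i = f a' i := by rw [ha.2, ha'.2]
      simp only [f, dif_pos h1, dif_pos h2] at e
      rw [map_sub, Finsupp.sub_apply]
      exact (ZMod.intCast_eq_intCast_iff_dvd_sub _ _ _).mp e.symm
    choose c hc using h3
    refine ⟨((∑ i, c i • b i : L) : V), (∑ i, c i • b i : L).2.1, ?_⟩
    have e := b.sum_repr (⟨a - a0, h1⟩ - ⟨a' - a0, h2⟩)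
    have e2 : (⟨a - a0, h1⟩ - ⟨a' - a0, h2⟩ : L) = (N : ℤ) • ∑ i, c i • b i := by
      rw [← e, Finset.smul_sum]
      refine Finset.sum_congr rfl fun i _ => ?_
      rw [hc i, mul_smul]
    have e3 := congrArg (fun x : L => (x : V)) e2
    simp only [AddSubgroupClass.coe_sub, sub_sub_sub_cancel_right] at e3
    rw [e3, Submodule.coe_smul]
    rw [← Int.cast_smul_eq_zsmul ℚ]
    simp
  rw [Finset.card_univ, Fintype.card_fun, ZMod.card, mul_comm] at key
  exact key.trans (Nat.mul_le_mul_right _ (Nat.pow_le_pow_right hN hcard))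

lemma finiteDimensional_span_inter (Λ : Submodule ℤ V) (hΛ : Λ.FG) (K : Set V) :
    FiniteDimensional ℚ (Submodule.span ℚ ((Λ : Set V) ∩ K)) := by
  obtain ⟨s, hs⟩ := hΛ
  have h : Submodule.span ℚ ((Λ : Set V) ∩ K) ≤ Submodule.span ℚ (s : Set V) := by
    rw [Submodule.span_le]
    intro x hx
    have := hx.1
    rw [← hs] at this
    exact Submodule.span_subset_span ℤ ℚ _ this
  exact Submodule.finiteDimensional_of_le h

lemma dyadic_count (Λ : Submodule ℤ V) (hΛ : Λ.FG) (m : ℕ) :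
    ∀ (K : ℕ → Set V), (∀ s x, (2 : ℚ) • x ∈ K s → x ∈ K (s + 1)) →
    (∀ x ∈ Λ, x ∈ K m → x = 0) → ∀ A : Finset V,
    (∀ a ∈ A, ∀ b ∈ A, a - b ∈ Λ ∧ a - b ∈ K 0) →
    A.card ≤ 2 ^ (∑ s ∈ Finset.range m, finrank ℚ (Submodule.span ℚ ((Λ : Set V) ∩ K s))) := by
  classical
  induction m with
  | zero =>
    intro K _ h0 A hA
    simp only [Finset.range_zero, Finset.sum_empty, pow_zero]
    rw [Finset.card_le_one]
    intro a ha b hb
    exact sub_eq_zero.mp (h0 _ (hA a ha b hb).1 (hA a ha b hb).2)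
  | succ m ih =>
    intro K hK h0 A hA
    have := finiteDimensional_span_inter Λ hΛ (K 0)
    rw [Finset.sum_range_succ', pow_add, mul_comm]
    refine count_mod Λ hΛ (Submodule.span ℚ ((Λ : Set V) ∩ K 0)) 2 two_pos A _ ?_ ?_
    · intro a ha b hb
      exact ⟨(hA a ha b hb).1, Submodule.subset_span ⟨(hA a ha b hb).1, (hA a ha b hb).2⟩⟩
    · intro A' hA' hd
      have hinj : Function.Injective (fun x : V => (2⁻¹ : ℚ) • x) :=
        smul_right_injective V (by norm_num)
      rw [← Finset.card_image_of_injective A' hinj]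
      refine ih (fun s => K (s + 1)) (fun s x => hK (s + 1) x) h0 _ ?_
      intro a ha b hb
      obtain ⟨a, ha', rfl⟩ := Finset.mem_image.mp ha
      obtain ⟨b, hb', rfl⟩ := Finset.mem_image.mp hb
      obtain ⟨c, hc, e⟩ := hd a ha' b hb'
      have e2 : (2⁻¹ : ℚ) • a - (2⁻¹ : ℚ) • b = c := by
        rw [← smul_sub, e, smul_smul]; norm_num
      rw [e2]
      refine ⟨hc, hK 0 c ?_⟩
      have := (hA a (hA' ha') b (hA' hb')).2
      rw [e] at this
      exact_mod_cast this

/-- A basis adapted to a decreasing chain of sets. -/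
lemma exists_level_basis (m : ℕ) :
    ∀ (A : ℕ → Set V), (∀ s, A (s + 1) ⊆ A s) →
    FiniteDimensional ℚ (Submodule.span ℚ (A 0)) →
    ∃ (b : Finset V) (lvl : V → ℕ), LinearIndepOn ℚ id (b : Set V) ∧ (∀ g ∈ b, g ∈ A (lvl g)) ∧
      Submodule.span ℚ (A 0) ≤ Submodule.span ℚ (b : Set V) ∧
      ∑ s ∈ Finset.range m, finrank ℚ (Submodule.span ℚ (A (s + 1))) ≤ ∑ g ∈ b, lvl g := by
  classical
  have ext : ∀ (s t : Set V), LinearIndepOn ℚ id s → s ⊆ t →
      FiniteDimensional ℚ (Submodule.span ℚ t) →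
      ∃ b : Finset V, (b : Set V) ⊆ t ∧ s ⊆ b ∧ Submodule.span ℚ t ≤ Submodule.span ℚ (b : Set V) ∧
        LinearIndepOn ℚ id (b : Set V) := by
    intro s t hs hst hfin
    obtain ⟨b, hbt, hsb, htb, hb⟩ := exists_linearIndepOn_id_extension hs hst
    have hbfin : b.Finite := by
      have h3 : LinearIndependent ℚ
          (fun i : b => (⟨(i : V), Submodule.subset_span (hbt i.2)⟩ : Submodule.span ℚ t)) :=
        LinearIndependent.of_comp (Submodule.span ℚ t).subtype hb
      exact Set.finite_coe_iff.mp h3.finite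
    refine ⟨hbfin.toFinset, by simpa using hbt, by simpa using hsb, ?_, by simpa using hb⟩
    rw [Submodule.span_le]
    simpa using htb
  induction m with
  | zero =>
    intro A _ hfin
    obtain ⟨b, h1, -, h3, h4⟩ := ext ∅ (A 0) (linearIndepOn_empty _ _) (Set.empty_subset _) hfin
    exact ⟨b, fun _ => 0, h4, fun g hg => h1 hg, h3, by simp⟩
  | succ m ih =>
    intro A hA hfin
    have hfin1 : FiniteDimensional ℚ (Submodule.span ℚ (A 1)) :=
      Submodule.finiteDimensional_of_le (Submodule.span_mono (hA 0))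
    obtain ⟨b', lvl', h1, h2, h3, h4⟩ := ih (fun s => A (s + 1)) (fun s => hA (s + 1)) hfin1
    have hanti : Antitone A := antitone_nat_of_succ_le hA
    have hb' : (b' : Set V) ⊆ A 0 := fun g hg => hanti (Nat.zero_le _) (h2 g hg)
    obtain ⟨b, k1, k2, k3, k4⟩ := ext b' (A 0) h1 hb' hfin
    refine ⟨b, fun g => if g ∈ b' then lvl' g + 1 else 0, k4, ?_, k3, ?_⟩
    · intro g hg
      by_cases h : g ∈ b'
      · simpa [h] using h2 g h
      · simpa [h] using k1 hg
    · have hsub : b' ⊆ b := by exact_mod_cast k2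
      rw [← Finset.sum_filter, Finset.filter_mem_eq_inter, Finset.inter_eq_right.mpr hsub,
        Finset.sum_add_distrib, Finset.sum_range_succ']
      have : finrank ℚ (Submodule.span ℚ (A (0 + 1))) ≤ ∑ _g ∈ b', 1 := by
        simp only [Finset.sum_const, smul_eq_mul, mul_one]
        exact (Submodule.finrank_mono h3).trans (finrank_span_finset_le_card b')
      exact Nat.add_le_add h4 this

end Count

end Pool.Agent.Lib.MP_651af7_nt
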