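import Mathlib

/-! Heights of vectors in finite extensions of number fields. -/

namespace Pool.Agent.MP_651af7_nt.Final

open Module NumberField Height

variable {K L : Type*} [Field K] [NumberField K] [Field L] [NumberField L]

theorem prod_emb (f : InfinitePlace L → ℝ) :
    ∏ τ : L →+* ℂ, f (InfinitePlace.mk τ) = ∏ w : InfinitePlace L, f w ^ w.mult := by
  classical
  rw [← Finset.prod_fiberwise Finset.univ InfinitePlace.mk]
  refine Finset.prod_congr rfl fun w _ => ?_
  rw [Finset.prod_congr rfl (g := fun _ => f w)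
    (fun τ hτ => by rw [(Finset.mem_filter.1 hτ).2]), Finset.prod_const,
    InfinitePlace.card_filter_mk_eq]

variable {ι : Type*} [Finite ι]

theorem height_eq {x : ι → 𝓞 L} (hx : x ≠ 0) :
    mulHeight (fun i => (x i : L)) * Ideal.absNorm (Ideal.span (Set.range x)) =
      ∏ τ : L →+* ℂ, ⨆ i, ‖τ (x i)‖ := by
  have h1 := absNorm_mul_finprod_finitePlace_eq_one hx
  have hx' : (fun i => (x i : L)) ≠ 0 := by
    obtain ⟨i, hi⟩ := Function.ne_iff.mp hx
    exact Function.ne_iff.mpr ⟨i, RingOfIntegers.coe_ne_zero_iff.mpr hi⟩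
  rw [NumberField.mulHeight_eq hx', mul_assoc, mul_comm (∏ᶠ v : FinitePlace L, _), h1, mul_one,
    ← prod_emb fun w => ⨆ i, w (x i : L)]
  rfl

variable [Algebra K L]

theorem prod_emb_comp (g : (K →+* ℂ) → ℝ) :
    ∏ τ : L →+* ℂ, g (τ.comp (algebraMap K L)) = (∏ σ : K →+* ℂ, g σ) ^ finrank K L := by
  classical
  rw [← Finset.prod_fiberwise Finset.univ fun τ : L →+* ℂ => τ.comp (algebraMap K L),
    ← Finset.prod_pow]
  refine Finset.prod_congr rfl fun σ _ => ?_
  rw [Finset.prod_congr rfl (g := fun _ => g σ)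
    (fun τ hτ => by rw [(Finset.mem_filter.1 hτ).2]), Finset.prod_const]
  congr 1
  let := σ.toAlgebra
  rw [← AlgHom.card K L ℂ, ← Fintype.card_subtype]
  refine Fintype.card_congr ⟨fun τ => ⟨τ.1, fun x => RingHom.congr_fun τ.2 x⟩,
    fun τ => ⟨τ.toRingHom, RingHom.ext fun x => τ.commutes x⟩, fun _ => rfl, fun _ => rfl⟩

theorem mulHeight_algebraMap_int {x : ι → 𝓞 K} (hx : x ≠ 0) :
    mulHeight (fun i => algebraMap K L (x i)) = mulHeight (fun i => (x i : K)) ^ finrank K L := by
  have hx' : (fun i => algebraMap (𝓞 K) (𝓞 L) (x i)) ≠ 0 := by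
    obtain ⟨i, hi⟩ := Function.ne_iff.mp hx
    exact Function.ne_iff.mpr ⟨i, by simpa using hi⟩
  have h1 := height_eq hx
  have h2 := height_eq hx'
  have h3 : Ideal.span (Set.range fun i => algebraMap (𝓞 K) (𝓞 L) (x i)) =
      (Ideal.span (Set.range x)).map (algebraMap (𝓞 K) (𝓞 L)) := by
    rw [Ideal.map_span, ← Set.range_comp]
    rfl
  have h4 := prod_emb_comp (L := L) fun σ : K →+* ℂ => ⨆ i, ‖σ (x i)‖
  have h5 : (Ideal.absNorm (Ideal.span (Set.range x)) : ℝ) ≠ 0 := by
    rw [Nat.cast_ne_zero, Ne, Ideal.absNorm_eq_zero_iff, Ideal.span_eq_bot]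
    intro h
    exact hx (funext fun i => h _ ⟨i, rfl⟩)
  rw [h3, Ideal.absNorm_algebraMap, ← IsFractionRing.finrank_eq (𝓞 K) K (𝓞 L) L] at h2
  rw [← h1, mul_pow] at h4
  refine mul_right_cancel₀ (pow_ne_zero (finrank K L) h5) ?_
  rw [← h4]
  push_cast at h2
  exact h2

theorem logHeight_algebraMap (x : ι → K) :
    logHeight (fun i => algebraMap K L (x i)) = finrank K L * logHeight x := by
  rcases eq_or_ne x 0 with rfl | hx
  · simp
  obtain ⟨b, hb⟩ := IsLocalization.exist_integer_multiples_of_finite (nonZeroDivisors (𝓞 K)) x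
  choose z hz using hb
  have hb0 : ((b : 𝓞 K) : K) ≠ 0 := RingOfIntegers.coe_ne_zero_iff.mpr (nonZeroDivisors.coe_ne_zero b)
  have e : (fun i => (z i : K)) = ((b : 𝓞 K) : K) • x := by
    funext i
    have := hz i
    rw [Algebra.smul_def] at this
    exact this
  have hz0 : z ≠ 0 := by
    rintro rfl
    apply hx
    have : ((b : 𝓞 K) : K) • x = 0 := by
      rw [← e]
      funext i
      simp
    exact (smul_eq_zero.mp this).resolve_left hb0
  have e' : (fun i => algebraMap K L (z i)) =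
      algebraMap K L ((b : 𝓞 K) : K) • fun i => algebraMap K L (x i) := by
    funext i
    have := congrFun e i
    simp only [Pi.smul_apply, smul_eq_mul] at this ⊢
    rw [this, map_mul]
  have h := mulHeight_algebraMap_int (L := L) hz0
  rw [e, e', mulHeight_smul_eq_mulHeight _ hb0,
    mulHeight_smul_eq_mulHeight _ ((map_ne_zero _).mpr hb0)] at h
  rw [logHeight_eq_log_mulHeight, logHeight_eq_log_mulHeight, h, Real.log_pow]

end Pool.Agent.MP_651af7_nt.Final
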