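import Mathlib

namespace Pool.Agent.Lib.MP_651af7_nt

open Module Polynomial

/-- Evaluation of a polynomial, seen as a binary form of degree `m`, at a point of `P^1(E)`. -/
noncomputable def ev {E : Type*} [Field E] [Algebra ℚ E] (m : ℕ) : Option E → (ℚ[X] →ₗ[ℚ] E)
  | none => (Algebra.linearMap ℚ E) ∘ₗ lcoeff ℚ m
  | some β => (aeval β).toLinearMap

section

variable {E : Type*} [Field E] [Algebra ℚ E]

@[simp] lemma ev_none (m : ℕ) (F : ℚ[X]) :
    ev m (none : Option E) F = algebraMap ℚ E (F.coeff m) := rfl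

@[simp] lemma ev_some (m : ℕ) (β : E) (F : ℚ[X]) : ev m (some β) F = aeval β F := rfl

lemma det_ev_ne_zero (M : ℕ) (Q : Fin (M + 1) → Option E) (hQ : Function.Injective Q) :
    (Matrix.of fun l (i : Fin (M + 1)) => ev M (Q l) (X ^ (i : ℕ))).det ≠ 0 := by
  classical
  intro h
  obtain ⟨v, hv0, hv⟩ := Matrix.exists_mulVec_eq_zero_iff.mpr h
  let p : E[X] := ∑ i : Fin (M + 1), C (v i) * X ^ (i : ℕ)
  have hcoeff : ∀ i : Fin (M + 1), p.coeff i = v i := by
    intro i
    simp only [p, finsetSum_coeff, coeff_C_mul, coeff_X_pow]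
    rw [Finset.sum_eq_single i]
    · simp
    · intro j _ hj
      rw [if_neg (fun h => hj (Fin.ext h.symm)), mul_zero]
    · simp
  have hdeg : p.degree < (M + 1 : ℕ) := degree_sum_fin_lt v
  have hl : ∀ l, ∑ i : Fin (M + 1), ev M (Q l) (X ^ (i : ℕ)) * v i = 0 := fun l => congrFun hv l
  let Z : Finset E := (Finset.univ.image Q).eraseNone
  have hZ : ∀ β ∈ Z, p.eval β = 0 := by
    intro β hβ
    obtain ⟨l, -, hl'⟩ := Finset.mem_image.mp (Finset.mem_eraseNone.mp hβ)
    have := hl l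
    rw [hl'] at this
    simp only [ev_some, map_pow, aeval_X] at this
    simp only [p, eval_finsetSum, eval_mul, eval_C, eval_pow, eval_X]
    rw [← this]
    exact Finset.sum_congr rfl fun i _ => mul_comm _ _
  have hcardQ : (Finset.univ.image Q).card = M + 1 := by
    rw [Finset.card_image_of_injective _ hQ]; simp
  have hp0 : p = 0 := by
    by_cases hn : none ∈ Finset.univ.image Q
    · obtain ⟨l, -, hl'⟩ := Finset.mem_image.mp hn
      have h1 := hl l
      rw [hl'] at h1
      have h2 : p.coeff M = 0 := by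
        have := hcoeff (Fin.last M)
        rw [Fin.val_last] at this
        rw [this, ← h1, Finset.sum_eq_single (Fin.last M)]
        · simp
        · intro j _ hj
          have : (M : ℕ) ≠ j := fun h => hj (Fin.ext (by simp [← h]))
          simp [coeff_X_pow, this]
        · simp
      have h3 : p.degree < M := by
        rw [degree_lt_iff_coeff_zero] at hdeg ⊢
        intro k hk
        rcases eq_or_lt_of_le hk with rfl | hk'
        · exact h2
        · exact hdeg k hk'
      refine eq_zero_of_degree_lt_of_eval_finset_eq_zero Z ?_ hZ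
      have : Z.card = M := by
        rw [Finset.card_eraseNone_of_mem hn, hcardQ]; simp
      rwa [this]
    · refine eq_zero_of_degree_lt_of_eval_finset_eq_zero Z ?_ hZ
      have : Z.card = M + 1 := by
        rw [Finset.card_eraseNone_of_not_mem hn, hcardQ]
      rwa [this]
  apply hv0
  funext i
  rw [← hcoeff i, hp0]; simp

lemma ev_eq_sum (M : ℕ) (P : Option E) (g : ℚ[X]) (hg : g ∈ degreeLT ℚ (M + 1)) :
    ev M P g = ∑ j : Fin (M + 1), ev M P (X ^ (j : ℕ)) * algebraMap ℚ E (g.coeff j) := by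
  have h1 : g = ∑ j : Fin (M + 1), g.coeff j • X ^ (j : ℕ) := by
    have := (sum_fin (fun i (a : ℚ) => a • (X : ℚ[X]) ^ i) (fun _ => by simp)
      (mem_degreeLT.mp hg))
    rw [this]
    simp only [smul_X_eq_monomial]
    exact (sum_monomial_eq g).symm
  conv_lhs => rw [h1]
  rw [map_sum]
  refine Finset.sum_congr rfl fun j _ => ?_
  rw [map_smul, Algebra.smul_def, mul_comm]

end

section

variable {E : Type*} [NormedField E] [Algebra ℚ E]

lemma norm_det_le {N : ℕ} (B : Matrix (Fin N) (Fin N) E) (ρ w : Fin N → ℝ)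
    (h : ∀ l i, ‖B l i‖ ≤ ρ l * w i) :
    ‖B.det‖ ≤ (N.factorial : ℝ) * ((∏ l, ρ l) * ∏ i, w i) := by
  rw [Matrix.det_apply]
  refine (norm_sum_le _ _).trans ?_
  have : ∀ σ : Equiv.Perm (Fin N),
      ‖Equiv.Perm.sign σ • ∏ i, B (σ i) i‖ ≤ (∏ l, ρ l) * ∏ i, w i := by
    intro σ
    have e : ‖Equiv.Perm.sign σ • ∏ i, B (σ i) i‖ = ‖∏ i, B (σ i) i‖ := by
      rcases Int.units_eq_one_or (Equiv.Perm.sign σ) with h | h <;> simp [h]
    rw [e, norm_prod, ← Equiv.prod_comp σ ρ, ← Finset.prod_mul_distrib]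
    exact Finset.prod_le_prod (fun _ _ => norm_nonneg _) fun i _ => h _ _
  refine (Finset.sum_le_sum fun σ _ => this σ).trans ?_
  simp [Fintype.card_perm]

lemma det_bound (M : ℕ) (Q : Fin (M + 1) → Option E) (hQ : Function.Injective Q) :
    ∃ c : ℝ, 0 < c ∧ ∀ (g : Fin (M + 1) → ℚ[X]) (ρ w : Fin (M + 1) → ℝ),
      (∀ i, g i ∈ degreeLT ℚ (M + 1)) → (∀ l i, ‖ev M (Q l) (g i)‖ ≤ ρ l * w i) →
      ‖algebraMap ℚ E (Matrix.of fun (j i : Fin (M + 1)) => (g i).coeff j).det‖ ≤
        c * ((∏ l, ρ l) * ∏ i, w i) := by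
  have hA := det_ev_ne_zero M Q hQ
  set A := (Matrix.of fun l (i : Fin (M + 1)) => ev M (Q l) (X ^ (i : ℕ))) with hAdef
  have hApos : 0 < ‖A.det‖ := norm_pos_iff.mpr hA
  refine ⟨((M + 1).factorial : ℝ) / ‖A.det‖, by positivity, fun g ρ w hg h => ?_⟩
  have h1 := norm_det_le (Matrix.of fun l i => ev M (Q l) (g i)) ρ w h
  have h2 : (Matrix.of fun l i => ev M (Q l) (g i)) =
      A * (algebraMap ℚ E).mapMatrix (Matrix.of fun (j i : Fin (M + 1)) => (g i).coeff j) := by
    ext l i
    simp only [Matrix.of_apply, Matrix.mul_apply, hAdef, RingHom.mapMatrix_apply,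
      Matrix.map_apply]
    exact ev_eq_sum M (Q l) (g i) (hg i)
  rw [h2, Matrix.det_mul, ← RingHom.map_det, norm_mul] at h1
  rw [div_mul_eq_mul_div, le_div_iff₀ hApos, mul_comm]
  exact h1

/-- size of a point -/
noncomputable def sz : Option E → ℝ
  | none => 1
  | some β => 1 + ‖β‖

lemma one_le_sz (P : Option E) : 1 ≤ sz P := by
  cases P with
  | none => exact le_rfl
  | some β => simp [sz]

lemma norm_ev_shift (n e a : ℕ) (ha : a ≤ e) (P : Option E) (F : ℚ[X])
    (hF : F ∈ degreeLT ℚ (n + 1)) :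
    ‖ev (n + e) P (X ^ a * F)‖ ≤ sz P ^ e * ‖ev n P F‖ := by
  cases P with
  | none =>
    simp only [ev_none, sz, one_pow, one_mul]
    rcases eq_or_lt_of_le ha with rfl | h
    · rw [coeff_X_pow_mul]
    · have : (X ^ a * F).coeff (n + e) = 0 := by
        have e1 : n + e = (n + (e - a)) + a := by omega
        rw [e1, coeff_X_pow_mul]
        refine coeff_eq_zero_of_degree_lt ((mem_degreeLT.mp hF).trans_le ?_)
        exact_mod_cast (by omega : n + 1 ≤ n + (e - a))
      simp [this]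
  | some β =>
    simp only [ev_some, map_mul, map_pow, aeval_X, norm_mul, norm_pow, sz]
    refine mul_le_mul_of_nonneg_right ?_ (norm_nonneg _)
    calc ‖β‖ ^ a ≤ (1 + ‖β‖) ^ a := by gcongr; linarith
      _ ≤ (1 + ‖β‖) ^ e := pow_le_pow_right₀ (by simp) ha

end

end Pool.Agent.Lib.MP_651af7_nt
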