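import Pool.Agent.Lib.MP_651af7_nt.P1Tens

/-! The basic sections are independent. -/

namespace Pool.Agent.Lib.MP_651af7_nt.Vj.P1

open Finset

open Polynomial in
lemma p1ind_dstep {a b : ℂ} (hD : 4 * a ^ 3 + 27 * b ^ 2 ≠ 0) {n : ℕ} {p : ℂ[X] × ℂ[X] × ℂ[X]}
    (h1 : p.1.Monic) (h2 : p.1.natDegree = n) (h3 : p.2.1.natDegree < n)
    (h4 : IsCoprime p.1 p.2.1) :
    (dstep (C a) (C b) p).1.Monic ∧ (dstep (C a) (C b) p).1.natDegree = n * 4 ∧
      (dstep (C a) (C b) p).2.1.natDegree < n * 4 ∧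
      IsCoprime (dstep (C a) (C b) p).1 (dstep (C a) (C b) p).2.1 := by
  obtain ⟨A, B, T⟩ := p
  simp only [dstep] at *
  obtain ⟨k, rfl⟩ : ∃ k, n = k + 1 := ⟨n - 1, by omega⟩
  have hB : B.natDegree ≤ k := by omega
  have hA : A.natDegree ≤ k + 1 := h2.le
  have hr : (-(2 * C a * A ^ 2 * B ^ 2) - 8 * C b * A * B ^ 3 + C a ^ 2 * B ^ 4).natDegree ≤
      4 * k + 2 := by
    have e1 : (2 * C a * A ^ 2 * B ^ 2).natDegree ≤ 0 + 2 * (k + 1) + 2 * k := by
      refine natDegree_mul_le_of_le (natDegree_mul_le_of_le ?_ (natDegree_pow_le_of_le 2 hA))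
        (natDegree_pow_le_of_le 2 hB)
      compute_degree
    have e2 : (8 * C b * A * B ^ 3).natDegree ≤ 0 + (k + 1) + 3 * k := by
      refine natDegree_mul_le_of_le (natDegree_mul_le_of_le ?_ hA) (natDegree_pow_le_of_le 3 hB)
      compute_degree
    have e3 : (C a ^ 2 * B ^ 4).natDegree ≤ 0 + 4 * k := by
      refine natDegree_mul_le_of_le ?_ (natDegree_pow_le_of_le 4 hB)
      compute_degree
    refine natDegree_add_le_of_degree_le ((natDegree_sub_le _ _).trans (max_le ?_ ?_)) ?_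
    · rw [natDegree_neg]
      omega
    · omega
    · omega
  have he : A ^ 4 - 2 * C a * A ^ 2 * B ^ 2 - 8 * C b * A * B ^ 3 + C a ^ 2 * B ^ 4 =
      A ^ 4 + (-(2 * C a * A ^ 2 * B ^ 2) - 8 * C b * A * B ^ 3 + C a ^ 2 * B ^ 4) := by ring
  have h5 : (A ^ 4).natDegree = (k + 1) * 4 := by rw [h1.natDegree_pow, h2, mul_comm]
  have hlt : (-(2 * C a * A ^ 2 * B ^ 2) - 8 * C b * A * B ^ 3 + C a ^ 2 * B ^ 4).natDegree <
      (A ^ 4).natDegree := by omega
  refine ⟨?_, ?_, ?_, ?_⟩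
  · rw [he]
    exact (h1.pow 4).add_of_left (degree_lt_degree hlt)
  · rw [he, natDegree_add_eq_left_of_natDegree_lt hlt, h5]
  · have e1 : (A ^ 3 + C a * A * B ^ 2 + C b * B ^ 3).natDegree ≤ 3 * (k + 1) := by
      have f1 : (C a * A * B ^ 2).natDegree ≤ 0 + (k + 1) + 2 * k :=
        natDegree_mul_le_of_le (natDegree_mul_le_of_le (natDegree_C a).le hA)
          (natDegree_pow_le_of_le 2 hB)
      have f2 : (C b * B ^ 3).natDegree ≤ 0 + 3 * k :=
        natDegree_mul_le_of_le (natDegree_C b).le (natDegree_pow_le_of_le 3 hB)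
      refine natDegree_add_le_of_degree_le (natDegree_add_le_of_degree_le
        (natDegree_pow_le_of_le 3 hA) ?_) ?_ <;> omega
    have e2 : (4 * B * (A ^ 3 + C a * A * B ^ 2 + C b * B ^ 3)).natDegree ≤
        0 + k + 3 * (k + 1) := by
      refine natDegree_mul_le_of_le (natDegree_mul_le_of_le ?_ hB) e1
      compute_degree
    omega
  · have c1 : IsCoprime
        (A ^ 4 - 2 * C a * A ^ 2 * B ^ 2 - 8 * C b * A * B ^ 3 + C a ^ 2 * B ^ 4) B := by
      have : A ^ 4 - 2 * C a * A ^ 2 * B ^ 2 - 8 * C b * A * B ^ 3 + C a ^ 2 * B ^ 4 =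
          A ^ 4 + B * (-(2 * C a * A ^ 2 * B) - 8 * C b * A * B ^ 2 + C a ^ 2 * B ^ 3) := by ring
      rw [this]
      exact h4.pow_left.add_mul_left_left _
    have u1 : IsUnit (4 : ℂ[X]) := by
      have : (4 : ℂ[X]) = C 4 := rfl
      rw [this]
      exact isUnit_C.2 (by simp)
    have u2 : IsUnit (C (4 * a ^ 3 + 27 * b ^ 2) : ℂ[X]) := isUnit_C.2 hD.isUnit
    refine IsCoprime.mul_right ((isCoprime_mul_unit_left_right u1 _ _).2 c1) ?_
    obtain ⟨s, t, hst⟩ := (isCoprime_mul_unit_left_right u2 _ _).2 (c1.pow_right (n := 6))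
    refine ⟨s + t * (3 * A ^ 2 + 4 * C a * B ^ 2),
      -(t * (3 * A ^ 3 - 5 * C a * A * B ^ 2 - 27 * C b * B ^ 3)), ?_⟩
    rw [← hst]
    simp only [map_add, map_mul, map_pow, map_ofNat]
    ring

open Polynomial in
lemma p1ind_dbl {a b : ℂ} (hD : 4 * a ^ 3 + 27 * b ^ 2 ≠ 0) (j : ℕ) :
    (dbl (C a) (C b) X j).1.Monic ∧ (dbl (C a) (C b) X j).1.natDegree = 4 ^ j ∧
      (dbl (C a) (C b) X j).2.1.natDegree < 4 ^ j ∧
      IsCoprime (dbl (C a) (C b) X j).1 (dbl (C a) (C b) X j).2.1 := by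
  induction j with
  | zero => simp [dbl, isCoprime_one_right]
  | succ j ih =>
    obtain ⟨h1, h2, h3, h4⟩ := ih
    rw [pow_succ]
    exact p1ind_dstep hD h1 h2 h3 h4

open Polynomial in
lemma p1ind_exp {A B : ℂ[X]} (hA : A ≠ 0) (h : IsCoprime A B) (d : ℕ) (q : Fin (d + 1) → ℂ[X])
    (hq : ∀ β, (q β).degree < A.degree)
    (h0 : ∑ β : Fin (d + 1), A ^ (β : ℕ) * B ^ (d - β) * q β = 0) : ∀ β, q β = 0 := by
  induction d with
  | zero =>
    intro β
    have hβ : β = 0 := Fin.fin_one_eq_zero β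
    subst hβ
    simpa using h0
  | succ d ih =>
    rw [Fin.sum_univ_succ] at h0
    have e : ∑ β : Fin (d + 1), A ^ (β.succ : ℕ) * B ^ (d + 1 - β.succ) * q β.succ =
        A * ∑ β : Fin (d + 1), A ^ (β : ℕ) * B ^ (d - β) * q β.succ := by
      rw [Finset.mul_sum]
      refine Finset.sum_congr rfl fun β _ => ?_
      rw [Fin.val_succ, Nat.add_sub_add_right]
      ring
    rw [e] at h0
    simp only [Fin.val_zero, pow_zero, one_mul, Nat.sub_zero] at h0
    have h1 : A ∣ q 0 := by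
      refine (h.pow_right (n := d + 1)).dvd_of_dvd_mul_left
        ⟨-∑ β : Fin (d + 1), A ^ (β : ℕ) * B ^ (d - β) * q β.succ, ?_⟩
      linear_combination h0
    have h2 : q 0 = 0 := eq_zero_of_dvd_of_degree_lt h1 (hq 0)
    rw [h2, mul_zero, zero_add] at h0
    have h3 := ih (fun β => q β.succ) (fun β => hq _) ((mul_eq_zero.1 h0).resolve_left hA)
    exact fun β => Fin.cases h2 h3 β

/- Sketch. In C[X]: A_j = (dbl (C a) (C b) X j).1 is monic of degree 4 ^ j, B_j <> 0 has smaller degree, and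
A_j, B_j have no common root (induction: a common root of the next pair gives B = 0 or cubic = 0, and
the cubic and the numerator of the doubling formula have resultant (4 a ^ 3 + 27 b ^ 2) ^ 2; e.g.
(3 x^2 + 4 a) (x^4 - 2 a x^2 - 8 b x + a^2) - (3 x^3 - 5 a x - 27 b) (x^3 + a x + b) = 4 a^3 + 27 b^2).
So IsCoprime A B. If sum_beta A ^ beta B ^ (d - beta) q_beta = 0 with deg q_beta < 4 ^ j, the smallest beta with
q_beta <> 0 gives A | q_beta, impossible. (A B) ^ beta (B ^ 2) ^ (d - beta) = B ^ d A ^ beta B ^ (d - beta). A nonzero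
polynomial has a non-root; map_dbl with Polynomial.evalRingHom. -/
theorem arm_indep (a b : ℂ) (hD : 4 * a ^ 3 + 27 * b ^ 2 ≠ 0) (d j : ℕ) (h : TT d j → ℂ)
    (h0 : h ≠ 0) : ∃ x : ℂ, ∑ t, h t * (((dbl a b x j).1 * (dbl a b x j).2.1) ^ (t.1 : ℕ) *
      ((dbl a b x j).2.1 ^ 2) ^ (d - t.1) * x ^ (t.2 : ℕ)) ≠ 0 := by
  obtain ⟨h1, h2, h3, h4⟩ := p1ind_dbl hD j
  by_contra hcon
  push Not at hcon
  have hm := fun x : ℂ => map_dbl (Polynomial.evalRingHom x) (Polynomial.C a) (Polynomial.C b)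
    Polynomial.X j
  simp only [Polynomial.coe_evalRingHom, Polynomial.eval_C, Polynomial.eval_X] at hm
  generalize (dbl (Polynomial.C a) (Polynomial.C b) Polynomial.X j).1 = A at *
  generalize (dbl (Polynomial.C a) (Polynomial.C b) Polynomial.X j).2.1 = B at *
  have hB : B ≠ 0 := by
    rintro rfl
    have := Polynomial.natDegree_eq_zero_of_isUnit (isCoprime_zero_right.1 h4)
    omega
  let q : Fin (d + 1) → Polynomial ℂ := fun β =>
    ∑ i : Fin (4 ^ j), Polynomial.C (h (β, i)) * Polynomial.X ^ (i : ℕ)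
  have hP : B ^ d * ∑ β : Fin (d + 1), A ^ (β : ℕ) * B ^ (d - β) * q β = 0 := by
    refine Polynomial.funext fun x => ?_
    rw [Polynomial.eval_zero, ← hcon x, hm x, Fintype.sum_prod_type, Finset.mul_sum,
      Polynomial.eval_finsetSum]
    refine Finset.sum_congr rfl fun β _ => ?_
    obtain ⟨k, hk⟩ := Nat.exists_eq_add_of_le (Nat.lt_succ_iff.1 β.2)
    have hk' : d - (β : ℕ) = k := by omega
    have hBd : B ^ d = B ^ (β : ℕ) * B ^ k := by rw [← pow_add, ← hk]
    simp only [q, hk', hBd, Polynomial.eval_mul, Polynomial.eval_pow, Polynomial.eval_finsetSum,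
      Polynomial.eval_C, Polynomial.eval_X, Finset.mul_sum]
    refine Finset.sum_congr rfl fun i _ => ?_
    ring
  have hq := p1ind_exp h1.ne_zero h4 d q (fun β => by
    rw [Polynomial.degree_eq_natDegree h1.ne_zero, h2]
    exact Polynomial.degree_sum_fin_lt _) ((mul_eq_zero.1 hP).resolve_left (pow_ne_zero _ hB))
  apply h0
  funext t
  have h5 := congrArg (fun P => Polynomial.coeff P (t.2 : ℕ)) (hq t.1)
  simp only [q, Polynomial.finsetSum_coeff, Polynomial.coeff_C_mul_X_pow,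
    Polynomial.coeff_zero] at h5
  rw [Finset.sum_eq_single t.2] at h5
  · simpa using h5
  · intro i _ hi
    rw [if_neg]
    exact fun e => hi (Fin.ext e.symm)
  · simp

/-- The factor `arm` rescaled, in terms of `B = 1 / u` and `v = w / u ^ 2`. -/
def p1indArm (a b : ℂ) (d j : ℕ) (x y B v : ℂ) (t : TT d j) : ℂ :=
  (((dbl a b x j).1 * B + (dbl a b x j).2.1) * ((dbl a b x j).1 + a * (dbl a b x j).2.1 * B) +
      2 * b * (dbl a b x j).2.1 ^ 2 * B ^ 2 + 2 * (dbl a b x j).2.2 * y * v) ^ (t.1 : ℕ) *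
    (((dbl a b x j).1 * B - (dbl a b x j).2.1) ^ 2) ^ (d - t.1) * x ^ (t.2 : ℕ)

lemma p1ind_arm (a b : ℂ) (d j : ℕ) (x y B v : ℂ) (hB : B ≠ 0) (t : TT d j) :
    arm a b d j x y B⁻¹ (v * B⁻¹ ^ 2) false t = (B⁻¹ ^ 2) ^ d * p1indArm a b d j x y B v t := by
  obtain ⟨k, hk⟩ := Nat.exists_eq_add_of_le (Nat.lt_succ_iff.1 t.1.2)
  have hk' : d - (t.1 : ℕ) = k := by omega
  have hd : (B⁻¹ ^ 2) ^ d = (B⁻¹ ^ 2) ^ (t.1 : ℕ) * (B⁻¹ ^ 2) ^ k := by rw [← pow_add, ← hk]
  simp only [arm, law, lawp, p1indArm, hk', hd]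
  generalize (dbl a b x j).1 = P
  generalize (dbl a b x j).2.1 = Q
  generalize (dbl a b x j).2.2 = T
  have e1 : (P + B⁻¹ * Q) * (P * B⁻¹ + a * Q) + 2 * b * Q ^ 2 + 2 * T * y * (v * B⁻¹ ^ 2) =
      B⁻¹ ^ 2 * ((P * B + Q) * (P + a * Q * B) + 2 * b * Q ^ 2 * B ^ 2 + 2 * T * y * v) := by
    field_simp
  have e2 : (P - B⁻¹ * Q) ^ 2 = B⁻¹ ^ 2 * (P * B - Q) ^ 2 := by
    field_simp
  rw [e1, e2, mul_pow, mul_pow]
  ring

lemma p1ind_arm_zero (a b : ℂ) (d j : ℕ) (x y : ℂ) (t : TT d j) :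
    p1indArm a b d j x y 0 0 t = ((dbl a b x j).1 * (dbl a b x j).2.1) ^ (t.1 : ℕ) *
      ((dbl a b x j).2.1 ^ 2) ^ (d - t.1) * x ^ (t.2 : ℕ) := by
  simp [p1indArm, mul_comm]

lemma p1ind_sqrt : ∃ r : ℂ → ℂ, (∀ t, r t ^ 2 = t) ∧ Filter.Tendsto r (nhds 0) (nhds 0) := by
  choose r hr using fun t : ℂ => IsAlgClosed.exists_pow_nat_eq t two_pos
  refine ⟨r, hr, tendsto_zero_iff_norm_tendsto_zero.2 ?_⟩
  have h1 : (fun t => ‖r t‖) = fun t : ℂ => √‖t‖ := by
    funext t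
    conv_rhs => rw [← hr t, norm_pow, Real.sqrt_sq (norm_nonneg _)]
  rw [h1]
  have h2 : Continuous fun t : ℂ => √‖t‖ := by fun_prop
  simpa using h2.tendsto 0

/- Sketch. Let z0 maximize n(z) = z false + (d + 1) * z true among the z with c z <> 0 (n is injective). By
tens_ne_zero (over Fin m, each factor by tens_ne_zero over Bool, then arm_indep) choose x (some i, s) with
top := sum_tau c z0 tau * prod (A B) ^ _ (B ^ 2) ^ _ x ^ _ <> 0, and any square roots y (some i, s). Put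
x (none, false) = 1 / beta, x (none, true) = 1 / beta ^ (d + 1), y (none, s) = v s * x (none, s) ^ 2 where
v s ^ 2 = B + a B ^ 3 + b B ^ 4, B = 1 / x (none, s). Then (law .. false) / u ^ 2 = ((A B' + B)(A + a B B') + 2 b B^2 B'^2
+ 2 T y v, (A B' - B) ^ 2) with B' = 1 / u, so GG * beta ^ (n z0 + ...) = F_sg (beta, v false, v true), a continuous
(polynomial) function with F_sg (0,0,0) = top for every choice of signs. Finitely many signs, so all F_sg are
nonzero near 0; take beta <> 0 small (v s -> 0 since v s ^ 2 -> 0). -/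
theorem GG_ne_zero {m : ℕ} (a b : Bool → ℤ) (hD : ∀ s, 4 * a s ^ 3 + 27 * b s ^ 2 ≠ 0) (d : ℕ)
    (j : Fin m → ℕ) (c : (Bool → Fin (d + 1)) → (∀ i, Bool → TT d (j i)) → ℤ) (hc : c ≠ 0) :
    ∃ x y : VV m → ℂ, (∀ p, y p ^ 2 = fc (a p.2 : ℂ) (b p.2) (x p)) ∧
      ∀ sg : VV m → ℤˣ,
        GG a b d j c (fun _ _ => false) x (fun p => ((sg p : ℤ) : ℂ) * y p) ≠ 0 := by
  classical
  obtain ⟨r, hr, hr0⟩ := p1ind_sqrt
  let n : (Bool → Fin (d + 1)) → ℕ := fun z => z false + (d + 1) * z true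
  have hn : Function.Injective n := by
    intro z z' h
    simp only [n] at h
    have h1 := congrArg (· % (d + 1)) h
    simp only [Nat.add_mul_mod_self_left, Nat.mod_eq_of_lt (z false).2,
      Nat.mod_eq_of_lt (z' false).2] at h1
    rw [h1, Nat.add_left_cancel_iff, Nat.mul_left_cancel_iff (Nat.succ_pos d)] at h
    funext s
    cases s
    exacts [Fin.ext h1, Fin.ext h]
  obtain ⟨z0, hz0, hmax⟩ := Finset.exists_max_image (univ.filter fun z => c z ≠ 0) n (by
    obtain ⟨z, hz⟩ := Function.ne_iff.1 hc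
    exact ⟨z, by simpa using hz⟩)
  have hz0' : (fun τ => (c z0 τ : ℂ)) ≠ 0 := by
    intro h
    refine (Finset.mem_filter.1 hz0).2 (funext fun τ => ?_)
    simpa using congrFun h τ
  obtain ⟨x0, htop⟩ := tens_ne_zero (ι := Fin m) (T := fun i => Bool → TT d (j i))
    (Z := fun _ => Bool → ℂ)
    (fun i x τ => ∏ s, p1indArm (a s) (b s) d (j i) (x s) 0 0 0 (τ s))
    (fun i h hh => tens_ne_zero (ι := Bool) (T := fun _ => TT d (j i)) (Z := fun _ => ℂ)
      (fun s x t => p1indArm (a s) (b s) d (j i) x 0 0 0 t)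
      (fun s g hg => by
        simp only [p1ind_arm_zero]
        exact arm_indep _ _ (by exact_mod_cast hD s) d (j i) g hg) h hh) _ hz0'
  let e : Bool → ℕ := fun s => cond s (d + 1) 1
  let F : (VV m → ℤˣ) → ℂ × (Bool → ℂ) → ℂ := fun sg p =>
    ∑ τ : ∀ i, Bool → TT d (j i), (∑ z, (c z τ : ℂ) * p.1 ^ (n z0 - n z)) *
      ∏ i, ∏ s, p1indArm (a s) (b s) d (j i) (x0 i s)
        (((sg (some i, s) : ℤ) : ℂ) * r (fc (a s : ℂ) (b s) (x0 i s))) (p.1 ^ e s)
        (((sg (none, s) : ℤ) : ℂ) * p.2 s) (τ i s)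
  have he : ∀ s, e s ≠ 0 := by
    intro s
    cases s <;> simp [e]
  have hFc : ∀ sg, Continuous (F sg) := by
    intro sg
    simp only [F, p1indArm]
    fun_prop
  have hF0 : ∀ sg, F sg 0 ≠ 0 := by
    intro sg
    convert htop using 1
    refine Finset.sum_congr rfl fun τ _ => ?_
    congr 1
    · rw [Finset.sum_eq_single z0]
      · simp
      · intro z _ hz
        by_cases h : c z = 0
        · simp [h]
        · have h1 := hmax z (by simpa using h)
          have h2 : n z ≠ n z0 := fun h3 => hz (hn h3)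
          have h3 : n z0 - n z ≠ 0 := by omega
          simp [h3]
      · simp
    · simp [he, p1ind_arm_zero]
  let g : ℂ → Bool → ℂ := fun β s => β ^ e s + a s * (β ^ e s) ^ 3 + b s * (β ^ e s) ^ 4
  have hlim : Filter.Tendsto (fun β : ℂ => (β, fun s => r (g β s))) (nhds 0) (nhds 0) := by
    rw [← Prod.mk_zero_zero, nhds_prod_eq]
    refine Filter.tendsto_id.prodMk (tendsto_pi_nhds.2 fun s => hr0.comp ?_)
    have h1 : Continuous fun β => g β s := by
      simp only [g]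
      fun_prop
    simpa [g, he] using h1.tendsto 0
  have hev : ∀ᶠ β in nhds (0 : ℂ), ∀ sg, F sg (β, fun s => r (g β s)) ≠ 0 :=
    Filter.eventually_all.2 fun sg => hlim.eventually ((hFc sg).continuousAt.eventually_ne (hF0 sg))
  obtain ⟨β, hβ, hβ0⟩ := ((hev.filter_mono nhdsWithin_le_nhds).and
    (self_mem_nhdsWithin (s := {0}ᶜ))).exists
  have hβ1 : β ≠ 0 := hβ0
  refine ⟨fun p => p.1.elim (β ^ e p.2)⁻¹ fun i => x0 i p.2,
    fun p => p.1.elim (r (g β p.2) * (β ^ e p.2)⁻¹ ^ 2) fun i =>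
      r (fc (a p.2 : ℂ) (b p.2) (x0 i p.2)), ?_, fun sg => ?_⟩
  · rintro ⟨_ | i, s⟩
    · have h1 : β ^ e s ≠ 0 := pow_ne_zero _ hβ1
      simp only [Option.elim_none, mul_pow, hr, g, fc]
      field_simp
    · exact hr _
  · have key : GG a b d j c (fun _ _ => false)
        (fun p => p.1.elim (β ^ e p.2)⁻¹ fun i => x0 i p.2)
        (fun p => ((sg p : ℤ) : ℂ) * p.1.elim (r (g β p.2) * (β ^ e p.2)⁻¹ ^ 2) fun i =>
          r (fc (a p.2 : ℂ) (b p.2) (x0 i p.2))) =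
        (β⁻¹ ^ n z0 * ∏ _i : Fin m, ∏ s, ((β ^ e s)⁻¹ ^ 2) ^ d) *
          F sg (β, fun s => r (g β s)) := by
      simp only [GG, F, Option.elim_none, Option.elim_some]
      rw [Finset.mul_sum]
      refine Finset.sum_congr rfl fun τ _ => ?_
      rw [mul_mul_mul_comm, ← Finset.prod_mul_distrib]
      congr 1
      · rw [Finset.mul_sum]
        refine Finset.sum_congr rfl fun z _ => ?_
        by_cases h : c z = 0
        · simp [h]
        · obtain ⟨k, hk⟩ := Nat.exists_eq_add_of_le (hmax z (by simpa using h))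
          have h1 : ∏ s, (β ^ e s)⁻¹ ^ (z s : ℕ) = β⁻¹ ^ n z := by
            simp only [Fintype.prod_bool, e, n, cond_true, cond_false, ← inv_pow, ← pow_mul,
              ← pow_add]
            congr 1
            ring
          have h2 : β⁻¹ ^ k * β ^ k = 1 := by rw [← mul_pow, inv_mul_cancel₀ hβ1, one_pow]
          rw [h1, hk, Nat.add_sub_cancel_left, pow_add β⁻¹ (n z) k]
          linear_combination (-(c z τ : ℂ) * β⁻¹ ^ n z) * h2
      · refine Finset.prod_congr rfl fun i _ => ?_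
        rw [← Finset.prod_mul_distrib]
        refine Finset.prod_congr rfl fun s _ => ?_
        rw [← mul_assoc, p1ind_arm _ _ _ _ _ _ _ _ (pow_ne_zero _ hβ1)]
    rw [key]
    refine mul_ne_zero (mul_ne_zero (pow_ne_zero _ (inv_ne_zero hβ1)) ?_) (hβ sg)
    exact Finset.prod_ne_zero_iff.2 fun _ _ => Finset.prod_ne_zero_iff.2 fun s _ =>
      pow_ne_zero _ (pow_ne_zero _ (inv_ne_zero (pow_ne_zero _ hβ1)))

end Pool.Agent.Lib.MP_651af7_nt.Vj.P1
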