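import Pool.Agent.Lib.MP_651af7_nt.P1Defs

/-! The doubling and subtraction formulas at points. -/

namespace Pool.Agent.Lib.MP_651af7_nt.Vj.P1

open Finset Pool.Agent.Lib.MP_e97e2b_nt Pool.Agent.Lib.MP_651af7_nt.Iv

lemma dbl_aff {F : Type} [Field F] [CharZero F] {a b x y : F} (h : NS a b x y)
    (h0 : pt x y h + pt x y h ≠ 0) :
    y ≠ 0 ∧ xc (pt x y h + pt x y h) * (4 * y ^ 2) = x ^ 4 - 2 * a * x ^ 2 - 8 * b * x + a ^ 2 ∧
      yc (pt x y h + pt x y h) * (8 * y ^ 3) =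
        x ^ 6 + 5 * a * x ^ 4 + 20 * b * x ^ 3 - 5 * a ^ 2 * x ^ 2 - 4 * a * b * x
          - (8 * b ^ 2 + a ^ 3) := by
  have hne : ¬(x = x ∧ y = -y) := fun e => h0 (add_neg_case h h e.1 e.2)
  obtain ⟨l, e₁, e₂⟩ := exists_lam h h hne
  obtain ⟨h₃, e⟩ := add_char h h hne e₁ e₂
  have hy : y ≠ 0 := fun e0 => hne ⟨rfl, by rw [e0, neg_zero]⟩
  have e3 := h.1
  rw [e, xc_pt, yc_pt]
  refine ⟨hy, ?_, ?_⟩
  · linear_combination (2 * l * y + 3 * x ^ 2 + a) * e₂ - 8 * x * e3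
  · linear_combination
      (-((2 * l * y) ^ 2 + (2 * l * y) * (3 * x ^ 2 + a) + (3 * x ^ 2 + a) ^ 2) + 12 * x * y ^ 2) * e₂
        + (12 * x * (3 * x ^ 2 + a) - 8 * (y ^ 2 + x ^ 3 + a * x + b)) * e3

lemma add_aff {F : Type} [Field F] [CharZero F] {a b x y u w : F} (h : NS a b x y)
    (h' : NS a b u w) (h1 : pt x y h + pt u w h' ≠ 0) :
    (x * u - a) ^ 2 - 4 * b * (x + u) =
      xc (pt x y h + pt u w h') * ((x + u) * (x * u + a) + 2 * b + 2 * y * w) ∧
    (x + u) * (x * u + a) + 2 * b - 2 * y * w = xc (pt x y h + pt u w h') * (x - u) ^ 2 ∧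
    ((x + u) * (x * u + a) + 2 * b + 2 * y * w ≠ 0 ∨ (x - u) ^ 2 ≠ 0) := by
  have hne : ¬(x = u ∧ y = -w) := fun e => h1 (add_neg_case h h' e.1 e.2)
  obtain ⟨l, e₁, e₂⟩ := exists_lam h h' hne
  obtain ⟨h₃, e⟩ := add_char h h' hne e₁ e₂
  have e3 := h.1
  have e4 := h'.1
  rw [e, xc_pt]
  have k2 : (x + u) * (x * u + a) + 2 * b - 2 * y * w = (l ^ 2 - x - u) * (x - u) ^ 2 := by
    linear_combination (-(l * (x - u) + y - w)) * e₁ - e3 - e4
  by_cases hx : x = u
  · subst hx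
    have hy : y = w := by linear_combination -e₁
    subst hy
    have hy0 : y ≠ 0 := fun e0 => hne ⟨rfl, by rw [e0, neg_zero]⟩
    have k : (x + x) * (x * x + a) + 2 * b + 2 * y * y = 4 * y ^ 2 := by
      linear_combination (-2) * e3
    refine ⟨?_, k2, Or.inl ?_⟩
    · rw [k]
      linear_combination (-(2 * l * y + 3 * x ^ 2 + a)) * e₂ + 8 * x * e3
    · rw [k]
      exact mul_ne_zero (by norm_num) (pow_ne_zero 2 hy0)
  · have hx' : (x - u) ^ 2 ≠ 0 := pow_ne_zero 2 (sub_ne_zero.2 hx)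
    refine ⟨mul_right_cancel₀ hx' ?_, k2, Or.inr hx'⟩
    linear_combination ((x + u) * (x * u + a) + 2 * b + 2 * y * w) * k2
      + (4 * w ^ 2) * e3 + (4 * (x ^ 3 + a * x + b)) * e4

/- Sketch. Induction on j: 2 ^ (j+1) P = S + S with S = 2 ^ j P <> 0, y S <> 0; add_char of Short.lean. -/
theorem dbl_pt {F : Type} [Field F] [CharZero F] {a b x y : F} (h : NS a b x y) (j : ℕ)
    (h0 : 2 ^ j • pt x y h ≠ 0) :
    (dbl a b x j).2.1 ≠ 0 ∧ xc (2 ^ j • pt x y h) = (dbl a b x j).1 / (dbl a b x j).2.1 ∧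
      yc (2 ^ j • pt x y h) = y * (dbl a b x j).2.2 / (dbl a b x j).2.1 ^ 2 := by
  induction j with
  | zero => simp [dbl]
  | succ j ih =>
    have e2 : 2 ^ (j + 1) • pt x y h = 2 ^ j • pt x y h + 2 ^ j • pt x y h := by
      rw [pow_succ, mul_two, add_nsmul]
    rw [e2] at h0 ⊢
    have hS : 2 ^ j • pt x y h ≠ 0 := fun e => h0 (by rw [e, add_zero])
    obtain ⟨hB, hx, hy⟩ := ih hS
    rcases (2 ^ j • pt x y h).cases with e | ⟨xs, ys, hs, e⟩
    · exact absurd e hS
    rw [e] at h0 hx hy ⊢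
    rw [xc_pt] at hx
    rw [yc_pt] at hy
    obtain ⟨k0, k1, k2⟩ := dbl_aff hs h0
    have e3 := hs.1
    simp only [dbl, dstep]
    generalize (dbl a b x j).1 = A at *
    generalize (dbl a b x j).2.1 = B at *
    generalize (dbl a b x j).2.2 = T at *
    generalize xc (pt xs ys hs + pt xs ys hs) = X at *
    generalize yc (pt xs ys hs + pt xs ys hs) = Y at *
    have hA : A = xs * B := by rw [hx]; field_simp
    have hT : y * T = ys * B ^ 2 := by rw [hy]; field_simp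
    have hB' : 4 * B * (A ^ 3 + a * A * B ^ 2 + b * B ^ 3) = 4 * B ^ 4 * ys ^ 2 := by
      rw [hA]; linear_combination (-4 * B ^ 4) * e3
    have hne : 4 * B ^ 4 * ys ^ 2 ≠ 0 :=
      mul_ne_zero (mul_ne_zero (by norm_num) (pow_ne_zero 4 hB)) (pow_ne_zero 2 k0)
    rw [hB']
    refine ⟨hne, ?_, ?_⟩
    · rw [eq_div_iff hne, hA]
      linear_combination B ^ 4 * k1
    · rw [eq_div_iff (pow_ne_zero 2 hne), hA]
      linear_combination (2 * ys * B ^ 8) * k2 - (2 * B ^ 6 * (xs ^ 6 + 5 * a * xs ^ 4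
        + 20 * b * xs ^ 3 - 5 * a ^ 2 * xs ^ 2 - 4 * a * b * xs - (8 * b ^ 2 + a ^ 3))) * hT

/- Sketch. Divide by B ^ 2. With S = (xs, ys): if xs <> u use x (S + C) (xs - u) ^ 2 = be - 2 ys w and
law_mul; if xs = u then ys = w <> 0 (as S + C <> 0), be + 2 ys w = 4 w ^ 2 and this is the doubling formula. -/
theorem law_pt {F : Type} [Field F] [CharZero F] {a b x y u w : F} (h : NS a b x y)
    (h' : NS a b u w) (j : ℕ) (h0 : 2 ^ j • pt x y h ≠ 0) (h1 : 2 ^ j • pt x y h + pt u w h' ≠ 0) :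
    (law a b j x y u w true).1 = xc (2 ^ j • pt x y h + pt u w h') * (law a b j x y u w false).1 ∧
    (law a b j x y u w true).2 = xc (2 ^ j • pt x y h + pt u w h') * (law a b j x y u w false).2 ∧
    ((law a b j x y u w false).1 ≠ 0 ∨ (law a b j x y u w false).2 ≠ 0) := by
  obtain ⟨hB, hx, hy⟩ := dbl_pt h j h0
  rcases (2 ^ j • pt x y h).cases with e | ⟨xs, ys, hs, e⟩
  · exact absurd e h0
  rw [e] at h1 hx hy ⊢
  rw [xc_pt] at hx
  rw [yc_pt] at hy
  obtain ⟨k1, k2, k3⟩ := add_aff hs h' h1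
  simp only [law, lawp]
  generalize (dbl a b x j).1 = A at *
  generalize (dbl a b x j).2.1 = B at *
  generalize (dbl a b x j).2.2 = T at *
  generalize xc (pt xs ys hs + pt u w h') = X at *
  have hA : A = xs * B := by rw [hx]; field_simp
  have hT : y * T = ys * B ^ 2 := by rw [hy]; field_simp
  have f1 : (A + u * B) * (A * u + a * B) + 2 * b * B ^ 2 + 2 * T * y * w =
      B ^ 2 * ((xs + u) * (xs * u + a) + 2 * b + 2 * ys * w) := by
    rw [hA]; linear_combination (2 * w) * hT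
  have f2 : (A - u * B) ^ 2 = B ^ 2 * (xs - u) ^ 2 := by rw [hA]; ring
  rw [f1, f2]
  refine ⟨?_, ?_, k3.imp (mul_ne_zero (pow_ne_zero 2 hB)) (mul_ne_zero (pow_ne_zero 2 hB))⟩
  · rw [hA]; linear_combination B ^ 2 * k1
  · rw [hA]; linear_combination B ^ 2 * k2 - (2 * w) * hT

/- Sketch. One of the two components of law false is a unit of R; divide and use law_mul, map_law. -/
theorem exists_xplus {F R : Type} [Field F] [CharZero F] [CommRing R] (π : R →+* F)
    (hπ : ∀ f, π f ≠ 0 → IsUnit f) {a b x y u w : R} (e : y ^ 2 = fc a b x) (e' : w ^ 2 = fc a b u)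
    (h : NS (π a) (π b) (π x) (π y)) (h' : NS (π a) (π b) (π u) (π w)) (j : ℕ)
    (h0 : 2 ^ j • pt _ _ h ≠ 0) (h1 : 2 ^ j • pt _ _ h + pt _ _ h' ≠ 0) :
    ∃ ξ : R, π ξ = xc (2 ^ j • pt _ _ h + pt _ _ h') ∧
      (law a b j x y u w true).1 = ξ * (law a b j x y u w false).1 ∧
      (law a b j x y u w true).2 = ξ * (law a b j x y u w false).2 := by
  obtain ⟨k1, k2, k3⟩ := law_pt h h' j h0 h1
  have km := law_mul e e' j
  rw [map_law, map_law] at k1 k2
  rw [map_law] at k3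
  simp only at k1 k2 k3
  generalize xc (2 ^ j • pt _ _ h + pt _ _ h') = X at *
  generalize (law a b j x y u w true).1 = n1 at *
  generalize (law a b j x y u w true).2 = n2 at *
  generalize (law a b j x y u w false).1 = d1 at *
  generalize (law a b j x y u w false).2 = d2 at *
  rcases k3 with k | k
  · obtain ⟨v, hv⟩ := (hπ _ k).exists_right_inv
    have g1 : n1 = n1 * v * d1 := by linear_combination (-n1) * hv
    refine ⟨n1 * v, mul_right_cancel₀ k ?_, g1, ?_⟩
    · rw [← map_mul, ← g1, k1]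
    · linear_combination (-n2) * hv - v * km
  · obtain ⟨v, hv⟩ := (hπ _ k).exists_right_inv
    have g2 : n2 = n2 * v * d2 := by linear_combination (-n2) * hv
    refine ⟨n2 * v, mul_right_cancel₀ k ?_, ?_, g2⟩
    · rw [← map_mul, ← g2, k2]
    · linear_combination (-n1) * hv + v * km

theorem GG_law {R : Type} [CommRing R] {m : ℕ} (a b : Bool → ℤ) (d : ℕ) (j : Fin m → ℕ)
    (c : (Bool → Fin (d + 1)) → (∀ i, Bool → TT d (j i)) → ℤ) (l : Fin m → Bool → Bool)
    (x y : VV m → R) (ξ : Fin m → Bool → R)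
    (hξ : ∀ i s,
      (law (a s : R) (b s) (j i) (x (some i, s)) (y (some i, s)) (x (none, s)) (y (none, s)) true).1 =
        ξ i s * (law (a s : R) (b s) (j i) (x (some i, s)) (y (some i, s)) (x (none, s))
          (y (none, s)) false).1 ∧
      (law (a s : R) (b s) (j i) (x (some i, s)) (y (some i, s)) (x (none, s)) (y (none, s)) true).2 =
        ξ i s * (law (a s : R) (b s) (j i) (x (some i, s)) (y (some i, s)) (x (none, s))
          (y (none, s)) false).2) :
    GG a b d j c l x y =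
      (∏ i, ∏ s, if l i s = true then ξ i s ^ d else 1) * GG a b d j c (fun _ _ => false) x y := by
  have key : ∀ (τ : ∀ i, Bool → TT d (j i)) i s,
      arm (a s : R) (b s : R) d (j i) (x (some i, s)) (y (some i, s)) (x (none, s))
        (y (none, s)) (l i s) (τ i s) = (if l i s = true then ξ i s ^ d else 1) *
      arm (a s : R) (b s : R) d (j i) (x (some i, s)) (y (some i, s)) (x (none, s))
        (y (none, s)) false (τ i s) := by
    intro τ i s
    cases hl : l i s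
    · simp
    · have ht : ((τ i s).1 : ℕ) ≤ d := Nat.lt_succ_iff.1 (τ i s).1.2
      have hd : ξ i s ^ d = ξ i s ^ ((τ i s).1 : ℕ) * ξ i s ^ (d - (τ i s).1) := by
        rw [← pow_add, Nat.add_sub_cancel' ht]
      simp only [arm, (hξ i s).1, (hξ i s).2, if_true, mul_pow, hd]
      ring
  simp only [GG, key, prod_mul_distrib, mul_sum]
  refine sum_congr rfl fun τ _ => ?_
  ring

end Pool.Agent.Lib.MP_651af7_nt.Vj.P1
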