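import Pool.Agent.Lib.MP_651af7_nt.P1Arr

/-! The auxiliary section as an integral polynomial. -/

namespace Pool.Agent.Lib.MP_651af7_nt.Vj.P1

open Finset MvPolynomial Pool.Agent.Lib.Common.Subspace

section poly

variable {σ : Type}

private lemma pl_len_mul {p q : MvPolynomial σ ℚ} {s t : ℝ} (hp : len p ≤ s) (hq : len q ≤ t) :
    len (p * q) ≤ s * t :=
  (nrm_mul_le (fun _ => zero_le_one) p q).trans
    (mul_le_mul hp hq (len_nonneg q) ((len_nonneg p).trans hp))

private lemma pl_len_sum {I : Type} (S : Finset I) {f : I → MvPolynomial σ ℚ} {t : I → ℝ}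
    (h : ∀ i, len (f i) ≤ t i) : len (∑ i ∈ S, f i) ≤ ∑ i ∈ S, t i :=
  (nrm_sum_le (fun _ => zero_le_one) S f).trans (sum_le_sum fun i _ => h i)

private lemma pl_len_prod {I : Type} (S : Finset I) {f : I → MvPolynomial σ ℚ} {t : I → ℝ}
    (h : ∀ i, len (f i) ≤ t i) : len (∏ i ∈ S, f i) ≤ ∏ i ∈ S, t i :=
  (nrm_prod_le (fun _ => zero_le_one) S f).trans
    (prod_le_prod (fun i _ => len_nonneg (f i)) fun i _ => h i)

private lemma pl_len_X_pow (s : σ) (n : ℕ) : len (X s ^ n : MvPolynomial σ ℚ) ≤ 1 := by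
  simpa [len, nrm_X] using nrm_pow_le (v := Rat.AbsoluteValue.real) (ρ := fun _ : σ => (1 : ℝ))
    (fun _ => zero_le_one) (X s) n

private lemma pl_len_int (z : ℤ) : len (z : MvPolynomial σ ℚ) ≤ |(z : ℝ)| := by
  rw [← map_intCast (C : ℚ →+* MvPolynomial σ ℚ), len, nrm_C]
  simp [Rat.AbsoluteValue.real_eq_abs]

private lemma pl_int_int (z : ℤ) : IsInt (z : MvPolynomial σ ℚ) := by
  rw [← map_intCast (C : ℚ →+* MvPolynomial σ ℚ)]
  exact isInt_C z

private lemma pl_int_X_pow (s : σ) (n : ℕ) : IsInt (X s ^ n : MvPolynomial σ ℚ) := by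
  simpa using isInt_prod (range n) (fun _ => (X s : MvPolynomial σ ℚ)) fun _ _ => isInt_X s

private lemma pl_deg_int (p : σ) (z : ℤ) : degreeOf p (z : MvPolynomial σ ℚ) = 0 := by
  rw [← map_intCast (C : ℚ →+* MvPolynomial σ ℚ), degreeOf_C]

private lemma pl_deg_sum {I : Type} (S : Finset I) (p : σ) {f : I → MvPolynomial σ ℚ} {n : ℕ}
    (h : ∀ i, degreeOf p (f i) ≤ n) : degreeOf p (∑ i ∈ S, f i) ≤ n :=
  (degreeOf_sum_le p S f).trans (Finset.sup_le fun i _ => h i)

private lemma pl_deg_X_pow [DecidableEq σ] (p : σ × Bool) (q : σ) (y : Bool) {n N : ℕ}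
    (h : n ≤ N) : degreeOf p (X (q, y) ^ n : MvPolynomial (σ × Bool) ℚ) ≤
      if p.1 = q then N else 0 := by
  split_ifs with e
  · refine (degreeOf_pow_le _ _ _).trans ?_
    rw [degreeOf_X]
    split_ifs <;> omega
  · exact (degreeOf_X_pow_of_ne n fun e' => e (by rw [e'])).le

private lemma pl_deg_mon [DecidableEq σ] (p : σ × Bool) (q : σ) {w N : ℕ} (μ : MM w)
    (h : (μ.1 : ℕ) + 2 * μ.2 ≤ N) :
    degreeOf p (mon (X (q, false)) (X (q, true)) μ : MvPolynomial (σ × Bool) ℚ) ≤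
      if p.1 = q then N else 0 := by
  refine (degreeOf_mul_le _ _ _).trans ((add_le_add (pl_deg_X_pow p q false le_rfl)
    (pl_deg_X_pow p q true le_rfl)).trans ?_)
  split_ifs <;> omega

end poly

/- Sketch. G := the expression of GG with every arm replaced by its array form from exists_arr, in the variables
X (p, false), X (p, true). len is an SN (MvPolynomial _ Rat) False (len_eq / nrm lemmas of Common/Subspace/Norm);
the number of terms is (d+1)^2 * prod_i ((d+1) 4 ^ j i) ^ 2 <= C ^ (sum 4 ^ j i) because m > 0. Degrees by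
degreeOf_sum_le, degreeOf_prod_le, degreeOf_mul_le (a zero array entry contributes nothing). -/
theorem exists_poly (a b : Bool → ℤ) {m : ℕ} (hm : 0 < m) (d : ℕ) : ∃ C : ℝ, 1 ≤ C ∧
    ∀ (j : Fin m → ℕ) (c : (Bool → Fin (d + 1)) → (∀ i, Bool → TT d (j i)) → ℤ) (Γ : ℝ),
      (∀ z τ, |(c z τ : ℝ)| ≤ Γ) →
      ∃ G : MvPolynomial (VV m × Bool) ℚ, IsInt G ∧ len G ≤ Γ * C ^ (∑ i, 4 ^ j i) ∧
        (∀ i s y, G.degreeOf ((some i, s), y) ≤ (2 * d + 1) * 4 ^ j i) ∧
        (∀ s y, G.degreeOf ((none, s), y) ≤ (2 * m + 1) * d) ∧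
        ∀ (R : Type) [CommRing R] (φ : MvPolynomial (VV m × Bool) ℚ →+* R),
          (∀ p, φ (X (p, true)) ^ 2 = fc (a p.2 : R) (b p.2) (φ (X (p, false)))) →
          φ G = GG a b d j c (fun _ _ => false) (fun p => φ (X (p, false)))
            (fun p => φ (X (p, true))) := by
  classical
  choose C hC h using fun s => exists_arr (a s) (b s) d
  choose r h1 h2 h3 using h
  have hd : (1 : ℝ) ≤ d + 1 := by linarith [d.cast_nonneg (α := ℝ)]
  have hd2 : (1 : ℝ) ≤ (d + 1) ^ 2 := one_le_pow₀ hd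
  have hC' : (1 : ℝ) ≤ ∏ s, 2 * (d + 1) * C s :=
    by rw [Fintype.prod_bool]
       exact one_le_mul_of_one_le_of_one_le (one_le_mul_of_one_le_of_one_le (by linarith) (hC _))
         (one_le_mul_of_one_le_of_one_le (by linarith) (hC _))
  refine ⟨(d + 1) ^ 2 * ∏ s, 2 * (d + 1) * C s, one_le_mul_of_one_le_of_one_le hd2 hC', ?_⟩
  intro j c Γ hΓ
  let A : ∀ i, ∀ _ : Bool, TT d (j i) → MvPolynomial (VV m × Bool) ℚ := fun i s t =>
    ∑ ν, ∑ μ, (r s (j i) false t ν μ : MvPolynomial (VV m × Bool) ℚ) *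
      mon (X ((none, s), false)) (X ((none, s), true)) ν *
      mon (X ((some i, s), false)) (X ((some i, s), true)) μ
  have hdeg : ∀ p : VV m × Bool, degreeOf p (∑ τ : ∀ i, Bool → TT d (j i),
      (∑ z, (c z τ : MvPolynomial (VV m × Bool) ℚ) * ∏ s, X ((none, s), false) ^ (z s : ℕ)) *
        ∏ i, ∏ s, A i s (τ i s)) ≤ (∑ s, if p.1 = (none, s) then d else 0) +
          ∑ i, ∑ s, ((if p.1 = (none, s) then 2 * d else 0) +
            if p.1 = (some i, s) then (2 * d + 1) * 4 ^ j i else 0) := fun p => by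
    refine pl_deg_sum _ _ fun τ => (degreeOf_mul_le _ _ _).trans (add_le_add ?_ ?_)
    · refine pl_deg_sum _ _ fun z => (degreeOf_mul_le _ _ _).trans ?_
      rw [pl_deg_int, zero_add]
      exact (degreeOf_prod_le _ _ _).trans
        (sum_le_sum fun s _ => pl_deg_X_pow p _ _ (Nat.lt_succ_iff.1 (z s).2))
    · refine (degreeOf_prod_le _ _ _).trans (sum_le_sum fun i _ => (degreeOf_prod_le _ _ _).trans
        (sum_le_sum fun s _ => pl_deg_sum _ _ fun ν => pl_deg_sum _ _ fun μ => ?_))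
      by_cases h0 : r s (j i) false (τ i s) ν μ = 0
      · simp [h0]
      obtain ⟨k1, k2⟩ := h1 s _ _ _ ν μ h0
      refine (degreeOf_mul_le _ _ _).trans (add_le_add ((degreeOf_mul_le _ _ _).trans ?_)
        (pl_deg_mon p _ μ k2))
      rw [pl_deg_int, zero_add]
      exact pl_deg_mon p _ ν k1
  refine ⟨_, ?_, ?_, fun i s y => (hdeg _).trans ?_, fun s y => (hdeg _).trans ?_, ?_⟩
  · refine isInt_sum _ _ fun τ _ => IsInt.mul (isInt_sum _ _ fun z _ => (pl_int_int _).mul
      (isInt_prod _ _ fun s _ => pl_int_X_pow _ _)) (isInt_prod _ _ fun i _ => isInt_prod _ _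
        fun s _ => isInt_sum _ _ fun ν _ => isInt_sum _ _ fun μ _ => ?_)
    exact ((pl_int_int _).mul ((pl_int_X_pow _ _).mul (pl_int_X_pow _ _))).mul
      ((pl_int_X_pow _ _).mul (pl_int_X_pow _ _))
  · have hΓ0 : 0 ≤ Γ := (abs_nonneg _).trans (hΓ (fun _ => 0) fun i _ => (0, ⟨0, by positivity⟩))
    have hA : ∀ i s t, len (A i s t) ≤ C s ^ 4 ^ j i := fun i s t =>
      le_trans (pl_len_sum _ fun ν => pl_len_sum _ fun μ => by
        simpa [mon] using pl_len_mul (pl_len_mul (pl_len_int _) (pl_len_mul (pl_len_X_pow _ _)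
          (pl_len_X_pow _ _))) (pl_len_mul (pl_len_X_pow _ _) (pl_len_X_pow _ _)))
        (h2 s (j i) false t)
    refine (pl_len_sum _ (t := fun _ => (∑ _z : Bool → Fin (d + 1), Γ * ∏ _s : Bool, 1) *
      ∏ i, ∏ s, C s ^ 4 ^ j i) fun τ => pl_len_mul (pl_len_sum _ fun z => pl_len_mul
        ((pl_len_int _).trans (hΓ z τ)) (pl_len_prod _ fun s => pl_len_X_pow _ _))
        (pl_len_prod _ fun i => pl_len_prod _ fun s => hA i s _)).trans ?_
    have hS : 1 ≤ ∑ i, 4 ^ j i := le_trans (Nat.one_le_pow _ _ (by norm_num))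
      (single_le_sum (f := fun i => 4 ^ j i) (fun _ _ => Nat.zero_le _) (mem_univ ⟨0, hm⟩))
    have e1 : ((d : ℝ) + 1) ^ 2 ≤ ((d + 1) ^ 2) ^ ∑ i, 4 ^ j i := le_self_pow₀ hd2 (by omega)
    have e2 : ∏ i, ∏ s, (((d : ℝ) + 1) * 4 ^ j i * C s ^ 4 ^ j i) ≤
        (∏ s, 2 * (d + 1) * C s) ^ ∑ i, 4 ^ j i := by
      rw [← prod_pow_eq_pow_sum]
      refine prod_le_prod (fun i _ => prod_nonneg fun s _ => ?_) fun i _ => ?_
      · have := hC s
        positivity
      rw [← prod_pow]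
      refine prod_le_prod (fun s _ => ?_) fun s _ => ?_
      · have := hC s
        positivity
      have := hC s
      rw [mul_pow, mul_pow, mul_comm ((2 : ℝ) ^ _)]
      refine mul_le_mul_of_nonneg_right (mul_le_mul (le_self_pow₀ hd (by positivity)) ?_
        (by positivity) (by positivity)) (by positivity)
      exact_mod_cast (Nat.lt_two_pow_self).le
    calc _ = Γ * (((d : ℝ) + 1) ^ 2 * ∏ i, ∏ s, (((d : ℝ) + 1) * 4 ^ j i * C s ^ 4 ^ j i)) := by
          simp only [prod_mul_distrib, sum_const, card_univ, Fintype.card_pi, Fintype.card_prod,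
            Fintype.card_fin, prod_const, Fintype.card_bool, nsmul_eq_mul, one_pow]
          push_cast
          ring
      _ ≤ _ := by
          rw [mul_pow]
          refine mul_le_mul_of_nonneg_left (mul_le_mul e1 e2 (prod_nonneg fun i _ =>
            prod_nonneg fun s _ => ?_) (by positivity)) hΓ0
          have := hC s
          positivity
  · simp [ite_and]
  · simp
    nlinarith
  · intro R _ φ hφ
    simp only [GG, A, mon, map_sum, map_mul, map_prod, map_pow, map_intCast]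
    refine sum_congr rfl fun τ _ => congrArg _ (prod_congr rfl fun i _ => prod_congr rfl fun s _ => ?_)
    rw [h3 s (j i) false (τ i s) R _ _ _ _ (hφ (some i, s)) (hφ (none, s))]
    rfl

end Pool.Agent.Lib.MP_651af7_nt.Vj.P1
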