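import Pool.Agent.Lib.MP_651af7_nt.P1Defs

/-! Truncated norms on power series and the formal branches of the curves. -/

namespace Pool.Agent.Lib.MP_651af7_nt.Vj.P1

open Finset MvPowerSeries

section aux

variable {K V : Type} [Field K] [Fintype V]

/-- One term of the truncated norm. -/
noncomputable def serT (v : AbsoluteValue K ℝ) (ρ : V → ℝ) (f : MvPowerSeries V K) (μ : V →₀ ℕ) :
    ℝ := v (coeff μ f) * ∏ p, ρ p ^ μ p

variable {v : AbsoluteValue K ℝ} {ρ : V → ℝ}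

lemma serW_nonneg (hρ : ∀ p, 0 ≤ ρ p) (μ : V →₀ ℕ) : 0 ≤ ∏ p, ρ p ^ μ p :=
  prod_nonneg fun p _ => pow_nonneg (hρ p) _

lemma serT_nonneg (hρ : ∀ p, 0 ≤ ρ p) (f : MvPowerSeries V K) (μ : V →₀ ℕ) : 0 ≤ serT v ρ f μ :=
  mul_nonneg (v.nonneg _) (serW_nonneg hρ μ)

lemma serT_neg (f : MvPowerSeries V K) : serT v ρ (-f) = serT v ρ f := by
  funext μ
  simp [serT]

lemma serT_zero {f : MvPowerSeries V K} {μ : V →₀ ℕ} (h : coeff μ f = 0) : serT v ρ f μ = 0 := by
  simp [serT, h]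

lemma serT_monomial [DecidableEq V] (ν : V →₀ ℕ) (c : K) (μ : V →₀ ℕ) :
    serT v ρ (monomial ν c) μ = if μ = ν then v c * ∏ p, ρ p ^ ν p else 0 := by
  rw [serT, coeff_monomial]
  split_ifs with h
  · rw [h]
  · simp

lemma serT_mul {f g : MvPowerSeries V K} {μ α β : V →₀ ℕ} (h : α + β = μ) :
    v (coeff α f * coeff β g) * ∏ p, ρ p ^ μ p = serT v ρ f α * serT v ρ g β := by
  subst h
  simp only [serT, map_mul, Finsupp.add_apply, pow_add, prod_mul_distrib]
  ring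

lemma ser_na_sum (h : IsNonarchimedean v) {ι : Type} (s : Finset ι) (f : ι → K) {w M : ℝ}
    (hw : 0 ≤ w) (hM : 0 ≤ M) (hf : ∀ i ∈ s, v (f i) * w ≤ M) : v (∑ i ∈ s, f i) * w ≤ M := by
  refine sum_induction f (fun x => v x * w ≤ M) (fun x y hx hy => ?_) (by simpa using hM) hf
  rcases le_max_iff.1 (h x y) with e | e
  · exact (mul_le_mul_of_nonneg_right e hw).trans hx
  · exact (mul_le_mul_of_nonneg_right e hw).trans hy

lemma ser_exists (hρ : ∀ p, 0 ≤ ρ p) (κ : V →₀ ℕ) :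
    ∃ S : SN (MvPowerSeries V K) (IsNonarchimedean v), (∀ f, serT v ρ f κ ≤ S.N f) ∧
      (∀ ν c, S.N (monomial ν c) ≤ v c * ∏ p, ρ p ^ ν p) ∧
      ∀ f, (∀ μ ≤ κ, coeff μ f = 0) → S.N f = 0 := by
  classical
  have hκ : κ ∈ Iic κ := mem_Iic.2 le_rfl
  have h1 : ∀ (N : MvPowerSeries V K → ℝ), (∀ ν c, N (monomial ν c) ≤ v c * ∏ p, ρ p ^ ν p) →
      N 1 ≤ 1 := fun N h => by simpa using h 0 1
  by_cases hna : IsNonarchimedean v
  · obtain ⟨N, hN⟩ : ∃ N : MvPowerSeries V K → ℝ, ∀ f, N f = (Iic κ).sup' ⟨κ, hκ⟩ (serT v ρ f) :=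
      ⟨_, fun _ => rfl⟩
    have le : ∀ f, ∀ μ ≤ κ, serT v ρ f μ ≤ N f := fun f μ hμ =>
      hN f ▸ le_sup' (serT v ρ f) (mem_Iic.2 hμ)
    have ge : ∀ f M, (∀ μ ≤ κ, serT v ρ f μ ≤ M) → N f ≤ M := fun f M h =>
      hN f ▸ sup'_le _ _ fun μ hμ => h μ (mem_Iic.1 hμ)
    have h0 : ∀ f, 0 ≤ N f := fun f => (serT_nonneg hρ f κ).trans (le f κ le_rfl)
    have hz : ∀ f, (∀ μ ≤ κ, coeff μ f = 0) → N f = 0 := fun f h =>
      le_antisymm (ge f 0 fun μ hμ => (serT_zero (h μ hμ)).le) (h0 f)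
    have hm : ∀ ν c, N (monomial ν c) ≤ v c * ∏ p, ρ p ^ ν p := fun ν c => ge _ _ fun μ _ => by
      rw [serT_monomial]
      split_ifs
      · exact le_rfl
      · exact mul_nonneg (v.nonneg _) (serW_nonneg hρ ν)
    have ha : ∀ f g, N (f + g) ≤ max (N f) (N g) := fun f g => ge _ _ fun μ hμ => by
      rw [serT, map_add]
      rcases le_max_iff.1 (hna (coeff μ f) (coeff μ g)) with e | e
      · exact (mul_le_mul_of_nonneg_right e (serW_nonneg hρ μ)).trans
          ((le f μ hμ).trans (le_max_left _ _))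
      · exact (mul_le_mul_of_nonneg_right e (serW_nonneg hρ μ)).trans
          ((le g μ hμ).trans (le_max_right _ _))
    refine ⟨⟨N, h0, hz 0 fun _ _ => rfl, h1 N hm, fun f => by rw [hN, hN, serT_neg],
      fun f g => ge _ _ fun μ hμ => ?_, fun f g => (ha f g).trans
        (max_le (le_add_of_nonneg_right (h0 g)) (le_add_of_nonneg_left (h0 f))), fun _ => ha⟩,
      fun f => le f κ le_rfl, hm, hz⟩
    rw [serT, coeff_mul]
    refine ser_na_sum hna _ _ (serW_nonneg hρ μ) (mul_nonneg (h0 f) (h0 g)) fun x hx => ?_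
    have hx' := mem_antidiagonal.1 hx
    rw [serT_mul hx']
    exact mul_le_mul (le f _ ((hx' ▸ le_self_add).trans hμ)) (le g _ ((hx' ▸ le_add_self).trans hμ))
      (serT_nonneg hρ _ _) (h0 f)
  · obtain ⟨N, hN⟩ : ∃ N : MvPowerSeries V K → ℝ, ∀ f, N f = ∑ μ ∈ Iic κ, serT v ρ f μ :=
      ⟨_, fun _ => rfl⟩
    have hz : ∀ f, (∀ μ ≤ κ, coeff μ f = 0) → N f = 0 := fun f h =>
      hN f ▸ sum_eq_zero fun μ hμ => serT_zero (h μ (mem_Iic.1 hμ))
    have hm : ∀ ν c, N (monomial ν c) ≤ v c * ∏ p, ρ p ^ ν p := fun ν c => by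
      simp only [hN, serT_monomial, sum_ite_eq']
      split_ifs
      · exact le_rfl
      · exact mul_nonneg (v.nonneg _) (serW_nonneg hρ ν)
    refine ⟨⟨N, fun f => hN f ▸ sum_nonneg fun μ _ => serT_nonneg hρ f μ, hz 0 fun _ _ => rfl,
      h1 N hm, fun f => by rw [hN, hN, serT_neg], fun f g => ?_, fun f g => ?_,
      fun h => absurd h hna⟩, fun f => ?_, hm, hz⟩
    · rw [hN, hN, hN, sum_mul_sum, ← sum_product']
      refine le_trans (sum_le_sum (g := fun μ => ∑ x ∈ Iic κ ×ˢ Iic κ with x.1 + x.2 = μ,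
        serT v ρ f x.1 * serT v ρ g x.2) fun μ hμ => ?_) ?_
      · rw [serT, coeff_mul]
        refine (mul_le_mul_of_nonneg_right (v.sum_le _ _) (serW_nonneg hρ μ)).trans ?_
        rw [sum_mul, sum_congr rfl fun x hx => serT_mul (mem_antidiagonal.1 hx)]
        refine sum_le_sum_of_subset_of_nonneg (fun x hx => ?_) fun x _ _ =>
          mul_nonneg (serT_nonneg hρ _ _) (serT_nonneg hρ _ _)
        have hx' := mem_antidiagonal.1 hx
        exact mem_filter.2 ⟨mem_product.2 ⟨mem_Iic.2 ((hx' ▸ le_self_add).trans (mem_Iic.1 hμ)),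
          mem_Iic.2 ((hx' ▸ le_add_self).trans (mem_Iic.1 hμ))⟩, hx'⟩
      · rw [sum_fiberwise_eq_sum_filter]
        exact sum_le_sum_of_subset_of_nonneg (filter_subset _ _) fun x _ _ =>
          mul_nonneg (serT_nonneg hρ _ _) (serT_nonneg hρ _ _)
    · rw [hN, hN, hN, ← sum_add_distrib]
      refine sum_le_sum fun μ _ => ?_
      rw [serT, serT, serT, ← add_mul, map_add]
      exact mul_le_mul_of_nonneg_right (v.add_le _ _) (serW_nonneg hρ μ)
    · exact (single_le_sum (fun μ _ => serT_nonneg hρ f μ) hκ).trans (hN f).ge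

omit [Fintype V] in
/-- A bound for approximations passes to the limit. -/
lemma ser_lim {na : Prop} (S : SN (MvPowerSeries V K) na) {κ : V →₀ ℕ}
    (hz : ∀ f, (∀ μ ≤ κ, coeff μ f = 0) → S.N f = 0) {η : MvPowerSeries V K}
    (s q : ℕ → MvPowerSeries V K) (hq : ∀ k, constantCoeff (q k) = 0)
    (hs : ∀ k, η - s (k + 1) = (η - s k) * q k) {M : ℝ} (hM : ∀ k, S.N (s k) ≤ M) :
    S.N η ≤ M := by
  have h1 : ∀ k : ℕ, (k : ℕ∞) ≤ (η - s k).order := fun k => by
    induction k with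
    | zero => simp
    | succ k ih =>
      rw [hs, Nat.cast_succ]
      exact (add_le_add ih (one_le_order_iff_constCoeff_eq_zero.2 (hq k))).trans le_order_mul
  have h2 := hz (η - s (κ.degree + 1)) fun μ hμ => by
    refine coeff_of_lt_order (lt_of_lt_of_le ?_ (h1 _))
    obtain ⟨ν, rfl⟩ := exists_add_of_le hμ
    rw [map_add, Nat.cast_lt]
    omega
  have h3 := S.add (s (κ.degree + 1)) (η - s (κ.degree + 1))
  rw [add_sub_cancel, h2, add_zero] at h3
  exact h3.trans (hM _)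

omit [Fintype V] in
lemma ser_eta {na : Prop} (S : SN (MvPowerSeries V K) na) {κ : V →₀ ℕ}
    (hz : ∀ f, (∀ μ ≤ κ, coeff μ f = 0) → S.N f = 0) {g η : MvPowerSeries V K}
    (hg : constantCoeff g = 0) (hη : constantCoeff η = 0) (e : η = g - η ^ 2)
    (hN : S.N g ≤ (E na 4)⁻¹) : S.N η ≤ 1 := by
  have h2 : 1 ≤ E na 2 := one_le_E one_le_two
  have h4 : E na 4 = E na 2 ^ 2 := by rw [← E_pow]; norm_num
  let s : ℕ → MvPowerSeries V K := fun k => (fun r => g - r ^ 2)^[k] 0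
  have hs : ∀ k, s (k + 1) = g - s k ^ 2 := fun k => Function.iterate_succ_apply' _ _ _
  have hc : ∀ k, constantCoeff (s k) = 0 := fun k => by
    induction k with
    | zero => exact map_zero _
    | succ k ih => simp [hs, hg, ih]
  refine (ser_lim S hz s (fun k => -(η + s k)) (fun k => by simp [hη, hc]) (fun k => ?_)
    (M := (E na 2)⁻¹) fun k => ?_).trans (inv_le_one_of_one_le₀ h2)
  · rw [hs]
    linear_combination e
  · induction k with
    | zero => exact S.zero.le.trans (by positivity)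
    | succ k ih =>
      have h5 := S.sub_le (s := 1) (t := 1) (M := (E na 4)⁻¹) (by rwa [E_one, one_mul])
        (by rw [E_one, one_mul, h4, ← inv_pow]; exact S.pow_le ih 2)
      rw [hs]
      refine h5.trans (le_of_eq ?_)
      rw [h4, one_add_one_eq_two]
      field_simp

omit [Fintype V] in
lemma ser_inv {na : Prop} (S : SN (MvPowerSeries V K) na) {κ : V →₀ ℕ}
    (hz : ∀ f, (∀ μ ≤ κ, coeff μ f = 0) → S.N f = 0) {q : MvPowerSeries V K}
    (hq : constantCoeff q = 0) (hN : S.N q * E na 2 ≤ 1) :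
    ∃ γ, (1 + q) * γ = 1 ∧ S.N γ ≤ E na 2 := by
  have e := MvPowerSeries.mul_inv_cancel (1 + q) (by simp [hq])
  refine ⟨_, e, ?_⟩
  generalize (1 + q)⁻¹ = γ at e
  let s : ℕ → MvPowerSeries V K := fun k => (fun r => 1 - q * r)^[k] 0
  have hs : ∀ k, s (k + 1) = 1 - q * s k := fun k => Function.iterate_succ_apply' _ _ _
  refine ser_lim S hz s (fun _ => -q) (fun k => by simp [hq]) (fun k => ?_) fun k => ?_
  · rw [hs]
    linear_combination e
  · induction k with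
    | zero => exact S.zero.le.trans (E_nonneg zero_le_two)
    | succ k ih =>
      have h5 := S.sub_le (s := 1) (t := 1) (M := 1) (by rw [E_one, one_mul]; exact S.one)
        (by rw [E_one, one_mul]; exact (S.mul_le le_rfl ih).trans hN)
      rwa [hs, ← mul_one (E na 2), ← one_add_one_eq_two]

/-- An absolute value as a seminorm. -/
def serAbs (v : AbsoluteValue K ℝ) : SN K (IsNonarchimedean v) :=
  ⟨v, v.nonneg, v.map_zero, v.map_one.le, v.map_neg, fun f g => (v.map_mul f g).le, v.add_le,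
    fun h f g => h f g⟩

lemma ser_fc {R : Type} [CommRing R] {na : Prop} (S : SN R na) (a b : ℤ) {x : R} {m : ℝ}
    (hm : 1 ≤ m) (hx : S.N x ≤ m) :
    S.N (fc (a : R) b x) ≤ E na (1 + |(a : ℝ)| + |(b : ℝ)|) * m ^ 3 := by
  refine S.add_le (S.add_le (by rw [E_one, one_mul]; exact S.pow_le hx 3)
    (S.int_mul_le a (hx.trans (le_self_pow₀ hm three_ne_zero)))) ((S.intCast_le b).trans ?_)
  exact le_mul_of_one_le_right (E_nonneg (abs_nonneg _)) (one_le_pow₀ hm)

omit [Fintype V] in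
lemma ser_one {na : Prop} (S : SN (MvPowerSeries V K) na) {κ : V →₀ ℕ}
    (hz : ∀ f, (∀ μ ≤ κ, coeff μ f = 0) → S.N f = 0) (hC : ∀ c, S.N (C c) ≤ v c) {a : ℤ}
    {A : ℝ} (hA : 1 + |(a : ℝ)| ≤ A) {x y : K} (hy2 : v y ^ 2 ≤ E na A * max 1 (v x) ^ 3)
    {t η : MvPowerSeries V K} (ht : constantCoeff t = 0) (hη : constantCoeff η = 0)
    (e : η = C (4 * y ^ 2)⁻¹ * t *
      (3 * C x ^ 2 + (a : MvPowerSeries V K) + 3 * (C x * t) + t ^ 2) - η ^ 2)
    (hN : S.N t ≤ (E na (144 * A) * max 1 (v x) ^ 2 * max 1 (v (4 * y ^ 2)⁻¹))⁻¹) :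
    S.N (C x + t) ≤ E na (144 * A) * max 1 (v x) ∧
      S.N (C y * (1 + 2 * η)) ≤ (E na (144 * A) * max 1 (v x)) ^ 2 ∧
      (1 < v x → ∃ β, (C x + t) * β = 1 ∧ S.N β * v x ≤ E na (144 * A) ∧
        S.N (C y * (1 + 2 * η) * β ^ 2) ^ 2 * v x ≤ E na (144 * A)) := by
  have ha := abs_nonneg (a : ℝ)
  have hA1 : 1 ≤ A := by linarith
  have hx : v x ≤ max 1 (v x) := le_max_right _ _
  have hw : v (4 * y ^ 2)⁻¹ ≤ max 1 (v (4 * y ^ 2)⁻¹) := le_max_right _ _
  have hm1 : 1 ≤ max 1 (v x) := le_max_left _ _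
  have hw1 : 1 ≤ max 1 (v (4 * y ^ 2)⁻¹) := le_max_left _ _
  have hmx : 1 < v x → max 1 (v x) = v x := fun h => max_eq_right h.le
  generalize max 1 (v x) = m at *
  generalize max 1 (v (4 * y ^ 2)⁻¹) = w at *
  have hc1 : 1 ≤ E na (144 * A) := one_le_E (by linarith)
  have hEA : 1 ≤ E na A := one_le_E hA1
  have hm2 : 1 ≤ m ^ 2 := one_le_pow₀ hm1
  have hc0 : 0 < E na (144 * A) := one_pos.trans_le hc1
  have ht2 : S.N t ≤ (E na (144 * A))⁻¹ := by
    refine hN.trans (inv_anti₀ hc0 ?_)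
    rw [mul_assoc]
    exact le_mul_of_one_le_right hc0.le (one_le_mul_of_one_le_of_one_le hm2 hw1)
  have ht1 : S.N t ≤ 1 := ht2.trans (inv_le_one_of_one_le₀ hc1)
  have hx1 : S.N (C x) ≤ m := (hC x).trans hx
  have hg : S.N (C (4 * y ^ 2)⁻¹ * t *
      (3 * C x ^ 2 + (a : MvPowerSeries V K) + 3 * (C x * t) + t ^ 2)) ≤ (E na 4)⁻¹ := by
    have h3 : S.N 3 ≤ E na 3 := by simpa using S.natCast_le 3
    have h1 : S.N (3 * C x ^ 2 + (a : MvPowerSeries V K) + 3 * (C x * t) + t ^ 2) ≤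
        E na (3 + |(a : ℝ)| + 3 + 1) * m ^ 2 :=
      S.add_le (S.add_le (S.add_le (S.mul_le h3 (S.pow_le hx1 2)) ((S.intCast_le a).trans
        (le_mul_of_one_le_right (E_nonneg ha) hm2)))
        (S.mul_le h3 (by rw [sq]; exact S.mul_le hx1 (ht1.trans hm1))))
        (by rw [E_one, one_mul]; exact S.pow_le (ht1.trans hm1) 2)
    refine (S.mul_le (S.mul_le ((hC _).trans hw) hN) h1).trans ?_
    have h4 : E na (3 + |(a : ℝ)| + 3 + 1) * E na 4 ≤ E na (144 * A) := by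
      rw [← E_mul]
      exact E_mono (by linarith)
    have h5 : 0 < E na 4 := E_pos (by norm_num)
    rw [← one_div (E na 4), le_div_iff₀ h5]
    refine le_trans (le_of_eq ?_) ((div_le_one (by positivity)).2 h4)
    field_simp
  have hη1 := ser_eta S hz (by simp [ht]) hη e hg
  have hY : S.N (C y * (1 + 2 * η)) ≤ v y * E na 3 := by
    have h2 : S.N 2 ≤ E na 2 := by simpa using S.natCast_le 2
    have h3 := S.add_le (s := 1) (M := 1) (by rw [E_one, one_mul]; exact S.one) (S.mul_le h2 hη1)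
    rw [mul_one, show (1 : ℝ) + 2 = 3 by norm_num] at h3
    exact S.mul_le (hC y) h3
  refine ⟨?_, hY.trans ?_, fun h1 => ?_⟩
  · refine (S.add_le (s := 1) (t := 1) (M := m) (by rwa [E_one, one_mul])
      (by rw [E_one, one_mul]; exact ht1.trans hm1)).trans ?_
    exact mul_le_mul_of_nonneg_right (E_mono (by linarith)) (by positivity)
  · have h1 : v y ≤ E na A * m ^ 2 := by
      refine le_of_sq_le_sq (hy2.trans ?_) (by positivity)
      rw [mul_pow, ← pow_mul]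
      exact mul_le_mul (le_self_pow₀ hEA two_ne_zero) (pow_le_pow_right₀ hm1 (by norm_num))
        (by positivity) (by positivity)
    have h2 : E na A * E na 3 ≤ E na (144 * A) ^ 2 := by
      rw [← E_mul]
      exact (E_mono (by linarith)).trans (le_self_pow₀ hc1 two_ne_zero)
    have h3 : 0 ≤ E na 3 := E_nonneg (by norm_num)
    calc v y * E na 3 ≤ E na A * m ^ 2 * E na 3 := mul_le_mul_of_nonneg_right h1 h3
      _ = E na A * E na 3 * m ^ 2 := by ring
      _ ≤ E na (144 * A) ^ 2 * m ^ 2 := mul_le_mul_of_nonneg_right h2 (by positivity)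
      _ = _ := by ring
  · have hx0 : 0 < v x := one_pos.trans h1
    have hx0' : x ≠ 0 := v.pos_iff.1 hx0
    have h2 : E na 2 ≤ E na (144 * A) := E_mono (by linarith)
    have h20 : 0 ≤ E na 2 := E_nonneg zero_le_two
    have hi : S.N (C x⁻¹) ≤ (v x)⁻¹ := (hC _).trans (map_inv₀ v x).le
    obtain ⟨γ, e1, hγ⟩ := ser_inv S hz (q := C x⁻¹ * t) (by simp [ht]) (by
      have h3 := S.mul_le (hi.trans (inv_le_one_of_one_le₀ h1.le)) ht2
      rw [one_mul] at h3
      refine (mul_le_mul h3 h2 h20 (by positivity)).trans (le_of_eq ?_)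
      field_simp)
    have hβ : S.N (C x⁻¹ * γ) ≤ (v x)⁻¹ * E na 2 := S.mul_le hi hγ
    have e2 : (C x : MvPowerSeries V K) * C x⁻¹ = 1 := by
      rw [← map_mul, mul_inv_cancel₀ hx0', map_one]
    refine ⟨C x⁻¹ * γ, by linear_combination e1 + γ * e2, ?_, ?_⟩
    · refine (mul_le_mul_of_nonneg_right hβ hx0.le).trans (le_of_eq_of_le ?_ h2)
      field_simp
    · have h3 := pow_le_pow_left₀ (S.nonneg _) (S.mul_le hY (S.pow_le hβ 2)) 2
      have h4 : E na A * (E na 3 ^ 2 * E na 2 ^ 4) = E na (144 * A) := by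
        rw [← E_pow, ← E_pow, ← E_mul, ← E_mul]
        exact congrArg _ (by ring)
      rw [hmx h1] at hy2
      calc _ ≤ (v y * E na 3 * ((v x)⁻¹ * E na 2) ^ 2) ^ 2 * v x :=
          mul_le_mul_of_nonneg_right h3 hx0.le
        _ = v y ^ 2 * ((E na 3 ^ 2 * E na 2 ^ 4) / v x ^ 3) := by field_simp
        _ ≤ E na A * v x ^ 3 * ((E na 3 ^ 2 * E na 2 ^ 4) / v x ^ 3) :=
          mul_le_mul_of_nonneg_right hy2 (by positivity)
        _ = _ := by rw [← h4]; field_simp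

end aux

/- Sketch. N f = sup (if v is non-archimedean) or sum (otherwise) over mu in Finset.Iic kappa of
v (coeff mu f) * prod_p rho p ^ mu p; coeff_mul and antidiagonal. -/
theorem exists_SN {K V : Type} [Field K] [Fintype V] (v : AbsoluteValue K ℝ) (ρ : V → ℝ)
    (hρ : ∀ p, 0 ≤ ρ p) (κ : V →₀ ℕ) :
    ∃ S : SN (MvPowerSeries V K) (IsNonarchimedean v),
      (∀ f, v (coeff κ f) * ∏ p, ρ p ^ κ p ≤ S.N f) ∧ (∀ c, S.N (C c) ≤ v c) ∧
      (∀ p, S.N (X p) ≤ ρ p) ∧ ∀ f, (∀ μ ≤ κ, coeff μ f = 0) → S.N f = 0 := by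
  classical
  obtain ⟨S, h1, h2, h3⟩ := ser_exists (v := v) hρ κ
  refine ⟨S, h1, fun c => by simpa using h2 0 c, fun p => ?_, h3⟩
  have := h2 (Finsupp.single p 1) 1
  rw [v.map_one, one_mul, prod_eq_single p (fun q _ hq => by simp [hq]) (by simp)] at this
  rw [X_def]
  simpa using this

/- Sketch. eta = g * catalan (-g): PowerSeries.subst of PowerSeries.catalanSeries mapped to Int or K. -/
theorem exists_fix {K V : Type} [Field K] (g : MvPowerSeries V K) (hg : constantCoeff g = 0) :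
    ∃ η : MvPowerSeries V K, constantCoeff η = 0 ∧ η = g - η ^ 2 := by
  have hs : PowerSeries.HasSubst (-g) := PowerSeries.HasSubst.of_constantCoeff_zero (by simp [hg])
  have h := congrArg (fun f => PowerSeries.substAlgHom (R := K) hs
    (PowerSeries.map (Nat.castRingHom K) f)) PowerSeries.catalanSeries_sq_mul_X_add_one
  simp only [map_add, map_mul, map_pow, map_one, PowerSeries.map_X,
    PowerSeries.substAlgHom_X] at h
  generalize PowerSeries.substAlgHom (R := K) hs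
    (PowerSeries.map (Nat.castRingHom K) PowerSeries.catalanSeries) = u at h
  exact ⟨g * u, by simp [hg], by linear_combination (-g) * h⟩

/- Sketch. x = C x0 + X p, g = (fc x - fc x0) / (4 y0 ^ 2) = C ((4 y0^2)⁻¹) * (C (3 x0^2 + a) X + C (3 x0) X^2 + X^3), eta from
exists_fix, y = C y0 * (1 + 2 eta). rho p = inverse of the displayed factor, so N g <= 1 / E 4. Bound for eta:
eta_0 = 0, eta_(k+1) = g - eta_k ^ 2 has N <= E 2 * N g, and eta - eta_k has order >= k + 1, so N (eta - eta_k) = 0 for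
k large. 1 / x = C x0⁻¹ * (geometric series in -X / x0): same argument with beta_(k+1) = 1 - q beta_k, N q <= 1 / E 2.
v y0 ^ 2 <= E (1 + |a| + |b|) * max 1 (v x0) ^ 3 (an absolute value is itself an SN K). -/
theorem exists_branch {K V : Type} [Field K] [CharZero K] [Fintype V] (a b : V → ℤ) :
    ∃ c : ℝ, 1 ≤ c ∧ ∀ x₀ y₀ : V → K, (∀ p, y₀ p ^ 2 = fc (a p : K) (b p) (x₀ p)) →
      (∀ p, y₀ p ≠ 0) → ∃ y : V → MvPowerSeries V K,
        (∀ p, y p ^ 2 = fc (a p : MvPowerSeries V K) (b p) (C (x₀ p) + X p)) ∧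
        (∀ p, constantCoeff (y p) = y₀ p) ∧
        ∀ (v : AbsoluteValue K ℝ) (κ : V →₀ ℕ),
          ∃ S : SN (MvPowerSeries V K) (IsNonarchimedean v),
            (∀ f, v (coeff κ f) ≤ S.N f * ∏ p, (E (IsNonarchimedean v) c * max 1 (v (x₀ p)) ^ 2 *
              max 1 (v (4 * y₀ p ^ 2)⁻¹)) ^ κ p) ∧
            ∀ p, S.N (C (x₀ p) + X p) ≤ E (IsNonarchimedean v) c * max 1 (v (x₀ p)) ∧
              S.N (y p) ≤ (E (IsNonarchimedean v) c * max 1 (v (x₀ p))) ^ 2 ∧
              (1 < v (x₀ p) → ∃ β, (C (x₀ p) + X p) * β = 1 ∧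
                S.N β * v (x₀ p) ≤ E (IsNonarchimedean v) c ∧
                S.N (y p * β ^ 2) ^ 2 * v (x₀ p) ≤ E (IsNonarchimedean v) c) := by
  classical
  have hA : ∀ p, 1 + |(a p : ℝ)| + |(b p : ℝ)| ≤ 1 + ∑ q, (|(a q : ℝ)| + |(b q : ℝ)|) := fun p => by
    rw [add_assoc]
    exact add_le_add le_rfl (single_le_sum (f := fun q => |(a q : ℝ)| + |(b q : ℝ)|)
      (fun q _ => by positivity) (mem_univ p))
  have hA1 : (1 : ℝ) ≤ 1 + ∑ q, (|(a q : ℝ)| + |(b q : ℝ)|) :=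
    le_add_of_nonneg_right (sum_nonneg fun q _ => by positivity)
  generalize 1 + ∑ q, (|(a q : ℝ)| + |(b q : ℝ)|) = A at hA hA1
  refine ⟨144 * A, by linarith, fun x₀ y₀ hy hy0 => ?_⟩
  choose η hη e using fun p => exists_fix (C (4 * y₀ p ^ 2)⁻¹ * X p *
    (3 * C (x₀ p) ^ 2 + (a p : MvPowerSeries V K) + 3 * (C (x₀ p) * X p) + X p ^ 2)) (by simp)
  refine ⟨fun p => C (y₀ p) * (1 + 2 * η p), fun p => ?_, fun p => by simp [hη], fun v κ => ?_⟩
  · have h1 := congrArg (C : K →+* MvPowerSeries V K) (hy p)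
    rw [map_fc, map_pow, map_intCast, map_intCast] at h1
    have h2 : (4 * C (y₀ p) ^ 2 : MvPowerSeries V K) * C (4 * y₀ p ^ 2)⁻¹ = 1 := by
      rw [← map_pow, ← map_ofNat (C : K →+* MvPowerSeries V K) 4, ← map_mul, ← map_mul,
        mul_inv_cancel₀ (mul_ne_zero (by norm_num : (4 : K) ≠ 0) (pow_ne_zero 2 (hy0 p))), map_one]
    simp only [fc] at h1 ⊢
    linear_combination h1 + 4 * C (y₀ p) ^ 2 * e p + X p *
      (3 * C (x₀ p) ^ 2 + (a p : MvPowerSeries V K) + 3 * (C (x₀ p) * X p) + X p ^ 2) * h2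
  · have hpos : ∀ p, 0 < E (IsNonarchimedean v) (144 * A) * max 1 (v (x₀ p)) ^ 2 *
        max 1 (v (4 * y₀ p ^ 2)⁻¹) := fun p => by
      have : 0 < E (IsNonarchimedean v) (144 * A) := E_pos (by linarith)
      positivity
    obtain ⟨S, h1, h2, h3, h4⟩ := exists_SN v _ (fun p => (inv_pos.2 (hpos p)).le) κ
    refine ⟨S, fun f => ?_, fun p => ser_one S h4 h2
      ((le_add_of_nonneg_right (abs_nonneg _)).trans (hA p)) ?_ (by simp) (hη p) (e p) (h3 p)⟩
    · have h5 := h1 f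
      simp only [inv_pow, prod_inv_distrib] at h5
      exact (mul_inv_le_iff₀ (prod_pos fun p _ => pow_pos (hpos p) _)).1 h5
    · rw [← v.map_pow, hy]
      exact (ser_fc (serAbs v) (a p) (b p) (le_max_left _ _) (le_max_right _ _)).trans
        (mul_le_mul_of_nonneg_right (E_mono (hA p)) (by positivity))

end Pool.Agent.Lib.MP_651af7_nt.Vj.P1
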