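import Pool.Agent.Lib.MP_651af7_nt.P1Defs

/-! From local inequalities to a height inequality. -/

namespace Pool.Agent.Lib.MP_651af7_nt.Vj.P1

open Finset Height

variable {K : Type} [Field K] [NumberField K]

section aux

open AdmissibleAbsValues

/-- The product over all places. -/
noncomputable def sigP (f : AbsoluteValue K ℝ → ℝ) : ℝ :=
  (archAbsVal.map f).prod * ∏ᶠ v : nonarchAbsVal (K := K), f v.val

/-- Equal to `1` at almost all places. -/
def sigF (f : AbsoluteValue K ℝ → ℝ) : Prop :=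
  (fun v : nonarchAbsVal (K := K) => f v.val).HasFiniteMulSupport

lemma sigF_mul {f g : AbsoluteValue K ℝ → ℝ} (hf : sigF f) (hg : sigF g) :
    sigF (fun v => f v * g v) := by
  refine (Set.Finite.union hf hg).subset fun v hv => ?_
  by_contra h
  simp only [Set.mem_union, Function.mem_mulSupport, not_or, not_not] at h
  exact hv (by simp only [h.1, h.2, one_mul])

lemma sigP_mul {f g : AbsoluteValue K ℝ → ℝ} (hf : sigF f) (hg : sigF g) :
    sigP (fun v => f v * g v) = sigP f * sigP g := by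
  unfold sigP
  rw [Multiset.prod_map_mul, finprod_mul_distrib hf hg, mul_mul_mul_comm]

lemma sigF_one : sigF (K := K) (fun _ => 1) := by
  simp [sigF, Function.HasFiniteMulSupport]

lemma sigP_one : sigP (K := K) (fun _ => 1) = 1 := by simp [sigP]

lemma sig_pow {f : AbsoluteValue K ℝ → ℝ} (hf : sigF f) (n : ℕ) :
    sigF (fun v => f v ^ n) ∧ sigP (fun v => f v ^ n) = sigP f ^ n := by
  induction n with
  | zero => simpa only [pow_zero] using ⟨sigF_one, sigP_one⟩
  | succ n ih =>
    simp only [pow_succ]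
    exact ⟨sigF_mul ih.1 hf, by rw [sigP_mul ih.1 hf, ih.2]⟩

lemma sig_prod {I : Type} (s : Finset I) {f : I → AbsoluteValue K ℝ → ℝ} (hf : ∀ i, sigF (f i)) :
    sigF (fun v => ∏ i ∈ s, f i v) ∧ sigP (fun v => ∏ i ∈ s, f i v) = ∏ i ∈ s, sigP (f i) := by
  classical
  induction s using Finset.induction_on with
  | empty => simpa only [prod_empty] using ⟨sigF_one, sigP_one⟩
  | insert i s hi ih =>
    simp only [prod_insert hi]
    exact ⟨sigF_mul (hf i) ih.1, by rw [sigP_mul (hf i) ih.1, ih.2]⟩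

lemma sigP_mono {f g : AbsoluteValue K ℝ → ℝ} (hf : sigF f) (hg : sigF g) (h0 : ∀ v, 0 ≤ f v)
    (h : ∀ v, f v ≤ g v) : sigP f ≤ sigP g :=
  mul_le_mul (Multiset.prod_map_le_prod_map₀ _ _ (fun v _ => h0 v) fun v _ => h v)
    (finprod_le_finprod hf (fun v => h0 v.val) hg fun v => h v.val)
    (finprod_nonneg fun v => h0 v.val)
    (Multiset.prod_map_nonneg fun v _ => (h0 v).trans (h v))

lemma one_le_sigP {f : AbsoluteValue K ℝ → ℝ} (hf : sigF f) (h : ∀ v, 1 ≤ f v) : 1 ≤ sigP f := by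
  rw [← sigP_one (K := K)]
  exact sigP_mono sigF_one hf (fun _ => zero_le_one) h

lemma sigF_max (x : K) : sigF (fun v => max 1 (v x)) := by
  rcases eq_or_ne x 0 with rfl | hx
  · simpa using sigF_one (K := K)
  · refine (hasFiniteMulSupport hx).subset fun v hv => ?_
    intro h
    exact hv (by simp only [h, max_self])

lemma sigP_max (x : K) : sigP (fun v => max 1 (v x)) = mulHeight₁ x := by
  simp only [sigP, mulHeight₁_eq, max_comm]

lemma sigF_min (x x' : K) : sigF (fun v => max 1 (min (v x) (v x'))) := by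
  refine (sigF_max x).subset fun v hv => ?_
  intro h
  refine hv (max_eq_left ((min_le_left _ _).trans ?_))
  exact (le_max_right 1 _).trans (le_of_eq h)

lemma sigF_maxmax (x x' : K) : sigF (fun v => max 1 (max (v x) (v x'))) := by
  refine (Set.Finite.union (sigF_max x) (sigF_max x')).subset fun v hv => ?_
  by_contra h
  simp only [Set.mem_union, Function.mem_mulSupport, not_or, not_not] at h
  exact hv (max_eq_left (max_le ((le_max_right 1 _).trans (le_of_eq h.1))
    ((le_max_right 1 _).trans (le_of_eq h.2))))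

lemma sigP_maxmax (x x' : K) :
    sigP (fun v => max 1 (max (v x) (v x'))) = mulHeight ![1, x, x'] := by
  have H (v : AbsoluteValue K ℝ) : ⨆ i, v (![1, x, x'] i) = max 1 (max (v x) (v x')) :=
    eq_of_forall_ge_iff (by simp [ciSup_le_iff, Fin.forall_fin_succ])
  rw [mulHeight_eq (by simp)]
  simp only [H, sigP]

lemma gg_eq (x x' : K) : gg x x' = Real.log (sigP (fun v => max 1 (min (v x) (v x')))) := by
  have h1 := sigP_mul (sigF_max x) (sigF_max x')
  have h2 := sigP_mul (sigF_maxmax x x') (sigF_min x x')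
  have h3 : (fun v : AbsoluteValue K ℝ => max 1 (v x) * max 1 (v x')) =
      fun v => max 1 (max (v x) (v x')) * max 1 (min (v x) (v x')) := by
    funext v
    rcases le_total (v x) (v x') with h | h
    · rw [max_eq_right h, min_eq_left h, mul_comm]
    · rw [max_eq_left h, min_eq_right h]
  rw [h3, h2, sigP_max, sigP_max, sigP_maxmax] at h1
  have h4 := one_le_sigP (sigF_min x x') fun v => le_max_left _ _
  have h5 := congrArg Real.log h1
  rw [Real.log_mul (mulHeight_ne_zero _) (by linarith),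
    Real.log_mul (mulHeight₁_ne_zero _) (mulHeight₁_ne_zero _)] at h5
  unfold gg logHeight₁ logHeight
  linarith

lemma sigF_E (Γ : ℝ) : sigF (K := K) (fun v => E (IsNonarchimedean v) Γ) := by
  have : (fun v : nonarchAbsVal (K := K) => E (IsNonarchimedean v.val) Γ) = fun _ => 1 :=
    funext fun v => E_pos_case (isNonarchimedean _ v.prop) Γ
  unfold sigF
  rw [this]
  simp [Function.HasFiniteMulSupport]

lemma sigP_E {Γ : ℝ} (hΓ : 1 ≤ Γ) :
    sigP (K := K) (fun v => E (IsNonarchimedean v) Γ) ≤ Γ ^ totalWeight K := by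
  have : (fun v : nonarchAbsVal (K := K) => E (IsNonarchimedean v.val) Γ) = fun _ => 1 :=
    funext fun v => E_pos_case (isNonarchimedean _ v.prop) Γ
  unfold sigP
  rw [this, finprod_one, mul_one, totalWeight, ← Multiset.prod_replicate, ← Multiset.map_const]
  exact Multiset.prod_map_le_prod_map₀ _ _ (fun v _ => E_nonneg (by linarith))
    fun v _ => E_le_self hΓ

end aux

/- Sketch. max 1 s * max 1 t = max 1 (max s t) * max 1 (min s t). Take logarithms, sum over archAbsVal (multiset) and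
nonarchAbsVal (finsum, finite supports); product formula, logHeight₁_eq, mulHeight_eq for ![1, x, x'];
E = 1 on nonarchAbsVal and E <= Gamma on archAbsVal. A linear functional on the submodule of functions
AbsoluteValue K Real -> Real with finite support on nonarchAbsVal makes this short. -/
theorem height_ineq {I J L : Type} [Fintype I] [Fintype J] [Fintype L] (g : K) (hg : g ≠ 0)
    (α : I → K) (nα : I → ℕ) (β : J → K) (nβ : J → ℕ) (x x' : L → K) (n : L → ℕ) (Γ : ℝ)
    (hΓ : 1 ≤ Γ)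
    (h : ∀ v : AbsoluteValue K ℝ, v g * (∏ i, max 1 (v (α i)) ^ nα i) *
      ∏ l, max 1 (min (v (x l)) (v (x' l))) ^ n l ≤
        E (IsNonarchimedean v) Γ * ∏ j, max 1 (v (β j)) ^ nβ j) :
    ∑ i, nα i * logHeight₁ (α i) + ∑ l, n l * gg (x l) (x' l) ≤
      totalWeight K * Real.log Γ + ∑ j, nβ j * logHeight₁ (β j) := by
  have a1 := sig_prod univ (fun i => (sig_pow (sigF_max (α i)) (nα i)).1)
  have a2 := sig_prod univ (fun l => (sig_pow (sigF_min (x l) (x' l)) (n l)).1)
  have a3 := sig_prod univ (fun j => (sig_pow (sigF_max (β j)) (nβ j)).1)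
  have a4 : sigF (fun v : AbsoluteValue K ℝ => v g) := AdmissibleAbsValues.hasFiniteMulSupport hg
  have a5 : sigP (fun v : AbsoluteValue K ℝ => v g) = 1 := AdmissibleAbsValues.product_formula hg
  have b := sigP_mono (sigF_mul (sigF_mul a4 a1.1) a2.1) (sigF_mul (sigF_E Γ) a3.1)
    (fun v => by positivity) h
  rw [sigP_mul (sigF_mul a4 a1.1) a2.1, sigP_mul a4 a1.1, sigP_mul (sigF_E Γ) a3.1, a5, one_mul,
    a1.2, a2.2, a3.2] at b
  simp only [fun (y : K) (k : ℕ) => (sig_pow (sigF_max y) k).2,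
    fun (y y' : K) (k : ℕ) => (sig_pow (sigF_min y y') k).2, sigP_max] at b
  have c0 : ∀ l, 0 < sigP (fun v : AbsoluteValue K ℝ => max 1 (min (v (x l)) (v (x' l)))) :=
    fun l => zero_lt_one.trans_le (one_le_sigP (sigF_min _ _) fun v => le_max_left _ _)
  have c1 : 0 < ∏ i, mulHeight₁ (α i) ^ nα i := prod_pos fun i _ => by positivity
  have c2 := prod_pos (s := univ) fun l _ => pow_pos (c0 l) (n l)
  have c3 : 0 < ∏ j, mulHeight₁ (β j) ^ nβ j := prod_pos fun i _ => by positivity
  have c4 : 0 < Γ ^ totalWeight K := by positivity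
  have d := Real.log_le_log (mul_pos c1 c2)
    (b.trans (mul_le_mul_of_nonneg_right (sigP_E hΓ) c3.le))
  rw [Real.log_mul c1.ne' c2.ne', Real.log_mul c4.ne' c3.ne',
    Real.log_prod (fun i _ => by positivity), Real.log_prod (fun l _ => (pow_pos (c0 l) _).ne'),
    Real.log_prod (fun i _ => by positivity)] at d
  simp only [Real.log_pow] at d
  simpa only [gg_eq, logHeight₁_eq_log_mulHeight₁] using d

theorem gg_le_left (x x' : K) : gg x x' ≤ logHeight₁ x := by
  have h := logHeight_comp_le (![2, 0] : Fin 2 → Fin 3) ![1, x, x']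
  have e : ![1, x, x'] ∘ (![2, 0] : Fin 2 → Fin 3) = ![x', 1] := by
    funext i; fin_cases i <;> rfl
  rw [e, ← logHeight₁_eq_logHeight] at h
  unfold gg
  linarith

theorem gg_le_right (x x' : K) : gg x x' ≤ logHeight₁ x' := by
  have h := logHeight_comp_le (![1, 0] : Fin 2 → Fin 3) ![1, x, x']
  have e : ![1, x, x'] ∘ (![1, 0] : Fin 2 → Fin 3) = ![x, 1] := by
    funext i; fin_cases i <;> rfl
  rw [e, ← logHeight₁_eq_logHeight] at h
  unfold gg
  linarith

theorem height_y_le (a b : ℤ) : ∃ C : ℝ, ∀ x y : K, y ^ 2 = fc (a : K) b x →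
    logHeight₁ (4 * y ^ 2)⁻¹ ≤ 3 * logHeight₁ x + C := by
  refine ⟨Real.log ((4 * (1 + |(a : ℝ)| + |(b : ℝ)|)) ^ totalWeight K), fun x y h => ?_⟩
  have hΓ : (1 : ℝ) ≤ 4 * (1 + |(a : ℝ)| + |(b : ℝ)|) := by
    linarith [abs_nonneg (a : ℝ), abs_nonneg (b : ℝ)]
  have key := height_ineq (I := Unit) (J := Unit) (L := Empty) (1 : K) one_ne_zero
    (fun _ => 4 * y ^ 2) (fun _ => 1) (fun _ => x) (fun _ => 3) Empty.elim Empty.elim Empty.elim
    _ hΓ (fun v => by
      let S : SN K (IsNonarchimedean v) :=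
        { N := v, nonneg := v.nonneg, zero := v.map_zero, one := v.map_one.le, neg := v.map_neg,
          mul := fun f g => (v.map_mul f g).le, add := v.add_le, add_na := fun hv => hv }
      have hM : 1 ≤ max 1 (v x) := le_max_left _ _
      have hM3 : 1 ≤ max 1 (v x) ^ 3 := one_le_pow₀ hM
      have hx : S.N x ≤ max 1 (v x) := le_max_right _ _
      have h1 : S.N (x ^ 3) ≤ E (IsNonarchimedean v) 1 * max 1 (v x) ^ 3 := by
        rw [E_one, one_mul]; exact S.pow_le hx 3
      have h2 : S.N ((a : K) * x) ≤ E (IsNonarchimedean v) |(a : ℝ)| * max 1 (v x) ^ 3 :=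
        S.int_mul_le a (hx.trans (le_self_pow₀ hM (by norm_num)))
      have h3 : S.N ((b : K) * 1) ≤ E (IsNonarchimedean v) |(b : ℝ)| * max 1 (v x) ^ 3 :=
        S.int_mul_le b (S.one.trans hM3)
      have h4 := S.mul_le (S.natCast_le 4) (S.add_le (S.add_le h1 h2) h3)
      have h5 : ((4 : ℕ) : K) * (x ^ 3 + (a : K) * x + (b : K) * 1) = 4 * y ^ 2 := by
        rw [h, fc]; push_cast; ring
      rw [h5, ← mul_assoc, ← E_mul] at h4
      have h6 := one_le_E (na := IsNonarchimedean v) hΓ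
      simp only [map_one, univ_unique, prod_singleton, pow_one, one_mul, univ_eq_empty,
        prod_empty, mul_one]
      refine max_le (one_le_mul_of_one_le_of_one_le h6 hM3) ?_
      rw [Nat.cast_ofNat] at h4
      exact h4)
  rw [logHeight₁_inv, Real.log_pow]
  simp only [univ_unique, sum_singleton, univ_eq_empty, sum_empty, Nat.cast_one, one_mul,
    add_zero, Nat.cast_ofNat] at key
  linarith

theorem ht_two_pow {A B : K} (hD : 4 * A ^ 3 + 27 * B ^ 2 ≠ 0) :
    ∃ C : ℝ, ∀ (P : MP_e97e2b_nt.Pt A B) (j : ℕ), |ht (2 ^ j • P) - 4 ^ j * ht P| ≤ C * 4 ^ j := by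
  obtain ⟨r, φ, C, hC⟩ := ht_euclid hD
  refine ⟨2 * C, fun P j => ?_⟩
  have h1 := abs_le.1 (hC P)
  have h2 := abs_le.1 (hC (2 ^ j • P))
  have h3 : ‖φ (2 ^ j • P)‖ ^ 2 = 4 ^ j * ‖φ P‖ ^ 2 := by
    rw [map_nsmul, ← Nat.cast_smul_eq_nsmul ℝ, norm_smul, mul_pow, Real.norm_eq_abs, sq_abs]
    push_cast
    rw [← pow_mul, mul_comm j 2, pow_mul]
    norm_num
  have h4 : (1 : ℝ) ≤ 4 ^ j := one_le_pow₀ (by norm_num)
  have h5 : 0 ≤ C := by linarith [h1.1, h1.2]
  rw [h3] at h2
  have h6 := mul_le_mul_of_nonneg_left h1.1 (by linarith : (0 : ℝ) ≤ 4 ^ j)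
  have h7 := mul_le_mul_of_nonneg_left h1.2 (by linarith : (0 : ℝ) ≤ 4 ^ j)
  have h8 := mul_le_mul_of_nonneg_left h4 h5
  rw [abs_le]
  constructor <;> linarith [h2.1, h2.2]

end Pool.Agent.Lib.MP_651af7_nt.Vj.P1
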