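import Pool.Agent.Lib.MP_651af7_nt.P1Aux
import Pool.Agent.Lib.MP_651af7_nt.P1Poly
import Pool.Agent.Lib.MP_651af7_nt.P1Norm
import Pool.Agent.Lib.MP_651af7_nt.P1Ind
import Pool.Agent.Lib.MP_651af7_nt.P1Law
import Pool.Agent.Lib.MP_651af7_nt.P1Ser
import Pool.Agent.Lib.MP_651af7_nt.P1Sig
import Pool.Agent.Lib.MP_651af7_nt.P1Exit

/-! The height inequality given by the auxiliary section. -/

namespace Pool.Agent.Lib.MP_651af7_nt.Vj.P1

open Finset Height Pool.Agent.Lib.MP_e97e2b_nt Pool.Agent.Lib.MP_651af7_nt.Iv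
  Pool.Agent.Lib.Common.Subspace Pool.Agent.Lib.Common.ZeroLemma

/-- Degrees of the auxiliary section in the blocks. -/
def nn {m : ℕ} (d : ℕ) (j : Fin m → ℕ) : Option (Fin m) → ℕ
  | none => (2 * m + 1) * d
  | some i => (2 * d + 1) * 4 ^ j i

lemma loc_alg {m : ℕ} (d t : ℕ) (j : Fin m → ℕ) (κ : VV m → ℕ) (Γ c : ℝ) (na : Prop)
    (hc : 1 ≤ c) (M Y : VV m → ℝ) (hY : ∀ p, 0 ≤ Y p) (q : Fin m → ℝ) (hq : ∀ i, 1 ≤ q i)
    (N g : ℝ) (h1 : g ≤ N * ∏ p, (E na c * M p ^ 2 * Y p) ^ κ p)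
    (h2 : N ≤ E na Γ * (∏ s, E na c * M (none, s)) ^ ((2 * m + 1) * d) *
      ∏ i, ((∏ s, E na c * M (some i, s)) ^ ((2 * d + 1) * 4 ^ j i) *
        (E na c / √(q i)) ^ (2 * t * 4 ^ j i))) :
    g * ∏ i, q i ^ (t * 4 ^ j i) ≤
      E na (Γ * c ^ (∑ p : VV m, (nn d j p.1 + κ p) + ∑ i, 2 * t * 4 ^ j i)) *
        ∏ p : VV m ⊕ VV m, Sum.elim M Y p ^ Sum.elim (fun p => nn d j p.1 + 2 * κ p) κ p := by
  have hE := one_le_E (na := na) hc
  have h3 : ∀ i, (E na c / √(q i)) ^ (2 * t * 4 ^ j i) * q i ^ (t * 4 ^ j i) =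
      E na c ^ (2 * t * 4 ^ j i) := fun i => by
    have h0 : 0 < q i := by linarith [hq i]
    rw [mul_assoc 2, pow_mul, pow_mul (E na c), ← mul_pow, div_pow, Real.sq_sqrt h0.le,
      div_mul_cancel₀ _ h0.ne']
  have h4 : 0 ≤ ∏ p, (E na c * M p ^ 2 * Y p) ^ κ p :=
    prod_nonneg fun p _ => pow_nonneg (mul_nonneg (by positivity) (hY p)) _
  have h5 : 0 ≤ ∏ i, q i ^ (t * 4 ^ j i) :=
    prod_nonneg fun i _ => pow_nonneg (by linarith [hq i]) _
  refine (mul_le_mul_of_nonneg_right (h1.trans (mul_le_mul_of_nonneg_right h2 h4)) h5).trans_eq ?_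
  have h6 : (∏ i, ((∏ s, E na c * M (some i, s)) ^ ((2 * d + 1) * 4 ^ j i) *
      (E na c / √(q i)) ^ (2 * t * 4 ^ j i))) * ∏ i, q i ^ (t * 4 ^ j i) =
      (∏ i, (∏ s, E na c * M (some i, s)) ^ ((2 * d + 1) * 4 ^ j i)) *
        E na c ^ (∑ i, 2 * t * 4 ^ j i) := by
    rw [← prod_mul_distrib, ← prod_pow_eq_pow_sum, ← prod_mul_distrib]
    exact prod_congr rfl fun i _ => by rw [mul_assoc, h3]
  have h7 : (∏ s, E na c * M (none, s)) ^ ((2 * m + 1) * d) *
      ∏ i, (∏ s, E na c * M (some i, s)) ^ ((2 * d + 1) * 4 ^ j i) =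
      ∏ p : VV m, (E na c * M p) ^ nn d j p.1 := by
    rw [Fintype.prod_prod_type, Fintype.prod_option]
    simp only [nn, prod_pow]
  have h8 : (∏ p : VV m, (E na c * M p) ^ nn d j p.1) * ∏ p, (E na c * M p ^ 2 * Y p) ^ κ p =
      E na c ^ (∑ p : VV m, (nn d j p.1 + κ p)) *
        ∏ p : VV m ⊕ VV m, Sum.elim M Y p ^ Sum.elim (fun p => nn d j p.1 + 2 * κ p) κ p := by
    rw [Fintype.prod_sum_type, ← prod_pow_eq_pow_sum, ← prod_mul_distrib, ← prod_mul_distrib,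
      ← prod_mul_distrib]
    refine prod_congr rfl fun p _ => ?_
    simp only [Sum.elim_inl, Sum.elim_inr]
    ring
  rw [E_mul, E_pow, pow_add]
  calc _ = E na Γ * (∏ s, E na c * M (none, s)) ^ ((2 * m + 1) * d) *
        ((∏ i, ((∏ s, E na c * M (some i, s)) ^ ((2 * d + 1) * 4 ^ j i) *
          (E na c / √(q i)) ^ (2 * t * 4 ^ j i))) * ∏ i, q i ^ (t * 4 ^ j i)) *
        ∏ p, (E na c * M p ^ 2 * Y p) ^ κ p := by ring
    _ = E na Γ * E na c ^ (∑ i, 2 * t * 4 ^ j i) *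
        (((∏ s, E na c * M (none, s)) ^ ((2 * m + 1) * d) *
          ∏ i, (∏ s, E na c * M (some i, s)) ^ ((2 * d + 1) * 4 ^ j i)) *
        ∏ p, (E na c * M p ^ 2 * Y p) ^ κ p) := by rw [h6]; ring
    _ = _ := by rw [h7, h8]; ring

lemma near_bound {na : Prop} {c c₀ s s' : ℝ} (hc : 1 ≤ c) (hc₀ : 1 ≤ c₀)
    (h : E na c₀ * (E na c / √(max 1 (min s s'))) < 1) {u : ℝ} (hu : u = s ∨ u = s') :
    1 < u ∧ ∀ z : ℝ, 0 ≤ z → z * u ≤ E na c → z ≤ (E na c / √(max 1 (min s s'))) ^ 2 := by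
  have hE := one_le_E (na := na) hc
  have hE₀ := one_le_E (na := na) hc₀
  have h0 : (0 : ℝ) < max 1 (min s s') := lt_max_of_lt_left one_pos
  have h1 : 0 < √(max 1 (min s s')) := Real.sqrt_pos.2 h0
  have h2 : E na c / √(max 1 (min s s')) < 1 := by
    have : 0 ≤ E na c / √(max 1 (min s s')) := by positivity
    nlinarith
  rw [div_lt_one h1] at h2
  have h3 : 1 < max 1 (min s s') := by
    have := Real.sq_sqrt h0.le
    nlinarith
  have h4 : 1 < min s s' := by simpa using h3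
  have h5 : min s s' ≤ u := by
    rcases hu with rfl | rfl
    · exact min_le_left _ _
    · exact min_le_right _ _
  refine ⟨h4.trans_le h5, fun z hz hzu => ?_⟩
  rw [div_pow, Real.sq_sqrt h0.le, le_div_iff₀ h0, max_eq_right h4.le]
  nlinarith

variable {K : Type} [Field K] [NumberField K]

omit [NumberField K] in
lemma pt_spec {A B : K} {P : Pt A B} (h : P ≠ 0) : ∃ h' : NS A B (xc P) (yc P), P = pt _ _ h' := by
  rcases P.cases with rfl | ⟨x, y, h', rfl⟩
  · exact absurd rfl h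
  · exact ⟨h', rfl⟩

/-- The local inequalities for a minimal coefficient of the auxiliary section. -/
theorem exists_local (a b : Bool → ℤ) {m d t : ℕ} (hm : 0 < m)
    (hd : 1152 * m * t ^ 2 ≤ (d + 1) ^ 2) : ∃ C c₁ : ℝ, 1 ≤ C ∧ 1 ≤ c₁ ∧ ∀ j : Fin m → ℕ,
    ∃ c : (Bool → Fin (d + 1)) → (∀ i, Bool → TT d (j i)) → ℤ, c ≠ 0 ∧
      (∀ z τ, |(c z τ : ℝ)| ≤ C ^ (∑ i, 4 ^ j i)) ∧
      ∀ P : ∀ p : VV m, Pt (a p.2 : K) (b p.2 : K), (∀ p, P p ≠ 0) → (∀ p, yc (P p) ≠ 0) →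
        (∀ i s, 2 ^ j i • P (some i, s) ≠ 0) →
        (∀ i s, 2 ^ j i • P (some i, s) + P (none, s) ≠ 0) →
        ∃ y : VV m → MvPowerSeries (VV m) K,
          (∀ p, y p ^ 2 = fc (a p.2 : MvPowerSeries (VV m) K) (b p.2)
            (MvPowerSeries.C (xc (P p)) + MvPowerSeries.X p)) ∧
          (∀ p, y p ≠ 0) ∧ ∀ κ : VV m →₀ ℕ,
          MvPowerSeries.coeff κ (GG a b d j c (fun _ _ => false)
            (fun p => MvPowerSeries.C (xc (P p)) + MvPowerSeries.X p) y) ≠ 0 →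
          ∃ κ' ≤ κ, ∃ g : K, g ≠ 0 ∧ ∀ v : AbsoluteValue K ℝ,
            v g * (∏ p : Fin m × Bool,
              max 1 (v (xc (2 ^ j p.1 • P (some p.1, p.2) + P (none, p.2)))) ^ d) *
              ∏ i, max 1 (min (v (xc (P (some i, false)))) (v (xc (P (some i, true))))) ^
                (t * 4 ^ j i) ≤
            E (IsNonarchimedean v) (C ^ (∑ i, 4 ^ j i) *
              c₁ ^ (∑ p : VV m, (nn d j p.1 + κ' p) + ∑ i, 2 * t * 4 ^ j i)) *
              ∏ p : VV m ⊕ VV m, max 1 (v (Sum.elim (fun p => xc (P p))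
                (fun p => (4 * yc (P p) ^ 2)⁻¹) p)) ^
                  Sum.elim (fun p => nn d j p.1 + 2 * κ' p) κ' p := by
  obtain ⟨C, c₀, hC, hc₀, H⟩ := exists_aux a b hm hd
  obtain ⟨c₁, hc₁, H₁⟩ := exists_branch (K := K) (V := VV m) (fun p => a p.2) (fun p => b p.2)
  refine ⟨C, c₁, hC, hc₁, fun j => ?_⟩
  obtain ⟨c, hc0, hc1, hc2⟩ := H j
  refine ⟨c, hc0, hc1, fun P hP hy h2 h3 => ?_⟩
  choose hns hpt using fun p => pt_spec (hP p)
  obtain ⟨y, e1, e2, e3⟩ := H₁ (fun p => xc (P p)) (fun p => yc (P p)) (fun p => (hns p).1) hy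
  refine ⟨y, e1, fun p h => hy p (by rw [← e2, h, map_zero]), fun κ hκ => ?_⟩
  set x : VV m → MvPowerSeries (VV m) K := fun p => MvPowerSeries.C (xc (P p)) + MvPowerSeries.X p
    with hx
  obtain ⟨κ', k1, k2, k3⟩ := exists_min_coeff _ κ hκ
  refine ⟨κ', k1, _, k2, fun v => ?_⟩
  have hπ : ∀ p, MvPowerSeries.constantCoeff (x p) = xc (P p) := fun p => by simp [hx]
  have hξ : ∀ i s, ∃ ξ : MvPowerSeries (VV m) K, MvPowerSeries.constantCoeff ξ =
      xc (2 ^ j i • P (some i, s) + P (none, s)) ∧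
      (law (a s : MvPowerSeries (VV m) K) (b s) (j i) (x (some i, s)) (y (some i, s)) (x (none, s))
        (y (none, s)) true).1 = ξ * (law (a s : MvPowerSeries (VV m) K) (b s) (j i) (x (some i, s))
          (y (some i, s)) (x (none, s)) (y (none, s)) false).1 ∧
      (law (a s : MvPowerSeries (VV m) K) (b s) (j i) (x (some i, s)) (y (some i, s)) (x (none, s))
        (y (none, s)) true).2 = ξ * (law (a s : MvPowerSeries (VV m) K) (b s) (j i) (x (some i, s))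
          (y (some i, s)) (x (none, s)) (y (none, s)) false).2 := by
    intro i s
    have := exists_xplus (F := K) MvPowerSeries.constantCoeff
      (fun f hf => MvPowerSeries.isUnit_iff_constantCoeff.2 (isUnit_iff_ne_zero.2 hf))
      (e1 (some i, s)) (e1 (none, s))
    have f1 := hπ (some i, s)
    have f2 := hπ (none, s)
    have f3 := e2 (some i, s)
    have f4 := e2 (none, s)
    have f5 : MvPowerSeries.constantCoeff (a s : MvPowerSeries (VV m) K) = (a s : K) := by simp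
    have f6 : MvPowerSeries.constantCoeff (b s : MvPowerSeries (VV m) K) = (b s : K) := by simp
    simp only [hx] at f1 f2
    dsimp only at this
    rw [f1, f2, f3, f4, f5, f6] at this
    have g1 := hpt (some i, s)
    have g2 := hpt (none, s)
    have := this (hns (some i, s)) (hns (none, s)) (j i) (by rw [← g1]; exact h2 i s)
      (by rw [← g1, ← g2]; exact h3 i s)
    rw [← g1, ← g2] at this
    exact this
  choose ξ x1 x2 using hξ
  obtain ⟨S, s1, s2⟩ := e3 v κ'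
  let l : Fin m → Bool → Bool := fun i s =>
    decide (1 < v (xc (2 ^ j i • P (some i, s) + P (none, s))))
  have hE := one_le_E (na := IsNonarchimedean v) hc₁
  have b1 := hc2 _ _ S x y (fun p => E (IsNonarchimedean v) c₁ * max 1 (v (xc (P p))))
    (fun i => E (IsNonarchimedean v) c₁ /
      √(max 1 (min (v (xc (P (some i, false)))) (v (xc (P (some i, true))))))) l e1
    (fun p => one_le_mul_of_one_le_of_one_le hE (le_max_left _ _)) (fun p => (s2 p).1)
    (fun p => (s2 p).2.1) (fun i => by positivity) (fun i hi s => by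
      obtain ⟨n1, n2⟩ := near_bound hc₁ hc₀ hi (u := v (xc (P (some i, s)))) (by cases s <;> simp)
      obtain ⟨β, n3, n4, n5⟩ := (s2 (some i, s)).2.2 n1
      refine ⟨β, n3, n2 _ (S.nonneg _) n4, ?_⟩
      exact (pow_le_pow_iff_left₀ (S.nonneg _) (by positivity) two_ne_zero).1
        (n2 _ (by positivity) n5))
  have b2 := s1 (GG a b d j c l x y)
  rw [GG_law a b d j c l x y ξ x2, k3, ← GG_law a b d j c l x y ξ x2, map_mul] at b2
  have b3 : v (MvPowerSeries.constantCoeff (∏ i, ∏ s, if l i s = true then ξ i s ^ d else 1)) =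
      ∏ p : Fin m × Bool, max 1 (v (xc (2 ^ j p.1 • P (some p.1, p.2) + P (none, p.2)))) ^ d := by
    rw [Fintype.prod_prod_type, map_prod, map_prod]
    refine prod_congr rfl fun i _ => ?_
    rw [map_prod, map_prod]
    refine prod_congr rfl fun s _ => ?_
    split_ifs with h
    · rw [map_pow, map_pow, x1, max_eq_right (of_decide_eq_true h).le]
    · rw [max_eq_left (not_lt.1 fun h' => h (decide_eq_true h'))]
      simp
  rw [b3, mul_comm] at b2
  refine (loc_alg d t j κ' _ c₁ _ hc₁ (fun p => max 1 (v (xc (P p))))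
    (fun p => max 1 (v (4 * yc (P p) ^ 2)⁻¹)) (fun p => by positivity) _
    (fun i => le_max_left _ _) _ _ b2 b1).trans_eq ?_
  congr 1
  exact prod_congr rfl fun p _ => by cases p <;> rfl

/-- Either the height inequality holds with a small error, or a block lies on a small curve. -/
theorem core_ineq (a b : Bool → ℤ) (hD : ∀ s, 4 * a s ^ 3 + 27 * b s ^ 2 ≠ 0) {m d t : ℕ}
    (hm : 0 < m) (hd : 1152 * m * t ^ 2 ≤ (d + 1) ^ 2) (θ : ℝ) (hθ : 0 < θ) :
    ∃ (B : ℕ) (η C : ℝ), 0 < η ∧ 1 ≤ C ∧ ∀ (ε : ℝ) (j : Fin m → ℕ)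
      (P : ∀ p : VV m, Pt (a p.2 : K) (b p.2 : K)) (w : Option (Fin m) → ℝ) (D : ℝ), 0 < ε →
      (∀ p, P p ≠ 0) → (∀ p, yc (P p) ≠ 0) → (∀ i s, 2 ^ j i • P (some i, s) ≠ 0) →
      (∀ i s, 2 ^ j i • P (some i, s) + P (none, s) ≠ 0) → (∀ o, C ≤ ε * w o) →
      (∀ o o', o ≠ o' → w o ≤ η * w o' ∨ w o' ≤ η * w o) → (∀ o, w o * nn d j o ≤ D) →
      C * (∑ i, 4 ^ j i : ℕ) ≤ ε * D →
      (∃ κ : VV m → ℕ, ∑ p, (κ p : ℝ) * w p.1 < θ * D ∧
        d * ∑ p : Fin m × Bool, ht (2 ^ j p.1 • P (some p.1, p.2) + P (none, p.2)) +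
          ∑ i, (t * 4 ^ j i : ℕ) * gg (xc (P (some i, false))) (xc (P (some i, true))) ≤
        C * (∑ i, 4 ^ j i : ℕ) + ∑ p, nn d j p.1 * ht (P p) + ∑ p, κ p * (5 * ht (P p) + C)) ∨
      ∃ (o : Option (Fin m)) (g : MvPolynomial (Fin 2) ℚ), Irreducible g ∧ IsInt g ∧
        (∀ i, g.degreeOf i ≤ B) ∧ len g ≤ Real.exp (B * ε * w o) ∧
        MvPolynomial.aeval ![xc (P (o, false)), xc (P (o, true))] g = 0 := by
  classical
  obtain ⟨C₁, c₁, hC₁, hc₁, H₁⟩ := exists_local (K := K) a b hm hd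
  obtain ⟨C₂, hC₂, H₂⟩ := exists_poly a b hm d
  choose C₃ H₃ using fun s => height_y_le (K := K) (a s) (b s)
  obtain ⟨B, η, hη, H₄⟩ := nonvanishing (K := K) (σ := VV m × Bool) (τ := VV m)
    (e := fun p => (p, false)) (fun p q h => congrArg Prod.fst h) Prod.fst 3
    (Fintype.card (VV m)) θ hθ
  have l₁ := Real.log_nonneg hC₁
  have l₂ := Real.log_nonneg hC₂
  have l₃ := Real.log_nonneg hc₁
  set n : ℝ := (totalWeight K : ℝ) with hn
  have hn0 : 0 ≤ n := Nat.cast_nonneg _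
  set e : ℝ := 2 * ((2 * m + 1) * d) + 2 * (2 * d + 1) + 2 * t with he
  have he0 : 0 ≤ e := by positivity
  set C : ℝ := 1 + Real.log C₁ + Real.log C₂ + n * (Real.log C₁ + e * Real.log c₁) +
    n * Real.log c₁ + ∑ s, (|C₃ s| + (2 + |(a s : ℝ)| + |(b s : ℝ)|)) with hC
  have p₁ : 0 ≤ n * (Real.log C₁ + e * Real.log c₁) := by positivity
  have p₂ : 0 ≤ n * Real.log c₁ := by positivity
  have p₃ : ∀ s, |C₃ s| + (2 + |(a s : ℝ)| + |(b s : ℝ)|) ≤
      ∑ s, (|C₃ s| + (2 + |(a s : ℝ)| + |(b s : ℝ)|)) := fun s =>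
    single_le_sum (f := fun s => |C₃ s| + (2 + |(a s : ℝ)| + |(b s : ℝ)|))
      (fun s _ => by positivity) (mem_univ s)
  have p₄ : 0 ≤ ∑ s, (|C₃ s| + (2 + |(a s : ℝ)| + |(b s : ℝ)|)) :=
    sum_nonneg fun s _ => by positivity
  have hC1 : 1 ≤ C := by linarith
  refine ⟨B, η, C, hη, hC1, fun ε j P w D hε hP hy h2 h3 hw hr hdeg hlen => ?_⟩
  obtain ⟨c, hc0, hc1, H₅⟩ := H₁ j
  obtain ⟨y, e1, e2, H₆⟩ := H₅ P hP hy h2 h3
  obtain ⟨G, g1, g2, g3, g4, g5⟩ := H₂ j c _ hc1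
  obtain ⟨x₀, y₀, z1, z2⟩ := GG_ne_zero a b hD d j c hc0
  set T : ℕ := ∑ i, 4 ^ j i with hT
  have hT1 : (1 : ℝ) ≤ T := by
    have : 4 ^ j ⟨0, hm⟩ ≤ T := single_le_sum (f := fun i => 4 ^ j i) (fun _ _ => Nat.zero_le _)
      (mem_univ _)
    exact_mod_cast (Nat.one_le_pow _ _ (by norm_num)).trans this
  let ev : MvPolynomial (VV m × Bool) ℚ →+* MvPowerSeries (VV m) K :=
    MvPolynomial.eval₂Hom (algebraMap ℚ _) fun q =>
      if q.2 = true then y q.1 else MvPowerSeries.C (xc (P q.1)) + MvPowerSeries.X q.1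
  have v1 : ∀ p, ev (MvPolynomial.X (p, false)) =
      MvPowerSeries.C (xc (P p)) + MvPowerSeries.X p := fun p => by simp [ev]
  have v2 : ∀ p, ev (MvPolynomial.X (p, true)) = y p := fun p => by simp [ev]
  have v3 : ∀ p, ev (MvPolynomial.X (p, true)) ^ 2 = fc (a p.2 : MvPowerSeries (VV m) K) (b p.2)
      (ev (MvPolynomial.X (p, false))) := fun p => by rw [v1, v2, e1]
  have v4 : ev G ≠ 0 := by
    refine ev_ne_zero (V := VV m) (fun p : VV m => a p.2) (fun p : VV m => b p.2) G x₀ y₀ z1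
      (fun sg => ?_) _ ev v1 v3
    rw [g5]
    · simpa using z2 sg
    · intro p
      have : ((sg p : ℤ) : ℂ) ^ 2 = 1 := by
        rcases Int.units_eq_one_or (sg p) with h | h <;> simp [h]
      simp [mul_pow, this, z1]
  have hw0 : ∀ o, 0 ≤ w o := fun o => ((mul_pos_iff_of_pos_left hε).1 (by linarith [hw o])).le
  have : IsDomain (MvPowerSeries (VV m) K) := NoZeroDivisors.to_isDomain _
  have : CharZero (MvPowerSeries (VV m) K) := algebraRat.charZero _
  have hG : Sm (fun q : VV m × Bool => w q.1.1) ε D G := by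
    refine ⟨g1, fun μ hμ q => le_trans (mul_le_mul_of_nonneg_left ?_ (hw0 _)) (hdeg q.1.1),
      g2.trans ?_⟩
    · refine Nat.cast_le.2 ((MvPolynomial.monomial_le_degreeOf q hμ).trans ?_)
      obtain ⟨⟨_ | i, s⟩, u⟩ := q
      · exact g4 s u
      · exact g3 i s u
    · rw [← mul_pow, ← Real.exp_log (show 0 < C₁ * C₂ by positivity), ← Real.exp_nat_mul,
        Real.exp_le_exp, Real.log_mul (by positivity) (by positivity)]
      have : (Real.log C₁ + Real.log C₂) * T ≤ C * T :=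
        mul_le_mul_of_nonneg_right (by linarith) (by linarith)
      linarith
  rcases H₄ ε (fun q => w q.1.1) hε (fun q => hC1.trans (hw _)) (fun p q h => by rw [h])
    (fun p q h => hr _ _ h) (fun p => xc (P p)) ev v1
    ((univ : Finset (VV m)).toList.map fun p => (p, true))
    (fun q => eqn (fun p => a p.2) (fun p => b p.2) q.1) (by simp)
    (by rintro ⟨p, _ | _⟩ <;> simp) (eqn_pairwise _ _) (fun q hq => by
      obtain ⟨p, -, rfl⟩ := List.mem_map.1 hq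
      refine eqn_rel _ _ p ev (fun p => w p.1) ε ?_ (v3 p) (by rw [v2]; exact e2 p)
      have := Real.add_one_le_exp (ε * w p.1)
      linarith [hw p.1, p₃ p.2, abs_nonneg (C₃ p.2)])
    D (by linarith [mul_le_mul hC1 hT1 zero_le_one (zero_le_one.trans hC1)]) G hG v4 with ⟨κ, k1, k2⟩ | ⟨p, g, q1, q2, q3, q4, q5⟩
  · left
    rw [g5 _ ev v3] at k2
    simp only [v1, v2] at k2
    obtain ⟨κ', k3, g, hg, k4⟩ := H₆ κ k2
    have hΓ : 1 ≤ C₁ ^ T * c₁ ^ (∑ p : VV m, (nn d j p.1 + κ' p) + ∑ i, 2 * t * 4 ^ j i) :=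
      one_le_mul_of_one_le_of_one_le (one_le_pow₀ hC₁) (one_le_pow₀ hc₁)
    have k5 := height_ineq g hg _ _ _ _ _ _ _ _ hΓ k4
    refine ⟨κ', lt_of_le_of_lt ?_ k1, ?_⟩
    · rw [Finsupp.weight_apply, Finsupp.sum_fintype _ _ (by simp)]
      refine sum_le_sum fun p _ => ?_
      rw [nsmul_eq_mul]
      exact mul_le_mul_of_nonneg_right (Nat.cast_le.2 (k3 p)) (hw0 _)
    rw [mul_sum]
    refine k5.trans ?_
    rw [Real.log_mul (by positivity) (by positivity), Real.log_pow, Real.log_pow,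
      Fintype.sum_sum_type, sum_add_distrib]
    have k6 : ((∑ p : VV m, nn d j p.1 : ℕ) : ℝ) + (∑ i, 2 * t * 4 ^ j i : ℕ) ≤ e * T := by
      rw [Fintype.sum_prod_type, Fintype.sum_option]
      simp only [nn, sum_const, card_univ, Fintype.card_bool, smul_eq_mul, ← mul_sum, ← hT]
      push_cast
      have : (0 : ℝ) ≤ (2 * m + 1) * d := by positivity
      linarith [mul_le_mul_of_nonneg_left hT1 this]
    have k7 : ∑ p : VV m, ((nn d j p.1 + 2 * κ' p : ℕ) : ℝ) * logHeight₁ (xc (P p)) +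
        ∑ p : VV m, (κ' p : ℝ) * logHeight₁ (4 * yc (P p) ^ 2)⁻¹ +
        n * Real.log c₁ * (∑ p, κ' p : ℕ) ≤
        ∑ p, nn d j p.1 * ht (P p) + ∑ p, κ' p * (5 * ht (P p) + C) := by
      rw [Nat.cast_sum, mul_sum, ← sum_add_distrib, ← sum_add_distrib, ← sum_add_distrib]
      refine sum_le_sum fun p _ => ?_
      obtain ⟨h', -⟩ := pt_spec (hP p)
      have k8 := H₃ p.2 _ _ h'.1
      have k9 : logHeight₁ (4 * yc (P p) ^ 2)⁻¹ + n * Real.log c₁ ≤ 3 * ht (P p) + C := by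
        have := le_abs_self (C₃ p.2)
        have := p₃ p.2
        have := abs_nonneg (a p.2 : ℝ)
        have := abs_nonneg (b p.2 : ℝ)
        unfold ht
        linarith
      have := mul_le_mul_of_nonneg_left k9 (Nat.cast_nonneg (α := ℝ) (κ' p))
      unfold ht at *
      push_cast
      linarith
    have k8 := mul_le_mul_of_nonneg_left k6 p₂
    have k9 : n * (Real.log C₁ + e * Real.log c₁) * T ≤ C * T :=
      mul_le_mul_of_nonneg_right (by linarith) (by linarith)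
    simp only [Sum.elim_inl, Sum.elim_inr]
    push_cast at k7 k8 k9 ⊢
    linarith
  · right
    obtain ⟨g', r1, r2, r3, r4, r5⟩ := exit_two p.1 g q1 q2 B q3 _ q5
    exact ⟨p.1, g', r1, r2, r3, r4.trans q4, r5⟩

end Pool.Agent.Lib.MP_651af7_nt.Vj.P1
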