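import Pool.Agent.Lib.MP_651af7_nt.P1Defs

/-! Reduced integer arrays for the arms. -/

namespace Pool.Agent.Lib.MP_651af7_nt.Vj.P1

open Finset

namespace P1ArrAux

variable {Q : Type} [CommRing Q]

/-- Integer combinations of reduced monomials with bounded weights and length. -/
inductive Rp (x y u w : Q) (W D : ℕ) : ℝ → Q → Prop
  | zero {L : ℝ} : 0 ≤ L → Rp x y u w W D L 0
  | cons (z : ℤ) (i e k f : ℕ) {L : ℝ} {q : Q} : i + 2 * e ≤ W → e ≤ 1 → k + 2 * f ≤ D → f ≤ 1 →
      Rp x y u w W D L q →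
      Rp x y u w W D (|(z : ℝ)| + L) ((z : Q) * (u ^ k * w ^ f) * (x ^ i * y ^ e) + q)

variable {x y u w : Q} {W D W' D' : ℕ} {L L' : ℝ} {q q' : Q}

lemma Rp.cast (h : Rp x y u w W D L q) (h1 : L = L') (h2 : q = q') : Rp x y u w W D L' q' :=
  h1 ▸ h2 ▸ h

lemma Rp.nonneg (h : Rp x y u w W D L q) : 0 ≤ L := by
  induction h with
  | zero h => exact h
  | cons z i e k f _ _ _ _ _ ih => positivity

lemma Rp.add (h : Rp x y u w W D L q) (h' : Rp x y u w W D L' q') :
    Rp x y u w W D (L + L') (q + q') := by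
  induction h with
  | @zero L h0 =>
    induction h' with
    | zero h1 => exact (Rp.zero (add_nonneg h0 h1)).cast rfl (by simp)
    | cons z i e k f h1 h2 h3 h4 _ ih =>
      exact (Rp.cons z i e k f h1 h2 h3 h4 ih).cast (by ring) (by ring)
  | cons z i e k f h1 h2 h3 h4 _ ih =>
    exact (Rp.cons z i e k f h1 h2 h3 h4 ih).cast (by ring) (by ring)

lemma Rp.mono (h : Rp x y u w W D L q) (hW : W ≤ W') (hD : D ≤ D') (hL : L ≤ L') :
    Rp x y u w W' D' L' q := by
  have : Rp x y u w W' D' L q := by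
    clear hL
    induction h with
    | zero h => exact Rp.zero h
    | cons z i e k f h1 h2 h3 h4 _ ih => exact Rp.cons z i e k f (h1.trans hW) h2 (h3.trans hD) h4 ih
  exact (this.add (Rp.zero (sub_nonneg.2 hL))).cast (by ring) (by ring)

lemma Rp.swap (h : Rp x y u w W D L q) : Rp u w x y D W L q := by
  induction h with
  | zero h => exact Rp.zero h
  | cons z i e k f h1 h2 h3 h4 _ ih =>
    exact (Rp.cons z k f i e h3 h4 h1 h2 ih).cast rfl (by ring)

lemma Rp.zmul (h : Rp x y u w W D L q) (c : ℤ) : Rp x y u w W D (|(c : ℝ)| * L) (c * q) := by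
  induction h with
  | zero h => exact (Rp.zero (by positivity)).cast rfl (by simp)
  | cons z i e k f h1 h2 h3 h4 _ ih =>
    exact (Rp.cons (c * z) i e k f h1 h2 h3 h4 ih).cast (by push_cast; rw [abs_mul]; ring)
      (by push_cast; ring)

lemma Rp.xmul (h : Rp x y u w W D L q) (n : ℕ) : Rp x y u w (n + W) D L (x ^ n * q) := by
  induction h with
  | zero h => exact (Rp.zero h).cast rfl (by simp)
  | cons z i e k f h1 h2 h3 h4 _ ih =>
    exact (Rp.cons z (n + i) e k f (by omega) h2 h3 h4 ih).cast rfl (by ring)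

/-- The loss in one reduction. -/
noncomputable def cc (a b : ℤ) : ℝ := 1 + |(a : ℝ)| + |(b : ℝ)|

lemma one_le_cc (a b : ℤ) : 1 ≤ cc a b := by
  unfold cc
  linarith [abs_nonneg (a : ℝ), abs_nonneg (b : ℝ)]

variable {a b : ℤ}

lemma Rp.ymul (hy : y ^ 2 = fc (a : Q) b x) (h : Rp x y u w W D L q) {n : ℕ} (hn : n ≤ 1) :
    Rp x y u w (2 * n + W) D (cc a b * L) (y ^ n * q) := by
  have hc := one_le_cc a b
  rcases Nat.le_one_iff_eq_zero_or_eq_one.1 hn with rfl | rfl
  · exact (h.mono (by omega) le_rfl (le_mul_of_one_le_left h.nonneg hc)).cast rfl (by simp)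
  induction h with
  | zero h => exact (Rp.zero (by positivity)).cast rfl (by simp)
  | cons z i e k f h1 h2 h3 h4 _ ih =>
    rcases Nat.le_one_iff_eq_zero_or_eq_one.1 h2 with rfl | rfl
    · refine ((Rp.cons z i 1 k f (by omega) le_rfl h3 h4 ih).mono le_rfl le_rfl ?_).cast rfl
        (by ring)
      nlinarith [abs_nonneg (z : ℝ)]
    · refine (Rp.cons z (i + 3) 0 k f (by omega) zero_le_one h3 h4
        (Rp.cons (a * z) (i + 1) 0 k f (by omega) zero_le_one h3 h4
          (Rp.cons (b * z) i 0 k f (by omega) zero_le_one h3 h4 ih))).cast ?_ ?_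
      · push_cast
        rw [abs_mul, abs_mul, cc]
        ring
      · push_cast
        unfold fc at hy
        linear_combination (-((z : Q) * (u ^ k * w ^ f) * x ^ i)) * hy

lemma Rp.mul (hy : y ^ 2 = fc (a : Q) b x) (hw : w ^ 2 = fc (a : Q) b u)
    (h : Rp x y u w W D L q) (h' : Rp x y u w W' D' L' q') :
    Rp x y u w (W + W') (D + D') (cc a b ^ 2 * L * L') (q * q') := by
  have hc := one_le_cc a b
  have hL := h'.nonneg
  induction h with
  | zero h => exact (Rp.zero (by positivity)).cast rfl (by simp)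
  | cons z i e k f h1 h2 h3 h4 _ ih =>
    have h5 := (((((h'.ymul hy h2).xmul i).swap.ymul hw h4).xmul k).swap.zmul z).mono
      (W' := W + W') (D' := D + D') (by omega) (by omega) le_rfl
    exact (h5.add ih).cast (by ring) (by ring)

lemma Rp.arr (h : Rp x y u w W D L q) : ∃ r : MM D → MM W → ℤ,
    (∀ ν μ, r ν μ ≠ 0 → (ν.1 : ℕ) + 2 * ν.2 ≤ D ∧ (μ.1 : ℕ) + 2 * μ.2 ≤ W) ∧
    ∑ ν, ∑ μ, |(r ν μ : ℝ)| ≤ L ∧ q = ∑ ν, ∑ μ, (r ν μ : Q) * mon u w ν * mon x y μ := by
  induction h with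
  | zero h => exact ⟨0, by simp, by simpa using h, by simp⟩
  | cons z i e k f h1 h2 h3 h4 _ ih =>
    obtain ⟨r, r1, r2, r3⟩ := ih
    let ν0 : MM D := (⟨k, by omega⟩, ⟨f, by omega⟩)
    let μ0 : MM W := (⟨i, by omega⟩, ⟨e, by omega⟩)
    have hs : ∀ {M : Type} [AddCommMonoid M] (g : MM D → MM W → M),
        ∑ ν, ∑ μ, (if ν = ν0 ∧ μ = μ0 then g ν μ else 0) = g ν0 μ0 := fun g => by
      simp [ite_and]
    refine ⟨fun ν μ => (if ν = ν0 ∧ μ = μ0 then z else 0) + r ν μ, fun ν μ hr => ?_, ?_, ?_⟩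
    · by_cases h0 : ν = ν0 ∧ μ = μ0
      · rw [h0.1, h0.2]
        exact ⟨h3, h1⟩
      · exact r1 ν μ (by simpa [h0] using hr)
    · refine le_trans ?_ (add_le_add (hs fun _ _ => |(z : ℝ)|).le r2)
      rw [← sum_add_distrib]
      refine sum_le_sum fun ν _ => ?_
      rw [← sum_add_distrib]
      refine sum_le_sum fun μ _ => ?_
      by_cases h0 : ν = ν0 ∧ μ = μ0
      · simp only [if_pos h0, Int.cast_add]
        exact abs_add_le _ _
      · simp only [if_neg h0, zero_add, le_refl]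
    · rw [r3]
      refine (congrArg (· + _) (hs fun ν μ => (z : Q) * mon u w ν * mon x y μ).symm).trans ?_
      rw [← sum_add_distrib]
      refine sum_congr rfl fun ν _ => ?_
      rw [← sum_add_distrib]
      refine sum_congr rfl fun μ _ => ?_
      by_cases h0 : ν = ν0 ∧ μ = μ0
      · simp only [if_pos h0, Int.cast_add]
        ring
      · simp only [if_neg h0, zero_add]

/-- The base of the exponential bounds. -/
noncomputable def KK (a b : ℤ) : ℝ := 20 * cc a b ^ 3

lemma two_le_KK (a b : ℤ) : 2 ≤ KK a b := by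
  have := one_le_pow₀ (one_le_cc a b) (n := 3)
  unfold KK
  linarith

/-- The normalised predicate. -/
def P (a b : ℤ) (x y u w : Q) (W D n : ℕ) (q : Q) : Prop :=
  Rp x y u w W D (KK a b ^ n / cc a b ^ 2) q

variable {n n' : ℕ}

lemma P.mono (h : P a b x y u w W D n q) (hW : W ≤ W') (hD : D ≤ D') (hn : n ≤ n') :
    P a b x y u w W' D' n' q := by
  refine Rp.mono h hW hD ?_
  have := one_le_cc a b
  have := two_le_KK a b
  gcongr
  linarith

lemma P.add (h : P a b x y u w W D n q) (h' : P a b x y u w W' D' n' q') :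
    P a b x y u w (max W W') (max D D') (max n n' + 1) (q + q') := by
  refine (Rp.add (h.mono (le_max_left W W') (le_max_left D D') (le_max_left n n'))
    (h'.mono (le_max_right W W') (le_max_right D D') (le_max_right n n'))).mono le_rfl le_rfl ?_
  have := one_le_cc a b
  have := two_le_KK a b
  rw [← add_div, pow_succ (KK a b), ← mul_two]
  gcongr

lemma P.sub (h : P a b x y u w W D n q) (h' : P a b x y u w W' D' n' q') :
    P a b x y u w (max W W') (max D D') (max n n' + 1) (q - q') := by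
  rw [sub_eq_add_neg]
  exact h.add ((Rp.zmul h' (-1)).cast (by simp) (by simp))

lemma P.mul (hy : y ^ 2 = fc (a : Q) b x) (hw : w ^ 2 = fc (a : Q) b u)
    (h : P a b x y u w W D n q) (h' : P a b x y u w W' D' n' q') :
    P a b x y u w (W + W') (D + D') (n + n') (q * q') := by
  refine (Rp.mul hy hw h h').cast ?_ rfl
  have := one_le_cc a b
  field_simp
  ring

lemma P.term (z : ℤ) (hz : |(z : ℝ)| ≤ 20 * cc a b) (i e k f : ℕ) (he : e ≤ 1) (hf : f ≤ 1) :
    P a b x y u w (i + 2 * e) (k + 2 * f) 1 ((z : Q) * (u ^ k * w ^ f) * (x ^ i * y ^ e)) := by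
  refine ((Rp.cons z i e k f le_rfl he le_rfl hf (Rp.zero le_rfl)).mono le_rfl le_rfl ?_).cast rfl
    (add_zero _)
  have := one_le_cc a b
  rw [add_zero, pow_one, KK, le_div_iff₀ (by positivity)]
  calc _ ≤ 20 * cc a b * cc a b ^ 2 := by gcongr
    _ = _ := by ring

lemma P.int (z : ℤ) (hz : |(z : ℝ)| ≤ 20 * cc a b) : P a b x y u w 0 0 1 (z : Q) := by
  simpa using P.term (x := x) (y := y) (u := u) (w := w) z hz 0 0 0 0 zero_le_one zero_le_one

lemma P.nat (m : ℕ) (hm : m ≤ 20) : P a b x y u w 0 0 1 (m : Q) := by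
  have h1 : (m : ℝ) ≤ 20 := by exact_mod_cast hm
  have := one_le_cc a b
  simpa using P.int (x := x) (y := y) (u := u) (w := w) (a := a) (b := b) m
    (by rw [Int.cast_natCast, Nat.abs_cast]; linarith)

lemma P.pow (hy : y ^ 2 = fc (a : Q) b x) (hw : w ^ 2 = fc (a : Q) b u)
    (h : P a b x y u w W D n q) (m : ℕ) :
    P a b x y u w (m * W) (m * D) (m * n + 1) (q ^ m) := by
  induction m with
  | zero => simpa using P.nat (x := x) (y := y) (u := u) (w := w) (a := a) (b := b) 1 (by omega)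
  | succ m ih =>
    rw [pow_succ]
    exact (ih.mul hy hw h).mono (by rw [Nat.succ_mul]) (by rw [Nat.succ_mul])
      (by rw [Nat.succ_mul]; omega)

lemma main (hy : y ^ 2 = fc (a : Q) b x) (hw : w ^ 2 = fc (a : Q) b u) (d j : ℕ) (l : Bool)
    (t : TT d j) : P a b x y u w ((2 * d + 1) * 4 ^ j) (2 * d) ((60 * d + 4) * 4 ^ j)
      (arm (a : Q) b d j x y u w l t) := by
  have hc := one_le_cc a b
  have h1c : |((1 : ℤ) : ℝ)| ≤ 20 * cc a b := by simpa using by linarith
  have ha : P a b x y u w 0 0 1 (a : Q) := P.int a (by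
    unfold cc at *
    linarith [abs_nonneg (a : ℝ), abs_nonneg (b : ℝ)])
  have hb : P a b x y u w 0 0 1 (b : Q) := P.int b (by
    unfold cc at *
    linarith [abs_nonneg (a : ℝ), abs_nonneg (b : ℝ)])
  have h1 : P a b x y u w 0 0 1 (1 : Q) := by exact_mod_cast P.nat (Q := Q) 1 (by omega)
  have h2 : P a b x y u w 0 0 1 (2 : Q) := by exact_mod_cast P.nat (Q := Q) 2 (by omega)
  have h4 : P a b x y u w 0 0 1 (4 : Q) := by exact_mod_cast P.nat (Q := Q) 4 (by omega)
  have h5 : P a b x y u w 0 0 1 (5 : Q) := by exact_mod_cast P.nat (Q := Q) 5 (by omega)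
  have h8 : P a b x y u w 0 0 1 (8 : Q) := by exact_mod_cast P.nat (Q := Q) 8 (by omega)
  have h20 : P a b x y u w 0 0 1 (20 : Q) := by exact_mod_cast P.nat (Q := Q) 20 (by omega)
  have hx : P a b x y u w 1 0 1 x := by
    simpa using P.term (x := x) (y := y) (u := u) (w := w) 1 h1c 1 0 0 0 zero_le_one zero_le_one
  have hy' : P a b x y u w 2 0 1 y := by
    simpa using P.term (x := x) (y := y) (u := u) (w := w) 1 h1c 0 1 0 0 le_rfl zero_le_one
  have hu : P a b x y u w 0 1 1 u := by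
    simpa using P.term (x := x) (y := y) (u := u) (w := w) 1 h1c 0 0 1 0 zero_le_one zero_le_one
  have hw' : P a b x y u w 0 2 1 w := by
    simpa using P.term (x := x) (y := y) (u := u) (w := w) 1 h1c 0 0 0 1 zero_le_one le_rfl
  have hd : ∀ j, ∃ n, n + 10 = 20 * 4 ^ j ∧ P a b x y u w (4 ^ j) 0 n (dbl (a : Q) b x j).1 ∧
      P a b x y u w (4 ^ j) 0 n (dbl (a : Q) b x j).2.1 ∧
      P a b x y u w (2 * 4 ^ j) 0 (2 * n) ((dbl (a : Q) b x j).2.2 * y) := by
    intro j
    induction j with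
    | zero =>
      exact ⟨10, rfl, hx.mono le_rfl le_rfl (by omega), h1.mono (by omega) le_rfl (by omega),
        (h1.mul hy hw hy').mono le_rfl le_rfl (by omega)⟩
    | succ j ih =>
      obtain ⟨n, hn, hA, hB, hT⟩ := ih
      refine ⟨4 * n + 30, by omega, ?_⟩
      simp only [dbl, dstep]
      rw [pow_succ 4 j]
      generalize (dbl (a : Q) b x j).1 = A at *
      generalize (dbl (a : Q) b x j).2.1 = B at *
      generalize (dbl (a : Q) b x j).2.2 = T at *
      rw [mul_right_comm (2 * T), mul_assoc 2 T]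
      generalize T * y = Y at *
      refine ⟨?_, ?_, ?_⟩
      all_goals
        apply P.mono
        case h =>
          repeat' with_reducible first
            | assumption | apply P.sub | apply P.add | apply P.mul hy hw | apply P.pow hy hw
        all_goals omega
  obtain ⟨n, hn, hA, hB, hT⟩ := hd j
  have hl : P a b x y u w (2 * 4 ^ j) 2 (60 * 4 ^ j) (law (a : Q) b j x y u w l).1 ∧
      P a b x y u w (2 * 4 ^ j) 2 (60 * 4 ^ j) (law (a : Q) b j x y u w l).2 := by
    unfold law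
    have h0 : 0 < 4 ^ j := by positivity
    generalize dbl (a : Q) b x j = p at *
    obtain ⟨A, B, T⟩ := p
    cases l <;> simp only [lawp, mul_assoc 2 T] at * <;> generalize T * y = Y at * <;>
      refine ⟨?_, ?_⟩
    all_goals
      apply P.mono
      case h =>
        repeat' with_reducible first
          | assumption | apply P.sub | apply P.add | apply P.mul hy hw | apply P.pow hy hw
      all_goals omega
  obtain ⟨⟨t1, ht1⟩, ⟨t2, ht2⟩⟩ := t
  obtain ⟨s, rfl⟩ : ∃ s, d = t1 + s := ⟨d - t1, by omega⟩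
  refine (((hl.1.pow hy hw t1).mul hy hw (hl.2.pow hy hw (t1 + s - t1))).mul hy hw
    (hx.pow hy hw t2)).mono ?_ ?_ ?_
  all_goals
    rw [Nat.add_sub_cancel_left]
    nlinarith

end P1ArrAux

open P1ArrAux MvPolynomial in
theorem exists_arr (a b : ℤ) (d : ℕ) : ∃ C : ℝ, 1 ≤ C ∧ ∀ (j : ℕ) (l : Bool) (t : TT d j),
    ∃ r : MM (2 * d) → MM ((2 * d + 1) * 4 ^ j) → ℤ,
      (∀ ν μ, r ν μ ≠ 0 → (ν.1 : ℕ) + 2 * ν.2 ≤ 2 * d ∧ (μ.1 : ℕ) + 2 * μ.2 ≤ (2 * d + 1) * 4 ^ j) ∧
      ∑ ν, ∑ μ, |(r ν μ : ℝ)| ≤ C ^ 4 ^ j ∧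
      ∀ (R : Type) [CommRing R] (x y u w : R), y ^ 2 = fc (a : R) b x → w ^ 2 = fc (a : R) b u →
        arm (a : R) b d j x y u w l t = ∑ ν, ∑ μ, (r ν μ : R) * mon u w ν * mon x y μ := by
  let I : Ideal (MvPolynomial (Fin 4) ℤ) :=
    Ideal.span {X 1 ^ 2 - fc (a : MvPolynomial (Fin 4) ℤ) b (X 0),
      X 3 ^ 2 - fc (a : MvPolynomial (Fin 4) ℤ) b (X 2)}
  let π := Ideal.Quotient.mk I
  have hy : π (X 1) ^ 2 = fc (a : _ ⧸ I) b (π (X 0)) := by
    have := Ideal.Quotient.eq.2 (Ideal.subset_span (Set.mem_insert _ _) : _ ∈ I)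
    rwa [map_pow, map_fc, map_intCast, map_intCast] at this
  have hw : π (X 3) ^ 2 = fc (a : _ ⧸ I) b (π (X 2)) := by
    have := Ideal.Quotient.eq.2 (Ideal.subset_span (Set.mem_insert_of_mem _ rfl) : _ ∈ I)
    rwa [map_pow, map_fc, map_intCast, map_intCast] at this
  have hK : 1 ≤ KK a b := one_le_two.trans (two_le_KK a b)
  refine ⟨KK a b ^ (60 * d + 4), one_le_pow₀ hK, fun j l t => ?_⟩
  obtain ⟨r, r1, r2, r3⟩ := Rp.arr (main hy hw d j l t)
  refine ⟨r, r1, r2.trans ?_, fun R _ x y u w h h' => ?_⟩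
  · rw [pow_mul]
    exact div_le_self (by positivity) (one_le_pow₀ (one_le_cc a b))
  · let ψ : MvPolynomial (Fin 4) ℤ →+* R := eval₂Hom (Int.castRingHom R) ![x, y, u, w]
    have hψ : ∀ p ∈ I, ψ p = 0 := by
      refine fun p hp => (Ideal.span_le.2 ?_ : I ≤ RingHom.ker ψ) hp
      rintro _ (rfl | rfl)
      · change ψ _ = 0
        rw [map_sub, map_fc]
        simp [ψ, h]
      · change ψ _ = 0
        rw [map_sub, map_fc]
        simp [ψ, h']
    have := congrArg (Ideal.Quotient.lift I ψ hψ) r3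
    simpa [map_arm, mon, π, ψ] using this

end Pool.Agent.Lib.MP_651af7_nt.Vj.P1
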