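import Mathlib

/-! Sums of local functions over all places of a field with admissible absolute values. -/

namespace Pool.Agent.MP_651af7_nt.Final

open Height AdmissibleAbsValues Function

variable {K : Type*} [Field K] [AdmissibleAbsValues K]

/-- The sum of a local function over all places. -/
noncomputable def Gl (f : AbsoluteValue K ℝ → ℝ) : ℝ :=
  (archAbsVal.map f).sum + ∑ᶠ v : nonarchAbsVal (K := K), f v.val

/-- The local function vanishes at almost all nonarchimedean places. -/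
def FS (f : AbsoluteValue K ℝ → ℝ) : Prop :=
  (fun v : nonarchAbsVal (K := K) => f v.val).HasFiniteSupport

variable {f g : AbsoluteValue K ℝ → ℝ}

lemma FS.zero : FS (fun _ : AbsoluteValue K ℝ => (0 : ℝ)) := by
  simp [FS, HasFiniteSupport]

lemma FS.add (hf : FS f) (hg : FS g) : FS fun v => f v + g v := HasFiniteSupport.add hf hg

lemma FS.sub (hf : FS f) (hg : FS g) : FS fun v => f v - g v := HasFiniteSupport.sub hf hg

lemma FS.min (hf : FS f) (hg : FS g) : FS fun v => min (f v) (g v) := HasFiniteSupport.min hf hg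

lemma FS.const_mul (c : ℝ) (hf : FS f) : FS fun v => c * f v :=
  HasFiniteSupport.mul_right (fun _ => c) hf

lemma FS.sum {α : Type*} (s : Finset α) {F : α → AbsoluteValue K ℝ → ℝ}
    (h : ∀ a ∈ s, FS (F a)) : FS fun v => ∑ a ∈ s, F a v := by
  classical
  induction s using Finset.induction_on with
  | empty => simpa using FS.zero
  | insert a s ha ih =>
    simp only [Finset.sum_insert ha]
    exact (h a (Finset.mem_insert_self _ _)).add (ih fun b hb => h b (Finset.mem_insert_of_mem hb))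

lemma Gl_zero : Gl (fun _ : AbsoluteValue K ℝ => (0 : ℝ)) = 0 := by simp [Gl]

lemma Gl_add (hf : FS f) (hg : FS g) : Gl (fun v => f v + g v) = Gl f + Gl g := by
  simp only [Gl, Multiset.sum_map_add]
  rw [finsum_add_distrib hf hg]
  ring

lemma Gl_const_mul (c : ℝ) (f : AbsoluteValue K ℝ → ℝ) : Gl (fun v => c * f v) = c * Gl f := by
  simp only [Gl, Multiset.sum_map_mul_left, mul_add, mul_finsum]

lemma Gl_sub (hf : FS f) (hg : FS g) : Gl (fun v => f v - g v) = Gl f - Gl g := by
  have := Gl_add hf (hg.const_mul (-1))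
  rw [Gl_const_mul] at this
  simpa [sub_eq_add_neg] using this

lemma Gl_sum {α : Type*} (s : Finset α) {F : α → AbsoluteValue K ℝ → ℝ}
    (h : ∀ a ∈ s, FS (F a)) : Gl (fun v => ∑ a ∈ s, F a v) = ∑ a ∈ s, Gl (F a) := by
  classical
  induction s using Finset.induction_on with
  | empty => simpa using Gl_zero
  | insert a s ha ih =>
    have h' := fun b hb => h b (Finset.mem_insert_of_mem hb)
    simp only [Finset.sum_insert ha]
    rw [Gl_add (h a (Finset.mem_insert_self _ _)) (FS.sum s h'), ih h']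

lemma Gl_mono (hf : FS f) (hg : FS g) (h : ∀ v, f v ≤ g v) : Gl f ≤ Gl g :=
  add_le_add (Multiset.sum_map_le_sum_map _ _ fun v _ => h v)
    (finsum_le_finsum' hf hg fun v => h v.val)

/-- The logarithm of the absolute value. -/
noncomputable def la (x : K) (v : AbsoluteValue K ℝ) : ℝ := Real.log (v x)

/-- The positive part of the logarithm of the absolute value. -/
noncomputable def lp (x : K) (v : AbsoluteValue K ℝ) : ℝ := Real.log (max (v x) 1)

/-- The sup norm of a vector at a place. -/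
noncomputable def nm {ι : Type*} (x : ι → K) (v : AbsoluteValue K ℝ) : ℝ := ⨆ i, v (x i)

/-- The logarithm of the sup norm. -/
noncomputable def ln {ι : Type*} (x : ι → K) (v : AbsoluteValue K ℝ) : ℝ := Real.log (nm x v)

section norms

omit [AdmissibleAbsValues K]

variable {ι : Type*} [Finite ι]

lemma le_nm (x : ι → K) (v : AbsoluteValue K ℝ) (i : ι) : v (x i) ≤ nm x v :=
  Finite.le_ciSup_of_le i le_rfl

lemma nm_pos {x : ι → K} (hx : x ≠ 0) (v : AbsoluteValue K ℝ) : 0 < nm x v := by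
  obtain ⟨i, hi⟩ := Function.ne_iff.mp hx
  exact (v.pos hi).trans_le (le_nm x v i)

omit [Finite ι] in
lemma nm_le [Nonempty ι] {x : ι → K} {v : AbsoluteValue K ℝ} {M : ℝ} (h : ∀ i, v (x i) ≤ M) :
    nm x v ≤ M := ciSup_le h

lemma exists_nm_eq [Nonempty ι] (x : ι → K) (v : AbsoluteValue K ℝ) : ∃ i, v (x i) = nm x v :=
  exists_eq_ciSup_of_finite

lemma lp_nonneg (x : K) (v : AbsoluteValue K ℝ) : 0 ≤ lp x v :=
  Real.log_nonneg (le_max_right _ _)

lemma lp_zero (v : AbsoluteValue K ℝ) : lp (0 : K) v = 0 := by simp [lp]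

lemma lp_eq_ln (x : K) : lp x = ln ![x, 1] := by
  funext v
  simp only [lp, ln]
  congr 1
  refine le_antisymm (max_le (le_nm ![x, 1] v 0) ?_) (nm_le fun i => ?_)
  · simpa using le_nm ![x, 1] v 1
  · fin_cases i <;> simp

end norms

lemma FS_of_log {F : AbsoluteValue K ℝ → ℝ}
    (h : (fun v : nonarchAbsVal (K := K) => F v.val).HasFiniteMulSupport) :
    FS fun v => Real.log (F v) := by
  refine Set.Finite.subset h fun v hv => ?_
  intro h1
  exact hv (by simp only [] at h1; simp [h1])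

lemma FS_la {x : K} (hx : x ≠ 0) : FS (la x) := FS_of_log (hasFiniteMulSupport hx)

lemma FS_ln {ι : Type*} [Finite ι] {x : ι → K} (hx : x ≠ 0) : FS (ln x) := by
  refine FS_of_log ?_
  have : Nonempty {j // x j ≠ 0} := nonempty_subtype.mpr <| ne_iff.mp hx
  have h : (fun v : nonarchAbsVal (K := K) =>
      ⨆ i : {j // x j ≠ 0}, v.val (x i)).HasFiniteMulSupport :=
    HasFiniteMulSupport.iSup fun i : {j // x j ≠ 0} => hasFiniteMulSupport i.2
  convert h with v
  obtain ⟨i, hi⟩ : ∃ j, x j ≠ 0 := Function.ne_iff.mp hx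
  have : Nonempty ι := .intro i
  refine le_antisymm (nm_le fun j => ?_) (ciSup_le fun j => le_nm x _ j.1)
  rcases eq_or_ne (x j) 0 with h | h
  · rw [h, v.val.map_zero]
    exact Real.iSup_nonneg fun _ => v.val.nonneg _
  · exact Finite.le_ciSup_of_le (⟨j, h⟩ : {j // x j ≠ 0}) le_rfl

lemma FS_lp (x : K) : FS (lp x) := by
  rw [lp_eq_ln]
  exact FS_ln (by simp)

lemma Gl_log {F : AbsoluteValue K ℝ → ℝ} (h : ∀ v, 0 < F v) :
    Gl (fun v => Real.log (F v)) =
      Real.log ((archAbsVal.map F).prod * ∏ᶠ v : nonarchAbsVal (K := K), F v.val) := by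
  have h1 : ∀ a ∈ archAbsVal.map F, a ≠ 0 := by
    intro a ha
    obtain ⟨v, -, rfl⟩ := Multiset.mem_map.mp ha
    exact (h v).ne'
  have h2 : (archAbsVal.map F).prod ≠ 0 := Multiset.prod_ne_zero fun h0 => h1 0 h0 rfl
  have h3 : (∏ᶠ v : nonarchAbsVal (K := K), F v.val) ≠ 0 :=
    (finprod_induction (fun t : ℝ => 0 < t) one_pos (fun _ _ => mul_pos) fun v => h _).ne'
  rw [Real.log_mul h2 h3, Real.log_multiset_prod h1, Multiset.map_map,
    Real.log_finprod fun v => h _]
  rfl

lemma Gl_ln {ι : Type*} [Finite ι] {x : ι → K} (hx : x ≠ 0) : Gl (ln x) = logHeight x := by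
  rw [logHeight_eq_log_mulHeight, mulHeight_eq hx]
  exact Gl_log (nm_pos hx)

lemma Gl_lp (x : K) : Gl (lp x) = logHeight₁ x := by
  rw [lp_eq_ln, Gl_ln (by simp), logHeight₁_eq_logHeight]

lemma Gl_min_lp (x x' : K) : Gl (fun v => min (lp x v) (lp x' v)) =
    logHeight₁ x + logHeight₁ x' - logHeight ![x, x', 1] := by
  have h0 : (![x, x', 1] : Fin 3 → K) ≠ 0 := by simp
  rw [← Gl_lp, ← Gl_lp, ← Gl_ln h0, ← Gl_add (FS_lp x) (FS_lp x'),
    ← Gl_sub ((FS_lp x).add (FS_lp x')) (FS_ln h0)]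
  congr 1
  funext v
  have e : nm ![x, x', 1] v = max (max (v x) 1) (max (v x') 1) := by
    refine le_antisymm (nm_le fun i => ?_) ?_
    · fin_cases i <;> simp
    · have h1 : 1 ≤ nm ![x, x', 1] v := by simpa using le_nm ![x, x', 1] v 2
      exact max_le (max_le (le_nm ![x, x', 1] v 0) h1) (max_le (le_nm ![x, x', 1] v 1) h1)
  simp only [lp, ln, e]
  have p1 : (0 : ℝ) < max (v x) 1 := lt_max_of_lt_right one_pos
  have p2 : (0 : ℝ) < max (v x') 1 := lt_max_of_lt_right one_pos
  rcases le_total (max (v x) 1) (max (v x') 1) with h | h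
  · rw [max_eq_right h, min_eq_left (Real.log_le_log p1 h)]
    ring
  · rw [max_eq_left h, min_eq_right (Real.log_le_log p2 h)]
    ring

/-- A bound for a linear form with fixed coefficients, uniform over all places. -/
lemma exists_lin_bound {α : Type*} (s : Finset α) (a : α → K) :
    ∃ c : AbsoluteValue K ℝ → ℝ, FS c ∧ (∀ v, 0 ≤ c v) ∧
      ∀ (v : AbsoluteValue K ℝ) (z : α → K) (M : ℝ), 0 ≤ M → (∀ i ∈ s, v (z i) ≤ M) →
        v (∑ i ∈ s, a i * z i) ≤ Real.exp (c v) * M := by
  classical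
  let e : AbsoluteValue K ℝ → ℝ := fun v =>
    if IsNonarchimedean v then 0 else Real.log (s.card + 1)
  have e0 : ∀ v, 0 ≤ e v := fun v => by
    simp only [e]
    split_ifs
    · exact le_rfl
    · exact Real.log_nonneg (by simp)
  have eF : FS e := by
    have : (fun v : nonarchAbsVal (K := K) => e v.val) = fun _ => 0 := by
      funext v
      simp [e, isNonarchimedean v.val v.2]
    simp [FS, this, HasFiniteSupport]
  refine ⟨fun v => e v + ∑ i ∈ s, lp (a i) v, eF.add (FS.sum s fun i _ => FS_lp _),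
    fun v => add_nonneg (e0 v) (Finset.sum_nonneg fun i _ => lp_nonneg _ _), fun v z M hM h => ?_⟩
  set A := Real.exp (∑ i ∈ s, lp (a i) v) with hA
  have hA0 : 0 ≤ A := (Real.exp_pos _).le
  have h1 : ∀ i ∈ s, v (a i * z i) ≤ A * M := fun i hi => by
    rw [map_mul]
    refine mul_le_mul ?_ (h i hi) (v.nonneg _) hA0
    calc v (a i) ≤ max (v (a i)) 1 := le_max_left _ _
      _ = Real.exp (lp (a i) v) := (Real.exp_log (lt_max_of_lt_right one_pos)).symm
      _ ≤ A := Real.exp_le_exp.mpr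
        (Finset.single_le_sum (f := fun i => lp (a i) v) (fun i _ => lp_nonneg _ _) hi)
  rw [Real.exp_add, ← hA, mul_assoc]
  simp only [e]
  split_ifs with hv
  · rw [Real.exp_zero, one_mul]
    refine hv.apply_sum_le.trans ?_
    exact Real.iSup_le (fun i => h1 i.1 i.2) (mul_nonneg hA0 hM)
  · rw [Real.exp_log (by positivity)]
    calc v (∑ i ∈ s, a i * z i) ≤ ∑ i ∈ s, v (a i * z i) := v.sum_le _ _
      _ ≤ s.card • (A * M) := Finset.sum_le_card_nsmul _ _ _ h1
      _ ≤ (s.card + 1) * (A * M) := by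
        rw [nsmul_eq_mul]
        nlinarith [mul_nonneg hA0 hM]

/-- A bound for a polynomial, uniform over all places. -/
lemma exists_poly_bound {σ : Type*} (p : MvPolynomial σ K) :
    ∃ c : AbsoluteValue K ℝ → ℝ, FS c ∧ (∀ v, 0 ≤ c v) ∧
      ∀ (v : AbsoluteValue K ℝ) (x : σ → K) (M : ℝ), 0 ≤ M →
        (∀ m ∈ p.support, ∏ i ∈ m.support, v (x i) ^ m i ≤ M) →
        v (MvPolynomial.eval x p) ≤ Real.exp (c v) * M := by
  obtain ⟨c, h1, h2, h3⟩ := exists_lin_bound p.support fun m => p.coeff m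
  refine ⟨c, h1, h2, fun v x M hM h => ?_⟩
  rw [MvPolynomial.eval_eq]
  refine h3 v _ M hM fun m hm => ?_
  rw [map_prod]
  simpa only [map_pow] using h m hm

lemma exists_unif {α : Type*} [Fintype α] {P : α → AbsoluteValue K ℝ → ℝ → Prop}
    (mono : ∀ a v t t', t ≤ t' → P a v t → P a v t')
    (h : ∀ a, ∃ c : AbsoluteValue K ℝ → ℝ, FS c ∧ (∀ v, 0 ≤ c v) ∧ ∀ v, P a v (c v)) :
    ∃ c : AbsoluteValue K ℝ → ℝ, FS c ∧ (∀ v, 0 ≤ c v) ∧ ∀ a v, P a v (c v) := by
  choose c h1 h2 h3 using h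
  exact ⟨fun v => ∑ a, c a v, FS.sum _ fun a _ => h1 a,
    fun v => Finset.sum_nonneg fun a _ => h2 a v, fun a v => mono a v _ _
      (Finset.single_le_sum (f := fun a => c a v) (fun a _ => h2 a v) (Finset.mem_univ a)) (h3 a v)⟩

end Pool.Agent.MP_651af7_nt.Final
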