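import Mathlib
import Pool.Agent.Lib.MP_651af7_nt.FinGl
import Pool.Agent.Lib.MP_651af7_nt.MWHt

/-! Local estimates, uniform over all places. -/

namespace Pool.Agent.MP_651af7_nt.Final

open Height WeierstrassCurve WeierstrassCurve.Affine WeierstrassCurve.Affine.Point
open Pool.Agent.MP_651af7_nt.MW

variable {K : Type*} [Field K]

lemma max_pos' (t : ℝ) : 0 < max t 1 := lt_max_of_lt_right one_pos

lemma max_le_exp_mul {t c M : ℝ} (hc : 0 ≤ c) (hM : 1 ≤ M) (h : t ≤ Real.exp c * M) :
    max t 1 ≤ Real.exp c * M :=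
  max_le h (one_le_mul_of_one_le_of_one_le (Real.one_le_exp hc) hM)

lemma log_le_of_le_exp_mul {t c M : ℝ} (ht : 0 < t) (hM : 0 < M) (h : t ≤ Real.exp c * M) :
    Real.log t ≤ c + Real.log M := by
  have := Real.log_le_log ht h
  rwa [Real.log_mul (Real.exp_pos c).ne' hM.ne', Real.log_exp] at this

/-- The first coordinate, `0` at the origin. -/
def xo {W : WeierstrassCurve K} : W.toAffine.Point → K
  | .zero => 0
  | .some x _ _ => x

/-- The linear form vanishing at the first coordinate of `T`. -/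
noncomputable def ell {W : WeierstrassCurve K} (T : W.toAffine.Point) (x : K) : K :=
  x * T.xRep 1 - T.xRep 0

lemma monomial_le_of_homogeneous {σ : Type*} [Fintype σ] {p : MvPolynomial σ K} {n : ℕ}
    (hp : p.IsHomogeneous n) (v : AbsoluteValue K ℝ) (x : σ → K) :
    ∀ m ∈ p.support, ∏ i ∈ m.support, v (x i) ^ m i ≤ nm x v ^ n := by
  intro m hm
  have h := hp (MvPolynomial.mem_support_iff.mp hm)
  rw [← h, Finsupp.weight_apply, Finsupp.sum]
  simp only [Pi.one_apply, smul_eq_mul, mul_one]
  rw [← Finset.prod_pow_eq_pow_sum]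
  exact Finset.prod_le_prod (fun i _ => by positivity) fun i _ =>
    pow_le_pow_left₀ (v.nonneg _) (le_nm x v i) _

variable [AdmissibleAbsValues K]

lemma exists_lp_affine (s t : K) : ∃ c : AbsoluteValue K ℝ → ℝ, FS c ∧ (∀ v, 0 ≤ c v) ∧
    ∀ v x, lp (s * x + t) v ≤ c v + lp x v := by
  obtain ⟨c, h1, h2, h3⟩ := exists_lin_bound (Finset.univ : Finset (Fin 2)) ![s, t]
  refine ⟨c, h1, h2, fun v x => ?_⟩
  have := h3 v ![x, 1] (max (v x) 1) (max_pos' _).le fun i _ => by fin_cases i <;> simp
  simp only [Fin.sum_univ_two, Matrix.cons_val_zero, Matrix.cons_val_one, mul_one] at this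
  exact log_le_of_le_exp_mul (max_pos' _) (max_pos' _)
    (max_le_exp_mul (h2 v) (le_max_right _ _) this)

lemma exists_y_bound (W : WeierstrassCurve K) : ∃ c : AbsoluteValue K ℝ → ℝ, FS c ∧
    (∀ v, 0 ≤ c v) ∧ ∀ v x y, W.toAffine.Equation x y → ln ![x, y, 1] v ≤ c v + 2 * lp x v := by
  obtain ⟨c, h1, h2, h3⟩ := exists_lin_bound (Finset.univ : Finset (Fin 6))
    ![-W.a₁, -W.a₃, 1, W.a₂, W.a₄, W.a₆]
  refine ⟨c, h1, h2, fun v x y he => ?_⟩
  have he' := (W.toAffine.equation_iff x y).mp he
  set X := max (v x) 1 with hX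
  have X1 : 1 ≤ X := le_max_right _ _
  have xX : v x ≤ X := le_max_left _ _
  have x0 := v.nonneg x
  have y0 := v.nonneg y
  have E1 : 1 ≤ Real.exp (c v) := Real.one_le_exp (h2 v)
  have XX : X ≤ X ^ 2 := by nlinarith
  have hy : v y ≤ Real.exp (c v) * X ^ 2 := by
    rcases le_or_gt (v y) (X ^ 2) with h | h
    · exact h.trans (le_mul_of_one_le_left (by positivity) E1)
    · have y1 : 1 ≤ v y := by linarith
      have := h3 v ![x * y, y, x ^ 3, x ^ 2, x, 1] (X * v y) (by positivity) fun i _ => by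
        have q : v x ^ 2 ≤ v y := (pow_le_pow_left₀ x0 xX 2).trans h.le
        fin_cases i
        · simpa using mul_le_mul_of_nonneg_right xX y0
        · simpa using le_mul_of_one_le_left y0 X1
        · simp only [Fin.reduceFinMk, Matrix.cons_val, map_pow]
          rw [pow_succ']
          exact mul_le_mul xX q (by positivity) (by positivity)
        · simp only [Fin.reduceFinMk, Matrix.cons_val, map_pow]
          exact q.trans (le_mul_of_one_le_left y0 X1)
        · simp only [Fin.reduceFinMk, Matrix.cons_val]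
          exact xX.trans (le_mul_of_one_le_right (by positivity) y1)
        · simp only [Fin.reduceFinMk, Matrix.cons_val, map_one]
          exact one_le_mul_of_one_le_of_one_le X1 y1
      have e : ∑ i : Fin 6, (![-W.a₁, -W.a₃, 1, W.a₂, W.a₄, W.a₆] : Fin 6 → K) i *
          (![x * y, y, x ^ 3, x ^ 2, x, 1] : Fin 6 → K) i = y * y := by
        simp only [Fin.sum_univ_six, Matrix.cons_val]
        linear_combination -he'
      rw [e, map_mul, ← mul_assoc] at this
      have h4 := le_of_mul_le_mul_right this (by linarith)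
      exact h4.trans (mul_le_mul_of_nonneg_left XX (by positivity))
  have hn : nm ![x, y, 1] v ≤ Real.exp (c v) * X ^ 2 := nm_le fun i => by
    have : X ^ 2 ≤ Real.exp (c v) * X ^ 2 := le_mul_of_one_le_left (by positivity) E1
    fin_cases i
    · exact xX.trans (XX.trans this)
    · exact hy
    · simpa using X1.trans (XX.trans this)
  have := log_le_of_le_exp_mul (nm_pos (by simp) v) (by positivity) hn
  rwa [Real.log_pow] at this

variable [DecidableEq K] {W : WeierstrassCurve K} [W.IsElliptic]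

omit [AdmissibleAbsValues K] in
lemma addSubMap_of_ell (T : W.toAffine.Point) {x y : K} (h : W.toAffine.Nonsingular x y)
    (hl : ell T x ≠ 0) :
    (fun i => (addSubMap W i).eval (sym2x (some x y h) T)) =
      ell T x ^ 2 • ![xo (some x y h + T) * xo (some x y h - T),
        xo (some x y h + T) + xo (some x y h - T), 1] := by
  obtain ⟨c, hc, e⟩ := addSubMap_sym2x (some x y h) T
  have e2 : (addSubMap W 2).eval (sym2x (some x y h) T) = ell T x ^ 2 := by
    rcases T with _ | ⟨α, β, hT⟩
    · rw [← zero_def, sym2x_some_zero, congrFun (addSubMap_eval (W := W) x 1 0) 2]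
      simp [ell]
    · rw [sym2x_some_some, congrFun (addSubMap_eval (W := W) (x * α) (x + α) 1) 2]
      simp [ell]
      ring
  have e3 := (congrFun e 2).symm.trans e2
  rw [e]
  generalize some x y h + T = R at e3 ⊢
  generalize some x y h - T = R' at e3 ⊢
  rcases R with _ | ⟨u, w, hR⟩ <;> rcases R' with _ | ⟨u', w', hR'⟩
  · exact (pow_ne_zero 2 hl (by rw [← e3]; simp [← zero_def])).elim
  · exact (pow_ne_zero 2 hl (by rw [← e3]; simp [← zero_def])).elim
  · exact (pow_ne_zero 2 hl (by rw [← e3]; simp [← zero_def])).elim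
  · simp only [sym2x_some_some, Pi.smul_apply, Matrix.cons_val, smul_eq_mul, mul_one] at e3
    rw [sym2x_some_some, e3]
    rfl

lemma exists_trans_bound (T : W.toAffine.Point) : ∃ c : AbsoluteValue K ℝ → ℝ, FS c ∧
    (∀ v, 0 ≤ c v) ∧ ∀ v x y (h : W.toAffine.Nonsingular x y), ell T x ≠ 0 →
      2 * (lp x v - la (ell T x) v) ≤
        c v + lp (xo (some x y h + T)) v + lp (xo (some x y h - T)) v := by
  obtain ⟨c₁, f₁, n₁, h₁⟩ : ∃ c : AbsoluteValue K ℝ → ℝ, FS c ∧ (∀ v, 0 ≤ c v) ∧
      ∀ v x y (h : W.toAffine.Nonsingular x y),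
        max (v x) 1 ≤ Real.exp (c v) * nm (sym2x (some x y h) T) v := by
    rcases T with _ | ⟨α, β, hT⟩
    · refine ⟨fun _ => 0, FS.zero, fun _ => le_rfl, fun v x y h => ?_⟩
      rw [← zero_def, sym2x_some_zero, Real.exp_zero, one_mul]
      exact max_le (le_nm ![x, 1, 0] v 0) (by simpa using le_nm ![x, 1, 0] v 1)
    · obtain ⟨c, h1, h2, h3⟩ := exists_lin_bound (Finset.univ : Finset (Fin 3)) ![0, 1, -α]
      refine ⟨c, h1, h2, fun v x y h => ?_⟩
      rw [sym2x_some_some]
      have q : 1 ≤ nm ![x * α, x + α, 1] v := by simpa using le_nm ![x * α, x + α, 1] v 2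
      refine max_le_exp_mul (h2 v) q ?_
      have := h3 v ![x * α, x + α, 1] _ (zero_le_one.trans q) fun i _ => le_nm _ v i
      simpa [Fin.sum_univ_three] using this
  obtain ⟨c₂, f₂, n₂, h₂⟩ := exists_unif (α := Fin 3 × Fin 3) (K := K)
    (P := fun ij v t => ∀ w : Fin 3 → K,
      v ((MvPolynomial.C (↑W.Δ'⁻¹ : K) * addSubMapCoeff W ij).eval w) ≤ Real.exp t * nm w v ^ 2)
    (fun ij v t t' ht h w => (h w).trans
      (mul_le_mul_of_nonneg_right (Real.exp_le_exp.mpr ht) (by positivity)))
    fun ij => by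
      obtain ⟨c, h1, h2, h3⟩ :=
        exists_poly_bound (MvPolynomial.C (↑W.Δ'⁻¹ : K) * addSubMapCoeff W ij)
      exact ⟨c, h1, h2, fun v w => h3 v w _ (by positivity) (monomial_le_of_homogeneous
        ((isHomogeneous_addSubMapCoeff W ij).C_mul _) v w)⟩
  obtain ⟨c₃, f₃, n₃, h₃⟩ := exists_lin_bound (Finset.univ : Finset (Fin 3)) fun _ => (1 : K)
  refine ⟨fun v => 2 * c₁ v + c₂ v + 2 * c₃ v, ((f₁.const_mul 2).add f₂).add (f₃.const_mul 2),
    fun v => by linarith [n₁ v, n₂ v, n₃ v], fun v x y h hl => ?_⟩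
  have e := addSubMap_of_ell T h hl
  set u := xo (some x y h + T)
  set u' := xo (some x y h - T)
  set w := sym2x (some x y h) T with hw
  have w0 : 0 < nm w v := nm_pos (sym2x_ne_zero _ _) v
  have l0 : 0 < v (ell T x) := v.pos hl
  set M := max (v u) 1 * max (v u') 1 with hM
  have M1 : 1 ≤ M := one_le_mul_of_one_le_of_one_le (le_max_right _ _) (le_max_right _ _)
  have E3 : 1 ≤ Real.exp (c₃ v) := Real.one_le_exp (n₃ v)
  have s₁ : ∀ j, v ((addSubMap W j).eval w) ≤ v (ell T x) ^ 2 * (Real.exp (c₃ v) * M) := by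
    intro j
    rw [congrFun e j, Pi.smul_apply, smul_eq_mul, map_mul, map_pow]
    refine mul_le_mul_of_nonneg_left ?_ (by positivity)
    have q : M ≤ Real.exp (c₃ v) * M := le_mul_of_one_le_left (by positivity) E3
    fin_cases j
    · refine le_trans ?_ q
      simpa using mul_le_mul (le_max_left (v u) 1) (le_max_left (v u') 1) (v.nonneg _)
        (max_pos' _).le
    · have := h₃ v ![u, u', 0] M (by positivity) fun i _ => by
        fin_cases i
        · exact (le_max_left _ _).trans (le_mul_of_one_le_right (max_pos' _).le (le_max_right _ _))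
        · exact (le_max_left _ _).trans (le_mul_of_one_le_left (max_pos' _).le (le_max_right _ _))
        · simpa using zero_le_one.trans M1
      simpa [Fin.sum_univ_three] using this
    · simpa using M1.trans q
  obtain ⟨i, hi⟩ := exists_nm_eq w v
  have s₂ := h₃ v (fun j => (MvPolynomial.C (↑W.Δ'⁻¹ : K) * addSubMapCoeff W (i, j)).eval w *
    (addSubMap W j).eval w)
    (Real.exp (c₂ v) * nm w v ^ 2 * (v (ell T x) ^ 2 * (Real.exp (c₃ v) * M))) (by positivity)
    fun j _ => by
      rw [map_mul]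
      exact mul_le_mul (h₂ (i, j) v w) (s₁ j) (v.nonneg _) (by positivity)
  simp only [one_mul] at s₂
  rw [addSubMapCoeff_condition, map_pow, hi] at s₂
  have s₃ := Real.log_le_log (by positivity) s₂
  have s₄ := log_le_of_le_exp_mul (max_pos' _) w0 (h₁ v x y h)
  rw [Real.log_mul (by positivity) (by positivity), Real.log_mul (by positivity) (by positivity),
    Real.log_mul (by positivity) (by positivity), Real.log_mul (by positivity) (by positivity),
    Real.log_mul (by positivity) (by positivity), hM,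
    Real.log_mul (max_pos' _).ne' (max_pos' _).ne'] at s₃
  simp only [Real.log_exp, Real.log_pow] at s₃
  push_cast at s₃
  simp only [lp, la]
  linarith

end Pool.Agent.MP_651af7_nt.Final
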