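import Mathlib
import Pool.Agent.Lib.MP_651af7_nt.FinLoc

/-! Bihomogeneous forms and the local consequence of the Nullstellensatz. -/

namespace Pool.Agent.MP_651af7_nt.Final

open Height MvPolynomial

/-- The bidegree of the six variables. -/
def bw : Fin 3 ⊕ Fin 3 → ℕ × ℕ := Sum.elim (fun _ => (1, 0)) fun _ => (0, 1)

lemma weight_bw (m : Fin 3 ⊕ Fin 3 →₀ ℕ) :
    Finsupp.weight bw m = (∑ i, m (.inl i), ∑ i, m (.inr i)) := by
  rw [Finsupp.weight_apply, Finsupp.sum_fintype _ _ (by simp), Fintype.sum_sum_type]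
  simp [bw, Fin.sum_univ_three]

variable {K : Type*} [Field K]

lemma aeval_smul_bw {L : Type*} [Field L] [Algebra K L] {p : MvPolynomial (Fin 3 ⊕ Fin 3) K}
    {d d' : ℕ} (hp : p.IsWeightedHomogeneous bw (d, d')) (s t : L) (P Q : Fin 3 → L) :
    aeval (Sum.elim (s • P) (t • Q)) p = s ^ d * t ^ d' * aeval (Sum.elim P Q) p := by
  rw [aeval_def, aeval_def, eval₂_eq', eval₂_eq', Finset.mul_sum]
  refine Finset.sum_congr rfl fun m hm => ?_
  have h := hp (mem_support_iff.mp hm)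
  rw [weight_bw, Prod.mk.injEq] at h
  rw [← h.1, ← h.2]
  simp only [Fintype.prod_sum_type, Sum.elim_inl, Sum.elim_inr, Pi.smul_apply, smul_eq_mul,
    mul_pow, Finset.prod_mul_distrib, Finset.prod_pow_eq_pow_sum]
  ring

lemma monomial_le_bw {p : MvPolynomial (Fin 3 ⊕ Fin 3) K} {d d' : ℕ}
    (hp : p.IsWeightedHomogeneous bw (d, d')) (v : AbsoluteValue K ℝ) (P Q : Fin 3 → K) :
    ∀ m ∈ p.support, ∏ i ∈ m.support, v (Sum.elim P Q i) ^ m i ≤ nm P v ^ d * nm Q v ^ d' := by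
  intro m hm
  have h := hp (mem_support_iff.mp hm)
  rw [weight_bw, Prod.mk.injEq] at h
  have e : ∏ i ∈ m.support, v (Sum.elim P Q i) ^ m i = ∏ i, v (Sum.elim P Q i) ^ m i :=
    Finset.prod_subset (Finset.subset_univ _) fun i _ hi => by
      rw [Finsupp.notMem_support_iff.mp hi, pow_zero]
  rw [e, ← h.1, ← h.2, Fintype.prod_sum_type, ← Finset.prod_pow_eq_pow_sum,
    ← Finset.prod_pow_eq_pow_sum]
  refine mul_le_mul (Finset.prod_le_prod (fun i _ => by positivity) fun i _ =>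
    pow_le_pow_left₀ (v.nonneg _) (le_nm P v i) _) (Finset.prod_le_prod (fun i _ => by positivity)
    fun i _ => pow_le_pow_left₀ (v.nonneg _) (le_nm Q v i) _)
    (Finset.prod_nonneg fun i _ => by positivity)
    (Finset.prod_nonneg fun i _ => pow_nonneg ((v.nonneg _).trans (le_nm P v i)) _)

lemma exists_homog_comb {σ M ι : Type*} [AddCancelCommMonoid M] [Fintype ι] {w : σ → M}
    {g : ι → MvPolynomial σ K} {δ ε : ι → M} {n : M}
    (hg : ∀ j, (g j).IsWeightedHomogeneous w (δ j)) (hn : ∀ j, ε j + δ j = n)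
    {p : MvPolynomial σ K} (hp : p.IsWeightedHomogeneous w n)
    (hm : p ∈ Ideal.span (Set.range g)) :
    ∃ A : ι → MvPolynomial σ K, (∀ j, (A j).IsWeightedHomogeneous w (ε j)) ∧
      ∑ j, A j * g j = p := by
  classical
  let _ := weightedGradedAlgebra K w
  obtain ⟨c, hc⟩ := Ideal.mem_span_range_iff_exists_fun.mp hm
  refine ⟨fun j => weightedHomogeneousComponent w (ε j) (c j),
    fun j => weightedHomogeneousComponent_isWeightedHomogeneous _ _, ?_⟩
  rw [← hp.weightedHomogeneousComponent_same, ← hc, map_sum]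
  refine Finset.sum_congr rfl fun j _ => ?_
  have := DirectSum.coe_decompose_mul_add_of_right_mem (weightedHomogeneousSubmodule K w)
    (a := c j) (i := ε j) (hg j)
  rw [hn j] at this
  exact ((weightedDecomposition.decompose'_apply K w _ _).symm.trans
    (this.trans (congrArg (· * g j) (weightedDecomposition.decompose'_apply K w _ _)))).symm

/-- The homogeneous cubic of a Weierstrass curve in the variables `e 0, e 1, e 2`. -/
noncomputable def wp {σ : Type*} (W : WeierstrassCurve K) (e : Fin 3 → σ) : MvPolynomial σ K :=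
  C 1 * (X (e 1) * X (e 1) * X (e 2)) + C W.a₁ * (X (e 0) * X (e 1) * X (e 2)) +
    C W.a₃ * (X (e 1) * X (e 2) * X (e 2)) - (C 1 * (X (e 0) * X (e 0) * X (e 0)) +
    C W.a₂ * (X (e 0) * X (e 0) * X (e 2)) + C W.a₄ * (X (e 0) * X (e 2) * X (e 2)) +
    C W.a₆ * (X (e 2) * X (e 2) * X (e 2)))

lemma wp_homog {σ M : Type*} [AddCommMonoid M] {w : σ → M} (W : WeierstrassCurve K)
    {e : Fin 3 → σ} {u : M} (h : ∀ i, w (e i) = u) :
    (wp W e).IsWeightedHomogeneous w (u + u + u) := by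
  have hX : ∀ i, (X (e i) : MvPolynomial σ K).IsWeightedHomogeneous w u := fun i =>
    h i ▸ isWeightedHomogeneous_X K w (e i)
  have h3 : ∀ i j k (r : K), (C r * (X (e i) * X (e j) * X (e k))).IsWeightedHomogeneous w
      (u + u + u) := fun i j k r => (((hX i).mul (hX j)).mul (hX k)).C_mul r
  exact (((h3 _ _ _ _).add (h3 _ _ _ _)).add (h3 _ _ _ _)).sub
    ((((h3 _ _ _ _).add (h3 _ _ _ _)).add (h3 _ _ _ _)).add (h3 _ _ _ _))

variable [AdmissibleAbsValues K]

theorem local_null (Ω : Type*) [Field Ω] [IsAlgClosed Ω] [Algebra K Ω] (W W' : WeierstrassCurve K)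
    {ι : Type*} [Fintype ι] {G : ι → MvPolynomial (Fin 3 ⊕ Fin 3) K} {d d' : ℕ}
    (hG : ∀ j, (G j).IsWeightedHomogeneous bw (d, d')) {p : MvPolynomial (Fin 3 ⊕ Fin 3) K}
    {e e' : ℕ} (he : 1 ≤ e) (he' : 1 ≤ e') (hp : p.IsWeightedHomogeneous bw (e, e'))
    (hz : ∀ z : Fin 3 ⊕ Fin 3 → Ω, aeval z (wp W .inl) = 0 → aeval z (wp W' .inr) = 0 →
      (∀ j, aeval z (G j) = 0) → aeval z p = 0) :
    ∃ N₀ : ℕ, ∀ N, N₀ ≤ N → ∃ c : AbsoluteValue K ℝ → ℝ, FS c ∧ (∀ v, 0 ≤ c v) ∧
      ∀ P Q : Fin 3 → K, P ≠ 0 → Q ≠ 0 → eval (Sum.elim P Q) (wp W .inl) = 0 →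
        eval (Sum.elim P Q) (wp W' .inr) = 0 → eval (Sum.elim P Q) p ≠ 0 →
        (fun j => eval (Sum.elim P Q) (G j)) ≠ 0 ∧ ∀ v,
          d * ln P v + d' * ln Q v - ln (fun j => eval (Sum.elim P Q) (G j)) v ≤
            c v + N * (e * ln P v + e' * ln Q v - la (eval (Sum.elim P Q) p) v) := by
  let g : ι ⊕ Fin 2 → MvPolynomial (Fin 3 ⊕ Fin 3) K := Sum.elim G ![wp W .inl, wp W' .inr]
  let δ : ι ⊕ Fin 2 → ℕ × ℕ := Sum.elim (fun _ => (d, d')) ![(3, 0), (0, 3)]
  have hg : ∀ j, (g j).IsWeightedHomogeneous bw (δ j) := by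
    rintro (j | j)
    · exact hG j
    · fin_cases j
      · exact wp_homog (u := (1, 0)) W fun _ => rfl
      · exact wp_homog (u := (0, 1)) W' fun _ => rfl
  have hrad : p ∈ (Ideal.span (Set.range g)).radical := by
    rw [← vanishingIdeal_zeroLocus_eq_radical (K := Ω), mem_vanishingIdeal_iff, zeroLocus_span]
    intro z h
    exact hz z (h _ ⟨.inr 0, rfl⟩) (h _ ⟨.inr 1, rfl⟩) fun j => h _ ⟨.inl j, rfl⟩
  obtain ⟨n, hn⟩ := hrad
  refine ⟨n + d + d' + 3, fun N hN => ?_⟩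
  have hm : p ^ N ∈ Ideal.span (Set.range g) := Ideal.pow_mem_of_pow_mem _ hn (by omega)
  have l₁ : N ≤ N * e := Nat.le_mul_of_pos_right _ he
  have l₂ : N ≤ N * e' := Nat.le_mul_of_pos_right _ he'
  obtain ⟨A, hA, hs⟩ := exists_homog_comb (ε := fun j => (N * e - (δ j).1, N * e' - (δ j).2))
    (n := (N * e, N * e')) hg (fun j => by
      have : (δ j).1 ≤ N ∧ (δ j).2 ≤ N := by
        rcases j with j | j
        · exact ⟨show d ≤ N by omega, show d' ≤ N by omega⟩
        · fin_cases j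
          · exact ⟨show 3 ≤ N by omega, Nat.zero_le _⟩
          · exact ⟨Nat.zero_le _, show 3 ≤ N by omega⟩
      ext
      · show N * e - (δ j).1 + (δ j).1 = N * e
        omega
      · show N * e' - (δ j).2 + (δ j).2 = N * e'
        omega) (by simpa using hp.pow N) hm
  obtain ⟨c₁, f₁, n₁, h₁⟩ := exists_unif (α := ι) (K := K)
    (P := fun j v t => ∀ P Q : Fin 3 → K, v (eval (Sum.elim P Q) (A (.inl j))) ≤
      Real.exp t * (nm P v ^ (N * e - d) * nm Q v ^ (N * e' - d')))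
    (fun j v t t' ht h P Q => (h P Q).trans (mul_le_mul_of_nonneg_right (Real.exp_le_exp.mpr ht)
      (mul_nonneg (pow_nonneg ((v.nonneg _).trans (le_nm P v 0)) _)
        (pow_nonneg ((v.nonneg _).trans (le_nm Q v 0)) _))))
    fun j => by
      obtain ⟨c, h1, h2, h3⟩ := exists_poly_bound (A (.inl j))
      exact ⟨c, h1, h2, fun v P Q => h3 v _ _
        (mul_nonneg (pow_nonneg ((v.nonneg _).trans (le_nm P v 0)) _)
          (pow_nonneg ((v.nonneg _).trans (le_nm Q v 0)) _)) (monomial_le_bw (hA (.inl j)) v P Q)⟩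
  obtain ⟨c₂, f₂, n₂, h₂⟩ := exists_lin_bound (Finset.univ : Finset ι) fun _ => (1 : K)
  refine ⟨fun v => c₁ v + c₂ v, f₁.add f₂, fun v => add_nonneg (n₁ v) (n₂ v),
    fun P Q hP hQ w₁ w₂ p0 => ?_⟩
  have es := congrArg (eval (Sum.elim P Q)) hs
  simp only [map_add, map_sum, map_mul, map_pow, Fintype.sum_sum_type, Fin.sum_univ_two, g, Sum.elim_inl,
    Sum.elim_inr, Matrix.cons_val_zero, Matrix.cons_val_one, w₁, w₂, mul_zero, add_zero] at es
  have G0 : (fun j => eval (Sum.elim P Q) (G j)) ≠ 0 := fun h0 => pow_ne_zero N p0 (by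
    rw [← es]
    exact Finset.sum_eq_zero fun j _ => by rw [congrFun h0 j, Pi.zero_apply, mul_zero])
  refine ⟨G0, fun v => ?_⟩
  have a₁ := nm_pos hP v
  have a₂ := nm_pos hQ v
  have a₃ := nm_pos G0 v
  have a₄ := v.pos p0
  have s₁ := h₂ v (fun j => eval (Sum.elim P Q) (A (.inl j)) * eval (Sum.elim P Q) (G j))
    (Real.exp (c₁ v) * (nm P v ^ (N * e - d) * nm Q v ^ (N * e' - d')) *
      nm (fun j => eval (Sum.elim P Q) (G j)) v) (by positivity) fun j _ => by
      rw [map_mul]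
      exact mul_le_mul (h₁ j v P Q) (le_nm (fun j => eval (Sum.elim P Q) (G j)) v j)
        (v.nonneg _) (by positivity)
  simp only [one_mul] at s₁
  rw [es, map_pow] at s₁
  have s₂ := Real.log_le_log (by positivity) s₁
  rw [Real.log_mul (by positivity) (by positivity), Real.log_mul (by positivity) (by positivity),
    Real.log_mul (by positivity) (by positivity), Real.log_mul (by positivity) (by positivity)]
    at s₂
  simp only [Real.log_exp, Real.log_pow] at s₂
  rw [Nat.cast_sub (by omega), Nat.cast_sub (by omega)] at s₂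
  push_cast at s₂
  simp only [ln, la]
  linarith

end Pool.Agent.MP_651af7_nt.Final
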