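import Mathlib

/-! The core inequality: the generalized gcd of the first coordinates of two points. -/

namespace Pool.Agent.MP_651af7_nt.Final

open Height

/-- The core statement for short integral curves, points over a number field and the centre at
the origin. -/
def Core : Prop :=
  ∀ (K : Type) [Field K] [NumberField K] (a b a' b' : ℤ), 4 * a ^ 3 + 27 * b ^ 2 ≠ 0 →
    4 * a' ^ 3 + 27 * b' ^ 2 ≠ 0 → ∀ η : ℝ, 0 < η →
      ∃ Θ : MvPolynomial (Fin 2) K, Θ ≠ 0 ∧ ∃ C : ℝ, ∀ x y x' y' : K,
        y ^ 2 = x ^ 3 + a * x + b → y' ^ 2 = x' ^ 3 + a' * x' + b' →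
        MvPolynomial.eval ![x, x'] Θ ≠ 0 →
          logHeight₁ x + logHeight₁ x' - logHeight ![x, x', 1] ≤
            η * (logHeight₁ x + logHeight₁ x') + C

/-- Homogeneous coordinates of a point of a Weierstrass curve in the projective plane. -/
def pr {F : Type*} [Field F] {W : WeierstrassCurve F} : W.toAffine.Point → Fin 3 → F
  | .zero => ![0, 1, 0]
  | .some x y _ => ![x, y, 1]

end Pool.Agent.MP_651af7_nt.Final
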