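import Mathlib

/-! Subsets of the plane contained in a curve. -/

namespace Pool.Agent.MP_651af7_nt.Final

open MvPolynomial

variable {K : Type*} [Field K]

/-- The set lies on a plane curve. -/
def Thin (S : Set (K × K)) : Prop :=
  ∃ Θ : MvPolynomial (Fin 2) K, Θ ≠ 0 ∧ ∀ p ∈ S, eval ![p.1, p.2] Θ = 0

lemma Thin.mono {S S' : Set (K × K)} (h : Thin S) (h' : S' ⊆ S) : Thin S' := by
  obtain ⟨Θ, h0, h1⟩ := h
  exact ⟨Θ, h0, fun p hp => h1 p (h' hp)⟩

lemma thin_empty : Thin (∅ : Set (K × K)) := ⟨1, one_ne_zero, fun _ h => h.elim⟩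

lemma Thin.union {S S' : Set (K × K)} (h : Thin S) (h' : Thin S') : Thin (S ∪ S') := by
  obtain ⟨Θ, h0, h1⟩ := h
  obtain ⟨Θ', h0', h1'⟩ := h'
  refine ⟨Θ * Θ', mul_ne_zero h0 h0', ?_⟩
  rintro p (hp | hp)
  · rw [map_mul, h1 p hp, zero_mul]
  · rw [map_mul, h1' p hp, mul_zero]

lemma thin_iUnion {α : Type*} [Finite α] {S : α → Set (K × K)} (h : ∀ a, Thin (S a)) :
    Thin (⋃ a, S a) := by
  have := Fintype.ofFinite α
  choose Θ h0 h1 using h
  refine ⟨∏ a, Θ a, Finset.prod_ne_zero_iff.mpr fun a _ => h0 a, fun p hp => ?_⟩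
  obtain ⟨a, ha⟩ := Set.mem_iUnion.mp hp
  rw [map_prod]
  exact Finset.prod_eq_zero (Finset.mem_univ a) (h1 a p ha)

lemma Thin.swap {S : Set (K × K)} (h : Thin S) : Thin {p : K × K | (p.2, p.1) ∈ S} := by
  obtain ⟨Θ, h0, h1⟩ := h
  refine ⟨rename (Equiv.swap 0 1) Θ, fun h => h0 (rename_injective _ (Equiv.injective _)
    (h.trans (map_zero _).symm)), fun p hp => ?_⟩
  rw [eval_rename, ← h1 _ hp]
  congr 2
  funext i
  fin_cases i <;> rfl

lemma thin_lin {a b : K} (h : (![a, b] : Fin 2 → K) ≠ 0) : Thin {p : K × K | p.1 * b - a = 0} := by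
  refine ⟨X 0 * C b - C a, fun h0 => h ?_, fun p hp => by simpa using hp⟩
  have h1 := congrArg (eval ![0, 0]) h0
  have h2 := congrArg (eval ![1, 0]) h0
  simp only [map_sub, map_mul, eval_X, eval_C, map_zero, Matrix.cons_val_zero, zero_mul, zero_sub,
    neg_eq_zero, one_mul] at h1 h2
  rw [h1, sub_zero] at h2
  rw [h1, h2]
  ext i
  fin_cases i <;> rfl

/-- Thin sets are stable under a quadratic correspondence in the first coordinate. -/
lemma Thin.corr [Infinite K] {S : Set (K × K)} (h : Thin S) (c₀ c₁ c₂ : Polynomial K)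
    (h₂ : c₂ ≠ 0)
    (hρ : ∀ ρ : AlgebraicClosure K, c₂.map (algebraMap K _) * Polynomial.C (ρ ^ 2) +
      c₁.map (algebraMap K _) * Polynomial.C ρ + c₀.map (algebraMap K _) ≠ 0) :
    Thin {p : K × K | ∃ u, (u, p.2) ∈ S ∧
      c₂.eval p.1 * u ^ 2 + c₁.eval p.1 * u + c₀.eval p.1 = 0} := by
  classical
  obtain ⟨Θ, h0, h1⟩ := h
  let A := MvPolynomial (Fin 2) K
  let Θ₁ : Polynomial A := aeval ![Polynomial.X, Polynomial.C (X 1)] Θ
  let Φ : Polynomial A := Polynomial.C (Polynomial.aeval (X 0) c₂) * Polynomial.X ^ 2 +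
    Polynomial.C (Polynomial.aeval (X 0) c₁) * Polynomial.X +
    Polynomial.C (Polynomial.aeval (X 0) c₀)
  have dΦ : Φ.natDegree ≤ 2 := Polynomial.natDegree_quadratic_le
  have mΘ : ∀ {L : Type _} [Field L] [Algebra K L] (a b : L),
      Θ₁.map (aeval ![a, b] : A →ₐ[K] L).toRingHom =
        aeval ![Polynomial.X, Polynomial.C b] Θ := by
    intro L _ _ a b
    have : (Polynomial.mapAlgHom (aeval ![a, b] : A →ₐ[K] L)).comp
        (aeval ![Polynomial.X, Polynomial.C (X 1)]) = aeval ![Polynomial.X, Polynomial.C b] := by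
      ext i : 1
      fin_cases i <;> simp
    exact DFunLike.congr_fun this Θ
  have eΘ : ∀ {L : Type _} [Field L] [Algebra K L] (u b : L),
      (aeval ![Polynomial.X, Polynomial.C b] Θ : Polynomial L).eval u = aeval ![u, b] Θ := by
    intro L _ _ u b
    have : ((Polynomial.aeval u : Polynomial L →ₐ[L] L).restrictScalars K).comp
        (aeval ![Polynomial.X, Polynomial.C b]) = aeval ![u, b] := by
      ext i : 1
      fin_cases i <;> simp
    have := DFunLike.congr_fun this Θ
    simpa [Polynomial.coe_aeval_eq_eval] using this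
  have mΦ : ∀ {L : Type _} [Field L] [Algebra K L] (a b : L),
      Φ.map (aeval ![a, b] : A →ₐ[K] L).toRingHom =
        Polynomial.C (Polynomial.aeval a c₂) * Polynomial.X ^ 2 +
          Polynomial.C (Polynomial.aeval a c₁) * Polynomial.X +
          Polynomial.C (Polynomial.aeval a c₀) := by
    intro L _ _ a b
    have e : ∀ c : Polynomial K, (aeval ![a, b] : A →ₐ[K] L) (Polynomial.aeval (X 0) c) =
        Polynomial.aeval a c := fun c => by
      rw [← Polynomial.aeval_algHom_apply]
      simp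
    simp only [Φ, Polynomial.map_add, Polynomial.map_mul, Polynomial.map_pow, Polynomial.map_C,
      Polynomial.map_X, AlgHom.toRingHom_eq_coe, RingHom.coe_coe, e]
  refine ⟨Polynomial.resultant Θ₁ Φ Θ₁.natDegree 2, fun hN => ?_, ?_⟩
  · let L := AlgebraicClosure K
    obtain ⟨z, hz⟩ : ∃ z : Fin 2 → L, aeval z Θ ≠ 0 := by
      by_contra hc
      push Not at hc
      refine h0 (map_injective (algebraMap K L) (algebraMap K L).injective ?_)
      rw [map_zero]
      refine MvPolynomial.funext fun z => ?_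
      rw [map_zero, ← hc z, eval_map, aeval_def]
    set θ : Polynomial L := aeval ![Polynomial.X, Polynomial.C (z 1)] Θ with hθ
    have θ0 : θ ≠ 0 := fun h => hz (by
      have := eΘ (z 0) (z 1)
      rw [← hθ, h, Polynomial.eval_zero] at this
      rw [this]
      congr 2
      funext i
      fin_cases i <;> rfl)
    let q : L → Polynomial L := fun ρ => c₂.map (algebraMap K _) * Polynomial.C (ρ ^ 2) +
      c₁.map (algebraMap K _) * Polynomial.C ρ + c₀.map (algebraMap K _)
    have hQ : c₂.map (algebraMap K L) * (θ.roots.map q).prod ≠ 0 := by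
      refine mul_ne_zero ((Polynomial.map_ne_zero_iff (algebraMap K L).injective).mpr h₂)
        (Multiset.prod_ne_zero fun h => ?_)
      obtain ⟨ρ, -, h⟩ := Multiset.mem_map.mp h
      exact hρ ρ h
    obtain ⟨a, ha⟩ : ∃ a : L, (c₂.map (algebraMap K L) * (θ.roots.map q).prod).eval a ≠ 0 := by
      by_contra hc
      push Not at hc
      exact hQ (Polynomial.funext fun a => by rw [hc a, Polynomial.eval_zero])
    rw [Polynomial.eval_mul, Polynomial.eval_multiset_prod, Multiset.map_map,
      Polynomial.eval_map_algebraMap] at ha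
    have hm := Polynomial.resultant_map_map Θ₁ Φ Θ₁.natDegree 2
      (aeval ![a, z 1] : A →ₐ[K] L).toRingHom
    have hle : θ.natDegree ≤ Θ₁.natDegree := by
      rw [hθ, ← mΘ a]
      exact Polynomial.natDegree_map_le
    obtain ⟨j, hj⟩ := Nat.exists_eq_add_of_le hle
    rw [hN, map_zero, mΘ, ← hθ, mΦ, hj, Polynomial.resultant_add_left_deg _ _ _ _ _ le_rfl,
      Polynomial.resultant_eq_prod_eval _ _ _ Polynomial.natDegree_quadratic_le
        (IsAlgClosed.splits θ)] at hm
    refine mul_ne_zero (mul_ne_zero (pow_ne_zero _ (by norm_num)) (pow_ne_zero _ ?_))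
      (mul_ne_zero (pow_ne_zero _ (Polynomial.leadingCoeff_ne_zero.mpr θ0)) ?_) hm
    · simpa [Polynomial.coeff_X, Polynomial.coeff_C] using left_ne_zero_of_mul ha
    · refine fun h => right_ne_zero_of_mul ha ?_
      rw [← h]
      congr 1
      refine Multiset.map_congr rfl fun ρ _ => ?_
      simp [q, Polynomial.eval_map_algebraMap]
  · rintro p ⟨u, hu, hΦ⟩
    obtain ⟨s, t, -, -, hst⟩ := Polynomial.exists_mul_add_mul_eq_C_resultant Θ₁ Φ le_rfl dΦ
      (Or.inr two_ne_zero)
    have := congrArg (fun r : Polynomial A =>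
      (r.map (aeval ![p.1, p.2] : A →ₐ[K] K).toRingHom).eval u) hst
    simp only [Polynomial.map_add, Polynomial.map_mul, Polynomial.eval_add, Polynomial.eval_mul,
      Polynomial.map_C, Polynomial.eval_C] at this
    rw [mΘ, eΘ, mΦ] at this
    have e1 : aeval ![u, p.2] Θ = 0 := h1 (u, p.2) hu
    simp only [Polynomial.eval_add, Polynomial.eval_mul, Polynomial.eval_C, Polynomial.eval_pow,
      Polynomial.eval_X, Polynomial.coe_aeval_eq_eval, hΦ, e1, zero_mul, add_zero] at this
    exact this.symm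

/-- Descent of thinness to a subfield. -/
lemma Thin.descend {k : Type*} [Field k] [Algebra k K] {S : Set (K × K)} (h : Thin S) :
    Thin {p : k × k | (algebraMap k K p.1, algebraMap k K p.2) ∈ S} := by
  classical
  obtain ⟨Θ, h0, h1⟩ := h
  obtain ⟨m, hm⟩ := ne_zero_iff.mp h0
  obtain ⟨l, hl⟩ : ∃ l : Module.Dual k K, l (Θ.coeff m) ≠ 0 := by
    by_contra hc
    push Not at hc
    exact hm ((Module.forall_dual_apply_eq_zero_iff k _).mp hc)
  refine ⟨∑ n ∈ Θ.support, monomial n (l (Θ.coeff n)), fun h => hl ?_, fun p hp => ?_⟩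
  · have := congrArg (coeff m) h
    rw [coeff_sum, Finset.sum_eq_single m] at this
    · simpa using this
    · intro n _ hn
      simp [coeff_monomial, hn]
    · intro hn
      exact (hn (mem_support_iff.mpr hm)).elim
  · have := congrArg l (h1 _ hp)
    rw [eval_eq', map_sum, map_zero] at this
    rw [map_sum, ← this]
    refine Finset.sum_congr rfl fun n _ => ?_
    rw [eval_monomial, Finsupp.prod_fintype _ _ (by simp), mul_comm (Θ.coeff n)]
    have e : ∏ i, (![algebraMap k K p.1, algebraMap k K p.2] : Fin 2 → K) i ^ n i =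
        algebraMap k K (∏ i, (![p.1, p.2] : Fin 2 → k) i ^ n i) := by
      simp [Fin.prod_univ_two]
    rw [e, ← Algebra.smul_def, map_smul, smul_eq_mul, mul_comm]

end Pool.Agent.MP_651af7_nt.Final
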