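import Mathlib
import Pool.Agent.Lib.MP_651af7_nt.FinLoc
import Pool.Agent.Lib.MP_651af7_nt.FinThin

/-! From the centre at the origin to finitely many arbitrary centres. -/

namespace Pool.Agent.MP_651af7_nt.Final

open Height WeierstrassCurve WeierstrassCurve.Affine WeierstrassCurve.Affine.Point
open Pool.Agent.MP_651af7_nt.MW

lemma min_sum_le {α β : Type*} [Fintype α] [Fintype β] (f : α → ℝ) (g : β → ℝ)
    (hf : ∀ a, 0 ≤ f a) (hg : ∀ b, 0 ≤ g b) :
    min (∑ a, f a) (∑ b, g b) ≤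
      (Fintype.card α + Fintype.card β) * ∑ p : α × β, min (f p.1) (g p.2) := by
  have h0 : ∀ p : α × β, 0 ≤ min (f p.1) (g p.2) := fun p => le_min (hf _) (hg _)
  have h1 : 0 ≤ ∑ p : α × β, min (f p.1) (g p.2) := Finset.sum_nonneg fun p _ => h0 p
  rcases isEmpty_or_nonempty α with hα | hα
  · exact (min_le_left _ _).trans (by simp)
  rcases isEmpty_or_nonempty β with hβ | hβ
  · exact (min_le_right _ _).trans (by simp)
  obtain ⟨a, -, ha⟩ := Finset.exists_max_image Finset.univ f Finset.univ_nonempty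
  obtain ⟨b, -, hb⟩ := Finset.exists_max_image Finset.univ g Finset.univ_nonempty
  have s1 : ∑ a, f a ≤ Fintype.card α * f a := by
    simpa using Finset.sum_le_card_nsmul _ _ _ ha
  have s2 : ∑ b, g b ≤ Fintype.card β * g b := by
    simpa using Finset.sum_le_card_nsmul _ _ _ hb
  have s3 : min (f a) (g b) ≤ ∑ p : α × β, min (f p.1) (g p.2) :=
    Finset.single_le_sum (f := fun p : α × β => min (f p.1) (g p.2)) (fun p _ => h0 p)
      (Finset.mem_univ (a, b))
  have c1 : (0 : ℝ) ≤ Fintype.card α := Nat.cast_nonneg _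
  have c2 : (0 : ℝ) ≤ Fintype.card β := Nat.cast_nonneg _
  refine le_trans ?_ (mul_le_mul_of_nonneg_left s3 (add_nonneg c1 c2))
  rcases le_total (f a) (g b) with h | h
  · rw [min_eq_left h]
    exact (min_le_left _ _).trans (by nlinarith [hf a])
  · rw [min_eq_right h]
    exact (min_le_right _ _).trans (by nlinarith [hg b])

variable {K : Type*} [Field K] [NumberField K]

/-- The correspondence between `x (P)` and `x (P + T)`. -/
def Phi (W : WeierstrassCurve K) (t₀ t₁ x u : K) : K :=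
  (x * t₁ - t₀) ^ 2 * u ^ 2 - (2 * (x * t₁ + t₀) * (x * t₀) + W.b₂ * (x * t₀) * t₁ +
    W.b₄ * (x * t₁ + t₀) * t₁ + W.b₆ * t₁ ^ 2) * u +
    ((x * t₀) ^ 2 - W.b₄ * (x * t₀) * t₁ - W.b₆ * (x * t₁ + t₀) * t₁ - W.b₈ * t₁ ^ 2)

open Polynomial in
lemma Thin.phi {S : Set (K × K)} (h : Thin S) (W : WeierstrassCurve K) [W.IsElliptic] {t₀ t₁ : K}
    (ht : (![t₀, t₁] : Fin 2 → K) ≠ 0) :
    Thin {p : K × K | ∃ u, (u, p.2) ∈ S ∧ Phi W t₀ t₁ p.1 u = 0} := by
  have ht' : ¬(t₀ = 0 ∧ t₁ = 0) := by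
    rintro ⟨rfl, rfl⟩
    apply ht
    ext i
    fin_cases i <;> rfl
  refine (h.corr
    ((X * C t₀) ^ 2 - C W.b₄ * (X * C t₀) * C t₁ - C W.b₆ * (X * C t₁ + C t₀) * C t₁ -
      C W.b₈ * C t₁ ^ 2)
    (-(2 * (X * C t₁ + C t₀) * (X * C t₀) + C W.b₂ * (X * C t₀) * C t₁ +
      C W.b₄ * (X * C t₁ + C t₀) * C t₁ + C W.b₆ * C t₁ ^ 2))
    ((X * C t₁ - C t₀) ^ 2) (pow_ne_zero 2 fun h0 => ht' ?_) fun ρ h0 => ?_).mono ?_
  · have h1 := congrArg (eval 0) h0
    have h2 := congrArg (eval 1) h0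
    simp only [eval_sub, eval_mul, eval_X, eval_C, eval_zero] at h1 h2
    exact ⟨by linear_combination -h1, by linear_combination h2 - h1⟩
  · let f := algebraMap K (AlgebraicClosure K)
    have hne := addSubMap_ne_zero (W.map f) (x := ![ρ * f t₀, ρ * f t₁ + f t₀, f t₁]) (by
      intro h1
      have a₁ : ρ * f t₁ + f t₀ = 0 := congrFun h1 1
      have a₂ : f t₁ = 0 := congrFun h1 2
      rw [a₂, mul_zero, zero_add] at a₁
      exact ht' ⟨(map_eq_zero f).mp a₁, (map_eq_zero f).mp a₂⟩)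
    rw [addSubMap_eval, map_b₂, map_b₄, map_b₆, map_b₈] at hne
    have h1 := congrArg (eval 0) h0
    have h2 := congrArg (eval 1) h0
    have h3 := congrArg (eval (-1)) h0
    simp only [Polynomial.map_add, Polynomial.map_sub, Polynomial.map_mul, Polynomial.map_pow,
      Polynomial.map_neg, Polynomial.map_X, Polynomial.map_C, Polynomial.map_ofNat, eval_add,
      eval_sub, eval_mul, eval_pow, eval_neg, eval_X, eval_C, eval_zero, eval_ofNat] at h1 h2 h3
    apply hne
    ext i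
    fin_cases i
    · simp only [Fin.zero_eta, Matrix.cons_val_zero, Pi.zero_apply]
      linear_combination h1
    · simp only [Fin.mk_one, Matrix.cons_val_one, Matrix.cons_val_zero, Pi.zero_apply]
      linear_combination (h3 - h2) / 2
    · simp only [Fin.reduceFinMk, Matrix.cons_val, Pi.zero_apply]
      linear_combination (h2 + h3) / 2 - h1
  · rintro p ⟨u, hu, h0⟩
    refine ⟨u, hu, ?_⟩
    simp only [eval_add, eval_sub, eval_mul, eval_pow, eval_neg, eval_X, eval_C, eval_ofNat]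
    rw [← h0, Phi]
    ring

omit [NumberField K] in
lemma xRep_eta {W : WeierstrassCurve K} (T : W.toAffine.Point) :
    (![T.xRep 0, T.xRep 1] : Fin 2 → K) ≠ 0 := by
  convert T.xRep_ne_zero
  ext i
  fin_cases i <;> rfl

omit [NumberField K] in
lemma thin_ell {W : WeierstrassCurve K} (T : W.toAffine.Point) :
    Thin {p : K × K | ell T p.1 = 0} := thin_lin (xRep_eta T)

lemma logHeight_xo {W : WeierstrassCurve K} (R : W.toAffine.Point) : logHeight₁ (xo R) = hx R := by
  rcases R with _ | ⟨x, y, h⟩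
  · rw [← zero_def, hx_zero]
    exact logHeight₁_zero
  · rw [hx_some]
    rfl

/-- The inequality for the centre at the origin. -/
def GcdO (W W' : WeierstrassCurve K) : Prop :=
  ∀ η : ℝ, 0 < η → ∃ S : Set (K × K), Thin S ∧ ∃ C : ℝ, ∀ x y x' y' : K,
    W.toAffine.Equation x y → W'.toAffine.Equation x' y' → (x, x') ∉ S →
      Gl (fun v => min (lp x v) (lp x' v)) ≤ η * (logHeight₁ x + logHeight₁ x') + C

variable [DecidableEq K] {W W' : WeierstrassCurve K} [W.IsElliptic] [W'.IsElliptic]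

omit [NumberField K] in
lemma add_of_ell (T : W.toAffine.Point) {x y : K} (h : W.toAffine.Nonsingular x y)
    (hl : ell T x ≠ 0) : ∃ w, W.toAffine.Equation (xo (some x y h + T)) w ∧
      Phi W (T.xRep 0) (T.xRep 1) x (xo (some x y h + T)) = 0 := by
  have e := addSubMap_of_ell T h hl
  have e' : sym2x (some x y h) T = ![x * T.xRep 0, x * T.xRep 1 + T.xRep 0, T.xRep 1] := by
    rcases T with _ | ⟨α, β, hT⟩ <;> simp [← zero_def]
  rw [e', addSubMap_eval] at e
  have e0 := congrFun e 0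
  have e1 := congrFun e 1
  simp only [Matrix.cons_val_zero, Matrix.cons_val_one, Pi.smul_apply, smul_eq_mul, ell] at e0 e1
  have hne : some x y h + T ≠ 0 := fun h0 => hl (by
    rw [eq_neg_of_add_eq_zero_right h0, ell, xRep_neg]
    simp)
  have hΦ : Phi W (T.xRep 0) (T.xRep 1) x (xo (some x y h + T)) = 0 := by
    rw [Phi, e0, e1]
    ring
  generalize some x y h + T = R at hne hΦ
  rcases R with _ | ⟨u, w, hR⟩
  · exact (hne rfl).elim
  · exact ⟨w, hR.1, hΦ⟩

lemma exists_hx_add_le (T : W.toAffine.Point) :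
    ∃ C : ℝ, ∀ P : W.toAffine.Point, hx (P + T) ≤ 2 * hx P + C := by
  obtain ⟨C, hC⟩ := parallelogram_approx (W := W)
  refine ⟨C + 2 * hx T, fun P => ?_⟩
  linarith [(abs_le.mp (hC P T)).2, hx_nonneg (P - T)]

lemma GcdO.trans (H : GcdO W W') (T : W.toAffine.Point) (T' : W'.toAffine.Point) {η : ℝ}
    (hη : 0 < η) : ∃ S : Set (K × K), Thin S ∧ ∃ C : ℝ, ∀ x y (h : W.toAffine.Nonsingular x y)
      x' y' (h' : W'.toAffine.Nonsingular x' y'), (x, x') ∉ S →
      Gl (fun v => min (lp (xo (some x y h + T)) v) (lp (xo (some x' y' h' + T')) v)) ≤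
        η * (logHeight₁ x + logHeight₁ x') + C := by
  obtain ⟨S, hS, C, hC⟩ := H (η / 2) (half_pos hη)
  obtain ⟨C₁, h₁⟩ := exists_hx_add_le T
  obtain ⟨C₂, h₂⟩ := exists_hx_add_le T'
  refine ⟨_, (((hS.phi W (xRep_eta T)).swap.phi W' (xRep_eta T')).swap.union
    (thin_ell T)).union (thin_ell T').swap, η / 2 * (C₁ + C₂) + C, fun x y h x' y' h' hx => ?_⟩
  simp only [Set.mem_union, Set.mem_ofPred_eq, not_or] at hx
  obtain ⟨⟨n₁, n₂⟩, n₃⟩ := hx
  obtain ⟨w, e, p⟩ := add_of_ell T h n₂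
  obtain ⟨w', e', p'⟩ := add_of_ell T' h' n₃
  have := hC _ _ _ _ e e' fun hm => n₁ ⟨_, ⟨_, hm, p⟩, p'⟩
  have a₁ := h₁ (some x y h)
  have a₂ := h₂ (some x' y' h')
  rw [hx_some] at a₁ a₂
  rw [logHeight_xo, logHeight_xo] at this
  nlinarith

lemma exists_sum_bound {α : Type*} [Fintype α] (T : α → W.toAffine.Point) :
    ∃ c : AbsoluteValue K ℝ → ℝ, FS c ∧ (∀ v, 0 ≤ c v) ∧
      ∀ v x y (h : W.toAffine.Nonsingular x y), (∀ a, ell (T a) x ≠ 0) →
        ∑ a, (ln ![x, y, 1] v - la (ell (T a) x) v) ≤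
          c v + ∑ p : α × Fin 3, lp (xo (some x y h + ![0, T p.1, -T p.1] p.2)) v := by
  obtain ⟨c₀, f₀, n₀, h₀⟩ := exists_y_bound W
  choose c f n hc using fun a => exists_trans_bound (T a)
  refine ⟨fun v => ∑ a, (c₀ v + c a v), FS.sum _ fun a _ => f₀.add (f a),
    fun v => Finset.sum_nonneg fun a _ => add_nonneg (n₀ v) (n a v), fun v x y h hl => ?_⟩
  rw [Fintype.sum_prod_type, ← Finset.sum_add_distrib]
  refine Finset.sum_le_sum fun a _ => ?_
  have a₁ := h₀ v x y h.1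
  have a₂ := hc a v x y h (hl a)
  simp only [Fin.sum_univ_three, Matrix.cons_val, add_zero, ← sub_eq_add_neg]
  have e : xo (some x y h) = x := rfl
  rw [e]
  linarith [n a v, lp_nonneg (xo (some x y h + T a)) v, lp_nonneg (xo (some x y h - T a)) v]

theorem GcdO.key (H : GcdO W W') {α β : Type*} [Fintype α] [Fintype β]
    (T : α → W.toAffine.Point) (T' : β → W'.toAffine.Point) {η : ℝ} (hη : 0 < η) :
    ∃ S : Set (K × K), Thin S ∧ ∃ C : ℝ, ∀ x y x' y' : K, W.toAffine.Equation x y →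
      W'.toAffine.Equation x' y' → (x, x') ∉ S →
      (∀ a, ell (T a) x ≠ 0) ∧ (∀ b, ell (T' b) x' ≠ 0) ∧
      Gl (fun v => min (∑ a, (ln ![x, y, 1] v - la (ell (T a) x) v))
        (∑ b, (ln ![x', y', 1] v - la (ell (T' b) x') v))) ≤
        η * (logHeight₁ x + logHeight₁ x') + C := by
  obtain ⟨c, f, n, hc⟩ := exists_sum_bound T
  obtain ⟨c', f', n', hc'⟩ := exists_sum_bound T'
  set N : ℝ := Fintype.card (α × Fin 3) + Fintype.card (β × Fin 3) with hN
  set M : ℝ := ((Fintype.card ((α × Fin 3) × β × Fin 3) : ℕ) : ℝ) with hM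
  have N0 : 0 ≤ N := by positivity
  have M0 : 0 ≤ M := by positivity
  have η0 : 0 < η / (N * M + 1) := by positivity
  choose S hS C hC using fun p : (α × Fin 3) × β × Fin 3 =>
    H.trans (![0, T p.1.1, -T p.1.1] p.1.2) (![0, T' p.2.1, -T' p.2.1] p.2.2) η0
  refine ⟨_, ((thin_iUnion hS).union (thin_iUnion fun a => thin_ell (T a))).union
    (thin_iUnion fun b => (thin_ell (T' b)).swap), Gl c + Gl c' + N * ∑ p, C p,
    fun x y x' y' he he' hx => ?_⟩
  simp only [Set.mem_union, Set.mem_iUnion, Set.mem_ofPred_eq, not_or, not_exists] at hx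
  obtain ⟨⟨n₁, n₂⟩, n₃⟩ := hx
  refine ⟨n₂, n₃, ?_⟩
  have h : W.toAffine.Nonsingular x y := equation_iff_nonsingular.mp he
  have h' : W'.toAffine.Nonsingular x' y' := equation_iff_nonsingular.mp he'
  let g : (α × Fin 3) × β × Fin 3 → AbsoluteValue K ℝ → ℝ := fun p v =>
    min (lp (xo (some x y h + ![0, T p.1.1, -T p.1.1] p.1.2)) v)
      (lp (xo (some x' y' h' + ![0, T' p.2.1, -T' p.2.1] p.2.2)) v)
  have fg : ∀ p, FS (g p) := fun p => (FS_lp _).min (FS_lp _)
  have fs : FS fun v => ∑ p, g p v := FS.sum _ fun p _ => fg p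
  have m₁ := Gl_mono (f := fun v => min (∑ a, (ln ![x, y, 1] v - la (ell (T a) x) v))
        (∑ b, (ln ![x', y', 1] v - la (ell (T' b) x') v)))
      (g := fun v => c v + c' v + N * ∑ p, g p v)
    ((FS.sum _ fun a _ => (FS_ln (by simp)).sub (FS_la (n₂ a))).min
      (FS.sum _ fun b _ => (FS_ln (by simp)).sub (FS_la (n₃ b))))
    ((f.add f').add (fs.const_mul N)) fun v => by
      have a₁ := hc v x y h n₂
      have a₂ := hc' v x' y' h' n₃
      have a₃ := min_sum_le
        (fun p : α × Fin 3 => lp (xo (some x y h + ![0, T p.1, -T p.1] p.2)) v)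
        (fun p : β × Fin 3 => lp (xo (some x' y' h' + ![0, T' p.1, -T' p.1] p.2)) v)
        (fun _ => lp_nonneg _ _) fun _ => lp_nonneg _ _
      refine le_trans ?_ (add_le_add_right a₃ _)
      rcases le_total (∑ p : α × Fin 3, lp (xo (some x y h + ![0, T p.1, -T p.1] p.2)) v)
        (∑ p : β × Fin 3, lp (xo (some x' y' h' + ![0, T' p.1, -T' p.1] p.2)) v) with q | q
      · rw [min_eq_left q]
        exact (min_le_left _ _).trans (by linarith [n' v])
      · rw [min_eq_right q]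
        exact (min_le_right _ _).trans (by linarith [n v])
  rw [Gl_add (f.add f') (fs.const_mul N), Gl_add f f', Gl_const_mul,
    Gl_sum _ fun p _ => fg p] at m₁
  have m₂ : ∑ p, Gl (g p) ≤ ∑ p, (η / (N * M + 1) * (logHeight₁ x + logHeight₁ x') + C p) :=
    Finset.sum_le_sum fun p _ => hC p x y h x' y' h' (n₁ p)
  rw [Finset.sum_add_distrib, Finset.sum_const, Finset.card_univ, nsmul_eq_mul, ← hM] at m₂
  have H0 : 0 ≤ logHeight₁ x + logHeight₁ x' :=
    add_nonneg (zero_le_logHeight₁ _) (zero_le_logHeight₁ _)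
  have m₃ : N * M * (η / (N * M + 1)) ≤ η := by
    rw [← mul_div_assoc, div_le_iff₀ (by positivity)]
    nlinarith
  have m₄ := mul_le_mul_of_nonneg_right m₃ H0
  have m₅ := mul_le_mul_of_nonneg_left m₂ N0
  nlinarith

end Pool.Agent.MP_651af7_nt.Final
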