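import Mathlib
import Pool.Agent.Lib.MP_651af7_nt.FinDefs
import Pool.Agent.Lib.MP_651af7_nt.FinKey

/-! Reduction of a general Weierstrass model over the rationals to a short integral model. -/

namespace Pool.Agent.MP_651af7_nt.Final

open Height WeierstrassCurve

lemma exists_short (W : WeierstrassCurve ℚ) [W.IsElliptic] :
    ∃ (a b : ℤ) (u : ℚ), u ≠ 0 ∧ 4 * a ^ 3 + 27 * b ^ 2 ≠ 0 ∧
      (a : ℚ) = u ^ 4 * (-W.c₄ / 48) ∧ (b : ℚ) = u ^ 6 * (-W.c₆ / 864) := by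
  set A := -W.c₄ / 48 with hA
  set B := -W.c₆ / 864 with hB
  have dA : (A.den : ℚ) ≠ 0 := by exact_mod_cast A.den_nz
  have dB : (B.den : ℚ) ≠ 0 := by exact_mod_cast B.den_nz
  have e₁ : ((A.num * A.den ^ 3 * B.den ^ 4 : ℤ) : ℚ) = ((A.den : ℚ) * B.den) ^ 4 * A := by
    push_cast
    rw [← Rat.mul_den_eq_num A]
    ring
  have e₂ : ((B.num * A.den ^ 6 * B.den ^ 5 : ℤ) : ℚ) = ((A.den : ℚ) * B.den) ^ 6 * B := by
    push_cast
    rw [← Rat.mul_den_eq_num B]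
    ring
  refine ⟨_, _, (A.den : ℚ) * B.den, mul_ne_zero dA dB, fun h => ?_, e₁, e₂⟩
  have h' := congrArg (Int.cast : ℤ → ℚ) h
  rw [Int.cast_add, Int.cast_mul, Int.cast_mul 27, Int.cast_pow, Int.cast_pow, e₁, e₂] at h'
  have hc := W.c_relation
  have : ((A.den : ℚ) * B.den) ^ 12 * W.Δ = 0 := by
    push_cast at h'
    rw [hA, hB] at h'
    rw [hA, hB]
    linear_combination (-16) * h' + ((((-W.c₄ / 48).den : ℚ) * (-W.c₆ / 864).den) ^ 12 / 1728) * hc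
  exact mul_ne_zero (pow_ne_zero _ (mul_ne_zero dA dB)) W.isUnit_Δ.ne_zero this

variable {K : Type} [Field K] [NumberField K]

lemma exists_short_map (W : WeierstrassCurve ℚ) [W.IsElliptic] :
    ∃ (a b : ℤ) (s t : K), s ≠ 0 ∧ 4 * a ^ 3 + 27 * b ^ 2 ≠ 0 ∧ ∀ x y : K,
      (W.map (algebraMap ℚ K)).toAffine.Equation x y →
        ∃ w : K, w ^ 2 = (s * x + t) ^ 3 + a * (s * x + t) + b := by
  obtain ⟨a, b, u, hu, hD, ha, hb⟩ := exists_short W
  set V := W.map (algebraMap ℚ K) with hV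
  set z := algebraMap ℚ K u with hz
  have ha' : (a : K) = z ^ 4 * (-V.c₄ / 48) := by
    have := congrArg (algebraMap ℚ K) ha
    simpa [hV, hz] using this
  have hb' : (b : K) = z ^ 6 * (-V.c₆ / 864) := by
    have := congrArg (algebraMap ℚ K) hb
    simpa [hV, hz] using this
  refine ⟨a, b, z ^ 2, z ^ 2 * (V.b₂ / 12), pow_ne_zero _ ((map_ne_zero _).mpr hu), hD,
    fun x y he => ⟨z ^ 3 * (y + (V.a₁ * x + V.a₃) / 2), ?_⟩⟩
  have he' := (V.toAffine.equation_iff x y).mp he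
  rw [ha', hb']
  simp only [c₄, c₆, b₂, b₄, b₆]
  linear_combination z ^ 6 * he'

open Polynomial in
lemma Thin.affine {F : Type*} [Field F] [Infinite F] {S : Set (F × F)} (h : Thin S) {s : F}
    (hs : s ≠ 0) (t : F) : Thin {p : F × F | (s * p.1 + t, p.2) ∈ S} := by
  refine (h.corr ((C s * X + C t) ^ 2) (-(2 * (C s * X + C t))) 1 one_ne_zero
    fun ρ h0 => ?_).mono fun p hp => ⟨_, hp, by simp; ring⟩
  let f := algebraMap F (AlgebraicClosure F)
  have h1 := congrArg (eval 0) h0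
  have h2 := congrArg (eval 1) h0
  simp only [Polynomial.map_add, Polynomial.map_mul, Polynomial.map_pow, Polynomial.map_one,
    Polynomial.map_neg, Polynomial.map_X, Polynomial.map_C, Polynomial.map_ofNat, eval_add,
    eval_mul, eval_pow, eval_neg, eval_X, eval_C, eval_zero, eval_ofNat, eval_one] at h1 h2
  have a₁ : ρ - f t = 0 := pow_eq_zero_iff two_ne_zero |>.mp (by linear_combination h1)
  have a₂ : ρ - f t - f s = 0 := pow_eq_zero_iff two_ne_zero |>.mp (by linear_combination h2)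
  rw [a₁, zero_sub, neg_eq_zero] at a₂
  exact hs ((map_eq_zero f).mp a₂)

theorem gcdO_of_core (H : Core) (W W' : WeierstrassCurve ℚ) [W.IsElliptic] [W'.IsElliptic] :
    GcdO (W.map (algebraMap ℚ K)) (W'.map (algebraMap ℚ K)) := by
  intro η hη
  obtain ⟨a, b, s, t, hs, hD, h⟩ := exists_short_map (K := K) W
  obtain ⟨a', b', s', t', hs', hD', h'⟩ := exists_short_map (K := K) W'
  obtain ⟨Θ, hΘ, C, hC⟩ := H K a b a' b' hD hD' η hη
  have hS : Thin {p : K × K | MvPolynomial.eval ![p.1, p.2] Θ = 0} := ⟨Θ, hΘ, fun _ hp => hp⟩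
  obtain ⟨c₁, f₁, n₁, h₁⟩ := exists_lp_affine s t
  obtain ⟨c₂, f₂, n₂, h₂⟩ := exists_lp_affine s' t'
  obtain ⟨c₃, f₃, n₃, h₃⟩ := exists_lp_affine s⁻¹ (-(s⁻¹ * t))
  obtain ⟨c₄, f₄, n₄, h₄⟩ := exists_lp_affine s'⁻¹ (-(s'⁻¹ * t'))
  refine ⟨_, ((hS.affine hs t).swap.affine hs' t').swap,
    Gl c₃ + Gl c₄ + η * (Gl c₁ + Gl c₂) + C, fun x y x' y' he he' hx => ?_⟩
  obtain ⟨w, hw⟩ := h x y he
  obtain ⟨w', hw'⟩ := h' x' y' he'
  have a₀ := hC _ _ _ _ hw hw' hx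
  rw [← Gl_min_lp] at a₀
  have a₁ := Gl_mono (FS_lp _) (f₁.add (FS_lp x)) fun v => h₁ v x
  have a₂ := Gl_mono (FS_lp _) (f₂.add (FS_lp x')) fun v => h₂ v x'
  rw [Gl_add f₁ (FS_lp _), Gl_lp, Gl_lp] at a₁
  rw [Gl_add f₂ (FS_lp _), Gl_lp, Gl_lp] at a₂
  have a₃ := Gl_mono ((FS_lp x).min (FS_lp x'))
    ((f₃.add f₄).add ((FS_lp (s * x + t)).min (FS_lp (s' * x' + t')))) fun v => by
      have b₁ := h₃ v (s * x + t)
      have b₂ := h₄ v (s' * x' + t')
      rw [show s⁻¹ * (s * x + t) + -(s⁻¹ * t) = x by field_simp; ring] at b₁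
      rw [show s'⁻¹ * (s' * x' + t') + -(s'⁻¹ * t') = x' by field_simp; ring] at b₂
      rcases le_total (lp (s * x + t) v) (lp (s' * x' + t') v) with q | q
      · rw [min_eq_left q]
        exact (min_le_left _ _).trans (by linarith [n₄ v])
      · rw [min_eq_right q]
        exact (min_le_right _ _).trans (by linarith [n₃ v])
  rw [Gl_add (f₃.add f₄) ((FS_lp _).min (FS_lp _)), Gl_add f₃ f₄] at a₃
  nlinarith

end Pool.Agent.MP_651af7_nt.Final
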