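import Mathlib
import Pool.Agent.Lib.MP_651af7_nt.FinRed
import Pool.Agent.Lib.MP_651af7_nt.FinNull
import Pool.Agent.Lib.MP_651af7_nt.FinExt

/-! The height of an arbitrary finite subscheme of a product of two elliptic curves. -/

namespace Pool.Agent.MP_651af7_nt.Final

open Height MvPolynomial WeierstrassCurve WeierstrassCurve.Affine WeierstrassCurve.Affine.Point

section forms

variable {K : Type*} [Field K]

/-- The product of the linear forms attached to the points `T a`. -/
noncomputable def lf {σ α : Type*} [Fintype α] {W : WeierstrassCurve K}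
    (T : α → W.toAffine.Point) (e : Fin 3 → σ) : MvPolynomial σ K :=
  ∏ a, (C ((T a).xRep 1) * X (e 0) - C ((T a).xRep 0) * X (e 2))

lemma lf_homog {σ α M : Type*} [Fintype α] [AddCommMonoid M] {w : σ → M} {W : WeierstrassCurve K}
    (T : α → W.toAffine.Point) {e : Fin 3 → σ} {u : M} (h : ∀ i, w (e i) = u) :
    (lf T e).IsWeightedHomogeneous w (Fintype.card α • u) := by
  have hX : ∀ i, (X (e i) : MvPolynomial σ K).IsWeightedHomogeneous w u := fun i =>
    h i ▸ isWeightedHomogeneous_X K w (e i)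
  have := IsWeightedHomogeneous.prod Finset.univ
    (fun a => (C ((T a).xRep 1) * X (e 0) - C ((T a).xRep 0) * X (e 2) : MvPolynomial σ K))
    (fun _ => u) (w := w) fun a _ => ((hX 0).C_mul _).sub ((hX 2).C_mul _)
  rwa [Finset.sum_const, Finset.card_univ] at this

lemma eval_wp {σ : Type*} {W : WeierstrassCurve K} {e : Fin 3 → σ} {z : σ → K} {x y : K}
    (h : W.toAffine.Equation x y) (h0 : z (e 0) = x) (h1 : z (e 1) = y) (h2 : z (e 2) = 1) :
    eval z (wp W e) = 0 := by
  have he := (W.toAffine.equation_iff x y).mp h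
  simp only [wp, map_sub, map_add, map_mul, eval_C, eval_X, h0, h1, h2]
  linear_combination he

lemma exists_pr {Ω σ : Type*} [Field Ω] [Algebra K Ω] (W : WeierstrassCurve K) [W.IsElliptic]
    {e : Fin 3 → σ} {z : σ → Ω} (h : aeval z (wp W e) = 0) (h0 : (fun i => z (e i)) ≠ 0) :
    ∃ (s : Ω) (R : (W.map (algebraMap K Ω)).toAffine.Point), s ≠ 0 ∧
      (fun i => z (e i)) = s • pr R := by
  simp only [wp, map_sub, map_add, map_mul, aeval_C, aeval_X, map_one] at h
  by_cases h2 : z (e 2) = 0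
  · rw [h2] at h
    have h3 : z (e 0) = 0 := pow_eq_zero_iff three_ne_zero |>.mp (by linear_combination -h)
    refine ⟨z (e 1), 0, fun h1 => h0 ?_, ?_⟩
    · ext i
      fin_cases i <;> simp [h1, h2, h3]
    · ext i
      fin_cases i <;> simp [h2, h3, pr]
  · have he : (W.map (algebraMap K Ω)).toAffine.Equation (z (e 0) / z (e 2))
        (z (e 1) / z (e 2)) := by
      rw [Affine.equation_iff]
      simp only [map_a₁, map_a₂, map_a₃, map_a₄, map_a₆]
      field_simp
      linear_combination h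
    refine ⟨z (e 2), some _ _ (equation_iff_nonsingular.mp he), h2, ?_⟩
    ext i
    fin_cases i <;> simp [pr] <;> field_simp

end forms

variable {K : Type*} [Field K] [NumberField K] [DecidableEq K] {W W' : WeierstrassCurve K}
  [W.IsElliptic] [W'.IsElliptic]

theorem GcdO.subscheme (H : GcdO W W') (Ω : Type*) [Field Ω] [IsAlgClosed Ω] [Algebra K Ω]
    {ι α β : Type*} [Fintype ι] [Fintype α] [Fintype β] [Nonempty α] [Nonempty β]
    {G : ι → MvPolynomial (Fin 3 ⊕ Fin 3) K} {d d' : ℕ}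
    (hG : ∀ j, (G j).IsWeightedHomogeneous bw (d, d'))
    (T : α → W.toAffine.Point) (T' : β → W'.toAffine.Point)
    (hcov : ∀ z : Fin 3 ⊕ Fin 3 → Ω, (fun i => z (.inl i)) ≠ 0 → (fun i => z (.inr i)) ≠ 0 →
      aeval z (wp W .inl) = 0 → aeval z (wp W' .inr) = 0 → (∀ j, aeval z (G j) = 0) →
      aeval z (lf T .inl) = 0 ∧ aeval z (lf T' .inr) = 0) {η : ℝ} (hη : 0 < η) :
    ∃ S : Set (K × K), Thin S ∧ ∃ C : ℝ, ∀ x y x' y' : K, W.toAffine.Equation x y →
      W'.toAffine.Equation x' y' → (x, x') ∉ S →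
      (fun j => eval (Sum.elim ![x, y, 1] ![x', y', 1]) (G j)) ≠ 0 ∧
      d * logHeight ![x, y, 1] + d' * logHeight ![x', y', 1] -
        logHeight (fun j => eval (Sum.elim ![x, y, 1] ![x', y', 1]) (G j)) ≤
        η * (logHeight₁ x + logHeight₁ x') + C := by
  have z₁ : ∀ {V : WeierstrassCurve K} {γ : Type _} [Fintype γ] [Nonempty γ]
      (T : γ → V.toAffine.Point) (e : Fin 3 → Fin 3 ⊕ Fin 3) (z : Fin 3 ⊕ Fin 3 → Ω),
      (fun i => z (e i)) = 0 → aeval z (lf T e) = 0 := by
    intro V γ _ _ T e z h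
    rw [lf, map_prod]
    refine Finset.prod_eq_zero (Finset.mem_univ (Classical.arbitrary γ)) ?_
    have h0 : z (e 0) = 0 := congrFun h 0
    have h2 : z (e 2) = 0 := congrFun h 2
    simp [h0, h2]
  have z₂ : ∀ {V : WeierstrassCurve K} {γ : Type _} [Fintype γ] [Nonempty γ]
      (T : γ → V.toAffine.Point) (e : Fin 3 → Fin 3 ⊕ Fin 3) (z : Fin 3 ⊕ Fin 3 → Ω),
      (fun i => z (e i)) = 0 → aeval z (lf T e) = 0 := by
    intro V γ _ _ T e z h
    rw [lf, map_prod]
    refine Finset.prod_eq_zero (Finset.mem_univ (Classical.arbitrary γ)) ?_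
    have h0 : z (e 0) = 0 := congrFun h 0
    have h2 : z (e 2) = 0 := congrFun h 2
    simp [h0, h2]
  choose N₁ h₁ using fun k : Fin 3 => local_null Ω W W' hG (p := lf T .inl * X (.inr k))
    (e := Fintype.card α) (e' := 1) Fintype.card_pos le_rfl
    (by simpa [bw] using (lf_homog (w := bw) (u := (1, 0)) (e := .inl) T fun _ => rfl).mul
          (isWeightedHomogeneous_X K bw (.inr k)))
    fun z w₁ w₂ hz => by
      rw [map_mul, aeval_X]
      by_cases q₁ : (fun i => z (.inl i)) = 0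
      · rw [z₁ T _ z q₁, zero_mul]
      by_cases q₂ : (fun i => z (.inr i)) = 0
      · exact mul_eq_zero_of_right _ (congrFun q₂ k)
      · rw [(hcov z q₁ q₂ w₁ w₂ hz).1, zero_mul]
  choose N₂ h₂ using fun k : Fin 3 => local_null Ω W W' hG (p := lf T' .inr * X (.inl k))
    (e := 1) (e' := Fintype.card β) le_rfl Fintype.card_pos
    (by simpa [bw] using (lf_homog (w := bw) (u := (0, 1)) (e := .inr) T' fun _ => rfl).mul
          (isWeightedHomogeneous_X K bw (.inl k)))
    fun z w₁ w₂ hz => by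
      rw [map_mul, aeval_X]
      by_cases q₂ : (fun i => z (.inr i)) = 0
      · rw [z₂ T' _ z q₂, zero_mul]
      by_cases q₁ : (fun i => z (.inl i)) = 0
      · exact mul_eq_zero_of_right _ (congrFun q₁ k)
      · rw [(hcov z q₁ q₂ w₁ w₂ hz).2, zero_mul]
  set N := ∑ k, N₁ k + ∑ k, N₂ k with hN
  choose c₁ f₁ n₁ h₁ using fun k => h₁ k N
    ((Finset.single_le_sum (f := N₁) (fun _ _ => Nat.zero_le _) (Finset.mem_univ k)).trans
      (Nat.le_add_right _ _))
  choose c₂ f₂ n₂ h₂ using fun k => h₂ k N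
    ((Finset.single_le_sum (f := N₂) (fun _ _ => Nat.zero_le _) (Finset.mem_univ k)).trans
      (Nat.le_add_left _ _))
  have N0 : (0 : ℝ) ≤ N := Nat.cast_nonneg N
  obtain ⟨S, hS, C, hC⟩ := H.key T T' (η := η / (N + 1)) (by positivity)
  have fc : FS fun v => ∑ k, c₁ k v + ∑ k, c₂ k v :=
    (FS.sum _ fun k _ => f₁ k).add (FS.sum _ fun k _ => f₂ k)
  refine ⟨S, hS, Gl (fun v => ∑ k, c₁ k v + ∑ k, c₂ k v) + N * C,
    fun x y x' y' he he' hx => ?_⟩
  obtain ⟨l₁, l₂, hk⟩ := hC x y x' y' he he' hx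
  have P0 : (![x, y, 1] : Fin 3 → K) ≠ 0 := by simp
  have Q0 : (![x', y', 1] : Fin 3 → K) ≠ 0 := by simp
  have w₁ : eval (Sum.elim ![x, y, 1] ![x', y', 1]) (wp W .inl) = 0 := eval_wp he rfl rfl rfl
  have w₂ : eval (Sum.elim ![x, y, 1] ![x', y', 1]) (wp W' .inr) = 0 := eval_wp he' rfl rfl rfl
  have e₁ : eval (Sum.elim ![x, y, 1] ![x', y', 1]) (lf T .inl) = ∏ a, ell (T a) x := by
    rw [lf, map_prod]
    exact Finset.prod_congr rfl fun a _ => by simp [ell, mul_comm]
  have e₂ : eval (Sum.elim ![x, y, 1] ![x', y', 1]) (lf T' .inr) = ∏ b, ell (T' b) x' := by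
    rw [lf, map_prod]
    exact Finset.prod_congr rfl fun a _ => by simp [ell, mul_comm]
  have p₁ : (∏ a, ell (T a) x) ≠ 0 := Finset.prod_ne_zero_iff.mpr fun a _ => l₁ a
  have p₂ : (∏ b, ell (T' b) x') ≠ 0 := Finset.prod_ne_zero_iff.mpr fun b _ => l₂ b
  have G0 := (h₁ 2 _ _ P0 Q0 w₁ w₂ (by rw [map_mul, e₁]; simpa using p₁)).1
  refine ⟨G0, ?_⟩
  have fm : FS fun v => min (∑ a, (ln ![x, y, 1] v - la (ell (T a) x) v))
      (∑ b, (ln ![x', y', 1] v - la (ell (T' b) x') v)) :=
    (FS.sum _ fun a _ => (FS_ln P0).sub (FS_la (l₁ a))).min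
      (FS.sum _ fun b _ => (FS_ln Q0).sub (FS_la (l₂ b)))
  have m := Gl_mono ((((FS_ln P0).const_mul d).add ((FS_ln Q0).const_mul d')).sub (FS_ln G0))
    (fc.add (fm.const_mul N)) fun v => by
      have s₁ : 0 ≤ ∑ k, c₁ k v := Finset.sum_nonneg fun k _ => n₁ k v
      have s₂ : 0 ≤ ∑ k, c₂ k v := Finset.sum_nonneg fun k _ => n₂ k v
      rcases le_total (∑ a, (ln ![x, y, 1] v - la (ell (T a) x) v))
        (∑ b, (ln ![x', y', 1] v - la (ell (T' b) x') v)) with q | q
      · rw [min_eq_left q]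
        obtain ⟨k, hk⟩ := exists_nm_eq ![x', y', 1] v
        have k0 : v (![x', y', 1] k) ≠ 0 := hk ▸ (nm_pos Q0 v).ne'
        have k1 : ![x', y', 1] k ≠ 0 := fun h => k0 (by rw [h, _root_.map_zero])
        have b := (h₁ k _ _ P0 Q0 w₁ w₂ (by
          rw [map_mul, e₁, eval_X]
          exact mul_ne_zero p₁ k1)).2 v
        rw [map_mul, e₁, eval_X, Sum.elim_inr, la, map_mul, Real.log_mul (v.pos p₁).ne' k0, hk,
          map_prod, Real.log_prod fun a _ => (v.pos (l₁ a)).ne'] at b
        have b' : c₁ k v ≤ ∑ k, c₁ k v :=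
          Finset.single_le_sum (f := fun k => c₁ k v) (fun k _ => n₁ k v) (Finset.mem_univ k)
        rw [Finset.sum_sub_distrib, Finset.sum_const, Finset.card_univ, nsmul_eq_mul]
        simp only [ln, la] at b ⊢
        push_cast at b
        linarith
      · rw [min_eq_right q]
        obtain ⟨k, hk⟩ := exists_nm_eq ![x, y, 1] v
        have k0 : v (![x, y, 1] k) ≠ 0 := hk ▸ (nm_pos P0 v).ne'
        have k1 : ![x, y, 1] k ≠ 0 := fun h => k0 (by rw [h, _root_.map_zero])
        have b := (h₂ k _ _ P0 Q0 w₁ w₂ (by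
          rw [map_mul, e₂, eval_X]
          exact mul_ne_zero p₂ k1)).2 v
        rw [map_mul, e₂, eval_X, Sum.elim_inl, la, map_mul, Real.log_mul (v.pos p₂).ne' k0, hk,
          map_prod, Real.log_prod fun a _ => (v.pos (l₂ a)).ne'] at b
        have b' : c₂ k v ≤ ∑ k, c₂ k v :=
          Finset.single_le_sum (f := fun k => c₂ k v) (fun k _ => n₂ k v) (Finset.mem_univ k)
        rw [Finset.sum_sub_distrib, Finset.sum_const, Finset.card_univ, nsmul_eq_mul]
        simp only [ln, la] at b ⊢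
        push_cast at b
        linarith
  rw [Gl_sub (((FS_ln P0).const_mul d).add ((FS_ln Q0).const_mul d')) (FS_ln G0),
    Gl_add ((FS_ln P0).const_mul d) ((FS_ln Q0).const_mul d'), Gl_const_mul, Gl_const_mul,
    Gl_ln P0, Gl_ln Q0, Gl_ln G0, Gl_add fc (fm.const_mul N), Gl_const_mul] at m
  have H0 : 0 ≤ logHeight₁ x + logHeight₁ x' :=
    add_nonneg (zero_le_logHeight₁ _) (zero_le_logHeight₁ _)
  have m₃ : N * (η / (N + 1)) ≤ η := by
    rw [← mul_div_assoc, div_le_iff₀ (by positivity)]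
    nlinarith
  have m₄ := mul_le_mul_of_nonneg_right m₃ H0
  have m₅ := mul_le_mul_of_nonneg_left hk N0
  nlinarith

omit [NumberField K] [DecidableEq K] in
lemma exists_lift {k Ω : Type*} [Field k] [Field Ω] [Algebra k Ω] (V : WeierstrassCurve k)
    [V.IsElliptic] (L : IntermediateField k Ω) (R : (V.map (algebraMap k Ω)).toAffine.Point)
    (h : ∀ i, pr R i ∈ L) : ∃ T : (V.map (algebraMap k L)).toAffine.Point,
      algebraMap L Ω (T.xRep 1) * pr R 0 - algebraMap L Ω (T.xRep 0) * pr R 2 = 0 := by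
  rcases R with _ | ⟨x, y, hR⟩
  · exact ⟨0, by simp [pr]⟩
  · have he : (V.map (algebraMap k L)).toAffine.Equation ⟨x, h 0⟩ ⟨y, h 1⟩ := by
      have e : (V.map (algebraMap k L)).map (algebraMap L Ω) = V.map (algebraMap k Ω) := by
        rw [WeierstrassCurve.map_map, ← IsScalarTower.algebraMap_eq]
      refine (Affine.map_equation _ (algebraMap L Ω).injective _ _).mp ?_
      have := hR.1
      rw [← e] at this
      exact this
    exact ⟨some _ _ (equation_iff_nonsingular.mp he), by simp [pr]⟩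

theorem finite_subscheme {k : Type} [Field k] [NumberField k] (W W' : WeierstrassCurve k)
    [W.IsElliptic] [W'.IsElliptic]
    (H : ∀ (K : Type) [Field K] [NumberField K] [Algebra k K],
      GcdO (W.map (algebraMap k K)) (W'.map (algebraMap k K)))
    {ι : Type*} [Fintype ι] {G : ι → MvPolynomial (Fin 3 ⊕ Fin 3) k} {d d' : ℕ}
    (hG : ∀ j, (G j).IsWeightedHomogeneous bw (d, d'))
    (hfin : {R : (W.map (algebraMap k (AlgebraicClosure k))).toAffine.Point ×
        (W'.map (algebraMap k (AlgebraicClosure k))).toAffine.Point |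
      ∀ j, aeval (Sum.elim (pr R.1) (pr R.2)) (G j) = 0}.Finite) {η : ℝ} (hη : 0 < η) :
    ∃ Θ : MvPolynomial (Fin 2) k, Θ ≠ 0 ∧ ∃ C : ℝ, ∀ x y x' y' : k, W.toAffine.Equation x y →
      W'.toAffine.Equation x' y' → eval ![x, x'] Θ ≠ 0 →
      (fun j => eval (Sum.elim ![x, y, 1] ![x', y', 1]) (G j)) ≠ 0 ∧
      d * logHeight ![x, y, 1] + d' * logHeight ![x', y', 1] -
        logHeight (fun j => eval (Sum.elim ![x, y, 1] ![x', y', 1]) (G j)) ≤
        η * (logHeight₁ x + logHeight₁ x') + C := by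
  classical
  set Ω := AlgebraicClosure k
  set Y := hfin.toFinset with hY
  let Z : Set Ω := Set.range fun p : Y × (Fin 3 ⊕ Fin 3) =>
    Sum.elim (pr p.1.1.1) (pr p.1.1.2) p.2
  have : Finite Z := Set.finite_range _
  let L := IntermediateField.adjoin k Z
  have : FiniteDimensional k L :=
    IntermediateField.finiteDimensional_adjoin fun x _ => Algebra.IsIntegral.isIntegral x
  have : NumberField L := NumberField.of_module_finite k L
  choose T hT using fun R : Y => exists_lift W L R.1.1 fun i =>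
    IntermediateField.subset_adjoin k Z ⟨(R, .inl i), rfl⟩
  choose T' hT' using fun R : Y => exists_lift W' L R.1.2 fun i =>
    IntermediateField.subset_adjoin k Z ⟨(R, .inr i), rfl⟩
  have wm : ∀ (V : WeierstrassCurve k) (e : Fin 3 → Fin 3 ⊕ Fin 3),
      wp (V.map (algebraMap k L)) e = MvPolynomial.map (algebraMap k L) (wp V e) := by
    intro V e
    simp [wp]
  obtain ⟨S, hS, C, hC⟩ := (H L).subscheme Ω (α := Option Y) (β := Option Y)
    (G := fun j => MvPolynomial.map (algebraMap k L) (G j)) (d := d) (d' := d')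
    (fun j m hm => hG j fun h0 => hm (by rw [coeff_map, h0, _root_.map_zero]))
    (fun o => o.elim 0 T) (fun o => o.elim 0 T') (η := η) (fun z q₁ q₂ w₁ w₂ hz => by
      rw [wm, aeval_map_algebraMap] at w₁ w₂
      obtain ⟨s, R, hs, e⟩ := exists_pr W w₁ q₁
      obtain ⟨s', R', hs', e'⟩ := exists_pr W' w₂ q₂
      have ez : z = Sum.elim (s • pr R) (s' • pr R') := by
        rw [← e, ← e']
        funext i
        cases i <;> rfl
      have hm : (R, R') ∈ Y := hfin.mem_toFinset.mpr fun j => by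
        have := hz j
        rw [aeval_map_algebraMap, ez, aeval_smul_bw (hG j)] at this
        exact (mul_eq_zero.mp this).resolve_left
          (mul_ne_zero (pow_ne_zero _ hs) (pow_ne_zero _ hs'))
      constructor
      · rw [lf, map_prod]
        refine Finset.prod_eq_zero (Finset.mem_univ (Option.some ⟨_, hm⟩)) ?_
        have := hT ⟨_, hm⟩
        simp only [ez, map_sub, map_mul, aeval_C, aeval_X, Option.elim_some, Sum.elim_inl,
          Pi.smul_apply, smul_eq_mul]
        linear_combination s * this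
      · rw [lf, map_prod]
        refine Finset.prod_eq_zero (Finset.mem_univ (Option.some ⟨_, hm⟩)) ?_
        have := hT' ⟨_, hm⟩
        simp only [ez, map_sub, map_mul, aeval_C, aeval_X, Option.elim_some, Sum.elim_inr,
          Pi.smul_apply, smul_eq_mul]
        linear_combination s' * this) hη
  obtain ⟨Θ, hΘ, hZ⟩ := hS.descend (k := k)
  have n0 : (0 : ℝ) < Module.finrank k L := by exact_mod_cast Module.finrank_pos
  refine ⟨Θ, hΘ, C / Module.finrank k L, fun x y x' y' he he' hx => ?_⟩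
  obtain ⟨g0, hi⟩ := hC _ _ _ _ (he.map (algebraMap k L)) (he'.map (algebraMap k L))
    fun hm => hx (hZ (x, x') hm)
  have v₁ : ∀ a b : k, (![algebraMap k L a, algebraMap k L b, 1] : Fin 3 → L) =
      fun i => algebraMap k L (![a, b, 1] i) := fun a b => by
    funext i
    fin_cases i <;> simp
  have v₂ : ∀ a : k, logHeight₁ (algebraMap k L a) = Module.finrank k L * logHeight₁ a :=
    fun a => by
      rw [logHeight₁_eq_logHeight, logHeight₁_eq_logHeight, ← logHeight_algebraMap]
      congr 1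
      funext i
      fin_cases i <;> simp
  have v₃ : (fun j => eval (Sum.elim ![algebraMap k L x, algebraMap k L y, 1]
      ![algebraMap k L x', algebraMap k L y', 1]) (MvPolynomial.map (algebraMap k L) (G j))) =
      fun j => algebraMap k L (eval (Sum.elim ![x, y, 1] ![x', y', 1]) (G j)) := by
    funext j
    rw [map_eval, v₁, v₁]
    congr 2
    funext i
    cases i <;> rfl
  rw [v₃] at g0 hi
  refine ⟨fun h0 => g0 (funext fun j => by rw [congrFun h0 j]; simp), ?_⟩
  rw [v₁, v₁, logHeight_algebraMap, logHeight_algebraMap, logHeight_algebraMap, v₂, v₂] at hi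
  refine le_of_mul_le_mul_left ?_ n0
  rw [mul_add _ _ (C / _), mul_div_cancel₀ _ n0.ne']
  linarith

/-- The final statement, from the core inequality. -/
theorem final (H : Core) (W W' : WeierstrassCurve ℚ) [W.IsElliptic] [W'.IsElliptic]
    (k : Type) [Field k] [NumberField k]
    {ι : Type*} [Fintype ι] (G : ι → MvPolynomial (Fin 3 ⊕ Fin 3) k) (d d' : ℕ)
    (hG : ∀ j, (G j).IsWeightedHomogeneous bw (d, d'))
    (hfin : {R : (W.map (algebraMap ℚ (AlgebraicClosure k))).toAffine.Point ×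
        (W'.map (algebraMap ℚ (AlgebraicClosure k))).toAffine.Point |
      ∀ j, aeval (Sum.elim (pr R.1) (pr R.2)) (G j) = 0}.Finite) (ε : ℝ) (hε : 0 < ε) :
    ∃ Θ : MvPolynomial (Fin 2) k, Θ ≠ 0 ∧ ∃ C : ℝ, ∀ x y x' y' : k,
      (W.map (algebraMap ℚ k)).toAffine.Equation x y →
      (W'.map (algebraMap ℚ k)).toAffine.Equation x' y' → eval ![x, x'] Θ ≠ 0 →
      (fun j => eval (Sum.elim ![x, y, 1] ![x', y', 1]) (G j)) ≠ 0 ∧
      d * logHeight ![x, y, 1] + d' * logHeight ![x', y', 1] -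
        logHeight (fun j => eval (Sum.elim ![x, y, 1] ![x', y', 1]) (G j)) ≤
        ε * (logHeight₁ x + logHeight₁ x') + C := by
  have mm : ∀ (V : WeierstrassCurve ℚ) (K : Type) [Field K] [CharZero K] [Algebra k K]
      (f : ℚ →+* K), (V.map (algebraMap ℚ k)).map (algebraMap k K) = V.map f := by
    intro V K _ _ _ f
    rw [WeierstrassCurve.map_map, RingHom.ext_rat ((algebraMap k K).comp (algebraMap ℚ k)) f]
  refine finite_subscheme _ _ (fun K _ _ _ => ?_) hG ?_ hε
  · rw [mm W K (algebraMap ℚ K), mm W' K (algebraMap ℚ K)]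
    exact gcdO_of_core H W W'
  · rw [mm W _ (algebraMap ℚ _), mm W' _ (algebraMap ℚ _)]
    exact hfin

end Pool.Agent.MP_651af7_nt.Final
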