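import Pool.Agent.Lib.MP_651af7_nt.VjIface
import Pool.Agent.Lib.MP_651af7_nt.FinMain

/-! The core statement from the inequality for points of short curves. -/

namespace Pool.Agent.MP_651af7_nt.Final

open Pool.Agent.Lib.MP_e97e2b_nt Pool.Agent.Lib.MP_651af7_nt.Iv Pool.Agent.Lib.MP_651af7_nt.Vj
open Height

theorem core_of_main
    (H : ∀ (K : Type) [Field K] [NumberField K] (a b a' b' : ℤ), 4 * a ^ 3 + 27 * b ^ 2 ≠ 0 →
      4 * a' ^ 3 + 27 * b' ^ 2 ≠ 0 → ∀ η : ℝ, 0 < η →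
      ∃ (F : MvPolynomial (Fin 2) K) (C : ℝ), F ≠ 0 ∧
        ∀ X : Pt (a : K) (b : K) × Pt (a' : K) (b' : K),
          MvPolynomial.aeval ![xc X.1, xc X.2] F ≠ 0 → gg (xc X.1) (xc X.2) ≤ η * HH X + C) :
    Core := by
  intro K _ _ a b a' b' hD hD' η hη
  obtain ⟨F, C, hF, h⟩ := H K a b a' b' hD hD' η hη
  refine ⟨F, hF, C, fun x y x' y' he he' hx => ?_⟩
  have n₁ : NS (a : K) b x y := ns_of_eq two_ne_zero (by exact_mod_cast hD) he
  have n₂ : NS (a' : K) b' x' y' := ns_of_eq two_ne_zero (by exact_mod_cast hD') he'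
  have := h (pt x y n₁, pt x' y' n₂) hx
  have e : logHeight (![x, x', 1] : Fin 3 → K) = logHeight ![1, x, x'] := by
    rw [← logHeight_comp_equiv (finRotate 3) ![1, x, x']]
    congr 1
    funext i
    fin_cases i <;> rfl
  rw [e]
  exact this

end Pool.Agent.MP_651af7_nt.Final
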