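import Pool.Agent.Lib.MP_651af7_nt.VjCells

/-! Assembly of the inequality for short curves from the two phases. -/

namespace Pool.Agent.Lib.MP_651af7_nt.Vj

open Pool.Agent.Lib.MP_e97e2b_nt Pool.Agent.Lib.MP_651af7_nt.Iv Pool.Agent.Lib.Common.Subspace Height

variable {K : Type} [Field K] [NumberField K] {A B A' B' : K}

lemma Close.mono {θ θ' : ℝ} (h : θ ≤ θ') {j : ℕ} {X Y : Pt A B × Pt A' B'} (hc : Close θ j X Y) :
    Close θ' j X Y :=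
  ⟨hc.1.trans (mul_le_mul_of_nonneg_right h (HH_nonneg Y)), hc.2⟩

lemma gg_le_HH (X : Pt A B × Pt A' B') : gg (xc X.1) (xc X.2) ≤ HH X :=
  sub_le_self _ (logHeight_nonneg _)

lemma exists_chain {α : Type*} (h : α → ℝ) (h0 : ∀ x, 0 ≤ h x) (S : Set α)
    (hS : ∀ t, ∃ x ∈ S, t ≤ h x) (H L : ℝ) (hL : 1 ≤ L) :
    ∃ s : ℕ → α, (∀ i, s i ∈ S) ∧ (∀ i, H ≤ h (s i)) ∧ ∀ i i', i < i' → L * h (s i) ≤ h (s i') := by
  choose f hf₁ hf₂ using hS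
  let s : ℕ → α := fun n => Nat.rec (f H) (fun _ x => f (L * h x)) n
  have step : ∀ i, L * h (s i) ≤ h (s (i + 1)) := fun i => hf₂ _
  have mono : Monotone fun i => h (s i) := monotone_nat_of_le_succ fun i =>
    (le_mul_of_one_le_left (h0 _) hL).trans (step i)
  refine ⟨s, fun i => ?_, fun i => (hf₂ H).trans (mono (Nat.zero_le i)),
    fun i i' hi => (step i).trans (mono hi)⟩
  cases i <;> exact hf₁ _

theorem main_of_phases (hD : 4 * A ^ 3 + 27 * B ^ 2 ≠ 0) (hD' : 4 * A' ^ 3 + 27 * B' ^ 2 ≠ 0)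
    (η : ℝ) (hη : 0 < η)
    (h₁ : ∃ (m D : ℕ) (θ lam : ℝ), 0 < θ ∧ ∀ ε : ℝ, 0 < ε → ∃ H₀ : ℝ,
      ∀ (X : Fin m → Pt A B × Pt A' B') (Y : Pt A B × Pt A' B') (j : Fin m → ℕ),
        (∀ i, H₀ ≤ HH (X i)) → (∀ i i', i < i' → lam * HH (X i) ≤ HH (X i')) →
        (∀ i, lam * HH (X i) ≤ HH Y) → (∀ i, Bad η (X i)) → Bad η Y →
        (∀ i, Close θ (j i) (X i) Y) → (∃ i, Special D ε (X i)) ∨ Special D ε Y)
    (h₂ : ∀ D : ℕ, ∃ (ε θ H₀ : ℝ), 0 < ε ∧ 0 < θ ∧ ∀ X : Pt A B × Pt A' B',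
      H₀ ≤ HH X → Bad η X → Special D ε X →
      ∃ (Θ : MvPolynomial (Fin 2) K) (H₁ : ℝ), Θ ≠ 0 ∧
        ∀ (Y : Pt A B × Pt A' B') (j : ℕ), H₁ ≤ HH Y → Bad η Y →
          Special D ε Y → Close θ j X Y → MvPolynomial.aeval ![xc Y.1, xc Y.2] Θ = 0) :
    ∃ (F : MvPolynomial (Fin 2) K) (C : ℝ), F ≠ 0 ∧ ∀ X : Pt A B × Pt A' B',
      MvPolynomial.aeval ![xc X.1, xc X.2] F ≠ 0 → gg (xc X.1) (xc X.2) ≤ η * HH X + C := by
  obtain ⟨m, D, θ₁, lam, hθ₁, h₁⟩ := h₁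
  obtain ⟨ε, θ₂, H₂, hε, hθ₂, h₂⟩ := h₂ D
  obtain ⟨H₁, h₁⟩ := h₁ ε hε
  obtain ⟨n, cell, H₀, hc⟩ := cells hD hD' (min θ₁ θ₂) (lt_min hθ₁ hθ₂)
  have c₁ : ∀ c, ∃ t : ℝ, ∀ Y, cell Y = c → Bad η Y → ¬Special D ε Y → HH Y < t := by
    intro c
    by_contra hcon
    push Not at hcon
    obtain ⟨s, s₁, s₂, s₃⟩ := exists_chain HH HH_nonneg
      {Y | cell Y = c ∧ Bad η Y ∧ ¬Special D ε Y}
      (fun t => by
        obtain ⟨Y, a₁, a₂, a₃, a₄⟩ := hcon t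
        exact ⟨Y, ⟨a₁, a₂, a₃⟩, a₄⟩) (max H₀ H₁) (max lam 8)
      (le_max_of_le_right (by norm_num))
    have l₁ : ∀ i i', i < i' → lam * HH (s i) ≤ HH (s i') := fun i i' hi =>
      (mul_le_mul_of_nonneg_right (le_max_left _ _) (HH_nonneg _)).trans (s₃ i i' hi)
    have l₂ : ∀ i : Fin m, ∃ j, Close (min θ₁ θ₂) j (s i) (s m) := fun i =>
      hc _ _ ((s₁ i).1.trans (s₁ m).1.symm) ((le_max_left _ _).trans (s₂ i))
        ((mul_le_mul_of_nonneg_right (le_max_right _ _) (HH_nonneg _)).trans (s₃ i m i.2))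
    choose j hj using l₂
    rcases h₁ (fun i => s i) (s m) j (fun i => (le_max_right _ _).trans (s₂ i))
      (fun i i' hi => l₁ i i' hi) (fun i => l₁ i m i.2) (fun i => (s₁ i).2.1) (s₁ m).2.1
      (fun i => (hj i).mono (min_le_left _ _)) with ⟨i, hi⟩ | hi
    · exact (s₁ i).2.2 hi
    · exact (s₁ m).2.2 hi
  have c₂ : ∀ c, ∃ (Θ : MvPolynomial (Fin 2) K) (t : ℝ), Θ ≠ 0 ∧ ∀ Y, cell Y = c → Bad η Y →
      Special D ε Y → MvPolynomial.aeval ![xc Y.1, xc Y.2] Θ ≠ 0 → HH Y < t := by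
    intro c
    by_cases hX : ∃ X, cell X = c ∧ Bad η X ∧ Special D ε X ∧ max H₀ H₂ ≤ HH X
    · obtain ⟨X, a₁, a₂, a₃, a₄⟩ := hX
      obtain ⟨Θ, H₃, hΘ, h₃⟩ := h₂ X ((le_max_right _ _).trans a₄) a₂ a₃
      refine ⟨Θ, max H₃ (8 * HH X), hΘ, fun Y b₁ b₂ b₃ b₄ => ?_⟩
      by_contra hY
      push Not at hY
      obtain ⟨j, hj⟩ := hc X Y (a₁.trans b₁.symm) ((le_max_left _ _).trans a₄)
        ((le_max_right _ _).trans hY)
      exact b₄ (h₃ Y j ((le_max_left _ _).trans hY) b₂ b₃ (hj.mono (min_le_right _ _)))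
    · push Not at hX
      exact ⟨1, max H₀ H₂, one_ne_zero, fun Y b₁ b₂ b₃ _ => hX Y b₁ b₂ b₃⟩
  choose t₁ ht₁ using c₁
  choose Θ t₂ hΘ ht₂ using c₂
  refine ⟨∏ c, Θ c, ∑ c, (|t₁ c| + |t₂ c|), Finset.prod_ne_zero_iff.mpr fun c _ => hΘ c,
    fun X hX => ?_⟩
  have p : |t₁ (cell X)| + |t₂ (cell X)| ≤ ∑ c, (|t₁ c| + |t₂ c|) :=
    Finset.single_le_sum (f := fun c => |t₁ c| + |t₂ c|) (fun c _ => by positivity)
      (Finset.mem_univ _)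
  have q₁ := abs_nonneg (t₁ (cell X))
  have q₂ := abs_nonneg (t₂ (cell X))
  by_cases hb : Bad η X
  · have r := gg_le_HH X
    have r' := mul_nonneg hη.le (HH_nonneg X)
    by_cases hs : Special D ε X
    · rw [map_prod] at hX
      have := ht₂ _ X rfl hb hs (Finset.prod_ne_zero_iff.mp hX _ (Finset.mem_univ _))
      linarith [le_abs_self (t₂ (cell X))]
    · have := ht₁ _ X rfl hb hs
      linarith [le_abs_self (t₁ (cell X))]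
  · have : gg (xc X.1) (xc X.2) < η * HH X := not_le.mp hb
    linarith

end Pool.Agent.Lib.MP_651af7_nt.Vj
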