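import Pool.Agent.Lib.MP_651af7_nt.P1Core

/-! Phase 1: among well spaced, nearly proportional bad points one lies on a small curve. -/

namespace Pool.Agent.Lib.MP_651af7_nt.Vj.P1

open Finset Height Pool.Agent.Lib.MP_e97e2b_nt Pool.Agent.Lib.MP_651af7_nt.Iv
  Pool.Agent.Lib.Common.Subspace

variable {K : Type} [Field K] [NumberField K]

lemma ht_zero {A B : K} : ht (0 : Pt A B) = 0 := logHeight₁_zero

lemma nondeg {A B : K} {C : ℝ}
    (hC : ∀ P Q : Pt A B, |ht (P + Q) + ht (P - Q) - 2 * (ht P + ht Q)| ≤ C) {P : Pt A B}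
    (h : C < ht P) : P ≠ 0 ∧ yc P ≠ 0 := by
  have h0 : 0 ≤ C := (abs_nonneg _).trans (hC 0 0)
  have h1 : P ≠ 0 := by
    rintro rfl
    rw [ht_zero] at h
    linarith
  refine ⟨h1, fun hy => ?_⟩
  obtain ⟨h', e⟩ := pt_spec h1
  have h2 : P + P = 0 := by
    rw [e]
    exact add_neg_case h' h' rfl (by rw [hy, neg_zero])
  have h3 := (abs_le.1 (hC P P)).1
  rw [h2, sub_self, ht_zero] at h3
  linarith

lemma nondeg₂ {A B : K} {C : ℝ}
    (hC : ∀ P Q : Pt A B, |ht (P + Q) + ht (P - Q) - 2 * (ht P + ht Q)| ≤ C) {S R : Pt A B}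
    (h : C < ht R) (h' : ht (R - S) < ht R) : S ≠ 0 ∧ S + R ≠ 0 := by
  constructor
  · rintro rfl
    simp at h'
  · intro e
    have h2 : R - S = R + R := by rw [eq_neg_of_add_eq_zero_left e, sub_neg_eq_add]
    have h3 := (abs_le.1 (hC R R)).1
    rw [sub_self, ht_zero, ← h2] at h3
    linarith [ht_nonneg R]

lemma num_final {t m d η θ θ' D₀ H H₀ Q T C C' L Z : ℝ} (hη : 0 < η) (ht : 8 ≤ t * η)
    (ht1 : 1 ≤ t) (hm : 0 < m) (hd : 16 * d ≤ t * m * η) (hd0 : 0 ≤ d) (hθ : 16 * (d * θ) ≤ t * η)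
    (hθ' : 96 * (θ' * D₀) = t * m * η) (hH : 0 < H) (hQ : m * H ≤ 2 * Q) (hT : T * H₀ ≤ 2 * m * H)
    (hT0 : 0 ≤ T) (hH₀ : 32 * (C + d * C') / η + 1 ≤ H₀)
    (hL : 2 * Q + 2 * m * H - m * θ * H - C' * T ≤ L) (hZ : Z ≤ 6 * (θ' * (D₀ * H)))
    (h : d * L + t * η * Q ≤ C * T + ((2 * d + 1) * Q + (2 * m + 1) * d * H) + Z) : False := by
  have h1 := mul_le_mul_of_nonneg_left hL hd0
  have hmH : 0 < m * H := by positivity
  have h2 : 32 * (C + d * C') < η * H₀ := by
    have := mul_le_mul_of_nonneg_left hH₀ hη.le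
    rw [mul_add, mul_div_cancel₀ _ hη.ne'] at this
    linarith
  have h3 : 16 * ((C + d * C') * T) ≤ η * (m * H) := by
    have := mul_le_mul_of_nonneg_left hT hη.le
    have := mul_le_mul_of_nonneg_right h2.le hT0
    nlinarith
  have h4 : η * (m * H) ≤ t * η * (m * H) := by nlinarith [mul_pos hη hmH]
  have h5 := mul_le_mul_of_nonneg_right hd hH.le
  have h6 := mul_le_mul_of_nonneg_right hθ hmH.le
  have h7 : 96 * (θ' * (D₀ * H)) = t * η * (m * H) := by linear_combination H * hθ'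
  have h8 := mul_le_mul_of_nonneg_left hQ (show 0 ≤ t * η - 1 by linarith)
  have h9 := mul_le_mul_of_nonneg_right ht hmH.le
  nlinarith

theorem phase1 (a b a' b' : ℤ) (hD : 4 * a ^ 3 + 27 * b ^ 2 ≠ 0)
    (hD' : 4 * a' ^ 3 + 27 * b' ^ 2 ≠ 0) (η : ℝ) (hη : 0 < η) :
    ∃ (m D : ℕ) (θ lam : ℝ), 0 < θ ∧ ∀ ε : ℝ, 0 < ε → ∃ H₀ : ℝ,
      ∀ (X : Fin m → Pt (a : K) (b : K) × Pt (a' : K) (b' : K))
        (Y : Pt (a : K) (b : K) × Pt (a' : K) (b' : K)) (j : Fin m → ℕ),
        (∀ i, H₀ ≤ HH (X i)) → (∀ i i', i < i' → lam * HH (X i) ≤ HH (X i')) →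
        (∀ i, lam * HH (X i) ≤ HH Y) → (∀ i, Bad η (X i)) → Bad η Y →
        (∀ i, Close θ (j i) (X i) Y) → (∃ i, Special D ε (X i)) ∨ Special D ε Y := by
  obtain ⟨t, htt⟩ := exists_nat_ge (8 / η + 1)
  obtain ⟨n, hn⟩ := exists_nat_ge (384 / η + 1)
  have t1 : (1 : ℝ) ≤ t := by linarith [show 0 < 8 / η by positivity]
  have n1 : (1 : ℝ) ≤ n := by linarith [show 0 < 384 / η by positivity]
  have t2 : 8 ≤ t * η := (div_le_iff₀ hη).1 (by linarith)
  have n2 : 384 ≤ n * η := (div_le_iff₀ hη).1 (by linarith)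
  have t3 : 0 < t := by exact_mod_cast (show (0 : ℝ) < t by linarith)
  have n3 : 0 < n := by exact_mod_cast (show (0 : ℝ) < n by linarith)
  obtain ⟨d, hd⟩ : ∃ d, d + 1 = 48 * n * t := 
    ⟨48 * n * t - 1, Nat.sub_add_cancel (Nat.succ_le_of_lt (by positivity))⟩
  obtain ⟨m, hm⟩ : ∃ m, m = 2 * n ^ 2 := ⟨_, rfl⟩
  have m0 : 0 < m := by rw [hm]; positivity
  have m1 : (0 : ℝ) < m := by exact_mod_cast m0
  have d1 : 16 * (d : ℝ) ≤ t * m * η := by
    have e1 : (d : ℝ) + 1 = 48 * n * t := by exact_mod_cast hd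
    have e2 : (m : ℝ) = 2 * n ^ 2 := by exact_mod_cast hm
    have := mul_le_mul_of_nonneg_left n2 (show (0 : ℝ) ≤ n * t by positivity)
    rw [e2]
    nlinarith
  let A : Bool → ℤ := fun s => cond s a' a
  let B : Bool → ℤ := fun s => cond s b' b
  have hAB : ∀ s, 4 * A s ^ 3 + 27 * B s ^ 2 ≠ 0 := fun s => by cases s <;> assumption
  have hAB' : ∀ s, 4 * (A s : K) ^ 3 + 27 * (B s : K) ^ 2 ≠ 0 := fun s => by
    exact_mod_cast hAB s
  choose Cp hCp using fun s => ht_par (hAB' s)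
  choose Ct hCt using fun s => ht_two_pow (hAB' s)
  set D₀ : ℝ := 2 * (2 * d + 1) + (2 * m + 1) * d with hD₀
  have D1 : 1 ≤ D₀ := by
    have : (0 : ℝ) ≤ (2 * m + 1) * d := by positivity
    have : (0 : ℝ) ≤ d := by positivity
    linarith
  obtain ⟨D, ζ, C, hζ, hC, H⟩ := core_ineq (K := K) A B hAB (m := m) (d := d) (t := t) m0
    (by rw [hd, hm]; exact le_of_eq (by ring)) (t * m * η / (96 * D₀)) (by positivity)
  set θ : ℝ := min (η / 2) (t * η / (16 * (d + 1))) with hθ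
  have θ1 : θ < η := (min_le_left _ _).trans_lt (by linarith)
  have θ0 : 0 < θ := by positivity
  have θ2 : 16 * (d * θ) ≤ t * η := by
    have := (le_div_iff₀ (by positivity)).1 (min_le_right (η / 2) (t * η / (16 * (d + 1))))
    nlinarith
  refine ⟨m, D, θ, max 1 (1 / ζ), θ0, fun ε hε => ?_⟩
  set C' : ℝ := ∑ s, (2 * |Ct s| + |Cp s|) with hC'
  have C0 : 0 ≤ C' := sum_nonneg fun s _ => by positivity
  have C1 : ∀ s, Cp s ≤ C' := fun s => by
    have := single_le_sum (f := fun s => 2 * |Ct s| + |Cp s|) (fun s _ => by positivity) (mem_univ s)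
    linarith [le_abs_self (Cp s), abs_nonneg (Ct s)]
  set ε₀ : ℝ := ε / (D + 1) with hε₀
  have ε1 : 0 < ε₀ := by positivity
  set H₀ : ℝ := 32 * (C + d * C') / η + 1 + 2 * m * C / ε₀ + C' / η + C with hH₀
  have u1 : 0 ≤ 32 * (C + d * C') / η := by positivity
  have u2 : 0 ≤ 2 * m * C / ε₀ := by positivity
  have u3 : 0 ≤ C' / η := by positivity
  have H1 : 1 ≤ H₀ := by linarith
  have H2 : 2 * m * C ≤ ε₀ * H₀ := by
    have : 2 * m * C / ε₀ ≤ H₀ := by linarith
    rwa [div_le_iff₀' ε1] at this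
  have H3 : C' < η * H₀ := by
    have : C' / η < H₀ := by linarith
    rwa [div_lt_iff₀' hη] at this
  refine ⟨H₀, fun X Y j h1 h2 h3 h4 h5 h6 => ?_⟩
  let Z : Option (Fin m) → Pt (a : K) (b : K) × Pt (a' : K) (b' : K) := fun o => o.elim Y X
  let P : ∀ p : VV m, Pt (A p.2 : K) (B p.2 : K) := fun p =>
    match p with
    | (o, false) => (Z o).1
    | (o, true) => (Z o).2
  have r1 : ∀ {u v : ℝ}, 0 ≤ u → max 1 (1 / ζ) * u ≤ v → u ≤ v ∧ u ≤ ζ * v := fun {u v} hu h => by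
    have e1 := mul_le_mul_of_nonneg_right (le_max_left 1 (1 / ζ)) hu
    have e2 := mul_le_mul_of_nonneg_right (le_max_right 1 (1 / ζ)) hu
    refine ⟨by linarith, ?_⟩
    rw [← div_le_iff₀' hζ, div_eq_inv_mul, ← one_div]
    linarith
  have w1 : ∀ o, H₀ ≤ HH (Z o) := by
    rintro (_ | i)
    · exact (h1 ⟨0, m0⟩).trans (r1 (HH_nonneg _) (h3 _)).1
    · exact h1 i
  have w2 : ∀ o, Bad η (Z o) := by
    rintro (_ | i)
    · exact h5
    · exact h4 i
  have w3 : ∀ p, η * HH (Z p.1) ≤ ht (P p) := by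
    rintro ⟨o, _ | _⟩
    · exact (w2 o).trans (gg_le_left _ _)
    · exact (w2 o).trans (gg_le_right _ _)
  have w4 : ∀ p, Cp p.2 < ht (P p) := fun p => by
    have := mul_le_mul_of_nonneg_left (w1 p.1) hη.le
    linarith [w3 p, C1 p.2]
  have w5 : ∀ p, ht (P p) ≤ HH (Z p.1) := by
    rintro ⟨o, _ | _⟩
    · exact le_add_of_nonneg_right (ht_nonneg _)
    · exact le_add_of_nonneg_left (ht_nonneg _)
  have w6 : ∀ o, ∑ s, ht (P (o, s)) = HH (Z o) := fun o => by
    rw [Fintype.sum_bool, add_comm]; rfl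
  have w7 : ∀ i, ∑ s, ht (P (none, s) - 2 ^ j i • P (some i, s)) ≤ θ * HH Y := fun i => by
    rw [Fintype.sum_bool, add_comm]; exact (h6 i).1
  have Y0 : 0 < HH Y := by linarith [show H₀ ≤ HH Y from w1 none]
  have w8 : ∀ i s, ht (P (none, s) - 2 ^ j i • P (some i, s)) < ht (P (none, s)) := fun i s => by
    have e1 := single_le_sum (f := fun s => ht (P (none, s) - 2 ^ j i • P (some i, s)))
      (fun s _ => ht_nonneg _) (mem_univ s)
    have e2 : η * HH Y ≤ ht (P (none, s)) := w3 (none, s)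
    have := mul_lt_mul_of_pos_right θ1 Y0
    linarith [w7 i]
  set T : ℕ := ∑ i, 4 ^ j i with hT
  have T1 : T * H₀ ≤ 2 * m * HH Y := by
    rw [hT, Nat.cast_sum, sum_mul]
    refine (sum_le_card_nsmul _ _ (2 * HH Y) fun i _ => ?_).trans_eq (by simp; ring)
    refine le_trans ?_ (h6 i).2.2
    push_cast
    exact mul_le_mul_of_nonneg_left (h1 i) (by positivity)
  rcases H ε₀ j P (fun o => HH (Z o)) (D₀ * HH Y) ε1 (fun p => (nondeg (hCp p.2) (w4 p)).1)
    (fun p => (nondeg (hCp p.2) (w4 p)).2)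
    (fun i s => (nondeg₂ (hCp s) (w4 (none, s)) (w8 i s)).1)
    (fun i s => (nondeg₂ (hCp s) (w4 (none, s)) (w8 i s)).2)
    (fun o => by
      have := mul_le_mul_of_nonneg_left (w1 o) ε1.le
      have : (1 : ℝ) ≤ m := by exact_mod_cast m0
      linarith [mul_le_mul_of_nonneg_right this (zero_le_one.trans hC)])
    (by
      rintro (_ | i) (_ | i') h
      · exact absurd rfl h
      · exact Or.inr (r1 (HH_nonneg _) (h3 i')).2
      · exact Or.inl (r1 (HH_nonneg _) (h3 i)).2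
      · rcases lt_or_gt_of_ne (fun e => h (congrArg some e)) with h' | h'
        · exact Or.inl (r1 (HH_nonneg _) (h2 _ _ h')).2
        · exact Or.inr (r1 (HH_nonneg _) (h2 _ _ h')).2)
    (by
      rintro (_ | i)
      · change HH Y * (((2 * m + 1) * d : ℕ) : ℝ) ≤ _
        rw [hD₀]
        push_cast
        linarith [show (0 : ℝ) ≤ (2 * d + 1) * HH Y by positivity]
      · change HH (X i) * (((2 * d + 1) * 4 ^ j i : ℕ) : ℝ) ≤ _
        have := mul_le_mul_of_nonneg_left (h6 i).2.2 (show (0 : ℝ) ≤ 2 * d + 1 by positivity)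
        rw [hD₀]
        push_cast
        linarith [show (0 : ℝ) ≤ (2 * m + 1) * d * HH Y by positivity])
    (by
      have e1 := mul_le_mul_of_nonneg_left T1 (show 0 ≤ C by linarith)
      have e2 := mul_le_mul_of_nonneg_right H2 Y0.le
      have e3 : C * T ≤ ε₀ * HH Y := le_of_mul_le_mul_right (by linarith) (show 0 < H₀ by linarith)
      linarith [mul_le_mul_of_nonneg_right D1 (mul_pos ε1 Y0).le]) with ⟨κ, k1, k2⟩ | ⟨o, g, q1, q2, q3, q4, q5⟩
  · exfalso
    refine num_final (Q := ∑ i, 4 ^ j i * HH (X i)) (θ' := t * m * η / (96 * D₀)) (D₀ := D₀) hη t2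
      t1 m1 d1 (by positivity) θ2 (by field_simp) Y0 ?_ T1 (by positivity) (C' := C') (C := C)
      (by linarith)
      (L := ∑ p : Fin m × Bool, ht (2 ^ j p.1 • P (some p.1, p.2) + P (none, p.2))) ?_
      (Z := ∑ p, κ p * (5 * ht (P p) + C)) ?_ (le_trans ?_ (k2.trans_eq ?_))
    · rw [mul_sum]
      exact le_trans (by simp) (card_nsmul_le_sum univ _ (HH Y) fun i _ => (h6 i).2.1)
    · have e1 : ∀ i, 2 * (4 ^ j i * HH (X i)) + 2 * HH Y - θ * HH Y - C' * 4 ^ j i ≤
          ∑ s, ht (2 ^ j i • P (some i, s) + P (none, s)) := fun i => by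
        have e2 : ∀ s, 2 * (4 ^ j i * ht (P (some i, s))) + 2 * ht (P (none, s)) -
            ht (P (none, s) - 2 ^ j i • P (some i, s)) - (2 * |Ct s| + |Cp s|) * 4 ^ j i ≤
            ht (2 ^ j i • P (some i, s) + P (none, s)) := fun s => by
          have e3 := (abs_le.1 (hCp s (P (none, s)) (2 ^ j i • P (some i, s)))).1
          have e4 := (abs_le.1 (hCt s (P (some i, s)) (j i))).1
          have e5 : (1 : ℝ) ≤ 4 ^ j i := one_le_pow₀ (by norm_num)
          have e6 := mul_le_mul_of_nonneg_right (le_abs_self (Ct s)) (zero_le_one.trans e5)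
          have e7 := mul_le_mul_of_nonneg_left e5 (abs_nonneg (Cp s))
          rw [add_comm (P (none, s))] at e3
          linarith [le_abs_self (Cp s)]
        have e3 := sum_le_sum fun s (_ : s ∈ univ) => e2 s
        rw [sum_sub_distrib, sum_sub_distrib, sum_add_distrib, ← mul_sum, ← mul_sum, ← mul_sum,
          ← sum_mul, w6, w6] at e3
        have e4 := w7 i
        change 2 * (4 ^ j i * HH (X i)) + 2 * HH Y - _ - C' * _ ≤ _ at e3
        linarith
      have e2 := sum_le_sum fun i (_ : i ∈ univ) => e1 i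
      rw [Fintype.sum_prod_type, hT]
      simp only [sum_sub_distrib, sum_add_distrib, ← mul_sum, sum_const, card_univ,
        Fintype.card_fin, nsmul_eq_mul] at e2
      push_cast
      linarith
    · refine le_trans ?_ (mul_le_mul_of_nonneg_left k1.le (by norm_num))
      rw [mul_sum]
      refine sum_le_sum fun p _ => ?_
      have e1 : 5 * ht (P p) + C ≤ 6 * HH (Z p.1) := by linarith [w5 p, w1 p.1]
      have := mul_le_mul_of_nonneg_left e1 (Nat.cast_nonneg (α := ℝ) (κ p))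
      linarith
    · refine add_le_add le_rfl ?_
      rw [mul_sum]
      refine sum_le_sum fun i _ => ?_
      have := mul_le_mul_of_nonneg_left (h4 i) (show (0 : ℝ) ≤ t * 4 ^ j i by positivity)
      push_cast
      exact le_trans (le_of_eq (by ring)) this
    · congr 2
      rw [Fintype.sum_prod_type, Fintype.sum_option]
      simp only [← mul_sum, w6, nn]
      rw [add_comm, mul_sum]
      push_cast
      congr 1
      exact sum_congr rfl fun i _ => mul_assoc _ _ _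
  · have e1 : len g ≤ Real.exp (ε * HH (Z o)) := by
      refine q4.trans (Real.exp_le_exp.2 (mul_le_mul_of_nonneg_right ?_ (HH_nonneg _)))
      rw [hε₀, ← mul_div_assoc, div_le_iff₀ (by positivity)]
      linarith
    have e2 : Special D ε (Z o) := ⟨g, q1, q2, q3, e1, q5⟩
    rcases o with _ | i
    · exact Or.inr e2
    · exact Or.inl ⟨i, e2⟩

end Pool.Agent.Lib.MP_651af7_nt.Vj.P1
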