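import Mathlib
import Pool.Agent.Lib.MP_651af7_nt.FinMain

/-! The local height of a curve on a product of two elliptic curves, and the full inequality. -/

namespace Pool.Agent.MP_651af7_nt.Final

open Height MvPolynomial WeierstrassCurve NumberField

/-- The approximation statement for short integral curves. -/
def Appr : Prop :=
  ∀ (K : Type) [Field K] [NumberField K] (a b : Fin 2 → ℤ),
    (∀ i, 4 * a i ^ 3 + 27 * b i ^ 2 ≠ 0) → ∀ v : AbsoluteValue K ℝ,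
    (v ∈ AdmissibleAbsValues.archAbsVal ∨ v ∈ AdmissibleAbsValues.nonarchAbsVal) →
    ∀ (g : MvPolynomial (Fin 2 ⊕ Fin 2) K) (η : ℝ), 0 < η → ∃ C : ℝ, ∀ x y : Fin 2 → K,
      (∀ i, y i ^ 2 = x i ^ 3 + a i * x i + b i) → eval (Sum.elim x y) g ≠ 0 →
      ∑ i, lp (x i) v ≤ η * ∑ i, logHeight₁ (x i) + C ∧
        -la (eval (Sum.elim x y) g) v ≤ η * ∑ i, logHeight₁ (x i) + C

/-- The local height at `v` of the curve `R = 0` of bidegree `(e, e')` at the point `(P, Q)`. -/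
noncomputable def lam {K : Type*} [Field K] (v : AbsoluteValue K ℝ)
    (R : MvPolynomial (Fin 3 ⊕ Fin 3) K) (e e' : ℕ) (P Q : Fin 3 → K) : ℝ :=
  Real.log ((⨆ i, v (P i)) ^ e * (⨆ i, v (Q i)) ^ e' / v (eval (Sum.elim P Q) R))

variable {K : Type} [Field K] [NumberField K]

lemma exists_short_aff (W : WeierstrassCurve ℚ) [W.IsElliptic] :
    ∃ (a b : ℤ) (s t p q r : K), s ≠ 0 ∧ p ≠ 0 ∧ 4 * a ^ 3 + 27 * b ^ 2 ≠ 0 ∧ ∀ x y : K,
      (W.map (algebraMap ℚ K)).toAffine.Equation x y →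
        (p * (y + q * x + r)) ^ 2 = (s * x + t) ^ 3 + a * (s * x + t) + b := by
  obtain ⟨a, b, u, hu, hD, ha, hb⟩ := exists_short W
  set V := W.map (algebraMap ℚ K) with hV
  set z := algebraMap ℚ K u with hz
  have ha' : (a : K) = z ^ 4 * (-V.c₄ / 48) := by
    have := congrArg (algebraMap ℚ K) ha
    simpa [hV, hz] using this
  have hb' : (b : K) = z ^ 6 * (-V.c₆ / 864) := by
    have := congrArg (algebraMap ℚ K) hb
    simpa [hV, hz] using this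
  have z0 : z ≠ 0 := (map_ne_zero _).mpr hu
  refine ⟨a, b, z ^ 2, z ^ 2 * (V.b₂ / 12), z ^ 3, V.a₁ / 2, V.a₃ / 2, pow_ne_zero _ z0,
    pow_ne_zero _ z0, hD, fun x y he => ?_⟩
  have he' := (V.toAffine.equation_iff x y).mp he
  rw [ha', hb']
  simp only [c₄, c₆, b₂, b₄, b₆]
  linear_combination z ^ 6 * he'

theorem lam_le (H : Appr) (W W' : WeierstrassCurve ℚ) [W.IsElliptic] [W'.IsElliptic]
    {v : AbsoluteValue K ℝ}
    (hv : v ∈ AdmissibleAbsValues.archAbsVal ∨ v ∈ AdmissibleAbsValues.nonarchAbsVal)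
    (R : MvPolynomial (Fin 3 ⊕ Fin 3) K) (e e' : ℕ) {ε : ℝ} (hε : 0 < ε) :
    ∃ C : ℝ, ∀ x y x' y' : K, (W.map (algebraMap ℚ K)).toAffine.Equation x y →
      (W'.map (algebraMap ℚ K)).toAffine.Equation x' y' →
      eval (Sum.elim ![x, y, 1] ![x', y', 1]) R ≠ 0 →
      lam v R e e' ![x, y, 1] ![x', y', 1] ≤ ε * (logHeight₁ x + logHeight₁ x') + C := by
  obtain ⟨a, b, s, t, p, q, r, hs, hp, hD, h⟩ := exists_short_aff (K := K) W
  obtain ⟨a', b', s', t', p', q', r', hs', hp', hD', h'⟩ := exists_short_aff (K := K) W'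
  let f : Fin 3 ⊕ Fin 3 → MvPolynomial (Fin 2 ⊕ Fin 2) K := Sum.elim
    ![C s⁻¹ * (X (.inl 0) - C t), C p⁻¹ * X (.inr 0) - C q * (C s⁻¹ * (X (.inl 0) - C t)) - C r, 1]
    ![C s'⁻¹ * (X (.inl 1) - C t'),
      C p'⁻¹ * X (.inr 1) - C q' * (C s'⁻¹ * (X (.inl 1) - C t')) - C r', 1]
  have n0 : (0 : ℝ) < 2 * e + 2 * e' + 1 := by positivity
  obtain ⟨C₀, hC⟩ := H K ![a, a'] ![b, b'] (Fin.forall_fin_two.mpr ⟨hD, hD'⟩) v hv (aeval f R)
    (ε / (2 * e + 2 * e' + 1)) (by positivity)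
  obtain ⟨c₁, f₁, -, h₁⟩ := exists_lp_affine s t
  obtain ⟨c₂, f₂, -, h₂⟩ := exists_lp_affine s' t'
  obtain ⟨c₃, -, -, h₃⟩ := exists_lp_affine s⁻¹ (-(s⁻¹ * t))
  obtain ⟨c₄, -, -, h₄⟩ := exists_lp_affine s'⁻¹ (-(s'⁻¹ * t'))
  obtain ⟨c₅, -, -, h₅⟩ := exists_y_bound (W.map (algebraMap ℚ K))
  obtain ⟨c₆, -, -, h₆⟩ := exists_y_bound (W'.map (algebraMap ℚ K))
  refine ⟨e * (c₅ v + 2 * c₃ v) + e' * (c₆ v + 2 * c₄ v) + (2 * e + 2 * e' + 1) * C₀ +
    ε * (Gl c₁ + Gl c₂), fun x y x' y' he he' hR => ?_⟩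
  have ev : eval (Sum.elim ![s * x + t, s' * x' + t'] ![p * (y + q * x + r), p' * (y' + q' * x' + r')])
      (aeval f R) = eval (Sum.elim ![x, y, 1] ![x', y', 1]) R := by
    rw [← coe_aeval_eq_eval, ← coe_aeval_eq_eval]
    simp only [RingHom.coe_coe]
    rw [← AlgHom.comp_apply, comp_aeval]
    congr 2
    funext i
    rcases i with i | i <;> fin_cases i <;> simp [f] <;> field_simp <;> ring
  obtain ⟨a₀, a₁⟩ := hC ![s * x + t, s' * x' + t'] ![p * (y + q * x + r), p' * (y' + q' * x' + r')]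
    (Fin.forall_fin_two.mpr ⟨h x y he, h' x' y' he'⟩) (ev ▸ hR)
  rw [ev] at a₁
  simp only [Fin.sum_univ_two, Matrix.cons_val_zero, Matrix.cons_val_one] at a₀ a₁
  have a₂ := Gl_mono (FS_lp _) (f₁.add (FS_lp x)) fun v => h₁ v x
  have a₃ := Gl_mono (FS_lp _) (f₂.add (FS_lp x')) fun v => h₂ v x'
  rw [Gl_add f₁ (FS_lp _), Gl_lp, Gl_lp] at a₂
  rw [Gl_add f₂ (FS_lp _), Gl_lp, Gl_lp] at a₃
  have b₁ := h₃ v (s * x + t)
  have b₂ := h₄ v (s' * x' + t')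
  rw [show s⁻¹ * (s * x + t) + -(s⁻¹ * t) = x by field_simp; ring] at b₁
  rw [show s'⁻¹ * (s' * x' + t') + -(s'⁻¹ * t') = x' by field_simp; ring] at b₂
  have b₃ := h₅ v x y he
  have b₄ := h₆ v x' y' he'
  have P0 := nm_pos (show (![x, y, 1] : Fin 3 → K) ≠ 0 by simp) v
  have Q0 := nm_pos (show (![x', y', 1] : Fin 3 → K) ≠ 0 by simp) v
  have el : lam v R e e' ![x, y, 1] ![x', y', 1] = e * ln ![x, y, 1] v + e' * ln ![x', y', 1] v -
      la (eval (Sum.elim ![x, y, 1] ![x', y', 1]) R) v := by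
    rw [lam, ln, ln, la, ← Real.log_pow, ← Real.log_pow,
      ← Real.log_mul (pow_pos P0 _).ne' (pow_pos Q0 _).ne',
      ← Real.log_div (mul_pos (pow_pos P0 _) (pow_pos Q0 _)).ne' (v.pos hR).ne']
    rfl
  set M := ε / (2 * e + 2 * e' + 1) * (logHeight₁ (s * x + t) + logHeight₁ (s' * x' + t')) + C₀
    with hM
  have e0 : (0 : ℝ) ≤ e := Nat.cast_nonneg e
  have e1 : (0 : ℝ) ≤ e' := Nat.cast_nonneg e'
  have m₁ : ln ![x, y, 1] v ≤ c₅ v + 2 * c₃ v + 2 * M := by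
    linarith [lp_nonneg (s' * x' + t') v]
  have m₂ : ln ![x', y', 1] v ≤ c₆ v + 2 * c₄ v + 2 * M := by
    linarith [lp_nonneg (s * x + t) v]
  have m₃ : (2 * e + 2 * e' + 1) * M = ε * (logHeight₁ (s * x + t) + logHeight₁ (s' * x' + t')) +
      (2 * e + 2 * e' + 1) * C₀ := by
    rw [hM]
    field_simp
  have m₄ := mul_le_mul_of_nonneg_left m₁ e0
  have m₅ := mul_le_mul_of_nonneg_left m₂ e1
  have m₆ := mul_le_mul_of_nonneg_left (add_le_add a₂ a₃) hε.le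
  rw [el]
  linarith

/-- The inequality with the local heights of a curve as a second summand. -/
theorem vojta (H : Core) (H' : Appr) (W W' : WeierstrassCurve ℚ) [W.IsElliptic] [W'.IsElliptic]
    (k : Type) [Field k] [NumberField k]
    {ι : Type*} [Fintype ι] (G : ι → MvPolynomial (Fin 3 ⊕ Fin 3) k) (d d' : ℕ)
    (hG : ∀ j, (G j).IsWeightedHomogeneous bw (d, d'))
    (hfin : {R : (W.map (algebraMap ℚ (AlgebraicClosure k))).toAffine.Point ×
        (W'.map (algebraMap ℚ (AlgebraicClosure k))).toAffine.Point |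
      ∀ j, aeval (Sum.elim (pr R.1) (pr R.2)) (G j) = 0}.Finite) (ε : ℝ) (hε : 0 < ε) :
    ∃ Θ : MvPolynomial (Fin 2) k, Θ ≠ 0 ∧
      ∀ (R : MvPolynomial (Fin 3 ⊕ Fin 3) k) (e e' : ℕ) (S : Finset (FinitePlace k)),
      ∃ C : ℝ, ∀ x y x' y' : k, (W.map (algebraMap ℚ k)).toAffine.Equation x y →
      (W'.map (algebraMap ℚ k)).toAffine.Equation x' y' → eval ![x, x'] Θ ≠ 0 →
      eval (Sum.elim ![x, y, 1] ![x', y', 1]) R ≠ 0 →
      (fun j => eval (Sum.elim ![x, y, 1] ![x', y', 1]) (G j)) ≠ 0 ∧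
      (∑ w : InfinitePlace k, w.mult * lam w.1 R e e' ![x, y, 1] ![x', y', 1] +
        ∑ w ∈ S, lam w.1 R e e' ![x, y, 1] ![x', y', 1]) +
      (d * logHeight ![x, y, 1] + d' * logHeight ![x', y', 1] -
        logHeight (fun j => eval (Sum.elim ![x, y, 1] ![x', y', 1]) (G j))) ≤
        ε * (logHeight₁ x + logHeight₁ x') + C := by
  obtain ⟨Θ, hΘ, C₀, h₀⟩ := final H W W' k G d d' hG hfin (ε / 2) (by positivity)
  refine ⟨Θ, hΘ, fun R e e' S => ?_⟩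
  set n : ℝ := ∑ w : InfinitePlace k, (w.mult : ℝ) + S.card + 1 with hn
  have n0 : 0 < n := by positivity
  choose c₁ h₁ using fun w : InfinitePlace k => lam_le H' W W' (v := w.1)
    (Or.inl (mem_multisetInfinitePlace.mpr w.isInfinitePlace)) R e e' (ε := ε / 2 / n)
    (by positivity)
  choose c₂ h₂ using fun w : FinitePlace k => lam_le H' W W' (v := w.1) (Or.inr w.2) R e e'
    (ε := ε / 2 / n) (by positivity)
  refine ⟨∑ w : InfinitePlace k, w.mult * c₁ w + ∑ w ∈ S, c₂ w + C₀,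
    fun x y x' y' he he' hx hR => ?_⟩
  obtain ⟨g0, a₀⟩ := h₀ x y x' y' he he' hx
  refine ⟨g0, ?_⟩
  have a₁ := Finset.sum_le_sum (s := Finset.univ) fun (w : InfinitePlace k) _ =>
    mul_le_mul_of_nonneg_left (h₁ w x y x' y' he he' hR) (Nat.cast_nonneg w.mult)
  have a₂ := Finset.sum_le_sum (s := S) fun w _ => h₂ w x y x' y' he he' hR
  simp only [mul_add (_ : ℝ) (ε / 2 / n * _), Finset.sum_add_distrib, ← Finset.sum_mul,
    Finset.sum_const, nsmul_eq_mul] at a₁ a₂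
  have H0 : 0 ≤ ε / 2 / n * (logHeight₁ x + logHeight₁ x') :=
    mul_nonneg (by positivity) (add_nonneg (zero_le_logHeight₁ _) (zero_le_logHeight₁ _))
  have a₃ : n * (ε / 2 / n * (logHeight₁ x + logHeight₁ x')) =
      ε / 2 * (logHeight₁ x + logHeight₁ x') := by
    field_simp
  rw [hn, add_mul, add_mul, ← hn] at a₃
  linarith

end Pool.Agent.MP_651af7_nt.Final
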