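import Pool.Agent.Lib.MP_8865d3_nt.FaDefs
import Pool.Agent.Lib.MP_651af7_nt.FinProx

/-! The approximation statement from the theorems for points of short curves. -/

namespace Pool.Agent.MP_651af7_nt.Final

open Pool.Agent.Lib.MP_e97e2b_nt Pool.Agent.Lib.MP_651af7_nt.Iv Pool.Agent.Lib.MP_8865d3_nt.Fa
open Height MvPolynomial

theorem appr_of_fa
    (H : ∀ (K : Type) [Field K] [NumberField K] (a b : Fin 2 → ℤ),
      (∀ k, 4 * a k ^ 3 + 27 * b k ^ 2 ≠ 0) → ∀ {v : AbsoluteValue K ℝ}, Adm v →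
      ∀ {η : ℝ}, 0 < η →
      ∃ C : ℝ, ∀ X : Pts K a b, ∑ k, Real.log (max (v (xc (X k))) 1) ≤ η * HS X + C)
    (H' : ∀ (K : Type) [Field K] [NumberField K] (a b : Fin 2 → ℤ),
      (∀ k, 4 * a k ^ 3 + 27 * b k ^ 2 ≠ 0) → ∀ {v : AbsoluteValue K ℝ}, Adm v →
      ∀ (g : MvPolynomial (Fin 2 ⊕ Fin 2) K) {ε : ℝ}, 0 < ε →
      ∃ C : ℝ, ∀ X : Pts K a b, (∀ k, X k ≠ 0) →
        eval (Sum.elim (fun k => xc (X k)) fun k => yc (X k)) g ≠ 0 →
        -Real.log (v (eval (Sum.elim (fun k => xc (X k)) fun k => yc (X k)) g)) ≤ ε * HS X + C) :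
    Appr := by
  intro K _ _ a b hD v hv g η hη
  obtain ⟨C, h⟩ := H K a b hD hv hη
  obtain ⟨C', h'⟩ := H' K a b hD hv g hη
  refine ⟨max C C', fun x y he hg => ?_⟩
  have n : ∀ i, NS (a i : K) (b i) (x i) (y i) := fun i =>
    ns_of_eq two_ne_zero (by exact_mod_cast hD i) (he i)
  exact ⟨(h fun i => pt (x i) (y i) (n i)).trans (add_le_add_right (le_max_left _ _) _),
    (h' (fun i => pt (x i) (y i) (n i)) (fun i => pt_ne_zero _) hg).trans
      (add_le_add_right (le_max_right _ _) _)⟩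

end Pool.Agent.MP_651af7_nt.Final
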