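import Pool.Agent.Lib.MP_651af7_nt.Small

namespace Pool.Agent.Lib.MP_651af7_nt

open Module Polynomial NumberField

/-- Monic polynomials with small integral coefficients and no subleading term. -/
def GoodPoly {k : Type*} [Field k] (l : ℕ) (B : ℝ) (P : k[X]) : Prop :=
  P.Monic ∧ P.natDegree = l ∧ P.coeff (l - 1) = 0 ∧
    ∀ i, IsIntegral ℤ (P.coeff i) ∧ Small (B ^ (l - i) * 2 ^ l) (P.coeff i)

lemma small_gen (k K : Type*) [Field k] [NumberField k] [Field K] [NumberField K] [Algebra k K]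
    (H : ∀ α : K, α ∉ (algebraMap k K).range → (minpoly k α).natDegree = finrank k K)
    (R : ℝ) (hR : 1 ≤ R)
    (hD : (2 * R) ^ finrank ℚ k * √|(discr K : ℝ)| < (R / 2) ^ finrank ℚ K) :
    ∃ α : K, α ∉ (algebraMap k K).range ∧
      GoodPoly (finrank k K) (2 * finrank k K * R) (minpoly k α) := by
  classical
  have : FiniteDimensional k K := Module.Finite.of_restrictScalars_finite ℚ k K
  have h0 : ∃ a : K, IsIntegral ℤ a ∧ Small R a ∧ a ∉ (algebraMap k K).range := by
    by_contra hcon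
    push Not at hcon
    have := many_integers (K := K) R (by linarith) ((⌊R⌋₊ + 1) ^ finrank ℚ k) (by
      intro A hA1 hA2
      refine (card_le_of_small (LinearMap.range (IsScalarTower.toAlgHom ℚ k K).toLinearMap) R A
        fun a ha b hb => ?_).trans
        (Nat.pow_le_pow_right (Nat.succ_pos _) (LinearMap.finrank_range_le _))
      have hi := (hA1 a ha).sub (hA1 b hb)
      exact ⟨hi, hcon _ hi (hA2 a ha b hb), hA2 a ha b hb⟩)
    refine absurd (this.trans ?_) (not_le.mpr hD)
    have h1 : (⌊R⌋₊ : ℝ) ≤ R := Nat.floor_le (by linarith)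
    push_cast
    gcongr
    linarith
  obtain ⟨a, ha1, ha2, ha3⟩ := h0
  set l := finrank k K with hl
  have hl0 : 0 < l := finrank_pos
  have hlK : (l : K) ≠ 0 := by exact_mod_cast hl0.ne'
  let α : K := l * a - algebraMap k K (Algebra.trace k K a)
  have hα1 : IsIntegral ℤ α := by
    refine IsIntegral.sub (IsIntegral.mul ?_ ha1) ?_
    · exact_mod_cast isIntegral_algebraMap (R := ℤ) (A := K) (x := (l : ℤ))
    · exact (Algebra.isIntegral_trace ha1).map (algebraMap k K).toIntAlgHom
  have hα2 : Small (2 * l * R) α := by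
    intro φ
    let : Algebra k ℂ := (φ.comp (algebraMap k K)).toAlgebra
    have e : φ (algebraMap k K (Algebra.trace k K a)) = ∑ σ : K →ₐ[k] ℂ, σ a :=
      trace_eq_sum_embeddings ℂ (K := k) (L := K) (x := a)
    have h1 : ‖φ (algebraMap k K (Algebra.trace k K a))‖ ≤ l * R := by
      rw [e]
      refine (norm_sum_le _ _).trans ((Finset.sum_le_sum fun σ _ => ha2 σ.toRingHom).trans_eq ?_)
      rw [Finset.sum_const, Finset.card_univ, AlgHom.card, nsmul_eq_mul]
    have h2 : ‖φ (l * a)‖ ≤ l * R := by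
      rw [map_mul, norm_mul, map_natCast, Complex.norm_natCast]
      gcongr
      exact ha2 φ
    simp only [α, map_sub]
    exact (norm_sub_le _ _).trans (by linarith)
  have hα3 : α ∉ (algebraMap k K).range := by
    rintro ⟨b, hb⟩
    apply ha3
    refine ⟨(b + Algebra.trace k K a) / l, ?_⟩
    rw [map_div₀, map_add, hb, map_natCast]
    simp only [α]
    field_simp
    ring
  have hα4 : Algebra.trace k K α = 0 := by
    simp only [α, map_sub, Algebra.trace_algebraMap, ← nsmul_eq_mul, map_nsmul]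
    exact sub_self _
  have hint : IsIntegral k α := IsIntegral.of_finite k α
  have hdeg := H α hα3
  refine ⟨α, hα3, minpoly.monic hint, hdeg, ?_, fun i => ⟨?_, fun ψ => ?_⟩⟩
  · rw [trace_eq_finrank_mul_minpoly_nextCoeff, mul_eq_zero, neg_eq_zero] at hα4
    rcases hα4 with h | h
    · exact absurd (Nat.cast_eq_zero.mp h) finrank_pos.ne'
    · rwa [nextCoeff_of_natDegree_pos (hdeg ▸ hl0), hdeg] at h
  · rw [minpoly.isIntegrallyClosed_eq_field_fractions' (R := 𝓞 k) k hα1.tower_top, coeff_map]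
    exact RingOfIntegers.isIntegral_coe _
  · have h1 := coeff_le_of_roots_le (p := minpoly k α) (f := ψ) (B := 2 * l * R) i
      (minpoly.monic hint) (IsAlgClosed.splits _) (by
        intro z hz
        let : Algebra k ℂ := ψ.toAlgebra
        have : z ∈ (minpoly k α).rootSet ℂ := by
          rw [rootSet_def]
          exact Multiset.mem_toFinset.mpr hz
        rw [← Algebra.IsAlgebraic.range_eval_eq_rootSet_minpoly] at this
        obtain ⟨σ, rfl⟩ := this
        exact hα2 σ.toRingHom)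
    rw [coeff_map, hdeg] at h1
    refine h1.trans ?_
    gcongr
    exact_mod_cast Nat.choose_le_two_pow l i

lemma sum_range_sub (l : ℕ) : 2 * ∑ i ∈ Finset.range l, (l + 1 - i) = l * (l + 3) := by
  induction l with
  | zero => simp
  | succ l ih =>
    rw [Finset.sum_range_succ', mul_add]
    have : ∀ i, l + 1 + 1 - (i + 1) = l + 1 - i := fun i => by omega
    simp only [this, ih, Nat.sub_zero]
    ring

lemma card_goodPoly (k : Type*) [Field k] [NumberField k] (l : ℕ) (B : ℝ) (hB : 1 ≤ B)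
    (A : Finset k[X]) (hA : ∀ P ∈ A, GoodPoly (l + 1) B P) :
    (A.card : ℝ) ≤ (2 ^ (l + 3)) ^ (l * finrank ℚ k) *
      B ^ (finrank ℚ k * ∑ i ∈ Finset.range l, (l + 1 - i)) := by
  classical
  have h1 : A.card ≤ (Fintype.piFinset fun i : Fin l => A.image fun P => P.coeff i).card := by
    refine Finset.card_le_card_of_injOn (fun P (i : Fin l) => P.coeff i) ?_ ?_
    · intro P hP
      exact Fintype.mem_piFinset.mpr fun i => Finset.mem_image_of_mem _ hP
    · intro P hP Q hQ e
      obtain ⟨p1, p2, p3, -⟩ := hA P hP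
      obtain ⟨q1, q2, q3, -⟩ := hA Q hQ
      ext i
      rcases lt_trichotomy i l with h | rfl | h
      · exact congrFun e ⟨i, h⟩
      · rw [Nat.add_sub_cancel] at p3 q3
        rw [p3, q3]
      · rcases eq_or_lt_of_le (Nat.succ_le_of_lt h) with rfl | h'
        · have a1 : P.coeff (l + 1) = 1 := by rw [← p2]; exact p1
          have a2 : Q.coeff (l + 1) = 1 := by rw [← q2]; exact q1
          exact a1.trans a2.symm
        · rw [coeff_eq_zero_of_natDegree_lt (by omega), coeff_eq_zero_of_natDegree_lt (by omega)]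
  rw [Fintype.card_piFinset] at h1
  have h2 : ∀ i : ℕ, ((A.image fun P => P.coeff i).card : ℝ) ≤
      (2 ^ (l + 3) * B ^ (l + 1 - i)) ^ finrank ℚ k := by
    intro i
    have := card_le_of_small (⊤ : Submodule ℚ k) (2 * (B ^ (l + 1 - i) * 2 ^ (l + 1)))
      (A.image fun P => P.coeff i) (by
        intro a ha b hb
        obtain ⟨P, hP, rfl⟩ := Finset.mem_image.mp ha
        obtain ⟨Q, hQ, rfl⟩ := Finset.mem_image.mp hb
        have p := (hA P hP).2.2.2 i
        have q := (hA Q hQ).2.2.2 i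
        refine ⟨p.1.sub q.1, Submodule.mem_top, fun φ => ?_⟩
        rw [map_sub]
        exact (norm_sub_le _ _).trans (by have := p.2 φ; have := q.2 φ; linarith))
    rw [finrank_top] at this
    refine (Nat.cast_le.mpr this).trans ?_
    push_cast
    gcongr
    have h3 : (1 : ℝ) ≤ B ^ (l + 1 - i) * 2 ^ (l + 1) :=
      one_le_mul_of_one_le_of_one_le (one_le_pow₀ hB) (one_le_pow₀ one_le_two)
    have h4 := Nat.floor_le (a := 2 * (B ^ (l + 1 - i) * 2 ^ (l + 1))) (by linarith)
    have h5 : (2 : ℝ) ^ (l + 3) * B ^ (l + 1 - i) = 4 * (B ^ (l + 1 - i) * 2 ^ (l + 1)) := by ring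
    linarith
  calc (A.card : ℝ) ≤ ∏ i : Fin l, ((A.image fun P => P.coeff i).card : ℝ) := by exact_mod_cast h1
    _ ≤ ∏ i : Fin l, (2 ^ (l + 3) * B ^ (l + 1 - i)) ^ finrank ℚ k :=
        Finset.prod_le_prod (fun _ _ => by positivity) fun i _ => h2 i
    _ = _ := by
        rw [Finset.prod_pow, Finset.prod_mul_distrib, Finset.prod_const, Finset.card_univ,
          Fintype.card_fin, Finset.prod_pow_eq_pow_sum,
          Fin.sum_univ_eq_sum_range (fun i => l + 1 - i), mul_pow, ← pow_mul, ← pow_mul B,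
          mul_comm (∑ i ∈ Finset.range l, (l + 1 - i))]

/-- Counting minimal extensions with bounded discriminant. -/
lemma ext_count (m l : ℕ) (hm : 0 < m) (hl : 0 < l) : ∃ c : ℝ, 0 < c ∧
    ∀ (k Ω : Type) [Field k] [NumberField k] [Field Ω] [Algebra k Ω], finrank ℚ k = m →
    ∀ (X : ℝ), 1 ≤ X → ∀ A : Finset (IntermediateField k Ω),
    (∀ L ∈ A, finrank k L = l + 1 ∧ (∀ α ∈ L, α ∉ (⊥ : IntermediateField k Ω) →
      IntermediateField.adjoin k {α} = L) ∧ ∃ _ : NumberField L, |(discr L : ℝ)| ≤ X) →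
    (A.card : ℝ) ≤ c * X ^ ((l + 3 : ℝ) / 4) := by
  classical
  set c0 : ℝ := 2 ^ (m * (l + 1) + m + 1) with hc0
  have hc1 : 1 ≤ c0 := one_le_pow₀ one_le_two
  refine ⟨(l + 1) * ((2 ^ (l + 3)) ^ (l * m) *
    (2 * (l + 1 : ℕ) * c0) ^ (m * ∑ i ∈ Finset.range l, (l + 1 - i))), by positivity, ?_⟩
  intro k Ω _ _ _ _ hk X hX A hA
  set Y : ℝ := X ^ ((4 * m * l : ℕ) : ℝ)⁻¹ with hY
  have hY1 : 1 ≤ Y := Real.one_le_rpow hX (by positivity)
  have hYX : Y ^ (4 * m * l) = X := Real.rpow_inv_natCast_pow (by linarith) (by positivity)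
  have hR : 1 ≤ c0 * Y ^ 2 := one_le_mul_of_one_le_of_one_le hc1 (one_le_pow₀ hY1)
  have hgen : ∀ L ∈ A, ∃ α : Ω, IntermediateField.adjoin k {α} = L ∧ IsIntegral k α ∧
      GoodPoly (l + 1) (2 * (l + 1 : ℕ) * (c0 * Y ^ 2)) (minpoly k α) := by
    intro L hL
    obtain ⟨h1, h2, h3, h4⟩ := hA L hL
    have : FiniteDimensional k L := Module.finite_of_finrank_pos (by omega)
    have hbot : ∀ α : L, α ∉ (algebraMap k L).range → (α : Ω) ∉ (⊥ : IntermediateField k Ω) := by
      intro α hα hb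
      obtain ⟨b, hb⟩ := IntermediateField.mem_bot.mp hb
      exact hα ⟨b, Subtype.ext hb⟩
    have hintL : ∀ α : L, IsIntegral k (α : Ω) := fun α =>
      (IsIntegral.of_finite k α).map L.val
    obtain ⟨α, hα1, hα2⟩ := small_gen k L (by
      intro α hα
      rw [IntermediateField.minpoly_eq, ← IntermediateField.adjoin.finrank (hintL α),
        h2 α α.2 (hbot α hα)]) (c0 * Y ^ 2) hR (by
      have e : finrank ℚ L = m * (l + 1) := by
        rw [← Module.finrank_mul_finrank ℚ k L, hk, h1]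
      have h5 : √|(discr L : ℝ)| ≤ Y ^ (2 * m * l) := by
        rw [Real.sqrt_le_left (by positivity), ← pow_mul]
        refine h4.trans_eq ?_
        rw [← hYX]; congr 1; ring
      rw [e, hk]
      have h6 : (2 : ℝ) ^ (m * (l + 1) + m) < c0 ^ (m * l) := by
        refine lt_of_lt_of_le ?_ (le_self_pow₀ hc1 (by positivity))
        exact pow_lt_pow_right₀ one_lt_two (Nat.lt_succ_self _)
      rw [div_pow, lt_div_iff₀ (by positivity)]
      calc (2 * (c0 * Y ^ 2)) ^ m * √|(discr L : ℝ)| * 2 ^ (m * (l + 1))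
          ≤ (2 * (c0 * Y ^ 2)) ^ m * Y ^ (2 * m * l) * 2 ^ (m * (l + 1)) := by gcongr
        _ = 2 ^ (m * (l + 1) + m) * ((c0 * Y ^ 2) ^ m * Y ^ (2 * m * l)) := by
            rw [mul_pow, pow_add]; ring
        _ < c0 ^ (m * l) * ((c0 * Y ^ 2) ^ m * Y ^ (2 * m * l)) := by gcongr
        _ = _ := by rw [mul_add, mul_one, pow_add, mul_pow _ _ (m * l), ← pow_mul]; ring)
    refine ⟨α, h2 α α.2 (hbot α hα1), hintL α, ?_⟩
    rwa [h1, IntermediateField.minpoly_eq] at hα2
  choose! gen hg1 hg2 hg3 using hgen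
  have hcard : A.card ≤ (l + 1) * (A.image fun L => minpoly k (gen L)).card := by
    refine Finset.card_le_mul_card_image A _ fun P hP => ?_
    obtain ⟨L0, hL0, rfl⟩ := Finset.mem_image.mp hP
    have h1 : ((minpoly k (gen L0)).aroots Ω).toFinset.card ≤ l + 1 := by
      refine (Multiset.toFinset_card_le _).trans ?_
      rw [← (hg3 L0 hL0).2.1]
      exact (card_roots' _).trans natDegree_map_le
    refine le_trans (Finset.card_le_card_of_injOn gen ?_ ?_) h1
    · intro L hL
      have hL' := Finset.mem_filter.mp hL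
      simp only [Finset.mem_coe, Multiset.mem_toFinset, mem_aroots]
      refine ⟨minpoly.ne_zero (hg2 L0 hL0), ?_⟩
      rw [← hL'.2]; exact minpoly.aeval _ _
    · intro L hL L' hL' e
      rw [← hg1 L (Finset.mem_filter.mp hL).1, ← hg1 L' (Finset.mem_filter.mp hL').1, e]
  have h2 := card_goodPoly k l (2 * (l + 1 : ℕ) * (c0 * Y ^ 2)) (by
      have : (1 : ℝ) ≤ (l + 1 : ℕ) := by exact_mod_cast Nat.succ_pos l
      nlinarith) (A.image fun L => minpoly k (gen L)) (by
      intro P hP
      obtain ⟨L, hL, rfl⟩ := Finset.mem_image.mp hP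
      exact hg3 L hL)
  rw [hk] at h2
  have h3 : (Y ^ 2) ^ (m * ∑ i ∈ Finset.range l, (l + 1 - i)) = X ^ ((l + 3 : ℝ) / 4) := by
    rw [← pow_mul, mul_left_comm, sum_range_sub, hY, ← Real.rpow_natCast,
      ← Real.rpow_mul (by linarith)]
    congr 1
    push_cast
    field_simp
  calc (A.card : ℝ) ≤ (l + 1) * ((A.image fun L => minpoly k (gen L)).card : ℝ) := by
        exact_mod_cast hcard
    _ ≤ (l + 1) * _ := mul_le_mul_of_nonneg_left h2 (by positivity)
    _ = _ := by rw [← h3, ← mul_assoc (2 * _), mul_pow _ (Y ^ 2)]; ring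

end Pool.Agent.Lib.MP_651af7_nt
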