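import Mathlib

namespace Pool.Agent.Lib.MP_651af7_nt

open Module Polynomial

/-- `U + X U`. -/
noncomputable def plus (U : Submodule ℚ ℚ[X]) : Submodule ℚ ℚ[X] :=
  U ⊔ U.map (LinearMap.mulLeft ℚ (X : ℚ[X]))

lemma mulLeft_X_inj : Function.Injective (LinearMap.mulLeft ℚ (X : ℚ[X])) := by
  intro a b h
  exact mul_left_cancel₀ X_ne_zero h

instance (U : Submodule ℚ ℚ[X]) [FiniteDimensional ℚ U] : FiniteDimensional ℚ (plus U) := by
  unfold plus; infer_instance

lemma finrank_degreeLT (m : ℕ) : finrank ℚ (degreeLT ℚ m) = m := by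
  rw [(degreeLTEquiv ℚ m).finrank_eq]; simp

instance (m : ℕ) : FiniteDimensional ℚ (degreeLT ℚ m) :=
  (degreeLTEquiv ℚ m).symm.finiteDimensional

lemma plus_le {U : Submodule ℚ ℚ[X]} {m : ℕ} (h : U ≤ degreeLT ℚ m) :
    plus U ≤ degreeLT ℚ (m + 1) := by
  refine sup_le (h.trans (degreeLT_mono (Nat.le_succ m))) ?_
  rintro _ ⟨u, hu, rfl⟩
  have := mem_degreeLT.mp (h hu)
  rw [mem_degreeLT, LinearMap.mulLeft_apply, mul_comm, degree_mul_X]
  by_cases h0 : u = 0
  · simp [h0]
  · rw [degree_eq_natDegree h0] at this ⊢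
    exact_mod_cast Nat.succ_lt_succ (by exact_mod_cast this)

lemma finrank_plus_ge (U : Submodule ℚ ℚ[X]) [FiniteDimensional ℚ U] (hU : U ≠ ⊥) :
    finrank ℚ U + 1 ≤ finrank ℚ (plus U) := by
  refine Submodule.finrank_lt_finrank_of_lt (lt_of_le_of_ne le_sup_left ?_)
  intro h
  obtain ⟨u, hu, hu0⟩ := (Submodule.ne_bot_iff U).mp hU
  have hX : ∀ v ∈ U, X * v ∈ U := by
    intro v hv
    rw [h]
    exact Submodule.mem_sup_right ⟨v, hv, rfl⟩
  have hpow : ∀ i : ℕ, X ^ i * u ∈ U := by
    intro i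
    induction i with
    | zero => simpa using hu
    | succ i ih => rw [pow_succ', mul_assoc]; exact hX _ ih
  have hli : LinearIndependent ℚ (fun i : ℕ => (X : ℚ[X]) ^ i * u) := by
    have h1 : LinearIndependent ℚ (fun i : ℕ => (X : ℚ[X]) ^ i) := by
      have := (Polynomial.basisMonomials ℚ).linearIndependent
      simpa [Polynomial.coe_basisMonomials, monomial_one_right_eq_X_pow] using this
    exact h1.map' (LinearMap.mulRight ℚ u)
      (LinearMap.ker_eq_bot.mpr fun a b hab => mul_right_cancel₀ hu0 hab)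
  have h3 : LinearIndependent ℚ (fun i : ℕ => (⟨X ^ i * u, hpow i⟩ : U)) :=
    LinearIndependent.of_comp U.subtype hli
  have := h3.finite
  exact _root_.not_finite ℕ

lemma finrank_plus_ge_two (U : Submodule ℚ ℚ[X]) (m : ℕ) (hU : U ≤ degreeLT ℚ (m + 1))
    (F1 F2 : ℚ[X]) (h1 : F1 ∈ U) (h2 : F2 ∈ U) (hc : IsCoprime F1 F2)
    (F : ℚ[X]) (hF : F ∈ U) (hFm : F.coeff m ≠ 0) (hne : U ≠ degreeLT ℚ (m + 1)) :
    finrank ℚ U + 2 ≤ finrank ℚ (plus U) := by
  classical
  have : FiniteDimensional ℚ U := Submodule.finiteDimensional_of_le hU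
  by_contra hlt
  push Not at hlt
  let μ := LinearMap.mulLeft ℚ (X : ℚ[X])
  have e1 := Submodule.finrank_sup_add_finrank_inf_eq U (U.map μ)
  have e2 : finrank ℚ (U.map μ) = finrank ℚ U :=
    (Submodule.equivMapOfInjective μ mulLeft_X_inj U).finrank_eq.symm
  let U0 : Submodule ℚ ℚ[X] := U ⊓ degreeLT ℚ m
  have hU0 : finrank ℚ U0 < finrank ℚ U := by
    refine Submodule.finrank_lt_finrank_of_lt (lt_of_le_of_ne inf_le_left ?_)
    intro h
    have : F ∈ U0 := h ▸ hF
    exact hFm (coeff_eq_zero_of_degree_lt (mem_degreeLT.mp this.2))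
  have hle : U ⊓ U.map μ ≤ U0.map μ := by
    rintro _ ⟨hx, u, hu, rfl⟩
    refine ⟨u, ⟨hu, ?_⟩, rfl⟩
    have := mem_degreeLT.mp (hU hx)
    rw [LinearMap.mulLeft_apply, mul_comm, degree_mul_X] at this
    refine mem_degreeLT.mpr ?_
    by_cases h0 : u = 0
    · simp [h0]
    · rw [degree_eq_natDegree h0] at this ⊢
      exact_mod_cast Nat.lt_of_succ_lt_succ (by exact_mod_cast this)
  have e3 : finrank ℚ (U0.map μ) = finrank ℚ U0 :=
    (Submodule.equivMapOfInjective μ mulLeft_X_inj U0).finrank_eq.symm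
  have heq : U ⊓ U.map μ = U0.map μ := by
    refine Submodule.eq_of_le_of_finrank_le hle ?_
    change finrank ℚ (plus U) + _ = _ at e1
    omega
  have hX : ∀ u ∈ U, u.degree < m → X * u ∈ U := by
    intro u hu hd
    have : μ u ∈ U ⊓ U.map μ := heq ▸ ⟨u, ⟨hu, mem_degreeLT.mpr hd⟩, rfl⟩
    exact this.1
  -- minimal degree element
  have hex : ∃ d, ∃ G ∈ U, G ≠ 0 ∧ G.natDegree = d :=
    ⟨_, F, hF, fun h => hFm (by simp [h]), rfl⟩
  obtain ⟨G, hG, hG0, hGd⟩ := Nat.find_spec hex
  have hmin : ∀ u ∈ U, u ≠ 0 → G.natDegree ≤ u.natDegree := by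
    intro u hu hu0
    rw [hGd]
    exact Nat.find_min' hex ⟨u, hu, hu0, rfl⟩
  have hpow : ∀ i, G.natDegree + i ≤ m → X ^ i * G ∈ U := by
    intro i
    induction i with
    | zero => intro _; simpa using hG
    | succ i ih =>
      intro hi
      rw [pow_succ', mul_assoc]
      refine hX _ (ih (by omega)) ?_
      have hne0 : X ^ i * G ≠ 0 := mul_ne_zero (pow_ne_zero _ X_ne_zero) hG0
      rw [degree_eq_natDegree hne0, natDegree_X_pow_mul i hG0]
      exact_mod_cast (by omega : G.natDegree + i < m)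
  have hmul : ∀ H : ℚ[X], (H = 0 ∨ G.natDegree + H.natDegree ≤ m) → H * G ∈ U := by
    rintro H (rfl | hH)
    · simp
    rw [H.as_sum_range_C_mul_X_pow, Finset.sum_mul]
    refine U.sum_mem fun i hi => ?_
    rw [mul_assoc, ← smul_eq_C_mul]
    refine U.smul_mem _ (hpow i ?_)
    have := Finset.mem_range.mp hi
    omega
  have hdvd : ∀ u ∈ U, G ∣ u := by
    intro u hu
    have hq : u / G * G ∈ U := by
      refine hmul _ ?_
      by_cases hq0 : u / G = 0
      · exact Or.inl hq0
      · right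
        have hu0 : u ≠ 0 := fun h => hq0 (by simp [h])
        have hdeg : u.natDegree ≤ m := by
          have := mem_degreeLT.mp (hU hu)
          rw [degree_eq_natDegree hu0] at this
          exact Nat.le_of_lt_succ (by exact_mod_cast this)
        have hle' : G.degree ≤ u.degree := by
          by_contra hh
          exact hq0 ((Polynomial.div_eq_zero_iff hG0).mpr (not_le.mp hh))
        have := degree_add_div hG0 hle'
        rw [degree_eq_natDegree hG0, degree_eq_natDegree hq0, degree_eq_natDegree hu0] at this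
        have : G.natDegree + (u / G).natDegree = u.natDegree := by exact_mod_cast this
        omega
    have hr : u % G ∈ U := by
      have : u % G = u - u / G * G := by
        rw [EuclideanDomain.mod_eq_sub_mul_div, mul_comm]
      rw [this]
      exact U.sub_mem hu hq
    by_contra hnd
    have hr0 : u % G ≠ 0 := fun h => hnd (EuclideanDomain.mod_eq_zero.mp h)
    have h5 := hmin _ hr hr0
    have h6 : (u % G).natDegree < G.natDegree := natDegree_lt_natDegree hr0 (degree_mod_lt u hG0)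
    omega
  have hunit : IsUnit G := hc.isUnit_of_dvd' (hdvd _ h1) (hdvd _ h2)
  apply hne
  refine le_antisymm hU fun H hH => ?_
  obtain ⟨G', hG'⟩ := hunit.exists_left_inv
  have hG'u : IsUnit G' := IsUnit.of_mul_eq_one G hG'
  have : H = (H * G') * G := by rw [mul_assoc, hG', mul_one]
  rw [this]
  refine hmul _ ?_
  by_cases h0 : H = 0
  · left; simp [h0]
  · right
    have := mem_degreeLT.mp hH
    rw [degree_eq_natDegree h0] at this
    have h7 : H.natDegree < m + 1 := by exact_mod_cast this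
    rw [natDegree_mul h0 hG'u.ne_zero, natDegree_eq_zero_of_isUnit hunit,
      natDegree_eq_zero_of_isUnit hG'u]
    omega

lemma le_plus (U : Submodule ℚ ℚ[X]) : U ≤ plus U := le_sup_left

lemma finiteDimensional_iterate (e : ℕ) : ∀ (U : Submodule ℚ ℚ[X]), FiniteDimensional ℚ U →
    FiniteDimensional ℚ (plus^[e] U) := by
  induction e with
  | zero => intro U h; exact h
  | succ e ih => intro U h; exact ih _ inferInstance

lemma finrank_iterate_ge (e : ℕ) : ∀ (U : Submodule ℚ ℚ[X]), FiniteDimensional ℚ U → U ≠ ⊥ →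
    finrank ℚ U + e ≤ finrank ℚ (plus^[e] U) := by
  induction e with
  | zero => intro U _ _; exact le_rfl
  | succ e ih =>
    intro U h hU
    have h1 := finrank_plus_ge U hU
    have h2 := ih (plus U) inferInstance (fun h => hU (le_bot_iff.mp (h ▸ le_plus U)))
    rw [Function.iterate_succ_apply]
    omega

lemma finrank_iterate_full (e : ℕ) : ∀ (m : ℕ) (U : Submodule ℚ ℚ[X]),
    U ≤ degreeLT ℚ (m + 1) → ∀ F1 F2 : ℚ[X], F1 ∈ U → F2 ∈ U → IsCoprime F1 F2 →
    ∀ F ∈ U, F.coeff m ≠ 0 → m + 1 ≤ finrank ℚ U + e →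
    m + e + 1 ≤ finrank ℚ (plus^[e] U) := by
  induction e with
  | zero => intro m U _ _ _ _ _ _ _ _ _ h; exact h
  | succ e ih =>
    intro m U hU F1 F2 h1 h2 hc F hF hFm h
    have : FiniteDimensional ℚ U := Submodule.finiteDimensional_of_le hU
    rw [Function.iterate_succ_apply]
    have := ih (m + 1) (plus U) (plus_le hU) F1 F2 (le_plus U h1) (le_plus U h2) hc (X * F)
      (Submodule.mem_sup_right ⟨F, hF, rfl⟩) (by rwa [coeff_X_mul]) ?_
    · omega
    · by_cases hne : U = degreeLT ℚ (m + 1)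
      · have h3 := finrank_plus_ge U (fun h0 => hFm (by
          have : F = 0 := by simpa [h0] using hF
          simp [this]))
        have h4 : finrank ℚ U = m + 1 := by rw [hne, finrank_degreeLT]
        omega
      · have := finrank_plus_ge_two U m hU F1 F2 h1 h2 hc F hF hFm hne
        omega

/-- The set of products `X ^ a * F`, `a ≤ e`, `F ∈ A`. -/
def shifts (e : ℕ) (A : Set ℚ[X]) : Set ℚ[X] := {G | ∃ a ≤ e, ∃ F ∈ A, G = X ^ a * F}

lemma iterate_le_span_shifts (e : ℕ) (A : Set ℚ[X]) :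
    plus^[e] (Submodule.span ℚ A) ≤ Submodule.span ℚ (shifts e A) := by
  induction e with
  | zero =>
    exact Submodule.span_mono fun F hF => ⟨0, le_rfl, F, hF, by simp⟩
  | succ e ih =>
    rw [Function.iterate_succ_apply']
    refine sup_le (ih.trans (Submodule.span_mono ?_)) ((Submodule.map_mono ih).trans ?_)
    · rintro _ ⟨a, ha, F, hF, rfl⟩
      exact ⟨a, by omega, F, hF, rfl⟩
    · rw [Submodule.map_span]
      refine Submodule.span_mono ?_
      rintro _ ⟨_, ⟨a, ha, F, hF, rfl⟩, rfl⟩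
      exact ⟨a + 1, by omega, F, hF, by simp [pow_succ', mul_assoc]⟩

lemma span_shifts_le (e m : ℕ) (A : Set ℚ[X]) (hA : A ⊆ degreeLT ℚ (m + 1)) :
    Submodule.span ℚ (shifts e A) ≤ degreeLT ℚ (m + e + 1) := by
  rw [Submodule.span_le]
  rintro _ ⟨a, ha, F, hF, rfl⟩
  have := mem_degreeLT.mp (hA hF)
  refine mem_degreeLT.mpr ?_
  by_cases h0 : F = 0
  · simp [h0]
  · have hne0 : X ^ a * F ≠ 0 := mul_ne_zero (pow_ne_zero _ X_ne_zero) h0
    rw [degree_eq_natDegree h0] at this
    have h7 : F.natDegree < m + 1 := by exact_mod_cast this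
    rw [degree_eq_natDegree hne0, natDegree_X_pow_mul a h0]
    exact_mod_cast (by omega : F.natDegree + a < m + e + 1)

end Pool.Agent.Lib.MP_651af7_nt
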