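import Pool.Agent.Lib.MP_651af7_nt.Local

namespace Pool.Agent.Lib.MP_651af7_nt

open Module Polynomial NumberField

section

variable {K : Type*} [Field K] [NumberField K]

lemma aroots_eq_embeddings (E : Type*) [Field E] [Algebra ℚ E] [IsAlgClosed E] (y : K)
    (hy : (minpoly ℚ y).natDegree = finrank ℚ K) :
    (minpoly ℚ y).aroots E = Finset.univ.val.map (fun τ : K →ₐ[ℚ] E => τ y) := by
  classical
  have hint : IsIntegral ℚ y := IsIntegral.of_finite ℚ y
  have htop : IntermediateField.adjoin ℚ {y} = ⊤ :=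
    (Field.primitive_element_iff_minpoly_natDegree_eq ℚ y).mpr hy
  have hinj : Function.Injective (fun τ : K →ₐ[ℚ] E => τ y) :=
    (Field.primitive_element_iff_algHom_eq_of_eval' ℚ E (fun _ => IsAlgClosed.splits _) y).mp htop
  symm
  refine Multiset.eq_of_le_of_card_le ?_ ?_
  · rw [Multiset.le_iff_subset (Finset.univ.nodup.map hinj)]
    intro z hz
    obtain ⟨τ, -, rfl⟩ := Multiset.mem_map.mp hz
    rw [mem_aroots]
    exact ⟨minpoly.ne_zero hint, by rw [aeval_algHom_apply, minpoly.aeval, map_zero]⟩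
  · rw [IsAlgClosed.card_aroots_eq_natDegree, hy, Multiset.card_map, Finset.card_val,
      Finset.card_univ, AlgHom.card]

lemma prod_places_eq (f : ℝ → ℝ) (y : K) :
    ∏ w : InfinitePlace K, f (w y) ^ w.mult = ∏ τ : K →ₐ[ℚ] ℂ, f ‖τ y‖ := by
  classical
  rw [← Fintype.prod_equiv (RingHom.equivRatAlgHom K ℂ) (fun φ => f ‖φ y‖)
      (fun φ => f ‖φ y‖) fun _ => by simp [RingHom.equivRatAlgHom_apply]]
  rw [← Finset.prod_fiberwise Finset.univ InfinitePlace.mk (fun φ => f ‖φ y‖)]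
  refine Finset.prod_congr rfl fun w _ => ?_
  rw [Finset.prod_congr rfl (g := fun _ => f (w y)), Finset.prod_const,
    InfinitePlace.card_filter_mk_eq]
  intro φ hφ
  rw [← (Finset.mem_filter.mp hφ).2, InfinitePlace.apply]

lemma intP_of_absNorm (y : K) (hy : (minpoly ℚ y).natDegree = finrank ℚ K) (ν : ℕ) (hν : ν ≠ 0)
    (a : 𝓞 K) (ha : ν * y = a)
    (hN : (Ideal.span {(ν : 𝓞 K), a}).absNorm = ν ^ (finrank ℚ K - 1)) :
    IntP (C (ν : ℚ) * minpoly ℚ y) := by
  classical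
  have hint : IsIntegral ℚ y := IsIntegral.of_finite ℚ y
  set I : Ideal (𝓞 K) := Ideal.span {(ν : 𝓞 K), a} with hI
  have hνI : (ν : 𝓞 K) ∈ I := Ideal.subset_span (by simp)
  have haI : a ∈ I := Ideal.subset_span (by simp)
  have hI0 : I ≠ ⊥ := fun h => by
    rw [h, Ideal.mem_bot] at hνI
    exact hν (by exact_mod_cast hνI)
  let b := RingOfIntegers.basis K
  let bI := Ideal.selfBasis b I hI0
  have hcard : Fintype.card (Module.Free.ChooseBasisIndex ℤ (𝓞 K)) = finrank ℚ K := by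
    rw [← Module.finrank_eq_card_chooseBasisIndex, RingOfIntegers.rank]
  let P := b.toMatrix ((↑) ∘ bI)
  have hP : P.det.natAbs = ν ^ (finrank ℚ K - 1) := by
    rw [← hN, ← Ideal.natAbs_det_basis_change b I bI, Basis.det_apply]
  let Bm : Matrix _ _ ℤ := Matrix.of fun i j => bI.repr ⟨b j * ν, I.mul_mem_left _ hνI⟩ i
  let Am : Matrix _ _ ℤ := Matrix.of fun i j => bI.repr ⟨b j * a, I.mul_mem_left _ haI⟩ i
  have hsum : ∀ x : I, ∑ i, bI.repr x i • ((bI i : I) : 𝓞 K) = x := by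
    intro x
    have := congrArg (fun t : I => (t : 𝓞 K)) (bI.sum_repr x)
    simp only [AddSubmonoidClass.coe_finsetSum, AddSubgroupClass.coe_zsmul] at this
    exact this
  have hPB : P * Bm = (ν : ℤ) • (1 : Matrix _ _ ℤ) := by
    ext i j
    have h1 := congrArg (fun t => b.repr t i) (hsum ⟨b j * ν, I.mul_mem_left _ hνI⟩)
    simp only [map_sum, map_zsmul, Finsupp.coe_finsetSum, Finset.sum_apply, Finsupp.smul_apply,
      smul_eq_mul] at h1
    simp only [Matrix.mul_apply, P, Bm, Basis.toMatrix_apply, Function.comp_apply,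
      Matrix.of_apply, Matrix.smul_apply, smul_eq_mul]
    rw [Finset.sum_congr rfl fun k _ => mul_comm _ _, h1, mul_comm (b j), ← nsmul_eq_mul,
      map_nsmul, Finsupp.smul_apply, Basis.repr_self, Finsupp.single_apply, Matrix.one_apply]
    simp [eq_comm]
  have hB : Bm.det.natAbs = ν := by
    have h1 := congrArg (fun M => Int.natAbs (Matrix.det M)) hPB
    simp only [Matrix.det_mul, Int.natAbs_mul, hP, Matrix.det_smul, Matrix.det_one, mul_one,
      Int.natAbs_pow, Int.natAbs_natCast, hcard] at h1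
    have h2 : ν ^ finrank ℚ K = ν ^ (finrank ℚ K - 1) * ν :=
      (pow_sub_one_mul finrank_pos.ne' ν).symm
    rw [h2] at h1
    exact mul_left_cancel₀ (pow_ne_zero _ hν) h1
  let G : ℤ[X] := Matrix.det ((X : ℤ[X]) • Bm.map C + (-Am).map C)
  have hG1 : G.natDegree ≤ finrank ℚ K := hcard ▸ natDegree_det_X_add_C_le Bm (-Am)
  have hG2 : G.coeff (finrank ℚ K) = Bm.det := hcard ▸ coeff_det_X_add_C_card Bm (-Am)
  have hG3 : aeval y G = 0 := by
    have e : aeval y G = ((aeval y : ℤ[X] →ₐ[ℤ] K).toRingHom.mapMatrix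
        ((X : ℤ[X]) • Bm.map C + (-Am).map C)).det := by
      rw [← RingHom.map_det]; rfl
    rw [e]
    refine Matrix.exists_vecMul_eq_zero_iff.mp ⟨fun i => (((bI i : I) : 𝓞 K) : K), ?_, ?_⟩
    · intro h
      have : Nonempty (Module.Free.ChooseBasisIndex ℤ (𝓞 K)) :=
        Fintype.card_pos_iff.mp (hcard ▸ finrank_pos)
      obtain ⟨i⟩ := this
      have h1 := congrFun h i
      simp only [Pi.zero_apply] at h1
      exact bI.ne_zero i (Subtype.ext (RingOfIntegers.coe_eq_zero_iff.mp h1))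
    · funext j
      have h1 := congrArg (fun t : 𝓞 K => (t : K)) (hsum ⟨b j * ν, I.mul_mem_left _ hνI⟩)
      have h2 := congrArg (fun t : 𝓞 K => (t : K)) (hsum ⟨b j * a, I.mul_mem_left _ haI⟩)
      simp only [map_sum, map_mul, map_natCast, zsmul_eq_mul, map_intCast] at h1 h2
      simp only [Matrix.vecMul, dotProduct, RingHom.mapMatrix_apply, Matrix.map_apply,
        Matrix.add_apply, Matrix.smul_apply, smul_eq_mul, Matrix.neg_apply, Bm, Am,
        Matrix.of_apply, AlgHom.toRingHom_eq_coe, RingHom.coe_coe, map_add, map_mul, aeval_X,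
        map_neg, Pi.zero_apply, eq_intCast, map_intCast]
      have h3 : ∀ i, algebraMap (𝓞 K) K (bI i) *
          (y * (bI.repr ⟨b j * ν, I.mul_mem_left _ hνI⟩ i : K) +
            -(bI.repr ⟨b j * a, I.mul_mem_left _ haI⟩ i : K)) =
          y * ((bI.repr ⟨b j * ν, I.mul_mem_left _ hνI⟩ i : K) * algebraMap (𝓞 K) K (bI i)) -
            (bI.repr ⟨b j * a, I.mul_mem_left _ haI⟩ i : K) * algebraMap (𝓞 K) K (bI i) :=
        fun i => by ring
      rw [Finset.sum_congr rfl fun i _ => h3 i, Finset.sum_sub_distrib, ← Finset.mul_sum, h1, h2]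
      have h4 : algebraMap (𝓞 K) K a = ν * y := ha.symm
      rw [h4]; ring
  have hB0 : Bm.det ≠ 0 := fun h => hν (by rw [← hB, h]; rfl)
  let G' : ℚ[X] := G.map (algebraMap ℤ ℚ)
  have hG' : G' = C (Bm.det : ℚ) * minpoly ℚ y := by
    have h1 : minpoly ℚ y ∣ G' := minpoly.dvd ℚ y (by rw [aeval_map_algebraMap]; exact hG3)
    have h2 : G'.natDegree ≤ (minpoly ℚ y).natDegree := by
      rw [hy]; exact natDegree_map_le.trans hG1
    have h3 := eq_leadingCoeff_mul_of_monic_of_dvd_of_natDegree_le (minpoly.monic hint) h1 h2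
    have h4 : G'.coeff (finrank ℚ K) = (Bm.det : ℚ) := by simp [G', hG2]
    have h5 : G'.natDegree = finrank ℚ K :=
      le_antisymm (hy ▸ h2) (le_natDegree_of_ne_zero (by rw [h4]; exact_mod_cast hB0))
    rw [h3, leadingCoeff, h5, h4]
  intro i
  have h6 := congrArg (fun p => p.coeff i) hG'
  simp only [G', coeff_map, coeff_C_mul, eq_intCast] at h6
  rw [coeff_C_mul]
  rcases Int.natAbs_eq Bm.det with h | h
  · refine ⟨G.coeff i, ?_⟩
    rw [h6, h, hB]; simp
  · refine ⟨-G.coeff i, ?_⟩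
    rw [Int.cast_neg, h6, h, hB]; simp

lemma exists_int_multiple (y : K) (hy : (minpoly ℚ y).natDegree = finrank ℚ K) :
    ∃ ν : ℕ, ν ≠ 0 ∧ IntP (C (ν : ℚ) * minpoly ℚ y) ∧
      ν * ∏ τ : K →ₐ[ℚ] ℂ, max 1 ‖τ y‖ = Height.mulHeight₁ y := by
  obtain ⟨ν, hν, a, ha₁, ha₂⟩ :=
    exists_nat_ne_zero_exists_integer_mul_eq_and_absNorm_span_eq_pow y
  refine ⟨ν, hν, intP_of_absNorm y hy ν hν a ha₁ ha₂, ?_⟩
  have hν' : (ν : K) ≠ 0 := by exact_mod_cast hν
  have hνR : (0 : ℝ) < ν := by exact_mod_cast Nat.pos_of_ne_zero hν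
  have hv (i : Fin 2) : (![a, ν] i : K) = ![(a : K), ν] i := by fin_cases i <;> rfl
  have e : Height.mulHeight₁ y = Height.mulHeight ![(a : K), ν] := by
    rw [← Height.mulHeight₁_div_eq_mulHeight, ← ha₁, mul_div_cancel_left₀ y hν']
  have h1 : (ν : ℝ) ^ (finrank ℚ K - 1) *
      ∏ᶠ (v : FinitePlace K), ⨆ i, v (![(a : K), ν] i) = 1 := by
    have := absNorm_mul_finprod_finitePlace_eq_one (show ![a, ν] ≠ 0 by simp [hν])
    have e2 : Set.range ![a, (ν : 𝓞 K)] = {(ν : 𝓞 K), a} := by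
      rw [Matrix.range_cons, Matrix.range_cons, Matrix.range_empty, Set.union_empty,
        Set.singleton_union, Set.pair_comm]
    rw [e2, ha₂] at this
    simpa [hv] using this
  have h2 : ∀ w : InfinitePlace K, (⨆ i, w (![(a : K), ν] i)) = ν * max 1 (w y) := by
    intro w
    have : (⨆ i, w (![(a : K), ν] i)) = max (w a) (w ν) := by
      refine le_antisymm (ciSup_le fun i => ?_) (max_le ?_ ?_)
      · fin_cases i <;> simp
      · exact Finite.le_ciSup_of_le 0 (by simp)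
      · exact Finite.le_ciSup_of_le 1 (by simp)
    rw [this, ← ha₁, map_mul, InfinitePlace.map_natCast, mul_max_of_nonneg _ _ hνR.le, mul_one,
      max_comm]
  rw [e, mulHeight_eq (by simp [hν]), ← prod_places_eq (fun t => max 1 t) y]
  simp_rw [h2, mul_pow]
  rw [Finset.prod_mul_distrib, Finset.prod_pow_eq_pow_sum, InfinitePlace.sum_mult_eq,
    ← pow_sub_one_mul (finrank_pos (R := ℚ) (M := K)).ne' (ν : ℝ)]
  calc _ = (ν * ∏ w : InfinitePlace K, max 1 (w y) ^ w.mult) * ((ν : ℝ) ^ (finrank ℚ K - 1) *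
      ∏ᶠ (v : FinitePlace K), ⨆ i, v (![(a : K), ν] i)) := by rw [h1, mul_one]
    _ = _ := by ring

end

end Pool.Agent.Lib.MP_651af7_nt
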