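import Mathlib

/-! Bivariate relations between two elements of a field extension. -/

namespace Pool.Agent.Lib.MP_651af7_nt.Iv

open Polynomial IntermediateField
open scoped Polynomial.Bivariate

variable {k Ω : Type} [Field k] [Field Ω] [Algebra k Ω]

/-- Specialisation of the inner variable. -/
noncomputable def sp {A : Type} [CommRing A] [Algebra k A] (x : A) (p : k[X][Y]) : A[X] :=
  p.map (aeval x : k[X] →ₐ[k] A).toRingHom

lemma aeval_sp {A : Type} [CommRing A] [Algebra k A] [Algebra A Ω] [IsScalarTower k A Ω] (x : A)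
    (y : Ω) (p : k[X][Y]) : aeval y (sp x p) = aevalAeval (algebraMap A Ω x) y p := by
  induction p using Polynomial.induction_on' with
  | add p q hp hq => simp only [sp, Polynomial.map_add, map_add] at hp hq ⊢; rw [hp, hq]
  | monomial n a =>
    rw [← C_mul_X_pow_eq_monomial, map_mul, map_pow, aevalAeval_C, aevalAeval_Y]
    simp [sp, aeval_algebraMap_apply]

lemma sp_inj {A : Type} [CommRing A] [Algebra k A] {x : A} (hx : Transcendental k x) :
    Function.Injective (aeval x : k[X] →ₐ[k] A).toRingHom :=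
  transcendental_iff_injective.1 hx

lemma sp_ne_zero {A : Type} [CommRing A] [Algebra k A] {x : A} (hx : Transcendental k x)
    {p : k[X][Y]} (hp : p ≠ 0) : sp x p ≠ 0 :=
  (Polynomial.map_ne_zero_iff (sp_inj hx)).2 hp

lemma natDegree_sp {A : Type} [CommRing A] [Algebra k A] {x : A} (hx : Transcendental k x)
    (p : k[X][Y]) : (sp x p).natDegree = p.natDegree :=
  natDegree_map_eq_of_injective (sp_inj hx) p

lemma trans_mk {A : IntermediateField k Ω} {x : Ω} (hx : x ∈ A) (ht : Transcendental k x) :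
    Transcendental k (⟨x, hx⟩ : A) :=
  (transcendental_algebraMap_iff (algebraMap A Ω).injective).1 ht

lemma root_of_rel {A : IntermediateField k Ω} {x y : Ω} (hx : x ∈ A) (ht : Transcendental k x)
    {p : k[X][Y]} (hp : p ≠ 0) (h : aevalAeval x y p = 0) :
    ∃ q : A[X], q ≠ 0 ∧ q.natDegree = p.natDegree ∧ aeval y q = 0 :=
  ⟨sp (⟨x, hx⟩ : A) p, sp_ne_zero (trans_mk hx ht) hp, natDegree_sp (trans_mk hx ht) p,
    by rw [aeval_sp]; exact h⟩

lemma alg_of_rel {A : IntermediateField k Ω} {x y : Ω} (hx : x ∈ A) (ht : Transcendental k x)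
    {p : k[X][Y]} (hp : p ≠ 0) (h : aevalAeval x y p = 0) : IsAlgebraic A y := by
  obtain ⟨q, h0, -, h1⟩ := root_of_rel hx ht hp h
  exact ⟨q, h0, h1⟩

lemma rel_of_alg {x y : Ω} (h : IsAlgebraic k⟮x⟯ y) :
    ∃ p : k[X][Y], p ≠ 0 ∧ aevalAeval x y p = 0 := by
  obtain ⟨q, h0, h1⟩ := isAlgebraic_adjoin_iff.1 h
  let x' : Algebra.adjoin k {x} := ⟨x, Algebra.self_mem_adjoin_singleton k x⟩
  have hs : Function.Surjective (aeval x' : k[X] →ₐ[k] Algebra.adjoin k {x}).toRingHom := by
    rintro ⟨z, hz⟩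
    rw [Algebra.adjoin_singleton_eq_range_aeval] at hz
    obtain ⟨r, rfl⟩ := hz
    exact ⟨r, Subtype.ext (aeval_algebraMap_apply Ω x' r).symm⟩
  obtain ⟨p, rfl⟩ := Polynomial.map_surjective _ hs q
  refine ⟨p, fun h => h0 (by simp [h]), ?_⟩
  rw [← h1]
  exact (aeval_sp x' y p).symm

lemma exchange {t g : Ω} (hg : Transcendental k g) (h : IsAlgebraic k⟮t⟯ g) :
    IsAlgebraic k⟮g⟯ t := by
  obtain ⟨p, h0, h1⟩ := rel_of_alg h
  refine alg_of_rel (mem_adjoin_simple_self k g) hg (p := Bivariate.swap p) (by simpa using h0) ?_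
  rw [Bivariate.aevalAeval_swap, h1]

lemma irr_of_rel {x y : Ω} {p : k[X][Y]} (hp : p ≠ 0) (h : aevalAeval x y p = 0) :
    ∃ q : k[X][Y], Irreducible q ∧ aevalAeval x y q = 0 := by
  induction p using WfDvdMonoid.induction_on_irreducible with
  | zero => exact absurd rfl hp
  | unit u hu => exact absurd h (hu.map (aevalAeval x y)).ne_zero
  | mul a i ha hi ih =>
    rw [map_mul, mul_eq_zero] at h
    rcases h with h | h
    · exact ⟨i, hi, h⟩
    · exact ih ha h

lemma irr_natDegree_ne {x y : Ω} (hx : Transcendental k x) {p : k[X][Y]} (hp : p ≠ 0)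
    (h : aevalAeval x y p = 0) : p.natDegree ≠ 0 := by
  intro h0
  rw [eq_C_of_natDegree_eq_zero h0, aevalAeval_C] at h
  refine hp ?_
  rw [eq_C_of_natDegree_eq_zero h0, transcendental_iff_injective.1 hx (h.trans (map_zero _).symm),
    C_0]

lemma irr_gauss {x y : Ω} (hx : Transcendental k x) {p : k[X][Y]} (hp : Irreducible p)
    (h : aevalAeval x y p = 0) : (minpoly k⟮x⟯ y).natDegree = p.natDegree ∧
      ∀ q : k[X][Y], aevalAeval x y q = 0 → p ∣ q := by
  let x' : k⟮x⟯ := ⟨x, mem_adjoin_simple_self k x⟩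
  have hx' : Transcendental k x' := trans_mk _ hx
  let _ : Algebra k[X] k⟮x⟯ := (aeval x' : k[X] →ₐ[k] k⟮x⟯).toRingHom.toAlgebra
  have : FaithfulSMul k[X] k⟮x⟯ := (faithfulSMul_iff_algebraMap_injective _ _).2 (sp_inj hx')
  have : IsFractionRing k[X] k⟮x⟯ := IsFractionRing.of_field _ _ fun z => by
    obtain ⟨r, s, hz⟩ := (mem_adjoin_simple_iff k z.1).1 z.2
    refine ⟨r, s, Subtype.ext ?_⟩
    rw [hz]
    exact (congrArg₂ (· / ·) (aeval_algebraMap_apply Ω x' r) (aeval_algebraMap_apply Ω x' s)).trans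
      (map_div₀ (algebraMap k⟮x⟯ Ω) _ _).symm
  have hpr : p.IsPrimitive := hp.isPrimitive (irr_natDegree_ne hx hp.ne_zero h)
  have hi : Irreducible (sp x' p) := hpr.irreducible_iff_irreducible_map_fraction_map.1 hp
  have h1 : aeval y (sp x' p) = 0 := by rw [aeval_sp]; exact h
  have h2 := minpoly.eq_of_irreducible hi h1
  refine ⟨?_, fun q hq => hpr.dvd_of_fraction_map_dvd_fraction_map (K := k⟮x⟯) ?_⟩
  · rw [← h2, natDegree_mul_C (inv_ne_zero (leadingCoeff_ne_zero.2 hi.ne_zero)), natDegree_sp hx']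
  · refine (Dvd.intro _ h2).trans (minpoly.dvd _ _ ?_)
    exact (aeval_sp x' y q).trans hq

lemma coeff_swap {R : Type} [CommRing R] (p : R[X][Y]) (i j : ℕ) :
    ((Bivariate.swap p).coeff i).coeff j = (p.coeff j).coeff i := by
  induction p using Polynomial.induction_on' with
  | add p q hp hq => simp only [map_add, coeff_add, hp, hq]
  | monomial n a =>
    induction a using Polynomial.induction_on' with
    | add p q hp hq => simp only [map_add, coeff_add, hp, hq]
    | monomial m c =>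
      rw [Bivariate.swap_monomial_monomial]
      simp only [coeff_monomial]
      split_ifs <;> simp [coeff_monomial, *]

lemma natDegree_coeff_le {R : Type} [CommRing R] (p : R[X][Y]) (j : ℕ) :
    (p.coeff j).natDegree ≤ (Bivariate.swap p).natDegree := by
  rw [natDegree_le_iff_coeff_eq_zero]
  intro i hi
  rw [← coeff_swap, coeff_eq_zero_of_natDegree_lt hi, coeff_zero]

/-- The bivariate polynomial has a dominating monomial. -/
def HasTop {R : Type} [CommRing R] (p : R[X][Y]) : Prop :=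
  (Bivariate.swap p).natDegree ≤ p.leadingCoeff.natDegree

lemma HasTop.of_dvd {p q : k[X][Y]} (hq : q ≠ 0) (h : p ∣ q) (ht : HasTop q) : HasTop p := by
  obtain ⟨r, rfl⟩ := h
  have hp : p ≠ 0 := left_ne_zero_of_mul hq
  have hr : r ≠ 0 := right_ne_zero_of_mul hq
  unfold HasTop at ht ⊢
  rw [map_mul, natDegree_mul (by simpa using hp) (by simpa using hr), leadingCoeff_mul,
    natDegree_mul (leadingCoeff_ne_zero.2 hp) (leadingCoeff_ne_zero.2 hr)] at ht
  have : r.leadingCoeff.natDegree ≤ _ := natDegree_coeff_le r r.natDegree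
  omega

lemma aevalAeval_algHom {R A A' : Type} [CommRing R] [CommRing A] [CommRing A'] [Algebra R A]
    [Algebra R A'] (f : A →ₐ[R] A') (x y : A) (p : R[X][Y]) :
    aevalAeval (f x) (f y) p = f (aevalAeval x y p) := by
  have : aevalAeval (R := R) (f x) (f y) = f.comp (aevalAeval x y) :=
    algHom_ext' (by ext; simp) (by simp)
  rw [this]; rfl

lemma aevalAeval_eq_sum {R A : Type} [CommRing R] [CommRing A] [Algebra R A] (x y : A)
    (p : R[X][Y]) {N : ℕ} (hN : p.natDegree < N) :
    aevalAeval x y p = ∑ j ∈ Finset.range N, aeval x (p.coeff j) * y ^ j := by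
  conv_lhs => rw [p.as_sum_range_C_mul_X_pow' hN]
  simp only [map_sum, map_mul, map_pow, aevalAeval_C, aevalAeval_Y]

end Pool.Agent.Lib.MP_651af7_nt.Iv
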