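import Pool.Agent.Lib.MP_651af7_nt.IvBiv

/-! Embeddings into algebraically closed fields. -/

namespace Pool.Agent.Lib.MP_651af7_nt.Iv

open Polynomial IntermediateField
open scoped Polynomial.Bivariate

lemma ext_alg {S Ω Ω' : Type} [CommRing S] [IsDomain S] [Field Ω] [Field Ω'] [IsAlgClosed Ω']
    [Algebra S Ω] [FaithfulSMul S Ω] [Algebra.IsAlgebraic S Ω] (j : S →+* Ω')
    (hj : Function.Injective j) : ∃ σ : Ω →+* Ω', ∀ s, σ (algebraMap S Ω s) = j s := by
  let _ := j.toAlgebra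
  have : FaithfulSMul S Ω' := (faithfulSMul_iff_algebraMap_injective _ _).2 hj
  exact ⟨(IsAlgClosed.lift : Ω →ₐ[S] Ω').toRingHom, fun s => AlgHom.commutes _ s⟩

lemma ext_basis {k Ω Ω' I : Type} [Field k] [Field Ω] [Field Ω'] [IsAlgClosed Ω'] [Algebra k Ω]
    {x : I → Ω} (hx : IsTranscendenceBasis k x) (j : MvPolynomial I k →+* Ω')
    (hj : Function.Injective j) : ∃ σ : Ω →+* Ω', ∀ s, σ (MvPolynomial.aeval x s) = j s := by
  let S := MvPolynomial I k
  let _ : Algebra S Ω := (MvPolynomial.aeval x).toRingHom.toAlgebra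
  have hS : ∀ s : S, algebraMap S Ω s = MvPolynomial.aeval x s := fun _ => rfl
  have : FaithfulSMul S Ω := (faithfulSMul_iff_algebraMap_injective _ _).2 hx.1
  have : Algebra.IsAlgebraic S Ω := by
    have := hx.isAlgebraic
    refine Algebra.IsAlgebraic.ringHom_of_comp_eq hx.1.aevalEquiv.symm.toRingEquiv.toRingHom
      (RingHom.id Ω) hx.1.aevalEquiv.symm.injective Function.surjective_id ?_
    ext s
    obtain ⟨s, rfl⟩ := hx.1.aevalEquiv.surjective s
    simp [hS]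
  exact ext_alg j hj

lemma inj_eval₂ {F A Ω I : Type} [Field F] [Field A] [Field Ω] [Algebra F A] [Algebra F Ω]
    [Algebra.IsAlgebraic F A] (j : A →ₐ[F] Ω) {x : I → Ω} (hx : AlgebraicIndependent F x) :
    Function.Injective (MvPolynomial.eval₂Hom j.toRingHom x) := by
  let _ := j.toRingHom.toAlgebra
  have : IsScalarTower F A Ω := .of_algebraMap_eq fun c => (j.commutes c).symm
  exact hx.extendScalars A

/-- An algebraic element outside the base field is moved by an embedding. -/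
lemma exists_move {F Ω : Type} [Field F] [CharZero F] [Field Ω] [IsAlgClosed Ω] [Algebra F Ω]
    {m : Ω} (ha : IsAlgebraic F m) (hm : ∀ c, algebraMap F Ω c ≠ m) :
    ∃ σ : Ω →+* Ω, (∀ c, σ (algebraMap F Ω c) = algebraMap F Ω c) ∧ σ m ≠ m := by
  have hi := ha.isIntegral
  obtain ⟨y, h1, h2⟩ := (notMem_iff_exists_ne_and_isConjRoot (K := F) (x := m)
    (minpoly.irreducible hi).separable (IsAlgClosed.splits _)).1 fun ⟨c, hc⟩ => hm c hc
  let j : F⟮m⟯ →ₐ[F] Ω := (algHomAdjoinIntegralEquiv F hi).symm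
    ⟨y, mem_aroots.2 ⟨minpoly.ne_zero hi, h2.aeval_eq_zero⟩⟩
  have hj : j (AdjoinSimple.gen F m) = y := algHomAdjoinIntegralEquiv_symm_apply_gen F hi _
  have := isAlgebraic_adjoin_simple hi
  obtain ⟨s, hs⟩ := exists_isTranscendenceBasis F⟮m⟯ Ω
  obtain ⟨σ, hσ⟩ := ext_basis hs _
    (inj_eval₂ j (hs.1.restrictScalars (algebraMap F F⟮m⟯).injective))
  have h3 : ∀ z : F⟮m⟯, σ z = j z := fun z => by simpa using hσ (MvPolynomial.C z)
  refine ⟨σ, fun c => (h3 (algebraMap F F⟮m⟯ c)).trans (j.commutes c), fun h => h1 ?_⟩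
  rw [← hj, ← h3]
  exact h.symm

/-- Two algebraically independent elements are exchanged by an embedding. -/
lemma exists_swap {F Ω : Type} [Field F] [Field Ω] [IsAlgClosed Ω] [Algebra F Ω] {x y : Ω}
    (h : AlgebraicIndependent F ![x, y]) :
    ∃ σ : Ω →+* Ω, (∀ c, σ (algebraMap F Ω c) = algebraMap F Ω c) ∧ σ x = y := by
  classical
  obtain ⟨t, h1, h2⟩ := exists_isTranscendenceBasis_superset (R := F) (s := Set.range ![x, y])
    h.to_subtype_range
  let x' : t := ⟨x, h1 ⟨0, rfl⟩⟩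
  let y' : t := ⟨y, h1 ⟨1, rfl⟩⟩
  obtain ⟨σ, hσ⟩ := ext_basis h2
    (MvPolynomial.aeval (Subtype.val ∘ Equiv.swap x' y') : MvPolynomial t F →ₐ[F] Ω).toRingHom
    (h2.1.comp _ (Equiv.swap x' y').injective)
  exact ⟨σ, fun c => by simpa using hσ (MvPolynomial.C c),
    by simpa using hσ (MvPolynomial.X x')⟩

/-- The relative algebraic closure of `K(t)` embeds into any closed field with a transcendental. -/
lemma exists_emb {K Ω Ω' : Type} [Field K] [Field Ω] [Field Ω'] [IsAlgClosed Ω'] [Algebra K Ω]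
    [Algebra K Ω'] {t : Ω} (ht : Transcendental K t) {t' : Ω'} (ht' : Transcendental K t') :
    ∃ (M : IntermediateField K Ω) (σ : M →ₐ[K] Ω') (h : t ∈ M), σ ⟨t, h⟩ = t' ∧
      ∀ z, IsAlgebraic K⟮t⟯ z → z ∈ M := by
  let M : IntermediateField K Ω := (algebraicClosure K⟮t⟯ Ω).restrictScalars K
  have hM : ∀ z, z ∈ M ↔ IsAlgebraic K⟮t⟯ z := fun z => mem_algebraicClosure_iff
  have h : t ∈ M :=
    (hM t).2 (isAlgebraic_algebraMap (⟨t, mem_adjoin_simple_self K t⟩ : K⟮t⟯))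
  let _ : Algebra K[X] M := (aeval (⟨t, h⟩ : M) : K[X] →ₐ[K] M).toRingHom.toAlgebra
  have : FaithfulSMul K[X] M :=
    (faithfulSMul_iff_algebraMap_injective _ _).2 (sp_inj (trans_mk h ht))
  have : Algebra.IsAlgebraic K[X] M := ⟨fun z => by
    obtain ⟨p, h0, h1⟩ := rel_of_alg ((hM z).1 z.2)
    refine ⟨p, h0, (algebraMap M Ω).injective ?_⟩
    rw [map_zero, ← h1]
    have := aeval_sp (⟨t, h⟩ : M) (z : Ω) p
    rw [← show _ = aevalAeval t (z : Ω) p from this, ← aeval_map_algebraMap M z p]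
    exact (aeval_algebraMap_apply Ω z _).symm⟩
  obtain ⟨σ, hσ⟩ := ext_alg (Ω := M) (aeval t' : K[X] →ₐ[K] Ω').toRingHom (sp_inj ht')
  have hσ' : ∀ p : K[X], σ (aeval (⟨t, h⟩ : M) p) = aeval t' p := hσ
  exact ⟨M, ⟨σ, fun c => by simpa using hσ' (C c)⟩, h, by simpa using hσ' X,
    fun z hz => (hM z).2 hz⟩

end Pool.Agent.Lib.MP_651af7_nt.Iv
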