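import Pool.Agent.Lib.MP_651af7_nt.IvLam
import Pool.Agent.Lib.MP_651af7_nt.IvExt

/-! The two degree estimates over the constant field `k`. -/

namespace Pool.Agent.Lib.MP_651af7_nt.Iv

open Polynomial IntermediateField Pool.Agent.Lib.MP_e97e2b_nt
open scoped Polynomial.Bivariate

/-- Extension of the coefficients. -/
noncomputable def up (k : Type) [Field k] [CharZero k] (p : ℚ[X][Y]) : k[X][Y] :=
  p.map (mapRingHom (algebraMap ℚ k))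

variable {k Ω : Type} [Field k] [CharZero k] [Field Ω] [CharZero Ω] [Algebra k Ω]

lemma ev_up (x y : Ω) (p : ℚ[X][Y]) : aevalAeval x y (up k p) = aevalAeval x y p := by
  rw [aevalAeval_eq_sum x y p (Nat.lt_succ_self _),
    aevalAeval_eq_sum x y (up k p) (Nat.lt_succ_of_le natDegree_map_le)]
  simp [up]

lemma up_ne_zero {p : ℚ[X][Y]} (hp : p ≠ 0) : up k p ≠ 0 :=
  (Polynomial.map_ne_zero_iff (map_injective _ (algebraMap ℚ k).injective)).2 hp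

lemma natDegree_up (p : ℚ[X][Y]) : (up k p).natDegree ≤ p.natDegree := natDegree_map_le

lemma natDegree_coeff_up (p : ℚ[X][Y]) (j : ℕ) :
    ((up k p).coeff j).natDegree ≤ (Bivariate.swap p).natDegree := by
  rw [up, coeff_map]
  exact natDegree_map_le.trans (natDegree_coeff_le p j)

lemma mu_mem {M : IntermediateField k Ω} (φ : ℚ[X][Y]) {A B A' B' : Ω} {P : Pt A B} {Q : Pt A' B'}
    (hP : On M P) (hQ : On M Q) : mu φ P Q ∈ M := by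
  rw [mu, ← ev_up (k := k), ← ev_up (k := k)]
  exact neg_mem (mul_mem (mul_mem (ev_mem hP.1 hQ.1 _) hP.2)
    (inv_mem (mul_mem (ev_mem hP.1 hQ.1 _) hQ.2)))

/-- A bound for all the degrees attached to `φ`. -/
noncomputable def nb (φ : ℚ[X][Y]) : ℕ :=
  (dX φ).natDegree + (Bivariate.swap (dX φ)).natDegree + (derivative φ).natDegree +
    (Bivariate.swap (derivative φ)).natDegree + (Bivariate.swap φ).natDegree

/-- The constant in the degree of the slope. -/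
noncomputable def cmu (φ : ℚ[X][Y]) : ℕ := 16 * ((8 * (nb φ + 1) * nb φ + 3) * (nb φ + 1))

variable {a b a' b' : k} {P₁ P₂ : Pt (algebraMap k Ω a) (algebraMap k Ω b)}
  {Q₁ Q₂ Q' : Pt (algebraMap k Ω a') (algebraMap k Ω b')} {F : IntermediateField k Ω}
  {φ₁ φ₂ : ℚ[X][Y]} {e B : ℕ}

lemma FF.dmu (hF : FF F) (hP : On F P₁) (hQ : On F Q₁) (ht : Transcendental k (xc P₁))
    (h0 : φ₁ ≠ 0) (h : aevalAeval (xc P₁) (xc Q₁) φ₁ = 0) :
    dg F (mu φ₁ P₁ Q₁) ≤ cmu φ₁ * dg F (xc P₁) := by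
  have h1 : dg F (xc Q₁) ≤ nb φ₁ * dg F (xc P₁) :=
    hF.le_rel'' hQ.1 hP.1 ht (p := up k (Bivariate.swap φ₁)) (up_ne_zero (by simpa using h0))
      ((natDegree_up _).trans (by unfold nb; omega)) (by rw [ev_up, Bivariate.aevalAeval_swap, h])
  have h2 := hF.ev hP.1 hQ.1 (up k (dX φ₁)) (N := nb φ₁)
    ((natDegree_up _).trans (by unfold nb; omega))
    fun j => (natDegree_coeff_up _ j).trans (by unfold nb; omega)
  have h3 := hF.ev hP.1 hQ.1 (up k (derivative φ₁)) (N := nb φ₁)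
    ((natDegree_up _).trans (by unfold nb; omega))
    fun j => (natDegree_coeff_up _ j).trans (by unfold nb; omega)
  have m2 := ev_mem hP.1 hQ.1 (up k (dX φ₁))
  have m3 := ev_mem hP.1 hQ.1 (up k (derivative φ₁))
  have h4 := hF.mul m2 hP.2
  have h5 := hF.mul m3 hQ.2
  have h6 := hF.mul (mul_mem m2 hP.2) (inv_mem (mul_mem m3 hQ.2))
  have h7 := hF.neg (mul_mem (mul_mem m2 hP.2) (inv_mem (mul_mem m3 hQ.2)))
  have h8 := hF.dy hP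
  have h9 := hF.dy hQ
  rw [dg_inv] at h6
  rw [mu, ← ev_up (k := k), ← ev_up (k := k), cmu]
  have h10 : (8 * (nb φ₁ + 1) * nb φ₁ + 3) * (dg F (xc P₁) + dg F (xc Q₁)) ≤
      (8 * (nb φ₁ + 1) * nb φ₁ + 3) * ((nb φ₁ + 1) * dg F (xc P₁)) :=
    Nat.mul_le_mul_left _ (by linarith)
  nlinarith

variable (hk : ∀ g : Ω, IsAlgebraic k g → g ∈ (⊥ : IntermediateField k Ω))
include hk

omit [CharZero k] [CharZero Ω] in
lemma on_const {P : Pt (algebraMap k Ω a) (algebraMap k Ω b)} (h : IsAlgebraic k (xc P))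
    (M : IntermediateField k Ω) : On M P := by
  obtain ⟨c, hc⟩ := IntermediateField.mem_bot.1 (yc_sq_mem (IntermediateField.algebraMap_mem _ a)
    (IntermediateField.algebraMap_mem _ b) (hk _ h))
  exact On.mono ⟨hk _ h, hk _ (IsAlgebraic.of_pow two_pos (hc ▸ isAlgebraic_algebraMap c))⟩ bot_le

omit hk [CharZero k] [CharZero Ω] in
lemma alg_of_bot {g : Ω} (h : g ∈ (⊥ : IntermediateField k Ω)) : IsAlgebraic k g := by
  obtain ⟨c, rfl⟩ := IntermediateField.mem_bot.1 h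
  exact isAlgebraic_algebraMap c

variable (hz : IsAlgebraic k (xc (P₂ - 2 ^ e • P₁))) (t₁ : Transcendental k (xc P₁))
include hz t₁

omit hk in
lemma trans_two : Transcendental k (xc P₂) := fun h => t₁ <| const_of_lam fun D => by
  have := lam_sub D P₂ (2 ^ e • P₁)
  rw [lam_const D hz, lam_const D h, lam_nsmul] at this
  simpa using this

variable (h₁ : aevalAeval (xc P₁) (xc Q₁) φ₁ = 0) (h₂ : aevalAeval (xc P₂) (xc Q₂) φ₂ = 0)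
  (n₁ : φ₁ ≠ 0) (n₂ : φ₂ ≠ 0)
include h₁ h₂ n₁ n₂

lemma exists_F {t : Ω} (ht : Transcendental k t)
    (hm : ∀ M : IntermediateField k Ω, On M P₁ → On M P₂ → t ∈ M)
    (h : aevalAeval t (xc Q') φ₁ = 0) : ∃ F : IntermediateField k Ω,
      FF F ∧ On F P₁ ∧ On F P₂ ∧ On F Q₁ ∧ On F Q₂ ∧ On F Q' := by
  have t₂ := trans_two hz t₁
  have m : ∀ (M : IntermediateField k Ω) (c : k), algebraMap k Ω c ∈ M := fun M c =>
    M.algebraMap_mem c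
  have s : ∀ x : Ω, x ∈ k⟮x⟯ := mem_adjoin_simple_self k
  have a₂ : IsAlgebraic k⟮xc P₁⟯ (xc P₂) := by
    refine alg_of_rel_ne_zero le_adj (rel_adj_ne (P := P₁) (m _ _) (m _ _) le_rfl (by simp)
      (alg_of_mem (s _))) ?_
    simpa using ((on_const hk hz _).add (m _ _)
      ((on_adj (M := k⟮xc P₁⟯) (P := P₁)).nsmul (m _ _) (2 ^ e))).1
  let M₁ := adj k⟮xc P₂⟯ P₂
  let M₂ := adj M₁ P₁
  let M₃ := adj M₂ Q₂
  let M₄ := adj M₃ Q₁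
  have l₁ : k⟮xc P₂⟯ ≤ M₁ := le_adj
  have l₂ := l₁.trans (le_adj (P := P₁))
  have l₃ := l₂.trans (le_adj (P := Q₂))
  have l₄ := l₃.trans (le_adj (P := Q₁))
  have r₁ := rel_adj_ne (P := P₂) (m _ _) (m _ _) le_rfl (by simp) (alg_of_mem (s _))
  have r₂ := rel_adj_ne (m _ _) (m _ _) l₁ r₁ (alg_mono l₁ (exchange t₂ a₂))
  have r₃ := rel_adj_ne (m _ _) (m _ _) l₂ r₂
    (alg_of_rel (l₂ (s _)) t₂ (up_ne_zero n₂) (by rw [ev_up, h₂]))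
  have o₁ : On M₃ P₁ := on_adj.mono le_adj
  have r₄ := rel_adj_ne (m _ _) (m _ _) l₃ r₃
    (alg_of_rel o₁.1 t₁ (up_ne_zero n₁) (by rw [ev_up, h₁]))
  have o₂ : On M₄ P₂ := ((on_adj.mono le_adj).mono le_adj).mono le_adj
  have r₅ := rel_adj_ne (m _ _) (m _ _) l₄ r₄
    (alg_of_rel (hm _ (o₁.mono le_adj) o₂) ht (up_ne_zero n₁) (by rw [ev_up, h]))
  exact ⟨adj M₄ Q', ⟨hk, _, (o₂.mono le_adj).1, t₂, r₅⟩, (o₁.mono le_adj).mono le_adj,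
    o₂.mono le_adj, on_adj.mono le_adj, (on_adj.mono le_adj).mono le_adj, on_adj⟩

omit t₁ h₁ h₂ n₁ n₂ [CharZero Ω] in
lemma FF.growth (hF : FF F) (hD : 4 * a ^ 3 + 27 * b ^ 2 ≠ 0) (o₁ : On F P₁) (o₂ : On F P₂) :
    4 ^ e * dg F (xc P₁) ≤ 33 * dg F (xc P₂) := by
  have h1 := hF.dsub o₂ (on_const hk hz F)
  rw [sub_sub_cancel, hF.eq_zero hz, add_zero] at h1
  exact (hF.dpow hD o₁ e).trans h1

variable (hD : 4 * a ^ 3 + 27 * b ^ 2 ≠ 0) (b₁ : φ₁.natDegree ≤ B) (b₂ : φ₂.natDegree ≤ B)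
include hD b₁ b₂

lemma caseE (hi : Irreducible φ₁) (h : aevalAeval (xc P₂) (xc Q') φ₁ = 0)
    (hl : ∀ D : Derivation k Ω Ω, lam D Q' = mu φ₁ P₁ Q₁ * lam D P₂)
    (ht : Transcendental k (xc (Q₂ - Q'))) : ∃ F : IntermediateField k Ω, FF F ∧ On F P₁ ∧
      On F (Q₂ - 2 ^ e • Q₁) ∧
      4 ^ e * dg F (xc P₁) ≤ 5000 * B ^ 2 * dg F (xc (Q₂ - 2 ^ e • Q₁)) := by
  have t₂ := trans_two hz t₁
  have m : ∀ (M : IntermediateField k Ω) (c : k), algebraMap k Ω c ∈ M := fun M c =>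
    M.algebraMap_mem c
  have s : ∀ x : Ω, x ∈ k⟮x⟯ := mem_adjoin_simple_self k
  obtain ⟨F, hF, o₁, o₂, o₃, o₄, o₅⟩ := exists_F hk hz t₁ h₁ h₂ n₁ n₂ t₂ (fun _ _ h => h.1) h
  have oz := o₄.sub (m _ _) (o₃.nsmul (m _ _) (2 ^ e))
  refine ⟨F, hF, o₁, oz, ?_⟩
  have hc : IsAlgebraic k (xc (Q' - 2 ^ e • Q₁)) := const_of_lam fun D => by
    have := lam_sub D P₂ (2 ^ e • P₁)
    rw [lam_const D hz, lam_nsmul] at this
    rw [lam_sub, lam_nsmul, hl, lam_slope D hi t₁ h₁]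
    linear_combination -mu φ₁ P₁ Q₁ * this
  have g₁ := hF.growth hk hz hD o₁ o₂
  have g₂ := hF.dsub oz (on_const hk hc F)
  rw [sub_sub_sub_cancel_right, hF.eq_zero hc, add_zero] at g₂
  have l₀ : k⟮xc P₂⟯ ≤ F := adjoin_simple_le_iff.2 o₂.1
  have g₃ := rel_adj (m _ _) (m _ _) l₀ o₄ (s _) t₂ (up_ne_zero n₂) ((natDegree_up _).trans b₂)
    (by rw [ev_up, h₂])
  have g₄ := rel_adj (m _ _) (m _ _) (adj_le l₀ o₄) o₅ (le_adj (s _)) t₂ (up_ne_zero n₁)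
    ((natDegree_up _).trans b₁) (by rw [ev_up, h])
  have g₅ : relfinrank (adj (adj k⟮xc P₂⟯ Q₂) Q') F ≤ dg F (xc (Q₂ - Q')) :=
    rel_mono (adjoin_simple_le_iff.2 ((on_adj.mono le_adj).sub (m _ _) on_adj).1)
      (hF.ne_zero (o₄.sub (m _ _) o₅).1 ht)
  calc _ ≤ 33 * (2 * B * (2 * B * (33 * dg F (xc (Q₂ - 2 ^ e • Q₁))))) := by
        refine g₁.trans (Nat.mul_le_mul_left _ (g₃.trans (Nat.mul_le_mul_left _ (g₄.trans ?_))))
        exact Nat.mul_le_mul_left _ (g₅.trans g₂)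
    _ ≤ _ := by nlinarith [Nat.zero_le (B ^ 2 * dg F (xc (Q₂ - 2 ^ e • Q₁)))]

omit b₁ in
lemma mu_notMem (ht : Transcendental k (mu φ₁ P₁ Q₁)) (hr : 132 * B * cmu φ₁ < 4 ^ e) :
    IsAlgebraic (adj (adj k⟮xc P₂⟯ P₂) Q₂) (mu φ₁ P₁ Q₁) ∧
      mu φ₁ P₁ Q₁ ∉ adj (adj k⟮xc P₂⟯ P₂) Q₂ := by
  have t₂ := trans_two hz t₁
  have m : ∀ (M : IntermediateField k Ω) (c : k), algebraMap k Ω c ∈ M := fun M c =>
    M.algebraMap_mem c
  have s : ∀ x : Ω, x ∈ k⟮x⟯ := mem_adjoin_simple_self k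
  obtain ⟨F, hF, o₁, o₂, o₃, o₄, -⟩ := exists_F hk hz t₁ h₁ h₂ n₁ n₂ t₁ (fun _ h _ => h.1) h₁
  have hm := mu_mem φ₁ o₁ o₃
  refine ⟨alg_mono (le_adj.trans le_adj) (hF.alg o₂.1 t₂ hm).1, fun h => ?_⟩
  have g₁ := hF.growth hk hz hD o₁ o₂
  have l₀ : k⟮xc P₂⟯ ≤ F := adjoin_simple_le_iff.2 o₂.1
  have g₂ := rel_adj_one (m _ _) (m _ _) l₀ o₂ (s _)
  have g₃ := rel_adj (m _ _) (m _ _) (adj_le l₀ o₂) o₄ (le_adj (s _)) t₂ (up_ne_zero n₂)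
    ((natDegree_up _).trans b₂) (by rw [ev_up, h₂])
  have g₄ : relfinrank (adj (adj k⟮xc P₂⟯ P₂) Q₂) F ≤ dg F (mu φ₁ P₁ Q₁) :=
    rel_mono (adjoin_simple_le_iff.2 h) (hF.ne_zero hm ht)
  have g₅ := hF.dmu o₁ o₃ t₁ n₁ h₁
  have g₆ : 4 ^ e * dg F (xc P₁) ≤ 33 * (2 * (2 * B * (cmu φ₁ * dg F (xc P₁)))) :=
    g₁.trans (Nat.mul_le_mul_left _ (g₂.trans (Nat.mul_le_mul_left _ (g₃.trans
      (Nat.mul_le_mul_left _ (g₄.trans g₅))))))
  have := Nat.mul_lt_mul_of_pos_right hr (Nat.pos_of_ne_zero (hF.ne_zero o₁.1 t₁))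
  linarith

lemma caseN [IsAlgClosed Ω] (hD' : 4 * a' ^ 3 + 27 * b' ^ 2 ≠ 0) (hi : Irreducible φ₁)
    (ht : Transcendental k (mu φ₁ P₁ Q₁)) (hr : 132 * B * cmu φ₁ < 4 ^ e) :
    ∃ F : IntermediateField k Ω, FF F ∧ On F P₁ ∧ On F (Q₂ - 2 ^ e • Q₁) ∧
      4 ^ e * dg F (xc P₁) ≤ 5000 * B ^ 2 * dg F (xc (Q₂ - 2 ^ e • Q₁)) := by
  have t₂ := trans_two hz t₁
  have m : ∀ (M : IntermediateField k Ω) (c : k), algebraMap k Ω c ∈ M := fun M c =>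
    M.algebraMap_mem c
  have s : ∀ x : Ω, x ∈ k⟮x⟯ := mem_adjoin_simple_self k
  obtain ⟨ha, hn⟩ := mu_notMem hk hz t₁ h₁ h₂ n₁ n₂ hD b₂ ht hr
  set F' := adj (adj k⟮xc P₂⟯ P₂) Q₂ with hF'
  have : CharZero F' := charZero_of_injective_algebraMap (algebraMap k F').injective
  obtain ⟨σ, hσ, hμ⟩ := exists_move ha fun c hc => hn (hc ▸ c.2)
  have fx : ∀ z ∈ F', σ z = z := fun z hz => hσ ⟨z, hz⟩
  have fk : ∀ c, σ (algebraMap k Ω c) = algebraMap k Ω c := fun c => fx _ (m _ _)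
  let σ' : Ω →ₐ[k] Ω := ⟨σ, fk⟩
  have p₂ : On F' P₂ := on_adj.mono le_adj
  have q₂ : On F' Q₂ := on_adj
  set P' := fmap σ (fk a) (fk b) P₁ with hP'
  set Q' := fmap σ (fk a') (fk b') Q₁ with hQ'
  have hT : IsAlgebraic k (xc (P' - P₁)) := const_of_lam fun D => by
    have o := p₂.sub (m _ _) (on_const hk hz F')
    rw [sub_sub_cancel] at o
    have := congrArg (lam D) (fmap_fix σ (fk a) (fk b) (fx _ o.1) (fx _ o.2))
    rw [map_nsmul, lam_nsmul, lam_nsmul] at this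
    rw [lam_sub, mul_left_cancel₀ (by simp) this, sub_self]
  have oP : ∀ M : IntermediateField k Ω, On M P₁ → On M P' := fun M h => by
    simpa using (on_const hk hT M).add (m _ _) h
  have t' : Transcendental k (xc P') := fun h => t₁ (alg_of_bot (by
    simpa using ((on_const hk h ⊥).sub (m _ _) (on_const hk hT ⊥)).1))
  have h' : aevalAeval (xc P') (xc Q') φ₁ = 0 := by
    rw [xc_fmap, xc_fmap]
    exact (aevalAeval_algHom σ.toRatAlgHom _ _ _).trans (by rw [h₁, map_zero])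
  have tW : Transcendental k (xc (Q' - Q₁)) := fun h => t₁ (const_of_lam fun D => by
    have e1 := lam_const D h
    have e2 := lam_const D hT
    rw [lam_sub, lam_slope D hi t' h', lam_slope D hi t₁ h₁, mu_fmap] at e1
    rw [lam_sub] at e2
    exact (mul_eq_zero.1 (by linear_combination e1 - σ (mu φ₁ P₁ Q₁) * e2)).resolve_left
      (sub_ne_zero.2 hμ))
  obtain ⟨F, hF, o₁, o₂, o₃, o₄, o₅⟩ :=
    exists_F hk hz t₁ h₁ h₂ n₁ n₂ t' (fun M h _ => (oP M h).1) h'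
  have oz := o₄.sub (m _ _) (o₃.nsmul (m _ _) (2 ^ e))
  have oz' := o₄.sub (m _ _) (o₅.nsmul (m _ _) (2 ^ e))
  refine ⟨F, hF, o₁, oz, ?_⟩
  have ez : xc (Q₂ - 2 ^ e • Q') = σ (xc (Q₂ - 2 ^ e • Q₁)) := by
    rw [← xc_fmap σ (fk a') (fk b'), map_sub, map_nsmul,
      fmap_fix σ (fk a') (fk b') (fx _ q₂.1) (fx _ q₂.2)]
  have g₁ : dg F (xc (Q₂ - 2 ^ e • Q')) = dg F (xc (Q₂ - 2 ^ e • Q₁)) := by
    by_cases hc : IsAlgebraic k (xc (Q₂ - 2 ^ e • Q₁))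
    · rw [ez, fx _ (on_const hk hc F').1]
    obtain ⟨p, h0, hp⟩ := rel_of_alg (hF.alg oz.1 hc o₂.1).1
    obtain ⟨p, h0, hp⟩ := irr_of_rel h0 hp
    refine hF.eq_of_irr oz'.1 oz.1 o₂.1 ?_ hc t₂ h0 ?_ hp
    · rw [ez]
      exact fun h => hc ((isAlgebraic_algHom_iff σ' σ.injective).1 h)
    · rw [ez, ← fx _ p₂.1]
      exact (aevalAeval_algHom σ' _ _ _).trans (by rw [hp, map_zero])
  have g₂ := hF.dsub oz oz'
  rw [g₁, sub_sub_sub_cancel_left, ← nsmul_sub] at g₂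
  have oW := o₅.sub (m _ _) o₃
  have g₃ := hF.dpow hD' oW e
  have l₀ : k⟮xc P₁⟯ ≤ F := adjoin_simple_le_iff.2 o₁.1
  have g₄ := rel_adj_one (m _ _) (m _ _) l₀ o₁ (s _)
  have g₅ := rel_adj (m _ _) (m _ _) (adj_le l₀ o₁) o₃ (le_adj (s _)) t₁ (up_ne_zero n₁)
    ((natDegree_up _).trans b₁) (by rw [ev_up, h₁])
  have g₆ := rel_adj (m _ _) (m _ _) (adj_le (adj_le l₀ o₁) o₃) o₅ (oP _ (on_adj.mono le_adj)).1 t'
    (up_ne_zero n₁) ((natDegree_up _).trans b₁) (by rw [ev_up, h'])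
  have g₇ : relfinrank (adj (adj (adj k⟮xc P₁⟯ P₁) Q₁) Q') F ≤ dg F (xc (Q' - Q₁)) :=
    rel_mono (adjoin_simple_le_iff.2 (on_adj.sub (m _ _) (on_adj.mono le_adj)).1)
      (hF.ne_zero oW.1 tW)
  have g₈ : dg F (xc P₁) ≤ 2 * (2 * B * (2 * B * dg F (xc (Q' - Q₁)))) :=
    g₄.trans (Nat.mul_le_mul_left _ (g₅.trans (Nat.mul_le_mul_left _ (g₆.trans
      (Nat.mul_le_mul_left _ g₇)))))
  calc _ ≤ 4 ^ e * (2 * (2 * B * (2 * B * dg F (xc (Q' - Q₁))))) := Nat.mul_le_mul_left _ g₈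
    _ = 8 * B ^ 2 * (4 ^ e * dg F (xc (Q' - Q₁))) := by ring
    _ ≤ 8 * B ^ 2 * _ := Nat.mul_le_mul_left _ (g₃.trans g₂)
    _ ≤ _ := by nlinarith [Nat.zero_le (B ^ 2 * dg F (xc (Q₂ - 2 ^ e • Q₁)))]

end Pool.Agent.Lib.MP_651af7_nt.Iv
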