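import Pool.Agent.Lib.MP_e97e2b_nt.Short

/-! Coordinates of points of short Weierstrass curves. -/

namespace Pool.Agent.Lib.MP_651af7_nt.Iv

open Pool.Agent.Lib.MP_e97e2b_nt

variable {F : Type} [Field F] {A B : F}

/-- The first coordinate (`0` at the origin). -/
def xc : Pt A B → F
  | .zero => 0
  | .some x _ _ => x

/-- The second coordinate (`0` at the origin). -/
def yc : Pt A B → F
  | .zero => 0
  | .some _ y _ => y

@[simp] lemma xc_zero : xc (0 : Pt A B) = 0 := rfl
@[simp] lemma yc_zero : yc (0 : Pt A B) = 0 := rfl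
@[simp] lemma xc_pt {x y : F} (h : NS A B x y) : xc (pt x y h) = x := rfl
@[simp] lemma yc_pt {x y : F} (h : NS A B x y) : yc (pt x y h) = y := rfl

/-- No monomial of `φ` dominates all the others. -/
def NoTop (φ : MvPolynomial (Fin 2) ℚ) : Prop := ∀ m ∈ φ.support, ∃ m' ∈ φ.support, ¬m' ≤ m

end Pool.Agent.Lib.MP_651af7_nt.Iv
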