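import Pool.Agent.Lib.MP_651af7_nt.IvBiv

/-! The degree of a function in a function field of one variable. -/

namespace Pool.Agent.Lib.MP_651af7_nt.Iv

open Polynomial IntermediateField
open scoped Polynomial.Bivariate

variable {k Ω : Type} [Field k] [Field Ω] [Algebra k Ω]

lemma relfinrank_sup {A : IntermediateField k Ω} {g : Ω} (hg : IsAlgebraic A g) :
    relfinrank A (A ⊔ k⟮g⟯) = (minpoly A g).natDegree := by
  have : extendScalars (le_sup_left : A ≤ A ⊔ k⟮g⟯) = A⟮g⟯ := restrictScalars_injective k <| by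
    rw [extendScalars_restrictScalars, restrictScalars_adjoin_eq_sup]
  rw [relfinrank_eq_finrank_of_le le_sup_left, this, adjoin.finrank hg.isIntegral]

lemma sup_le_of_mem {A F : IntermediateField k Ω} {g : Ω} (hA : A ≤ F) (hg : g ∈ F) :
    A ⊔ k⟮g⟯ ≤ F := sup_le hA (adjoin_simple_le_iff.2 hg)

lemma rel_tower {A F : IntermediateField k Ω} {g : Ω} (hA : A ≤ F) (hg : g ∈ F)
    (ha : IsAlgebraic A g) :
    relfinrank A F = (minpoly A g).natDegree * relfinrank (A ⊔ k⟮g⟯) F := by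
  rw [← relfinrank_sup ha, relfinrank_mul_relfinrank le_sup_left (sup_le_of_mem hA hg)]

lemma rel_le_root {A F : IntermediateField k Ω} {g : Ω} (hA : A ≤ F) (hg : g ∈ F) {q : A[X]}
    (hq : q ≠ 0) {n : ℕ} (hn : q.natDegree ≤ n) (h : aeval g q = 0) :
    relfinrank A F ≤ n * relfinrank (A ⊔ k⟮g⟯) F := by
  rw [rel_tower hA hg ⟨q, hq, h⟩]
  exact Nat.mul_le_mul_right _ ((natDegree_le_of_dvd (minpoly.dvd _ _ h) hq).trans hn)

lemma rel_le_rel {A F : IntermediateField k Ω} {x g : Ω} (hA : A ≤ F) (hg : g ∈ F) (hx : x ∈ A)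
    (ht : Transcendental k x) {p : k[X][Y]} (hp : p ≠ 0) {n : ℕ} (hn : p.natDegree ≤ n)
    (h : aevalAeval x g p = 0) : relfinrank A F ≤ n * relfinrank (A ⊔ k⟮g⟯) F := by
  obtain ⟨q, h0, h1, h2⟩ := root_of_rel hx ht hp h
  exact rel_le_root hA hg h0 (h1.trans_le hn) h2

lemma rel_le_sq {A F : IntermediateField k Ω} {g : Ω} (hA : A ≤ F) (hg : g ∈ F)
    (h : g ^ 2 ∈ A) : relfinrank A F ≤ 2 * relfinrank (A ⊔ k⟮g⟯) F :=
  rel_le_root hA hg (q := X ^ 2 - C ⟨g ^ 2, h⟩) (monic_X_pow_sub_C _ two_ne_zero).ne_zero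
    (natDegree_X_pow_sub_C).le (by simp)

lemma rel_mono {A B F : IntermediateField k Ω} (h : A ≤ B) (h0 : relfinrank A F ≠ 0) :
    relfinrank B F ≤ relfinrank A F :=
  Nat.le_of_dvd (Nat.pos_of_ne_zero h0) (relfinrank_dvd_of_le_left F h)

lemma rel_ne_zero {A B F : IntermediateField k Ω} (h : A ≤ B) (h0 : relfinrank A F ≠ 0) :
    relfinrank B F ≠ 0 :=
  ne_zero_of_dvd_ne_zero h0 (relfinrank_dvd_of_le_left F h)

lemma alg_of_rel_ne_zero {A F : IntermediateField k Ω} (hA : A ≤ F) (h0 : relfinrank A F ≠ 0)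
    {g : Ω} (hg : g ∈ F) : IsAlgebraic A g := by
  rw [relfinrank_eq_finrank_of_le hA] at h0
  have : FiniteDimensional A (extendScalars hA) :=
    FiniteDimensional.of_finrank_pos (Nat.pos_of_ne_zero h0)
  exact (IsAlgebraic.of_finite A (⟨g, hg⟩ : extendScalars hA)).algebraMap

lemma alg_down {g t : Ω} (hg : IsAlgebraic k g) (ht : IsAlgebraic k⟮g⟯ t) : IsAlgebraic k t := by
  have := isAlgebraic_adjoin_simple hg.isIntegral
  exact ht.restrictScalars k

/-- The degree of `g` as a function on the curve with function field `F`. -/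
noncomputable def dg (F : IntermediateField k Ω) (g : Ω) : ℕ := relfinrank k⟮g⟯ F

/-- Function fields of one variable over a relatively closed constant field. -/
structure FF (F : IntermediateField k Ω) : Prop where
  closed : ∀ g : Ω, IsAlgebraic k g → g ∈ (⊥ : IntermediateField k Ω)
  fin : ∃ t ∈ F, Transcendental k t ∧ dg F t ≠ 0

variable {F : IntermediateField k Ω} (hF : FF F) {f g s t : Ω}
include hF

lemma FF.alg (hf : f ∈ F) (ht : Transcendental k f) (hg : g ∈ F) : IsAlgebraic k⟮f⟯ g ∧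
    dg F f ≠ 0 := by
  obtain ⟨t, h1, -, h3⟩ := hF.fin
  have h4 := exchange ht (alg_of_rel_ne_zero (adjoin_simple_le_iff.2 h1) h3 hf)
  have h5 : dg F f ≠ 0 := by
    rw [dg, rel_tower (adjoin_simple_le_iff.2 hf) h1 h4]
    exact mul_ne_zero (minpoly.natDegree_pos h4.isIntegral).ne' (rel_ne_zero le_sup_right h3)
  exact ⟨alg_of_rel_ne_zero (adjoin_simple_le_iff.2 hf) h5 hg, h5⟩

lemma FF.ne_zero (hf : f ∈ F) (ht : Transcendental k f) : dg F f ≠ 0 := (hF.alg hf ht hf).2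

lemma FF.eq_zero (ha : IsAlgebraic k f) : dg F f = 0 := by
  obtain ⟨t, h1, h2, -⟩ := hF.fin
  by_contra h
  exact h2 (alg_down ha (alg_of_rel_ne_zero
    (adjoin_simple_le_iff.2 (bot_le (a := F) (hF.closed f ha))) h h1))

lemma FF.le_rel (hs : s ∈ F) (hf : f ∈ F) {p : k[X][Y]} (hp : p ≠ 0) {n : ℕ}
    (hn : p.natDegree ≤ n) (h : aevalAeval s f p = 0) :
    dg F s ≤ n * relfinrank (k⟮s⟯ ⊔ k⟮f⟯) F := by
  by_cases ha : IsAlgebraic k s
  · simp [hF.eq_zero ha]
  exact rel_le_rel (adjoin_simple_le_iff.2 hs) hf (mem_adjoin_simple_self k s) ha hp hn h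

lemma FF.le_rel' (hf : f ∈ F) (hs : s ∈ k⟮f⟯) {p : k[X][Y]} (hp : p ≠ 0) {n : ℕ}
    (hn : p.natDegree ≤ n) (h : aevalAeval s f p = 0) : dg F s ≤ n * dg F f := by
  have := hF.le_rel (adjoin_simple_le_iff.2 hf hs) hf hp hn h
  rwa [sup_eq_right.2 (adjoin_simple_le_iff.2 hs)] at this

lemma FF.le_rel'' (hs : s ∈ F) (hf : f ∈ F) (ht : Transcendental k f) {p : k[X][Y]} (hp : p ≠ 0)
    {n : ℕ} (hn : p.natDegree ≤ n) (h : aevalAeval s f p = 0) : dg F s ≤ n * dg F f :=
  (hF.le_rel hs hf hp hn h).trans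
    (Nat.mul_le_mul_left _ (rel_mono le_sup_right (hF.ne_zero hf ht)))

lemma FF.eq_irr (hs : s ∈ F) (hf : f ∈ F) (ht : Transcendental k s) {p : k[X][Y]}
    (hp : Irreducible p) (h : aevalAeval s f p = 0) :
    dg F s = p.natDegree * relfinrank (k⟮s⟯ ⊔ k⟮f⟯) F := by
  rw [dg, rel_tower (adjoin_simple_le_iff.2 hs) hf (hF.alg hs ht hf).1, (irr_gauss ht hp h).1]

lemma FF.poly (hf : f ∈ F) (p : k[X]) : dg F (aeval f p) ≤ p.natDegree * dg F f := by
  refine hF.le_rel' hf (algebra_adjoin_le_adjoin k _ (Polynomial.aeval_mem_adjoin_singleton k f))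
    (p := p.map C - C X) (fun h => ?_) ?_ ?_
  · have := congrArg (coeff · 0) h
    simp only [coeff_sub, coeff_map, coeff_C_zero, coeff_zero, sub_eq_zero] at this
    exact X_ne_C _ this.symm
  · rw [natDegree_sub_C]
    exact natDegree_map_le
  · rw [map_sub, aevalAeval_X, ← Bivariate.swap_C, Bivariate.aevalAeval_swap, aevalAeval_C,
      sub_self]

lemma FF.pow (hf : f ∈ F) (n : ℕ) : dg F (f ^ n) ≤ n * dg F f := by
  simpa using hF.poly hf (X ^ n)

lemma FF.smul (hf : f ∈ F) (c : k) : dg F (algebraMap k Ω c * f) ≤ dg F f := by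
  have := hF.poly hf (C c * X)
  rw [map_mul, aeval_C, aeval_X] at this
  exact this.trans (by
    simpa using Nat.mul_le_mul_right _ ((natDegree_C_mul_le c X).trans natDegree_X_le))

lemma FF.neg (hf : f ∈ F) : dg F (-f) ≤ dg F f := by
  simpa using hF.smul hf (-1)

omit hF in
lemma dg_inv (f : Ω) : dg F f⁻¹ = dg F f := by
  have : ∀ g : Ω, k⟮g⁻¹⟯ ≤ k⟮g⟯ := fun g =>
    adjoin_simple_le_iff.2 (inv_mem (mem_adjoin_simple_self k g))
  rw [dg, dg, le_antisymm (this f) (by simpa using this f⁻¹)]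

lemma FF.sqrt (hf : f ∈ F) : dg F f ≤ dg F (f ^ 2) := by
  by_cases ha : IsAlgebraic k f
  · simp [hF.eq_zero ha]
  exact rel_mono (adjoin_simple_le_iff.2 (pow_mem (mem_adjoin_simple_self k f) 2))
    (hF.ne_zero (pow_mem hf 2) (Transcendental.pow ha two_pos))

lemma FF.add_const (hf : f ∈ F) (hg : IsAlgebraic k g) : dg F (f + g) ≤ dg F f := by
  obtain ⟨c, rfl⟩ := IntermediateField.mem_bot.1 (hF.closed g hg)
  have := hF.poly hf (X + C c)
  rwa [natDegree_X_add_C, one_mul, map_add, aeval_X, aeval_C] at this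

omit hF in
lemma natDegree_subst (p : k[X][Y]) :
    (aevalAeval (Y : k[X][Y]) (C X - Y) p).natDegree ≤
      p.natDegree + (Bivariate.swap p).natDegree := by
  rw [aevalAeval_eq_sum _ _ p (Nat.lt_succ_self _)]
  refine natDegree_sum_le_of_forall_le _ _ fun j hj => natDegree_mul_le.trans ?_
  have h1 : (aeval (Y : k[X][Y]) (p.coeff j)).natDegree ≤ (Bivariate.swap p).natDegree := by
    rw [← aevalAeval_C (R := k) (Y : k[X][Y]) (C X), ← Bivariate.swap_apply, Bivariate.swap_C]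
    exact natDegree_map_le.trans (natDegree_coeff_le p j)
  have h2 : ((C X - Y : k[X][Y]) ^ j).natDegree ≤ j := natDegree_pow_le.trans (by
    have : (C X - Y : k[X][Y]).natDegree ≤ 1 := by compute_degree
    simpa using Nat.mul_le_mul_left j this)
  have := Finset.mem_range.1 hj
  omega

lemma FF.add (hf : f ∈ F) (hg : g ∈ F) : dg F (f + g) ≤ dg F f + dg F g := by
  by_cases ha : IsAlgebraic k g
  · exact (hF.add_const hf ha).trans (Nat.le_add_right _ _)
  by_cases hb : IsAlgebraic k f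
  · rw [add_comm f]
    exact (hF.add_const hg hb).trans (Nat.le_add_left _ _)
  obtain ⟨p, h0, h1⟩ := rel_of_alg (hF.alg hf hb hg).1
  obtain ⟨p, hp, h1⟩ := irr_of_rel h0 h1
  have e1 := hF.eq_irr hf hg hb hp h1
  have e2 := hF.eq_irr hg hf ha ((MulEquiv.irreducible_iff Bivariate.swap).2 hp)
    (by rw [Bivariate.aevalAeval_swap, h1])
  have h2 : aevalAeval (Y : k[X][Y]) (C X - Y) p ≠ 0 := fun h => hp.ne_zero <| by
    have := aevalAeval_algHom (aevalAeval (R := k) (C X + Y : k[X][Y]) (C X)) Y (C X - Y) p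
    rw [h, map_zero, map_sub, aevalAeval_X, aevalAeval_Y, add_sub_cancel_left] at this
    rw [← this]
    exact congr($(show AlgHom.id k k[X][Y] = aevalAeval (C X : k[X][Y]) Y from
      algHom_ext' (by ext; simp) (by simp)) p)
  have h3 : aevalAeval (f + g) f (aevalAeval (Y : k[X][Y]) (C X - Y) p) = 0 := by
    rw [← aevalAeval_algHom, map_sub, aevalAeval_X, aevalAeval_Y, add_sub_cancel_left, h1]
  have h4 := hF.le_rel (add_mem hf hg) hf h2 (natDegree_subst p) h3
  have m1 : ∀ u v : Ω, u ∈ k⟮u⟯ ⊔ k⟮v⟯ := fun u v =>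
    le_sup_left (a := k⟮u⟯) (mem_adjoin_simple_self k u)
  have m2 : ∀ u v : Ω, v ∈ k⟮u⟯ ⊔ k⟮v⟯ := fun u v =>
    le_sup_right (a := k⟮u⟯) (mem_adjoin_simple_self k v)
  have h5 : k⟮f + g⟯ ⊔ k⟮f⟯ = k⟮f⟯ ⊔ k⟮g⟯ := le_antisymm
    (sup_le (adjoin_simple_le_iff.2 (add_mem (m1 _ _) (m2 _ _))) le_sup_left)
    (sup_le le_sup_right (adjoin_simple_le_iff.2
      (by simpa using sub_mem (m1 (f + g) f) (m2 (f + g) f))))
  rw [h5, add_mul, ← e1, sup_comm, ← e2] at h4
  exact h4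

lemma FF.sub (hf : f ∈ F) (hg : g ∈ F) : dg F (f - g) ≤ dg F f + dg F g := by
  rw [sub_eq_add_neg]
  exact (hF.add hf (neg_mem hg)).trans (Nat.add_le_add_left (hF.neg hg) _)

lemma FF.mul [CharZero k] (hf : f ∈ F) (hg : g ∈ F) : dg F (f * g) ≤ 4 * (dg F f + dg F g) := by
  have : CharZero Ω := charZero_of_injective_algebraMap (algebraMap k Ω).injective
  have e : f * g = algebraMap k Ω 4⁻¹ * ((f + g) ^ 2 - (f - g) ^ 2) := by
    rw [map_inv₀, map_ofNat]; field_simp; ring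
  have h1 := pow_mem (add_mem hf hg) 2
  have h2 := pow_mem (sub_mem hf hg) 2
  have h3 := hF.smul (sub_mem h1 h2) 4⁻¹
  have h4 := hF.sub h1 h2
  have h5 := hF.pow (add_mem hf hg) 2
  have h6 := hF.pow (sub_mem hf hg) 2
  have h7 := hF.add hf hg
  have h8 := hF.sub hf hg
  rw [e]
  omega

lemma FF.sum {ι : Type} (S : Finset ι) (u : ι → Ω) (hu : ∀ i ∈ S, u i ∈ F) :
    dg F (∑ i ∈ S, u i) ≤ ∑ i ∈ S, dg F (u i) := by
  classical
  induction S using Finset.induction_on with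
  | empty => simp [hF.eq_zero isAlgebraic_zero]
  | insert a S ha ih =>
    rw [Finset.sum_insert ha, Finset.sum_insert ha]
    have h1 : ∀ i ∈ S, u i ∈ F := fun i hi => hu i (Finset.mem_insert_of_mem hi)
    exact (hF.add (hu a (Finset.mem_insert_self _ _)) (sum_mem h1)).trans
      (Nat.add_le_add_left (ih h1) _)

omit hF in
lemma aeval_mem {A : IntermediateField k Ω} (hf : f ∈ A) (p : k[X]) : aeval f p ∈ A :=
  adjoin_simple_le_iff.2 hf
    (algebra_adjoin_le_adjoin k _ (Polynomial.aeval_mem_adjoin_singleton k f))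

omit hF in
lemma ev_mem {A : IntermediateField k Ω} (hf : f ∈ A) (hg : g ∈ A) (p : k[X][Y]) :
    aevalAeval f g p ∈ A := by
  rw [aevalAeval_eq_sum _ _ p (Nat.lt_succ_self _)]
  exact sum_mem fun j _ => mul_mem (aeval_mem hf _) (pow_mem hg _)

lemma FF.ev [CharZero k] (hf : f ∈ F) (hg : g ∈ F) (p : k[X][Y]) {N : ℕ} (h1 : p.natDegree ≤ N)
    (h2 : ∀ j, (p.coeff j).natDegree ≤ N) :
    dg F (aevalAeval f g p) ≤ (N + 1) * (4 * N * (dg F f + dg F g)) := by
  rw [aevalAeval_eq_sum _ _ p (Nat.lt_succ_of_le h1)]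
  refine (hF.sum _ _ fun j _ => mul_mem (aeval_mem hf _) (pow_mem hg _)).trans ?_
  refine (Finset.sum_le_card_nsmul _ _ (4 * N * (dg F f + dg F g)) fun j hj => ?_).trans (by simp)
  refine (hF.mul (aeval_mem hf _) (pow_mem hg _)).trans ?_
  have h3 := (hF.poly hf (p.coeff j)).trans (Nat.mul_le_mul_right _ (h2 j))
  have h4 := (hF.pow hg j).trans
    (Nat.mul_le_mul_right _ (Nat.lt_succ_iff.1 (Finset.mem_range.1 hj)))
  rw [mul_assoc, mul_add N]
  omega

lemma FF.eq_of_irr (hf : f ∈ F) (hg : g ∈ F) (ht : t ∈ F) (tf : Transcendental k f)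
    (tg : Transcendental k g) (tt : Transcendental k t) {p : k[X][Y]} (hp : Irreducible p)
    (h1 : aevalAeval f t p = 0) (h2 : aevalAeval g t p = 0) : dg F f = dg F g := by
  have hq := (MulEquiv.irreducible_iff Bivariate.swap).2 hp
  have e1 := hF.eq_irr hf ht tf hp h1
  have e2 := hF.eq_irr hg ht tg hp h2
  have e3 := hF.eq_irr ht hf tt hq (by rw [Bivariate.aevalAeval_swap, h1])
  have e4 := hF.eq_irr ht hg tt hq (by rw [Bivariate.aevalAeval_swap, h2])
  have h0 := hF.ne_zero ht tt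
  rw [e3] at h0
  rw [e1, e2, sup_comm, mul_left_cancel₀ (left_ne_zero_of_mul h0) (e3.symm.trans e4), sup_comm]

end Pool.Agent.Lib.MP_651af7_nt.Iv
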