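import Pool.Agent.Lib.MP_651af7_nt.IvPt

/-! Derivations and the invariant differential. -/

namespace Pool.Agent.Lib.MP_651af7_nt.Iv

open Polynomial IntermediateField Pool.Agent.Lib.MP_e97e2b_nt
open scoped Polynomial.Bivariate

variable {k Ω : Type} [Field k] [CharZero k] [Field Ω] [Algebra k Ω]

open KaehlerDifferential in
lemma exists_basis_kaehler {I : Type} (x : I → Ω) (hx : IsTranscendenceBasis k x) :
    ∃ b : Module.Basis I Ω (KaehlerDifferential k Ω), ∀ i, b i = D k Ω (x i) := by
  let S := MvPolynomial I k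
  let _ : Algebra S Ω := (MvPolynomial.aeval x).toRingHom.toAlgebra
  have hS : ∀ s : S, algebraMap S Ω s = MvPolynomial.aeval x s := fun _ => rfl
  have : IsScalarTower k S Ω := .of_algebraMap_eq fun q => by rw [hS, AlgHom.commutes]
  have : FaithfulSMul S Ω := (faithfulSMul_iff_algebraMap_injective _ _).2 hx.1
  have : Algebra.IsAlgebraic S Ω := by
    have := hx.isAlgebraic
    refine Algebra.IsAlgebraic.ringHom_of_comp_eq hx.1.aevalEquiv.symm.toRingEquiv.toRingHom
      (RingHom.id Ω) hx.1.aevalEquiv.symm.injective Function.surjective_id ?_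
    ext s
    obtain ⟨s, rfl⟩ := hx.1.aevalEquiv.surjective s
    simp [hS]
  let _ := FractionRing.liftAlgebra S Ω
  have := FractionRing.isScalarTower_liftAlgebra S Ω
  have : Algebra.IsAlgebraic (FractionRing S) Ω :=
    Algebra.IsAlgebraic.extendScalars (IsFractionRing.injective S (FractionRing S))
  have : Algebra.FormallyEtale (FractionRing S) Ω := Algebra.FormallyEtale.of_isSeparable _ _
  have : Algebra.FormallyEtale S (FractionRing S) :=
    Algebra.FormallyEtale.of_isLocalization (nonZeroDivisors S)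
  have : Algebra.FormallyEtale S Ω := Algebra.FormallyEtale.comp S (FractionRing S) Ω
  refine ⟨(isBaseChange_of_formallyEtale k S Ω).basis (mvPolynomialBasis k I), fun i => ?_⟩
  rw [IsBaseChange.basis_apply, mvPolynomialBasis_apply, map_D, hS, MvPolynomial.aeval_X]

lemma exists_der {z : Ω} (hz : Transcendental k z) : ∃ D : Derivation k Ω Ω, D z ≠ 0 := by
  obtain ⟨t, h1, h2⟩ := exists_isTranscendenceBasis_superset (R := k) (s := {z})
    (algebraicIndependent_unique_type_iff.2 hz)
  obtain ⟨b, hb⟩ := exists_basis_kaehler _ h2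
  refine ⟨(b.coord ⟨z, h1 rfl⟩).compDer (KaehlerDifferential.D k Ω), ?_⟩
  change b.coord ⟨z, h1 rfl⟩ (KaehlerDifferential.D k Ω z) ≠ 0
  rw [← hb ⟨z, h1 rfl⟩]
  simp

lemma der_alg (E : Derivation k Ω Ω) {z : Ω} (hz : IsAlgebraic k z) : E z = 0 := by
  have h1 := congrArg E (minpoly.aeval k z)
  rw [Derivation.map_aeval, map_zero, smul_eq_mul, mul_eq_zero] at h1
  refine h1.resolve_left fun h => ?_
  have h2 := (minpoly.irreducible hz.isIntegral).separable
  exact h2.aeval_derivative_ne_zero (minpoly.aeval k z) h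

/-- The derivative in the inner variable. -/
noncomputable def dX {R : Type} [CommRing R] (p : R[X][Y]) : R[X][Y] :=
  Bivariate.swap (derivative (Bivariate.swap p))

lemma der_ev {R : Type} [CommRing R] [Algebra R Ω] (D : Derivation R Ω Ω) (x y : Ω)
    (p : R[X][Y]) : D (aevalAeval x y p) =
      aevalAeval x y (dX p) * D x + aevalAeval x y (derivative p) * D y := by
  induction p using Polynomial.induction_on' with
  | add p q hp hq => simp only [dX, map_add] at hp hq ⊢; rw [hp, hq]; ring
  | monomial n a =>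
    have : dX (monomial n a) = monomial n (derivative a) := by
      rw [dX, Bivariate.swap_monomial, derivative_mul, derivative_C, mul_zero, add_zero,
        derivative_map, ← Bivariate.swap_monomial, Bivariate.swap_swap_apply]
    rw [this, derivative_monomial]
    simp only [← C_mul_X_pow_eq_monomial, map_mul, map_pow, aevalAeval_C, aevalAeval_Y,
      Derivation.leibniz, Derivation.leibniz_pow, Derivation.map_aeval, smul_eq_mul, map_natCast,
      nsmul_eq_mul]
    ring

lemma irr_der_ne {x y : Ω} (hx : Transcendental k x) {p : k[X][Y]} (hp : Irreducible p)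
    (h : aevalAeval x y p = 0) : aevalAeval x y (derivative p) ≠ 0 := fun h1 => by
  have h0 := irr_natDegree_ne hx hp.ne_zero h
  exact (natDegree_le_of_dvd ((irr_gauss hx hp h).2 _ h1)
    fun e => h0 (derivative_eq_zero.1 e)).not_gt (natDegree_derivative_lt h0)

variable {a b : k}

/-- The invariant differential contracted with a derivation. -/
noncomputable def lam (D : Derivation k Ω Ω) {A B : Ω} (P : Pt A B) : Ω := D (xc P) / (2 * yc P)

variable (D : Derivation k Ω Ω) {P Q : Pt (algebraMap k Ω a) (algebraMap k Ω b)}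

lemma lam_spec (h : P ≠ 0) : D (xc P) = 2 * yc P * lam D P ∧
    D (yc P) = (3 * xc P ^ 2 + algebraMap k Ω a) * lam D P := by
  have : CharZero Ω := charZero_of_injective_algebraMap (algebraMap k Ω).injective
  obtain ⟨h1, h2⟩ := ns_of_ne h
  have h3 := congrArg D h1
  simp only [map_add, Derivation.leibniz, Derivation.leibniz_pow, Derivation.map_algebraMap,
    smul_eq_mul, nsmul_eq_mul] at h3
  norm_num at h3
  have h4 : D (xc P) = 2 * yc P * lam D P := by
    by_cases hy : yc P = 0
    · rw [hy] at h2 h3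
      have := h2.resolve_right (by simp)
      rw [hy, mul_left_cancel₀ this (by linear_combination -h3 : _ * D (xc P) = _ * 0)]
      simp
    · rw [lam]; field_simp
  refine ⟨h4, ?_⟩
  by_cases hy : yc P = 0
  · simp [lam, hy]
  · refine mul_left_cancel₀ (mul_ne_zero two_ne_zero hy) ?_
    linear_combination h3 + (3 * xc P ^ 2 + algebraMap k Ω a) * h4

lemma lam_eq (h : P ≠ 0) {w : Ω} (h1 : D (xc P) = 2 * yc P * w)
    (h2 : D (yc P) = (3 * xc P ^ 2 + algebraMap k Ω a) * w) : lam D P = w := by
  obtain ⟨h3, h4⟩ := lam_spec D h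
  rcases (ns_of_ne h).2 with e | e
  · exact mul_left_cancel₀ e (h4.symm.trans h2)
  · exact mul_left_cancel₀ e (h3.symm.trans h1)

omit [CharZero k] in
lemma lam_neg {A B : Ω} (P : Pt A B) : lam D (-P) = -lam D P := by
  simp [lam, div_neg]

lemma lam_add (P Q : Pt (algebraMap k Ω a) (algebraMap k Ω b)) :
    lam D (P + Q) = lam D P + lam D Q := by
  by_cases h1 : P = 0
  · simp [h1, lam]
  by_cases h2 : Q = 0
  · simp [h2, lam]
  by_cases h3 : P + Q = 0
  · rw [h3, eq_neg_of_add_eq_zero_left h3, lam_neg]; simp [lam]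
  obtain ⟨l, e₁, e₂, h, ex, ey⟩ := add_spec h1 h2 h3
  obtain ⟨p1, p2⟩ := lam_spec D h1
  obtain ⟨q1, q2⟩ := lam_spec D h2
  have d₁ := congrArg D e₁
  have d₂ := congrArg D e₂
  have dx := congrArg D ex
  have dy := congrArg D ey
  simp only [map_add, map_sub, map_neg, Derivation.leibniz, Derivation.leibniz_pow,
    Derivation.map_algebraMap, smul_eq_mul, nsmul_eq_mul, p1, p2, q1, q2] at d₁ d₂ dx dy
  norm_num at d₂ dx
  generalize lam D P = w₁ at *
  generalize lam D Q = w₂ at *
  generalize xc P = x₁ at *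
  generalize xc Q = x₂ at *
  generalize yc P = y₁ at *
  generalize yc Q = y₂ at *
  have dl : D l = (2 * x₁ + x₂ - l ^ 2) * w₁ + (x₁ + 2 * x₂ - l ^ 2) * w₂ := by
    rcases h with h | h
    · refine mul_left_cancel₀ (sub_ne_zero.2 h) ?_
      linear_combination d₁ + (l * w₁ + l * w₂) * e₁ - (w₁ - w₂) * e₂
    · refine mul_left_cancel₀ h ?_
      linear_combination d₂ + ((x₁ + 2 * x₂) * w₂ - (2 * x₁ + x₂) * w₁) * e₁ +
        (l * w₁ + l * w₂) * e₂
  have d3 : D (xc (P + Q)) = 2 * yc (P + Q) * (w₁ + w₂) := by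
    rw [dx, dl, ey, ex]
    linear_combination (-2 * w₂) * e₁
  refine lam_eq D h3 d3 ?_
  rw [dy, d3, dl, ey, ex]
  linear_combination (2 * w₁ + w₂) * (e₂ - l * e₁)

/-- The invariant differential as a group homomorphism. -/
noncomputable def lamH (a b : k) : Pt (algebraMap k Ω a) (algebraMap k Ω b) →+ Ω :=
  AddMonoidHom.mk' (lam D) (lam_add D)

lemma lam_sub (P Q : Pt (algebraMap k Ω a) (algebraMap k Ω b)) :
    lam D (P - Q) = lam D P - lam D Q := map_sub (lamH D a b) P Q

lemma lam_nsmul (n : ℕ) (P : Pt (algebraMap k Ω a) (algebraMap k Ω b)) :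
    lam D (n • P) = n * lam D P := (map_nsmul (lamH D a b) n P).trans (nsmul_eq_mul _ _)

lemma lam_const {A B : Ω} {P : Pt A B} (h : IsAlgebraic k (xc P)) : lam D P = 0 := by
  rw [lam, der_alg D h, zero_div]

lemma const_of_lam (h : ∀ D : Derivation k Ω Ω, lam D P = 0) : IsAlgebraic k (xc P) := by
  have : CharZero Ω := charZero_of_injective_algebraMap (algebraMap k Ω).injective
  by_contra ht
  obtain ⟨D, hD⟩ := exists_der ht
  exact div_ne_zero hD (mul_ne_zero two_ne_zero (yc_ne_zero ht)) (h D)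

/-- The slope of the curve `φ = 0` at a point. -/
noncomputable def mu [CharZero Ω] (φ : ℚ[X][Y]) {A B A' B' : Ω} (P : Pt A B) (Q : Pt A' B') : Ω :=
  -(aevalAeval (xc P) (xc Q) (dX φ) * yc P *
    (aevalAeval (xc P) (xc Q) (derivative φ) * yc Q)⁻¹)

lemma lam_slope [CharZero Ω] {φ : ℚ[X][Y]} (hφ : Irreducible φ) {A' B' : Ω} {Q : Pt A' B'}
    (ht : Transcendental k (xc P)) (h : aevalAeval (xc P) (xc Q) φ = 0) :
    lam D Q = mu φ P Q * lam D P := by
  have h1 := der_ev (D.restrictScalars ℚ) (xc P) (xc Q) φ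
  have h2 := irr_der_ne (ht.restrictScalars (algebraMap ℚ k).injective) hφ h
  have h3 := yc_ne_zero ht
  rw [h, map_zero] at h1
  simp only [Derivation.restrictScalars_apply] at h1
  by_cases hy : yc Q = 0
  · simp [lam, mu, hy]
  rw [lam, lam, mu]
  field_simp
  linear_combination -h1

lemma mu_fmap [CharZero Ω] (φ : ℚ[X][Y]) {A B A' B' : Ω} (f : Ω →+* Ω) (hA : f A = A)
    (hB : f B = B) (hA' : f A' = A') (hB' : f B' = B') (P : Pt A B) (Q : Pt A' B') :
    mu φ (fmap f hA hB P) (fmap f hA' hB' Q) = f (mu φ P Q) := by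
  have := fun p => aevalAeval_algHom f.toRatAlgHom (xc P) (xc Q) p
  simp only [RingHom.toRatAlgHom_apply] at this
  simp only [mu, xc_fmap, yc_fmap, this, map_neg, map_mul, map_inv₀]

end Pool.Agent.Lib.MP_651af7_nt.Iv
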