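import Pool.Agent.Lib.MP_651af7_nt.IvPt
import Pool.Agent.Lib.MP_651af7_nt.IvExt

/-! Places at infinity and the fixed exceptional curve. -/

namespace Pool.Agent.Lib.MP_651af7_nt.Iv

open Polynomial IntermediateField Pool.Agent.Lib.MP_e97e2b_nt
open scoped Polynomial.Bivariate

/-- The symmetric relation between the first coordinates of three collinear points. -/
def quad {R : Type} [CommRing R] (a b u v w : R) : R :=
  (u * v + u * w + v * w - a) ^ 2 - 4 * (u + v + w) * (u * v * w + b)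

lemma quad_add {Ω : Type} [Field Ω] {A B : Ω} {P Q : Pt A B} (hP : P ≠ 0) (hQ : Q ≠ 0)
    (h : P + Q ≠ 0) : quad A B (xc P) (xc Q) (xc (P + Q)) = 0 := by
  obtain ⟨l, e₁, e₂, -, ex, -⟩ := add_spec hP hQ h
  have e₀ := (ns_of_ne hP).1
  have h1 : xc P * xc Q + xc P * xc (P + Q) + xc Q * xc (P + Q) - A =
      -2 * l * (yc P - l * xc P) := by
    rw [ex]; linear_combination e₂ - l * e₁
  have h2 : xc P * xc Q * xc (P + Q) + B = (yc P - l * xc P) ^ 2 := by
    rw [ex] at h1 ⊢; linear_combination xc P * h1 - e₀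
  rw [quad, h1, h2, ex]
  ring

lemma hasTop_of_coeff {R : Type} [CommRing R] {p : R[X][Y]} {a b : ℕ}
    (h0 : (p.coeff b).coeff a ≠ 0) (h : ∀ i j, (p.coeff j).coeff i ≠ 0 → i ≤ a ∧ j ≤ b) :
    HasTop p := by
  have h1 : p.natDegree = b := le_antisymm
    (natDegree_le_iff_coeff_eq_zero.2 fun j hj => Polynomial.ext fun i => by
      by_contra hc
      exact (h i j hc).2.not_gt hj)
    (le_natDegree_of_ne_zero fun e => h0 (by simp [e]))
  refine le_trans (natDegree_le_iff_coeff_eq_zero.2 fun i hi => Polynomial.ext fun j => ?_)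
    (le_natDegree_of_ne_zero (by rw [leadingCoeff, h1]; exact h0))
  by_contra hc
  rw [coeff_swap] at hc
  exact (h i j hc).1.not_gt hi

section val

variable {k Ω : Type} [Field k] [Field Ω] [Algebra k Ω]

lemma aevalAeval_eq_eval₂ (x y : Ω) (p : k[X][Y]) :
    aevalAeval x y p = eval₂ (aeval x : k[X] →ₐ[k] Ω).toRingHom y p := by
  rw [eval₂_eq_eval_map, ← coe_aeval_eq_eval]
  exact (aeval_sp x y p).symm

lemma ev_reflect {x y : Ω} (hy : y ≠ 0) {p : k[X][Y]} (h : aevalAeval x y⁻¹ p = 0) :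
    aevalAeval x y (reflect p.natDegree p) = 0 := by
  let _ := invertibleOfNonzero (inv_ne_zero hy)
  rw [aevalAeval_eq_eval₂] at h ⊢
  simpa using (eval₂_reflect_eq_zero_iff _ y⁻¹ _ p le_rfl).2 h

lemma exists_place {x w : Ω} (hx : Transcendental k x) {φ : k[X][Y]} (hφ : Irreducible φ)
    (ht : ¬HasTop φ) (h : aevalAeval x w φ = 0) : w ≠ 0 ∧ ∃ V : ValuationSubring Ω,
      (∀ c, algebraMap k Ω c ∈ V) ∧ V.valuation x⁻¹ < 1 ∧ V.valuation w⁻¹ < 1 := by
  have hd := (irr_gauss hx hφ h).2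
  have hw : w ≠ 0 := fun e => ht (HasTop.of_dvd X_ne_zero (hd Y (by rw [aevalAeval_Y, e]))
    (by simp [HasTop, Bivariate.swap_Y]))
  have hx0 : x ≠ 0 := fun e => hx (e ▸ isAlgebraic_zero)
  refine ⟨hw, ?_⟩
  have key : ∀ p : k[X][Y], aevalAeval x⁻¹ w⁻¹ p = 0 → (p.coeff 0).coeff 0 = 0 := fun p hp => by
    by_contra h0
    have h1 := ev_reflect hw hp
    rw [← Bivariate.aevalAeval_swap] at h1
    have h2 := ev_reflect hx0 h1
    rw [← Bivariate.aevalAeval_swap] at h2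
    set N := (Bivariate.swap (reflect p.natDegree p)).natDegree with hN
    have h3 : ∀ i j, ((Bivariate.swap (reflect N (Bivariate.swap (reflect p.natDegree p)))).coeff
        j).coeff i = (p.coeff (revAt p.natDegree j)).coeff (revAt N i) := fun i j => by
      rw [coeff_swap, coeff_reflect, coeff_swap, coeff_reflect]
    have h4 : ((Bivariate.swap (reflect N (Bivariate.swap (reflect p.natDegree p)))).coeff
        p.natDegree).coeff N ≠ 0 := by rw [h3]; simpa using h0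
    refine ht (HasTop.of_dvd (fun e => h4 (by rw [e]; simp)) (hd _ h2)
      (hasTop_of_coeff h4 fun i j hij => ⟨?_, ?_⟩))
    · by_contra hc
      rw [coeff_swap, coeff_reflect, revAt_eq_self_of_lt (not_le.1 hc),
        coeff_eq_zero_of_natDegree_lt (not_le.1 hc)] at hij
      exact hij rfl
    · by_contra hc
      rw [h3, revAt_eq_self_of_lt (not_le.1 hc),
        coeff_eq_zero_of_natDegree_lt (not_le.1 hc)] at hij
      exact hij rfl
  let f := (aevalAeval x⁻¹ w⁻¹ : k[X][Y] →ₐ[k] Ω).toRingHom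
  let g : k[X][Y] →+* k := constantCoeff.comp constantCoeff
  obtain ⟨V, h1, h2⟩ := Ideal.image_subset_nonunits_valuationSubring
    ((RingHom.ker g).map f.rangeRestrict) fun e => by
      obtain ⟨p, hp, e1⟩ := (Ideal.mem_map_iff_of_surjective _ f.rangeRestrict_surjective).1
        ((Ideal.eq_top_iff_one _).1 e)
      have := key (1 - p) (by
        rw [map_sub, map_one, sub_eq_zero]
        exact (congrArg Subtype.val e1).symm)
      have hp' : (p.coeff 0).coeff 0 = 0 := hp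
      simp [hp'] at this
  have h3 : ∀ p, g p = 0 → V.valuation (aevalAeval x⁻¹ w⁻¹ p) < 1 := fun p hp =>
    h2 ⟨_, Ideal.mem_map_of_mem _ hp, rfl⟩
  refine ⟨V, fun c => h1 ⟨C (C c), by simp [f]⟩, ?_, ?_⟩
  · simpa using h3 (C X) (by simp [g])
  · simpa using h3 Y (by simp [g])

variable {V : ValuationSubring Ω}

lemma val_mul_lt {x y : Ω} (hx : V.valuation x < 1) (hy : y ∈ V) : V.valuation (x * y) < 1 := by
  rw [map_mul]
  exact mul_lt_one_of_lt_of_le hx ((V.valuation_le_one_iff y).2 hy)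

lemma val_mem {x : Ω} (hx : V.valuation x < 1) : x ∈ V := (V.valuation_le_one_iff x).1 hx.le

lemma val_inv_lt {x : Ω} (hx : x ∉ V) : V.valuation x⁻¹ < 1 := by
  rw [← V.valuation_le_one_iff, not_le] at hx
  rw [map_inv₀]
  exact inv_lt_one_of_one_lt₀ hx

lemma val_top {x : Ω} (hx : x ≠ 0) (h1 : V.valuation x⁻¹ < 1) {c : ℕ → Ω} (hc : ∀ i, c i ∈ V)
    {N : ℕ} (h : ∑ i ∈ Finset.range (N + 1), c i * x ^ i = 0) : V.valuation (c N) < 1 := by
  have : c N = ∑ i ∈ Finset.range N, x⁻¹ * (-(c i * x⁻¹ ^ (N - i - 1))) := by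
    rw [Finset.sum_range_succ] at h
    refine mul_right_cancel₀ (pow_ne_zero N hx) ?_
    rw [eq_neg_of_add_eq_zero_right h, Finset.sum_mul, ← Finset.sum_neg_distrib]
    refine Finset.sum_congr rfl fun i hi => ?_
    obtain ⟨d, rfl⟩ := Nat.exists_eq_add_of_lt (Finset.mem_range.1 hi)
    rw [show i + d + 1 - i - 1 = d by omega, inv_pow]
    field_simp
    ring
  rw [this]
  exact V.valuation.map_sum_lt one_ne_zero fun i _ =>
    val_mul_lt h1 (neg_mem (mul_mem (hc i) (pow_mem (val_mem h1) _)))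

lemma val_alg (hV : ∀ c, algebraMap k Ω c ∈ V) {z : Ω} (hz : IsAlgebraic k z) : z ∈ V := by
  by_contra h
  have h0 : z ≠ 0 := fun e => h (e ▸ zero_mem V)
  have h1 := minpoly.aeval k z
  rw [aeval_eq_sum_range] at h1
  simp only [Algebra.smul_def] at h1
  have := val_top h0 (val_inv_lt h) (fun i => hV _) h1
  rw [(minpoly.monic hz.isIntegral).coeff_natDegree, map_one, map_one] at this
  exact this.false

lemma val_alg_eq_zero (hV : ∀ c, algebraMap k Ω c ∈ V) {z : Ω} (hz : IsAlgebraic k z)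
    (h : V.valuation z < 1) : z = 0 := by
  by_contra h0
  have := val_mul_lt h (val_alg hV hz.inv)
  rw [mul_inv_cancel₀ h0, map_one] at this
  exact this.false

lemma val_aeval (hV : ∀ c, algebraMap k Ω c ∈ V) {u : Ω} (hu : u ∈ V) (p : k[X]) :
    aeval u p ∈ V := by
  rw [aeval_eq_sum_range]
  exact sum_mem fun i _ => by rw [Algebra.smul_def]; exact mul_mem (hV _) (pow_mem hu _)

lemma val_aeval_sub (hV : ∀ c, algebraMap k Ω c ∈ V) {u v : Ω} (hu : u ∈ V) (hv : v ∈ V)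
    (h : V.valuation (u - v) < 1) (p : k[X]) : V.valuation (aeval u p - aeval v p) < 1 := by
  rw [aeval_eq_sum_range, aeval_eq_sum_range, ← Finset.sum_sub_distrib]
  refine V.valuation.map_sum_lt one_ne_zero fun i _ => ?_
  rw [← smul_sub, Algebra.smul_def, ← Commute.mul_geom_sum₂ (Commute.all u v), mul_left_comm]
  exact val_mul_lt h (mul_mem (hV _) (sum_mem fun j _ => mul_mem (pow_mem hu _) (pow_mem hv _)))

lemma val_quad {a b u v w : Ω} (ha : a ∈ V) (hb : b ∈ V) (hv : v ∈ V) (hw : w ≠ 0)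
    (h1 : V.valuation w⁻¹ < 1) (h : quad a b u v w = 0) : u ∈ V ∧ V.valuation (u - v) < 1 := by
  have hw' := val_mem h1
  have h2 : (2 : Ω) ∈ V := ofNat_mem V 2
  have h4 : (4 : Ω) ∈ V := ofNat_mem V 4
  have hu : u ∈ V := by
    by_contra hu
    have h0 : u ≠ 0 := fun e => hu (e ▸ zero_mem V)
    have h3 := val_inv_lt hu
    have hu' := val_mem h3
    have e : (1 : Ω) = w⁻¹ * (4 * (1 + v * u⁻¹) * (v + b * u⁻¹ * w⁻¹) -
        (v - a * u⁻¹) * (2 + v * w⁻¹ + v * u⁻¹ - a * u⁻¹ * w⁻¹)) +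
        u⁻¹ * (4 * (v + b * u⁻¹ * w⁻¹) - v * (2 + v * w⁻¹ + v * u⁻¹ - a * u⁻¹ * w⁻¹)) := by
      rw [quad] at h
      field_simp
      linear_combination h
    have : V.valuation 1 < 1 := by
      rw [e]
      refine V.valuation.map_add_lt (val_mul_lt h1 ?_) (val_mul_lt h3 ?_) <;>
        apply_rules [add_mem, sub_mem, mul_mem, one_mem]
    simp at this
  refine ⟨hu, ?_⟩
  have e : (u - v) ^ 2 = w⁻¹ * (4 * (b + (u + v) * (u * v + w⁻¹ * b)) -
      (u * v - a) * (2 * (u + v) + w⁻¹ * (u * v - a))) := by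
    rw [quad] at h
    field_simp
    linear_combination h
  have : V.valuation (u - v) ^ 2 < 1 := by
    rw [← map_pow, e]
    refine val_mul_lt h1 ?_
    apply_rules [add_mem, sub_mem, mul_mem, one_mem]
  exact (pow_lt_one_iff two_ne_zero).1 this

/-- A translate of the curve `φ₁` through the pole forces the translation into a finite set. -/
lemma val_psi (hV : ∀ c, algebraMap k Ω c ∈ V) {a b x u v w : Ω} (ha : IsAlgebraic k a)
    (hb : IsAlgebraic k b) (hv : IsAlgebraic k v) (hx : x ≠ 0) (hw : w ≠ 0)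
    (h1 : V.valuation x⁻¹ < 1) (h2 : V.valuation w⁻¹ < 1) (h : quad a b u v w = 0) {φ : k[X][Y]}
    (hφ : aevalAeval x u φ = 0) : aeval v (Bivariate.swap φ).leadingCoeff = 0 := by
  obtain ⟨h3, h4⟩ := val_quad (val_alg hV ha) (val_alg hV hb) (val_alg hV hv) hw h2 h
  rw [← Bivariate.aevalAeval_swap, aevalAeval_eq_sum _ _ _ (Nat.lt_succ_self _)] at hφ
  have h5 := val_top hx h1 (fun i => val_aeval hV h3 _) hφ
  have h6 := val_aeval_sub hV h3 (val_alg hV hv) h4 (Bivariate.swap φ).leadingCoeff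
  refine val_alg_eq_zero hV (IsIntegral.of_mem_of_fg _ hv.isIntegral.fg_adjoin_singleton _
    (Polynomial.aeval_mem_adjoin_singleton k v)).isAlgebraic ?_
  simpa using V.valuation.map_sub_lt h5 h6

end val

section theta

variable {K : Type} [Field K]

lemma quad_map {R S : Type} [CommRing R] [CommRing S] [Algebra K R] [Algebra K S]
    (f : R →ₐ[K] S) (a b : K) (u v w : R) :
    quad (algebraMap K S a) (algebraMap K S b) (f u) (f v) (f w) =
      f (quad (algebraMap K R a) (algebraMap K R b) u v w) := by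
  simp [quad, map_ofNat]

/-- The relation as a polynomial in the last variable. -/
noncomputable def quadP {R : Type} [CommRing R] (a b u v : R) : R[X] :=
  C ((u - v) ^ 2) * X ^ 2 - C (2 * (u * v * (u + v) + a * (u + v) + 2 * b)) * X +
    C ((u * v - a) ^ 2 - 4 * b * (u + v))

lemma aeval_quadP {R S : Type} [CommRing R] [CommRing S] [Algebra R S] (a b u v : R) (w : S) :
    aeval w (quadP a b u v) =
      quad (algebraMap R S a) (algebraMap R S b) (algebraMap R S u) (algebraMap R S v) w := by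
  simp only [quadP, quad, map_add, map_sub, map_mul, map_pow, aeval_X, aeval_C, map_ofNat]
  ring

lemma quadP_ne_zero {R : Type} [Field R] [CharZero R] {a b : R} (hD : 4 * a ^ 3 + 27 * b ^ 2 ≠ 0)
    (u v : R) : quadP a b u v ≠ 0 := fun h => by
  have h2 := congrArg (coeff · 2) h
  have h1 := congrArg (coeff · 1) h
  have h0 := congrArg (coeff · 0) h
  simp only [quadP, coeff_add, coeff_sub, coeff_C_mul, coeff_X_pow, coeff_X, coeff_C,
    coeff_zero] at h0 h1 h2
  norm_num at h0 h1 h2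
  rw [sub_eq_zero] at h2
  subst h2
  exact hD (by linear_combination (3 * u ^ 2 + 4 * a) * h0 -
    (3 * u ^ 3 - 5 * a * u - 27 * b) / 2 * h1)

lemma exists_theta [CharZero K] {a b : K} (hD : 4 * a ^ 3 + 27 * b ^ 2 ≠ 0) {φ : K[X][Y]}
    (hφ : φ ≠ 0) {ψ : K[X]} (hψ : ψ ≠ 0) : ∃ Θ : K[X][Y], Θ ≠ 0 ∧
      ∀ (Ω : Type) [Field Ω] [Algebra K Ω] (t u v w : Ω), Transcendental K t →
        aevalAeval t u φ = 0 → aeval v ψ = 0 →
        quad (algebraMap K Ω a) (algebraMap K Ω b) u v w = 0 → aevalAeval t w Θ = 0 := by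
  classical
  have hD' : ∀ (Ω : Type) [Field Ω] [Algebra K Ω],
      4 * algebraMap K Ω a ^ 3 + 27 * algebraMap K Ω b ^ 2 ≠ 0 := fun Ω _ _ h =>
    hD ((algebraMap K Ω).injective (by simpa [map_ofNat] using h))
  let Ω₀ := AlgebraicClosure (RatFunc K)
  have : CharZero Ω₀ := charZero_of_injective_algebraMap (algebraMap K Ω₀).injective
  let t₀ : Ω₀ := algebraMap (RatFunc K) Ω₀ RatFunc.X
  have ht₀ : Transcendental K t₀ :=
    (transcendental_algebraMap_iff (algebraMap (RatFunc K) Ω₀).injective).2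
      RatFunc.transcendental_X
  have halg : ∀ (Ω : Type) [Field Ω] [Algebra K Ω] (t u v w : Ω), Transcendental K t →
      aevalAeval t u φ = 0 → aeval v ψ = 0 →
      quad (algebraMap K Ω a) (algebraMap K Ω b) u v w = 0 →
      IsAlgebraic K⟮t⟯ u ∧ IsAlgebraic K⟮t⟯ v ∧ IsAlgebraic K⟮t⟯ w := by
    intro Ω _ _ t u v w ht h1 h2 h3
    have hu := alg_of_rel (mem_adjoin_simple_self K t) ht hφ h1
    have hv : IsAlgebraic K⟮t⟯ v := IsAlgebraic.tower_top _ ⟨ψ, hψ, h2⟩
    refine ⟨hu, hv, ?_⟩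
    let M := algebraicClosure K⟮t⟯ Ω
    have : CharZero M := charZero_of_injective_algebraMap (algebraMap K M).injective
    have : IsAlgebraic M w := ⟨_, quadP_ne_zero (hD' M) ⟨u, mem_algebraicClosure_iff.2 hu⟩
      ⟨v, mem_algebraicClosure_iff.2 hv⟩, by rw [aeval_quadP]; exact h3⟩
    exact this.restrictScalars _
  let S : Finset Ω₀ := ((sp t₀ φ).roots.toFinset ×ˢ (ψ.aroots Ω₀).toFinset).biUnion fun z =>
    (quadP (algebraMap K Ω₀ a) (algebraMap K Ω₀ b) z.1 z.2).roots.toFinset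
  have hS : ∀ u v w : Ω₀, (aevalAeval t₀ u φ = 0 ∧ aeval v ψ = 0 ∧
      quad (algebraMap K Ω₀ a) (algebraMap K Ω₀ b) u v w = 0) ↔
      ((u, v) ∈ (sp t₀ φ).roots.toFinset ×ˢ (ψ.aroots Ω₀).toFinset ∧
        w ∈ (quadP (algebraMap K Ω₀ a) (algebraMap K Ω₀ b) u v).roots.toFinset) := fun u v w => by
    have e1 := aeval_sp t₀ u φ
    have e2 := aeval_quadP (algebraMap K Ω₀ a) (algebraMap K Ω₀ b) u v w
    simp only [coe_aeval_eq_eval, Algebra.algebraMap_self, RingHom.id_apply] at e1 e2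
    simp only [Finset.mem_product, Multiset.mem_toFinset, mem_roots (sp_ne_zero ht₀ hφ),
      mem_roots (quadP_ne_zero (hD' Ω₀) u v), mem_aroots, IsRoot.def, e1, e2, hψ, ne_eq,
      not_false_eq_true, true_and, and_assoc]
  have hp : ∀ w ∈ S, ∃ p : K[X][Y], p ≠ 0 ∧ aevalAeval t₀ w p = 0 := fun w hw => by
    obtain ⟨z, h1, h2⟩ := Finset.mem_biUnion.1 hw
    obtain ⟨h3, h4, h5⟩ := (hS z.1 z.2 w).2 ⟨h1, h2⟩
    exact rel_of_alg (halg Ω₀ t₀ _ _ _ ht₀ h3 h4 h5).2.2
  choose! p hp using hp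
  refine ⟨∏ w ∈ S, p w, Finset.prod_ne_zero_iff.2 fun w hw => (hp w hw).1, ?_⟩
  intro Ω _ _ t u v w ht h1 h2 h3
  obtain ⟨hu, hv, hw⟩ := halg Ω t u v w ht h1 h2 h3
  obtain ⟨M, σ, hM, e, hm⟩ := exists_emb ht ht₀
  have k1 : aevalAeval (⟨t, hM⟩ : M) ⟨u, hm u hu⟩ φ = 0 :=
    M.val.injective ((aevalAeval_algHom M.val _ _ φ).symm.trans (h1.trans (map_zero _).symm))
  have k2 : aeval (⟨v, hm v hv⟩ : M) ψ = 0 :=
    M.val.injective ((aeval_algHom_apply M.val _ ψ).symm.trans (h2.trans (map_zero _).symm))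
  have k3 : quad (algebraMap K M a) (algebraMap K M b) ⟨u, hm u hu⟩ ⟨v, hm v hv⟩ ⟨w, hm w hw⟩ = 0 :=
    M.val.injective ((quad_map M.val a b _ _ _).symm.trans (h3.trans (map_zero _).symm))
  have k4 : σ ⟨w, hm w hw⟩ ∈ S := Finset.mem_biUnion.2 ⟨(σ ⟨u, hm u hu⟩, σ ⟨v, hm v hv⟩),
    (hS _ _ _).1 ⟨by rw [← e, aevalAeval_algHom, k1, map_zero],
      by rw [aeval_algHom_apply, k2, map_zero], by rw [quad_map, k3, map_zero]⟩⟩
  have k5 : aevalAeval (⟨t, hM⟩ : M) ⟨w, hm w hw⟩ (∏ w ∈ S, p w) = 0 := by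
    rw [← map_eq_zero σ, ← aevalAeval_algHom, e, map_prod]
    exact Finset.prod_eq_zero k4 (hp _ k4).2
  exact (aevalAeval_algHom M.val ⟨t, hM⟩ ⟨w, hm w hw⟩ _).trans (by rw [k5, map_zero])

end theta

end Pool.Agent.Lib.MP_651af7_nt.Iv
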