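import Pool.Agent.Lib.MP_651af7_nt.IvCase
import Pool.Agent.Lib.MP_651af7_nt.IvVal

/-! Linear independence of the functions `x(z₁)^i x(z₂)^j x(P₁)^a` on a product of two curves. -/

namespace Pool.Agent.Lib.MP_651af7_nt.Iv

open Polynomial IntermediateField Pool.Agent.Lib.MP_e97e2b_nt
open scoped Polynomial.Bivariate

lemma li_pow {R S : Type} [Field R] [CommRing S] [Algebra R S] {x : S} (hx : Transcendental R x) :
    LinearIndependent R fun i : ℕ => x ^ i := by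
  have := (Polynomial.basisMonomials R).linearIndependent.map' (aeval x : R[X] →ₐ[R] S).toLinearMap
    (LinearMap.ker_eq_bot.2 (transcendental_iff_injective.1 hx))
  have e : (fun i : ℕ => x ^ i) =
      (aeval x : R[X] →ₐ[R] S).toLinearMap ∘ Polynomial.basisMonomials R := by
    ext i; simp [aeval_monomial]
  rwa [e]

lemma li_of_deg {K k Ω : Type} [Field K] [Field k] [Field Ω] [Algebra K k] [Algebra K Ω]
    [Algebra k Ω] [IsScalarTower K k Ω] {F : IntermediateField k Ω} (hF : FF F) {t : k}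
    (ht : Transcendental K t) {x z : Ω} (hx : x ∈ F) (hz : z ∈ F) (tx : Transcendental k x)
    {c ν r : ℕ} (hr : 0 < r) (h1 : c * ν ≤ r) (h2 : r * dg F x ≤ c * dg F z) :
    LinearIndependent K fun p : ℕ × ℕ × Fin ν =>
      algebraMap k Ω t ^ p.1 * z ^ p.2.1 * x ^ (p.2.2 : ℕ) := by
  have h0 := Nat.pos_of_ne_zero (hF.ne_zero hx tx)
  have h3 : 0 < c * dg F z := (Nat.mul_pos hr h0).trans_le h2
  have tz : Transcendental k z := fun h => by simp [hF.eq_zero h] at h3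
  have h4 : dg F z ≤ (minpoly k⟮z⟯ x).natDegree * dg F x := by
    rw [dg, rel_tower (adjoin_simple_le_iff.2 hz) hx (hF.alg hz tz hx).1]
    exact Nat.mul_le_mul_left _ (rel_mono le_sup_right h0.ne')
  have h5 : ν ≤ (minpoly k⟮z⟯ x).natDegree := by
    have : c * ν * dg F x ≤ c * (minpoly k⟮z⟯ x).natDegree * dg F x :=
      (Nat.mul_le_mul_right _ h1).trans (h2.trans
        (by rw [mul_assoc]; exact Nat.mul_le_mul_left _ h4))
    exact Nat.le_of_mul_le_mul_left (Nat.le_of_mul_le_mul_right this h0)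
      (Nat.pos_of_mul_pos_right h3)
  have l3 := (linearIndependent_pow (K := k⟮z⟯) x).comp _ (Fin.castLE_injective h5)
  have l2 := li_pow (trans_mk (mem_adjoin_simple_self k z) tz)
  have := linearIndependent_smul (li_pow ht) (linearIndependent_smul l2 l3)
  convert this using 2 with p
  simp [Algebra.smul_def, mul_assoc]

lemma exists_closure {K Ω : Type} [Field K] [Field Ω] [Algebra K Ω] (A : IntermediateField K Ω) :
    ∃ M : IntermediateField K Ω, (∀ z, z ∈ M ↔ IsAlgebraic A z) ∧ ∀ z, IsAlgebraic M z → z ∈ M :=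
  ⟨(algebraicClosure A Ω).restrictScalars K, fun _ => mem_algebraicClosure_iff, fun z hz =>
    mem_algebraicClosure_iff.2
      ((show IsAlgebraic (algebraicClosure A Ω) z from hz).restrictScalars A)⟩

lemma on_closed {K Ω : Type} [Field K] [Field Ω] [Algebra K Ω] {M : IntermediateField K Ω}
    (hM : ∀ z, IsAlgebraic M z → z ∈ M) {a b : K} {P : Pt (algebraMap K Ω a) (algebraMap K Ω b)}
    (h : xc P ∈ M) : On M P :=
  ⟨h, hM _ (yc_alg (M.algebraMap_mem a) (M.algebraMap_mem b) h)⟩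

lemma const_alg {K Ω : Type} [Field K] [Field Ω] [Algebra K Ω] {M : IntermediateField K Ω}
    (hM : ∀ z, IsAlgebraic M z → z ∈ M) {x g : Ω} (hx : x ∉ M) (hg : g ∈ M)
    (h : IsAlgebraic K⟮x⟯ g) : IsAlgebraic K g := by
  by_contra ht
  exact hx (hM _ (alg_mono (adjoin_simple_le_iff.2 hg) (exchange ht h)))

lemma core {K : Type} [Field K] [NumberField K] {a b a' b' : K}
    (hD : 4 * a ^ 3 + 27 * b ^ 2 ≠ 0) (hD' : 4 * a' ^ 3 + 27 * b' ^ 2 ≠ 0) {B : ℕ}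
    {φ₁ : ℚ[X][Y]} (hi₁ : Irreducible φ₁) (b₁ : φ₁.natDegree ≤ B) {Θ : K[X][Y]}
    {Ω : Type} [Field Ω] [CharZero Ω] [IsAlgClosed Ω] [Algebra K Ω]
    (hΘ : ∀ t u v w : Ω, Transcendental K t → aevalAeval t u φ₁ = 0 →
      aeval v (Bivariate.swap φ₁).leadingCoeff = 0 →
      quad (algebraMap K Ω a') (algebraMap K Ω b') u v w = 0 → aevalAeval t w Θ = 0)
    {P₁ P₂ : Pt (algebraMap K Ω a) (algebraMap K Ω b)}
    {Q₁ Q₂ : Pt (algebraMap K Ω a') (algebraMap K Ω b')} {φ₂ : ℚ[X][Y]} {e ν : ℕ}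
    (hi₂ : Irreducible φ₂) (b₂ : φ₂.natDegree ≤ B) (hn : ¬HasTop φ₂)
    (h₁ : aevalAeval (xc P₁) (xc Q₁) φ₁ = 0) (h₂ : aevalAeval (xc P₂) (xc Q₂) φ₂ = 0)
    (hx : AlgebraicIndependent K ![xc P₁, xc P₂]) (hr : 132 * B * cmu φ₁ < 4 ^ e)
    (hν : 5000 * B ^ 2 * ν ≤ 4 ^ e) :
    aevalAeval (xc P₂) (xc Q₂) (up K φ₁ * Θ) = 0 ∨
      LinearIndependent K fun p : ℕ × ℕ × Fin ν =>
        xc (P₂ - 2 ^ e • P₁) ^ p.1 * xc (Q₂ - 2 ^ e • Q₁) ^ p.2.1 * xc P₁ ^ (p.2.2 : ℕ) := by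
  have m : ∀ (M : IntermediateField K Ω) (c : K), algebraMap K Ω c ∈ M := fun M c =>
    M.algebraMap_mem c
  have s : ∀ x : Ω, x ∈ K⟮x⟯ := mem_adjoin_simple_self K
  have T₁ : Transcendental K (xc P₁) := hx.transcendental 0
  have T₂ : Transcendental K (xc P₂) := hx.transcendental 1
  have n₁₂ : ¬IsAlgebraic K⟮xc P₁⟯ (xc P₂) := fun h => by
    obtain ⟨p, h0, hp⟩ := rel_of_alg h
    refine h0 ((map_eq_zero_iff _ (Bivariate.equivMvPolynomial K).injective).1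
      (algebraicIndependent_iff.1 hx _ ?_))
    rw [← hp]
    exact (aevalAeval_algHom (MvPolynomial.aeval ![xc P₁, xc P₂]) (.X 0) (.X 1) p).symm.trans
      (by simp)
  obtain ⟨M₁, d₁, c₁⟩ := exists_closure K⟮xc P₁⟯
  obtain ⟨M₂, d₂, c₂⟩ := exists_closure K⟮xc P₂⟯
  obtain ⟨k, d, c⟩ := exists_closure K⟮xc (P₂ - 2 ^ e • P₁)⟯
  have p₁ : On M₁ P₁ := on_closed c₁ ((d₁ _).2 (alg_of_mem (s _)))
  have q₁ : On M₁ Q₁ := on_closed c₁
    ((d₁ _).2 (alg_of_rel (s _) T₁ (up_ne_zero hi₁.ne_zero) (by rw [ev_up, h₁])))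
  have zk : xc (P₂ - 2 ^ e • P₁) ∈ k := (d _).2 (alg_of_mem (s _))
  have z₁ : xc (P₂ - 2 ^ e • P₁) ∉ M₁ := fun h => n₁₂ ((d₁ _).1 (by
    simpa using ((on_closed c₁ h).add (m _ _) (p₁.nsmul (m _ _) (2 ^ e))).1))
  have Tz : Transcendental K (xc (P₂ - 2 ^ e • P₁)) := fun h =>
    z₁ ((d₁ _).2 (h.tower_top _))
  have x₁ : xc P₁ ∉ k := fun h => z₁ ((d₁ _).2 (exchange T₁ ((d _).1 h)))
  have hk : ∀ g : Ω, IsAlgebraic k g → g ∈ (⊥ : IntermediateField k Ω) := fun g hg =>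
    IntermediateField.mem_bot.2 ⟨⟨g, c g hg⟩, rfl⟩
  have t₁ : Transcendental k (xc P₁) := fun h => x₁ (c _ h)
  have : CharZero k := charZero_of_injective_algebraMap (algebraMap K k).injective
  have kD : ∀ {u v : K}, 4 * u ^ 3 + 27 * v ^ 2 ≠ 0 →
      4 * algebraMap K k u ^ 3 + 27 * algebraMap K k v ^ 2 ≠ 0 := fun h h' =>
    h ((algebraMap K k).injective (by simpa [map_ofNat] using h'))
  have hz : IsAlgebraic k (xc (P₂ - 2 ^ e • P₁)) := alg_of_mem zk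
  have fin : (∃ F : IntermediateField k Ω, FF F ∧ On F P₁ ∧ On F (Q₂ - 2 ^ e • Q₁) ∧
      4 ^ e * dg F (xc P₁) ≤ 5000 * B ^ 2 * dg F (xc (Q₂ - 2 ^ e • Q₁))) →
      LinearIndependent K fun p : ℕ × ℕ × Fin ν =>
        xc (P₂ - 2 ^ e • P₁) ^ p.1 * xc (Q₂ - 2 ^ e • Q₁) ^ p.2.1 * xc P₁ ^ (p.2.2 : ℕ) := by
    rintro ⟨F, hF, o₁, o₂, h⟩
    exact li_of_deg hF (trans_mk zk Tz) o₁.1 o₂.1 t₁ (by positivity) hν h
  by_cases hμ : IsAlgebraic K (mu φ₁ P₁ Q₁)
  swap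
  · exact Or.inr (fin (caseN (a := algebraMap K k a) (b := algebraMap K k b)
      (a' := algebraMap K k a') (b' := algebraMap K k b') hk hz t₁ h₁ h₂ hi₁.ne_zero hi₂.ne_zero
      (kD hD) b₁ b₂ (kD hD') hi₁
      (fun h => hμ (const_alg c x₁ (c _ h) ((d₁ _).1 (mu_mem φ₁ p₁ q₁)))) hr))
  have t₂ : Transcendental k (xc P₂) :=
    trans_two (a := algebraMap K k a) (b := algebraMap K k b) hz t₁
  obtain ⟨τ, hτ, e₁⟩ := exists_swap (hx.extendScalars (algebraicClosure K Ω))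
  have fx : ∀ z, IsAlgebraic K z → τ z = z := fun z hz => hτ ⟨z, mem_algebraicClosure_iff.2 hz⟩
  have fK : ∀ u, τ (algebraMap K Ω u) = algebraMap K Ω u := fun u =>
    fx _ (isAlgebraic_algebraMap u)
  have e₂ : xc (fmap τ (fK a) (fK b) P₁) = xc P₂ := by rw [xc_fmap, e₁]
  have e₃ : aevalAeval (xc (fmap τ (fK a) (fK b) P₁)) (xc (fmap τ (fK a') (fK b') Q₁)) φ₁ = 0 := by
    rw [xc_fmap, xc_fmap]
    exact (aevalAeval_algHom τ.toRatAlgHom _ _ _).trans (by rw [h₁, map_zero])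
  have e₄ : ∀ D : Derivation k Ω Ω, lam D (fmap τ (fK a') (fK b') Q₁) =
      mu φ₁ P₁ Q₁ * lam D (fmap τ (fK a) (fK b) P₁) := fun D => by
    rw [← fx _ hμ, ← mu_fmap φ₁ τ (fK a) (fK b) (fK a') (fK b')]
    exact lam_slope (a := algebraMap K k a) (b := algebraMap K k b) D hi₁ (e₂ ▸ t₂) e₃
  obtain ⟨Q', h', hl⟩ : ∃ Q' : Pt (algebraMap K Ω a') (algebraMap K Ω b'),
      aevalAeval (xc P₂) (xc Q') φ₁ = 0 ∧
        ∀ D : Derivation k Ω Ω, lam D Q' = mu φ₁ P₁ Q₁ * lam D P₂ := by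
    have n₂ := ne_zero_of_trans T₂
    have n₁ := ne_zero_of_trans (e₂ ▸ T₂)
    have := pt_eq_or (e₂ ▸ ns_of_ne n₁) (ns_of_ne n₂)
    rw [← eq_pt n₂, show pt _ _ (e₂ ▸ ns_of_ne n₁) = fmap τ (fK a) (fK b) P₁ from
      (pt_inj.2 ⟨e₂.symm, rfl⟩).trans (eq_pt n₁).symm] at this
    rw [e₂] at e₃
    rcases this with h | h
    · exact ⟨_, e₃, fun D => by rw [e₄, h]⟩
    · exact ⟨-_, by rw [xc_neg, e₃], fun D => by rw [lam_neg, e₄, h, lam_neg]; ring⟩
  by_cases hc : IsAlgebraic k (xc (Q₂ - Q'))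
  swap
  · exact Or.inr (fin (caseE (a := algebraMap K k a) (b := algebraMap K k b)
      (a' := algebraMap K k a') (b' := algebraMap K k b') hk hz t₁ h₁ h₂ hi₁.ne_zero hi₂.ne_zero
      (kD hD) b₁ b₂ hi₁ h' hl hc))
  left
  rw [map_mul, ev_up]
  by_cases h0 : Q₂ - Q' = 0
  · rw [sub_eq_zero.1 h0, h', zero_mul]
  have q₂ : On M₂ Q₂ := on_closed c₂
    ((d₂ _).2 (alg_of_rel (s _) T₂ (up_ne_zero hi₂.ne_zero) (by rw [ev_up, h₂])))
  have q' : On M₂ Q' := on_closed c₂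
    ((d₂ _).2 (alg_of_rel (s _) T₂ (up_ne_zero hi₁.ne_zero) (by rw [ev_up, h'])))
  have ac : IsAlgebraic ℚ (xc (Q₂ - Q')) := (const_alg c (fun h => t₂ (alg_of_mem h)) (c _ hc)
    ((d₂ _).1 (q₂.sub (m _ _) q').1)).restrictScalars ℚ
  obtain ⟨w0, V, hV, v₁, v₂⟩ :=
    exists_place (T₂.restrictScalars (algebraMap ℚ K).injective) hi₂ hn h₂
  have n' : Q' ≠ 0 := fun h => by
    rw [h, sub_zero] at ac
    exact inv_ne_zero w0 (val_alg_eq_zero hV ac.inv v₂)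
  have hq := quad_add n' h0 (by rw [add_sub_cancel]; exact fun h => w0 (by simp [h]))
  rw [add_sub_cancel] at hq
  rw [hΘ _ _ _ _ T₂ h' (val_psi hV ((isAlgebraic_algebraMap a').restrictScalars ℚ)
    ((isAlgebraic_algebraMap b').restrictScalars ℚ) ac (fun h => T₂ (by rw [h]; exact isAlgebraic_zero)) w0
    v₁ v₂ hq h') hq, mul_zero]

lemma coeff_equiv {R : Type} [CommRing R] (p : R[X][Y]) (m : Fin 2 →₀ ℕ) :
    (Bivariate.equivMvPolynomial R p).coeff m = (p.coeff (m 1)).coeff (m 0) := by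
  induction p using Polynomial.induction_on' with
  | add p q hp hq => simp only [map_add, coeff_add, MvPolynomial.coeff_add, hp, hq]
  | monomial n a =>
    induction a using Polynomial.induction_on' with
    | add p q hp hq => simp only [map_add, coeff_add, MvPolynomial.coeff_add, hp, hq]
    | monomial i c =>
      have : Bivariate.equivMvPolynomial R (monomial n (monomial i c)) =
          MvPolynomial.monomial (Finsupp.single 0 i + Finsupp.single 1 n) c := by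
        simp [← C_mul_X_pow_eq_monomial, MvPolynomial.monomial_add_single,
          MvPolynomial.C_mul_X_pow_eq_monomial]
      have h : Finsupp.single 0 i + Finsupp.single 1 n = m ↔ n = m 1 ∧ i = m 0 := by
        simp [Finsupp.ext_iff, Fin.forall_fin_two, and_comm]
      rw [this, MvPolynomial.coeff_monomial, coeff_monomial]
      simp only [h]
      by_cases h1 : n = m 1 <;> simp [h1, coeff_monomial]

lemma aeval_equiv {R A : Type} [CommRing R] [CommRing A] [Algebra R A] (x y : A) (p : R[X][Y]) :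
    MvPolynomial.aeval ![x, y] (Bivariate.equivMvPolynomial R p) = aevalAeval x y p :=
  (aevalAeval_algHom (MvPolynomial.aeval ![x, y]) (.X 0) (.X 1) p).symm.trans (by simp)

lemma natDegree_le_degreeOf {R : Type} [CommRing R] (p : R[X][Y]) :
    p.natDegree ≤ (Bivariate.equivMvPolynomial R p).degreeOf 1 := by
  refine natDegree_le_iff_coeff_eq_zero.2 fun j hj => Polynomial.ext fun i => ?_
  by_contra h
  have := MvPolynomial.monomial_le_degreeOf 1 (f := Bivariate.equivMvPolynomial R p)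
    (m := Finsupp.single 0 i + Finsupp.single 1 j)
    (by rw [MvPolynomial.mem_support_iff, coeff_equiv]; simpa using h)
  simp at this
  omega

lemma not_hasTop {p : ℚ[X][Y]} (h0 : p ≠ 0) (h : NoTop (Bivariate.equivMvPolynomial ℚ p)) :
    ¬HasTop p := fun ht => by
  obtain ⟨m, h1, h2⟩ := h
    (Finsupp.single 0 p.leadingCoeff.natDegree + Finsupp.single 1 p.natDegree)
    (by rw [MvPolynomial.mem_support_iff, coeff_equiv]; simpa using h0)
  rw [MvPolynomial.mem_support_iff, coeff_equiv] at h1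
  refine h2 (Finsupp.le_def.2 (Fin.forall_fin_two.2 ⟨?_, ?_⟩))
  · simpa using (le_natDegree_of_ne_zero h1).trans ((natDegree_coeff_le p _).trans ht)
  · simpa using le_natDegree_of_ne_zero fun e => h1 (by rw [e, coeff_zero])

theorem indepV {K : Type} [Field K] [NumberField K] (a b a' b' : K)
    (hD : 4 * a ^ 3 + 27 * b ^ 2 ≠ 0) (hD' : 4 * a' ^ 3 + 27 * b' ^ 2 ≠ 0) (B : ℕ)
    (φ₁ : MvPolynomial (Fin 2) ℚ) (hi₁ : Irreducible φ₁)
    (hB₁ : ∀ i, 1 ≤ φ₁.degreeOf i ∧ φ₁.degreeOf i ≤ B) :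
    ∃ (r₀ : ℕ) (Θ : MvPolynomial (Fin 2) K), Θ ≠ 0 ∧
      ∀ (L : Type) [Field L] [CharZero L] [Algebra K L]
        (P₁ P₂ : Pt (algebraMap K L a) (algebraMap K L b))
        (Q₁ Q₂ : Pt (algebraMap K L a') (algebraMap K L b'))
        (φ₂ : MvPolynomial (Fin 2) ℚ) (e ν : ℕ), Irreducible φ₂ → φ₂.degreeOf 1 ≤ B → NoTop φ₂ →
        MvPolynomial.aeval ![xc P₁, xc Q₁] φ₁ = 0 → MvPolynomial.aeval ![xc P₂, xc Q₂] φ₂ = 0 →
        AlgebraicIndependent K ![xc P₁, xc P₂] → r₀ ≤ 2 ^ e → 5000 * B ^ 2 * ν ≤ 4 ^ e →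
        MvPolynomial.aeval ![xc P₂, xc Q₂] Θ = 0 ∨
          LinearIndependent K fun p : ℕ × ℕ × Fin ν =>
            xc (P₂ - 2 ^ e • P₁) ^ p.1 * xc (Q₂ - 2 ^ e • Q₁) ^ p.2.1 * xc P₁ ^ (p.2.2 : ℕ) := by
  obtain ⟨φ₁, rfl⟩ := (Bivariate.equivMvPolynomial ℚ).surjective φ₁
  rw [MulEquiv.irreducible_iff] at hi₁
  obtain ⟨Θ, h0, hΘ⟩ := exists_theta hD' (up_ne_zero (k := K) hi₁.ne_zero)
    (ψ := (Bivariate.swap φ₁).leadingCoeff.map (algebraMap ℚ K))
    (by simpa using hi₁.ne_zero)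
  refine ⟨132 * B * cmu φ₁ + 1, Bivariate.equivMvPolynomial K (up K φ₁ * Θ),
    by simpa using ⟨up_ne_zero hi₁.ne_zero, h0⟩, ?_⟩
  intro L _ _ _ P₁ P₂ Q₁ Q₂ φ₂ e ν hi₂ b₂ hn h₁ h₂ hx hr hν
  obtain ⟨φ₂, rfl⟩ := (Bivariate.equivMvPolynomial ℚ).surjective φ₂
  rw [MulEquiv.irreducible_iff] at hi₂
  rw [aeval_equiv] at h₁ h₂ ⊢
  let Ω := AlgebraicClosure L
  let f := IsScalarTower.toAlgHom K L Ω
  have hf : ∀ u, f.toRingHom (algebraMap K L u) = algebraMap K Ω u := f.commutes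
  have ex : ∀ P, xc (fmap f.toRingHom (hf a) (hf b) P) = f (xc P) := xc_fmap _ _ _
  have ex' : ∀ P, xc (fmap f.toRingHom (hf a') (hf b') P) = f (xc P) := xc_fmap _ _ _
  have := core hD hD' hi₁ ((natDegree_le_degreeOf φ₁).trans (hB₁ 1).2) (Θ := Θ) (Ω := Ω)
    (fun t u v w ht k1 k2 k3 => hΘ Ω t u v w ht (by rw [ev_up, k1])
      (by rw [aeval_map_algebraMap, k2]) k3)
    (P₁ := fmap f.toRingHom (hf a) (hf b) P₁) (P₂ := fmap f.toRingHom (hf a) (hf b) P₂)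
    (Q₁ := fmap f.toRingHom (hf a') (hf b') Q₁) (Q₂ := fmap f.toRingHom (hf a') (hf b') Q₂)
    (e := e) (ν := ν) hi₂ ((natDegree_le_degreeOf φ₂).trans b₂) (not_hasTop hi₂.ne_zero hn)
    (by rw [ex, ex']
        exact (aevalAeval_algHom f.toRingHom.toRatAlgHom _ _ _).trans (by rw [h₁, map_zero]))
    (by rw [ex, ex']
        exact (aevalAeval_algHom f.toRingHom.toRatAlgHom _ _ _).trans (by rw [h₂, map_zero]))
    (by rw [ex, ex, show ![f (xc P₁), f (xc P₂)] = f ∘ ![xc P₁, xc P₂] from by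
          ext i; fin_cases i <;> rfl]
        exact hx.map' f.injective)
    (lt_of_lt_of_le hr (Nat.pow_le_pow_left (by norm_num) e)) hν
  simp only [← map_nsmul, ← map_sub, ex, ex', aevalAeval_algHom, map_eq_zero] at this
  refine this.imp id fun h => LinearIndependent.of_comp f.toLinearMap ?_
  convert h using 2 with p
  simp

end Pool.Agent.Lib.MP_651af7_nt.Iv
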