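import Pool.Agent.Lib.MP_651af7_nt.IvDefs
import Pool.Agent.Lib.MP_651af7_nt.IvDeg

/-! Degrees of the first coordinates of points over a function field. -/

namespace Pool.Agent.Lib.MP_651af7_nt.Iv

open Polynomial IntermediateField Pool.Agent.Lib.MP_e97e2b_nt
open scoped Polynomial.Bivariate

variable {k Ω : Type} [Field k] [Field Ω] [Algebra k Ω] {A B : Ω}

lemma ns_of_ne {P : Pt A B} (h : P ≠ 0) : NS A B (xc P) (yc P) := by
  rcases P.cases with rfl | ⟨x, y, h', rfl⟩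
  · exact absurd rfl h
  · exact h'

lemma eq_pt {P : Pt A B} (h : P ≠ 0) : P = pt (xc P) (yc P) (ns_of_ne h) := by
  rcases P.cases with rfl | ⟨x, y, h, rfl⟩
  · exact absurd rfl h
  · rfl

@[simp] lemma xc_neg (P : Pt A B) : xc (-P) = xc P := by
  rcases P.cases with rfl | ⟨x, y, h, rfl⟩
  · simp
  · rw [neg_pt]; rfl

@[simp] lemma yc_neg (P : Pt A B) : yc (-P) = -yc P := by
  rcases P.cases with rfl | ⟨x, y, h, rfl⟩
  · simp
  · rw [neg_pt]; rfl

lemma add_spec {P Q : Pt A B} (hP : P ≠ 0) (hQ : Q ≠ 0) (h : P + Q ≠ 0) : ∃ l : Ω,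
    l * (xc P - xc Q) = yc P - yc Q ∧
    l * (yc P + yc Q) = xc P ^ 2 + xc P * xc Q + xc Q ^ 2 + A ∧
    (xc P ≠ xc Q ∨ yc P + yc Q ≠ 0) ∧ xc (P + Q) = l ^ 2 - xc P - xc Q ∧
    yc (P + Q) = -(l * (xc (P + Q) - xc P) + yc P) := by
  rcases P.cases with rfl | ⟨x₁, y₁, h₁, rfl⟩
  · exact absurd rfl hP
  rcases Q.cases with rfl | ⟨x₂, y₂, h₂, rfl⟩
  · exact absurd rfl hQ
  have hne : ¬(x₁ = x₂ ∧ y₁ = -y₂) := fun e => h (add_neg_case h₁ h₂ e.1 e.2)
  obtain ⟨l, e₁, e₂⟩ := exists_lam h₁ h₂ hne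
  obtain ⟨h₃, e⟩ := add_char h₁ h₂ hne e₁ e₂
  refine ⟨l, e₁, e₂, ?_, by rw [e]; rfl, by rw [e]; rfl⟩
  by_contra hc
  push Not at hc
  exact hne ⟨hc.1, eq_neg_of_add_eq_zero_left hc.2⟩

lemma ne_zero_of_trans {P : Pt A B} (h : Transcendental k (xc P)) : P ≠ 0 := by
  rintro rfl
  exact h isAlgebraic_zero

lemma xc_fmap {Ω' : Type} [Field Ω'] {A' B' : Ω'} (f : Ω →+* Ω') (hA : f A = A') (hB : f B = B')
    (P : Pt A B) : xc (fmap f hA hB P) = f (xc P) := by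
  rcases P.cases with rfl | ⟨x, y, h, rfl⟩
  · simp
  · rw [fmap_pt]; rfl

lemma yc_fmap {Ω' : Type} [Field Ω'] {A' B' : Ω'} (f : Ω →+* Ω') (hA : f A = A') (hB : f B = B')
    (P : Pt A B) : yc (fmap f hA hB P) = f (yc P) := by
  rcases P.cases with rfl | ⟨x, y, h, rfl⟩
  · simp
  · rw [fmap_pt]; rfl

lemma fmap_fix (f : Ω →+* Ω) (hA : f A = A) (hB : f B = B) {P : Pt A B} (hx : f (xc P) = xc P)
    (hy : f (yc P) = yc P) : fmap f hA hB P = P := by
  rcases P.cases with rfl | ⟨x, y, h, rfl⟩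
  · simp
  · rw [fmap_pt, pt_inj]; exact ⟨hx, hy⟩

/-- The point is defined over `M`. -/
def On (M : IntermediateField k Ω) (P : Pt A B) : Prop := xc P ∈ M ∧ yc P ∈ M

variable {M F : IntermediateField k Ω} {P Q : Pt A B}

lemma On.mono (h : On M P) (hM : M ≤ F) : On F P := ⟨hM h.1, hM h.2⟩

lemma On.zero : On M (0 : Pt A B) := ⟨zero_mem _, zero_mem _⟩

lemma On.neg (h : On M P) : On M (-P) := ⟨by simpa using h.1, by simpa using h.2⟩

lemma lam_mem (hA : A ∈ M) (hP : On M P) (hQ : On M Q) {l : Ω}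
    (e₁ : l * (xc P - xc Q) = yc P - yc Q)
    (e₂ : l * (yc P + yc Q) = xc P ^ 2 + xc P * xc Q + xc Q ^ 2 + A)
    (h : xc P ≠ xc Q ∨ yc P + yc Q ≠ 0) : l ∈ M := by
  rcases h with h | h
  · rw [eq_div_of_mul_eq (sub_ne_zero.2 h) e₁]
    exact div_mem (sub_mem hP.2 hQ.2) (sub_mem hP.1 hQ.1)
  · rw [eq_div_of_mul_eq h e₂]
    exact div_mem (add_mem (add_mem (add_mem (pow_mem hP.1 2) (mul_mem hP.1 hQ.1))
      (pow_mem hQ.1 2)) hA) (add_mem hP.2 hQ.2)

lemma On.add (hA : A ∈ M) (hP : On M P) (hQ : On M Q) : On M (P + Q) := by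
  by_cases h1 : P = 0
  · simpa [h1] using hQ
  by_cases h2 : Q = 0
  · simpa [h2] using hP
  by_cases h3 : P + Q = 0
  · rw [h3]; exact On.zero
  obtain ⟨l, e₁, e₂, h, ex, ey⟩ := add_spec h1 h2 h3
  have hl := lam_mem hA hP hQ e₁ e₂ h
  have hx : xc (P + Q) ∈ M := ex ▸ sub_mem (sub_mem (pow_mem hl 2) hP.1) hQ.1
  exact ⟨hx, ey ▸ neg_mem (add_mem (mul_mem hl (sub_mem hx hP.1)) hP.2)⟩

lemma On.sub (hA : A ∈ M) (hP : On M P) (hQ : On M Q) : On M (P - Q) := by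
  rw [sub_eq_add_neg]; exact hP.add hA hQ.neg

lemma On.nsmul (hA : A ∈ M) (hP : On M P) (n : ℕ) : On M (n • P) := by
  induction n with
  | zero => rw [zero_nsmul]; exact On.zero
  | succ n ih => rw [succ_nsmul]; exact ih.add hA hP

lemma yc_sq_mem (hA : A ∈ M) (hB : B ∈ M) (h : xc P ∈ M) : yc P ^ 2 ∈ M := by
  by_cases h0 : P = 0
  · simp [h0]
  rw [(ns_of_ne h0).1]
  exact add_mem (add_mem (pow_mem h 3) (mul_mem hA h)) hB

lemma yc_alg (hA : A ∈ M) (hB : B ∈ M) (h : xc P ∈ M) : IsAlgebraic M (yc P) :=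
  IsAlgebraic.of_pow two_pos (isAlgebraic_algebraMap (⟨_, yc_sq_mem hA hB h⟩ : M))

/-- Adjoining the coordinates of a point. -/
noncomputable def adj (M : IntermediateField k Ω) (P : Pt A B) : IntermediateField k Ω :=
  M ⊔ k⟮xc P⟯ ⊔ k⟮yc P⟯

lemma le_adj : M ≤ adj M P := le_sup_left.trans le_sup_left

lemma on_adj : On (adj M P) P :=
  ⟨(le_sup_right.trans le_sup_left : k⟮xc P⟯ ≤ adj M P) (mem_adjoin_simple_self k _),
    (le_sup_right : k⟮yc P⟯ ≤ adj M P) (mem_adjoin_simple_self k _)⟩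

lemma adj_le (hM : M ≤ F) (hP : On F P) : adj M P ≤ F :=
  sup_le_of_mem (sup_le_of_mem hM hP.1) hP.2

lemma rel_adj_y (hA : A ∈ M) (hB : B ∈ M) (hM : M ≤ F) (hP : On F P) :
    relfinrank (M ⊔ k⟮xc P⟯) F ≤ 2 * relfinrank (adj M P) F :=
  rel_le_sq (sup_le_of_mem hM hP.1) hP.2 (yc_sq_mem (le_sup_left (a := M) hA)
    (le_sup_left (a := M) hB) (le_sup_right (a := M) (mem_adjoin_simple_self k _)))

lemma rel_adj_one (hA : A ∈ M) (hB : B ∈ M) (hM : M ≤ F) (hP : On F P) (hx : xc P ∈ M) :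
    relfinrank M F ≤ 2 * relfinrank (adj M P) F := by
  have := rel_adj_y hA hB hM hP
  rwa [sup_eq_left.2 (adjoin_simple_le_iff.2 hx)] at this

lemma rel_adj (hA : A ∈ M) (hB : B ∈ M) (hM : M ≤ F) (hP : On F P) {x : Ω} (hx : x ∈ M)
    (ht : Transcendental k x) {p : k[X][Y]} (hp : p ≠ 0) {n : ℕ} (hn : p.natDegree ≤ n)
    (h : aevalAeval x (xc P) p = 0) : relfinrank M F ≤ 2 * n * relfinrank (adj M P) F := by
  refine (rel_le_rel hM hP.1 hx ht hp hn h).trans ?_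
  rw [mul_comm 2, mul_assoc]
  exact Nat.mul_le_mul_left _ (rel_adj_y hA hB hM hP)

lemma alg_mono {g : Ω} (h : M ≤ F) (hg : IsAlgebraic M g) : IsAlgebraic F g := by
  let _ := (inclusion h).toRingHom.toAlgebra
  have : IsScalarTower M F Ω := .of_algebraMap_eq fun _ => rfl
  exact hg.tower_top F

lemma alg_of_mem {g : Ω} (h : g ∈ M) : IsAlgebraic M g := isAlgebraic_algebraMap (⟨g, h⟩ : M)

/-- Adjoining an algebraic point keeps the degree finite. -/
lemma rel_adj_ne (hA : A ∈ M) (hB : B ∈ M) {N : IntermediateField k Ω} (hN : N ≤ M)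
    (h0 : relfinrank N M ≠ 0) (h1 : IsAlgebraic M (xc P)) : relfinrank N (adj M P) ≠ 0 := by
  have h2 : IsAlgebraic (M ⊔ k⟮xc P⟯ : IntermediateField k Ω) (yc P) :=
    yc_alg (le_sup_left (a := M) hA) (le_sup_left (a := M) hB)
      (le_sup_right (a := M) (mem_adjoin_simple_self k _))
  rw [adj, ← relfinrank_mul_relfinrank (hN.trans le_sup_left) le_sup_left,
    ← relfinrank_mul_relfinrank hN le_sup_left, relfinrank_sup h1, relfinrank_sup h2]
  exact mul_ne_zero (mul_ne_zero h0 (minpoly.natDegree_pos h1.isIntegral).ne')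
    (minpoly.natDegree_pos h2.isIntegral).ne'

section deg

variable [CharZero k] {a b : k} {P Q : Pt (algebraMap k Ω a) (algebraMap k Ω b)} (hF : FF F)
include hF

omit [CharZero k] in
lemma FF.dy (hP : On F P) : dg F (yc P) ≤ 3 * dg F (xc P) := by
  by_cases h0 : P = 0
  · simp [h0, hF.eq_zero isAlgebraic_zero]
  refine (hF.sqrt hP.2).trans ?_
  have := hF.poly hP.1 (X ^ 3 + C a * X + C b)
  simp only [map_add, map_mul, map_pow, aeval_X, aeval_C] at this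
  rw [(ns_of_ne h0).1]
  exact this.trans (Nat.mul_le_mul_right _ (by compute_degree))

lemma FF.dadd (hP : On F P) (hQ : On F Q) :
    dg F (xc (P + Q)) ≤ 33 * (dg F (xc P) + dg F (xc Q)) := by
  by_cases h1 : P = 0
  · rw [h1, zero_add]; omega
  by_cases h2 : Q = 0
  · rw [h2, add_zero]; omega
  by_cases h3 : P + Q = 0
  · simp [h3, hF.eq_zero isAlgebraic_zero]
  obtain ⟨l, e₁, e₂, h, ex, -⟩ := add_spec h1 h2 h3
  have hl := lam_mem (F.algebraMap_mem a) hP hQ e₁ e₂ h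
  have y1 := hF.dy hP
  have y2 := hF.dy hQ
  have dl : dg F l ≤ 16 * (dg F (xc P) + dg F (xc Q)) := by
    by_cases hx : xc P = xc Q
    · have h := h.resolve_left (not_not.2 hx)
      have t1 := hF.poly hP.1 (C 3 * X ^ 2 + C a)
      have t2 := hF.mul (aeval_mem hP.1 (C 3 * X ^ 2 + C a)) (inv_mem (add_mem hP.2 hQ.2))
      have t3 := hF.add hP.2 hQ.2
      have t4 : (C 3 * X ^ 2 + C a : k[X]).natDegree ≤ 2 := by compute_degree
      have t5 := Nat.mul_le_mul_right (dg F (xc P)) t4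
      have t6 : aeval (xc P) (C 3 * X ^ 2 + C a : k[X]) * (yc P + yc Q)⁻¹ = l := by
        rw [eq_div_of_mul_eq h e₂, ← hx, div_eq_mul_inv]
        simp only [map_add, map_mul, map_pow, aeval_X, aeval_C, map_ofNat]
        ring
      rw [dg_inv, t6] at t2
      rw [← hx] at y2 ⊢
      omega
    · have t2 := hF.mul (sub_mem hP.2 hQ.2) (inv_mem (sub_mem hP.1 hQ.1))
      have t3 := hF.sub hP.2 hQ.2
      have t4 := hF.sub hP.1 hQ.1
      rw [dg_inv, ← div_eq_mul_inv, ← eq_div_of_mul_eq (sub_ne_zero.2 hx) e₁] at t2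
      omega
  have s1 := hF.pow hl 2
  have s2 := hF.sub (pow_mem hl 2) hP.1
  have s3 := hF.sub (sub_mem (pow_mem hl 2) hP.1) hQ.1
  rw [ex]
  omega

lemma FF.dsub (hP : On F P) (hQ : On F Q) :
    dg F (xc (P - Q)) ≤ 33 * (dg F (xc P) + dg F (xc Q)) := by
  simpa [sub_eq_add_neg] using hF.dadd hP hQ.neg

omit hF [CharZero k] in
lemma yc_ne_zero (ht : Transcendental k (xc P)) : yc P ≠ 0 := fun h => by
  have := (ns_of_ne (ne_zero_of_trans ht)).1
  refine ht ⟨X ^ 3 + C a * X + C b, (by monicity! : Monic (X ^ 3 + C a * X + C b)).ne_zero, ?_⟩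
  simp only [map_add, map_mul, map_pow, aeval_X, aeval_C]
  rw [← this, h]; ring

lemma FF.dtwo (hD : 4 * a ^ 3 + 27 * b ^ 2 ≠ 0) (hP : On F P) :
    4 * dg F (xc P) ≤ dg F (xc (P + P)) := by
  have : CharZero Ω := charZero_of_injective_algebraMap (algebraMap k Ω).injective
  by_cases ha : IsAlgebraic k (xc P)
  · simp [hF.eq_zero ha]
  have h0 := ne_zero_of_trans ha
  have hy := yc_ne_zero ha
  have hy2 : yc P + yc P ≠ 0 := fun h => hy (by linear_combination (1 / 2 : Ω) * h)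
  have h3 : P + P ≠ 0 := fun h => hy2 (by
    have := congrArg yc (eq_neg_of_add_eq_zero_left h)
    rw [yc_neg] at this
    linear_combination this)
  obtain ⟨l, -, e₂, -, ex, -⟩ := add_spec h0 h0 h3
  have e0 := (ns_of_ne h0).1
  let u : k[X] := X ^ 4 - C (2 * a) * X ^ 2 - C (8 * b) * X + C (a ^ 2)
  let v : k[X] := C 4 * (X ^ 3 + C a * X + C b)
  have hv : aeval (xc P) v = (yc P + yc P) ^ 2 := by
    simp only [v, map_add, map_mul, map_pow, aeval_X, aeval_C, map_ofNat]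
    linear_combination -4 * e0
  have hu : aeval (xc P) u = xc (P + P) * aeval (xc P) v := by
    rw [hv, ex]
    simp only [u, map_add, map_sub, map_mul, map_pow, aeval_X, aeval_C, map_ofNat]
    linear_combination 8 * xc P * e0 -
      (l * (yc P + yc P) + 3 * xc P ^ 2 + algebraMap k Ω a) * e₂
  have hv0 : v ≠ 0 := fun h => hy2 (by
    rw [h, map_zero] at hv
    exact pow_eq_zero_iff two_ne_zero |>.1 hv.symm)
  have hc : IsCoprime (-v) u := by
    refine ⟨C (4 * a ^ 3 + 27 * b ^ 2)⁻¹ * C 4⁻¹ * (C 3 * X ^ 3 - C (5 * a) * X - C (27 * b)),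
      C (4 * a ^ 3 + 27 * b ^ 2)⁻¹ * (C 3 * X ^ 2 + C (4 * a)), ?_⟩
    have i1 : (C (4 * a ^ 3 + 27 * b ^ 2)⁻¹ * C (4 * a ^ 3 + 27 * b ^ 2) : k[X]) = 1 := by
      rw [← C_mul, inv_mul_cancel₀ hD, C_1]
    have i2 : (C 4⁻¹ * C 4 : k[X]) = 1 := by
      rw [← C_mul, inv_mul_cancel₀ (by norm_num : (4 : k) ≠ 0), C_1]
    simp only [u, v, map_add, map_mul, map_pow, map_ofNat] at i1 i2 ⊢
    linear_combination i1 - C (4 * a ^ 3 + 27 * b ^ 2)⁻¹ *
      (3 * X ^ 3 - 5 * C a * X - 27 * C b) * (X ^ 3 + C a * X + C b) * i2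
  have hi := (MulEquiv.irreducible_iff Bivariate.swap).2
    (irreducible_C_mul_X_add_C (neg_ne_zero.2 hv0) hc.isRelPrime)
  have hr : aevalAeval (xc (P + P)) (xc P) (Bivariate.swap (C (-v) * Y + C u)) = 0 := by
    rw [Bivariate.aevalAeval_swap, map_add, map_mul, aevalAeval_C, aevalAeval_C, aevalAeval_Y, hu,
      map_neg]
    ring
  have hm : xc (P + P) ∈ k⟮xc P⟯ := by
    rw [eq_div_of_mul_eq (hv ▸ pow_ne_zero 2 hy2) hu.symm]
    exact div_mem (aeval_mem (mem_adjoin_simple_self k _) _)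
      (aeval_mem (mem_adjoin_simple_self k _) _)
  have h4 : 4 ≤ (Bivariate.swap (C (-v) * Y + C u)).natDegree := by
    refine le_natDegree_of_ne_zero fun h => ?_
    have := coeff_swap (C (-v) * Y + C u) 4 0
    rw [h] at this
    simp [u, coeff_X, coeff_C, coeff_X_pow, -map_pow, -map_mul] at this
  have ht : Transcendental k (xc (P + P)) := fun h => by
    obtain ⟨c, hc⟩ := IntermediateField.mem_bot.1 (hF.closed _ h)
    refine ha ⟨u - C c * v, fun h => ?_, by rw [map_sub, map_mul, aeval_C, hc, hu, sub_self]⟩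
    have := congrArg (coeff · 4) h
    simp [u, v, coeff_X_pow, -map_pow, -map_mul] at this
  rw [hF.eq_irr (adjoin_simple_le_iff.2 hP.1 hm) hP.1 ht hi hr,
    sup_eq_right.2 (adjoin_simple_le_iff.2 hm)]
  exact Nat.mul_le_mul_right _ h4

lemma FF.dpow (hD : 4 * a ^ 3 + 27 * b ^ 2 ≠ 0) (hP : On F P) (e : ℕ) :
    4 ^ e * dg F (xc P) ≤ dg F (xc (2 ^ e • P)) := by
  induction e with
  | zero => simp
  | succ e ih =>
    have := hF.dtwo hD (hP.nsmul (F.algebraMap_mem a) (2 ^ e))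
    rw [← add_nsmul, ← mul_two, ← pow_succ] at this
    rw [pow_succ]
    nlinarith

end deg

end Pool.Agent.Lib.MP_651af7_nt.Iv
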