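import Pool.Agent.Lib.MP_651af7_nt.Blocks

namespace Pool.Agent.Lib.MP_651af7_nt

open Module Polynomial NumberField IntermediateField

lemma ev_bound {E : Type*} [NormedField E] [Algebra ℚ E] [IsAlgClosed E] {I : Type*} [Fintype I]
    [DecidableEq (Option E)]
    (F : ℚ[X]) (n : ℕ) (hF : F.natDegree = n) (hI : Fintype.card I = n) (z : I → E)
    (hz : F.aroots E = Finset.univ.val.map z) (u S : ℝ) (pt : I → Option E) (k : I → ℕ)
    (h : ∀ i, ‖lin (pt i) (z i)‖ ≤ sz (pt i) * Real.exp (-(u * k i)) * max 1 ‖z i‖)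
    (P : Option E) (hS : sz P ≤ S) :
    ‖ev n P F‖ ≤ S ^ n * (‖algebraMap ℚ E F.leadingCoeff‖ * ∏ i, max 1 ‖z i‖) *
      Real.exp (-(u * ((∑ i with pt i = P, k i : ℕ) : ℝ))) := by
  rw [norm_ev_eq F n hF z hz P]
  have h1 : ∀ i, ‖lin P (z i)‖ ≤
      S * max 1 ‖z i‖ * Real.exp (-(u * ((if pt i = P then k i else 0 : ℕ) : ℝ))) := by
    intro i
    split_ifs with hi
    · have := h i
      rw [hi] at this
      refine this.trans ?_
      rw [mul_right_comm]
      gcongr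
    · simp only [Nat.cast_zero, mul_zero, neg_zero, Real.exp_zero, mul_one]
      exact (norm_lin_le P _).trans (by gcongr)
  have h2 := Finset.prod_le_prod (s := Finset.univ) (fun _ _ => norm_nonneg _) fun i _ => h1 i
  rw [Finset.prod_mul_distrib, Finset.prod_mul_distrib, Finset.prod_const, Finset.card_univ, hI,
    ← Real.exp_sum, Finset.sum_neg_distrib, ← Finset.mul_sum, ← Nat.cast_sum,
    ← Finset.sum_filter] at h2
  calc _ ≤ ‖algebraMap ℚ E F.leadingCoeff‖ * _ := mul_le_mul_of_nonneg_left h2 (norm_nonneg _)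
    _ = _ := by ring

section

variable {V : Type} [Fintype V] (E : V → Type) [∀ v, NormedField (E v)]
  [∀ v, Algebra ℚ (E v)] [∀ v, IsAlgClosed (E v)] [DecidableEq V] (v0 : V)

lemma lat_block (hult : ∀ v, v ≠ v0 → IsUltrametricDist (E v))
    (hprod : ∀ z : ℤ, z ≠ 0 → 1 ≤ ∏ v, ‖algebraMap ℚ (E v) z‖)
    (habs : ∀ r : ℚ, ‖algebraMap ℚ (E v0) r‖ = |(r : ℝ)|)
    (Hm : Qbar → ℝ) (hht : ∀ x, ∃ ν : ℚ, ν ≠ 0 ∧ IntP (C ν * minpoly ℚ x) ∧
      ‖algebraMap ℚ (E v0) ν‖ *
        (((minpoly ℚ x).aroots (E v0)).map fun z => max 1 ‖z‖).prod = Hm x)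
    (g : ℚ[X]) (hg : Squarefree g) (q : ℕ) (hq : q ≤ g.natDegree + 1) (n : ℕ) (hn : 0 < n)
    (a θ ε C : ℝ) (hε : 0 < ε) (hθ : 0 ≤ θ)
    (hj : ∀ j < n, ((n - j : ℕ) : ℝ) * (n + j + 1 - a) ≤ n * θ) :
    ∃ (c L0 : ℝ), ∀ L, L0 ≤ L → ∀ A : Finset Qbar,
      (∀ x ∈ A, deg x = n ∧ aeval x g ≠ 0 ∧ Hm x ≤ Real.exp L ∧
        (a + ε) * L + C ≤ tot E g q x) → (A.card : ℝ) ≤ c * Real.exp (θ * L) := by
  classical
  choose Pts h0 h1 h2 h3 using fun v => exists_pts (E v) g (2 * n)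
  obtain ⟨K0, L0, hcl⟩ := classes E g hg q hq Pts h0 h1 n a ε C hε
  let S : V → ℝ := fun v => ∑ P ∈ Pts v, sz P
  have hS : ∀ v, ∀ P ∈ Pts v, sz P ≤ S v := fun v P hP =>
    Finset.single_le_sum (f := fun P => sz P) (fun P _ => zero_le_one.trans (one_le_sz P)) hP
  have hS1 : ∀ v, 1 ≤ S v := fun v => (one_le_sz _).trans (hS v _ (h0 v))
  set S1 : ℝ := ∏ v, S v ^ n with hS1def
  have hS11 : 1 ≤ S1 := Finset.one_le_prod fun v _ => one_le_pow₀ (hS1 v)
  let supp : (∀ v, Pts v → Fin (n * K0 + 1)) → ∀ v, Finset (Option (E v)) := fun κ v =>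
    (Finset.univ.filter fun P => (κ v P : ℕ) ≠ 0).map (Function.Embedding.subtype _)
  have hlat : ∀ κ : ∀ v, Pts v → Fin (n * K0 + 1), ∃ c : ℝ, 0 < c ∧
      ((∀ v, (supp κ v).card ≤ n) →
      ∀ (B : V → ℝ) (τ : ∀ v, Option (E v) → ℝ), (∀ v, 0 < B v) →
      (∀ v P, 0 < τ v P) → (∀ v P, τ v P ≤ 1) → ∀ A : Finset ℚ[X],
      (∀ F ∈ A, IntP F ∧ F ∈ degreeLT ℚ (n + 1) ∧ F.coeff n ≠ 0 ∧
        ∀ v, ∀ P ∈ Pts v, ‖ev n P F‖ ≤ B v * τ v P) →
      (∃ F1 ∈ A, ∃ F2 ∈ A, IsCoprime F1 F2) →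
      ∃ j < n, (A.card : ℝ) ^ n ≤
        c * ((∏ v, B v) ^ (n + j + 1) * ∏ v, ∏ P ∈ supp κ v, τ v P) ^ (n - j)) := by
    intro κ
    by_cases hs : ∀ v, (supp κ v).card ≤ n
    · obtain ⟨c, hc0, hc⟩ := lattice_count E v0 hult hprod (by rw [habs]; norm_num) n hn Pts
        (supp κ) h3 (fun F hF hd hev => eq_zero_of_small_values habs n F hF hd
          fun i hi => hev _ (h2 v0 i (by omega))) (fun v P hP => by
            obtain ⟨P', -, rfl⟩ := Finset.mem_map.mp hP
            exact P'.2) hs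
      exact ⟨c, hc0, fun _ => hc⟩
    · exact ⟨1, one_pos, fun h => absurd h hs⟩
  choose c hc0 hc using hlat
  refine ⟨∑ κ, n * (1 + c κ * S1 ^ (2 * n * n)), max L0 0, fun L hL A hA => ?_⟩
  have hL0 : 0 ≤ L := (le_max_right _ _).trans hL
  obtain ⟨u, hu, cl, hcl1, hcl2⟩ := hcl L ((le_max_left _ _).trans hL)
  let B : V → ℝ := fun v => S v ^ n * (if v = v0 then Real.exp L else 1)
  have hB : ∀ v, 0 < B v := fun v => by
    have := hS1 v
    refine mul_pos (by positivity) ?_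
    split_ifs <;> positivity
  have hx : ∀ x ∈ A, ∃ (ν : ℚ) (κ : ∀ v, Pts v → Fin (n * K0 + 1)), ν ≠ 0 ∧
      IntP (Polynomial.C ν * minpoly ℚ x) ∧ (∀ v, (supp κ v).card ≤ n) ∧
      (∀ v (P : Pts v), ‖ev n P.1 (Polynomial.C ν * minpoly ℚ x)‖ ≤
        B v * Real.exp (-(u * (κ v P : ℕ)))) ∧
      a * L ≤ u * ((∑ v, ∑ P, (κ v P : ℕ) : ℕ) : ℝ) := by
    intro x hxA
    obtain ⟨d1, d2, d3, d4⟩ := hA x hxA
    obtain ⟨ν, a1, a2, a3⟩ := hht x
    have hK : finrank ℚ (adjoin ℚ {x}) = n := d1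
    have := numberField_of_finrank (adjoin ℚ {x}) (by omega)
    let y : adjoin ℚ {x} := ⟨x, mem_adjoin_simple_self ℚ x⟩
    have m1 : minpoly ℚ x = minpoly ℚ y := (minpoly_coe y).symm
    have hy : (minpoly ℚ y).natDegree = finrank ℚ (adjoin ℚ {x}) := by
      rw [← m1, ← deg_eq]; rfl
    have hcard : ∀ v, Fintype.card (adjoin ℚ {x} →ₐ[ℚ] E v) = n := fun v => by
      rw [AlgHom.card, hK]
    have hg0 : ∀ v (τ : adjoin ℚ {x} →ₐ[ℚ] E v), aeval (τ y) g ≠ 0 := fun v τ =>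
      aeval_emb_ne_zero y g d2 τ
    rw [m1] at a2 a3 ⊢
    rw [aroots_eq_embeddings _ _ hy, Multiset.map_map, Finset.prod_map_val] at a3
    refine ⟨ν, fun v P => ⟨∑ τ : adjoin ℚ {x} →ₐ[ℚ] E v with (cl v (τ y)).1 = P,
      ((cl v (τ y)).2 : ℕ), ?_⟩, a1, a2, fun v => ?_, fun v P => ?_, ?_⟩
    · refine Nat.lt_succ_of_le ((Finset.sum_le_card_nsmul _ _ K0 fun τ _ =>
        Nat.le_of_lt_succ (cl v (τ y)).2.2).trans ?_)
      rw [smul_eq_mul]
      exact Nat.mul_le_mul_right _ ((Finset.card_le_univ _).trans_eq (hcard v))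
    · simp only [supp, Finset.card_map]
      refine le_trans (Finset.card_le_card (t := Finset.univ.image
        fun τ : adjoin ℚ {x} →ₐ[ℚ] E v => (cl v (τ y)).1) fun P hP => ?_)
        (Finset.card_image_le.trans_eq (hcard v))
      obtain ⟨τ, hτ, -⟩ := Finset.exists_ne_zero_of_sum_ne_zero (Finset.mem_filter.mp hP).2
      exact Finset.mem_image.mpr ⟨τ, Finset.mem_univ _, (Finset.mem_filter.mp hτ).2⟩
    · have e1 := ev_bound (Polynomial.C ν * minpoly ℚ y) n (by rw [natDegree_C_mul a1, hy, hK])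
        (hcard v) (fun τ : adjoin ℚ {x} →ₐ[ℚ] E v => τ y)
        (by rw [aroots_C_mul _ a1, aroots_eq_embeddings _ y hy]) u (S v)
        (fun τ => (cl v (τ y)).1.1) (fun τ => (cl v (τ y)).2) (fun τ => hcl1 v _ (hg0 v τ))
        P.1 (hS v _ P.2)
      rw [leadingCoeff_mul, leadingCoeff_C,
        (minpoly.monic (IsIntegral.of_finite ℚ y)).leadingCoeff, mul_one] at e1
      simp only [Subtype.val_inj] at e1
      refine e1.trans (mul_le_mul_of_nonneg_right ?_ (Real.exp_pos _).le)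
      refine mul_le_mul_of_nonneg_left ?_ (by have := hS1 v; positivity)
      split_ifs with hv
      · subst hv; exact a3.trans_le d3
      · have := hult v hv
        exact gauss' _ _ hy ν a1 a2
    · have k2 := hcl2 (fun v => adjoin ℚ {x} →ₐ[ℚ] E v) (fun v τ => τ y) hcard hg0 (by
        rw [← tot_eq E g q y hy]; exact d4)
      refine k2.trans_eq ?_
      simp only [Finset.sum_fiberwise]
  have : Nonempty (∀ v, Pts v → Fin (n * K0 + 1)) := ⟨fun _ _ => 0⟩
  choose! ν κ hν1 hν2 hν3 hν4 hν5 using hx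
  have hE1 : 1 ≤ Real.exp (θ * L) := Real.one_le_exp (by positivity)
  rw [Finset.card_eq_sum_card_fiberwise (f := κ) (t := Finset.univ) fun _ _ => Finset.mem_univ _,
    Nat.cast_sum, Finset.sum_mul]
  refine Finset.sum_le_sum fun κ0 _ => ?_
  set A0 := A.filter fun x => κ x = κ0 with hA0
  have hmem : ∀ x ∈ A0, x ∈ A ∧ κ x = κ0 := fun x hx => Finset.mem_filter.mp hx
  have hc1 : 0 < c κ0 * S1 ^ (2 * n * n) := mul_pos (hc0 _) (by positivity)
  have hdeg : ∀ x ∈ A, (minpoly ℚ x).natDegree = n := fun x hx => by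
    rw [← deg_eq]; exact (hA x hx).1
  by_cases hex : ∃ x ∈ A0, ∃ x' ∈ A0, minpoly ℚ x ≠ minpoly ℚ x'
  · obtain ⟨x1, hx1, x2, hx2, hne⟩ := hex
    let F : Qbar → ℚ[X] := fun x => Polynomial.C (ν x) * minpoly ℚ x
    have hFdeg : ∀ x ∈ A, (F x).natDegree = n := fun x hx => by
      rw [natDegree_C_mul (hν1 x hx), hdeg x hx]
    have hF0 : ∀ x ∈ A, F x ≠ 0 := fun x hx =>
      mul_ne_zero (C_ne_zero.mpr (hν1 x hx)) (minpoly.ne_zero (isIntegral_qbar x))
    let τ : ∀ v, Option (E v) → ℝ := fun v P =>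
      if h : P ∈ Pts v then Real.exp (-(u * (κ0 v ⟨P, h⟩ : ℕ))) else 1
    obtain ⟨j, hjn, hcount⟩ := hc κ0 ((hmem x1 hx1).2 ▸ hν3 x1 (hmem x1 hx1).1) B τ hB
      (fun v P => by
        simp only [τ]
        split_ifs <;> positivity)
      (fun v P => by
        simp only [τ]
        split_ifs
        · exact Real.exp_le_one_iff.mpr (neg_nonpos.mpr (by positivity))
        · exact le_rfl) (A0.image F)
      (by
        intro G hG
        obtain ⟨x, hx, rfl⟩ := Finset.mem_image.mp hG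
        have hxA := (hmem x hx).1
        refine ⟨hν2 x hxA, ?_, ?_, fun v P hP => ?_⟩
        · rw [mem_degreeLT, degree_eq_natDegree (hF0 x hxA), hFdeg x hxA]
          exact_mod_cast Nat.lt_succ_self n
        · rw [← hFdeg x hxA]
          exact leadingCoeff_ne_zero.mpr (hF0 x hxA)
        · have := hν4 x hxA v ⟨P, hP⟩
          rw [(hmem x hx).2] at this
          simpa only [τ, dif_pos hP] using this)
      ⟨F x1, Finset.mem_image_of_mem _ hx1, F x2, Finset.mem_image_of_mem _ hx2, by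
        have i1 := minpoly.irreducible (isIntegral_qbar x1)
        have i2 := minpoly.irreducible (isIntegral_qbar x2)
        simp only [F]
        rw [isCoprime_mul_unit_left_left (isUnit_C.mpr (hν1 x1 (hmem x1 hx1).1).isUnit),
          isCoprime_mul_unit_left_right (isUnit_C.mpr (hν1 x2 (hmem x2 hx2).1).isUnit),
          i1.coprime_iff_not_dvd]
        intro hd
        exact hne (eq_of_monic_of_associated (minpoly.monic (isIntegral_qbar x1))
          (minpoly.monic (isIntegral_qbar x2)) (i1.associated_of_dvd i2 hd))⟩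
    have e1 : ∏ v, B v = S1 * Real.exp L := by
      simp only [B]
      rw [Finset.prod_mul_distrib, Finset.prod_ite_eq', if_pos (Finset.mem_univ _)]
    have e2 : ∏ v, ∏ P ∈ supp κ0 v, τ v P ≤ Real.exp (-(a * L)) := by
      have : ∀ v, ∏ P ∈ supp κ0 v, τ v P = Real.exp (-(u * ((∑ P, (κ0 v P : ℕ) : ℕ) : ℝ))) := by
        intro v
        simp only [supp, Finset.prod_map, Function.Embedding.coe_subtype, τ, Finset.coe_mem,
          dif_pos, Subtype.coe_eta]
        rw [← Real.exp_sum, Finset.sum_neg_distrib, ← Finset.mul_sum, ← Nat.cast_sum,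
          Finset.sum_filter_ne_zero]
      simp only [this]
      rw [← Real.exp_sum, Finset.sum_neg_distrib, ← Finset.mul_sum, ← Nat.cast_sum,
        Real.exp_le_exp, neg_le_neg_iff, ← (hmem x1 hx1).2]
      exact hν5 x1 (hmem x1 hx1).1
    have e3 : ((∏ v, B v) ^ (n + j + 1) * ∏ v, ∏ P ∈ supp κ0 v, τ v P) ^ (n - j) ≤
        S1 ^ (2 * n * n) * Real.exp (θ * L) ^ n := by
      have t0 : 0 ≤ ∏ v, ∏ P ∈ supp κ0 v, τ v P :=
        Finset.prod_nonneg fun v _ => Finset.prod_nonneg fun P _ => by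
          simp only [τ]
          split_ifs <;> positivity
      rw [e1]
      calc _ ≤ ((S1 * Real.exp L) ^ (n + j + 1) * Real.exp (-(a * L))) ^ (n - j) := by gcongr
        _ = S1 ^ ((n + j + 1) * (n - j)) *
            Real.exp (((n - j : ℕ) : ℝ) * (n + j + 1 - a) * L) := by
          rw [mul_pow S1, mul_assoc, mul_pow, ← pow_mul, ← Real.exp_nat_mul, ← Real.exp_add,
            ← Real.exp_nat_mul]
          congr 2
          push_cast
          ring
        _ ≤ _ := by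
          rw [← Real.exp_nat_mul]
          refine mul_le_mul (pow_le_pow_right₀ hS11 (Nat.mul_le_mul (by omega) (by omega)))
            (Real.exp_le_exp.mpr ?_) (by positivity) (by positivity)
          rw [← mul_assoc]
          exact mul_le_mul_of_nonneg_right (hj j hjn) hL0
    have e4 : ((A0.image F).card : ℝ) ≤ (1 + c κ0 * S1 ^ (2 * n * n)) * Real.exp (θ * L) := by
      refine le_of_pow_le_pow_left₀ hn.ne' (by positivity) (hcount.trans ?_)
      rw [mul_pow (1 + _)]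
      calc _ ≤ c κ0 * (S1 ^ (2 * n * n) * Real.exp (θ * L) ^ n) :=
            mul_le_mul_of_nonneg_left e3 (hc0 _).le
        _ = (c κ0 * S1 ^ (2 * n * n)) * Real.exp (θ * L) ^ n := by ring
        _ ≤ _ := by
          gcongr
          exact le_trans (by linarith) (le_self_pow₀ (by linarith) hn.ne')
    have e5 : A0.card ≤ n * (A0.image F).card := by
      refine Finset.card_le_mul_card_image A0 _ fun G hG => ?_
      obtain ⟨x, hx, rfl⟩ := Finset.mem_image.mp hG
      rw [← hFdeg x (hmem x hx).1]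
      refine card_le_of_roots _ _ (hF0 x (hmem x hx).1) fun x' hx' => ?_
      rw [← (Finset.mem_filter.mp hx').2]
      simp [F]
    calc (A0.card : ℝ) ≤ n * ((A0.image F).card : ℝ) := by exact_mod_cast e5
      _ ≤ n * _ := mul_le_mul_of_nonneg_left e4 (by positivity)
      _ = _ := by ring
  · push Not at hex
    have e5 : A0.card ≤ n := by
      rcases A0.eq_empty_or_nonempty with h | ⟨x, hx⟩
      · simp [h]
      · rw [← hdeg x (hmem x hx).1]
        refine card_le_of_roots _ _ (minpoly.ne_zero (isIntegral_qbar x)) fun x' hx' => ?_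
        rw [hex x hx x' hx']; exact minpoly.aeval _ _
    calc (A0.card : ℝ) ≤ n * 1 * 1 := by exact_mod_cast (by simpa using e5)
      _ ≤ _ := by gcongr; linarith

end

end Pool.Agent.Lib.MP_651af7_nt
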