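import Pool.Agent.Lib.MP_651af7_nt.Count
import Pool.Agent.Lib.MP_651af7_nt.Growth
import Pool.Agent.Lib.MP_651af7_nt.Det

namespace Pool.Agent.Lib.MP_651af7_nt

open Module Polynomial

/-- Integer coefficients. -/
def IntP (F : ℚ[X]) : Prop := ∀ i, ∃ z : ℤ, F.coeff i = z

lemma IntP.X_pow_mul {F : ℚ[X]} (h : IntP F) (a : ℕ) : IntP (X ^ a * F) := by
  intro i
  rw [coeff_X_pow_mul']
  split_ifs
  · exact h _
  · exact ⟨0, by simp⟩

lemma exists_int_det (N : ℕ) (g : Fin N → ℚ[X]) (hg : ∀ i, IntP (g i))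
    (hd : ∀ i, g i ∈ degreeLT ℚ N) (hli : LinearIndependent ℚ g) :
    ∃ z : ℤ, z ≠ 0 ∧ (Matrix.of fun (j i : Fin N) => (g i).coeff j).det = z := by
  classical
  choose Z hZ using hg
  have e : (Matrix.of fun (j i : Fin N) => (g i).coeff j) =
      (Int.castRingHom ℚ).mapMatrix (Matrix.of fun (j i : Fin N) => Z i j) := by
    ext j i; simp [hZ]
  refine ⟨(Matrix.of fun (j i : Fin N) => Z i j).det, ?_, by rw [e, ← RingHom.map_det]; rfl⟩
  intro h0
  have h1 : (Matrix.of fun (j i : Fin N) => (g i).coeff j).det = 0 := by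
    rw [e, ← RingHom.map_det, h0, map_zero]
  obtain ⟨v, hv0, hv⟩ := Matrix.exists_mulVec_eq_zero_iff.mpr h1
  apply hv0
  have h2 : ∑ i, v i • g i = 0 := by
    have hmem : ∑ i, v i • g i ∈ degreeLT ℚ N :=
      Submodule.sum_mem _ fun i _ => Submodule.smul_mem _ _ (hd i)
    ext k
    by_cases hk : k < N
    · have := congrFun hv ⟨k, hk⟩
      simp only [Matrix.mulVec, dotProduct, Matrix.of_apply, Pi.zero_apply] at this
      rw [finsetSum_coeff, coeff_zero, ← this]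
      exact Finset.sum_congr rfl fun i _ => by simp [mul_comm]
    · rw [coeff_zero]
      exact coeff_eq_zero_of_degree_lt ((mem_degreeLT.mp hmem).trans_le (by exact_mod_cast not_lt.mp hk))
  funext i
  exact Fintype.linearIndependent_iff.mp hli v h2 i

section

variable {V : Type} [Fintype V] [DecidableEq V] (E : V → Type) [∀ v, NormedField (E v)]
  [∀ v, Algebra ℚ (E v)] (v0 : V)

lemma det_global (hprod : ∀ z : ℤ, z ≠ 0 → 1 ≤ ∏ v, ‖algebraMap ℚ (E v) z‖) (M e : ℕ)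
    (Pts supp : ∀ v, Finset (Option (E v))) (hP : ∀ v, M + 1 ≤ (Pts v).card)
    (hs : ∀ v, supp v ⊆ Pts v) (hs' : ∀ v, (supp v).card ≤ M + 1) :
    ∃ c : ℝ, 0 < c ∧ ∀ (B : V → ℝ) (τ : ∀ v, Option (E v) → ℝ), (∀ v, 0 < B v) →
      (∀ v P, 0 < τ v P) → (∀ v P, τ v P ≤ 1) →
      ∀ (g : Fin (M + 1) → ℚ[X]) (w : Fin (M + 1) → ℝ), (∀ i, IntP (g i)) →
      (∀ i, g i ∈ degreeLT ℚ (M + 1)) → LinearIndependent ℚ g → (∀ i, 0 < w i) →
      (∀ i v, ∀ P ∈ Pts v,
        ‖ev M P (g i)‖ ≤ sz P ^ e * (B v * τ v P) * (if v = v0 then w i else 1)) →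
      1 ≤ c * ((∏ v, B v) ^ (M + 1) * ∏ v, ∏ P ∈ supp v, τ v P) * ∏ i, w i := by
  classical
  have hQ : ∀ v, ∃ Q : Fin (M + 1) → Option (E v), Function.Injective Q ∧
      (∀ l, Q l ∈ Pts v) ∧ supp v ⊆ Finset.univ.image Q := by
    intro v
    obtain ⟨u, h1, h2, h3⟩ := Finset.exists_subsuperset_card_eq (hs v) (hs' v) (hP v)
    refine ⟨fun l => ((u.equivFinOfCardEq h3).symm l : Option (E v)), ?_, ?_, ?_⟩
    · exact Subtype.val_injective.comp (u.equivFinOfCardEq h3).symm.injective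
    · intro l; exact h2 ((u.equivFinOfCardEq h3).symm l).2
    · intro P hP'
      exact Finset.mem_image.mpr ⟨u.equivFinOfCardEq h3 ⟨P, h1 hP'⟩, Finset.mem_univ _, by simp⟩
  choose Q hQ1 hQ2 hQ3 using hQ
  choose c hc0 hc using fun v => det_bound M (Q v) (hQ1 v)
  have hszpos : ∀ v, 0 < ∏ l, sz (Q v l) ^ e := fun v =>
    Finset.prod_pos fun l _ => pow_pos (lt_of_lt_of_le one_pos (one_le_sz _)) _
  refine ⟨∏ v, (c v * ∏ l, sz (Q v l) ^ e),
    Finset.prod_pos fun v _ => mul_pos (hc0 v) (hszpos v), ?_⟩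
  intro B τ hB hτ hτ1 g w hg hd hli hw hev
  obtain ⟨z, hz0, hz⟩ := exists_int_det (M + 1) g hg hd hli
  refine (hprod z hz0).trans ?_
  have key : ∀ v, ‖algebraMap ℚ (E v) z‖ ≤ (c v * ∏ l, sz (Q v l) ^ e) *
      (B v ^ (M + 1) * ∏ P ∈ supp v, τ v P) * (if v = v0 then ∏ i, w i else 1) := by
    intro v
    have h1 := hc v g (fun l => sz (Q v l) ^ e * (B v * τ v (Q v l)))
      (fun i => if v = v0 then w i else 1) hd (fun l i => hev i v _ (hQ2 v l))
    rw [hz] at h1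
    refine h1.trans ?_
    have h2 : (∏ i, if v = v0 then w i else 1) = (if v = v0 then ∏ i, w i else 1) := by
      split_ifs <;> simp
    have h3 : ∏ l, τ v (Q v l) ≤ ∏ P ∈ supp v, τ v P := by
      rw [← Finset.prod_image (s := Finset.univ) (g := Q v) (f := τ v)
        (fun a _ b _ h => hQ1 v h)]
      exact Finset.prod_le_prod_of_subset_of_le_one (hQ3 v) (fun P _ => (hτ v P).le)
        fun P _ _ => hτ1 v P
    have h4 : 0 < (if v = v0 then ∏ i, w i else 1) := by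
      split_ifs
      · exact Finset.prod_pos fun i _ => hw i
      · exact one_pos
    rw [h2, Finset.prod_mul_distrib, Finset.prod_mul_distrib, Finset.prod_const, Finset.card_univ,
      Fintype.card_fin]
    have := hc0 v
    have := hszpos v
    have := hB v
    calc _ = (c v * ∏ l, sz (Q v l) ^ e) * (B v ^ (M + 1) * ∏ l, τ v (Q v l)) *
          (if v = v0 then ∏ i, w i else 1) := by ring
      _ ≤ _ := by gcongr
  refine (Finset.prod_le_prod (fun _ _ => norm_nonneg _) fun v _ => key v).trans_eq ?_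
  rw [Finset.prod_mul_distrib, Finset.prod_mul_distrib (f := fun v => c v * _),
    Finset.prod_mul_distrib (f := fun v => B v ^ _), Finset.prod_pow, Finset.prod_ite_eq']
  simp

lemma arith_rd (n j r d : ℕ) (hj : j < n) (hr : r ≤ n + 1 - j) (h1 : r ≠ 0 → r + j ≤ d)
    (h2 : r = n + 1 - j → n + j + 1 ≤ d) : n * r ≤ (n - j) * d := by
  obtain ⟨a, rfl⟩ : ∃ a, n = j + 1 + a := ⟨n - (j + 1), by omega⟩
  have e1 : j + 1 + a - j = a + 1 := by omega
  have e2 : j + 1 + a + 1 - j = a + 2 := by omega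
  rw [e1]
  rw [e2] at hr h2
  by_cases h0 : r = 0
  · simp [h0]
  by_cases h3 : r = a + 2
  · have := h2 h3
    subst h3
    nlinarith
  · have h4 := h1 h0
    have h5 : r ≤ a + 1 := by omega
    nlinarith

theorem lattice_count (hult : ∀ v, v ≠ v0 → IsUltrametricDist (E v))
    (hprod : ∀ z : ℤ, z ≠ 0 → 1 ≤ ∏ v, ‖algebraMap ℚ (E v) z‖)
    (htwo : ‖algebraMap ℚ (E v0) 2‖ = 2) (n : ℕ) (hn : 1 ≤ n)
    (Pts supp : ∀ v, Finset (Option (E v))) (hP : ∀ v, 2 * n ≤ (Pts v).card)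
    (hint : ∀ F, IntP F → F ∈ degreeLT ℚ (n + 1) → (∀ P ∈ Pts v0, ‖ev n P F‖ < 1) → F = 0)
    (hs : ∀ v, supp v ⊆ Pts v) (hs' : ∀ v, (supp v).card ≤ n) :
    ∃ c : ℝ, 0 < c ∧ ∀ (B : V → ℝ) (τ : ∀ v, Option (E v) → ℝ), (∀ v, 0 < B v) →
      (∀ v P, 0 < τ v P) → (∀ v P, τ v P ≤ 1) → ∀ A : Finset ℚ[X],
      (∀ F ∈ A, IntP F ∧ F ∈ degreeLT ℚ (n + 1) ∧ F.coeff n ≠ 0 ∧
        ∀ v, ∀ P ∈ Pts v, ‖ev n P F‖ ≤ B v * τ v P) →
      (∃ F1 ∈ A, ∃ F2 ∈ A, IsCoprime F1 F2) →
      ∃ j < n, (A.card : ℝ) ^ n ≤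
        c * ((∏ v, B v) ^ (n + j + 1) * ∏ v, ∏ P ∈ supp v, τ v P) ^ (n - j) := by
  classical
  have hdet := fun j : Fin n => det_global E v0 hprod (n + j) j Pts supp
    (fun v => by have := hP v; have := j.2; omega) hs (fun v => by have := hs' v; omega)
  choose c hc0 hc using hdet
  have : Nonempty (Fin n) := ⟨⟨0, hn⟩⟩
  refine ⟨∑ j : Fin n, (2 : ℝ) ^ (n * (n + 1)) * (c j * 2 ^ (n + j + 1)) ^ (n - j),
    Finset.sum_pos (fun j _ => by have := hc0 j; positivity) Finset.univ_nonempty, ?_⟩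
  intro B τ hB hτ hτ1 A hA ⟨F1, hF1, F2, hF2, hcop⟩
  -- the lattice
  let Λ : Submodule ℤ ℚ[X] :=
    { carrier := {F | IntP F ∧ F ∈ degreeLT ℚ (n + 1) ∧
        ∀ v, v ≠ v0 → ∀ P ∈ Pts v, ‖ev n P F‖ ≤ B v * τ v P}
      add_mem' := by
        rintro a b ⟨h1, h2, h3⟩ ⟨k1, k2, k3⟩
        refine ⟨fun i => ?_, Submodule.add_mem _ h2 k2, fun v hv P hP' => ?_⟩
        · obtain ⟨x, hx⟩ := h1 i
          obtain ⟨y, hy⟩ := k1 i
          exact ⟨x + y, by simp [hx, hy]⟩
        · have := hult v hv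
          rw [map_add]
          exact (IsUltrametricDist.norm_add_le_max _ _).trans (max_le (h3 v hv P hP') (k3 v hv P hP'))
      zero_mem' := ⟨fun i => ⟨0, by simp⟩, Submodule.zero_mem _, fun v _ P _ => by
        rw [map_zero, norm_zero]; exact (mul_pos (hB v) (hτ v P)).le⟩
      smul_mem' := by
        rintro z a ⟨h1, h2, h3⟩
        refine ⟨fun i => ?_, Submodule.smul_of_tower_mem _ z h2, fun v hv P hP' => ?_⟩
        · obtain ⟨x, hx⟩ := h1 i
          exact ⟨z * x, by simp [hx]⟩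
        · have := hult v hv
          rw [map_zsmul]
          exact (IsUltrametricDist.norm_zsmul_le _ _).trans (h3 v hv P hP') }
  have hΛ : Λ.FG := by
    have h1 : (Submodule.span ℤ (Set.range fun i : Fin (n + 1) => (X : ℚ[X]) ^ (i : ℕ))).FG :=
      Submodule.fg_span (Set.finite_range _)
    refine (isNoetherian_submodule.mp (isNoetherian_of_fg_of_noetherian _ h1)) Λ ?_
    rintro F ⟨h1, h2, -⟩
    have h3 : F = ∑ j : Fin (n + 1), F.coeff j • X ^ (j : ℕ) := by
      have := (sum_fin (fun i (a : ℚ) => a • (X : ℚ[X]) ^ i) (fun _ => by simp)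
        (mem_degreeLT.mp h2))
      rw [this]
      simp only [smul_X_eq_monomial]
      exact (sum_monomial_eq F).symm
    rw [h3]
    refine Submodule.sum_mem _ fun j _ => ?_
    obtain ⟨z, hz⟩ := h1 j
    rw [hz, Int.cast_smul_eq_zsmul]
    exact Submodule.smul_mem _ _ (Submodule.subset_span ⟨j, rfl⟩)
  let K : ℕ → Set ℚ[X] := fun s =>
    {F | ∀ P ∈ Pts v0, 2 ^ s * ‖ev n P F‖ ≤ 2 * (B v0 * τ v0 P)}
  have hK : ∀ s x, (2 : ℚ) • x ∈ K s → x ∈ K (s + 1) := by
    intro s x hx P hP'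
    have := hx P hP'
    rw [map_smul, Algebra.smul_def, norm_mul, htwo] at this
    rw [pow_succ, mul_assoc]; exact this
  have hKanti : ∀ s, K (s + 1) ⊆ K s := by
    intro s x hx P hP'
    refine le_trans ?_ (hx P hP')
    gcongr
    · norm_num
    · omega
  obtain ⟨m, hm⟩ := pow_unbounded_of_one_lt (2 * B v0) (one_lt_two (α := ℝ))
  have h0 : ∀ x ∈ Λ, x ∈ K (m + 1) → x = 0 := by
    intro x hx hxK
    refine hint x hx.1 hx.2.1 fun P hP' => ?_
    have h1 := hKanti m hxK P hP'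
    have h2 : 2 * (B v0 * τ v0 P) ≤ 2 * B v0 := by
      have := hτ1 v0 P; have := hB v0; nlinarith
    have h3 : (0 : ℝ) < 2 ^ m := by positivity
    by_contra hh
    have : (2 : ℝ) ^ m * 1 ≤ 2 ^ m * ‖ev n P x‖ := by gcongr; exact not_lt.mp hh
    linarith
  have hAΛ : ∀ F ∈ A, F ∈ Λ := fun F hF =>
    ⟨(hA F hF).1, (hA F hF).2.1, fun v _ => (hA F hF).2.2.2 v⟩
  have hcount := dyadic_count Λ hΛ (m + 1) K hK h0 A (by
    intro a ha b hb
    refine ⟨Λ.sub_mem (hAΛ a ha) (hAΛ b hb), fun P hP' => ?_⟩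
    rw [pow_zero, one_mul, map_sub]
    have h1 := (hA a ha).2.2.2 v0 P hP'
    have h2 := (hA b hb).2.2.2 v0 P hP'
    exact (norm_sub_le _ _).trans (by linarith))
  let As : ℕ → Set ℚ[X] := fun s => (Λ : Set ℚ[X]) ∩ K s
  have hAs : ∀ s, As (s + 1) ⊆ As s := fun s => Set.inter_subset_inter_right _ (hKanti s)
  have hAsanti : Antitone As := antitone_nat_of_succ_le hAs
  have hAsdeg : ∀ s, As s ⊆ degreeLT ℚ (n + 1) := fun s F hF => hF.1.2.1
  have hA0 : ∀ F ∈ A, F ∈ As 0 := by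
    intro F hF
    refine ⟨hAΛ F hF, fun P hP' => ?_⟩
    have h1 := (hA F hF).2.2.2 v0 P hP'
    have := mul_pos (hB v0) (hτ v0 P)
    rw [pow_zero, one_mul]; linarith
  have hspan : ∀ s, Submodule.span ℚ (As s) ≤ degreeLT ℚ (n + 1) := fun s =>
    Submodule.span_le.mpr (hAsdeg s)
  have hfin : ∀ s, FiniteDimensional ℚ (Submodule.span ℚ (As s)) := fun s =>
    Submodule.finiteDimensional_of_le (hspan s)
  set k := finrank ℚ (Submodule.span ℚ (As 0)) with hk
  have hk1 : k ≤ n + 1 := (Submodule.finrank_mono (hspan 0)).trans_eq (finrank_degreeLT _)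
  have hk2 : 2 ≤ k := by
    by_contra hh
    have := hfin 0
    obtain ⟨u, hu⟩ := finrank_le_one_iff.mp (show finrank ℚ (Submodule.span ℚ (As 0)) ≤ 1 by omega)
    obtain ⟨c1, h1⟩ := hu ⟨F1, Submodule.subset_span (hA0 F1 hF1)⟩
    obtain ⟨c2, h2⟩ := hu ⟨F2, Submodule.subset_span (hA0 F2 hF2)⟩
    have e1 : F1 = C c1 * u := by rw [← smul_eq_C_mul]; exact (congrArg Subtype.val h1).symm
    have e2 : F2 = C c2 * u := by rw [← smul_eq_C_mul]; exact (congrArg Subtype.val h2).symm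
    have hu' : IsUnit (u : ℚ[X]) :=
      hcop.isUnit_of_dvd' (e1 ▸ Dvd.intro_left _ rfl) (e2 ▸ Dvd.intro_left _ rfl)
    apply (hA F1 hF1).2.2.1
    rw [e1, coeff_C_mul, coeff_eq_zero_of_natDegree_lt, mul_zero]
    rw [natDegree_eq_zero_of_isUnit hu']; exact hn
  set j := n + 1 - k with hj
  have hjn : j < n := by omega
  refine ⟨j, hjn, ?_⟩
  have hsh : ∀ s, Submodule.span ℚ (shifts j (As s)) ≤ degreeLT ℚ (n + j + 1) := fun s =>
    span_shifts_le j n _ (hAsdeg s)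
  have hfin' : ∀ s, FiniteDimensional ℚ (Submodule.span ℚ (shifts j (As s))) := fun s =>
    Submodule.finiteDimensional_of_le (hsh s)
  have hfull : n + j + 1 ≤ finrank ℚ (Submodule.span ℚ (shifts j (As 0))) := by
    have := hfin' 0
    refine le_trans ?_ (Submodule.finrank_mono (iterate_le_span_shifts j (As 0)))
    exact finrank_iterate_full j n _ (hspan 0) F1 F2 (Submodule.subset_span (hA0 F1 hF1))
      (Submodule.subset_span (hA0 F2 hF2)) hcop F1 (Submodule.subset_span (hA0 F1 hF1))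
      (hA F1 hF1).2.2.1 (by omega)
  have hrd : ∀ s, n * finrank ℚ (Submodule.span ℚ (As s)) ≤
      (n - j) * finrank ℚ (Submodule.span ℚ (shifts j (As s))) := by
    intro s
    have := hfin 0
    have := hfin' s
    have hle : Submodule.span ℚ (As s) ≤ Submodule.span ℚ (As 0) :=
      Submodule.span_mono (hAsanti (Nat.zero_le s))
    refine arith_rd n j _ _ hjn ?_ ?_ ?_
    · have := Submodule.finrank_mono hle; omega
    · intro hne
      refine le_trans ?_ (Submodule.finrank_mono (iterate_le_span_shifts j (As s)))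
      refine finrank_iterate_ge j _ (hfin s) fun h => hne ?_
      rw [h, finrank_bot]
    · intro heq
      have e : Submodule.span ℚ (As s) = Submodule.span ℚ (As 0) :=
        Submodule.eq_of_le_of_finrank_le hle (by omega)
      refine le_trans ?_ (Submodule.finrank_mono (iterate_le_span_shifts j (As s)))
      rw [e]
      exact finrank_iterate_full j n _ (hspan 0) F1 F2 (Submodule.subset_span (hA0 F1 hF1))
        (Submodule.subset_span (hA0 F2 hF2)) hcop F1 (Submodule.subset_span (hA0 F1 hF1))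
        (hA F1 hF1).2.2.1 (by omega)
  obtain ⟨b, lvl, hb1, hb2, hb3, hb4⟩ := exists_level_basis m (fun s => shifts j (As s))
    (fun s => by
      rintro _ ⟨a, ha, F, hF, rfl⟩
      exact ⟨a, ha, F, hAs s hF, rfl⟩) (hfin' 0)
  have hbdeg : ∀ g ∈ b, g ∈ degreeLT ℚ (n + j + 1) := fun g hg =>
    hsh _ (Submodule.subset_span (hb2 g hg))
  have hbcard : b.card = n + j + 1 := by
    refine le_antisymm ?_ (hfull.trans ((Submodule.finrank_mono hb3).trans
      (finrank_span_finset_le_card b)))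
    have h3 : LinearIndependent ℚ
        (fun i : b => (⟨(i : ℚ[X]), hbdeg i i.2⟩ : degreeLT ℚ (n + j + 1))) :=
      LinearIndependent.of_comp (degreeLT ℚ (n + j + 1)).subtype hb1
    have := h3.fintype_card_le_finrank
    rwa [finrank_degreeLT, Fintype.card_coe] at this
  let σ := (b.equivFinOfCardEq hbcard).symm
  have hmain := hc ⟨j, hjn⟩ B τ hB hτ hτ1 (fun i => (σ i : ℚ[X]))
    (fun i => 2 / 2 ^ lvl (σ i)) (fun i => by
      obtain ⟨a, -, F, hF, e⟩ := hb2 _ (σ i).2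
      rw [e]; exact hF.1.1.X_pow_mul a) (fun i => hbdeg _ (σ i).2)
    (LinearIndependent.comp hb1 σ σ.injective) (fun i => by positivity) (by
      intro i v P hP'
      obtain ⟨a, ha, F, hF, e⟩ := hb2 _ (σ i).2
      have h1 := norm_ev_shift n j a ha P F (hAsdeg _ hF)
      rw [← e] at h1
      refine h1.trans ?_
      rw [mul_assoc]
      refine mul_le_mul_of_nonneg_left ?_ (pow_nonneg (zero_le_one.trans (one_le_sz P)) _)
      split_ifs with hv
      · subst hv
        have h2 := hF.2 P hP'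
        rw [← mul_div_assoc, le_div_iff₀ (by positivity)]
        linarith
      · rw [mul_one]; exact hF.1.2.2 v hv P hP')
  simp only at hmain
  set Ω := (∏ v, B v) ^ (n + j + 1) * ∏ v, ∏ P ∈ supp v, τ v P with hΩ
  have hΩ0 : 0 < Ω := mul_pos (pow_pos (Finset.prod_pos fun v _ => hB v) _)
    (Finset.prod_pos fun v _ => Finset.prod_pos fun P _ => hτ v P)
  rw [Finset.prod_div_distrib, Finset.prod_const, Finset.card_univ, Fintype.card_fin,
    Finset.prod_pow_eq_pow_sum, Equiv.sum_comp σ (fun x : b => lvl x), Finset.sum_coe_sort b lvl,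
    ← mul_div_assoc, le_div_iff₀ (by positivity), one_mul] at hmain
  have hexp : n * ∑ s ∈ Finset.range (m + 1), finrank ℚ (Submodule.span ℚ (As s)) ≤
      n * (n + 1) + (∑ g ∈ b, lvl g) * (n - j) := by
    rw [Finset.sum_range_succ', mul_add, add_comm]
    refine Nat.add_le_add (Nat.mul_le_mul_left _ hk1) ?_
    rw [Finset.mul_sum, mul_comm]
    refine (Finset.sum_le_sum fun s _ => hrd (s + 1)).trans ?_
    rw [← Finset.mul_sum]
    exact Nat.mul_le_mul_left _ hb4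
  have hc0' := hc0 ⟨j, hjn⟩
  calc (A.card : ℝ) ^ n
      ≤ ((2 : ℝ) ^ (∑ s ∈ Finset.range (m + 1), finrank ℚ (Submodule.span ℚ (As s)))) ^ n := by
        gcongr; exact_mod_cast hcount
    _ ≤ (2 : ℝ) ^ (n * (n + 1) + (∑ g ∈ b, lvl g) * (n - j)) := by
        rw [← pow_mul, mul_comm]; exact pow_le_pow_right₀ one_le_two hexp
    _ ≤ (2 : ℝ) ^ (n * (n + 1)) * (c ⟨j, hjn⟩ * Ω * 2 ^ (n + j + 1)) ^ (n - j) := by
        rw [pow_add, pow_mul _ (∑ g ∈ b, lvl g)]; gcongr
    _ = ((2 : ℝ) ^ (n * (n + 1)) * (c ⟨j, hjn⟩ * 2 ^ (n + j + 1)) ^ (n - j)) * Ω ^ (n - j) := by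
        rw [mul_right_comm (c _), mul_pow _ Ω, mul_assoc]
    _ ≤ _ := by
        gcongr
        exact Finset.single_le_sum (f := fun j : Fin n =>
          (2 : ℝ) ^ (n * (n + 1)) * (c j * 2 ^ (n + j + 1)) ^ (n - j))
          (fun j _ => by have := hc0 j; positivity) (Finset.mem_univ (⟨j, hjn⟩ : Fin n))

end

end Pool.Agent.Lib.MP_651af7_nt
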