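import Pool.Agent.Lib.MP_651af7_nt.Lattice

namespace Pool.Agent.Lib.MP_651af7_nt

open Module Polynomial

section

variable {E : Type*} [NormedField E]

/-- The linear form vanishing at the point `P`, evaluated at `(z : 1)`. -/
noncomputable def lin : Option E → E → E
  | none, _ => 1
  | some β, z => z - β

lemma norm_lin_le (P : Option E) (z : E) : ‖lin P z‖ ≤ sz P * max 1 ‖z‖ := by
  cases P with
  | none => simp [lin, sz]
  | some β =>
    simp only [lin, sz]
    have h1 := norm_sub_le z β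
    have h2 := le_max_left 1 ‖z‖
    have h3 := le_max_right 1 ‖z‖
    have h4 := norm_nonneg β
    nlinarith

lemma sep_none_some (β z : E) : (1 + ‖β‖)⁻¹ * max 1 ‖z‖ ≤ ‖lin none z‖ + ‖lin (some β) z‖ := by
  have h4 := norm_nonneg β
  have h5 := norm_nonneg (z - β)
  have h1 : ‖z‖ ≤ ‖z - β‖ + ‖β‖ := by simpa using norm_add_le (z - β) β
  rw [inv_mul_le_iff₀ (by positivity)]
  simp only [lin, norm_one]
  refine max_le ?_ ?_ <;> nlinarith

lemma sep_pair (P P' : Option E) (h : P ≠ P') :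
    ∃ c : ℝ, 0 < c ∧ ∀ z : E, c * max 1 ‖z‖ ≤ ‖lin P z‖ + ‖lin P' z‖ := by
  cases P with
  | none =>
    cases P' with
    | none => exact absurd rfl h
    | some β => exact ⟨_, by positivity, sep_none_some β⟩
  | some β =>
    cases P' with
    | none => exact ⟨_, by positivity, fun z => (sep_none_some β z).trans_eq (add_comm _ _)⟩
    | some β' =>
      have hne : 0 < ‖β - β'‖ := norm_pos_iff.mpr (sub_ne_zero.mpr fun e => h (by rw [e]))
      have h4 := norm_nonneg β
      refine ⟨(1 + (1 + ‖β‖) / ‖β - β'‖)⁻¹, by positivity, fun z => ?_⟩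
      rw [inv_mul_le_iff₀ (by positivity)]
      simp only [lin]
      have h1 : ‖z‖ ≤ ‖z - β‖ + ‖β‖ := by simpa using norm_add_le (z - β) β
      have h2 : ‖β - β'‖ ≤ ‖z - β‖ + ‖z - β'‖ := by
        have := norm_sub_le (z - β') (z - β)
        rw [sub_sub_sub_cancel_left] at this
        linarith
      have h5 := norm_nonneg (z - β)
      have h6 := norm_nonneg (z - β')
      have h3 : 1 + ‖β‖ ≤ (1 + ‖β‖) / ‖β - β'‖ * (‖z - β‖ + ‖z - β'‖) := by
        rw [div_mul_eq_mul_div, le_div_iff₀ hne]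
        gcongr
      refine max_le ?_ ?_ <;> nlinarith

lemma sep_finset (D : Finset (Option E)) :
    ∃ c : ℝ, 0 < c ∧ ∀ P ∈ D, ∀ P' ∈ D, P ≠ P' → ∀ z : E,
      c * max 1 ‖z‖ ≤ ‖lin P z‖ + ‖lin P' z‖ := by
  classical
  have : ∀ x : Option E × Option E, ∃ c : ℝ, 0 < c ∧ (x.1 ≠ x.2 →
      ∀ z : E, c * max 1 ‖z‖ ≤ ‖lin x.1 z‖ + ‖lin x.2 z‖) := by
    intro x
    by_cases h : x.1 = x.2
    · exact ⟨1, one_pos, fun h' => absurd h h'⟩
    · obtain ⟨c, h1, h2⟩ := sep_pair x.1 x.2 h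
      exact ⟨c, h1, fun _ => h2⟩
  choose c hc0 hc using this
  rcases (D ×ˢ D).eq_empty_or_nonempty with h | h
  · refine ⟨1, one_pos, fun P hP P' hP' => ?_⟩
    have : (P, P') ∈ D ×ˢ D := Finset.mem_product.mpr ⟨hP, hP'⟩
    simp [h] at this
  · obtain ⟨x, -, hx⟩ := Finset.exists_min_image _ c h
    refine ⟨c x, hc0 x, fun P hP P' hP' hne z => le_trans ?_ (hc (P, P') hne z)⟩
    exact mul_le_mul_of_nonneg_right (hx _ (Finset.mem_product.mpr ⟨hP, hP'⟩)) (by positivity)

lemma close_of_same (P : Option E) (z z' : E) (t : ℝ) (ht : 0 ≤ t)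
    (h : ‖lin P z‖ ≤ t * max 1 ‖z‖) (h' : ‖lin P z'‖ ≤ t * max 1 ‖z'‖) :
    ‖z - z'‖ ≤ 2 * t * (max 1 ‖z‖ * max 1 ‖z'‖) := by
  have a1 := le_max_left 1 ‖z‖
  have a2 := le_max_right 1 ‖z‖
  have b1 := le_max_left 1 ‖z'‖
  have b2 := le_max_right 1 ‖z'‖
  set M := max 1 ‖z‖
  set M' := max 1 ‖z'‖
  cases P with
  | none =>
    simp only [lin, norm_one] at h h'
    have h1 := norm_sub_le z z'
    have h2 : M * 1 ≤ M * (t * M') := by gcongr
    have h3 : M' * 1 ≤ M' * (t * M) := by gcongr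
    nlinarith
  | some β =>
    simp only [lin] at h h'
    have h1 := norm_sub_le (z - β) (z' - β)
    rw [sub_sub_sub_cancel_right] at h1
    have h2 : t * M * 1 ≤ t * M * M' := by gcongr
    have h3 : t * M' * 1 ≤ t * M' * M := by gcongr
    nlinarith

variable [Algebra ℚ E]

/-- The local proximity function at one conjugate. -/
noncomputable def lam (g : ℚ[X]) (q : ℕ) (z : E) : ℝ := Real.log (max 1 ‖z‖ ^ q / ‖aeval z g‖)

lemma nearest [IsAlgClosed E] (g : ℚ[X]) (hg : Squarefree g) (q : ℕ) (hq : q ≤ g.natDegree + 1)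
    (Pts : Finset (Option E)) (h0 : none ∈ Pts) (h1 : ∀ β ∈ g.aroots E, some β ∈ Pts) :
    ∃ C : ℝ, ∀ z : E, aeval z g ≠ 0 → ∃ P ∈ Pts, lin P z ≠ 0 ∧
      lam g q z ≤ Real.log (max 1 ‖z‖ / ‖lin P z‖) + C := by
  classical
  have hnodup : (g.aroots E).Nodup :=
    nodup_roots ((PerfectField.separable_iff_squarefree.mpr hg).map)
  let R : Finset E := ⟨g.aroots E, hnodup⟩
  let D : Finset (Option E) := Finset.insertNone R
  have hcard : R.card = g.natDegree := IsAlgClosed.card_aroots_eq_natDegree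
  obtain ⟨c, hc0, hc⟩ := sep_finset D
  have hlc : 0 < ‖algebraMap ℚ E g.leadingCoeff‖ := by
    rw [norm_pos_iff, _root_.map_ne_zero]
    exact leadingCoeff_ne_zero.mpr hg.ne_zero
  refine ⟨-Real.log (‖algebraMap ℚ E g.leadingCoeff‖ * (c / 2) ^ g.natDegree), fun z hz => ?_⟩
  have hM : (1 : ℝ) ≤ max 1 ‖z‖ := le_max_left _ _
  have hev : ‖aeval z g‖ = ‖algebraMap ℚ E g.leadingCoeff‖ * ∏ P ∈ D, ‖lin P z‖ := by
    rw [(IsAlgClosed.splits _).aeval_eq_prod_aroots, norm_mul, Finset.prod_insertNone]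
    simp only [lin, norm_one, one_mul]
    rw [← norm_prod]
    rfl
  have hne : ∀ P ∈ D, lin P z ≠ 0 := by
    intro P hP h
    apply hz
    rw [← norm_eq_zero, hev, Finset.prod_eq_zero hP (by simp [h]), mul_zero]
  obtain ⟨P, hP, hmin⟩ := Finset.exists_min_image D (fun P => ‖lin P z‖)
    ⟨none, Finset.none_mem_insertNone⟩
  have hPts : P ∈ Pts := by
    cases P with
    | none => exact h0
    | some β => exact h1 β (Finset.some_mem_insertNone.mp hP)
  refine ⟨P, hPts, hne P hP, ?_⟩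
  have hl : 0 < ‖lin P z‖ := norm_pos_iff.mpr (hne P hP)
  have hprod : ‖lin P z‖ * (c / 2 * max 1 ‖z‖) ^ g.natDegree ≤ ∏ P ∈ D, ‖lin P z‖ := by
    rw [← Finset.mul_prod_erase D _ hP]
    refine mul_le_mul_of_nonneg_left ?_ hl.le
    have e : g.natDegree = (D.erase P).card := by
      rw [Finset.card_erase_of_mem hP, Finset.card_insertNone, hcard]; simp
    rw [e, ← Finset.prod_const]
    refine Finset.prod_le_prod (fun _ _ => by positivity) fun P' hP' => ?_
    have h2 := hc P hP P' (Finset.mem_of_mem_erase hP') (Finset.ne_of_mem_erase hP').symm z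
    have h3 := hmin P' (Finset.mem_of_mem_erase hP')
    linarith
  have hgz : 0 < ‖aeval z g‖ := norm_pos_iff.mpr hz
  rw [lam, ← sub_eq_add_neg, ← Real.log_div (by positivity) (by positivity)]
  refine Real.log_le_log (by positivity) ?_
  rw [div_div, div_le_div_iff₀ hgz (by positivity), hev]
  calc max 1 ‖z‖ ^ q * (‖lin P z‖ * (‖algebraMap ℚ E g.leadingCoeff‖ * (c / 2) ^ g.natDegree))
      ≤ max 1 ‖z‖ ^ (g.natDegree + 1) *
        (‖lin P z‖ * (‖algebraMap ℚ E g.leadingCoeff‖ * (c / 2) ^ g.natDegree)) := by gcongr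
    _ = max 1 ‖z‖ * (‖algebraMap ℚ E g.leadingCoeff‖ *
        (‖lin P z‖ * (c / 2 * max 1 ‖z‖) ^ g.natDegree)) := by rw [mul_pow]; ring
    _ ≤ _ := by gcongr

/-- Classification of one conjugate. -/
lemma exists_class [IsAlgClosed E] (g : ℚ[X]) (hg : Squarefree g) (q : ℕ)
    (hq : q ≤ g.natDegree + 1)
    (Pts : Finset (Option E)) (h0 : none ∈ Pts) (h1 : ∀ β ∈ g.aroots E, some β ∈ Pts) :
    ∃ C : ℝ, ∀ (u : ℝ) (K0 : ℕ), 0 < u → ∃ cl : E → Pts × Fin (K0 + 1), ∀ z : E, aeval z g ≠ 0 →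
      ‖lin (cl z).1.1 z‖ ≤ sz (cl z).1.1 * Real.exp (-(u * (cl z).2)) * max 1 ‖z‖ ∧
      (((cl z).2 : ℕ) = K0 ∨ lam g q z ≤ u * ((cl z).2 + 1) + C) := by
  obtain ⟨C, hC⟩ := nearest g hg q hq Pts h0 h1
  refine ⟨C, fun u K0 hu => ?_⟩
  have : ∀ z : E, ∃ x : Pts × Fin (K0 + 1), aeval z g ≠ 0 →
      ‖lin x.1.1 z‖ ≤ sz x.1.1 * Real.exp (-(u * x.2)) * max 1 ‖z‖ ∧
      ((x.2 : ℕ) = K0 ∨ lam g q z ≤ u * (x.2 + 1) + C) := by
    intro z
    by_cases hz : aeval z g = 0
    · exact ⟨(⟨none, h0⟩, 0), fun h => absurd hz h⟩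
    obtain ⟨P, hP, hl, hlam⟩ := hC z hz
    set t := Real.log (max 1 ‖z‖ / ‖lin P z‖) with ht
    have hl' : 0 < ‖lin P z‖ := norm_pos_iff.mpr hl
    have hM : (0 : ℝ) < max 1 ‖z‖ := by positivity
    refine ⟨(⟨P, hP⟩, ⟨min K0 ⌊t / u⌋₊, by omega⟩), fun _ => ⟨?_, ?_⟩⟩
    · simp only
      by_cases ht0 : 0 ≤ t
      · have h2 : ((min K0 ⌊t / u⌋₊ : ℕ) : ℝ) ≤ t / u :=
          le_trans (by exact_mod_cast min_le_right _ _) (Nat.floor_le (by positivity))
        rw [le_div_iff₀ hu] at h2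
        have h3 : ‖lin P z‖ = Real.exp (-t) * max 1 ‖z‖ := by
          rw [Real.exp_neg, ht, Real.exp_log (by positivity)]
          field_simp
        rw [h3]
        have h4 := one_le_sz P
        have h5 : Real.exp (-t) ≤ Real.exp (-(u * ((min K0 ⌊t / u⌋₊ : ℕ) : ℝ))) :=
          Real.exp_le_exp.mpr (by linarith)
        have h6 := Real.exp_pos (-(u * ((min K0 ⌊t / u⌋₊ : ℕ) : ℝ)))
        gcongr
        nlinarith
      · have h2 : ⌊t / u⌋₊ = 0 := Nat.floor_of_nonpos (div_nonpos_of_nonpos_of_nonneg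
          (not_le.mp ht0).le hu.le)
        simpa [h2] using norm_lin_le P z
    · simp only
      by_cases hk : K0 ≤ ⌊t / u⌋₊
      · left; exact min_eq_left hk
      · right
        rw [min_eq_right (not_le.mp hk).le]
        have h2 := Nat.lt_floor_add_one (t / u)
        rw [div_lt_iff₀ hu] at h2
        linarith
  choose cl hcl using this
  exact ⟨cl, hcl⟩

lemma norm_ev_eq [IsAlgClosed E] {I : Type*} [Fintype I] (F : ℚ[X]) (n : ℕ)
    (hF : F.natDegree = n) (z : I → E) (hz : F.aroots E = Finset.univ.val.map z) (P : Option E) :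
    ‖ev n P F‖ = ‖algebraMap ℚ E F.leadingCoeff‖ * ∏ i, ‖lin P (z i)‖ := by
  cases P with
  | none => simp [lin, leadingCoeff, hF]
  | some β =>
    rw [ev_some, (IsAlgClosed.splits _).aeval_eq_prod_aroots, norm_mul, hz, Multiset.map_map,
      Finset.prod_map_val, norm_prod]
    simp only [lin, Function.comp_apply, norm_sub_rev β]

lemma gauss [IsAlgClosed E] [IsUltrametricDist E] {I : Type*} [Fintype I] (F : ℚ[X])
    (hF : IntP F) (z : I → E) (hz : F.aroots E = Finset.univ.val.map z) :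
    ‖algebraMap ℚ E F.leadingCoeff‖ * ∏ i, max 1 ‖z i‖ ≤ 1 := by
  classical
  let v : AbsoluteValue E ℝ := NormedField.toAbsoluteValue E
  have hv : ∀ x, v x = ‖x‖ := fun _ => rfl
  have hna : IsNonarchimedean v := fun x y => IsUltrametricDist.norm_add_le_max x y
  have h1 : (F.map (algebraMap ℚ E)).gaussNorm v 1 ≤ 1 := by
    obtain ⟨i, hi⟩ := (F.map (algebraMap ℚ E)).exists_eq_gaussNorm v 1
    obtain ⟨a, ha⟩ := hF i
    rw [hi, one_pow, mul_one, coeff_map, ha, hv, map_intCast]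
    exact IsUltrametricDist.norm_intCast_le_one E a
  have h2 : F.map (algebraMap ℚ E) = C (algebraMap ℚ E F.leadingCoeff) * ∏ i, (X - C (z i)) := by
    have := (IsAlgClosed.splits (F.map (algebraMap ℚ E))).eq_prod_roots
    rw [leadingCoeff_map, ← aroots_def, hz, Multiset.map_map, Finset.prod_map_val] at this
    exact this
  have h3 : ∀ s : Finset I, ∏ i ∈ s, max 1 ‖z i‖ ≤ (∏ i ∈ s, (X - C (z i))).gaussNorm v 1 := by
    intro s
    induction s using Finset.induction_on with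
    | empty =>
      have := gaussNorm_C v 1 (1 : E)
      simp only [map_one] at this
      simp [this]
    | insert a s ha ih =>
      rw [Finset.prod_insert ha, Finset.prod_insert ha, gaussNorm_mul hna one_pos]
      refine mul_le_mul ?_ ih (by positivity) (gaussNorm_nonneg _ _ zero_le_one)
      have a1 := (X - C (z a)).le_gaussNorm v zero_le_one 1
      have a0 := (X - C (z a)).le_gaussNorm v zero_le_one 0
      simp only [coeff_sub, coeff_X_one, coeff_C_succ, sub_zero, norm_one, one_pow, mul_one,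
        coeff_X_zero, coeff_C_zero, zero_sub, hv, norm_neg] at a1 a0
      exact max_le a1 a0
  rw [h2, gaussNorm_mul hna one_pos, gaussNorm_C, hv] at h1
  exact le_trans (mul_le_mul_of_nonneg_left (h3 _) (norm_nonneg _)) h1

end

end Pool.Agent.Lib.MP_651af7_nt
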