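import Pool.Agent.Lib.MP_651af7_nt.LatBlock

namespace Pool.Agent.Lib.MP_651af7_nt

open Module Polynomial NumberField IntermediateField

/-- The algebraically closed valued fields attached to the places in `S ∪ {∞}`. -/
def Fld (S : Finset Nat.Primes) : Option S → Type
  | none => ℂ
  | some p => @PadicAlgCl p.1 ⟨p.1.2⟩

noncomputable instance (S : Finset Nat.Primes) : ∀ v, NormedField (Fld S v)
  | none => inferInstanceAs (NormedField ℂ)
  | some p => @PadicAlgCl.normedField p.1 ⟨p.1.2⟩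

noncomputable instance (S : Finset Nat.Primes) : ∀ v, Algebra ℚ (Fld S v)
  | none => inferInstanceAs (Algebra ℚ ℂ)
  | some p => haveI : Fact (p.1 : ℕ).Prime := ⟨p.1.2⟩
    inferInstanceAs (Algebra ℚ (PadicAlgCl p.1))

instance (S : Finset Nat.Primes) : ∀ v, IsAlgClosed (Fld S v)
  | none => inferInstanceAs (IsAlgClosed ℂ)
  | some p => haveI : Fact (p.1 : ℕ).Prime := ⟨p.1.2⟩
    inferInstanceAs (IsAlgClosed (PadicAlgCl p.1))

lemma fld_ult (S : Finset Nat.Primes) : ∀ v : Option S, v ≠ none → IsUltrametricDist (Fld S v)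
  | none, h => absurd rfl h
  | some p, _ => @PadicAlgCl.isUltrametricDist p.1 ⟨p.1.2⟩

lemma fld_abs (S : Finset Nat.Primes) (r : ℚ) : ‖algebraMap ℚ (Fld S none) r‖ = |(r : ℝ)| := by
  change ‖algebraMap ℚ ℂ r‖ = _
  simp

lemma fld_prod (S : Finset Nat.Primes) (z : ℤ) (hz : z ≠ 0) :
    1 ≤ ∏ v, ‖algebraMap ℚ (Fld S v) z‖ := by
  rw [Fintype.prod_option, fld_abs]
  refine (prod_formula S z hz).trans_eq ?_
  rw [← Finset.prod_coe_sort S, Rat.cast_intCast]
  rfl

lemma deg_pos (x : Qbar) : 0 < deg x := by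
  rw [deg_eq]; exact minpoly.natDegree_pos (isIntegral_qbar x)

lemma tot_fld (S : Finset Nat.Primes) (g : ℚ[X]) (q : ℕ) (x : Qbar) :
    tot (Fld S) g q x = deg x * prox S g q x := by
  have h : (deg x : ℝ) ≠ 0 := by exact_mod_cast (deg_pos x).ne'
  rw [tot, Fintype.sum_option, prox, mul_add, ← Finset.sum_coe_sort S, Finset.mul_sum]
  simp only [localHeight, mul_div_cancel₀ _ h]
  rfl

lemma height_fld (S : Finset Nat.Primes) (x : Qbar) :
    ∃ ν : ℚ, ν ≠ 0 ∧ IntP (C ν * minpoly ℚ x) ∧ ‖algebraMap ℚ (Fld S none) ν‖ *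
      (((minpoly ℚ x).aroots (Fld S none)).map fun z => max 1 ‖z‖).prod =
        Real.exp (deg x * absLogHeight₁ x) := by
  have := numberField_of_finrank (adjoin ℚ {x}) (deg_pos x)
  have m1 : minpoly ℚ x = minpoly ℚ (AdjoinSimple.gen ℚ x) := (minpoly_coe (AdjoinSimple.gen ℚ x)).symm
  have hy : (minpoly ℚ (AdjoinSimple.gen ℚ x)).natDegree = finrank ℚ (adjoin ℚ {x}) := by
    rw [← m1, ← deg_eq]; rfl
  obtain ⟨ν, h1, h2, h3⟩ := exists_int_multiple (AdjoinSimple.gen ℚ x) hy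
  refine ⟨ν, by exact_mod_cast h1, m1 ▸ h2, ?_⟩
  rw [fld_abs, m1, aroots_eq_embeddings _ _ hy, Multiset.map_map, Finset.prod_map_val,
    Rat.cast_natCast, Nat.abs_cast]
  refine h3.trans ?_
  have h : (deg x : ℝ) ≠ 0 := by exact_mod_cast (deg_pos x).ne'
  rw [absLogHeight₁, absMulHeight₁, dif_pos (isIntegral_qbar x),
    Real.log_rpow (Height.mulHeight₁_pos _)]
  change _ = Real.exp (deg x * ((deg x : ℝ)⁻¹ * _))
  rw [mul_inv_cancel_left₀ h, Real.exp_log (Height.mulHeight₁_pos _)]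

lemma height_nonneg (x : Qbar) : 0 ≤ absLogHeight₁ x := by
  have := numberField_of_finrank (adjoin ℚ {x}) (deg_pos x)
  rw [absLogHeight₁, absMulHeight₁, dif_pos (isIntegral_qbar x)]
  exact Real.log_nonneg (Real.one_le_rpow (Height.one_le_mulHeight₁ _) (by positivity))

lemma block_bound (S : Finset Nat.Primes) (g : ℚ[X]) (hg : Squarefree g) (q : ℕ)
    (hq : q ≤ g.natDegree + 1) (n : ℕ) (hn : 0 < n) (κ θ : ℝ) (hκ : 0 < κ) (hθ : 0 ≤ θ)
    (hF : FieldCount n κ)
    (hj : ∀ j < n, κ * ((n - j : ℕ) * (n + j - 1 : ℝ)) ≤ θ * (n * κ + (n - j : ℕ)))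
    (ε C : ℝ) (hε : 0 < ε) :
    ∃ c : ℝ, 0 ≤ c ∧ ∀ (m : ℕ) (A : Finset Qbar), (∀ x ∈ A, deg x = n ∧ aeval x g ≠ 0 ∧
      ⌈n * absLogHeight₁ x⌉₊ = m ∧
      ε * absLogHeight₁ x + C < prox S g q x - 2 * absLogHeight₁ x - logDisc x) →
      (A.card : ℝ) ≤ c * Real.exp (θ * m) := by
  classical
  have hnR : (0 : ℝ) < n := by exact_mod_cast hn
  obtain ⟨c1, L1, h1⟩ := lat_block (Fld S) none (fld_ult S) (fld_prod S) (fld_abs S) _
    (height_fld S) g hg q hq n hn (2 + θ / κ) θ ε (n * C - 2 - ε) hε hθ (by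
      intro j hjn
      have := hj j hjn
      refine le_of_mul_le_mul_left ?_ hκ
      have e : κ * (((n - j : ℕ) : ℝ) * (n + j + 1 - (2 + θ / κ))) =
          κ * ((n - j : ℕ) * (n + j - 1 : ℝ)) - θ * (n - j : ℕ) := by
        field_simp; ring
      rw [e]; linarith)
  obtain ⟨c2, L2, h2⟩ := gap_block (Fld S) none (fld_ult S) (fld_prod S) _
    (height_fld S) g hg q hq n hn ε (n * C - 2 - ε) hε
  obtain ⟨c3, L3, h3⟩ := lat_block (Fld S) none (fld_ult S) (fld_prod S) (fld_abs S) _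
    (height_fld S) g hg q hq n hn (-1) (3 * n) 1 (n * C) one_pos (by positivity) (by
      intro j hjn
      have a1 : ((n - j : ℕ) : ℝ) ≤ n := by exact_mod_cast Nat.sub_le n j
      have a2 : (j : ℝ) + 1 ≤ n := by exact_mod_cast hjn
      have a3 : (1 : ℝ) ≤ n := by exact_mod_cast hn
      have a4 : (0 : ℝ) ≤ j := by positivity
      exact mul_le_mul a1 (by linarith) (by linarith) hnR.le)
  obtain ⟨c4, h4⟩ := hF
  have hc4 : 0 ≤ c4 := by simpa using h4 1 le_rfl ∅ (by simp)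
  have hc1 : 0 ≤ c1 := by
    have := h1 L1 le_rfl ∅ (by simp)
    rw [Finset.card_empty, Nat.cast_zero] at this
    exact nonneg_of_mul_nonneg_left this (Real.exp_pos _)
  set L4 := max (max L1 L2) L3 with hL4
  have hc3 := h3 L4 (le_max_right _ _) ∅ (by simp)
  rw [Finset.card_empty, Nat.cast_zero] at hc3
  refine ⟨c1 + c2 * c4 + c3 * Real.exp (3 * n * L4), by positivity, fun m A hA => ?_⟩
  have hE1 : 1 ≤ Real.exp (θ * m) := Real.one_le_exp (by positivity)
  have hbase : ∀ x ∈ A, n * absLogHeight₁ x ≤ m ∧ (m : ℝ) - 1 ≤ n * absLogHeight₁ x ∧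
      (2 + ε) * (n * absLogHeight₁ x) + n * C + Real.log (absDisc (adjoin ℚ {x})) ≤
        tot (Fld S) g q x := by
    intro x hx
    obtain ⟨a1, -, a3, a4⟩ := hA x hx
    have a0 := height_nonneg x
    refine ⟨a3 ▸ Nat.le_ceil _, ?_, ?_⟩
    · have := Nat.ceil_lt_add_one (a := n * absLogHeight₁ x) (by positivity)
      rw [a3] at this; linarith
    · rw [tot_fld, a1]
      rw [logDisc, a1] at a4
      have a5 := mul_lt_mul_of_pos_left a4 hnR
      rw [mul_sub, mul_sub, mul_div_cancel₀ _ hnR.ne'] at a5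
      linarith
  have hlog : ∀ x : Qbar, 0 ≤ Real.log (absDisc (adjoin ℚ {x})) := fun x =>
    Real.log_natCast_nonneg _
  by_cases hm : L4 ≤ m
  · have hL1 : L1 ≤ m := ((le_max_left _ _).trans (le_max_left _ _)).trans hm
    have hL2 : L2 ≤ m := ((le_max_right _ _).trans (le_max_left _ _)).trans hm
    rw [← Finset.card_filter_add_card_filter_not
      (fun x => (absDisc (adjoin ℚ {x}) : ℝ) ≤ Real.exp (θ / κ * m)), Nat.cast_add]
    set A1 := A.filter fun x => (absDisc (adjoin ℚ {x}) : ℝ) ≤ Real.exp (θ / κ * m) with hA1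
    have b1 : (A1.card : ℝ) ≤ c2 * c4 * Real.exp (θ * m) := by
      have k1 : A1.card ≤ c2 * (A1.image fun x => adjoin ℚ {x}).card := by
        refine Finset.card_le_mul_card_image A1 _ fun K hK => ?_
        obtain ⟨x0, hx0, rfl⟩ := Finset.mem_image.mp hK
        refine h2 m hL2 _ (hA x0 (Finset.mem_filter.mp hx0).1).1 _ fun x hx => ?_
        obtain ⟨hx1, hx2⟩ := Finset.mem_filter.mp hx
        have hxA := (Finset.mem_filter.mp hx1).1
        obtain ⟨a1, a2, a3⟩ := hbase x hxA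
        refine ⟨hx2, (hA x hxA).2.1, ?_, ?_⟩
        · rw [(hA x hxA).1]; exact Real.exp_le_exp.mpr a1
        · have := hlog x
          nlinarith
      have k2 := h4 (Real.exp (θ / κ * m)) (Real.one_le_exp (by positivity))
        (A1.image fun x => adjoin ℚ {x}) (by
          intro K hK
          obtain ⟨x, hx, rfl⟩ := Finset.mem_image.mp hK
          exact ⟨(hA x (Finset.mem_filter.mp hx).1).1, (Finset.mem_filter.mp hx).2⟩)
      rw [← Real.exp_mul, mul_right_comm, div_mul_cancel₀ _ hκ.ne'] at k2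
      calc (A1.card : ℝ) ≤ c2 * ((A1.image fun x => adjoin ℚ {x}).card : ℝ) := by
            exact_mod_cast k1
        _ ≤ c2 * _ := mul_le_mul_of_nonneg_left k2 (by positivity)
        _ = _ := by ring
    have b2 := h1 m hL1
      (A.filter fun x => ¬ (absDisc (adjoin ℚ {x}) : ℝ) ≤ Real.exp (θ / κ * m)) (by
        intro x hx
        obtain ⟨hxA, hx2⟩ := Finset.mem_filter.mp hx
        obtain ⟨a1, a2, a3⟩ := hbase x hxA
        refine ⟨(hA x hxA).1, (hA x hxA).2.1, ?_, ?_⟩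
        · rw [(hA x hxA).1]; exact Real.exp_le_exp.mpr a1
        · have := Real.log_le_log (Real.exp_pos _) (not_le.mp hx2).le
          rw [Real.log_exp] at this
          nlinarith)
    nlinarith
  · have b3 := h3 L4 (le_max_right _ _) A (by
      intro x hx
      obtain ⟨a1, a2, a3⟩ := hbase x hx
      refine ⟨(hA x hx).1, (hA x hx).2.1, ?_, ?_⟩
      · rw [(hA x hx).1]; exact Real.exp_le_exp.mpr (a1.trans (not_le.mp hm).le)
      · have := hlog x
        have := height_nonneg x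
        have : 0 ≤ (2 + ε) * (n * absLogHeight₁ x) := by positivity
        linarith)
    have : 0 ≤ c2 * c4 := by positivity
    nlinarith

theorem main_bound (S : Finset Nat.Primes) (g : ℚ[X]) (hg : Squarefree g) (q : ℕ)
    (hq : q ≤ g.natDegree + 1) (n : ℕ) (hn : 2 ≤ n) (κ θ : ℝ) (hκ : 0 < κ)
    (hF : FieldCount n κ)
    (hj : ∀ j < n, κ * ((n - j : ℕ) * (n + j - 1 : ℝ)) ≤ θ * (n * κ + (n - j : ℕ)))
    (ε C : ℝ) (hε : 0 < ε) :
    ∃ B : ℝ, ∀ T : ℝ, 1 ≤ T → (exceptions S g q n ε C T).Finite ∧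
      ((exceptions S g q n ε C T).ncard : ℝ) ≤ B * T ^ θ := by
  classical
  have hθ : 0 < θ := by
    have := hj 0 (by omega)
    have a1 : (2 : ℝ) ≤ n := by exact_mod_cast hn
    simp only [Nat.sub_zero, Nat.cast_zero, add_zero] at this
    by_contra hh
    have a2 : 0 < κ * (n * (n - 1 : ℝ)) := mul_pos hκ (mul_pos (by linarith) (by linarith))
    have a3 : θ * (n * κ + n) ≤ 0 := mul_nonpos_of_nonpos_of_nonneg (not_lt.mp hh) (by positivity)
    linarith
  obtain ⟨c, hc0, hc⟩ := block_bound S g hg q hq n (by omega) κ θ hκ hθ.le hF hj ε C hε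
  have he : 1 < Real.exp θ := Real.one_lt_exp_iff.mpr hθ
  refine ⟨c * (Real.exp θ ^ 2 / (Real.exp θ - 1)), fun T hT => ?_⟩
  have key : ∀ A : Finset Qbar, (A : Set Qbar) ⊆ exceptions S g q n ε C T →
      (A.card : ℝ) ≤ c * (Real.exp θ ^ 2 / (Real.exp θ - 1)) * T ^ θ := by
    intro A hA
    rw [Finset.card_eq_sum_card_fiberwise (f := fun x => ⌈n * absLogHeight₁ x⌉₊)
      (t := Finset.range (⌈Real.log T⌉₊ + 1)) fun x hx =>
        Finset.mem_coe.mpr (Finset.mem_range.mpr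
          (Nat.lt_succ_of_le (Nat.ceil_le_ceil (hA hx).2.2.1))), Nat.cast_sum]
    refine (Finset.sum_le_sum fun m _ => hc m _ fun x hx => ?_).trans ?_
    · obtain ⟨h1, h2⟩ := Finset.mem_filter.mp hx
      exact ⟨(hA h1).1, (hA h1).2.1, h2, (hA h1).2.2.2⟩
    · rw [← Finset.mul_sum, mul_assoc]
      refine mul_le_mul_of_nonneg_left ?_ hc0
      simp_rw [mul_comm θ, Real.exp_nat_mul]
      rw [geom_sum_eq he.ne', div_mul_eq_mul_div]
      refine div_le_div_of_nonneg_right ?_ (by linarith)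
      have h1 := Nat.ceil_lt_add_one (Real.log_nonneg hT)
      rw [Real.rpow_def_of_pos (by linarith), ← Real.exp_nat_mul, ← Real.exp_nat_mul,
        ← Real.exp_add]
      refine (sub_le_self _ zero_le_one).trans (Real.exp_le_exp.mpr ?_)
      push_cast
      nlinarith
  have hfin : (exceptions S g q n ε C T).Finite := by
    by_contra hinf
    obtain ⟨A, h1, h2⟩ := Set.Infinite.exists_subset_card_eq hinf
      (⌈c * (Real.exp θ ^ 2 / (Real.exp θ - 1)) * T ^ θ⌉₊ + 1)
    have h3 := key A h1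
    rw [h2] at h3
    have := Nat.le_ceil (c * (Real.exp θ ^ 2 / (Real.exp θ - 1)) * T ^ θ)
    push_cast at h3
    linarith
  refine ⟨hfin, ?_⟩
  rw [Set.ncard_eq_toFinset_card _ hfin]
  exact key _ (by simp)

end Pool.Agent.Lib.MP_651af7_nt
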