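import Pool.Agent.Lib.MP_651af7_nt.P1Defs

/-! The gain from vanishing jets at the origin. -/

namespace Pool.Agent.Lib.MP_651af7_nt.Vj.P1

open Finset

section jetAux

variable {R : Type} [CommRing R] {na : Prop} (S : SN R na) {c r : ℝ} {a b : ℤ}

lemma jet_r_le (hc : 4 ≤ c) (h0 : 0 ≤ r) (hr : E na c * r ≤ 1) : r ≤ 1 :=
  (le_mul_of_one_le_left h0 (one_le_E (by linarith))).trans hr

lemma jet_E_mul (hc : 4 ≤ c) (h0 : 0 ≤ r) (hr : E na c * r ≤ 1) {t u : ℝ} (ht : 0 ≤ u)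
    (htu : t ≤ u * c) (j : ℕ) : E na t * r ^ (j + 1) ≤ E na u := by
  have h1 : r ^ (j + 1) ≤ r := by
    rw [pow_succ]
    exact mul_le_of_le_one_left h0 (pow_le_one₀ h0 (jet_r_le hc h0 hr))
  have h2 : 0 ≤ E na (u * c) := E_nonneg (by positivity)
  calc E na t * r ^ (j + 1) ≤ E na (u * c) * r :=
        mul_le_mul (E_mono htu) h1 (by positivity) h2
    _ = E na u * (E na c * r) := by rw [E_mul, mul_assoc]
    _ ≤ E na u := mul_le_of_le_one_right (E_nonneg ht) hr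

lemma jet_bk_le (hc : 4 ≤ c) (hab : 32 * (|(a : ℝ)| + |(b : ℝ)|) ≤ c) (h0 : 0 ≤ r)
    (hr : E na c * r ≤ 1) {z : R} (hz : S.N z ≤ r) (k : ℕ) :
    S.N (bk (a : R) (b : R) z k) ≤ E na 2 * r ^ 2 := by
  have ha := abs_nonneg (a : ℝ)
  have hb := abs_nonneg (b : ℝ)
  induction k with
  | zero =>
    rw [bk, S.zero]
    exact mul_nonneg (E_nonneg (by norm_num)) (by positivity)
  | succ k ih =>
    have h1 : S.N (z ^ 2) ≤ E na 1 * r ^ 2 := by
      rw [E_one, one_mul]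
      exact S.pow_le hz 2
    have h2 : S.N (a * bk (a : R) (b : R) z k ^ 3) ≤ E na (1 / 2) * r ^ 2 := by
      refine (S.int_mul_le a (S.pow_le ih 3)).trans ?_
      have := jet_E_mul hc h0 hr (t := |(a : ℝ)| * 2 ^ 3) (u := 1 / 2) (by norm_num)
        (by linarith) 3
      rw [E_mul, E_pow] at this
      calc _ = E na |(a : ℝ)| * E na 2 ^ 3 * r ^ (3 + 1) * r ^ 2 := by ring
        _ ≤ _ := mul_le_mul_of_nonneg_right this (by positivity)
    have h3 : S.N (b * bk (a : R) (b : R) z k ^ 4) ≤ E na (1 / 2) * r ^ 2 := by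
      refine (S.int_mul_le b (S.pow_le ih 4)).trans ?_
      have := jet_E_mul hc h0 hr (t := |(b : ℝ)| * 2 ^ 4) (u := 1 / 2) (by norm_num)
        (by linarith) 5
      rw [E_mul, E_pow] at this
      calc _ = E na |(b : ℝ)| * E na 2 ^ 4 * r ^ (5 + 1) * r ^ 2 := by ring
        _ ≤ _ := mul_le_mul_of_nonneg_right this (by positivity)
    have h4 := S.sub_le (S.sub_le h1 h2) h3
    norm_num at h4
    exact h4

lemma jet_two_le (hc : 4 ≤ c) (h0 : 0 ≤ r) (hr : E na c * r ≤ 1) : E na 2 * r ^ 2 ≤ 1 :=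
  (jet_E_mul hc h0 hr (u := 1) zero_le_one (by linarith) 1).trans E_one.le

lemma jet_sub_bk (hc : 4 ≤ c) (hab : 32 * (|(a : ℝ)| + |(b : ℝ)|) ≤ c) (h0 : 0 ≤ r)
    (hr : E na c * r ≤ 1) {z β : R} (hz : S.N z ≤ r) (hβ : S.N β ≤ r ^ 2)
    (he : z ^ 2 = β + (a : R) * β ^ 3 + (b : R) * β ^ 4) (k : ℕ) :
    S.N (β - bk (a : R) (b : R) z k) ≤ r ^ 2 * (E na c * r) ^ k := by
  have ha := abs_nonneg (a : ℝ)
  have hb := abs_nonneg (b : ℝ)
  have hr1 := jet_r_le hc h0 hr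
  induction k with
  | zero => simpa [bk] using hβ
  | succ k ih =>
    have hγ := jet_bk_le S hc hab h0 hr hz k
    set γ := bk (a : R) (b : R) z k
    have hβ' : S.N β ≤ E na 2 * r ^ 2 :=
      hβ.trans (le_mul_of_one_le_left (by positivity) (one_le_E (by norm_num)))
    have hM : ∀ i j : ℕ, S.N (β ^ i * γ ^ (j + 1)) ≤ E na 2 * r := fun i j => by
      have h1 := jet_two_le hc h0 hr
      have h2 : 0 ≤ E na 2 := E_nonneg (by norm_num)
      refine (S.mul_le (S.pow_le (hβ'.trans h1) i) (S.pow_le hγ (j + 1))).trans ?_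
      rw [one_pow, one_mul, pow_succ]
      refine (mul_le_of_le_one_left (by positivity) (pow_le_one₀ (by positivity) h1)).trans ?_
      exact mul_le_mul_of_nonneg_left (by nlinarith) h2
    have hP : ∀ i : ℕ, S.N (β ^ (i + 1)) ≤ E na 2 * r := fun i => by
      refine (S.pow_le hβ (i + 1)).trans (le_trans ?_
        (le_mul_of_one_le_left h0 (one_le_E (by norm_num))))
      rw [pow_succ]
      refine (mul_le_of_le_one_left (by positivity)
        (pow_le_one₀ (by positivity) (pow_le_one₀ h0 hr1))).trans (by nlinarith)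
    have q1 := S.int_mul_le a (S.add_le (S.add_le (hP 1) (hM 1 0)) (hM 0 1))
    have q2 := S.int_mul_le b (S.add_le (S.add_le (S.add_le (hP 2) (hM 2 0)) (hM 1 1)) (hM 0 2))
    rw [← mul_assoc, ← E_mul] at q1 q2
    have q3 := (S.add_le q1 q2).trans
      (mul_le_mul_of_nonneg_right (E_mono (t := c) (by linarith)) h0)
    have q4 := S.mul_le ih q3
    rw [← S.neg] at q4
    rw [pow_succ (E na c * r), ← mul_assoc]
    refine le_trans (le_of_eq (congrArg S.N ?_)) q4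
    rw [bk, he]
    ring

lemma jet_pow_sub (hc : 4 ≤ c) (h0 : 0 ≤ r) (hr : E na c * r ≤ 1) {β γ : R} {δ : ℝ} (hδ : 0 ≤ δ)
    (hβ : S.N β ≤ r ^ 2) (hγ : S.N γ ≤ 1) (h : S.N (β - γ) ≤ r ^ 2 * δ) (n : ℕ) :
    S.N (β ^ n - γ ^ n) ≤ E na (1 / 2) * δ := by
  induction n with
  | zero =>
    rw [pow_zero, pow_zero, sub_self, S.zero]
    exact mul_nonneg (E_nonneg (by norm_num)) hδ
  | succ n ih =>
    have h1 : S.N (β * (β ^ n - γ ^ n)) ≤ E na (1 / 4) * δ := by
      refine (S.mul_le hβ ih).trans ?_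
      rw [← mul_assoc, mul_comm (r ^ 2)]
      exact mul_le_mul_of_nonneg_right (jet_E_mul hc h0 hr (by norm_num) (by linarith) 1) hδ
    have h2 : S.N ((β - γ) * γ ^ n) ≤ E na (1 / 4) * δ := by
      refine (S.mul_le h (S.pow_le hγ n)).trans ?_
      have := jet_E_mul hc h0 hr (t := 1) (u := 1 / 4) (by norm_num) (by linarith) 1
      rw [E_one, one_mul] at this
      rw [one_pow, mul_one]
      exact mul_le_mul_of_nonneg_right this hδ
    have h3 := S.add_le h1 h2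
    rw [show (1 / 4 + 1 / 4 : ℝ) = 1 / 2 by norm_num] at h3
    refine le_trans (le_of_eq (congrArg S.N ?_)) h3
    ring

/-- The weighted length of an integer polynomial. -/
noncomputable def jetN (ρ : ℝ) (p : Polynomial ℤ) : ℝ := ∑ n ∈ p.support, |(p.coeff n : ℝ)| * ρ ^ n

lemma jetN_eq (ρ : ℝ) {p : Polynomial ℤ} {s : Finset ℕ} (hs : p.support ⊆ s) :
    jetN ρ p = ∑ n ∈ s, |(p.coeff n : ℝ)| * ρ ^ n :=
  Finset.sum_subset hs fun n _ hn => by simp [Polynomial.notMem_support_iff.1 hn]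

lemma jetN_ge {ρ : ℝ} (hρ : 0 ≤ ρ) (p : Polynomial ℤ) (s : Finset ℕ) :
    ∑ n ∈ s, |(p.coeff n : ℝ)| * ρ ^ n ≤ jetN ρ p := by
  rw [jetN_eq ρ (s := p.support ∪ s) subset_union_left]
  exact Finset.sum_le_sum_of_subset_of_nonneg subset_union_right fun n _ _ => by positivity

lemma jetN_monomial (ρ : ℝ) (n : ℕ) (u : ℤ) :
    jetN ρ (Polynomial.monomial n u) = |(u : ℝ)| * ρ ^ n := by
  rw [jetN_eq ρ (Polynomial.support_monomial_subset n u)]
  simp

lemma jetN_add {ρ : ℝ} (hρ : 0 ≤ ρ) (p q : Polynomial ℤ) :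
    jetN ρ (p + q) ≤ jetN ρ p + jetN ρ q := by
  rw [jetN_eq ρ Polynomial.support_add, jetN_eq ρ (p := p) (s := p.support ∪ q.support)
    subset_union_left, jetN_eq ρ (p := q) (s := p.support ∪ q.support) subset_union_right,
    ← Finset.sum_add_distrib]
  refine Finset.sum_le_sum fun n _ => ?_
  rw [← add_mul, Polynomial.coeff_add, Int.cast_add]
  exact mul_le_mul_of_nonneg_right (abs_add_le _ _) (by positivity)

lemma jetN_sum {ρ : ℝ} (hρ : 0 ≤ ρ) {ι : Type} (s : Finset ι) (f : ι → Polynomial ℤ) :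
    jetN ρ (∑ i ∈ s, f i) ≤ ∑ i ∈ s, jetN ρ (f i) :=
  Finset.le_sum_of_subadditive _ (by simp [jetN]) (jetN_add hρ) s f

/-- The weighted length as a seminorm. -/
noncomputable def jetSN {ρ : ℝ} (hρ : 0 ≤ ρ) : SN (Polynomial ℤ) False where
  N := jetN ρ
  nonneg := fun p => Finset.sum_nonneg fun n _ => by positivity
  zero := by simp [jetN]
  one := by simpa using (jetN_monomial ρ 0 1).le
  neg := fun p => by simp [jetN]
  mul := fun p q => by
    conv_lhs => rw [p.as_sum_support, q.as_sum_support, Finset.sum_mul_sum]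
    refine (jetN_sum hρ _ _).trans ?_
    rw [jetN, jetN, Finset.sum_mul_sum]
    refine Finset.sum_le_sum fun n _ => (jetN_sum hρ _ _).trans (Finset.sum_le_sum fun m _ => ?_)
    rw [Polynomial.monomial_mul_monomial, jetN_monomial, Int.cast_mul, abs_mul, pow_add]
    exact le_of_eq (by ring)
  add := jetN_add hρ
  add_na := fun h => h.elim

lemma jetN_le_one (hc : 4 ≤ c) (hab : 32 * (|(a : ℝ)| + |(b : ℝ)|) ≤ c) (k n e : ℕ) :
    jetN c⁻¹ (bk (a : Polynomial ℤ) (b : Polynomial ℤ) Polynomial.X k ^ n * Polynomial.X ^ e) ≤ 1 := by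
  have h0 : 0 ≤ c⁻¹ := by positivity
  have hr : E False c * c⁻¹ ≤ 1 := by rw [E_neg_case not_false, mul_inv_cancel₀ (by linarith)]
  have hX : (jetSN h0).N Polynomial.X ≤ c⁻¹ :=
    (jetN_monomial c⁻¹ 1 1).le.trans (by simp)
  have := (jetSN h0).mul_le ((jetSN h0).pow_le
    ((jet_bk_le (jetSN h0) hc hab h0 hr hX k).trans (jet_two_le hc h0 hr)) n)
    ((jetSN h0).pow_le (hX.trans (jet_r_le hc h0 hr)) e)
  rw [one_pow, one_pow, mul_one] at this
  exact this

lemma jet_part (hc : 4 ≤ c) (h0 : 0 ≤ r) (hr : E na c * r ≤ 1) {z : R} (hz : S.N z ≤ r)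
    {p : Polynomial ℤ} (hp : jetN c⁻¹ p ≤ 1) (s : Finset ℕ) {j : ℕ} (hs : ∀ n ∈ s, j ≤ n) :
    S.N (∑ n ∈ s, (p.coeff n : R) * z ^ n) ≤ E na 1 * (E na c * r) ^ j := by
  have hE : 0 ≤ E na c * r := mul_nonneg (E_nonneg (by linarith)) h0
  refine (S.sum_le s (t := fun n => |(p.coeff n : ℝ)| * c⁻¹ ^ n) (pow_nonneg hE j)
    fun n hn => ?_).trans (mul_le_mul_of_nonneg_right
      (E_mono ((jetN_ge (by positivity) p s).trans hp)) (pow_nonneg hE j))
  refine (S.int_mul_le _ (S.pow_le hz n)).trans (le_trans (le_of_eq ?_)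
    (mul_le_mul_of_nonneg_left (pow_le_pow_of_le_one hE hr (hs n hn)) (E_nonneg (by positivity))))
  rw [mul_pow, ← mul_assoc, ← E_pow, ← E_mul, mul_assoc, ← mul_pow, inv_mul_cancel₀ (by linarith),
    one_pow, mul_one]

lemma jet_approx (hc : 4 ≤ c) (hab : 32 * (|(a : ℝ)| + |(b : ℝ)|) ≤ c) (h0 : 0 ≤ r)
    (hr : E na c * r ≤ 1) {z β : R} (hz : S.N z ≤ r) (hβ : S.N β ≤ r ^ 2)
    (he : z ^ 2 = β + (a : R) * β ^ 3 + (b : R) * β ^ 4) (k w : ℕ) (μ : MM w) :
    S.N (∑ n : Fin k, (jet a b k w μ n : R) * z ^ (n : ℕ)) ≤ 1 ∧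
    S.N (β ^ (w - μ.1 - 2 * μ.2) * z ^ (μ.2 : ℕ) -
      ∑ n : Fin k, (jet a b k w μ n : R) * z ^ (n : ℕ)) ≤ E na (3 / 2) * (E na c * r) ^ k := by
  have hp := jetN_le_one hc hab k (w - μ.1 - 2 * μ.2) μ.2
  rw [Fin.sum_univ_eq_sum_range fun n => (jet a b k w μ n : R) * z ^ n]
  unfold jet
  set p := bk (a : Polynomial ℤ) (b : Polynomial ℤ) Polynomial.X k ^ (w - μ.1 - 2 * μ.2) *
    Polynomial.X ^ (μ.2 : ℕ) with hpd
  have hE : 0 ≤ E na c * r := mul_nonneg (E_nonneg (by linarith)) h0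
  refine ⟨by simpa [E_one] using jet_part S hc h0 hr hz hp (range k) fun n _ => n.zero_le, ?_⟩
  have h1 : bk (a : R) (b : R) z k ^ (w - μ.1 - 2 * μ.2) * z ^ (μ.2 : ℕ) =
      ∑ n ∈ range (k + (p.natDegree + 1)), (p.coeff n : R) * z ^ n := by
    have h2 := Polynomial.eval₂_eq_sum_range' (Int.castRingHom R) (p := p)
      (n := k + (p.natDegree + 1)) (by omega) z
    rw [← Polynomial.coe_eval₂RingHom] at h2
    conv_lhs at h2 => rw [hpd, map_mul, map_pow, map_pow, map_bk, map_intCast, map_intCast]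
    simpa using h2
  rw [← Finset.sum_range_add_sum_Ico _ (Nat.le_add_right k _)] at h1
  have h3 := jet_part S hc h0 hr hz hp (Ico k (k + (p.natDegree + 1))) fun n hn => (mem_Ico.1 hn).1
  have h4 := S.mul_le (jet_pow_sub S hc h0 hr (pow_nonneg hE k) hβ
    ((jet_bk_le S hc hab h0 hr hz k).trans (jet_two_le hc h0 hr))
    (jet_sub_bk S hc hab h0 hr hz hβ he k) (w - μ.1 - 2 * μ.2))
    (S.pow_le (hz.trans (jet_r_le hc h0 hr)) μ.2)
  rw [one_pow, mul_one] at h4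
  have h5 := S.add_le h4 h3
  rw [show (1 / 2 + 1 : ℝ) = 3 / 2 by norm_num] at h5
  refine le_trans (le_of_eq (congrArg S.N ?_)) h5
  linear_combination h1

end jetAux

/- Sketch. Let c >= 100 (1 + |a s| + |b s|). (1) For any S : SN R na, N z <= r, E na c * r <= 1:
N (bk a b z k) <= E na 3 * r ^ 2 for all k (induction, add_le / sub_le), and if N beta <= r ^ 2 and
z ^ 2 = beta + a beta ^ 3 + b beta ^ 4 then beta - bk (k+1) = -(beta - bk k) * (a (beta^2 + beta bk + bk^2)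
+ b (...)), so N (beta - bk k) <= (E na c * r) ^ k * (small), hence
N (beta ^ n z ^ e - bk ^ n z ^ e) <= (E na c * r) ^ k (telescoping, Commute.geom_sum2 or induction on n;
in the case not na use r ^ 2 * 3 <= 1 / 2 and n / 2 ^ n <= 1).
(2) An instance SN (Polynomial Int) False with N p = sum_n |coeff n p| * rho ^ n, rho = 1 / c; (1) gives
sum_n |jet n| / c ^ n <= 1, in particular |jet n| <= c ^ n.
(3) With p_mu = bk ^ _ * X ^ _ and map_bk for eval2 at z s: prod_s p_(mu s)(z s) = sum over n : Bool -> range of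
prod_s jet * z s ^ n s. The part with all n s < k cancels after summing against h (hypothesis); every other
term has n false + n true >= k, so N <= E (prod_s |jet| / c ^ n s) * (E c * r) ^ k; SN.sum_le and (2). -/
theorem exists_jet (a b : Bool → ℤ) : ∃ c : ℝ, 1 ≤ c ∧
    (∀ s k w μ n, |(jet (a s) (b s) k w μ n : ℝ)| ≤ c ^ n) ∧
    ∀ (R : Type) [CommRing R] (na : Prop) (S : SN R na) (β z : Bool → R) (r : ℝ) (k w : ℕ)
      (h : (Bool → MM w) → R) (H : ℝ), 0 ≤ r → E na c * r ≤ 1 →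
      (∀ s, z s ^ 2 = β s + (a s : R) * β s ^ 3 + (b s : R) * β s ^ 4) →
      (∀ s, S.N (β s) ≤ r ^ 2) → (∀ s, S.N (z s) ≤ r) → 0 ≤ H → (∀ μ, S.N (h μ) ≤ H) →
      (∀ n : Bool → Fin k, ∑ μ, h μ * ∏ s, (jet (a s) (b s) k w (μ s) (n s) : R) = 0) →
      S.N (∑ μ, h μ * ∏ s, (β s ^ (w - (μ s).1 - 2 * (μ s).2) * z s ^ ((μ s).2 : ℕ))) ≤
        E na (3 * Fintype.card (Bool → MM w)) * H * (E na c * r) ^ k := by
  have h1 : ∀ s, 0 ≤ |(a s : ℝ)| + |(b s : ℝ)| := fun s => by positivity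
  have hS : 0 ≤ ∑ s, 32 * (|(a s : ℝ)| + |(b s : ℝ)|) := by positivity
  set c : ℝ := 4 + ∑ s, 32 * (|(a s : ℝ)| + |(b s : ℝ)|) with hcd
  have hc : 4 ≤ c := by linarith
  have hab : ∀ s, 32 * (|(a s : ℝ)| + |(b s : ℝ)|) ≤ c := fun s => by
    have := Finset.single_le_sum (f := fun s => 32 * (|(a s : ℝ)| + |(b s : ℝ)|))
      (fun s _ => by positivity) (mem_univ s)
    linarith
  refine ⟨c, by linarith, fun s k w μ n => ?_, ?_⟩
  · have h2 := (jetN_ge (by positivity) _ {n}).trans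
      (jetN_le_one hc (hab s) k (w - μ.1 - 2 * μ.2) μ.2)
    rw [sum_singleton, inv_pow, ← div_eq_mul_inv, div_le_one (by positivity)] at h2
    exact h2
  intro R _ na S β z r k w h H h0 hr he hβ hz hH hh hj
  have hE : 0 ≤ E na c * r := mul_nonneg (E_nonneg (by linarith)) h0
  have hr1 := jet_r_le hc h0 hr
  have h2 : ∑ μ, h μ * ∏ s, ∑ n : Fin k, (jet (a s) (b s) k w (μ s) n : R) * z s ^ (n : ℕ) = 0 := by
    simp only [Finset.prod_univ_sum, Fintype.piFinset_univ, Finset.mul_sum, prod_mul_distrib,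
      ← mul_assoc]
    rw [Finset.sum_comm]
    refine Finset.sum_eq_zero fun n _ => ?_
    rw [← Finset.sum_mul, hj n, zero_mul]
  rw [← sub_zero (∑ μ, _), ← h2, ← Finset.sum_sub_distrib]
  refine (S.sum_le_card univ (M := H * (E na 3 * (E na c * r) ^ k))
    (mul_nonneg hH (mul_nonneg (E_nonneg (by norm_num)) (pow_nonneg hE k))) fun μ _ => ?_).trans
    (le_of_eq (by rw [E_mul, card_univ]; ring))
  rw [← mul_sub]
  refine S.mul_le (hh μ) ?_
  obtain ⟨-, a2⟩ := jet_approx S hc (hab true) h0 hr (hz true) (hβ true) (he true) k w (μ true)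
  obtain ⟨b1, b2⟩ :=
    jet_approx S hc (hab false) h0 hr (hz false) (hβ false) (he false) k w (μ false)
  have a1 := S.mul_le (S.pow_le ((hβ true).trans (pow_le_one₀ h0 hr1))
    (w - (μ true).1 - 2 * (μ true).2)) (S.pow_le ((hz true).trans hr1) (μ true).2)
  rw [one_pow, one_pow, mul_one] at a1
  have c1 := S.mul_le a1 b2
  have c2 := S.mul_le a2 b1
  rw [one_mul] at c1
  rw [mul_one] at c2
  have c3 := S.add_le c1 c2
  rw [show (3 / 2 + 3 / 2 : ℝ) = 3 by norm_num] at c3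
  refine le_trans (le_of_eq (congrArg S.N ?_)) c3
  rw [Fintype.prod_bool, Fintype.prod_bool]
  ring

end Pool.Agent.Lib.MP_651af7_nt.Vj.P1
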