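import Pool.Agent.Lib.MP_651af7_nt.P1Arr
import Pool.Agent.Lib.MP_651af7_nt.P1Jet
import Pool.Agent.Lib.MP_651af7_nt.P1Tens

/-! Construction of the auxiliary section and its local bound. -/

namespace Pool.Agent.Lib.MP_651af7_nt.Vj.P1

open Finset

section Block

variable {R : Type} [CommRing R] {na : Prop}

lemma p1aux_mon (S : SN R na) {w n : ℕ} {x y : R} {M : ℝ} (hM : 1 ≤ M) (hx : S.N x ≤ M)
    (hy : S.N y ≤ M ^ 2) {μ : MM w} (h : (μ.1 : ℕ) + 2 * μ.2 ≤ n) : S.N (mon x y μ) ≤ M ^ n := by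
  refine (S.mul_le (S.pow_le hx _) (S.pow_le hy _)).trans ?_
  rw [← pow_mul, ← pow_add]
  exact pow_le_pow_right₀ hM h

lemma p1aux_mon_eq {w : ℕ} {x y β : R} (hβ : x * β = 1) {μ : MM w}
    (h : (μ.1 : ℕ) + 2 * μ.2 ≤ w) :
    mon x y μ = x ^ w * (β ^ (w - μ.1 - 2 * μ.2) * (y * β ^ 2) ^ (μ.2 : ℕ)) := by
  obtain ⟨e, he⟩ := Nat.exists_eq_add_of_le h
  have e1 : w - μ.1 - 2 * μ.2 = e := by omega
  have e2 : x ^ w = x ^ (μ.1 : ℕ) * x ^ (2 * μ.2 + e) := by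
    rw [← pow_add, ← add_assoc, ← he]
  have e3 : x ^ (2 * μ.2 + e) * β ^ (2 * μ.2 + e) = 1 := by rw [← mul_pow, hβ, one_pow]
  rw [e1, e2, mon, mul_pow, ← pow_mul]
  linear_combination (-(x ^ (μ.1 : ℕ) * y ^ (μ.2 : ℕ))) * e3

lemma p1aux_expand {T U : Type} [Fintype T] [Fintype U] (h : (Bool → T) → R)
    (ρ : Bool → T → U → R) (f : Bool → U → R) :
    ∑ τ, h τ * ∏ s, ∑ μ, ρ s (τ s) μ * f s μ =
      ∑ μ : Bool → U, (∑ τ, h τ * ∏ s, ρ s (τ s) (μ s)) * ∏ s, f s (μ s) := by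
  simp only [Finset.prod_univ_sum, Fintype.piFinset_univ, Finset.mul_sum, Finset.sum_mul,
    Finset.prod_mul_distrib, mul_assoc]
  exact Finset.sum_comm

/-- The bound for one block. -/
lemma p1aux_block (S : SN R na) {a b : Bool → ℤ} {c : ℝ} {k w D : ℕ}
    (hjet : ∀ (β z : Bool → R) (r : ℝ) (h : (Bool → MM w) → R) (H : ℝ), 0 ≤ r → E na c * r ≤ 1 →
      (∀ s, z s ^ 2 = β s + (a s : R) * β s ^ 3 + (b s : R) * β s ^ 4) →
      (∀ s, S.N (β s) ≤ r ^ 2) → (∀ s, S.N (z s) ≤ r) → 0 ≤ H → (∀ μ, S.N (h μ) ≤ H) →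
      (∀ n : Bool → Fin k, ∑ μ, h μ * ∏ s, (jet (a s) (b s) k w (μ s) (n s) : R) = 0) →
      S.N (∑ μ, h μ * ∏ s, (β s ^ (w - (μ s).1 - 2 * (μ s).2) * z s ^ ((μ s).2 : ℕ))) ≤
        E na (3 * Fintype.card (Bool → MM w)) * H * (E na c * r) ^ k)
    {T : Type} [Fintype T] (q : Bool → T → MM D → MM w → ℤ) {A : ℝ}
    (hq : ∀ s t ν μ, q s t ν μ ≠ 0 → (ν.1 : ℕ) + 2 * ν.2 ≤ D ∧ (μ.1 : ℕ) + 2 * μ.2 ≤ w)
    (hA : ∀ s t, ∑ ν, ∑ μ, |(q s t ν μ : ℝ)| ≤ A) (hA1 : 1 ≤ A) (x y u v : Bool → R)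
    (M M0 : Bool → ℝ) {r : ℝ} (hxy : ∀ s, y s ^ 2 = fc (a s : R) (b s) (x s)) (hM : ∀ s, 1 ≤ M s)
    (hx : ∀ s, S.N (x s) ≤ M s) (hy : ∀ s, S.N (y s) ≤ M s ^ 2) (hM0 : ∀ s, 1 ≤ M0 s)
    (hu : ∀ s, S.N (u s) ≤ M0 s) (hv : ∀ s, S.N (v s) ≤ M0 s ^ 2) (hr : 0 ≤ r)
    (hβ : E na c * r < 1 → ∀ s, ∃ β : R, x s * β = 1 ∧ S.N β ≤ r ^ 2 ∧ S.N (y s * β ^ 2) ≤ r)
    (h : (Bool → T) → R) {H : ℝ} (hH : 0 ≤ H) (hh : ∀ τ, S.N (h τ) ≤ H)
    (hJ : ∀ n : Bool → Fin k, ∑ τ, h τ * ∏ s, ∑ ν,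
      ((∑ μ, q s (τ s) ν μ * jet (a s) (b s) k w μ (n s) : ℤ) : R) * mon (u s) (v s) ν = 0) :
    S.N (∑ τ, h τ * ∏ s, ∑ ν, ∑ μ, (q s (τ s) ν μ : R) * mon (u s) (v s) ν * mon (x s) (y s) μ) ≤
      E na (3 * Fintype.card (Bool → MM w) * Fintype.card (Bool → T) * A ^ 2 * c ^ k) *
        (∏ s, M0 s) ^ D * ((∏ s, M s) ^ w * r ^ k) * H := by
  classical
  have hP : 0 ≤ ∏ s, M s := prod_nonneg fun s _ => zero_le_one.trans (hM s)
  have hP0 : 0 ≤ ∏ s, M0 s := prod_nonneg fun s _ => zero_le_one.trans (hM0 s)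
  have hEA : 0 ≤ E na A := E_nonneg (zero_le_one.trans hA1)
  set ρ : Bool → T → MM w → R := fun s t μ => ∑ ν, (q s t ν μ : R) * mon (u s) (v s) ν with hρ
  set g : (Bool → MM w) → R := fun μ => ∑ τ, h τ * ∏ s, ρ s (τ s) (μ s) with hg
  have hρn : ∀ s t μ, S.N (ρ s t μ) ≤ E na A * M0 s ^ D := fun s t μ => by
    have h0 : 0 ≤ M0 s ^ D := pow_nonneg (zero_le_one.trans (hM0 s)) _
    refine (S.int_sum_le univ _ h0 fun ν _ hν =>
      p1aux_mon S (hM0 s) (hu s) (hv s) (hq s t ν μ hν).1).trans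
      (mul_le_mul_of_nonneg_right (E_mono (le_trans (sum_le_sum fun ν _ => ?_) (hA s t))) h0)
    exact single_le_sum (f := fun μ => |(q s t ν μ : ℝ)|) (fun _ _ => abs_nonneg _) (mem_univ μ)
  obtain ⟨H', hH'⟩ : ∃ H', H' =
    E na (Fintype.card (Bool → T)) * (H * (E na A ^ 2 * (∏ s, M0 s) ^ D)) := ⟨_, rfl⟩
  have hH0 : 0 ≤ H' := hH' ▸ mul_nonneg (E_nonneg (Nat.cast_nonneg _)) (by positivity)
  have hgn : ∀ μ, S.N (g μ) ≤ H' := fun μ => by
    rw [hH']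
    refine S.sum_le_card univ (by positivity) fun τ _ => S.mul_le (hh τ) ?_
    refine (S.prod_le univ fun s _ => hρn s (τ s) (μ s)).trans (le_of_eq ?_)
    rw [prod_mul_distrib, prod_const, prod_pow, card_univ, Fintype.card_bool]
  have hg0 : ∀ μ, g μ ≠ 0 → ∀ s, ((μ s).1 : ℕ) + 2 * (μ s).2 ≤ w := fun μ hμ s => by
    by_contra hn
    refine hμ (sum_eq_zero fun τ _ => mul_eq_zero_of_right _ (prod_eq_zero (mem_univ s) ?_))
    refine sum_eq_zero fun ν _ => ?_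
    rw [show q s (τ s) ν (μ s) = 0 from by_contra fun h0 => hn (hq _ _ _ _ h0).2, Int.cast_zero,
      zero_mul]
  have e1 : ∑ τ, h τ * ∏ s, ∑ ν, ∑ μ, (q s (τ s) ν μ : R) * mon (u s) (v s) ν * mon (x s) (y s) μ =
      ∑ μ, g μ * ∏ s, mon (x s) (y s) (μ s) := by
    rw [hg, ← p1aux_expand h ρ fun s μ => mon (x s) (y s) μ]
    refine sum_congr rfl fun τ _ => congrArg _ (prod_congr rfl fun s _ => ?_)
    rw [sum_comm]
    simp only [hρ, sum_mul]
  have key : S.N (∑ μ, g μ * ∏ s, mon (x s) (y s) (μ s)) ≤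
      (∏ s, M s) ^ w * (E na (3 * Fintype.card (Bool → MM w)) * H' * (E na c * r) ^ k) := by
    rcases lt_or_ge (E na c * r) 1 with h1 | h1
    · choose β hβ1 hβ2 hβ3 using hβ h1
      have e2 : ∑ μ, g μ * ∏ s, mon (x s) (y s) (μ s) = (∏ s, x s ^ w) * ∑ μ, g μ *
          ∏ s, (β s ^ (w - (μ s).1 - 2 * (μ s).2) * (y s * β s ^ 2) ^ ((μ s).2 : ℕ)) := by
        rw [mul_sum]
        refine sum_congr rfl fun μ _ => ?_
        by_cases h0 : g μ = 0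
        · simp [h0]
        · rw [mul_left_comm, ← prod_mul_distrib]
          exact congrArg _ (prod_congr rfl fun s _ => p1aux_mon_eq (hβ1 s) (hg0 μ h0 s))
      rw [e2, ← prod_pow]
      refine S.mul_le (S.prod_le univ fun s _ => S.pow_le (hx s) w)
        (hjet β _ r g H' hr h1.le (fun s => ?_) hβ2 hβ3 hH0 hgn fun n => ?_)
      · have h2 := hxy s
        have h3 := hβ1 s
        rw [fc] at h2
        linear_combination β s ^ 4 * h2 +
          (β s * (1 + x s * β s + (x s * β s) ^ 2) + a s * β s ^ 3) * h3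
      · rw [hg, ← p1aux_expand h ρ fun s μ => (jet (a s) (b s) k w μ (n s) : R), ← hJ n]
        refine sum_congr rfl fun τ _ => congrArg _ (prod_congr rfl fun s _ => ?_)
        simp only [hρ, sum_mul, Int.cast_sum, Int.cast_mul]
        rw [sum_comm]
        exact sum_congr rfl fun ν _ => sum_congr rfl fun μ _ => by ring
    · have h2 : S.N (∑ μ, g μ * ∏ s, mon (x s) (y s) (μ s)) ≤
          E na (univ : Finset (Bool → MM w)).card * (H' * (∏ s, M s) ^ w) := by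
        refine S.sum_le_card univ (by positivity) fun μ _ => ?_
        by_cases h0 : g μ = 0
        · rw [h0, zero_mul, S.zero]
          positivity
        · rw [← prod_pow]
          exact S.mul_le (hgn μ) (S.prod_le univ fun s _ =>
            p1aux_mon S (hM s) (hx s) (hy s) (hg0 μ h0 s))
      have h3 : E na (univ : Finset (Bool → MM w)).card ≤
          E na (3 * Fintype.card (Bool → MM w)) := E_mono (by
        rw [card_univ]
        linarith [(Nat.cast_nonneg (Fintype.card (Bool → MM w)) : (0 : ℝ) ≤ _)])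
      have h4 : 0 ≤ E na (3 * Fintype.card (Bool → MM w)) := E_nonneg (by positivity)
      calc _ ≤ E na (3 * Fintype.card (Bool → MM w)) * (H' * (∏ s, M s) ^ w) * 1 := by
            rw [mul_one]
            exact h2.trans (mul_le_mul_of_nonneg_right h3 (by positivity))
        _ ≤ E na (3 * Fintype.card (Bool → MM w)) * (H' * (∏ s, M s) ^ w) * (E na c * r) ^ k :=
            mul_le_mul_of_nonneg_left (one_le_pow₀ h1) (by positivity)
        _ = _ := by ring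
  rw [e1]
  refine key.trans (le_of_eq ?_)
  rw [hH', E_mul _ (c ^ k), E_mul _ (A ^ 2), E_mul _ (Fintype.card (Bool → T) : ℝ), E_pow, E_pow]
  ring

end Block

/-- Multiplication of a reduced monomial by a power of the first variable. -/
def p1aux_sh {d : ℕ} (z : Fin (d + 1)) (ν : MM (2 * d)) : MM (3 * d) :=
  (⟨ν.1 + z, by have := ν.1.2; have := z.2; omega⟩, ν.2)

lemma p1aux_shift {R : Type} [CommRing R] {d : ℕ} (z : Fin (d + 1)) (f : MM (2 * d) → ℤ) (u v : R) :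
    u ^ (z : ℕ) * ∑ ν, (f ν : R) * mon u v ν =
      ∑ ν', ((∑ ν, if p1aux_sh z ν = ν' then f ν else 0 : ℤ) : R) * mon u v ν' := by
  simp only [Int.cast_sum, sum_mul, Int.cast_ite, Int.cast_zero, ite_mul, zero_mul]
  rw [sum_comm, mul_sum]
  refine sum_congr rfl fun ν _ => ?_
  rw [sum_ite_eq, if_pos (mem_univ _)]
  simp only [mon, p1aux_sh, pow_add]
  ring

lemma p1aux_lin {a b n : ℕ} (hn : 1 ≤ n) (hb : 2 * a ≤ b) : a * n ≤ b ^ n := by
  refine le_trans ?_ (Nat.pow_le_pow_left hb n)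
  rw [mul_pow, mul_comm]
  exact Nat.mul_le_mul Nat.lt_two_pow_self.le (Nat.le_self_pow (by omega) a)

lemma p1aux_cardT (d j : ℕ) :
    (Fintype.card (Bool → TT d j) : ℝ) ≤ ((8 * ((d : ℝ) + 1)) ^ 2) ^ 4 ^ j := by
  have h : Fintype.card (Bool → TT d j) ≤ ((8 * (d + 1)) ^ 2) ^ 4 ^ j := by
    rw [Fintype.card_fun, Fintype.card_bool, Fintype.card_prod, Fintype.card_fin, Fintype.card_fin,
      ← pow_mul, mul_comm 2, pow_mul]
    exact Nat.pow_le_pow_left (p1aux_lin (Nat.one_le_pow _ _ (by omega)) (by omega)) 2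
  exact_mod_cast h

lemma p1aux_cardM (d j : ℕ) :
    (Fintype.card (Bool → MM ((2 * d + 1) * 4 ^ j)) : ℝ) ≤ ((8 * ((d : ℝ) + 1)) ^ 2) ^ 4 ^ j := by
  have h : Fintype.card (Bool → MM ((2 * d + 1) * 4 ^ j)) ≤ ((8 * (d + 1)) ^ 2) ^ 4 ^ j := by
    have h1 : 1 ≤ 4 ^ j := Nat.one_le_pow _ _ (by omega)
    rw [Fintype.card_fun, Fintype.card_bool, Fintype.card_prod, Fintype.card_fin, Fintype.card_fin,
      ← pow_mul, mul_comm 2 (4 ^ j), pow_mul]
    refine Nat.pow_le_pow_left (le_trans ?_ (p1aux_lin (a := 4 * (d + 1)) h1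
      (by omega))) 2
    nlinarith
  exact_mod_cast h

lemma p1aux_count {m d t : ℕ} (hd : 1152 * m * t ^ 2 ≤ (d + 1) ^ 2) (j : ℕ) :
    2 * m * Fintype.card ((Bool → Bool) × (Bool → Fin (2 * t * 4 ^ j)) × (Bool → MM (3 * d))) ≤
      Fintype.card (Bool → Fin (d + 1)) * Fintype.card (Bool → TT d j) := by
  simp only [Fintype.card_fun, Fintype.card_bool, Fintype.card_prod, Fintype.card_fin]
  have h1 : ((3 * d + 1) * 2) ^ 2 ≤ (6 * (d + 1)) ^ 2 := Nat.pow_le_pow_left (by omega) 2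
  calc _ ≤ 2 * m * (2 ^ 2 * ((2 * t * 4 ^ j) ^ 2 * (6 * (d + 1)) ^ 2)) := by gcongr
    _ = 1152 * m * t ^ 2 * ((d + 1) * 4 ^ j) ^ 2 := by ring
    _ ≤ _ := Nat.mul_le_mul_right _ hd

theorem exists_aux (a b : Bool → ℤ) {m d t : ℕ} (hm : 0 < m)
    (hd : 1152 * m * t ^ 2 ≤ (d + 1) ^ 2) : ∃ C c₀ : ℝ, 1 ≤ C ∧ 1 ≤ c₀ ∧ ∀ j : Fin m → ℕ,
    ∃ c : (Bool → Fin (d + 1)) → (∀ i, Bool → TT d (j i)) → ℤ, c ≠ 0 ∧
      (∀ z τ, |(c z τ : ℝ)| ≤ C ^ (∑ i, 4 ^ j i)) ∧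
      ∀ (R : Type) [CommRing R] (na : Prop) (S : SN R na) (x y : VV m → R) (M : VV m → ℝ)
        (r : Fin m → ℝ) (l : Fin m → Bool → Bool),
        (∀ p, y p ^ 2 = fc (a p.2 : R) (b p.2) (x p)) → (∀ p, 1 ≤ M p) →
        (∀ p, S.N (x p) ≤ M p) → (∀ p, S.N (y p) ≤ M p ^ 2) → (∀ i, 0 ≤ r i) →
        (∀ i, E na c₀ * r i < 1 → ∀ s, ∃ β : R, x (some i, s) * β = 1 ∧ S.N β ≤ r i ^ 2 ∧
          S.N (y (some i, s) * β ^ 2) ≤ r i) →
        S.N (GG a b d j c l x y) ≤ E na (C ^ (∑ i, 4 ^ j i)) *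
          (∏ s, M (none, s)) ^ ((2 * m + 1) * d) *
          ∏ i, ((∏ s, M (some i, s)) ^ ((2 * d + 1) * 4 ^ j i) * r i ^ (2 * t * 4 ^ j i)) := by
  classical
  obtain ⟨c₀, hc₀, hj1, hj2⟩ := exists_jet a b
  choose Cs hCs q hq1 hq2 hq3 using fun s => exists_arr (a s) (b s) d
  obtain ⟨C1, hC1, hq2'⟩ : ∃ C1 : ℝ, 1 ≤ C1 ∧ ∀ s j l τ,
      ∑ ν, ∑ μ, |(q s j l τ ν μ : ℝ)| ≤ C1 ^ 4 ^ j := by
    refine ⟨max (Cs false) (Cs true), le_max_of_le_left (hCs _), fun s j l τ => (hq2 s j l τ).trans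
      (pow_le_pow_left₀ (zero_le_one.trans (hCs s)) ?_ _)⟩
    cases s
    exacts [le_max_left _ _, le_max_right _ _]
  obtain ⟨Q, hQ⟩ : ∃ Q : ℝ, Q = (8 * ((d : ℝ) + 1)) ^ 2 := ⟨_, rfl⟩
  have hd0 : (0 : ℝ) ≤ d := Nat.cast_nonneg d
  have hZ : (Fintype.card (Bool → Fin (d + 1)) : ℝ) ≤ Q := by
    rw [hQ, Fintype.card_fun, Fintype.card_bool, Fintype.card_fin]
    push_cast
    nlinarith
  have hQ1 : 1 ≤ Q := by
    rw [hQ]
    nlinarith
  obtain ⟨A, hA⟩ : ∃ A : ℝ, A = (C1 * c₀ ^ (2 * t)) ^ 2 := ⟨_, rfl⟩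
  have hct : 1 ≤ c₀ ^ (2 * t) := one_le_pow₀ hc₀
  have hA1 : 1 ≤ A := hA ▸ one_le_pow₀ (one_le_mul_of_one_le_of_one_le hC1 hct)
  obtain ⟨B, hB⟩ : ∃ B : ℝ, B = 3 * Q * Q * A := ⟨_, rfl⟩
  have hQA : 1 ≤ Q * A := one_le_mul_of_one_le_of_one_le hQ1 hA1
  have hQB : Q ≤ B := by nlinarith
  have hB1 : 1 ≤ B := hQ1.trans hQB
  refine ⟨B ^ 3, c₀, one_le_pow₀ hB1, hc₀, fun j => ?_⟩
  obtain ⟨σ, hσ⟩ : ∃ σ, σ = ∑ i, 4 ^ j i := ⟨_, rfl⟩
  have hσi : ∀ i, 4 ^ j i ≤ σ := fun i =>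
    hσ ▸ single_le_sum (f := fun i => 4 ^ j i) (fun _ _ => Nat.zero_le _) (mem_univ i)
  have hσ0 : σ ≠ 0 := by
    have := hσi ⟨0, hm⟩
    have := Nat.one_le_pow (j ⟨0, hm⟩) 4 (by omega)
    omega
  obtain ⟨lam, hlam⟩ : ∃ lam : ∀ i, Bool → Bool → TT d (j i) → ℕ → MM (2 * d) → ℤ,
      ∀ i s l τ n ν, lam i s l τ n ν = ∑ μ, q s (j i) l τ ν μ *
        jet (a s) (b s) (2 * t * 4 ^ j i) ((2 * d + 1) * 4 ^ j i) μ n := ⟨_, fun _ _ _ _ _ _ => rfl⟩
  have hΛ : ∀ i s l τ (n : Fin (2 * t * 4 ^ j i)) (z : Fin (d + 1)) ν',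
      |((∑ ν, if p1aux_sh z ν = ν' then lam i s l τ n ν else 0 : ℤ) : ℝ)| ≤
        (C1 * c₀ ^ (2 * t)) ^ σ := by
    intro i s l τ n z ν'
    calc _ ≤ ∑ ν, ∑ μ, |(q s (j i) l τ ν μ : ℝ)| * c₀ ^ (2 * t * 4 ^ j i) := by
          rw [Int.cast_sum]
          refine (abs_sum_le_sum_abs _ _).trans (sum_le_sum fun ν _ => ?_)
          split_ifs
          · rw [hlam, Int.cast_sum]
            refine (abs_sum_le_sum_abs _ _).trans (sum_le_sum fun μ _ => ?_)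
            rw [Int.cast_mul, abs_mul]
            exact mul_le_mul_of_nonneg_left ((hj1 _ _ _ _ _).trans
              (pow_le_pow_right₀ hc₀ n.2.le)) (abs_nonneg _)
          · rw [Int.cast_zero, abs_zero]
            positivity
      _ ≤ C1 ^ 4 ^ j i * c₀ ^ (2 * t * 4 ^ j i) := by
          simp only [← sum_mul]
          exact mul_le_mul_of_nonneg_right (hq2' _ _ _ _) (by positivity)
      _ ≤ _ := by
          rw [pow_mul, ← mul_pow]
          exact pow_le_pow_right₀ (one_le_mul_of_one_le_of_one_le hC1 hct) (hσi i)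
  obtain ⟨c, hc0, hc1, hc2⟩ := exists_slices (Z := Bool → Fin (d + 1))
    (T := fun i => Bool → TT d (j i))
    (L := fun i => (Bool → Bool) × (Bool → Fin (2 * t * 4 ^ j i)) × (Bool → MM (3 * d)))
    (fun i n z τ => ∏ s, ∑ ν, if p1aux_sh (z s) ν = n.2.2 s then
      lam i s (n.1 s) (τ s) (n.2.1 s) ν else 0) (A ^ σ) (one_le_pow₀ hA1)
    (fun i n z τ => by
      rw [Int.cast_prod, abs_prod, hA, ← pow_mul, mul_comm 2 σ, pow_mul, Fintype.prod_bool, sq]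
      exact mul_le_mul (hΛ _ _ _ _ _ _ _) (hΛ _ _ _ _ _ _ _) (abs_nonneg _) (by positivity))
    fun i => p1aux_count hd (j i)
  have hc3 : ∀ z τ, |(c z τ : ℝ)| ≤ B ^ σ := fun z τ => by
    have h1 : ∏ i, (Fintype.card (Bool → TT d (j i)) : ℝ) ≤ Q ^ σ := by
      rw [hσ, ← prod_pow_eq_pow_sum, hQ]
      exact prod_le_prod (fun _ _ => Nat.cast_nonneg _) fun i _ => p1aux_cardT d (j i)
    have h2 : (Fintype.card (Bool → Fin (d + 1)) : ℝ) ≤ (3 * Q) ^ σ :=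
      hZ.trans (le_trans (by linarith) (le_self_pow₀ (by linarith) hσ0))
    refine (hc1 z τ).trans ?_
    rw [hB, mul_pow, mul_pow]
    gcongr
  have hBσ : 1 ≤ B ^ σ := one_le_pow₀ hB1
  rw [← hσ]
  refine ⟨c, hc0, fun z τ => (hc3 z τ).trans
    (pow_le_pow_left₀ (by linarith) (le_self_pow₀ hB1 (by omega)) _), ?_⟩
  intro R _ na S x y M r l hxy hM hx hy hr hβ
  have hP : ∀ o, 0 ≤ ∏ s, M (o, s) := fun o => prod_nonneg fun s _ => zero_le_one.trans (hM _)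
  have hG : ∀ i, 3 * Fintype.card (Bool → MM ((2 * d + 1) * 4 ^ j i)) *
      Fintype.card (Bool → TT d (j i)) * (C1 ^ 4 ^ j i) ^ 2 * c₀ ^ (2 * t * 4 ^ j i) ≤
        B ^ 4 ^ j i := fun i => by
    have h1 := p1aux_cardT d (j i)
    have h2 := p1aux_cardM d (j i)
    rw [← hQ] at h1 h2
    have h3 : (3 : ℝ) ≤ 3 ^ 4 ^ j i := le_self_pow₀ (by norm_num) (by positivity)
    have h4 : c₀ ^ (2 * t * 4 ^ j i) ≤ (c₀ ^ (2 * t * 4 ^ j i)) ^ 2 :=
      le_self_pow₀ (one_le_pow₀ hc₀) two_ne_zero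
    calc _ ≤ 3 ^ 4 ^ j i * Q ^ 4 ^ j i * Q ^ 4 ^ j i * (C1 ^ 4 ^ j i) ^ 2 *
          (c₀ ^ (2 * t * 4 ^ j i)) ^ 2 := by gcongr
      _ = _ := by
        rw [hB, hA, pow_mul c₀ (2 * t), mul_assoc _ ((C1 ^ 4 ^ j i) ^ 2), ← mul_pow (C1 ^ 4 ^ j i),
          ← mul_pow C1, ← pow_mul _ _ 2, mul_comm _ 2, pow_mul _ 2, ← mul_pow, ← mul_pow, ← mul_pow]
  have main := S.multi
    (fun i (τ : Bool → TT d (j i)) => ∏ s, arm (a s : R) (b s : R) d (j i) (x (some i, s))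
      (y (some i, s)) (x (none, s)) (y (none, s)) (l i s) (τ s))
    (fun i (n : Bool → Fin (2 * t * 4 ^ j i)) (τ : Bool → TT d (j i)) => ∏ s, ∑ ν,
      (lam i s (l i s) (τ s) (n s) ν : R) * mon (x (none, s)) (y (none, s)) ν)
    (fun i => E na (B ^ 4 ^ j i) * (∏ s, M (none, s)) ^ (2 * d) *
      ((∏ s, M (some i, s)) ^ ((2 * d + 1) * 4 ^ j i) * r i ^ (2 * t * 4 ^ j i)))
    (fun i => by
      have := hP none
      have := hP (some i)
      have := hr i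
      have : 0 ≤ E na (B ^ 4 ^ j i) := E_nonneg (by positivity)
      positivity)
    (fun i h H hH hh hJ => by
      have := hP none
      have := hP (some i)
      have := hr i
      simp only [hlam] at hJ
      have e : ∀ s τ, arm (a s : R) (b s : R) d (j i) (x (some i, s)) (y (some i, s))
          (x (none, s)) (y (none, s)) (l i s) τ = _ := fun s τ =>
        hq3 s (j i) (l i s) τ R _ _ _ _ (hxy (some i, s)) (hxy (none, s))
      simp only [e]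
      refine (p1aux_block S (fun β z r => hj2 R na S β z r _ _)
        (fun s τ => q s (j i) (l i s) τ) (fun s τ => hq1 s _ _ τ) (fun s τ => hq2' s _ _ τ)
        (one_le_pow₀ hC1) _ _ _ _ (fun s => M (some i, s)) (fun s => M (none, s))
        (fun s => hxy (some i, s)) (fun _ => hM _) (fun _ => hx _) (fun _ => hy _) (fun _ => hM _)
        (fun _ => hx _) (fun _ => hy _) (hr i) (hβ i) h hH hh hJ).trans ?_
      have := E_mono (na := na) (hG i)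
      gcongr)
    (fun τ => ∑ z, (c z τ : R) * ∏ s, x (none, s) ^ (z s : ℕ))
    (E na (B ^ σ * B ^ σ) * (∏ s, M (none, s)) ^ d)
    (mul_nonneg (E_nonneg (by positivity)) (pow_nonneg (hP none) _))
    (fun τ => by
      have h0 := pow_nonneg (hP none) d
      refine (S.int_sum_le univ _ h0 fun z _ _ => ?_).trans
        (mul_le_mul_of_nonneg_right (E_mono ?_) h0)
      · rw [← prod_pow]
        exact S.prod_le univ fun s _ => (S.pow_le (hx _) _).trans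
          (pow_le_pow_right₀ (hM _) (Nat.le_of_lt_succ (z s).2))
      · refine (sum_le_card_nsmul _ _ _ fun z _ => hc3 z τ).trans ?_
        rw [nsmul_eq_mul, card_univ]
        exact mul_le_mul_of_nonneg_right (hZ.trans (hQB.trans (le_self_pow₀ hB1 hσ0)))
          (by positivity))
    (fun i n τ => by
      have e : ∀ τ' : Bool → TT d (j i), ∀ z : Bool → Fin (d + 1),
          (∏ s, x (none, s) ^ (z s : ℕ)) * ∏ s, ∑ ν, (lam i s (l i s) (τ' s) (n s) ν : R) *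
            mon (x (none, s)) (y (none, s)) ν = ∑ ν' : Bool → MM (3 * d),
            ((∏ s, ∑ ν, if p1aux_sh (z s) ν = ν' s then lam i s (l i s) (τ' s) (n s) ν else 0 : ℤ) :
              R) * ∏ s, mon (x (none, s)) (y (none, s)) (ν' s) := fun τ' z => by
        rw [← prod_mul_distrib]
        simp only [p1aux_shift]
        rw [Finset.prod_univ_sum, Fintype.piFinset_univ]
        simp only [prod_mul_distrib, Int.cast_prod]
      simp only [sum_mul, mul_assoc, e, mul_sum]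
      rw [sum_comm]
      simp only [sum_comm (s := (univ : Finset (Bool → TT d (j i))))]
      rw [sum_comm]
      refine sum_eq_zero fun ν' _ => ?_
      have := congrArg (fun n : ℤ => (n : R) * ∏ s, mon (x (none, s)) (y (none, s)) (ν' s))
        (hc2 i (l i, n, ν') τ)
      simpa only [Int.cast_sum, Int.cast_mul, sum_mul, mul_assoc, Int.cast_zero, zero_mul]
        using this)
  refine main.trans (le_of_eq ?_)
  rw [prod_mul_distrib, prod_mul_distrib, ← E_prod, prod_pow_eq_pow_sum, ← hσ, prod_const, card_univ,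
    Fintype.card_fin, ← pow_mul B, mul_comm 3 σ, pow_mul B, E_pow (B ^ σ), E_mul]
  ring

end Pool.Agent.Lib.MP_651af7_nt.Vj.P1
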