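import Pool.Agent.Lib.MP_651af7_nt.VjIface

/-! Definitions for the auxiliary construction on `(E × E') ^ (m + 1)`. -/

namespace Pool.Agent.Lib.MP_651af7_nt.Vj.P1

open Finset

open Classical in
/-- `1` at a non-archimedean place, `t` otherwise. -/
noncomputable def E (na : Prop) (t : ℝ) : ℝ := if na then 1 else t

/-- A submultiplicative seminorm, ultrametric if `na` holds. -/
structure SN (R : Type) [CommRing R] (na : Prop) where
  /-- the seminorm -/
  N : R → ℝ
  nonneg : ∀ f, 0 ≤ N f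
  zero : N 0 = 0
  one : N 1 ≤ 1
  neg : ∀ f, N (-f) = N f
  mul : ∀ f g, N (f * g) ≤ N f * N g
  add : ∀ f g, N (f + g) ≤ N f + N g
  add_na : na → ∀ f g, N (f + g) ≤ max (N f) (N g)

section E

variable {na : Prop}

lemma E_pos_case (h : na) (t : ℝ) : E na t = 1 := if_pos h

lemma E_neg_case (h : ¬na) (t : ℝ) : E na t = t := if_neg h

lemma E_one : E na 1 = 1 := by unfold E; split_ifs <;> rfl

lemma E_mul (s t : ℝ) : E na (s * t) = E na s * E na t := by unfold E; split_ifs <;> simp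

lemma E_pow (t : ℝ) (n : ℕ) : E na (t ^ n) = E na t ^ n := by unfold E; split_ifs <;> simp

lemma E_prod {ι : Type*} (s : Finset ι) (t : ι → ℝ) :
    E na (∏ i ∈ s, t i) = ∏ i ∈ s, E na (t i) := by unfold E; split_ifs <;> simp

lemma E_nonneg {t : ℝ} (h : 0 ≤ t) : 0 ≤ E na t := by unfold E; split_ifs <;> simp [h]

lemma E_pos {t : ℝ} (h : 0 < t) : 0 < E na t := by unfold E; split_ifs <;> simp [h]

lemma one_le_E {t : ℝ} (h : 1 ≤ t) : 1 ≤ E na t := by unfold E; split_ifs <;> simp [h]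

lemma E_le_self {t : ℝ} (h : 1 ≤ t) : E na t ≤ t := by unfold E; split_ifs <;> simp [h]

lemma E_mono {s t : ℝ} (h : s ≤ t) : E na s ≤ E na t := by unfold E; split_ifs <;> simp [h]

end E

namespace SN

variable {R : Type} [CommRing R] {na : Prop} (S : SN R na)

lemma mul_le {f g : R} {s t : ℝ} (hf : S.N f ≤ s) (hg : S.N g ≤ t) : S.N (f * g) ≤ s * t :=
  (S.mul f g).trans (mul_le_mul hf hg (S.nonneg _) ((S.nonneg _).trans hf))

lemma pow_le {f : R} {s : ℝ} (hf : S.N f ≤ s) (n : ℕ) : S.N (f ^ n) ≤ s ^ n := by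
  induction n with
  | zero => simpa using S.one
  | succ n ih => rw [pow_succ, pow_succ]; exact S.mul_le ih hf

lemma prod_le {ι : Type*} (s : Finset ι) {f : ι → R} {t : ι → ℝ} (h : ∀ i ∈ s, S.N (f i) ≤ t i) :
    S.N (∏ i ∈ s, f i) ≤ ∏ i ∈ s, t i := by
  classical
  induction s using Finset.induction_on with
  | empty => simpa using S.one
  | insert i s hi ih =>
    rw [prod_insert hi, prod_insert hi]
    exact S.mul_le (h i (mem_insert_self _ _)) (ih fun k hk => h k (mem_insert_of_mem hk))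

lemma add_le {f g : R} {s t M : ℝ} (hf : S.N f ≤ E na s * M) (hg : S.N g ≤ E na t * M) :
    S.N (f + g) ≤ E na (s + t) * M := by
  by_cases h : na
  · simp only [E_pos_case h, one_mul] at *
    exact (S.add_na h f g).trans (max_le hf hg)
  · simp only [E_neg_case h] at *
    linarith [S.add f g]

lemma sub_le {f g : R} {s t M : ℝ} (hf : S.N f ≤ E na s * M) (hg : S.N g ≤ E na t * M) :
    S.N (f - g) ≤ E na (s + t) * M := by
  rw [sub_eq_add_neg]
  exact S.add_le hf (by rwa [S.neg])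

lemma sum_le {ι : Type*} (s : Finset ι) {f : ι → R} {t : ι → ℝ} {M : ℝ} (hM : 0 ≤ M)
    (h : ∀ i ∈ s, S.N (f i) ≤ E na (t i) * M) :
    S.N (∑ i ∈ s, f i) ≤ E na (∑ i ∈ s, t i) * M := by
  classical
  induction s using Finset.induction_on with
  | empty => simpa [S.zero] using mul_nonneg (E_nonneg le_rfl) hM
  | insert i s hi ih =>
    rw [sum_insert hi, sum_insert hi]
    exact S.add_le (h i (mem_insert_self _ _)) (ih fun k hk => h k (mem_insert_of_mem hk))

lemma sum_le_card {ι : Type*} (s : Finset ι) {f : ι → R} {M : ℝ} (hM : 0 ≤ M)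
    (h : ∀ i ∈ s, S.N (f i) ≤ M) : S.N (∑ i ∈ s, f i) ≤ E na s.card * M := by
  have := S.sum_le s (t := fun _ => 1) hM (fun i hi => by simpa [E_one] using h i hi)
  simpa using this

lemma natCast_le (n : ℕ) : S.N (n : R) ≤ E na n := by
  have := S.sum_le_card (range n) (f := fun _ => 1) zero_le_one fun _ _ => S.one
  simpa using this

lemma intCast_le (n : ℤ) : S.N (n : R) ≤ E na |(n : ℝ)| := by
  obtain ⟨k, rfl | rfl⟩ := n.eq_nat_or_neg
  · simpa using S.natCast_le k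
  · simpa [S.neg] using S.natCast_le k

lemma int_mul_le (n : ℤ) {f : R} {M : ℝ} (hf : S.N f ≤ M) :
    S.N ((n : R) * f) ≤ E na |(n : ℝ)| * M := S.mul_le (S.intCast_le n) hf

/-- Integer combinations. -/
lemma int_sum_le {ι : Type*} (s : Finset ι) (n : ι → ℤ) {f : ι → R} {M : ℝ} (hM : 0 ≤ M)
    (h : ∀ i ∈ s, n i ≠ 0 → S.N (f i) ≤ M) :
    S.N (∑ i ∈ s, (n i : R) * f i) ≤ E na (∑ i ∈ s, |(n i : ℝ)|) * M := by
  refine S.sum_le s hM fun i hi => ?_
  by_cases h0 : n i = 0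
  · simpa [h0, S.zero] using mul_nonneg (E_nonneg le_rfl) hM
  · exact S.int_mul_le _ (h i hi h0)

end SN

section univ

variable {R : Type} [CommRing R]

/-- The cubic. -/
def fc (a b x : R) : R := x ^ 3 + a * x + b

/-- One doubling step on `(A, B, T)`, which stands for the point `(A / B, y T / B ^ 2)`. -/
def dstep (a b : R) (p : R × R × R) : R × R × R :=
  (p.1 ^ 4 - 2 * a * p.1 ^ 2 * p.2.1 ^ 2 - 8 * b * p.1 * p.2.1 ^ 3 + a ^ 2 * p.2.1 ^ 4,
    4 * p.2.1 * (p.1 ^ 3 + a * p.1 * p.2.1 ^ 2 + b * p.2.1 ^ 3),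
    2 * p.2.2 * (p.1 ^ 6 + 5 * a * p.1 ^ 4 * p.2.1 ^ 2 + 20 * b * p.1 ^ 3 * p.2.1 ^ 3
      - 5 * a ^ 2 * p.1 ^ 2 * p.2.1 ^ 4 - 4 * a * b * p.1 * p.2.1 ^ 5
      - (8 * b ^ 2 + a ^ 3) * p.2.1 ^ 6))

/-- `2 ^ j • (x, y) = (A / B, y T / B ^ 2)` for `(A, B, T) = dbl a b x j`. -/
def dbl (a b x : R) : ℕ → R × R × R
  | 0 => (x, 1, 1)
  | j + 1 => dstep a b (dbl a b x j)

/-- Numerator and denominator of the first coordinate of `S - (u, w)`, where `p` stands for `S`;
two presentations, which differ by the factor `x (S + (u, w))`. -/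
def lawp (a b : R) (p : R × R × R) (y u w : R) : Bool → R × R
  | false => ((p.1 + u * p.2.1) * (p.1 * u + a * p.2.1) + 2 * b * p.2.1 ^ 2 + 2 * p.2.2 * y * w,
      (p.1 - u * p.2.1) ^ 2)
  | true => ((p.1 * u - a * p.2.1) ^ 2 - 4 * b * (p.1 + u * p.2.1) * p.2.1,
      (p.1 + u * p.2.1) * (p.1 * u + a * p.2.1) + 2 * b * p.2.1 ^ 2 - 2 * p.2.2 * y * w)

/-- The two presentations of the first coordinate of `2 ^ j • (x, y) - (u, w)`. -/
def law (a b : R) (j : ℕ) (x y u w : R) (l : Bool) : R × R := lawp a b (dbl a b x j) y u w l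

/-- Index set of one arm. -/
abbrev TT (d j : ℕ) : Type := Fin (d + 1) × Fin (4 ^ j)

/-- Index set of reduced monomials. -/
abbrev MM (w : ℕ) : Type := Fin (w + 1) × Fin 2

/-- The variables: `none` is the centre, the second component is the curve. -/
abbrev VV (m : ℕ) : Type := Option (Fin m) × Bool

/-- A reduced monomial. -/
def mon {w : ℕ} (x y : R) (μ : MM w) : R := x ^ (μ.1 : ℕ) * y ^ (μ.2 : ℕ)

/-- One factor of a basic section. -/
def arm (a b : R) (d j : ℕ) (x y u w : R) (l : Bool) (t : TT d j) : R :=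
  (law a b j x y u w l).1 ^ (t.1 : ℕ) * (law a b j x y u w l).2 ^ (d - t.1) * x ^ (t.2 : ℕ)

/-- The auxiliary section in the presentation `l`. -/
def GG {m : ℕ} (a b : Bool → ℤ) (d : ℕ) (j : Fin m → ℕ)
    (c : (Bool → Fin (d + 1)) → (∀ i, Bool → TT d (j i)) → ℤ) (l : Fin m → Bool → Bool)
    (x y : VV m → R) : R :=
  ∑ τ : ∀ i, Bool → TT d (j i), (∑ z, (c z τ : R) * ∏ s, x (none, s) ^ (z s : ℕ)) *
    ∏ i, ∏ s, arm (a s : R) (b s : R) d (j i) (x (some i, s)) (y (some i, s)) (x (none, s))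
      (y (none, s)) (l i s) (τ i s)

/-- Approximations of `1 / x` in the parameter `z = y / x ^ 2` at the origin. -/
def bk (a b z : R) : ℕ → R
  | 0 => 0
  | k + 1 => z ^ 2 - a * bk a b z k ^ 3 - b * bk a b z k ^ 4

/-- The jet of order `n` at the origin of a monomial of weight at most `w`. -/
noncomputable def jet (a b : ℤ) (k w : ℕ) (μ : MM w) (n : ℕ) : ℤ :=
  (bk (a : Polynomial ℤ) (b : Polynomial ℤ) Polynomial.X k ^ (w - μ.1 - 2 * μ.2) *
    Polynomial.X ^ (μ.2 : ℕ)).coeff n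

variable {R' : Type} [CommRing R'] (φ : R →+* R')

lemma map_fc (a b x : R) : φ (fc a b x) = fc (φ a) (φ b) (φ x) := by simp [fc]

lemma map_dbl (a b x : R) (j : ℕ) : dbl (φ a) (φ b) (φ x) j =
    (φ (dbl a b x j).1, φ (dbl a b x j).2.1, φ (dbl a b x j).2.2) := by
  induction j with
  | zero => simp [dbl]
  | succ j ih => simp [dbl, ih, dstep, map_ofNat]

lemma map_law (a b : R) (j : ℕ) (x y u w : R) (l : Bool) :
    law (φ a) (φ b) j (φ x) (φ y) (φ u) (φ w) l =
      (φ (law a b j x y u w l).1, φ (law a b j x y u w l).2) := by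
  cases l <;> simp [law, lawp, map_dbl, map_ofNat]

lemma map_arm (a b : R) (d j : ℕ) (x y u w : R) (l : Bool) (t : TT d j) :
    φ (arm a b d j x y u w l t) = arm (φ a) (φ b) d j (φ x) (φ y) (φ u) (φ w) l t := by
  simp [arm, map_law]

lemma map_GG {m : ℕ} (a b : Bool → ℤ) (d : ℕ) (j : Fin m → ℕ)
    (c : (Bool → Fin (d + 1)) → (∀ i, Bool → TT d (j i)) → ℤ) (l : Fin m → Bool → Bool)
    (x y : VV m → R) :
    φ (GG a b d j c l x y) = GG a b d j c l (fun p => φ (x p)) (fun p => φ (y p)) := by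
  simp [GG, map_arm]

lemma map_bk (a b z : R) (k : ℕ) : φ (bk a b z k) = bk (φ a) (φ b) (φ z) k := by
  induction k with
  | zero => simp [bk]
  | succ k ih => simp [bk, ih]

lemma dbl_sq {a b x y : R} (h : y ^ 2 = fc a b x) (j : ℕ) :
    (y * (dbl a b x j).2.2) ^ 2 = (dbl a b x j).2.1 * ((dbl a b x j).1 ^ 3
      + a * (dbl a b x j).1 * (dbl a b x j).2.1 ^ 2 + b * (dbl a b x j).2.1 ^ 3) := by
  induction j with
  | zero => simp [dbl, h, fc]
  | succ j ih =>
    simp only [dbl, dstep]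
    generalize (dbl a b x j).1 = A at *
    generalize (dbl a b x j).2.1 = B at *
    generalize (dbl a b x j).2.2 = T at *
    linear_combination (4 * (A ^ 6 + 5 * a * A ^ 4 * B ^ 2 + 20 * b * A ^ 3 * B ^ 3
      - 5 * a ^ 2 * A ^ 2 * B ^ 4 - 4 * a * b * A * B ^ 5 - (8 * b ^ 2 + a ^ 3) * B ^ 6) ^ 2) * ih

lemma law_mul {a b x y u w : R} (h : y ^ 2 = fc a b x) (h' : w ^ 2 = fc a b u) (j : ℕ) :
    (law a b j x y u w true).1 * (law a b j x y u w false).2 =
      (law a b j x y u w true).2 * (law a b j x y u w false).1 := by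
  have h1 := dbl_sq h j
  simp only [law, lawp, fc] at *
  generalize (dbl a b x j).1 = A at *
  generalize (dbl a b x j).2.1 = B at *
  generalize (dbl a b x j).2.2 = T at *
  linear_combination (4 * w ^ 2) * h1 + (4 * B * (A ^ 3 + a * A * B ^ 2 + b * B ^ 3)) * h'

end univ

end Pool.Agent.Lib.MP_651af7_nt.Vj.P1
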