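import Pool.Agent.Lib.MP_651af7_nt.Height

namespace Pool.Agent.Lib.MP_651af7_nt

open Module Polynomial NumberField

lemma norm_algebraMap_padic (p : ℕ) [Fact p.Prime] (r : ℚ) :
    ‖algebraMap ℚ (PadicAlgCl p) r‖ = ‖(r : ℚ_[p])‖ := by
  rw [← PadicAlgCl.norm_extends, eq_ratCast]
  exact congrArg norm (map_ratCast (algebraMap ℚ_[p] (PadicAlgCl p)) r).symm

lemma int_of_padic (r : ℚ)
    (h : ∀ (p : ℕ) [Fact p.Prime], ‖algebraMap ℚ (PadicAlgCl p) r‖ ≤ 1) : ∃ z : ℤ, r = z := by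
  by_cases hd : r.den = 1
  · exact ⟨r.num, (Rat.coe_int_num_of_den_eq_one hd).symm⟩
  exfalso
  obtain ⟨p, hp, hpd⟩ := Nat.exists_prime_and_dvd hd
  have : Fact p.Prime := ⟨hp⟩
  have h1 := h p
  rw [norm_algebraMap_padic] at h1
  have h2 : ‖((r.den : ℕ) : ℚ_[p])‖ < 1 := Padic.norm_natCast_lt_one_iff.mpr hpd
  have h3 : ¬ ‖((r.num : ℤ) : ℚ_[p])‖ < 1 := by
    rw [Padic.norm_intCast_lt_one_iff, Int.natCast_dvd]
    intro h4
    exact hp.one_lt.ne' (Nat.eq_one_of_dvd_coprimes r.reduced h4 hpd)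
  apply h3
  have h4 : ((r.num : ℤ) : ℚ_[p]) = (r : ℚ_[p]) * (r.den : ℕ) := by
    exact_mod_cast (Rat.mul_den_eq_num r).symm
  rw [h4, norm_mul]
  exact mul_lt_one_of_nonneg_of_lt_one_right h1 (norm_nonneg _) h2

lemma prod_formula (S : Finset Nat.Primes) (z : ℤ) (hz : z ≠ 0) :
    1 ≤ |(z : ℝ)| * ∏ p ∈ S, haveI : Fact (p : ℕ).Prime := ⟨p.2⟩;
      ‖algebraMap ℚ (PadicAlgCl p) z‖ := by
  have h1 : ∀ p ∈ S, (haveI : Fact (p : ℕ).Prime := ⟨p.2⟩; ‖algebraMap ℚ (PadicAlgCl p) z‖) =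
      (((p : ℕ) ^ padicValInt p z : ℕ) : ℝ)⁻¹ := by
    intro p _
    have : Fact (p : ℕ).Prime := ⟨p.2⟩
    rw [norm_algebraMap_padic, Padic.norm_eq_zpow_neg_valuation (by exact_mod_cast hz),
      Padic.valuation_ratCast, padicValRat.of_int, zpow_neg, zpow_natCast, Nat.cast_pow]
  rw [Finset.prod_congr rfl h1, Finset.prod_inv_distrib, ← Nat.cast_prod, ← div_eq_mul_inv,
    one_le_div (by
      exact Nat.cast_pos.mpr (Finset.prod_pos fun (p : Nat.Primes) _ => pow_pos p.2.pos _))]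
  have h2 : (∏ p ∈ S, (p : ℕ) ^ padicValInt p z) ∣ z.natAbs := by
    refine Finset.prod_dvd_of_isRelPrime ?_ fun p _ => ?_
    · intro p _ q _ hpq
      refine Nat.coprime_iff_isRelPrime.mp (Nat.Coprime.pow _ _ ?_)
      exact (Nat.coprime_primes p.2 q.2).mpr fun h => hpq (Subtype.ext h)
    · exact pow_padicValNat_dvd
  have h3 := Nat.le_of_dvd (Int.natAbs_pos.mpr hz) h2
  rw [← Int.cast_abs, ← Nat.cast_natAbs]
  exact_mod_cast h3

section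

variable {K : Type*} [Field K] [NumberField K]

lemma norm_res_le (E : Type*) [NormedField E] [Algebra ℚ E] [IsAlgClosed E] (y y' : K) (ν ν' : ℚ)
    (t : (K →ₐ[ℚ] E) → ℝ)
    (h : ∀ τ : K →ₐ[ℚ] E, ‖τ y - τ y'‖ ≤ t τ * (max 1 ‖τ y‖ * max 1 ‖τ y'‖)) :
    ‖algebraMap ℚ E (ν * ν' * Algebra.norm ℚ (y - y'))‖ ≤ (∏ τ, t τ) *
      ((‖algebraMap ℚ E ν‖ * ∏ τ : K →ₐ[ℚ] E, max 1 ‖τ y‖) *
        (‖algebraMap ℚ E ν'‖ * ∏ τ : K →ₐ[ℚ] E, max 1 ‖τ y'‖)) := by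
  rw [map_mul, map_mul, norm_mul, norm_mul, Algebra.norm_eq_prod_embeddings, norm_prod]
  have h1 : ∏ τ : K →ₐ[ℚ] E, ‖τ (y - y')‖ ≤
      ∏ τ : K →ₐ[ℚ] E, t τ * (max 1 ‖τ y‖ * max 1 ‖τ y'‖) :=
    Finset.prod_le_prod (fun _ _ => norm_nonneg _) fun τ _ => by rw [map_sub]; exact h τ
  rw [Finset.prod_mul_distrib, Finset.prod_mul_distrib] at h1
  calc _ ≤ ‖algebraMap ℚ E ν‖ * ‖algebraMap ℚ E ν'‖ * _ :=
        mul_le_mul_of_nonneg_left h1 (by positivity)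
    _ = _ := by ring

lemma gauss' (E : Type*) [NormedField E] [Algebra ℚ E] [IsAlgClosed E] [IsUltrametricDist E]
    (y : K) (hy : (minpoly ℚ y).natDegree = finrank ℚ K) (ν : ℚ) (hν : ν ≠ 0)
    (h : IntP (C ν * minpoly ℚ y)) :
    ‖algebraMap ℚ E ν‖ * ∏ τ : K →ₐ[ℚ] E, max 1 ‖τ y‖ ≤ 1 := by
  have := gauss (E := E) _ h (fun τ : K →ₐ[ℚ] E => τ y)
    (by rw [aroots_C_mul _ hν, aroots_eq_embeddings E y hy])
  rwa [leadingCoeff_mul, leadingCoeff_C, (minpoly.monic (IsIntegral.of_finite ℚ y)).leadingCoeff,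
    mul_one] at this

lemma res_int (y y' : K) (hy : (minpoly ℚ y).natDegree = finrank ℚ K)
    (hy' : (minpoly ℚ y').natDegree = finrank ℚ K) (ν ν' : ℚ) (hν : ν ≠ 0) (hν' : ν' ≠ 0)
    (h : IntP (C ν * minpoly ℚ y)) (h' : IntP (C ν' * minpoly ℚ y')) (hne : y ≠ y') :
    ∃ z : ℤ, z ≠ 0 ∧ ν * ν' * Algebra.norm ℚ (y - y') = z := by
  obtain ⟨z, hz⟩ := int_of_padic (ν * ν' * Algebra.norm ℚ (y - y')) (by
    intro p _
    refine (norm_res_le (PadicAlgCl p) y y' ν ν' (fun _ => 1) fun τ => ?_).trans ?_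
    · rw [one_mul, sub_eq_add_neg]
      refine (IsUltrametricDist.norm_add_le_max _ _).trans ?_
      rw [norm_neg]
      have a1 := le_max_left 1 ‖τ y‖
      have a2 := le_max_right 1 ‖τ y‖
      have b1 := le_max_left 1 ‖τ y'‖
      have b2 := le_max_right 1 ‖τ y'‖
      refine max_le ?_ ?_ <;> nlinarith
    · rw [Finset.prod_const_one, one_mul]
      exact mul_le_one₀ (gauss' _ y hy ν hν h) (by positivity) (gauss' _ y' hy' ν' hν' h'))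
  refine ⟨z, fun h0 => ?_, hz⟩
  rw [h0, Int.cast_zero] at hz
  exact mul_ne_zero (mul_ne_zero hν hν')
    (Algebra.norm_ne_zero_iff.mpr (sub_ne_zero.mpr hne)) hz

end

end Pool.Agent.Lib.MP_651af7_nt
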