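import Pool.Agent.Lib.MP_651af7_nt.Count

namespace Pool.Agent.Lib.MP_651af7_nt

open Module Polynomial NumberField MeasureTheory
open scoped ENNReal NNReal Pointwise

lemma multi_blichfeldt {G α : Type*} [AddGroup G] [Countable G] [AddAction G α]
    [MeasurableSpace α] {μ : Measure α} [MeasurableConstVAdd G α] [VAddInvariantMeasure G α μ]
    {F : Set α} (hF : IsAddFundamentalDomain G F μ) {s : Set α} (hs : MeasurableSet s) (m : ℕ)
    (h : ∀ x, ∀ A : Finset G, (∀ g ∈ A, x ∈ g +ᵥ s) → A.card ≤ m) : μ s ≤ m * μ F := by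
  classical
  rw [hF.measure_eq_tsum s]
  have h1 : ∀ g : G, μ ((g +ᵥ s) ∩ F) = ∫⁻ x in F, (g +ᵥ s).indicator 1 x ∂μ := by
    intro g
    rw [lintegral_indicator_one (hs.const_vadd g), Measure.restrict_apply (hs.const_vadd g)]
  simp_rw [h1]
  rw [← lintegral_tsum fun g => (measurable_one.indicator (hs.const_vadd g)).aemeasurable]
  refine (lintegral_mono (g := fun _ => (m : ℝ≥0∞)) fun x => ?_).trans (by simp)
  rw [ENNReal.tsum_eq_iSup_sum]
  refine iSup_le fun A => ?_
  have : ∑ g ∈ A, (g +ᵥ s).indicator (1 : α → ℝ≥0∞) x = ((A.filter fun g => x ∈ g +ᵥ s).card : ℕ) := by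
    rw [Finset.card_filter]
    push_cast
    exact Finset.sum_congr rfl fun g _ => by simp [Set.indicator_apply]
  rw [this]
  have h2 := h x (A.filter fun g => x ∈ g +ᵥ s) fun g hg => (Finset.mem_filter.mp hg).2
  exact Nat.cast_le.mpr h2

section

variable {K : Type*} [Field K] [NumberField K]

/-- All conjugates have absolute value at most `R`. -/
def Small (R : ℝ) (a : K) : Prop := ∀ φ : K →+* ℂ, ‖φ a‖ ≤ R

lemma many_integers (R : ℝ) (hR : 0 < R) (m : ℕ)
    (h : ∀ A : Finset K, (∀ a ∈ A, IsIntegral ℤ a) → (∀ a ∈ A, ∀ b ∈ A, Small R (a - b)) →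
      A.card ≤ m) :
    (R / 2) ^ finrank ℚ K ≤ m * √|(discr K : ℝ)| := by
  classical
  have h_fund := ZSpan.isAddFundamentalDomain' (mixedEmbedding.latticeBasis K) volume
  have : Countable (Submodule.span ℤ (Set.range (mixedEmbedding.latticeBasis K))).toAddSubgroup := by
    change Countable (Submodule.span ℤ (Set.range (mixedEmbedding.latticeBasis K)))
    infer_instance
  let r : ℝ≥0 := ⟨R / 2, by positivity⟩
  have hs : MeasurableSet (mixedEmbedding.convexBodyLT K fun _ => r) :=
    (MeasurableSet.univ_pi fun _ => measurableSet_ball).prod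
      (MeasurableSet.univ_pi fun _ => measurableSet_ball)
  have hpre : ∀ g : (Submodule.span ℤ (Set.range (mixedEmbedding.latticeBasis K))).toAddSubgroup,
      ∃ a : K, IsIntegral ℤ a ∧ mixedEmbedding K a = g := by
    rintro ⟨g, hg⟩
    obtain ⟨a, ha⟩ := (mixedEmbedding.mem_span_latticeBasis K).mp hg
    exact ⟨a, a.isIntegral_coe, ha⟩
  choose pre hpre1 hpre2 using hpre
  have hinj : Function.Injective pre := fun g g' e => Subtype.ext (by rw [← hpre2, ← hpre2, e])
  have key := multi_blichfeldt h_fund hs m (by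
    intro x A hA
    rw [← Finset.card_image_of_injective A hinj]
    refine h _ (fun a ha => ?_) fun a ha b hb => ?_
    · obtain ⟨g, -, rfl⟩ := Finset.mem_image.mp ha
      exact hpre1 g
    · obtain ⟨g, hg, rfl⟩ := Finset.mem_image.mp ha
      obtain ⟨g', hg', rfl⟩ := Finset.mem_image.mp hb
      obtain ⟨y, hy, e⟩ := hA g hg
      obtain ⟨y', hy', e'⟩ := hA g' hg'
      have e2 : mixedEmbedding K (pre g - pre g') = y' - y := by
        rw [map_sub, hpre2, hpre2]
        have e3 : (g : mixedEmbedding.mixedSpace K) + y = x := e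
        have e4 : (g' : mixedEmbedding.mixedSpace K) + y' = x := e'
        rw [sub_eq_sub_iff_add_eq_add, e3, add_comm, e4]
      have hmem : mixedEmbedding K (pre g - pre g') ∈
          mixedEmbedding.convexBodyLT K fun _ => r + r := by
        rw [e2]
        refine ⟨fun w _ => ?_, fun w _ => ?_⟩
        · have a1 := mem_ball_zero_iff.mp (hy.1 w trivial)
          have a2 := mem_ball_zero_iff.mp (hy'.1 w trivial)
          rw [mem_ball_zero_iff]
          exact (norm_sub_le _ _).trans_lt (by push_cast; linarith)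
        · have a1 := mem_ball_zero_iff.mp (hy.2 w trivial)
          have a2 := mem_ball_zero_iff.mp (hy'.2 w trivial)
          rw [mem_ball_zero_iff]
          exact (norm_sub_le _ _).trans_lt (by push_cast; linarith)
      intro φ
      have := (mixedEmbedding.convexBodyLT_mem K _).mp hmem (InfinitePlace.mk φ)
      rw [InfinitePlace.apply] at this
      refine this.le.trans_eq ?_
      change R / 2 + R / 2 = R
      ring)
  rw [mixedEmbedding.convexBodyLT_volume, mixedEmbedding.volume_fundamentalDomain_latticeBasis,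
    Finset.prod_pow_eq_pow_sum, InfinitePlace.sum_mult_eq] at key
  have k1 : ((r ^ finrank ℚ K : ℝ≥0) : ℝ≥0∞) ≤ m * (NNReal.sqrt ‖discr K‖₊ : ℝ≥0) := by
    refine le_trans ?_ (key.trans ?_)
    · refine le_mul_of_one_le_left zero_le ?_
      exact_mod_cast mixedEmbedding.one_le_convexBodyLTFactor K
    · gcongr
      refine mul_le_of_le_one_left zero_le (pow_le_one₀ zero_le (by simp))
  have k2 : (r ^ finrank ℚ K : ℝ≥0) ≤ m * NNReal.sqrt ‖discr K‖₊ := by exact_mod_cast k1
  have k3 := NNReal.coe_le_coe.mpr k2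
  rw [NNReal.coe_pow] at k3
  refine le_of_eq_of_le rfl (k3.trans_eq ?_)
  simp [Real.coe_sqrt, Int.norm_eq_abs]

lemma card_le_of_small (W : Submodule ℚ K) (R : ℝ) (A : Finset K)
    (h1 : ∀ a ∈ A, ∀ b ∈ A, IsIntegral ℤ (a - b) ∧ a - b ∈ W ∧ Small R (a - b)) :
    A.card ≤ (⌊R⌋₊ + 1) ^ finrank ℚ W := by
  let Λ : Submodule ℤ K := Submodule.span ℤ (Set.range (integralBasis K))
  have hΛ : ∀ x, x ∈ Λ ↔ IsIntegral ℤ x := by
    intro x
    rw [mem_span_integralBasis]
    exact ⟨fun ⟨a, ha⟩ => ha ▸ a.isIntegral_coe, fun h => ⟨⟨x, h⟩, rfl⟩⟩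
  have := count_mod Λ (Submodule.fg_span (Set.finite_range _)) W (⌊R⌋₊ + 1) (Nat.succ_pos _) A 1
    (fun a ha b hb => ⟨(hΛ _).mpr (h1 a ha b hb).1, (h1 a ha b hb).2.1⟩) ?_
  · simpa using this
  intro A' hA' hd
  rw [Finset.card_le_one]
  intro a ha b hb
  obtain ⟨c, hc, e⟩ := hd a ha b hb
  by_contra hne
  have hc0 : c ≠ 0 := fun h => hne (sub_eq_zero.mp (by rw [e, h, smul_zero]))
  have h2 := one_le_house_of_isIntegral ((hΛ c).mp hc) hc0
  have hN : (0 : ℝ) < (⌊R⌋₊ + 1 : ℕ) := by positivity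
  have h3 : house c < 1 := by
    rw [house, pi_norm_lt_iff one_pos]
    intro φ
    have h4 := (h1 a (hA' ha) b (hA' hb)).2.2 φ
    rw [e, Rat.smul_def, map_mul, norm_mul, Rat.cast_natCast, map_natCast, Complex.norm_natCast]
      at h4
    have h5 := Nat.lt_floor_add_one R
    rw [canonicalEmbedding.apply_at]
    by_contra h6
    have : ((⌊R⌋₊ + 1 : ℕ) : ℝ) * 1 ≤ ((⌊R⌋₊ + 1 : ℕ) : ℝ) * ‖φ c‖ := by
      gcongr; exact not_lt.mp h6
    push_cast at this h4
    linarith
  linarith

end

end Pool.Agent.Lib.MP_651af7_nt
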