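import Pool.Agent.Lib.MP_651af7_nt.IvDefs
import Pool.Agent.Lib.MP_651af7_nt.MW
import Pool.Agent.Lib.Common.ZeroLemma.NV

/-! Vocabulary shared by the parts of the proof of the gcd inequality on `E × E'`. -/

namespace Pool.Agent.Lib.MP_651af7_nt.Vj

open Pool.Agent.Lib.MP_e97e2b_nt Pool.Agent.Lib.MP_651af7_nt.Iv Pool.Agent.Lib.Common.Subspace Height

variable {K : Type} [Field K] [NumberField K]

/-- The sum over all places of `log max (1, min (|x|, |x'|))`, written with heights. -/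
noncomputable def gg (x x' : K) : ℝ := logHeight₁ x + logHeight₁ x' - logHeight ![1, x, x']

variable {A B A' B' : K}

/-- Height of the first coordinate. -/
noncomputable def ht (P : Pt A B) : ℝ := logHeight₁ (xc P)

/-- Height of a pair of points. -/
noncomputable def HH (X : Pt A B × Pt A' B') : ℝ := ht X.1 + ht X.2

/-- The pair violates the inequality with constant `η`. -/
def Bad (η : ℝ) (X : Pt A B × Pt A' B') : Prop := η * HH X ≤ gg (xc X.1) (xc X.2)

/-- The pair lies on an irreducible curve of bounded degree and small height. -/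
def Special (D : ℕ) (ε : ℝ) (X : Pt A B × Pt A' B') : Prop :=
  ∃ g : MvPolynomial (Fin 2) ℚ, Irreducible g ∧ IsInt g ∧ (∀ i, g.degreeOf i ≤ D) ∧
    len g ≤ Real.exp (ε * HH X) ∧ MvPolynomial.aeval ![xc X.1, xc X.2] g = 0

/-- `2 ^ j • X` is close to `Y`. -/
def Close (θ : ℝ) (j : ℕ) (X Y : Pt A B × Pt A' B') : Prop :=
  HH (Y - 2 ^ j • X) ≤ θ * HH Y ∧ HH Y ≤ 2 * (4 ^ j * HH X) ∧ 4 ^ j * HH X ≤ 2 * HH Y

lemma ht_nonneg (P : Pt A B) : 0 ≤ ht P := zero_le_logHeight₁ _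

lemma HH_nonneg (X : Pt A B × Pt A' B') : 0 ≤ HH X := add_nonneg (ht_nonneg _) (ht_nonneg _)

lemma ht_eq_hx (P : Pt A B) : ht P = Pool.Agent.MP_651af7_nt.MW.hx (W := sw A B) P := by
  rcases P.cases with rfl | ⟨x, y, h, rfl⟩
  · exact (logHeight₁_zero).trans (Pool.Agent.MP_651af7_nt.MW.hx_zero (W := sw A B)).symm
  · exact (Pool.Agent.MP_651af7_nt.MW.hx_some (W := sw A B) (ns_iff.2 h)).symm

lemma isElliptic (hD : 4 * A ^ 3 + 27 * B ^ 2 ≠ 0) : WeierstrassCurve.IsElliptic (sw A B) := by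
  refine ⟨isUnit_iff_ne_zero.2 fun h => hD ?_⟩
  simp only [sw, WeierstrassCurve.Δ, WeierstrassCurve.b₂, WeierstrassCurve.b₄,
    WeierstrassCurve.b₆, WeierstrassCurve.b₈] at h
  linear_combination (-1 / 16 : K) * h

/-- The approximate parallelogram law. -/
lemma ht_par (hD : 4 * A ^ 3 + 27 * B ^ 2 ≠ 0) :
    ∃ C, ∀ P Q : Pt A B, |ht (P + Q) + ht (P - Q) - 2 * (ht P + ht Q)| ≤ C := by
  classical
  have := isElliptic hD
  obtain ⟨C, hC⟩ := @Pool.Agent.MP_651af7_nt.MW.parallelogram_approx K _ _ (sw A B)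
    (Classical.decEq K) this
  refine ⟨C, fun P Q => ?_⟩
  simp only [ht_eq_hx]
  exact hC P Q

/-- The canonical height as a squared Euclidean norm. -/
lemma ht_euclid (hD : 4 * A ^ 3 + 27 * B ^ 2 ≠ 0) :
    ∃ (r : ℕ) (φ : Pt A B →+ EuclideanSpace ℝ (Fin r)) (C : ℝ), ∀ P, |‖φ P‖ ^ 2 - ht P| ≤ C := by
  have := isElliptic hD
  obtain ⟨r, φ, C, hC⟩ := @Pool.Agent.MP_651af7_nt.MW.exists_euclid K _ _ (Classical.decEq K)
    (sw A B) this
  exact ⟨r, φ, C, fun P => by rw [ht_eq_hx]; exact hC P⟩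

end Pool.Agent.Lib.MP_651af7_nt.Vj
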