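import Pool.Agent.Lib.MP_651af7_nt.VjIface
import Pool.Agent.Lib.MP_651af7_nt.MWCell

/-! Finitely many cells of almost proportional points. -/

namespace Pool.Agent.Lib.MP_651af7_nt.Vj

open Pool.Agent.Lib.MP_e97e2b_nt Pool.Agent.Lib.MP_651af7_nt.Iv Height
open Pool.Agent.MP_651af7_nt.MW

theorem cells_abs {G V : Type*} [AddCommGroup G] [NormedAddCommGroup V] [InnerProductSpace ℝ V]
    [FiniteDimensional ℝ V] (φ : G →+ V) (h : G → ℝ) (C : ℝ) (H : ∀ X, |‖φ X‖ ^ 2 - h X| ≤ C)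
    (θ : ℝ) (hθ : 0 < θ) :
    ∃ (n : ℕ) (cell : G → Fin n) (H₀ : ℝ), ∀ X Y, cell X = cell Y → H₀ ≤ h X → 8 * h X ≤ h Y →
      ∃ j : ℕ, h (Y - 2 ^ j • X) ≤ θ * h Y ∧ h Y ≤ 2 * (4 ^ j * h X) ∧ 4 ^ j * h X ≤ 2 * h Y := by
  have := FiniteDimensional.proper_real V
  have C0 : 0 ≤ C := (abs_nonneg _).trans (H 0)
  set δ := min (1 / 72) (θ / 36) with hδ
  have δ0 : 0 < δ := lt_min (by norm_num) (by positivity)
  have δ1 : δ ≤ 1 / 72 := min_le_left _ _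
  have δ2 : δ ≤ θ / 36 := min_le_right _ _
  obtain ⟨N, c, hc⟩ := exists_ball_cells V δ0
  choose k hk₁ hk₂ using fun X : G => exists_pow_four (‖φ X‖ ^ 2)
  have e4 : ∀ j : ℕ, ((2 : ℝ) ^ j) ^ 2 = 4 ^ j := fun j => by
    rw [← pow_mul, mul_comm, pow_mul]; norm_num
  have nb : ∀ X, ‖((2 : ℝ) ^ k X)⁻¹ • φ X‖ ≤ 2 := fun X => by
    have T0 : (0 : ℝ) < 2 ^ k X := by positivity
    rw [norm_smul, norm_inv, Real.norm_of_nonneg T0.le, inv_mul_le_iff₀ T0]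
    refine le_of_sq_le_sq ?_ (by positivity)
    rw [mul_pow, e4]
    linarith [hk₂ X]
  refine ⟨N, fun X => c (((2 : ℝ) ^ k X)⁻¹ • φ X), 20 * C + 1 + 10 * C / θ,
    fun X Y hXY hX hY => ?_⟩
  have q0 : 0 ≤ 10 * C / θ := by positivity
  have aX := abs_le.mp (H X)
  have aY := abs_le.mp (H Y)
  have kX : (4 : ℝ) ^ k X ≤ h X + C :=
    (hk₁ X).trans (max_le (by linarith [aX.2]) (by linarith))
  have kY : (4 : ℝ) ^ k Y ≤ 2 * h Y :=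
    (hk₁ Y).trans (max_le (by linarith [aY.2]) (by linarith))
  have hk : k X ≤ k Y := by
    by_contra hlt
    have h1 : (4 : ℝ) ^ (k Y + 1) ≤ 4 ^ k X := pow_le_pow_right₀ (by norm_num) (by omega)
    rw [pow_succ] at h1
    linarith [hk₂ Y, aY.1]
  obtain ⟨p₁, -, -, p₄⟩ := one_cell_est H hk δ0.le (by linarith) (nb Y)
    (hc _ _ (nb X) (nb Y) hXY)
  have hY0 : 0 ≤ h Y := by linarith
  have b1 : 9 * δ * 4 ^ k Y ≤ 9 * δ * (2 * h Y) := mul_le_mul_of_nonneg_left kY (by positivity)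
  have b2 : 5 * C * 4 ^ (k Y - k X) ≤ h X / 4 * 4 ^ (k Y - k X) :=
    mul_le_mul_of_nonneg_right (by linarith) (by positivity)
  have b3 : 10 * C ≤ θ * h Y := by
    have : 10 * C / θ ≤ h Y := by linarith
    rwa [div_le_iff₀' hθ] at this
  have b4 : δ * h Y ≤ 1 / 72 * h Y := mul_le_mul_of_nonneg_right δ1 hY0
  have b5 : δ * h Y ≤ θ / 36 * h Y := mul_le_mul_of_nonneg_right δ2 hY0
  have p₄' := abs_le.mp p₄
  have b6 : 0 ≤ 4 ^ (k Y - k X) * h X := mul_nonneg (by positivity) (by linarith)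
  refine ⟨k Y - k X, by linarith, by linarith [p₄'.1], by linarith [p₄'.2]⟩

variable {K : Type} [Field K] [NumberField K]

theorem cells {A B A' B' : K} (hD : 4 * A ^ 3 + 27 * B ^ 2 ≠ 0)
    (hD' : 4 * A' ^ 3 + 27 * B' ^ 2 ≠ 0) (θ : ℝ) (hθ : 0 < θ) :
    ∃ (n : ℕ) (cell : Pt A B × Pt A' B' → Fin n) (H₀ : ℝ), ∀ X Y, cell X = cell Y →
      H₀ ≤ HH X → 8 * HH X ≤ HH Y → ∃ j, Close θ j X Y := by
  obtain ⟨r, φ, C, hC⟩ := ht_euclid hD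
  obtain ⟨r', φ', C', hC'⟩ := ht_euclid hD'
  let ψ : Pt A B × Pt A' B' →+
      WithLp 2 (EuclideanSpace ℝ (Fin r) × EuclideanSpace ℝ (Fin r')) :=
    AddMonoidHom.mk' (fun X => WithLp.toLp 2 (φ X.1, φ' X.2)) fun X Y => by
      rw [← WithLp.toLp_add]
      simp
  refine cells_abs ψ HH (C + C') (fun X => ?_) θ hθ
  have e : ‖ψ X‖ ^ 2 = ‖φ X.1‖ ^ 2 + ‖φ' X.2‖ ^ 2 := WithLp.prod_norm_sq_eq_of_L2 _
  have h1 := abs_le.mp (hC X.1)
  have h2 := abs_le.mp (hC' X.2)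
  rw [e, HH, abs_le]
  constructor <;> linarith [h1.1, h1.2, h2.1, h2.2]

end Pool.Agent.Lib.MP_651af7_nt.Vj
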