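import Pool.Agent.Lib.MP_651af7_nt.Vj.CvCore
import Pool.Agent.Lib.MP_651af7_nt.Vj.CvInd
import Pool.Agent.Lib.MP_651af7_nt.Vj.CvPt
import Pool.Agent.Lib.MP_651af7_nt.P1Sig

/-! Phase two: bad points on small curves lie on finitely many fixed curves. -/

namespace Pool.Agent.Lib.MP_651af7_nt.Vj

open Pool.Agent.Lib.MP_e97e2b_nt Pool.Agent.Lib.MP_651af7_nt.Iv Pool.Agent.Lib.Common.Subspace Height

variable {K : Type} [Field K] [NumberField K]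

lemma num_two {η k n ν q H H' θ C C' ε x x' y y' p p' dd : ℝ} (hk : 8 ≤ k * η) (hk0 : 0 ≤ k)
    (hn : 0 ≤ n) (hν : ν ≤ q) (hH : H = x + y) (hH' : H' = x' + y') (hx : 0 ≤ x) (hy : 0 ≤ y)
    (h0 : 0 < H') (hq : 0 ≤ q) (hc : q * H ≤ 2 * H') (hb : η * H' ≤ x') (hθ : n * θ ≤ 1)
    (hdd : dd ≤ θ * H') (hC : C * ε ≤ 1 / 2) (hC' : n * C' ≤ H)
    (hp : 2 * H' + 2 * (q * H) - dd - C' * q ≤ p + p')
    (h : n * (p + p') ≤ (2 * n * q + ν) * x + 2 * n * q * y + (2 * n - k) * x' + 2 * n * y' +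
      (1 / 2 + C * ε) * (q * H)) : False := by
  have h1 := mul_le_mul_of_nonneg_left hp hn
  have h2 := mul_le_mul_of_nonneg_left hdd hn
  have h3 := mul_le_mul_of_nonneg_right hθ h0.le
  have h4 := mul_le_mul_of_nonneg_right hC' hq
  have h5 := mul_le_mul_of_nonneg_right hν hx
  have h6 := mul_le_mul_of_nonneg_left hb hk0
  have h7 := mul_le_mul_of_nonneg_right hk h0.le
  have h8 := mul_nonneg hq hy
  have h9 := mul_le_mul_of_nonneg_right hC (show 0 ≤ q * H by rw [hH]; positivity)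
  subst hH hH'
  linarith

theorem phase2 (a b a' b' : ℤ) (hD : 4 * a ^ 3 + 27 * b ^ 2 ≠ 0)
    (hD' : 4 * a' ^ 3 + 27 * b' ^ 2 ≠ 0) (η : ℝ) (hη : 0 < η) (D : ℕ) :
    ∃ (ε θ H₀ : ℝ), 0 < ε ∧ 0 < θ ∧ ∀ X : Pt (a : K) (b : K) × Pt (a' : K) (b' : K),
      H₀ ≤ HH X → Bad η X → Special D ε X →
      ∃ (Θ : MvPolynomial (Fin 2) K) (H₁ : ℝ), Θ ≠ 0 ∧
        ∀ (Y : Pt (a : K) (b : K) × Pt (a' : K) (b' : K)) (j : ℕ), H₁ ≤ HH Y → Bad η Y →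
          Special D ε Y → Close θ j X Y → MvPolynomial.aeval ![xc Y.1, xc Y.2] Θ = 0 := by
  obtain ⟨k, hk⟩ := exists_nat_ge (8 / η)
  obtain ⟨N, hN⟩ : ∃ N, N = 5000 * (D + 1) ^ 2 := ⟨_, rfl⟩
  have N0 : 0 < N := by rw [hN]; positivity
  obtain ⟨n, hn⟩ : ∃ n, n = 512 * (D + 4) ^ 5 * (k + 2) * (2 * N) := ⟨_, rfl⟩
  have n1 : k + D + 2 ≤ 2 * n := by
    have e1 : D + 4 ≤ (D + 4) ^ 5 := Nat.le_self_pow (by norm_num) _
    have e2 : (D + 4) * (k + 2) * 1 ≤ (D + 4) ^ 5 * (k + 2) * N :=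
      Nat.mul_le_mul (Nat.mul_le_mul_right _ e1) N0
    nlinarith
  obtain ⟨C, s₀, hC, H⟩ := core (K := K) a b a' b' D k n n1 (θ := 1 / 2) (by norm_num)
  obtain ⟨ε₀, H₀, hε₀, H₁⟩ := special_facts (K := K) D hη
  obtain ⟨C₁, c₁, f₁, g₁, h₁⟩ := ht_facts (A := (a : K)) (B := b) (by exact_mod_cast hD)
  obtain ⟨C₂, c₂, f₂, g₂, h₂⟩ := ht_facts (A := (a' : K)) (B := b') (by exact_mod_cast hD')
  set ε : ℝ := min ε₀ (min 1 η / (8 * C)) with hε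
  have μ0 : 0 < min 1 η := lt_min one_pos hη
  have ε0 : 0 < ε := by positivity
  have ε1 : 8 * C * ε ≤ min 1 η := by
    have := (le_div_iff₀ (by positivity)).1 (min_le_right ε₀ (min 1 η / (8 * C)))
    linarith
  have ε2 : 8 * C * ε ≤ 1 := ε1.trans (min_le_left _ _)
  have ε3 : 8 * C * ε ≤ η := ε1.trans (min_le_right _ _)
  set θ : ℝ := min η (1 / (n + 1)) with hθ
  have θ0 : 0 < θ := by positivity
  have θ1 : n * θ ≤ 1 := by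
    have := (le_div_iff₀ (by positivity)).1 (min_le_right η (1 / (n + 1)))
    nlinarith
  have u1 : 0 ≤ C / ε := by positivity
  have u2 : 0 ≤ (C₁ + C₂) / η := by positivity
  have u3 : 0 ≤ n * (3 * (C₁ + C₂)) := by positivity
  refine ⟨ε, θ, |H₀| + C / ε + (C₁ + C₂) / η + n * (3 * (C₁ + C₂)) + 1, ε0, θ0,
    fun X X1 X2 ⟨φ₁, i₁, j₁, d₁, l₁, z₁⟩ => ?_⟩
  have key : ∀ Y : Pt (a : K) (b : K) × Pt (a' : K) (b' : K), HH X ≤ HH Y → Bad η Y →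
      η * HH Y ≤ ht Y.1 ∧ η * HH Y ≤ ht Y.2 ∧ C₁ + C₂ < η * HH Y ∧ H₀ ≤ HH Y := fun Y e1 e2 => by
    refine ⟨e2.trans (P1.gg_le_left _ _), e2.trans (P1.gg_le_right _ _), ?_,
      by linarith [le_abs_self H₀]⟩
    rw [← div_lt_iff₀' hη]
    linarith [abs_nonneg H₀]
  have X0 : 1 ≤ HH X := by linarith [abs_nonneg H₀]
  obtain ⟨x1, x2, x3, x4⟩ := key X le_rfl X2
  obtain ⟨x5, x6, -⟩ := H₁ ε _ _ _ φ₁ ε0 (min_le_left _ _) x4 (gg_eq_hE (K := K) _ _ ▸ X2) i₁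
    ⟨j₁, l₁⟩ d₁ z₁
  obtain ⟨p1, p2, p3⟩ := h₁ X.1 (by linarith)
  obtain ⟨q1, q2, q3⟩ := h₂ X.2 (by linarith)
  obtain ⟨u, hu⟩ := exists_br (z := crd X) (eq_pt p1).1.1 (eq_pt q1).1.1 z₁ p2 q2 (x6 1)
  obtain ⟨r₀, Θ, hΘ, H₂⟩ := indep_series (K := K) hD hD' D φ₁ i₁ fun i => ⟨x5 i, d₁ i⟩
  refine ⟨Θ, 2 * (4 ^ (s₀ + r₀ + N) * HH X), hΘ,
    fun Y s Y1 Y2 ⟨φ₂, i₂, j₂, d₂, l₂, z₂⟩ ⟨k1, k2, k3⟩ => ?_⟩
  have s1 : s₀ + r₀ + N ≤ s := by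
    have e1 : (4 : ℝ) ^ (s₀ + r₀ + N) ≤ 4 ^ s :=
      le_of_mul_le_mul_right (by linarith) (show 0 < HH X by linarith)
    exact (pow_le_pow_iff_right₀ (by norm_num)).1 e1
  have s2 : (1 : ℝ) ≤ 4 ^ s := one_le_pow₀ (by norm_num)
  have XY : HH X ≤ HH Y := by
    have : (1 : ℝ) ≤ 4 ^ (s₀ + r₀ + N) := one_le_pow₀ (by norm_num)
    linarith [mul_le_mul_of_nonneg_right this (HH_nonneg X)]
  obtain ⟨y1, y2, y3, y4⟩ := key Y XY Y2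
  obtain ⟨y5, y6, y7⟩ := H₁ ε _ _ _ φ₂ ε0 (min_le_left _ _) y4 (gg_eq_hE (K := K) _ _ ▸ Y2) i₂
    ⟨j₂, l₂⟩ d₂ z₂
  obtain ⟨p4, p5, -⟩ := h₁ Y.1 (by linarith)
  obtain ⟨q4, q5, -⟩ := h₂ Y.2 (by linarith)
  obtain ⟨u', hu'⟩ := exists_br (z := crd Y) (eq_pt p4).1.1 (eq_pt q4).1.1 z₂ p5 q5 (y6 1)
  have k4 : ht (Y.1 - 2 ^ s • X.1) + ht (Y.2 - 2 ^ s • X.2) ≤ θ * HH Y := k1
  have k5 : θ * HH Y ≤ η * HH Y :=
    mul_le_mul_of_nonneg_right (min_le_left _ _) (HH_nonneg _)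
  have m1 := g₁ Y.1 (2 ^ s • X.1)
  have m2 := g₂ Y.2 (2 ^ s • X.2)
  have m3 : Y.1 + 2 ^ s • X.1 ≠ 0 := fun e => by
    rw [e, show ht (0 : Pt (a : K) (b : K)) = 0 from logHeight₁_zero] at m1
    linarith [ht_nonneg (2 ^ s • X.1), ht_nonneg (Y.2 - 2 ^ s • X.2)]
  have m4 : Y.2 + 2 ^ s • X.2 ≠ 0 := fun e => by
    rw [e, show ht (0 : Pt (a' : K) (b' : K)) = 0 from logHeight₁_zero] at m2
    linarith [ht_nonneg (2 ^ s • X.2), ht_nonneg (Y.1 - 2 ^ s • X.1)]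
  obtain ⟨m5, m6⟩ := sumData_pt p1 p4 (p3 s) m3
  obtain ⟨m7, m8⟩ := sumData_pt q1 q4 (q3 s) m4
  have s3 : N ≤ 4 ^ s := (show N ≤ s by omega).trans (Nat.lt_pow_self (by norm_num)).le
  have s4 : 0 < 4 ^ s / N := Nat.div_pos s3 N0
  have s5 : N * (4 ^ s / N) ≤ 4 ^ s := Nat.mul_div_le _ _
  have s6 : 4 ^ s < N * (4 ^ s / N + 1) := Nat.lt_mul_div_succ _ N0
  have s7 : 4 ^ s / N ≤ 4 ^ s := Nat.div_le_self _ _
  refine (H₂ φ₂ _ _ u u' s (4 ^ s / N) n i₂ (d₂ 1) y7 hu hu' (y6 0) m5 m7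
    ((show r₀ ≤ s by omega).trans (Nat.lt_pow_self (by norm_num)).le)
    (le_trans (Nat.mul_le_mul_right _ (hN ▸ Nat.mul_le_mul_left _ (Nat.pow_le_pow_left D.le_succ 2))) s5)).resolve_right fun hne => ?_
  have m9 := H (2 * ε) (HH X) s (4 ^ s / N) φ₁ φ₂ _ _ u u' _ _ (by positivity)
    (by linarith [mul_le_mul_of_nonneg_right hC ε0.le])
    (by
      have : C / ε ≤ HH X := by linarith [abs_nonneg H₀]
      rw [div_le_iff₀' ε0] at this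
      linarith) (by omega) s4 s7
    (by
      rw [hn, mul_assoc _ (2 * N)]
      refine Nat.mul_le_mul_left _ ?_
      have := Nat.mul_le_mul_left N s4
      rw [mul_add] at s6
      rw [mul_assoc]
      omega)
    ⟨j₁, l₁.trans (Real.exp_le_exp.2 (by linarith [mul_nonneg ε0.le (HH_nonneg X)]))⟩
    ⟨j₂, l₂.trans (Real.exp_le_exp.2 (by linarith [mul_le_mul_of_nonneg_left k2 ε0.le]))⟩
    d₁ (x5 1) i₂.ne_zero d₂ hu hu' le_rfl m6 m8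
    hne (lt_of_lt_of_le (by
      linarith [mul_le_mul_of_nonneg_right ε3 (HH_nonneg X),
        mul_pos hη (show 0 < HH X by linarith)]) x1)
    (lt_of_lt_of_le (by
      have e1 := mul_le_mul_of_nonneg_left k3 hη.le
      have e2 := mul_le_mul_of_nonneg_right ε3 (show 0 ≤ 4 ^ s * HH X by positivity)
      have e3 : 0 < η * (4 ^ s * HH X) := by positivity
      linarith) y1)
  refine num_two (θ := θ) (C' := 3 * (C₁ + C₂)) ((div_le_iff₀ hη).1 hk) (Nat.cast_nonneg _)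
    (Nat.cast_nonneg _) (by exact_mod_cast s7) rfl rfl (ht_nonneg _) (ht_nonneg _)
    (show 0 < HH Y by linarith) (by positivity) k3 y1 θ1 k4 (by linarith)
    (show _ ≤ HH X by linarith [abs_nonneg H₀]) ?_ m9
  have e1 := f₁ X.1 s
  have e2 := f₂ X.2 s
  have e3 := mul_le_mul_of_nonneg_left s2 (add_nonneg c₁ c₂)
  change _ ≤ ht (Y.1 + 2 ^ s • X.1) + ht (Y.2 + 2 ^ s • X.2)
  linarith

end Pool.Agent.Lib.MP_651af7_nt.Vj
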