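import Pool.Agent.Lib.MP_651af7_nt.VjAsm
import Pool.Agent.Lib.MP_651af7_nt.VjP1
import Pool.Agent.Lib.MP_651af7_nt.VjP2
import Pool.Agent.Lib.MP_651af7_nt.FinCore

/-! Assembly: cells, phase 1 and phase 2 give the inequality for short integral curves. -/

namespace Pool.Agent.Lib.MP_651af7_nt.Vj

open Pool.Agent.Lib.MP_e97e2b_nt Pool.Agent.Lib.MP_651af7_nt.Iv Pool.Agent.Lib.Common.Subspace Height

theorem main_short {K : Type} [Field K] [NumberField K] (a b a' b' : ℤ)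
    (hD : 4 * a ^ 3 + 27 * b ^ 2 ≠ 0) (hD' : 4 * a' ^ 3 + 27 * b' ^ 2 ≠ 0) (η : ℝ) (hη : 0 < η) :
    ∃ (F : MvPolynomial (Fin 2) K) (C : ℝ), F ≠ 0 ∧
      ∀ X : Pt (a : K) (b : K) × Pt (a' : K) (b' : K),
        MvPolynomial.aeval ![xc X.1, xc X.2] F ≠ 0 → gg (xc X.1) (xc X.2) ≤ η * HH X + C :=
  main_of_phases (by exact_mod_cast hD) (by exact_mod_cast hD') η hη
    (P1.phase1 a b a' b' hD hD' η hη) (phase2 a b a' b' hD hD' η hη)

theorem core_main : Pool.Agent.MP_651af7_nt.Final.Core :=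
  Pool.Agent.MP_651af7_nt.Final.core_of_main fun _ _ _ => main_short

end Pool.Agent.Lib.MP_651af7_nt.Vj
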